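import Pool.Agent.Lib.MP_4e5fcd_ag.CN.V2
import Pool.Agent.Lib.MP_4e5fcd_ag.CN.V3

/-!
# TV-E1: visible eigenvalues under étale coordinates, converse direction

`vis_push`: let `γ` be the `n`-jet at `p` of `Vis χ I p lam`. `γ' = cj (u_e) γ` is an `n`-jet at
`u_e (p)` (`bp_cj`), `OrdGe G n γ'` (`ordGe_chart`, E3), some coefficient of index `n` is `≠ 0` (`ne_chart`), and
the Lefschetz numbers are the same (`chi_CA_chart`, E5), so the same `Z` works.
`vis_of_locPull`: unpack `LocPull` (`u_e (p) = 0`).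
-/

open MvPolynomial

namespace MotMono
namespace TV

open CN

theorem vis_push {N k : ℕ} {I : Ideal (MvPolynomial (Fin N) ℂ)}
    {G : Ideal (MvPolynomial (Fin k) ℂ)} {u : Fin N → MvPolynomial (Fin N) ℂ}
    {e : Fin k → Fin N} {h : MvPolynomial (Fin N) ℂ} {χ : K0 →+* ℤ} (hχ : IsEulerCharF χ)
    (c : Chart I G u e h) (p : Fin N → ℂ) (hp : eval p h ≠ 0) (hj : eval p (jacDet u) ≠ 0)
    (lam : ℂ) (hv : CN.Vis χ I p lam) : CN.Vis χ G (fun i => eval p (u (e i))) lam := by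
  obtain ⟨n, γ, hn, hb, ho, hne, Z, hZ, hZP⟩ := hv
  have hp' : eval (bp γ) h ≠ 0 := by rw [hb]; exact hp
  have hj' : eval (bp γ) (jacDet u) ≠ 0 := by rw [hb]; exact hj
  have hb' : bp (cj (fun i => u (e i)) γ) = fun i => eval p (u (e i)) := by
    rw [bp_cj, hb]
  refine ⟨n, cj (fun i => u (e i)) γ, hn, hb', (ordGe_chart c γ hp' (Nat.le_succ n)).1 ho,
    (ne_chart c γ hp' ho).1 hne, Z, ?_, hZP⟩
  have hfun : (fun d => χ (cls (CA G (fun i => eval p (u (e i)))
      (fun f => (along f (cj (fun i => u (e i)) γ)).coeff n) d))) =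
      fun d => χ (cls (CA I p (fun f => (along f γ).coeff n) d)) := by
    funext d
    have h3 := chi_CA_chart hχ c γ hp' hj' ho d
    rw [hb', hb] at h3
    exact h3.symm
  rw [hfun]
  exact hZ

theorem vis_of_locPull {N k : ℕ} {χ : K0 →+* ℤ} (hχ : IsEulerCharF χ)
    {I : Ideal (MvPolynomial (Fin N) ℂ)} {p : Fin N → ℂ} {G : Ideal (MvPolynomial (Fin k) ℂ)}
    (h : LocPull I p G) {lam : ℂ} (hv : CN.Vis χ I p lam) : CN.Vis χ G 0 lam := by
  obtain ⟨u, e, g, hinj, hg, hj, hu, hpush, hpull⟩ := h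
  have c : Chart I G u e g := ⟨hinj, hpush, hpull⟩
  have h1 := vis_push hχ c p hg hj lam hv
  have h2 : (fun i => eval p (u (e i))) = (0 : Fin k → ℂ) := funext hu
  rwa [h2] at h1

end TV
end MotMono
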