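import Pool.Agent.Lib.MP_4e5fcd_ag.TV.Y0
import Pool.Agent.Lib.MP_4e5fcd_ag.CN.P2
import Pool.Agent.Lib.MP_4e5fcd_ag.CN.P3

/-!
# TV-Y3: powers of ideals: orders and the zeta functions

* `ordGe_pow`: `⇐`: `I ^ k` is spanned by products of `k` elements (induction on `k` with
  `Submodule.mul_induction_on`, or `Ideal.pow_le..`: the set of polynomials with coefficients `< k j` zero along `γ` is
  stable under the operations, `along (f g) γ = along f γ * along g γ`); `⇒`: if `f ∈ I` has order `l < j` along `γ`,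
  `f ^ k` has the non-zero coefficient `(coeff l) ^ k` at `k l < k j`.
* `exOrd_pow`: for `k ∣ m`, `m = k j`: `∃ f ∈ I ^ k`, coefficient `k j` not zero iff `∃ f ∈ I`, coefficient `j` not zero
  (coefficient `k j` of a product of `k` elements of order `≥ j` is the product of the coefficients `j`).
* `exOrd_pow_not`: if `k ∤ m`: let `l` be the minimal order of the elements of `I` along `γ` (as polynomials); then the minimal
  order of `I ^ k` is `k l ≠ m`.
* `Zf_pow`: coefficient of `X ^ m`: `0` if `k ∤ m`; if `m = k j`: `fam (I ^ k) Γ m = {z | tr z ∈ fam I Γ j}` (`along_tr`), `cls_trunc`,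
  and `L^(N (m - j)) L^(-N (m+1)) = L^(-N (j+1))` (`algebraMap K0 MC LL = Lu`: `IsLocalization.Away.algebraMap_isUnit`, `IsUnit.unit_spec`).
-/

open MvPolynomial

namespace MotMono
namespace TV

open CN

private theorem y3_along_mul {N n : ℕ} (f g : MvPolynomial (Fin N) ℂ) (γ : Fin N × Fin n → ℂ) :
    along (f * g) γ = along f γ * along g γ := map_mul _ _ _

private theorem y3_along_add {N n : ℕ} (f g : MvPolynomial (Fin N) ℂ) (γ : Fin N × Fin n → ℂ) :
    along (f + g) γ = along f γ + along g γ := map_add _ _ _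

private theorem y3_along_pow {N n : ℕ} (f : MvPolynomial (Fin N) ℂ) (k : ℕ)
    (γ : Fin N × Fin n → ℂ) : along (f ^ k) γ = along f γ ^ k := map_pow _ _ _

private theorem y3_dvd_pow {N m : ℕ} (I : Ideal (MvPolynomial (Fin N) ℂ))
    (γ : Fin N × Fin m → ℂ) (n : ℕ) (h : OrdGe I n γ) (k : ℕ) :
    ∀ c ∈ I ^ k, Polynomial.X ^ (k * n) ∣ along c γ := by
  induction k with
  | zero => intro c _; simp
  | succ k ih =>
    intro c hc
    rw [pow_succ] at hc
    refine Submodule.mul_induction_on hc (fun a ha b hb => ?_) (fun a b ha hb => ?_)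
    · rw [y3_along_mul, Nat.succ_mul, pow_add]
      exact mul_dvd_mul (ih a ha) (Polynomial.X_pow_dvd_iff.2 (h b hb))
    · rw [y3_along_add]
      exact dvd_add ha hb

private theorem y3_dvd_of_pow (a : Polynomial ℂ) {k : ℕ} (hk : 0 < k) (m : ℕ)
    (h : Polynomial.X ^ m ∣ a ^ k) : ∀ j, k * j < m + k → Polynomial.X ^ j ∣ a := by
  intro j
  induction j with
  | zero => intro _; simp
  | succ j ih =>
    intro hj
    rw [Nat.mul_succ] at hj
    obtain ⟨b, hb⟩ := ih (by omega)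
    have hlt : k * j < m := by omega
    obtain ⟨e, rfl⟩ := Nat.exists_eq_add_of_lt hlt
    rw [hb, mul_pow, ← pow_mul, mul_comm j k, add_assoc, pow_add] at h
    have h1 : Polynomial.X ^ (e + 1) ∣ b ^ k :=
      (mul_dvd_mul_iff_left (pow_ne_zero _ Polynomial.X_ne_zero)).1 h
    have h2 : Polynomial.X ∣ b ^ k := (dvd_pow_self _ (by omega)).trans h1
    have h3 : Polynomial.X ∣ b := Polynomial.prime_X.dvd_of_dvd_pow h2
    rw [hb, pow_succ]
    exact mul_dvd_mul_left _ h3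

private theorem y3_ordGe {N n : ℕ} (I : Ideal (MvPolynomial (Fin N) ℂ)) {k : ℕ} (hk : 0 < k)
    (m j : ℕ) (γ : Fin N × Fin n → ℂ) (hj : k * j < m + k) (h : OrdGe (I ^ k) m γ) :
    OrdGe I j γ := by
  intro f hf
  refine Polynomial.X_pow_dvd_iff.1 (y3_dvd_of_pow (along f γ) hk m ?_ j hj)
  rw [← y3_along_pow]
  exact Polynomial.X_pow_dvd_iff.2 (h _ (Ideal.pow_mem_pow hf k))

theorem ordGe_pow {N n : ℕ} (I : Ideal (MvPolynomial (Fin N) ℂ)) {k : ℕ} (hk : 0 < k) (j : ℕ)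
    (γ : Fin N × Fin n → ℂ) : OrdGe (I ^ k) (k * j) γ ↔ OrdGe I j γ := by
  constructor
  · exact y3_ordGe I hk (k * j) j γ (by omega)
  · intro h f hf
    exact Polynomial.X_pow_dvd_iff.1 (y3_dvd_pow I γ j h k f hf)

theorem coeff_pow_ne {N n : ℕ} (I : Ideal (MvPolynomial (Fin N) ℂ)) {k : ℕ} (hk : 0 < k) (j : ℕ)
    (γ : Fin N × Fin n → ℂ) (h : OrdGe I j γ) :
    (∃ f ∈ I ^ k, (along f γ).coeff (k * j) ≠ 0) ↔ ∃ f ∈ I, (along f γ).coeff j ≠ 0 := by
  constructor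
  · rintro ⟨f, hf, hne⟩
    by_contra hcon
    push Not at hcon
    have h1 : OrdGe I (j + 1) γ := by
      intro g hg l hl
      rcases Nat.lt_succ_iff_lt_or_eq.1 hl with h2 | h2
      · exact h g hg l h2
      · rw [h2]; exact hcon g hg
    exact hne (Polynomial.X_pow_dvd_iff.1 (y3_dvd_pow I γ (j + 1) h1 k f hf) (k * j)
      (by rw [Nat.mul_succ]; omega))
  · rintro ⟨f, hf, hne⟩
    refine ⟨f ^ k, Ideal.pow_mem_pow hf k, ?_⟩
    obtain ⟨u, hu⟩ := Polynomial.X_pow_dvd_iff.2 (h f hf)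
    rw [y3_along_pow, hu, mul_pow, ← pow_mul, mul_comm j k]
    have c1 := Polynomial.coeff_X_pow_mul (u ^ k) (k * j) 0
    rw [zero_add] at c1
    rw [c1, Polynomial.coeff_zero_eq_eval_zero, Polynomial.eval_pow]
    refine pow_ne_zero _ ?_
    rw [hu] at hne
    have c2 := Polynomial.coeff_X_pow_mul u j 0
    rw [zero_add] at c2
    rwa [c2, Polynomial.coeff_zero_eq_eval_zero] at hne

theorem exOrd_pow_not {N n : ℕ} (I : Ideal (MvPolynomial (Fin N) ℂ)) {k : ℕ} (hk : 0 < k) (m : ℕ)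
    (hm : ¬ k ∣ m) (γ : Fin N × Fin n → ℂ) (h : OrdGe (I ^ k) m γ) :
    ∀ f ∈ I ^ k, (along f γ).coeff m = 0 := by
  intro f hf
  have hr : 0 < m % k := Nat.pos_of_ne_zero fun h0 => hm (Nat.dvd_of_mod_eq_zero h0)
  have hr' : m % k < k := Nat.mod_lt _ hk
  have hq := Nat.div_add_mod m k
  have h1 : OrdGe I (m / k + 1) γ := y3_ordGe I hk m _ γ (by rw [Nat.mul_succ]; omega) h
  exact Polynomial.X_pow_dvd_iff.1 (y3_dvd_pow I γ _ h1 k f hf) m (by rw [Nat.mul_succ]; omega)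

private theorem y3_LL_pow (k : ℕ) : algebraMap K0 MC (LL ^ k) = ((Lu ^ (k : ℤ) : MCˣ) : MC) := by
  have h : algebraMap K0 MC LL = ((Lu : MCˣ) : MC) := by
    unfold Lu
    rw [IsUnit.unit_spec]
  rw [map_pow, h, zpow_natCast, Units.val_pow_eq_pow_val]

private theorem y3_fam {σ : Type} {N : ℕ} (I : Ideal (MvPolynomial (Fin N) ℂ)) {k : ℕ}
    (hk : 0 < k) (Γ : Set (σ ⊕ Fin N → ℂ)) (j : ℕ) (hj : j ≤ k * j) :
    fam (I ^ k) Γ (k * j) = {z | tr hj z ∈ fam I Γ j} := by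
  ext z
  have h1 : OrdGe I j (fun q => tr hj z (Sum.inr q)) ↔ OrdGe I j fun q => z (Sum.inr q) := by
    unfold OrdGe
    refine forall₂_congr fun f hf => forall₂_congr fun l hl => ?_
    rw [along_tr hj z f l (by omega)]
  have h2 : (∃ f ∈ I, (along f fun q => tr hj z (Sum.inr q)).coeff j ≠ 0) ↔
      ∃ f ∈ I, (along f fun q => z (Sum.inr q)).coeff j ≠ 0 := by
    refine exists_congr fun f => and_congr_right fun hf => ?_
    rw [along_tr hj z f j le_rfl]
  show (_ ∧ _ ∧ _) ↔ (_ ∧ _ ∧ _)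
  rw [h1, h2, ordGe_pow I hk]
  refine and_congr Iff.rfl (and_congr_right fun h3 => ?_)
  exact coeff_pow_ne I hk j _ h3

theorem Zf_pow {σ : Type} [Finite σ] {N : ℕ} (I : Ideal (MvPolynomial (Fin N) ℂ)) {k : ℕ}
    (hk : k ≠ 0) {Γ : Set (σ ⊕ Fin N → ℂ)} (hΓ : Constr Γ) :
    Zf (I ^ k) Γ = PowerSeries.expand k hk (Zf I Γ) := by
  have hk' : 0 < k := Nat.pos_of_ne_zero hk
  ext m
  by_cases hm : k ∣ m
  · obtain ⟨j, rfl⟩ := hm
    have hj : j ≤ k * j := Nat.le_mul_of_pos_left j hk'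
    rw [PowerSeries.coeff_expand_mul]
    unfold Zf
    rw [PowerSeries.coeff_mk, PowerSeries.coeff_mk, y3_fam I hk' Γ j hj,
      cls_trunc hj (constr_fam I hΓ j), map_mul, y3_LL_pow, mul_assoc, ← Units.val_mul, ← zpow_add]
    congr 3
    push_cast [Nat.cast_sub hj]
    ring
  · rw [PowerSeries.coeff_expand_of_not_dvd _ _ _ hm]
    unfold Zf
    rw [PowerSeries.coeff_mk]
    have h0 : fam (I ^ k) Γ m = ∅ := by
      rw [Set.eq_empty_iff_forall_notMem]
      rintro z ⟨_, h1, f, hf, hne⟩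
      exact hne (exOrd_pow_not I hk' m hm _ h1 f hf)
    rw [h0, cls_empty, map_zero, zero_mul]

theorem ureg_pow {s₀ : ℚ} {N : ℕ} {I : Ideal (MvPolynomial (Fin N) ℂ)}
    {h : MvPolynomial (Fin N) ℂ} {k : ℕ} (hk : 0 < k) (hr : UReg (k * s₀) I h) :
    UReg s₀ (I ^ k) h := by
  obtain ⟨D, hD, K, hK⟩ := hr
  refine ⟨_, den_expand hk.ne' hD, k * K, fun σ _ Γ hΓ hne => ?_⟩
  rw [Zf_pow I hk.ne' hΓ]
  exact ubd_expand hk.ne' (hK σ Γ hΓ hne)

end TV
end MotMono
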