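import Pool.Agent.Lib.MP_4e5fcd_ag.TV.Y3
import Pool.Agent.Lib.MP_4e5fcd_ag.CN.C1
import Pool.Agent.Lib.MP_4e5fcd_ag.CN.E1
import Pool.Agent.Lib.MP_4e5fcd_ag.CN.V1

/-!
# TV-Y4: powers of ideals: visible values

Let `n, γ, Z` be the data of `Vis χ I p (lam ^ k)`, `η f = (along f γ).coeff n`. Take the `k n`-jet `γ'` which extends `γ` by
zeros: `along f γ' = along f γ` as polynomials in degrees `≤ n` (`along_trunc`, CN/E1). Put `η' f = (along f γ').coeff (k n)`
for `f ∈ I ^ k`; for `f_i ∈ I`: `η' (∏ f_i) = ∏ η f_i`.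
* `zeta_pow`: `Z' = expand k Z` (power series over ℂ): `constantCoeff`; `X (Z')' = k expand (X Z')`: coefficientwise;
  `ZeroOrPole`: `Polynomial.expand`, `IsCoprime.map`, `Polynomial.expand_eval`.
* `chi_CA_pow`: `m = k d`, `d ≥ 1`: `γ₁ ∈ CA (I^k) p η' (k d)` iff for some `k`-th root of unity `ζ` the truncation of `γ₁` to a
  `d`-jet is in `CA I p (ζ η) d`. (If `γ₁ ∈ CA (I^k)`: by `ordGe_pow` `OrdGe I d γ₁`; let `θ f = (along f γ₁).coeff d`, `f₀` with
  `η f₀ ≠ 0`: `θ(f₀)^k = η(f₀)^k`, so `θ(f₀) = ζ η(f₀)`, and `θ(f) θ(f₀)^(k-1) = η(f) η(f₀)^(k-1)` gives `θ(f) = ζ η(f)`; `ζ` is unique.)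
  The union over the `k` roots of unity is disjoint; `γ ↦ (c^l γ_l)_l`, `c ^ d = ζ`, is an isomorphism
  `CA I p η d ≅ CA I p (ζ η) d` (`coeff_along_weight`, CN/C4, or directly); truncation: affine fibres (`cls_trunc`
  with `σ = Empty` or a product `cls_iso`), `χ LL = 1` (`hχ`). So `χ = k χ (CA I p η d)`.
* `chi_CA_pow_not`: `k ∤ m`: the set is empty (`exOrd_pow_not`, `η' ≠ 0`).
* `vis_pow`, `near_powI`: put together.
-/

open MvPolynomial

namespace MotMono
namespace TV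

open CN

private theorem y4_coe (k : ℕ) (hk : k ≠ 0) (P : Polynomial ℂ) :
    ((Polynomial.expand ℂ k P : Polynomial ℂ) : PowerSeries ℂ) =
      PowerSeries.expand k hk (P : PowerSeries ℂ) := by
  ext n
  rw [Polynomial.coeff_coe, Polynomial.coeff_expand (Nat.pos_of_ne_zero hk),
    PowerSeries.coeff_expand]
  split_ifs
  · rw [Polynomial.coeff_coe]
  · rfl

theorem zeta_pow {Λ : ℕ → ℤ} {Z : PowerSeries ℂ} (hZ : IsZeta Λ Z) {k : ℕ} (hk : 0 < k) {lam : ℂ}
    (hl : ZeroOrPole Z (lam ^ k)) (Λ' : ℕ → ℤ)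
    (h : ∀ m, 0 < m → Λ' m = if k ∣ m then k * Λ (m / k) else 0) :
    ∃ Z', IsZeta Λ' Z' ∧ ZeroOrPole Z' lam := by
  obtain ⟨h0, h1⟩ := hZ
  obtain ⟨P, Q, hPQ, hQ, hr⟩ := hl
  refine ⟨PowerSeries.expand k hk.ne' Z, ⟨?_, ?_⟩, Polynomial.expand ℂ k P,
    Polynomial.expand ℂ k Q, ?_, ?_, ?_⟩
  · rw [PowerSeries.constantCoeff_expand, h0]
  · have e1 : PowerSeries.X * PowerSeries.derivative ℂ (PowerSeries.expand k hk.ne' Z) =
        PowerSeries.C (k : ℂ) *
          PowerSeries.expand k hk.ne' (PowerSeries.X * PowerSeries.derivative ℂ Z) := by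
      ext m
      rcases m with _ | m
      · rw [PowerSeries.coeff_zero_X_mul, PowerSeries.coeff_C_mul, PowerSeries.coeff_expand,
          if_pos (dvd_zero k), Nat.zero_div, PowerSeries.coeff_zero_X_mul, mul_zero]
      · rw [PowerSeries.coeff_succ_X_mul, PowerSeries.coeff_derivative, PowerSeries.coeff_C_mul,
          PowerSeries.coeff_expand, PowerSeries.coeff_expand]
        split_ifs with hd
        · obtain ⟨j, hj⟩ := hd
          have hj' : (m + 1) / k = j := by rw [hj, Nat.mul_div_cancel_left _ hk]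
          rw [hj']
          rcases j with _ | j
          · rw [Nat.mul_zero] at hj; omega
          · rw [PowerSeries.coeff_succ_X_mul, PowerSeries.coeff_derivative]
            have : ((m : ℂ) + 1) = k * (j + 1) := by exact_mod_cast hj
            rw [this]; ring
        · rw [zero_mul, mul_zero]
    have e2 : (PowerSeries.mk fun d => if d = 0 then (0 : ℂ) else (Λ' d : ℂ)) =
        PowerSeries.C (k : ℂ) * PowerSeries.expand k hk.ne'
          (PowerSeries.mk fun d => if d = 0 then (0 : ℂ) else (Λ d : ℂ)) := by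
      ext m
      rw [PowerSeries.coeff_mk, PowerSeries.coeff_C_mul, PowerSeries.coeff_expand]
      rcases Nat.eq_zero_or_pos m with rfl | hm
      · simp
      · rw [if_neg hm.ne', h m hm]
        split_ifs with hd
        · have : m / k ≠ 0 := (Nat.div_pos (Nat.le_of_dvd hm hd) hk).ne'
          rw [PowerSeries.coeff_mk, if_neg this]
          push_cast; ring
        · simp
    rw [e1, h1, map_mul, map_neg, e2]
    ring
  · have := hPQ.map (Polynomial.expand ℂ k).toRingHom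
    exact this
  · rw [y4_coe k hk.ne', y4_coe k hk.ne', ← hQ, map_mul]
  · rw [Polynomial.expand_eval, Polynomial.expand_eval]
    exact hr

private theorem y4_along_mul {N n : ℕ} (f g : MvPolynomial (Fin N) ℂ) (γ : Fin N × Fin n → ℂ) :
    along (f * g) γ = along f γ * along g γ := map_mul _ _ _

private theorem y4_along_add {N n : ℕ} (f g : MvPolynomial (Fin N) ℂ) (γ : Fin N × Fin n → ℂ) :
    along (f + g) γ = along f γ + along g γ := map_add _ _ _

private theorem y4_along_pow {N n : ℕ} (f : MvPolynomial (Fin N) ℂ) (k : ℕ)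
    (γ : Fin N × Fin n → ℂ) : along (f ^ k) γ = along f γ ^ k := map_pow _ _ _

private theorem y4_coeff_mul {F G : Polynomial ℂ} {m m' : ℕ} (hF : Polynomial.X ^ m ∣ F)
    (hG : Polynomial.X ^ m' ∣ G) : (F * G).coeff (m + m') = F.coeff m * G.coeff m' := by
  obtain ⟨u, rfl⟩ := hF
  obtain ⟨v, rfl⟩ := hG
  have e : Polynomial.X ^ m * u * (Polynomial.X ^ m' * v) =
      Polynomial.X ^ (m + m') * (u * v) := by
    rw [pow_add]; ring
  rw [e]
  have c1 := Polynomial.coeff_X_pow_mul (u * v) (m + m') 0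
  have c2 := Polynomial.coeff_X_pow_mul u m 0
  have c3 := Polynomial.coeff_X_pow_mul v m' 0
  rw [zero_add] at c1 c2 c3
  rw [c1, c2, c3, Polynomial.mul_coeff_zero]

private theorem y4_dvd_pow {N m : ℕ} (I : Ideal (MvPolynomial (Fin N) ℂ))
    (γ : Fin N × Fin m → ℂ) (n : ℕ) (h : OrdGe I n γ) (k : ℕ) :
    ∀ c ∈ I ^ k, Polynomial.X ^ (k * n) ∣ along c γ := by
  rcases Nat.eq_zero_or_pos k with rfl | hk
  · intro c _; simp
  · intro c hc
    exact Polynomial.X_pow_dvd_iff.2 ((ordGe_pow I hk n γ).2 h c hc)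

private theorem y4_coeff {N a b : ℕ} (I : Ideal (MvPolynomial (Fin N) ℂ)) (γ₁ : Fin N × Fin a → ℂ)
    (γ₂ : Fin N × Fin b → ℂ) (d n : ℕ) (ζ : ℂ) (h1 : OrdGe I d γ₁) (h2 : OrdGe I n γ₂)
    (h0 : ∀ c : MvPolynomial (Fin N) ℂ, (along c γ₁).coeff 0 = (along c γ₂).coeff 0)
    (h : ∀ f ∈ I, (along f γ₁).coeff d = ζ * (along f γ₂).coeff n) (k : ℕ) :
    ∀ c ∈ I ^ k, (along c γ₁).coeff (k * d) = ζ ^ k * (along c γ₂).coeff (k * n) := by
  induction k with
  | zero => intro c _; rw [Nat.zero_mul, Nat.zero_mul, pow_zero, one_mul, h0]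
  | succ k ih =>
    intro c hc
    rw [pow_succ] at hc
    refine Submodule.mul_induction_on hc (fun x hx y hy => ?_) (fun x y hx hy => ?_)
    · rw [y4_along_mul, y4_along_mul, Nat.succ_mul, Nat.succ_mul,
        y4_coeff_mul (y4_dvd_pow I γ₁ d h1 k x hx) (Polynomial.X_pow_dvd_iff.2 (h1 y hy)),
        y4_coeff_mul (y4_dvd_pow I γ₂ n h2 k x hx) (Polynomial.X_pow_dvd_iff.2 (h2 y hy)),
        ih x hx, h y hy, pow_succ]
      ring
    · rw [y4_along_add, y4_along_add, Polynomial.coeff_add, Polynomial.coeff_add, hx, hy, mul_add]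

private theorem y4_coeff_pow {N a : ℕ} (I : Ideal (MvPolynomial (Fin N) ℂ))
    (γ : Fin N × Fin a → ℂ) (d : ℕ) (h : OrdGe I d γ) {f g : MvPolynomial (Fin N) ℂ} (hf : f ∈ I)
    (hg : g ∈ I) (k : ℕ) :
    (along (f * g ^ k) γ).coeff ((k + 1) * d) =
      (along f γ).coeff d * (along g γ).coeff d ^ k := by
  induction k with
  | zero => rw [pow_zero, pow_zero, mul_one, mul_one, zero_add, one_mul]
  | succ k ih =>
    have hm : f * g ^ k ∈ I ^ (k + 1) := by
      rw [pow_succ']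
      exact Ideal.mul_mem_mul hf (Ideal.pow_mem_pow hg k)
    rw [pow_succ, ← mul_assoc, y4_along_mul, Nat.succ_mul,
      y4_coeff_mul (y4_dvd_pow I γ d h (k + 1) _ hm) (Polynomial.X_pow_dvd_iff.2 (h g hg)), ih,
      pow_succ]
    ring

private theorem y4_scale {N n : ℕ} (f : MvPolynomial (Fin N) ℂ) (γ : Fin N × Fin n → ℂ) (c : ℂ)
    (l : ℕ) : (along f (fun q : Fin N × Fin n => c ^ (q.2 : ℕ) * γ q)).coeff l =
      c ^ l * (along f γ).coeff l := by
  let φ : Polynomial ℂ →ₐ[ℂ] Polynomial ℂ := Polynomial.aeval (Polynomial.C c * Polynomial.X)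
  have hφ : ∀ g : Polynomial ℂ, ∀ k, (φ g).coeff k = c ^ k * g.coeff k := by
    intro g k
    have h1 : φ g = g.comp (Polynomial.C c * Polynomial.X) := by
      show Polynomial.aeval _ g = _
      rw [Polynomial.aeval_def, Polynomial.comp, Polynomial.algebraMap_eq]
    rw [h1, Polynomial.comp_C_mul_X_coeff, mul_comm]
  have harc : arc (fun q : Fin N × Fin n => c ^ (q.2 : ℕ) * γ q) = fun i => φ (arc γ i) := by
    funext i
    ext k
    rw [hφ, a1_arc_coeff, a1_arc_coeff]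
    by_cases h : k < n
    · rw [dif_pos h, dif_pos h]
    · rw [dif_neg h, dif_neg h, mul_zero]
  rw [along, harc]
  have h2 : aeval (fun i => φ (arc γ i)) f = φ (aeval (arc γ) f) := by
    rw [← MvPolynomial.comp_aeval_apply]
  rw [h2, hφ, along]

private theorem y4_scale_mem {N : ℕ} {I : Ideal (MvPolynomial (Fin N) ℂ)} {p : Fin N → ℂ}
    {η : MvPolynomial (Fin N) ℂ → ℂ} {d : ℕ} (c : ℂ) {γ : Fin N × Fin (d + 1) → ℂ}
    (h : γ ∈ CA I p η d) :
    (fun q : Fin N × Fin (d + 1) => c ^ (q.2 : ℕ) * γ q) ∈ CA I p (fun f => c ^ d * η f) d := by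
  refine ⟨fun i => ?_, fun f hf => ⟨fun l hl => ?_, ?_⟩⟩
  · show c ^ ((0 : Fin (d + 1)) : ℕ) * γ (i, 0) = p i
    rw [h.1 i, Fin.val_zero, pow_zero, one_mul]
  · rw [y4_scale, (h.2 f hf).1 l hl, mul_zero]
  · rw [y4_scale, (h.2 f hf).2]

private theorem y4_iso {N : ℕ} (I : Ideal (MvPolynomial (Fin N) ℂ)) (p : Fin N → ℂ)
    (η : MvPolynomial (Fin N) ℂ → ℂ) {d : ℕ} (hd : 0 < d) {ζ : ℂ} (hζ : ζ ≠ 0) :
    cls (CA I p (fun f => ζ * η f) d) = cls (CA I p η d) := by
  obtain ⟨c, rfl⟩ := IsAlgClosed.exists_pow_nat_eq ζ hd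
  have hc : c ≠ 0 := by
    rintro rfl
    exact hζ (zero_pow hd.ne')
  refine (cls_iso (constr_CA I p η d) (constr_CA I p _ d) ?_).symm
  refine ⟨fun γ q => c ^ (q.2 : ℕ) * γ q, fun γ q => c⁻¹ ^ (q.2 : ℕ) * γ q,
    fun q => (regFun_const _ _).mul (regFun_coord _ q),
    fun q => (regFun_const _ _).mul (regFun_coord _ q), fun γ hγ => y4_scale_mem c hγ,
    fun γ hγ => ?_, fun γ _ => ?_, fun γ _ => ?_⟩
  · have h1 := y4_scale_mem c⁻¹ hγ
    have h2 : (fun f => c⁻¹ ^ d * (c ^ d * η f)) = η := by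
      funext f
      rw [← mul_assoc, ← mul_pow, inv_mul_cancel₀ hc, one_pow, one_mul]
    rwa [h2] at h1
  · funext q
    show c⁻¹ ^ (q.2 : ℕ) * (c ^ (q.2 : ℕ) * γ q) = γ q
    rw [← mul_assoc, ← mul_pow, inv_mul_cancel₀ hc, one_pow, one_mul]
  · funext q
    show c ^ (q.2 : ℕ) * (c⁻¹ ^ (q.2 : ℕ) * γ q) = γ q
    rw [← mul_assoc, ← mul_pow, mul_inv_cancel₀ hc, one_pow, one_mul]

/-- truncation of a jet -/
private def trj {N m j : ℕ} (h : j ≤ m) (γ : Fin N × Fin (m + 1) → ℂ) : Fin N × Fin (j + 1) → ℂ :=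
  fun q => γ (q.1, Fin.castLE (by omega) q.2)

private theorem y4_empty {A : Type} [Finite A] {E : Set (A → ℂ)} (hE : Constr E) :
    cls {z : Empty ⊕ A → ℂ | (fun q => z (Sum.inr q)) ∈ E} = cls E := by
  refine (cls_iso hE (hE.comp Sum.inr) ?_).symm
  refine ⟨fun x => Sum.elim Empty.elim x, fun z q => z (Sum.inr q), ?_, fun q => regFun_coord _ _,
    fun x hx => hx, fun z hz => hz, fun x _ => rfl, fun z _ => ?_⟩
  · rintro (j | j)
    · exact j.elim
    · exact regFun_coord E j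
  · funext j
    rcases j with j | j
    · exact j.elim
    · rfl

private theorem y4_constr {N m j : ℕ} (h : j ≤ m) {E : Set (Fin N × Fin (j + 1) → ℂ)}
    (hE : Constr E) : Constr {γ : Fin N × Fin (m + 1) → ℂ | trj h γ ∈ E} :=
  hE.comp (fun q : Fin N × Fin (j + 1) => ((q.1, Fin.castLE (by omega) q.2) :
    Fin N × Fin (m + 1)))

private theorem y4_cls {N m j : ℕ} (h : j ≤ m) {E : Set (Fin N × Fin (j + 1) → ℂ)}
    (hE : Constr E) :
    cls {γ : Fin N × Fin (m + 1) → ℂ | trj h γ ∈ E} = cls E * LL ^ (N * (m - j)) := by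
  have h1 := cls_trunc (σ := Empty) h (hE.comp (σ := Empty ⊕ (Fin N × Fin (j + 1))) Sum.inr)
  rw [y4_empty hE] at h1
  rw [← h1, ← y4_empty (y4_constr h hE)]
  rfl

private theorem y4_along {N m j : ℕ} (h : j ≤ m) (γ : Fin N × Fin (m + 1) → ℂ)
    (f : MvPolynomial (Fin N) ℂ) (l : ℕ) (hl : l ≤ j) :
    (along f (trj h γ)).coeff l = (along f γ).coeff l := by
  refine along_trunc f _ _ l fun i l' hl' => ?_
  rw [a1_arc_coeff, a1_arc_coeff, dif_pos (by omega), dif_pos (by omega)]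
  rfl

private theorem y4_ext {N n m : ℕ} (γ : Fin N × Fin (n + 1) → ℂ) (γ' : Fin N × Fin (m + 1) → ℂ)
    (hγ : ∀ i (l : Fin (m + 1)), γ' (i, l) = if h : (l : ℕ) < n + 1 then γ (i, ⟨l, h⟩) else 0)
    (hnm : n ≤ m) (f : MvPolynomial (Fin N) ℂ) (l : ℕ) (hl : l ≤ n) :
    (along f γ').coeff l = (along f γ).coeff l := by
  refine along_trunc f _ _ l fun i l' hl' => ?_
  rw [a1_arc_coeff, a1_arc_coeff, dif_pos (by omega), dif_pos (by omega), hγ]
  exact dif_pos _

private theorem y4_set {N : ℕ} (I : Ideal (MvPolynomial (Fin N) ℂ)) {k n d b : ℕ} (hk : 0 < k)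
    (γ : Fin N × Fin (b + 1) → ℂ) (ho : OrdGe I n γ) {f₀ : MvPolynomial (Fin N) ℂ} (hf₀ : f₀ ∈ I)
    (hne : (along f₀ γ).coeff n ≠ 0) (hd : d ≤ k * d) :
    CA (I ^ k) (bp γ) (fun f => (along f γ).coeff (k * n)) (k * d) =
      ⋃ ζ ∈ Polynomial.nthRootsFinset k (1 : ℂ),
        {γ₁ | trj hd γ₁ ∈ CA I (bp γ) (fun f => ζ * (along f γ).coeff n) d} := by
  ext γ₁
  rw [Set.mem_iUnion₂]
  constructor
  · rintro ⟨hb, h1⟩
    have ho1 : OrdGe I d γ₁ := (ordGe_pow I hk d γ₁).1 fun f hf => (h1 f hf).1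
    obtain ⟨k, rfl⟩ := Nat.exists_eq_succ_of_ne_zero hk.ne'
    have key : ∀ f ∈ I, (along f γ₁).coeff d * (along f₀ γ₁).coeff d ^ k =
        (along f γ).coeff n * (along f₀ γ).coeff n ^ k := by
      intro f hf
      rw [← y4_coeff_pow I γ₁ d ho1 hf hf₀ k, ← y4_coeff_pow I γ n ho hf hf₀ k]
      refine (h1 _ ?_).2
      rw [Nat.succ_eq_add_one, pow_succ']
      exact Ideal.mul_mem_mul hf (Ideal.pow_mem_pow hf₀ k)
    have hz : (along f₀ γ₁).coeff d ≠ 0 := by
      intro h0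
      have := key f₀ hf₀
      rw [h0, zero_mul] at this
      exact mul_ne_zero hne (pow_ne_zero k hne) this.symm
    have hζ : ((along f₀ γ₁).coeff d / (along f₀ γ).coeff n) ^ (k + 1) = 1 := by
      have h2 := key f₀ hf₀
      rw [← pow_succ', ← pow_succ'] at h2
      rw [div_pow, h2, div_self (pow_ne_zero _ hne)]
    refine ⟨(along f₀ γ₁).coeff d / (along f₀ γ).coeff n,
      (Polynomial.mem_nthRootsFinset (Nat.succ_pos k) 1).2 hζ, hb, fun f hf => ⟨fun l hl => ?_, ?_⟩⟩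
    · rw [y4_along hd γ₁ f l hl.le]
      exact ho1 f hf l hl
    · rw [y4_along hd γ₁ f d le_rfl]
      have h3 := key f hf
      have h4 : (along f₀ γ₁).coeff d ^ k * (along f₀ γ₁).coeff d =
          (along f₀ γ).coeff n ^ k * (along f₀ γ).coeff n := by
        have h2 := key f₀ hf₀
        linear_combination h2
      have h5 : (along f₀ γ₁).coeff d ^ k ≠ 0 := pow_ne_zero k hz
      show _ = _ / _ * _
      rw [div_mul_eq_mul_div, eq_div_iff hne]
      refine mul_right_cancel₀ h5 ?_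
      have h6 : (along f₀ γ).coeff n ^ k ≠ 0 := pow_ne_zero k hne
      calc (along f γ₁).coeff d * (along f₀ γ).coeff n * (along f₀ γ₁).coeff d ^ k
          = (along f γ₁).coeff d * (along f₀ γ₁).coeff d ^ k * (along f₀ γ).coeff n := by ring
        _ = (along f γ).coeff n * ((along f₀ γ).coeff n ^ k * (along f₀ γ).coeff n) := by
            rw [h3]; ring
        _ = (along f₀ γ₁).coeff d * (along f γ).coeff n * (along f₀ γ₁).coeff d ^ k := by
            rw [← h4]; ring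
  · rintro ⟨ζ, hζ, hb, h1⟩
    rw [Polynomial.mem_nthRootsFinset hk] at hζ
    have ho1 : OrdGe I d γ₁ := by
      intro f hf l hl
      rw [← y4_along hd γ₁ f l hl.le]
      exact (h1 f hf).1 l hl
    have hb' : ∀ i, γ₁ (i, 0) = bp γ i := hb
    have h2 := y4_coeff I γ₁ γ d n ζ ho1 ho (fun c => by
      rw [LF.coeff_along_zero, LF.coeff_along_zero]
      congr 1
      congr 1
      funext i
      exact hb' i) (fun f hf => by
        rw [← y4_along hd γ₁ f d le_rfl]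
        exact (h1 f hf).2) k
    refine ⟨hb', fun f hf => ⟨(ordGe_pow I hk d γ₁).2 ho1 f hf, ?_⟩⟩
    rw [h2 f hf, hζ, one_mul]

theorem chi_CA_pow {χ : K0 →+* ℤ} (hχ : IsEulerCharF χ) {N : ℕ}
    (I : Ideal (MvPolynomial (Fin N) ℂ)) {k n : ℕ} (hk : 0 < k) (γ : Fin N × Fin (n + 1) → ℂ)
    (γ' : Fin N × Fin (k * n + 1) → ℂ)
    (hγ : ∀ i (l : Fin (k * n + 1)), γ' (i, l) = if h : (l : ℕ) < n + 1 then γ (i, ⟨l, h⟩) else 0)
    (hn : 1 ≤ n) (ho : OrdGe I n γ) (h0 : ∃ f ∈ I, (along f γ).coeff n ≠ 0) (m : ℕ) (hm : 0 < m) :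
    χ (cls (CA (I ^ k) (bp γ') (fun f => (along f γ').coeff (k * n)) m)) =
      if k ∣ m then k * χ (cls (CA I (bp γ) (fun f => (along f γ).coeff n) (m / k))) else 0 := by
  obtain ⟨f₀, hf₀, hne⟩ := h0
  have hnk : n ≤ k * n := Nat.le_mul_of_pos_left n hk
  have hext := y4_ext γ γ' hγ hnk
  have ho' : OrdGe I n γ' := by
    intro f hf l hl
    rw [hext f l hl.le]
    exact ho f hf l hl
  have hne' : (along f₀ γ').coeff n ≠ 0 := by
    rw [hext f₀ n le_rfl]
    exact hne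
  have hbp : bp γ' = bp γ := by
    funext i
    show γ' (i, 0) = γ (i, 0)
    rw [hγ]
    exact dif_pos (Nat.succ_pos n)
  split_ifs with hd
  · obtain ⟨d, rfl⟩ := hd
    have hd0 : 0 < d := Nat.pos_of_ne_zero fun h => by rw [h, Nat.mul_zero] at hm; omega
    have hdk : d ≤ k * d := Nat.le_mul_of_pos_left d hk
    rw [Nat.mul_div_cancel_left _ hk, y4_set I hk γ' ho' hf₀ hne' hdk, cls_biUnion, map_sum]
    · have hs : ∀ ζ ∈ Polynomial.nthRootsFinset k (1 : ℂ),
          χ (cls {γ₁ | trj hdk γ₁ ∈ CA I (bp γ') (fun f => ζ * (along f γ').coeff n) d}) =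
            χ (cls (CA I (bp γ) (fun f => (along f γ).coeff n) d)) := by
        intro ζ hζ
        rw [Polynomial.mem_nthRootsFinset hk] at hζ
        have hζ0 : ζ ≠ 0 := by
          rintro rfl
          rw [zero_pow hk.ne'] at hζ
          exact zero_ne_one hζ
        have he : (fun f : MvPolynomial (Fin N) ℂ => (along f γ').coeff n) =
            fun f => (along f γ).coeff n := by
          funext f
          exact hext f n le_rfl
        rw [y4_cls hdk (constr_CA I _ _ d), map_mul, map_pow, hχ.line, one_pow, mul_one,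
          y4_iso I (bp γ') (fun f => (along f γ').coeff n) hd0 hζ0, hbp, he]
      rw [Finset.sum_congr rfl hs, Finset.sum_const,
        (Complex.isPrimitiveRoot_exp k hk.ne').card_nthRootsFinset, nsmul_eq_mul]
    · intro ζ _
      exact y4_constr hdk (constr_CA I _ _ d)
    · intro ζ _ ζ' _ hζζ
      rw [Set.disjoint_left]
      intro γ₁ h1 h2
      refine hζζ ?_
      have e1 := (h1.2 f₀ hf₀).2
      have e2 := (h2.2 f₀ hf₀).2
      exact mul_right_cancel₀ hne' (e1.symm.trans e2)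
  · have he : CA (I ^ k) (bp γ') (fun f => (along f γ').coeff (k * n)) m = ∅ := by
      rw [Set.eq_empty_iff_forall_notMem]
      rintro γ₁ ⟨_, h1⟩
      have h2 : OrdGe (I ^ k) m γ₁ := fun f hf => (h1 f hf).1
      obtain ⟨f, hf, hf1⟩ := (coeff_pow_ne I hk n γ' ho').2 ⟨f₀, hf₀, hne'⟩
      refine hf1 ?_
      rw [← exOrd_pow_not I hk m hd γ₁ h2 f hf]
      exact (h1 f hf).2.symm
    rw [he, cls_empty, map_zero]

theorem vis_pow {χ : K0 →+* ℤ} (hχ : IsEulerCharF χ) {N : ℕ}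
    {I : Ideal (MvPolynomial (Fin N) ℂ)} {k : ℕ} (hk : 0 < k) {p : Fin N → ℂ} {lam : ℂ}
    (h : CN.Vis χ I p (lam ^ k)) : CN.Vis χ (I ^ k) p lam := by
  obtain ⟨n, γ, hn, hbp, ho, h0, Z, hZ, hP⟩ := h
  have hnk : n ≤ k * n := Nat.le_mul_of_pos_left n hk
  set γ' : Fin N × Fin (k * n + 1) → ℂ := fun q =>
    if h : (q.2 : ℕ) < n + 1 then γ (q.1, ⟨q.2, h⟩) else 0 with hγ'
  have hγ : ∀ i (l : Fin (k * n + 1)),
      γ' (i, l) = if h : (l : ℕ) < n + 1 then γ (i, ⟨l, h⟩) else 0 := fun i l => rfl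
  have hext := y4_ext γ γ' hγ hnk
  have ho' : OrdGe I n γ' := by
    intro f hf l hl
    rw [hext f l hl.le]
    exact ho f hf l hl
  have hbp' : bp γ' = p := by
    rw [← hbp]
    funext i
    show γ' (i, 0) = γ (i, 0)
    rw [hγ]
    exact dif_pos (Nat.succ_pos n)
  obtain ⟨Z', hZ', hP'⟩ := zeta_pow hZ hk hP
    (fun d => χ (cls (CA (I ^ k) p (fun f => (along f γ').coeff (k * n)) d))) (fun m hm => by
      have := chi_CA_pow hχ I hk γ γ' hγ hn ho h0 m hm
      rw [hbp', hbp] at this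
      exact this)
  refine ⟨k * n, γ', hn.trans hnk, hbp', (ordGe_pow I hk n γ').2 ho', ?_, Z', hZ', hP'⟩
  refine (coeff_pow_ne I hk n γ' ho').2 ?_
  obtain ⟨f, hf, hne⟩ := h0
  refine ⟨f, hf, ?_⟩
  rw [hext f n le_rfl]
  exact hne

theorem near_powI {χ : K0 →+* ℤ} (hχ : IsEulerCharF χ) {N : ℕ}
    {I : Ideal (MvPolynomial (Fin N) ℂ)} {k : ℕ} (hk : 0 < k) {lam : ℂ}
    (h : CN.Near χ I 0 (lam ^ k)) : CN.Near χ (I ^ k) 0 lam := by
  intro ε hε
  obtain ⟨p, hp, hv⟩ := h ε hε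
  exact ⟨p, hp, vis_pow hχ hk hv⟩

end TV
end MotMono
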