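import Pool.Agent.Lib.MP_4e5fcd_ag.CN.P4

/-!
# TV-V0: power series with a common denominator

`Den s₀`: the products of the `1 - L^(-a) T^b`, `-a/b ≠ s₀`. `UBd D K Z`: `D Z` is a polynomial of
degree at most `K`.
-/

open MvPolynomial

namespace MotMono
namespace TV

open CN

/-- the denominators without pole at `s₀` -/
noncomputable def Den (s₀ : ℚ) : Submonoid (PowerSeries MC) :=
  Submonoid.closure {D | ∃ (a : ℤ) (b : ℕ), 0 < b ∧ -(a : ℚ) / b ≠ s₀ ∧
    D = 1 - PowerSeries.C ((Lu ^ (-a) : MCˣ) : MC) * PowerSeries.X ^ b}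

/-- `D * Z` is a polynomial of degree at most `K` -/
def UBd (D : PowerSeries MC) (K : ℕ) (Z : PowerSeries MC) : Prop :=
  ∀ k, K < k → PowerSeries.coeff k (D * Z) = 0

/-- a power series which is a polynomial of degree at most `K` -/
private theorem v0_mul {D Z : PowerSeries MC} {K K' : ℕ}
    (h : ∀ k, K < k → PowerSeries.coeff k D = 0) (h' : ∀ k, K' < k → PowerSeries.coeff k Z = 0) :
    ∀ k, K + K' < k → PowerSeries.coeff k (D * Z) = 0 := by
  intro k hk
  rw [PowerSeries.coeff_mul]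
  refine Finset.sum_eq_zero fun p hp => ?_
  rw [Finset.HasAntidiagonal.mem_antidiagonal] at hp
  rcases lt_or_ge K p.1 with h1 | h1
  · rw [h _ h1, zero_mul]
  · rw [h' _ (by omega), mul_zero]

private theorem v0_gen (a : ℤ) (b : ℕ) (k : ℕ) (hk : b < k) :
    PowerSeries.coeff k (1 - PowerSeries.C ((Lu ^ (-a) : MCˣ) : MC) *
      (PowerSeries.X : PowerSeries MC) ^ b) = 0 := by
  rw [map_sub, PowerSeries.coeff_one, if_neg (by omega), PowerSeries.coeff_C_mul,
    PowerSeries.coeff_X_pow, if_neg (by omega), mul_zero, sub_zero]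

theorem den_one (s₀ : ℚ) : (1 : PowerSeries MC) ∈ Den s₀ := Submonoid.one_mem _

theorem den_mul {s₀ : ℚ} {D D' : PowerSeries MC} (h : D ∈ Den s₀) (h' : D' ∈ Den s₀) :
    D * D' ∈ Den s₀ := Submonoid.mul_mem _ h h'

theorem den_gen {s₀ : ℚ} (a : ℤ) (b : ℕ) (hb : 0 < b) (h : -(a : ℚ) / b ≠ s₀) :
    1 - PowerSeries.C ((Lu ^ (-a) : MCˣ) : MC) * (PowerSeries.X : PowerSeries MC) ^ b ∈ Den s₀ :=
  Submonoid.subset_closure ⟨a, b, hb, h, rfl⟩

theorem den_deg {s₀ : ℚ} {D : PowerSeries MC} (h : D ∈ Den s₀) :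
    ∃ K, ∀ k, K < k → PowerSeries.coeff k D = 0 := by
  induction h using Submonoid.closure_induction with
  | mem D h =>
    obtain ⟨a, b, -, -, rfl⟩ := h
    exact ⟨b, v0_gen a b⟩
  | one =>
    refine ⟨0, fun k hk => ?_⟩
    rw [PowerSeries.coeff_one, if_neg (by omega)]
  | mul D D' _ _ ih ih' =>
    obtain ⟨K, hK⟩ := ih
    obtain ⟨K', hK'⟩ := ih'
    exact ⟨K + K', v0_mul hK hK'⟩

theorem ubd_mono {D Z : PowerSeries MC} {K K' : ℕ} (hK : K ≤ K') (h : UBd D K Z) : UBd D K' Z :=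
  fun k hk => h k (lt_of_le_of_lt hK hk)

theorem ubd_add {D Z Z' : PowerSeries MC} {K : ℕ} (h : UBd D K Z) (h' : UBd D K Z') :
    UBd D K (Z + Z') := by
  intro k hk
  rw [mul_add, map_add, h k hk, h' k hk, add_zero]

theorem ubd_sub {D Z Z' : PowerSeries MC} {K : ℕ} (h : UBd D K Z) (h' : UBd D K Z') :
    UBd D K (Z - Z') := by
  intro k hk
  rw [mul_sub, map_sub, h k hk, h' k hk, sub_zero]

theorem ubd_zero (D : PowerSeries MC) (K : ℕ) : UBd D K 0 := by
  intro k _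
  rw [mul_zero, map_zero]

/-- multiplication of the power series with a polynomial -/
theorem ubd_mul_left {D Z W : PowerSeries MC} {K K' : ℕ}
    (hW : ∀ k, K' < k → PowerSeries.coeff k W = 0) (h : UBd D K Z) : UBd D (K' + K) (W * Z) := by
  intro k hk
  rw [show D * (W * Z) = W * (D * Z) by ring]
  exact v0_mul hW h k hk

theorem ubd_C {D Z : PowerSeries MC} {K : ℕ} (c : MC) (h : UBd D K Z) :
    UBd D K (PowerSeries.C c * Z) := by
  have h1 := ubd_mul_left (W := PowerSeries.C c) (K' := 0) (fun k hk => by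
    rw [PowerSeries.coeff_C, if_neg (by omega)]) h
  rwa [zero_add] at h1

/-- larger denominators -/
theorem ubd_den {D D' Z : PowerSeries MC} {K K' : ℕ}
    (hD : ∀ k, K' < k → PowerSeries.coeff k D' = 0) (h : UBd D K Z) : UBd (D' * D) (K' + K) Z := by
  intro k hk
  rw [mul_assoc]
  exact v0_mul hD h k hk

/-- constants -/
theorem ubd_const {D : PowerSeries MC} {K : ℕ} (hD : ∀ k, K < k → PowerSeries.coeff k D = 0)
    (c : MC) : UBd D K (PowerSeries.C c) := by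
  intro k hk
  rw [mul_comm, PowerSeries.coeff_C_mul, hD k hk, mul_zero]

/-- a factor of the denominator applied to the series -/
theorem ubd_of_mul {D E Z : PowerSeries MC} {K : ℕ} (h : UBd D K (E * Z)) : UBd (D * E) K Z := by
  intro k hk
  rw [mul_assoc]
  exact h k hk

private theorem v0_poly {s₀ : ℚ} {W : PowerSeries MC} {K : ℕ}
    (h : ∀ k, K < k → PowerSeries.coeff k W = 0) : W ∈ polarRing s₀ := by
  refine Subring.subset_closure (Or.inl ⟨PowerSeries.trunc (K + 1) W, ?_⟩)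
  ext k
  rw [Polynomial.coeff_coe, PowerSeries.coeff_trunc]
  split_ifs with h1
  · rfl
  · exact h k (by omega)

theorem mem_of_ubd {s₀ : ℚ} {D Z : PowerSeries MC} {K : ℕ} (hD : D ∈ Den s₀) (h : UBd D K Z) :
    Z ∈ polarRing s₀ := by
  have h1 : D * Z ∈ polarRing s₀ := v0_poly h
  clear h
  induction hD using Submonoid.closure_induction generalizing Z with
  | mem D h =>
    obtain ⟨a, b, hb, hab, rfl⟩ := h
    exact mem_polar_of_mul s₀ a b hb hab Z (by rw [mul_comm]; exact h1)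
  | one => rwa [one_mul] at h1
  | mul D D' _ _ ih ih' =>
    rw [mul_assoc] at h1
    exact ih' (ih h1)

theorem exists_ubd {s₀ : ℚ} {Z : PowerSeries MC} (h : Z ∈ polarRing s₀) :
    ∃ D ∈ Den s₀, ∃ K, UBd D K Z := by
  induction h using Subring.closure_induction with
  | mem Z h =>
    rcases h with ⟨P, rfl⟩ | ⟨a, b, hb, hab, hg⟩
    · refine ⟨1, den_one s₀, P.natDegree, fun k hk => ?_⟩
      rw [one_mul, Polynomial.coeff_coe]
      exact Polynomial.coeff_eq_zero_of_natDegree_lt hk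
    · refine ⟨_, den_gen a b hb hab, 0, fun k hk => ?_⟩
      rw [mul_comm, hg, PowerSeries.coeff_one, if_neg (by omega)]
  | zero => exact ⟨1, den_one s₀, 0, ubd_zero _ _⟩
  | one =>
    refine ⟨1, den_one s₀, 0, fun k hk => ?_⟩
    rw [one_mul, PowerSeries.coeff_one, if_neg (by omega)]
  | add Z Z' _ _ ih ih' =>
    obtain ⟨D, hD, K, hK⟩ := ih
    obtain ⟨D', hD', K', hK'⟩ := ih'
    obtain ⟨k, hk⟩ := den_deg hD
    obtain ⟨k', hk'⟩ := den_deg hD'
    refine ⟨D' * D, den_mul hD' hD, k' + K + (k + K'), ubd_add ?_ ?_⟩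
    · exact ubd_mono (by omega) (ubd_den hk' hK)
    · rw [mul_comm]
      exact ubd_mono (by omega) (ubd_den hk hK')
  | neg Z _ ih =>
    obtain ⟨D, hD, K, hK⟩ := ih
    refine ⟨D, hD, K, fun k hk => ?_⟩
    rw [mul_neg, map_neg, hK k hk, neg_zero]
  | mul Z Z' _ _ ih ih' =>
    obtain ⟨D, hD, K, hK⟩ := ih
    obtain ⟨D', hD', K', hK'⟩ := ih'
    refine ⟨D * D', den_mul hD hD', K + K', fun k hk => ?_⟩
    rw [show D * D' * (Z * Z') = (D * Z) * (D' * Z') by ring]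
    exact v0_mul hK hK' k hk

/-- uniform regularity at `s₀` over the open set `h ≠ 0` -/
def UReg (s₀ : ℚ) {N : ℕ} (I : Ideal (MvPolynomial (Fin N) ℂ)) (h : MvPolynomial (Fin N) ℂ) :
    Prop :=
  ∃ D ∈ Den s₀, ∃ K : ℕ, ∀ (σ : Type) [Finite σ] (Γ : Set (σ ⊕ Fin N → ℂ)), Constr Γ →
    (∀ z ∈ Γ, eval (fun i => z (Sum.inr i)) h ≠ 0) → UBd D K (Zf I Γ)

/-- the invariant of the induction, at one value `s₀` -/
def UGood {N : ℕ} (χ : K0 →+* ℤ) (s₀ : ℚ) (I : Ideal (MvPolynomial (Fin N) ℂ))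
    (p : Fin N → ℂ) : Prop :=
  (CN.Near χ I p (expo s₀) ∨ ∃ h, eval p h ≠ 0 ∧ UReg s₀ I h) ∧ CN.Near χ I p 1

theorem ubd_cover {s₀ : ℚ} {N : ℕ} (I : Ideal (MvPolynomial (Fin N) ℂ))
    (S : Finset (MvPolynomial (Fin N) ℂ)) (hS : ∀ h ∈ S, UReg s₀ I h) :
    ∃ D ∈ Den s₀, ∃ K : ℕ, ∀ (σ : Type) [Finite σ] (Γ : Set (σ ⊕ Fin N → ℂ)), Constr Γ →
      (∀ z ∈ Γ, ∃ h ∈ S, eval (fun i => z (Sum.inr i)) h ≠ 0) → UBd D K (Zf I Γ) := by
  classical
  induction S using Finset.induction_on with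
  | empty =>
    refine ⟨1, den_one s₀, 0, fun σ _ Γ hΓ hc => ?_⟩
    have e : Γ = ∅ := by
      rw [Set.eq_empty_iff_forall_notMem]
      intro z hz
      obtain ⟨h, hh, -⟩ := hc z hz
      exact absurd hh (Finset.notMem_empty h)
    rw [e, Zf_empty]
    exact ubd_zero _ _
  | insert h S' hh ih =>
    obtain ⟨D', hD', K', hK'⟩ := ih fun g hg => hS g (Finset.mem_insert_of_mem hg)
    obtain ⟨D, hD, K, hK⟩ := hS h (Finset.mem_insert_self _ _)
    obtain ⟨k, hk⟩ := den_deg hD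
    obtain ⟨k', hk'⟩ := den_deg hD'
    refine ⟨D' * D, den_mul hD' hD, k' + K + (k + K'), fun σ _ Γ hΓ hc => ?_⟩
    have hA : Constr {z : σ ⊕ Fin N → ℂ | eval (fun i => z (Sum.inr i)) h = 0} :=
      (Constr.zeroSet h).comp Sum.inr
    have e : Γ = (Γ ∩ {z | eval (fun i => z (Sum.inr i)) h = 0}) ∪
        (Γ \ {z | eval (fun i => z (Sum.inr i)) h = 0}) := (Set.inter_union_sdiff _ _).symm
    rw [e, Zf_union I (hΓ.inter hA) (hΓ.diff hA) (Set.disjoint_sdiff_inter.symm)]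
    refine ubd_add ?_ ?_
    · rw [mul_comm D' D]
      refine ubd_mono (by omega) (ubd_den hk (hK' σ _ (hΓ.inter hA) ?_))
      rintro z ⟨hz1, hz2⟩
      obtain ⟨h', hh', hne⟩ := hc z hz1
      rw [Finset.mem_insert] at hh'
      rcases hh' with rfl | hh'
      · exact absurd hz2 hne
      · exact ⟨h', hh', hne⟩
    · refine ubd_mono (by omega) (ubd_den hk' (hK σ _ (hΓ.diff hA) ?_))
      rintro z ⟨_, hz2⟩
      exact hz2

end TV
end MotMono
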