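import Pool.Agent.Lib.MP_4e5fcd_ag.CN.P1
import Pool.Agent.Lib.MP_4e5fcd_ag.CN.E1
import Pool.Agent.Lib.MP_4e5fcd_ag.TV.V0

/-!
# TV-Y0: truncation of jets; denominators under substitutions

* `tr h`: truncation of an `m`-jet to a `j`-jet, `j ≤ m`, in a family.
* `cls_trunc`: `z ↦ (tr z, the remaining coordinates)` is an isomorphism of `{z | tr z ∈ E}` with
  `E × (ℂ ^ (N (m - j)))` (`cls_iso`, `cls_prodSet`, `cls_univ`: K1.lean; the remaining coordinates
  are indexed by `Fin N × Fin (m - j)`). `regFun_coord` for the coordinates.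
* `along_tr`: `along_trunc` (CN/E1).
* `den_rescale`, `den_expand`: `Submonoid.closure_induction`; `rescale` and `expand` are ring
  homomorphisms; the generator `1 - L^(-a) T^b` goes to `1 - L^(-a-b) T^b`, `-(a+b)/b = -a/b - 1`, and to
  `1 - L^(-a) T^(k b)`.
* `ubd_rescale`, `ubd_expand`: ring homomorphisms, `coeff_rescale`, `coeff_expand` (or the like).
-/

open MvPolynomial

namespace MotMono
namespace TV

open CN

/-- truncation of the jets of a family -/
def tr {σ : Type} {N m j : ℕ} (h : j ≤ m) (z : σ ⊕ (Fin N × Fin (m + 1)) → ℂ) :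
    σ ⊕ (Fin N × Fin (j + 1)) → ℂ :=
  Sum.elim (fun s => z (Sum.inl s)) fun q => z (Sum.inr (q.1, Fin.castLE (by omega) q.2))

/-- the coordinates of the truncation -/
private def y0_emb {σ : Type} {N m j : ℕ} (h : j ≤ m) (q : σ ⊕ (Fin N × Fin (j + 1))) :
    σ ⊕ (Fin N × Fin (m + 1)) :=
  Sum.map id (Prod.map id (Fin.castLE (by omega))) q

private theorem y0_tr {σ : Type} {N m j : ℕ} (h : j ≤ m) (z : σ ⊕ (Fin N × Fin (m + 1)) → ℂ) :
    tr h z = fun q => z (y0_emb h q) := by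
  funext q
  rcases q with s | q
  · rfl
  · rfl

/-- the remaining coordinates -/
private def y0_rest {N m j : ℕ} (h : j ≤ m) (q : Fin N × Fin (m - j)) : Fin N × Fin (m + 1) :=
  (q.1, ⟨j + 1 + q.2, by omega⟩)

/-- all the coordinates -/
private def y0_equiv (σ : Type) (N : ℕ) {m j : ℕ} (h : j ≤ m) :
    σ ⊕ (Fin N × Fin (m + 1)) ≃ (σ ⊕ (Fin N × Fin (j + 1))) ⊕ (Fin N × Fin (m - j)) where
  toFun := Sum.elim (fun s => Sum.inl (Sum.inl s)) fun q =>
    if hq : (q.2 : ℕ) < j + 1 then Sum.inl (Sum.inr (q.1, ⟨q.2, hq⟩))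
    else Sum.inr (q.1, ⟨(q.2 : ℕ) - (j + 1), by omega⟩)
  invFun := Sum.elim (y0_emb h) fun q => Sum.inr (y0_rest h q)
  left_inv := by
    rintro (s | ⟨i, l⟩)
    · rfl
    · by_cases hq : (l : ℕ) < j + 1
      · simp only [Sum.elim_inr, dif_pos hq, Sum.elim_inl]
        rfl
      · simp only [Sum.elim_inr, dif_neg hq]
        refine congrArg Sum.inr (Prod.ext rfl (Fin.ext ?_))
        show j + 1 + ((l : ℕ) - (j + 1)) = l
        omega
  right_inv := by
    rintro ((s | ⟨i, l⟩) | ⟨i, l⟩)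
    · rfl
    · simp only [Sum.elim_inl]
      exact dif_pos l.2
    · simp only [Sum.elim_inr]
      rw [dif_neg]
      · refine congrArg Sum.inr (Prod.ext rfl (Fin.ext ?_))
        show j + 1 + (l : ℕ) - (j + 1) = l
        omega
      · show ¬ (j + 1 + (l : ℕ) < j + 1)
        omega

theorem constr_tr {σ : Type} {N m j : ℕ} (h : j ≤ m)
    {E : Set (σ ⊕ (Fin N × Fin (j + 1)) → ℂ)} (hE : Constr E) :
    Constr {z : σ ⊕ (Fin N × Fin (m + 1)) → ℂ | tr h z ∈ E} := by
  have h1 := hE.comp (y0_emb (σ := σ) (N := N) h)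
  have h2 : {z : σ ⊕ (Fin N × Fin (m + 1)) → ℂ | tr h z ∈ E} =
      {z | (fun q => z (y0_emb h q)) ∈ E} := by
    ext z
    simp only [Set.mem_ofPred_eq, y0_tr]
  rw [h2]
  exact h1

theorem cls_trunc {σ : Type} [Finite σ] {N m j : ℕ} (h : j ≤ m)
    {E : Set (σ ⊕ (Fin N × Fin (j + 1)) → ℂ)} (hE : Constr E) :
    cls {z : σ ⊕ (Fin N × Fin (m + 1)) → ℂ | tr h z ∈ E} = cls E * LL ^ (N * (m - j)) := by
  have h1 := RegIso.reindex (y0_equiv σ N h)
    {z : σ ⊕ (Fin N × Fin (m + 1)) → ℂ | tr h z ∈ E}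
  have h2 : {y : (σ ⊕ (Fin N × Fin (j + 1))) ⊕ (Fin N × Fin (m - j)) → ℂ |
      (fun i => y (y0_equiv σ N h i)) ∈ {z : σ ⊕ (Fin N × Fin (m + 1)) → ℂ | tr h z ∈ E}} =
      prodSet E (Set.univ : Set (Fin N × Fin (m - j) → ℂ)) := by
    ext y
    simp only [Set.mem_ofPred_eq, prodSet, Set.mem_univ, and_true]
    have h3 : tr h (fun i => y (y0_equiv σ N h i)) = fun i => y (Sum.inl i) := by
      rw [y0_tr]
      funext q
      exact congrArg y ((y0_equiv σ N h).right_inv (Sum.inl q))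
    rw [h3]
  rw [h2] at h1
  rw [cls_iso (constr_tr h hE) (hE.prodSet constr_univ) h1, cls_prodSet hE constr_univ, cls_univ]
  congr 2
  simp

theorem along_tr {σ : Type} {N m j : ℕ} (h : j ≤ m) (z : σ ⊕ (Fin N × Fin (m + 1)) → ℂ)
    (f : MvPolynomial (Fin N) ℂ) (l : ℕ) (hl : l ≤ j) :
    (along f fun q => tr h z (Sum.inr q)).coeff l = (along f fun q => z (Sum.inr q)).coeff l := by
  refine along_trunc f _ _ l fun i l' hl' => ?_
  rw [a1_arc_coeff, a1_arc_coeff, dif_pos (show l' < j + 1 by omega),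
    dif_pos (show l' < m + 1 by omega)]
  simp [tr]

theorem den_rescale {s₀ : ℚ} {D : PowerSeries MC} (h : D ∈ Den (s₀ + 1)) :
    PowerSeries.rescale ((Lu⁻¹ : MCˣ) : MC) D ∈ Den s₀ := by
  induction h using Submonoid.closure_induction with
  | mem D h =>
    obtain ⟨a, b, hb, hab, rfl⟩ := h
    have h1 : PowerSeries.rescale ((Lu⁻¹ : MCˣ) : MC)
        (1 - PowerSeries.C ((Lu ^ (-a) : MCˣ) : MC) * (PowerSeries.X : PowerSeries MC) ^ b) =
        1 - PowerSeries.C ((Lu ^ (-(a + b)) : MCˣ) : MC) * (PowerSeries.X : PowerSeries MC) ^ b := by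
      rw [map_sub, map_one]
      congr 1
      ext k
      rw [PowerSeries.coeff_rescale, PowerSeries.coeff_C_mul, PowerSeries.coeff_C_mul,
        PowerSeries.coeff_X_pow]
      split_ifs with hk
      · rw [hk, mul_one, mul_one, ← Units.val_pow_eq_pow_val, ← Units.val_mul]
        congr 1
        rw [neg_add, zpow_add, mul_comm, inv_pow, zpow_neg Lu (b : ℤ), zpow_natCast]
      · rw [mul_zero, mul_zero, mul_zero]
    rw [h1]
    refine den_gen (a + b) b hb fun h2 => hab ?_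
    have hb' : (b : ℚ) ≠ 0 := by
      exact_mod_cast hb.ne'
    rw [← h2]
    push_cast
    field_simp
    ring
  | one => rw [map_one]; exact den_one _
  | mul x y _ _ hx hy => rw [map_mul]; exact den_mul hx hy

theorem ubd_rescale {D Z : PowerSeries MC} {K : ℕ} (h : UBd D K Z) (c : MC) :
    UBd (PowerSeries.rescale c D) K (PowerSeries.rescale c Z) := by
  intro k hk
  rw [← map_mul, PowerSeries.coeff_rescale, h k hk, mul_zero]

theorem den_expand {s₀ : ℚ} {k : ℕ} (hk : k ≠ 0) {D : PowerSeries MC} (h : D ∈ Den (k * s₀)) :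
    PowerSeries.expand k hk D ∈ Den s₀ := by
  induction h using Submonoid.closure_induction with
  | mem D h =>
    obtain ⟨a, b, hb, hab, rfl⟩ := h
    rw [map_sub, map_one, map_mul, map_pow, PowerSeries.expand_C, PowerSeries.expand_X, ← pow_mul]
    refine den_gen a (k * b) (Nat.mul_pos (Nat.pos_of_ne_zero hk) hb) fun h2 => hab ?_
    have hb' : (b : ℚ) ≠ 0 := by
      exact_mod_cast hb.ne'
    have hk' : (k : ℚ) ≠ 0 := by
      exact_mod_cast hk
    rw [← h2]
    push_cast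
    field_simp
  | one => rw [map_one]; exact den_one _
  | mul x y _ _ hx hy => rw [map_mul]; exact den_mul hx hy

theorem ubd_expand {D Z : PowerSeries MC} {K k : ℕ} (hk : k ≠ 0) (h : UBd D K Z) :
    UBd (PowerSeries.expand k hk D) (k * K) (PowerSeries.expand k hk Z) := by
  intro n hn
  rw [← map_mul, PowerSeries.coeff_expand]
  split_ifs with h1
  · refine h _ ?_
    obtain ⟨c, rfl⟩ := h1
    rw [Nat.mul_div_cancel_left _ (Nat.pos_of_ne_zero hk)]
    exact lt_of_mul_lt_mul_left hn (Nat.zero_le k)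
  · rfl

end TV
end MotMono
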