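import Pool.Agent.Lib.MP_4e5fcd_ag.TV.YDefs
import Pool.Agent.Lib.MP_4e5fcd_ag.TV.Y0
import Pool.Agent.Lib.MP_4e5fcd_ag.CN.E1
import Pool.Agent.Lib.MP_4e5fcd_ag.CN.P2
import Pool.Agent.Lib.MP_4e5fcd_ag.CN.P3

/-!
# TV-Y6: products in disjoint variables: the classes

`jl γ`, `jr γ`: the two components of a jet. `fam2 I J Γ i j`: pairs (an `i`-jet along which `I` vanishes exactly to order `i`, a
`j`-jet along which `J` vanishes exactly to order `j`), with parameters.
* `exOrd_box`: a `k`-jet `γ` is in `ExOrd (boxProd I J) k` iff there are `i + j = k` such that `I` has exact order `i` along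
  `jl γ` and `J` has exact order `j` along `jr γ` (`exOrd_span`; `along (f g) = along f * along g`, orders of
  polynomials add; if `I` or `J` vanishes identically along its component the product does; `i, j` are unique).
* `coeff_box`: `fam (boxProd I J) Γ k` is the disjoint union over `i + j = k` of the sets of jets whose components have exact orders
  `i`, `j`; truncation of the first component to an `i`-jet and of the second to a `j`-jet has affine fibres:
  `[..] = [fam2 I J Γ i j] L^(N (k - i) + M (k - j))` (isomorphism with a product: `cls_iso`, `cls_prodSet`, `cls_univ`),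
  and `L^(N (k-i) + M (k-j)) L^(-(N+M)(k+1)) = L^(-N (i+1) - M (j+1))`.
* `row_left`: for fixed `j` the set `fam2 I J Γ i j` is isomorphic to `fam I (Γ₁ j) i`, where `Γ₁ j` is the family with
  parameters `σ ⊕ (Fin M × Fin (j+1))`; `row_right` symmetric.
-/

open MvPolynomial

namespace MotMono
namespace TV

open CN

/-- pairs of jets of exact orders `i`, `j` -/
def fam2 {N M : ℕ} {σ : Type} (I : Ideal (MvPolynomial (Fin N) ℂ))
    (J : Ideal (MvPolynomial (Fin M) ℂ)) (Γ : Set (σ ⊕ Fin (N + M) → ℂ)) (i j : ℕ) :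
    Set ((σ ⊕ (Fin N × Fin (i + 1))) ⊕ (Fin M × Fin (j + 1)) → ℂ) :=
  {z | Sum.elim (fun s => z (Sum.inl (Sum.inl s)))
      (Fin.append (fun a => z (Sum.inl (Sum.inr (a, 0)))) fun b => z (Sum.inr (b, 0))) ∈ Γ ∧
    (fun q => z (Sum.inl (Sum.inr q))) ∈ ExOrd I i ∧ (fun q => z (Sum.inr q)) ∈ ExOrd J j}

/-- the normalised class of `fam2` -/
noncomputable def a2 {N M : ℕ} {σ : Type} [Finite σ] (I : Ideal (MvPolynomial (Fin N) ℂ))
    (J : Ideal (MvPolynomial (Fin M) ℂ)) (Γ : Set (σ ⊕ Fin (N + M) → ℂ)) (i j : ℕ) : MC :=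
  algebraMap K0 MC (cls (fam2 I J Γ i j)) *
    ((Lu ^ (-(N * (i + 1) + M * (j + 1) : ℤ)) : MCˣ) : MC)

/-- the family with parameters in `σ` and the `j`-jets of order `j` -/
def par1 {N M : ℕ} {σ : Type} (J : Ideal (MvPolynomial (Fin M) ℂ))
    (Γ : Set (σ ⊕ Fin (N + M) → ℂ)) (j : ℕ) : Set ((σ ⊕ (Fin M × Fin (j + 1))) ⊕ Fin N → ℂ) :=
  {z | Sum.elim (fun s => z (Sum.inl (Sum.inl s)))
      (Fin.append (fun a => z (Sum.inr a)) fun b => z (Sum.inl (Sum.inr (b, 0)))) ∈ Γ ∧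
    (fun q => z (Sum.inl (Sum.inr q))) ∈ ExOrd J j}

/-- the family with parameters in `σ` and the `i`-jets of order `i` -/
def par2 {N M : ℕ} {σ : Type} (I : Ideal (MvPolynomial (Fin N) ℂ))
    (Γ : Set (σ ⊕ Fin (N + M) → ℂ)) (i : ℕ) : Set ((σ ⊕ (Fin N × Fin (i + 1))) ⊕ Fin M → ℂ) :=
  {z | Sum.elim (fun s => z (Sum.inl (Sum.inl s)))
      (Fin.append (fun a => z (Sum.inl (Sum.inr (a, 0)))) fun b => z (Sum.inr b)) ∈ Γ ∧
    (fun q => z (Sum.inl (Sum.inr q))) ∈ ExOrd I i}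

private theorem y6_LL : algebraMap K0 MC LL = ((Lu : MCˣ) : MC) := by
  rw [Lu, IsUnit.unit_spec]

private theorem y6_LL_pow (k : ℕ) : algebraMap K0 MC (LL ^ k) = ((Lu ^ (k : ℤ) : MCˣ) : MC) := by
  rw [map_pow, y6_LL, zpow_natCast, Units.val_pow_eq_pow_val]

/-- sets defined by some of the coordinates -/
private theorem y6_split {σ' τ : Type} [Finite σ'] [Finite τ] (ι : τ → σ')
    (hι : Function.Injective ι) {F : Set (τ → ℂ)} (hF : Constr F) {n : ℕ}
    (hn : Nat.card σ' = Nat.card τ + n) :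
    cls {x : σ' → ℂ | (fun t => x (ι t)) ∈ F} = cls F * LL ^ n := by
  classical
  have := Fintype.ofFinite σ'
  have := Fintype.ofFinite τ
  let υ := {s : σ' // s ∉ Set.range ι}
  have hcard : Fintype.card υ = n := by
    have h1 : Fintype.card υ = Fintype.card σ' - Fintype.card (Set.range ι) :=
      Fintype.card_compl_set (Set.range ι)
    rw [Set.card_range_of_injective hι] at h1
    rw [Nat.card_eq_fintype_card, Nat.card_eq_fintype_card] at hn
    omega
  rw [← hcard, ← cls_univ (σ := υ), ← cls_prodSet hF constr_univ]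
  refine cls_iso (hF.comp ι) (hF.prodSet constr_univ) ?_
  refine ⟨fun x => Sum.elim (fun t => x (ι t)) (fun u : υ => x u.1),
    fun z s => if h : s ∈ Set.range ι then z (Sum.inl h.choose) else z (Sum.inr ⟨s, h⟩),
    ?_, ?_, ?_, ?_, ?_, ?_⟩
  · rintro (t | u)
    · exact regFun_coord _ _
    · exact regFun_coord _ _
  · intro s
    dsimp only
    split_ifs with h
    · exact regFun_coord _ _
    · exact regFun_coord _ _
  · intro x hx
    exact ⟨hx, Set.mem_univ _⟩
  · intro z hz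
    have h1 : (fun t => (fun s => if h : s ∈ Set.range ι then z (Sum.inl h.choose) else
        z (Sum.inr ⟨s, h⟩)) (ι t)) = fun t => z (Sum.inl t) := by
      funext t
      have h2 : ι t ∈ Set.range ι := ⟨t, rfl⟩
      dsimp only
      rw [dif_pos h2, hι h2.choose_spec]
    show (fun t => (fun s => if h : s ∈ Set.range ι then z (Sum.inl h.choose) else
        z (Sum.inr ⟨s, h⟩)) (ι t)) ∈ F
    rw [h1]
    exact hz.1
  · intro x _
    funext s
    dsimp only
    split_ifs with h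
    · rw [Sum.elim_inl, h.choose_spec]
    · rfl
  · intro z _
    funext s
    rcases s with t | u
    · have h2 : ι t ∈ Set.range ι := ⟨t, rfl⟩
      dsimp only [Sum.elim_inl]
      rw [dif_pos h2, hι h2.choose_spec]
    · dsimp only [Sum.elim_inr]
      rw [dif_neg u.2]

/-- the two components of a jet -/
private def jl {N M m : ℕ} (γ : Fin (N + M) × Fin m → ℂ) : Fin N × Fin m → ℂ :=
  fun q => γ (Fin.castAdd M q.1, q.2)

private def jr {N M m : ℕ} (γ : Fin (N + M) × Fin m → ℂ) : Fin M × Fin m → ℂ :=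
  fun q => γ (Fin.natAdd N q.1, q.2)

private theorem y6_along_l {N M m : ℕ} (γ : Fin (N + M) × Fin m → ℂ)
    (f : MvPolynomial (Fin N) ℂ) : along (rename (Fin.castAdd M) f) γ = along f (jl γ) := by
  unfold along
  rw [aeval_rename]
  rfl

private theorem y6_along_r {N M m : ℕ} (γ : Fin (N + M) × Fin m → ℂ)
    (g : MvPolynomial (Fin M) ℂ) : along (rename (Fin.natAdd N) g) γ = along g (jr γ) := by
  unfold along
  rw [aeval_rename]
  rfl

/-- truncation of a jet -/
private def tc {N m : ℕ} (i : ℕ) (h : i ≤ m) (γ : Fin N × Fin (m + 1) → ℂ) :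
    Fin N × Fin (i + 1) → ℂ :=
  fun q => γ (q.1, Fin.castLE (by omega) q.2)

private theorem y6_tc {N m i : ℕ} (h : i ≤ m) (γ : Fin N × Fin (m + 1) → ℂ)
    (f : MvPolynomial (Fin N) ℂ) (l : ℕ) (hl : l ≤ i) :
    (along f (tc i h γ)).coeff l = (along f γ).coeff l := by
  refine along_trunc f _ _ l fun a l' hl' => ?_
  rw [a1_arc_coeff, a1_arc_coeff, dif_pos (by omega), dif_pos (by omega)]
  rfl

private theorem y6_tc_mem {N m i : ℕ} (h : i ≤ m) (I : Ideal (MvPolynomial (Fin N) ℂ))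
    (γ : Fin N × Fin (m + 1) → ℂ) : tc i h γ ∈ ExOrd I i ↔
      (∀ f ∈ I, ∀ l < i, (along f γ).coeff l = 0) ∧ ∃ f ∈ I, (along f γ).coeff i ≠ 0 := by
  constructor
  · rintro ⟨h1, f, hf, h2⟩
    refine ⟨fun f hf l hl => ?_, f, hf, ?_⟩
    · rw [← y6_tc h γ f l hl.le]
      exact h1 f hf l hl
    · rwa [y6_tc h γ f i le_rfl] at h2
  · rintro ⟨h1, f, hf, h2⟩
    refine ⟨fun f hf l hl => ?_, f, hf, ?_⟩
    · rw [y6_tc h γ f l hl.le]
      exact h1 f hf l hl
    · rwa [y6_tc h γ f i le_rfl]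

/-- orders along products -/
private theorem y6_exOrd_box {N M k : ℕ} (I : Ideal (MvPolynomial (Fin N) ℂ))
    (J : Ideal (MvPolynomial (Fin M) ℂ)) (γ : Fin (N + M) × Fin (k + 1) → ℂ) :
    γ ∈ ExOrd (boxProd I J) k ↔ ∃ i j, ∃ (hi : i ≤ k) (hj : j ≤ k), i + j = k ∧
      tc i hi (jl γ) ∈ ExOrd I i ∧ tc j hj (jr γ) ∈ ExOrd J j := by
  classical
  unfold boxProd
  rw [exOrd_span]
  have hprod : ∀ (f : MvPolynomial (Fin N) ℂ) (g : MvPolynomial (Fin M) ℂ),
      along (rename (Fin.castAdd M) f * rename (Fin.natAdd N) g) γ =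
        along f (jl γ) * along g (jr γ) := by
    intro f g
    rw [← y6_along_l, ← y6_along_r]
    simp [along]
  constructor
  · rintro ⟨h1, _, ⟨f₀, hf₀, g₀, hg₀, rfl⟩, h2⟩
    rw [hprod, Polynomial.coeff_mul] at h2
    obtain ⟨p, hp, hp2⟩ := Finset.exists_ne_zero_of_sum_ne_zero h2
    rw [Finset.HasAntidiagonal.mem_antidiagonal] at hp
    have ha : (along f₀ (jl γ)).coeff p.1 ≠ 0 := left_ne_zero_of_mul hp2
    have hb : (along g₀ (jr γ)).coeff p.2 ≠ 0 := right_ne_zero_of_mul hp2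
    have hI : ∃ l, ∃ f ∈ I, (along f (jl γ)).coeff l ≠ 0 := ⟨p.1, f₀, hf₀, ha⟩
    have hJ : ∃ l, ∃ g ∈ J, (along g (jr γ)).coeff l ≠ 0 := ⟨p.2, g₀, hg₀, hb⟩
    obtain ⟨f, hf, hfi⟩ := Nat.find_spec hI
    obtain ⟨g, hg, hgj⟩ := Nat.find_spec hJ
    have hi1 : ∀ f ∈ I, ∀ l < Nat.find hI, (along f (jl γ)).coeff l = 0 := by
      intro f hf l hl
      by_contra hc
      exact Nat.find_min hI hl ⟨f, hf, hc⟩
    have hj1 : ∀ g ∈ J, ∀ l < Nat.find hJ, (along g (jr γ)).coeff l = 0 := by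
      intro g hg l hl
      by_contra hc
      exact Nat.find_min hJ hl ⟨g, hg, hc⟩
    have hi2 : Nat.find hI ≤ p.1 := Nat.find_min' hI ⟨f₀, hf₀, ha⟩
    have hj2 : Nat.find hJ ≤ p.2 := Nat.find_min' hJ ⟨g₀, hg₀, hb⟩
    have hge : k ≤ Nat.find hI + Nat.find hJ := by
      by_contra hc
      push Not at hc
      have h3 := h1 _ ⟨f, hf, g, hg, rfl⟩ _ hc
      rw [hprod, Polynomial.coeff_mul, Finset.sum_eq_single (Nat.find hI, Nat.find hJ)] at h3
      · exact mul_ne_zero hfi hgj h3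
      · rintro ⟨a, b⟩ hab hne
        rw [Finset.HasAntidiagonal.mem_antidiagonal] at hab
        simp only at hab ⊢
        rcases Nat.lt_or_ge a (Nat.find hI) with h4 | h4
        · rw [hi1 f hf a h4, zero_mul]
        · have h5 : b < Nat.find hJ := by
            by_contra h6
            push Not at h6
            exact hne (Prod.ext (by simp only; omega) (by simp only; omega))
          rw [hj1 g hg b h5, mul_zero]
      · intro h4
        exact absurd (Finset.HasAntidiagonal.mem_antidiagonal.2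
          (rfl : (Nat.find hI, Nat.find hJ).1 + (Nat.find hI, Nat.find hJ).2 = _)) h4
    refine ⟨Nat.find hI, Nat.find hJ, by omega, by omega, by omega, ?_, ?_⟩
    · rw [y6_tc_mem]
      exact ⟨hi1, f, hf, hfi⟩
    · rw [y6_tc_mem]
      exact ⟨hj1, g, hg, hgj⟩
  · rintro ⟨i, j, hi, hj, hij, h1, h2⟩
    rw [y6_tc_mem] at h1 h2
    obtain ⟨h1, f, hf, hfi⟩ := h1
    obtain ⟨h2, g, hg, hgj⟩ := h2
    refine ⟨?_, _, ⟨f, hf, g, hg, rfl⟩, ?_⟩
    · rintro _ ⟨f, hf, g, hg, rfl⟩ l hl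
      rw [hprod, Polynomial.coeff_mul]
      refine Finset.sum_eq_zero fun p hp => ?_
      rw [Finset.HasAntidiagonal.mem_antidiagonal] at hp
      rcases Nat.lt_or_ge p.1 i with h3 | h3
      · rw [h1 f hf _ h3, zero_mul]
      · rw [h2 g hg p.2 (by omega), mul_zero]
    · rw [hprod, Polynomial.coeff_mul, Finset.sum_eq_single (i, j)]
      · exact mul_ne_zero hfi hgj
      · rintro ⟨a, b⟩ hab hne
        rw [Finset.HasAntidiagonal.mem_antidiagonal] at hab
        simp only at hab ⊢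
        rcases Nat.lt_or_ge a i with h4 | h4
        · rw [h1 f hf a h4, zero_mul]
        · have h5 : b < j := by
            by_contra h6
            push Not at h6
            exact hne (Prod.ext (by simp only; omega) (by simp only; omega))
          rw [h2 g hg b h5, mul_zero]
      · intro h4
        exact absurd (Finset.HasAntidiagonal.mem_antidiagonal.2 hij) h4

private theorem y6_unique {N m i i' : ℕ} (hi : i ≤ m) (hi' : i' ≤ m)
    (I : Ideal (MvPolynomial (Fin N) ℂ)) (γ : Fin N × Fin (m + 1) → ℂ)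
    (h : tc i hi γ ∈ ExOrd I i) (h' : tc i' hi' γ ∈ ExOrd I i') : i = i' := by
  rw [y6_tc_mem] at h h'
  obtain ⟨h1, f, hf, h2⟩ := h
  obtain ⟨h1', f', hf', h2'⟩ := h'
  rcases Nat.lt_trichotomy i i' with h3 | h3 | h3
  · exact absurd (h1' f hf i h3) h2
  · exact h3
  · exact absurd (h1 f' hf' i' h3) h2'

private theorem constr_fam2 {N M : ℕ} {σ : Type} (I : Ideal (MvPolynomial (Fin N) ℂ))
    (J : Ideal (MvPolynomial (Fin M) ℂ)) {Γ : Set (σ ⊕ Fin (N + M) → ℂ)} (hΓ : Constr Γ)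
    (i j : ℕ) : Constr (fam2 I J Γ i j) := by
  have h1 := hΓ.comp (σ := (σ ⊕ (Fin N × Fin (i + 1))) ⊕ (Fin M × Fin (j + 1)))
    (Sum.elim (fun s => Sum.inl (Sum.inl s))
      (Fin.append (fun a => Sum.inl (Sum.inr (a, 0))) fun b => Sum.inr (b, 0)))
  have h2 := (constr_exOrd I i).comp (σ := (σ ⊕ (Fin N × Fin (i + 1))) ⊕ (Fin M × Fin (j + 1)))
    (fun q => Sum.inl (Sum.inr q))
  have h3 := (constr_exOrd J j).comp (σ := (σ ⊕ (Fin N × Fin (i + 1))) ⊕ (Fin M × Fin (j + 1)))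
    (fun q => Sum.inr q)
  have h4 := h1.inter (h2.inter h3)
  refine (iff_of_eq (congrArg Constr ?_)).1 h4
  ext z
  simp only [Set.mem_inter_iff, Set.mem_ofPred_eq, fam2]
  refine and_congr_left fun _ => ?_
  have e : (fun t => z (Sum.elim (fun s => Sum.inl (Sum.inl s))
      (Fin.append (fun a => Sum.inl (Sum.inr (a, 0))) fun b => Sum.inr (b, 0)) t)) =
      Sum.elim (fun s => z (Sum.inl (Sum.inl s)))
      (Fin.append (fun a => z (Sum.inl (Sum.inr (a, 0)))) fun b => z (Sum.inr (b, 0))) := by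
    funext t
    rcases t with s | c
    · rfl
    · simp only [Sum.elim_inr]
      refine Fin.addCases (fun a => ?_) (fun b => ?_) c
      · rw [Fin.append_left, Fin.append_left]
      · rw [Fin.append_right, Fin.append_right]
  rw [e]

theorem constr_par1 {N M : ℕ} {σ : Type} (J : Ideal (MvPolynomial (Fin M) ℂ))
    {Γ : Set (σ ⊕ Fin (N + M) → ℂ)} (hΓ : Constr Γ) (j : ℕ) : Constr (par1 J Γ j) := by
  have h1 := hΓ.comp (σ := (σ ⊕ (Fin M × Fin (j + 1))) ⊕ Fin N)
    (Sum.elim (fun s => Sum.inl (Sum.inl s))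
      (Fin.append (fun a => Sum.inr a) fun b => Sum.inl (Sum.inr (b, 0))))
  have h2 := (constr_exOrd J j).comp (σ := (σ ⊕ (Fin M × Fin (j + 1))) ⊕ Fin N)
    (fun q => Sum.inl (Sum.inr q))
  have h4 := h1.inter h2
  refine (iff_of_eq (congrArg Constr ?_)).1 h4
  ext z
  simp only [Set.mem_inter_iff, Set.mem_ofPred_eq, par1]
  refine and_congr_left fun _ => ?_
  have e : (fun t => z (Sum.elim (fun s => Sum.inl (Sum.inl s))
      (Fin.append (fun a => Sum.inr a) fun b => Sum.inl (Sum.inr (b, 0))) t)) =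
      Sum.elim (fun s => z (Sum.inl (Sum.inl s)))
      (Fin.append (fun a => z (Sum.inr a)) fun b => z (Sum.inl (Sum.inr (b, 0)))) := by
    funext t
    rcases t with s | c
    · rfl
    · simp only [Sum.elim_inr]
      refine Fin.addCases (fun a => ?_) (fun b => ?_) c
      · rw [Fin.append_left, Fin.append_left]
      · rw [Fin.append_right, Fin.append_right]
  rw [e]

theorem constr_par2 {N M : ℕ} {σ : Type} (I : Ideal (MvPolynomial (Fin N) ℂ))
    {Γ : Set (σ ⊕ Fin (N + M) → ℂ)} (hΓ : Constr Γ) (i : ℕ) : Constr (par2 I Γ i) := by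
  have h1 := hΓ.comp (σ := (σ ⊕ (Fin N × Fin (i + 1))) ⊕ Fin M)
    (Sum.elim (fun s => Sum.inl (Sum.inl s))
      (Fin.append (fun a => Sum.inl (Sum.inr (a, 0))) fun b => Sum.inr b))
  have h2 := (constr_exOrd I i).comp (σ := (σ ⊕ (Fin N × Fin (i + 1))) ⊕ Fin M)
    (fun q => Sum.inl (Sum.inr q))
  have h4 := h1.inter h2
  refine (iff_of_eq (congrArg Constr ?_)).1 h4
  ext z
  simp only [Set.mem_inter_iff, Set.mem_ofPred_eq, par2]
  refine and_congr_left fun _ => ?_
  have e : (fun t => z (Sum.elim (fun s => Sum.inl (Sum.inl s))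
      (Fin.append (fun a => Sum.inl (Sum.inr (a, 0))) fun b => Sum.inr b) t)) =
      Sum.elim (fun s => z (Sum.inl (Sum.inl s)))
      (Fin.append (fun a => z (Sum.inl (Sum.inr (a, 0)))) fun b => z (Sum.inr b)) := by
    funext t
    rcases t with s | c
    · rfl
    · simp only [Sum.elim_inr]
      refine Fin.addCases (fun a => ?_) (fun b => ?_) c
      · rw [Fin.append_left, Fin.append_left]
      · rw [Fin.append_right, Fin.append_right]
  rw [e]

theorem coeff_box {N M : ℕ} {σ : Type} [Finite σ] (I : Ideal (MvPolynomial (Fin N) ℂ))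
    (J : Ideal (MvPolynomial (Fin M) ℂ)) {Γ : Set (σ ⊕ Fin (N + M) → ℂ)} (hΓ : Constr Γ) (k : ℕ) :
    PowerSeries.coeff k (Zf (boxProd I J) Γ) =
      ∑ p ∈ Finset.HasAntidiagonal.antidiagonal k, a2 I J Γ p.1 p.2 := by
  classical
  unfold Zf
  rw [PowerSeries.coeff_mk]
  -- the pieces
  let E : ℕ × ℕ → Set (σ ⊕ (Fin (N + M) × Fin (k + 1)) → ℂ) := fun p =>
    {z | Sum.elim (fun s => z (Sum.inl s)) (fun i => z (Sum.inr (i, 0))) ∈ Γ ∧
      ∃ (hi : p.1 ≤ k) (hj : p.2 ≤ k), tc p.1 hi (jl fun q => z (Sum.inr q)) ∈ ExOrd I p.1 ∧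
        tc p.2 hj (jr fun q => z (Sum.inr q)) ∈ ExOrd J p.2}
  have hfam : fam (boxProd I J) Γ k = ⋃ p ∈ Finset.HasAntidiagonal.antidiagonal k, E p := by
    ext z
    simp only [fam, Set.mem_iUnion, Set.mem_ofPred_eq, E, exists_prop]
    constructor
    · rintro ⟨h1, h2⟩
      obtain ⟨i, j, hi, hj, hij, h3, h4⟩ := (y6_exOrd_box I J _).1 h2
      exact ⟨(i, j), Finset.HasAntidiagonal.mem_antidiagonal.2 hij, h1, hi, hj, h3, h4⟩
    · rintro ⟨⟨i, j⟩, hp, h1, hi, hj, h3, h4⟩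
      exact ⟨h1, (y6_exOrd_box I J _).2 ⟨i, j, hi, hj, Finset.HasAntidiagonal.mem_antidiagonal.1 hp, h3, h4⟩⟩
  -- each piece
  have hE : ∀ p ∈ Finset.HasAntidiagonal.antidiagonal k, ∃ ι : ((σ ⊕ (Fin N × Fin (p.1 + 1))) ⊕
      (Fin M × Fin (p.2 + 1))) → (σ ⊕ (Fin (N + M) × Fin (k + 1))), Function.Injective ι ∧
      E p = {x | (fun t => x (ι t)) ∈ fam2 I J Γ p.1 p.2} := by
    rintro ⟨i, j⟩ hp
    rw [Finset.HasAntidiagonal.mem_antidiagonal] at hp
    simp only at hp
    have hi : i ≤ k := by omega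
    have hj : j ≤ k := by omega
    refine ⟨Sum.elim (Sum.elim (fun s => Sum.inl s)
      (fun q => Sum.inr (Fin.castAdd M q.1, Fin.castLE (by omega) q.2)))
      (fun q => Sum.inr (Fin.natAdd N q.1, Fin.castLE (by omega) q.2)), ?_, ?_⟩
    · rintro ((s | ⟨a, l⟩) | ⟨b, l⟩) ((s' | ⟨a', l'⟩) | ⟨b', l'⟩) h
      · simpa using h
      · simp at h
      · simp at h
      · simp at h
      · simp only [Sum.elim_inl, Sum.elim_inr, Sum.inr.injEq, Prod.mk.injEq, Fin.ext_iff,
          Fin.val_castAdd, Fin.val_castLE] at h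
        rw [show a = a' from Fin.ext h.1, show l = l' from Fin.ext h.2]
      · simp only [Sum.elim_inl, Sum.elim_inr, Sum.inr.injEq, Prod.mk.injEq, Fin.ext_iff,
          Fin.val_castAdd, Fin.val_natAdd] at h
        have := a.2
        omega
      · simp at h
      · simp only [Sum.elim_inl, Sum.elim_inr, Sum.inr.injEq, Prod.mk.injEq, Fin.ext_iff,
          Fin.val_castAdd, Fin.val_natAdd] at h
        have := a'.2
        omega
      · simp only [Sum.elim_inl, Sum.elim_inr, Sum.inr.injEq, Prod.mk.injEq, Fin.ext_iff,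
          Fin.val_natAdd, Fin.val_castLE] at h
        rw [show b = b' from Fin.ext (by omega), show l = l' from Fin.ext h.2]
    · ext z
      simp only [E, Set.mem_ofPred_eq, fam2, Sum.elim_inl, Sum.elim_inr]
      have e : (Sum.elim (fun s => z (Sum.inl s)) (fun i => z (Sum.inr (i, 0))) :
          σ ⊕ Fin (N + M) → ℂ) = Sum.elim (fun s => z (Sum.inl s))
          (Fin.append (fun a => z (Sum.inr (Fin.castAdd M a, Fin.castLE (by omega) (0 : Fin (i + 1)))))
            fun b => z (Sum.inr (Fin.natAdd N b, Fin.castLE (by omega) (0 : Fin (j + 1))))) := by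
        funext t
        rcases t with s | c
        · rfl
        · simp only [Sum.elim_inr]
          refine Fin.addCases (fun a => ?_) (fun b => ?_) c
          · rw [Fin.append_left]
            rfl
          · rw [Fin.append_right]
            rfl
      rw [← e]
      refine and_congr_right fun _ => ?_
      constructor
      · rintro ⟨_, _, h3, h4⟩
        exact ⟨h3, h4⟩
      · rintro ⟨h3, h4⟩
        exact ⟨hi, hj, h3, h4⟩
  have hEc : ∀ p ∈ Finset.HasAntidiagonal.antidiagonal k, Constr (E p) := by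
    intro p hp
    obtain ⟨ι, _, h1⟩ := hE p hp
    rw [h1]
    exact (constr_fam2 I J hΓ p.1 p.2).comp ι
  have hdis : ∀ p ∈ Finset.HasAntidiagonal.antidiagonal k,
      ∀ p' ∈ Finset.HasAntidiagonal.antidiagonal k, p ≠ p' → Disjoint (E p) (E p') := by
    intro p hp p' hp' hne
    rw [Set.disjoint_left]
    rintro z ⟨_, hi, hj, h3, h4⟩ ⟨_, hi', hj', h3', h4'⟩
    exact hne (Prod.ext (y6_unique hi hi' I _ h3 h3') (y6_unique hj hj' J _ h4 h4'))
  rw [hfam, cls_biUnion _ hEc hdis, map_sum, Finset.sum_mul]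
  refine Finset.sum_congr rfl fun p hp => ?_
  obtain ⟨ι, hι, h1⟩ := hE p hp
  rw [Finset.HasAntidiagonal.mem_antidiagonal] at hp
  have hcard : Nat.card (σ ⊕ (Fin (N + M) × Fin (k + 1))) =
      Nat.card ((σ ⊕ (Fin N × Fin (p.1 + 1))) ⊕ (Fin M × Fin (p.2 + 1))) +
        (N * (k - p.1) + M * (k - p.2)) := by
    have := Fintype.ofFinite σ
    simp only [Nat.card_eq_fintype_card, Fintype.card_sum, Fintype.card_prod, Fintype.card_fin]
    have e1 : k + 1 = (k - p.1) + (p.1 + 1) := by omega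
    have e2 : k + 1 = (k - p.2) + (p.2 + 1) := by omega
    have e3 : (N + M) * (k + 1) = N * ((k - p.1) + (p.1 + 1)) + M * ((k - p.2) + (p.2 + 1)) := by
      rw [← e1, ← e2]; ring
    rw [e3]
    ring
  rw [h1, y6_split ι hι (constr_fam2 I J hΓ p.1 p.2) hcard, map_mul, y6_LL_pow, a2, mul_assoc,
    ← Units.val_mul, ← zpow_add]
  congr 3
  have hk1 : ((k - p.1 : ℕ) : ℤ) = k - p.1 := by
    have : p.1 ≤ k := by omega
    push_cast [this]
    ring
  have hk2 : ((k - p.2 : ℕ) : ℤ) = k - p.2 := by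
    have : p.2 ≤ k := by omega
    push_cast [this]
    ring
  rw [Nat.cast_add, Nat.cast_mul, Nat.cast_mul, hk1, hk2]
  push_cast
  ring


theorem row_left {N M : ℕ} {σ : Type} [Finite σ] (I : Ideal (MvPolynomial (Fin N) ℂ))
    (J : Ideal (MvPolynomial (Fin M) ℂ)) {Γ : Set (σ ⊕ Fin (N + M) → ℂ)} (hΓ : Constr Γ)
    (i j : ℕ) : a2 I J Γ i j =
      ((Lu ^ (-(M * (j + 1) : ℤ)) : MCˣ) : MC) * PowerSeries.coeff i (Zf I (par1 J Γ j)) := by
  have hcls : cls (fam2 I J Γ i j) = cls (fam I (par1 J Γ j) i) := by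
    let e : (σ ⊕ (Fin N × Fin (i + 1))) ⊕ (Fin M × Fin (j + 1)) ≃
        (σ ⊕ (Fin M × Fin (j + 1))) ⊕ (Fin N × Fin (i + 1)) :=
      (Equiv.sumAssoc _ _ _).trans ((Equiv.sumCongr (Equiv.refl _) (Equiv.sumComm _ _)).trans
        (Equiv.sumAssoc _ _ _).symm)
    refine cls_iso (constr_fam2 I J hΓ i j) (constr_fam I (constr_par1 J hΓ j) i) ?_
    have h2 := RegIso.reindex e (fam2 I J Γ i j)
    refine (iff_of_eq (congrArg (RegIso (fam2 I J Γ i j)) ?_)).1 h2
    ext z
    simp only [fam2, fam, par1, Set.mem_ofPred_eq, Sum.elim_inl, Sum.elim_inr]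
    constructor
    · rintro ⟨h3, h4, h5⟩
      exact ⟨⟨h3, h5⟩, h4⟩
    · rintro ⟨⟨h3, h5⟩, h4⟩
      exact ⟨h3, h4, h5⟩
  unfold Zf a2
  rw [PowerSeries.coeff_mk, hcls, mul_left_comm, ← Units.val_mul, ← zpow_add]
  congr 3
  ring


theorem row_right {N M : ℕ} {σ : Type} [Finite σ] (I : Ideal (MvPolynomial (Fin N) ℂ))
    (J : Ideal (MvPolynomial (Fin M) ℂ)) {Γ : Set (σ ⊕ Fin (N + M) → ℂ)} (hΓ : Constr Γ)
    (i j : ℕ) : a2 I J Γ i j =
      ((Lu ^ (-(N * (i + 1) : ℤ)) : MCˣ) : MC) * PowerSeries.coeff j (Zf J (par2 I Γ i)) := by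
  have hfam : fam2 I J Γ i j = fam J (par2 I Γ i) j := by
    ext z
    simp only [fam2, fam, par2, Set.mem_ofPred_eq, Sum.elim_inl, Sum.elim_inr]
    constructor
    · rintro ⟨h3, h4, h5⟩
      exact ⟨⟨h3, h4⟩, h5⟩
    · rintro ⟨⟨h3, h4⟩, h5⟩
      exact ⟨h3, h4, h5⟩
  unfold Zf a2
  rw [PowerSeries.coeff_mk, hfam, mul_left_comm, ← Units.val_mul, ← zpow_add]
  congr 3
  ring


end TV
end MotMono
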