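import Pool.Agent.Lib.MP_4e5fcd_ag.TV.YDefs
import Pool.Agent.Lib.MP_4e5fcd_ag.TV.V0
import Pool.Agent.Lib.MP_4e5fcd_ag.CN.P1
import Pool.Agent.Lib.MP_4e5fcd_ag.CN.P2

/-!
# TV-Y1: a new variable as a generator: visible values

`vis_adj`: let `n, γ, Z` be the data of `Vis χ I p lam`; take the `n`-jet `(γ, 0)` at `(p, 0)`. It vanishes to
order `n` on `adjVar I` (`ordGe_span`, CN/P2), and `rename castSucc f` along `(γ, 0)` is `f` along `γ`
(`rename`, `aeval`: `along (rename Fin.castSucc f) γ' = along f (fun q => γ' (q.1.castSucc, q.2))`).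
For every `m ≥ 1` (and also for `m = 0`) the set `CA (adjVar I) (p,0) η' m` is `{(γ₁, 0) | γ₁ ∈ CA I p η m}`
(`mem_CA_span`; for the generator `X (last N)`: the coefficients `< m` are zero, and the coefficient `m` is the
coefficient `n` of `X (last N)` along `(γ, 0)`, i.e. `0`): an isomorphism (`cls_iso`, `constr_CA`).
`near_adj`: `‖(p, 0)‖ = ‖p‖` (or `≤`; `pi_norm_lt_iff`), points `Fin.snoc p 0`.
-/

open MvPolynomial

namespace MotMono
namespace TV

open CN

theorem along_castSucc {N n : ℕ} (f : MvPolynomial (Fin N) ℂ) (γ : Fin (N + 1) × Fin n → ℂ) :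
    along (rename Fin.castSucc f) γ = along f fun q => γ (q.1.castSucc, q.2) := by
  unfold along
  rw [aeval_rename]
  rfl

/-- the arc with a further coordinate `0` -/
private def y1ext {N n : ℕ} (γ : Fin N × Fin n → ℂ) : Fin (N + 1) × Fin n → ℂ :=
  fun q => Fin.snoc (α := fun _ => ℂ) (fun i => γ (i, q.2)) 0 q.1

private theorem y1ext_castSucc {N n : ℕ} (γ : Fin N × Fin n → ℂ) (i : Fin N) (l : Fin n) :
    y1ext γ (i.castSucc, l) = γ (i, l) := by
  simp [y1ext]

private theorem y1ext_last {N n : ℕ} (γ : Fin N × Fin n → ℂ) (l : Fin n) :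
    y1ext γ (Fin.last N, l) = 0 := by
  simp [y1ext]

private theorem y1_along_ext {N n : ℕ} (f : MvPolynomial (Fin N) ℂ) (γ : Fin N × Fin n → ℂ) :
    along (rename Fin.castSucc f) (y1ext γ) = along f γ := by
  rw [along_castSucc]
  congr 1
  funext q
  exact y1ext_castSucc γ q.1 q.2

private theorem y1_coeff_X {N n : ℕ} (γ : Fin (N + 1) × Fin n → ℂ) (l : ℕ) (hl : l < n) :
    (along (X (Fin.last N)) γ).coeff l = γ (Fin.last N, ⟨l, hl⟩) := by
  unfold along arc
  rw [aeval_X, Polynomial.finsetSum_coeff, Finset.sum_eq_single ⟨l, hl⟩]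
  · rw [Polynomial.coeff_C_mul, Polynomial.coeff_X_pow]
    simp
  · intro b _ hb
    rw [Polynomial.coeff_C_mul, Polynomial.coeff_X_pow, if_neg, mul_zero]
    intro h
    exact hb (Fin.ext h.symm)
  · intro h
    exact absurd (Finset.mem_univ _) h

private theorem y1_along_X {N n : ℕ} (γ : Fin N × Fin n → ℂ) :
    along (X (Fin.last N)) (y1ext γ) = 0 := by
  unfold along arc
  rw [aeval_X]
  refine Finset.sum_eq_zero fun l _ => ?_
  rw [y1ext_last, map_zero, zero_mul]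

private theorem y1_bp_ext {N n : ℕ} (γ : Fin N × Fin (n + 1) → ℂ) :
    bp (y1ext γ) = Fin.snoc (α := fun _ => ℂ) (bp γ) 0 := by
  funext i
  rfl

private theorem y1_ordGe {N n : ℕ} {I : Ideal (MvPolynomial (Fin N) ℂ)}
    {γ : Fin N × Fin (n + 1) → ℂ} (h : OrdGe I n γ) : OrdGe (adjVar I) n (y1ext γ) := by
  refine (ordGe_span _ n _).2 ?_
  rintro f' (⟨f, hf, rfl⟩ | hf) l hl
  · rw [y1_along_ext]
    exact h f hf l hl
  · rw [Set.mem_singleton_iff.1 hf, y1_along_X, Polynomial.coeff_zero]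

private theorem y1_mem {N n m : ℕ} {I : Ideal (MvPolynomial (Fin N) ℂ)}
    {γ : Fin N × Fin (n + 1) → ℂ} (h : OrdGe I n γ) (γ' : Fin (N + 1) × Fin (m + 1) → ℂ) :
    γ' ∈ CA (adjVar I) (bp (y1ext γ)) (fun f => (along f (y1ext γ)).coeff n) m ↔
      (fun q => γ' (q.1.castSucc, q.2)) ∈ CA I (bp γ) (fun f => (along f γ).coeff n) m ∧
        ∀ l, γ' (Fin.last N, l) = 0 := by
  have h1 := mem_CA_span (m := m)
    ({f' | ∃ f ∈ I, f' = rename Fin.castSucc f} ∪ {X (Fin.last N)}) (y1ext γ) (y1_ordGe h) γ'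
  refine h1.trans ⟨?_, ?_⟩
  · rintro ⟨h2, h3⟩
    refine ⟨⟨fun i => ?_, fun f hf => ?_⟩, fun l => ?_⟩
    · have h4 := congrFun h2 i.castSucc
      exact h4.trans (y1ext_castSucc γ i 0)
    · have h4 := h3 _ (Or.inl ⟨f, hf, rfl⟩)
      rw [along_castSucc, y1_along_ext] at h4
      exact h4
    · have h4 := h3 _ (Or.inr rfl)
      rw [y1_along_X, Polynomial.coeff_zero] at h4
      rw [← y1_coeff_X γ' l l.2]
      rcases Nat.lt_succ_iff_lt_or_eq.1 l.2 with h5 | h5
      · exact h4.1 l h5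
      · rw [h5]
        exact h4.2
  · rintro ⟨⟨h2, h3⟩, h4⟩
    refine ⟨?_, ?_⟩
    · funext i
      refine Fin.lastCases ?_ (fun j => ?_) i
      · exact (h4 0).trans (y1ext_last γ 0).symm
      · exact (h2 j).trans (y1ext_castSucc γ j 0).symm
    · rintro f' (⟨f, hf, rfl⟩ | hf)
      · rw [along_castSucc, y1_along_ext]
        exact h3 f hf
      · rw [Set.mem_singleton_iff.1 hf, y1_along_X, Polynomial.coeff_zero]
        refine ⟨fun l hl => ?_, ?_⟩
        · rw [y1_coeff_X γ' l (by omega)]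
          exact h4 _
        · rw [y1_coeff_X γ' m (by omega)]
          exact h4 _

private theorem y1_cls {N n m : ℕ} {I : Ideal (MvPolynomial (Fin N) ℂ)}
    {γ : Fin N × Fin (n + 1) → ℂ} (h : OrdGe I n γ) :
    cls (CA (adjVar I) (bp (y1ext γ)) (fun f => (along f (y1ext γ)).coeff n) m) =
      cls (CA I (bp γ) (fun f => (along f γ).coeff n) m) := by
  refine cls_iso (constr_CA _ _ _ _) (constr_CA _ _ _ _) ?_
  refine ⟨fun γ' q => γ' (q.1.castSucc, q.2), fun γ₁ => y1ext γ₁, fun j => ?_, fun j => ?_,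
    fun x hx => ?_, fun y hy => ?_, fun x hx => ?_, fun y hy => ?_⟩
  · exact regFun_coord _ (j.1.castSucc, j.2)
  · obtain ⟨i, l⟩ := j
    refine Fin.lastCases ?_ (fun k => ?_) i
    · have h1 : (fun γ₁ : Fin N × Fin (m + 1) → ℂ => y1ext γ₁ (Fin.last N, l)) = fun _ => 0 := by
        funext γ₁
        exact y1ext_last γ₁ l
      rw [h1]
      exact regFun_const _ 0
    · have h1 : (fun γ₁ : Fin N × Fin (m + 1) → ℂ => y1ext γ₁ (k.castSucc, l)) =
          fun γ₁ => γ₁ (k, l) := by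
        funext γ₁
        exact y1ext_castSucc γ₁ k l
      rw [h1]
      exact regFun_coord _ (k, l)
  · exact ((y1_mem h x).1 hx).1
  · refine (y1_mem h _).2 ⟨?_, fun l => y1ext_last y l⟩
    have h1 : (fun q : Fin N × Fin (m + 1) => y1ext y (q.1.castSucc, q.2)) = y := by
      funext q
      exact y1ext_castSucc y q.1 q.2
    rw [h1]
    exact hy
  · have h1 := ((y1_mem h x).1 hx).2
    funext q
    obtain ⟨i, l⟩ := q
    refine Fin.lastCases ?_ (fun k => ?_) i
    · exact (y1ext_last _ l).trans (h1 l).symm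
    · exact y1ext_castSucc _ k l
  · funext q
    exact y1ext_castSucc y q.1 q.2

theorem vis_adj {χ : K0 →+* ℤ} (hχ : IsEulerCharF χ) {N : ℕ}
    {I : Ideal (MvPolynomial (Fin N) ℂ)} {p : Fin N → ℂ} {lam : ℂ} (h : CN.Vis χ I p lam) :
    CN.Vis χ (adjVar I) (Fin.snoc (α := fun _ => ℂ) p 0) lam := by
  obtain ⟨n, γ, hn, rfl, hg, ⟨f, hf, hf'⟩, Z, hZ, hZ'⟩ := h
  refine ⟨n, y1ext γ, hn, y1_bp_ext γ, y1_ordGe hg, ⟨rename Fin.castSucc f, ?_, ?_⟩, Z, ?_, hZ'⟩
  · exact Ideal.subset_span (Or.inl ⟨f, hf, rfl⟩)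
  · rw [y1_along_ext]
    exact hf'
  · have h1 : (fun d => χ (cls (CA (adjVar I) (Fin.snoc (α := fun _ => ℂ) (bp γ) 0)
        (fun f => (along f (y1ext γ)).coeff n) d))) =
        fun d => χ (cls (CA I (bp γ) (fun f => (along f γ).coeff n) d)) := by
      funext d
      rw [← y1_bp_ext, y1_cls hg]
    rw [h1]
    exact hZ

theorem near_adj {χ : K0 →+* ℤ} (hχ : IsEulerCharF χ) {N : ℕ}
    {I : Ideal (MvPolynomial (Fin N) ℂ)} {lam : ℂ} (h : CN.Near χ I 0 lam) :
    CN.Near χ (adjVar I) 0 lam := by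
  intro ε hε
  obtain ⟨p, hp, hv⟩ := h ε hε
  refine ⟨Fin.snoc (α := fun _ => ℂ) p 0, ?_, vis_adj hχ hv⟩
  rw [sub_zero] at hp ⊢
  rw [pi_norm_lt_iff hε] at hp ⊢
  intro i
  refine Fin.lastCases ?_ (fun j => ?_) i
  · rw [Fin.snoc_last, norm_zero]
    exact hε
  · rw [Fin.snoc_castSucc]
    exact hp j

end TV
end MotMono
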