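import Pool.Agent.Lib.MP_4e5fcd_ag.TV.A8

/-!
# TV-A9: resolution of a smooth curve

As in A8, but the lines need not be curves.
* `A, B > 0`: `smooth_two`.
* `A > 0`, `B = 0`, `∂_y v (0) ≠ 0`: `strict M`.
* `A > 0`, `B = 0`, `∂_y v (0) = 0`: so `v = α x + ...`, `α ≠ 0`. `node_of_subs` (`J = v ^ M g`, order `M`,
  `ld M J ![1, w] = α ^ M g(0) ≠ 0` for all `w`): `sub`: only `w = 0` occurs: `triv`
  (`ch 0 v = x v_0`, `v_0 (0) = α`). `subi`: `sw v = α y + ...`, `ch 0 (sw v) = x v'`,
  `v' = α y + x (...)`: `v'(0) = 0`, `∂_y v' (0) = α ≠ 0`, `x ∤ v'`, `y ∤ v'` (else `x ∣ v`; `A > 0`): the lines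
  have exponents `A + M > 0` and `A > 0`: `smooth_two`.
* `A = B = 0`: `node_of_subs`: `sub` for `w = 0`: `v_0 (0) = α`: if `≠ 0` `triv`, if `= 0` then `β ≠ 0`,
  `strict M` (`∂_y v_0 (0) = β`); `w ≠ 0`, `α + β w = 0`: `β ≠ 0`: `strict M`. `subi`: `sw v = β x + α y + ..`:
  `β ≠ 0`: `triv`; `β = 0`: `strict M`.
-/

open MvPolynomial

namespace MotMono
namespace TV

private lemma A9_pd0_ch (w : ℂ) (f : P2) :
    pderiv 0 (ch w f) = ch w (pderiv 0 f) + (X 1 + C w) * ch w (pderiv 1 f) := by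
  unfold ch
  induction f using MvPolynomial.induction_on with
  | C a => simp
  | add p q hp hq =>
    simp only [map_add, hp, hq]
    ring
  | mul_X p i hp =>
    simp only [map_mul, pderiv_mul, hp, aeval_X, map_add]
    fin_cases i <;> simp [cv] <;> ring

private lemma A9_pd1_ch (w : ℂ) (f : P2) :
    pderiv 1 (ch w f) = X 0 * ch w (pderiv 1 f) := by
  unfold ch
  induction f using MvPolynomial.induction_on with
  | C a => simp
  | add p q hp hq =>
    simp only [map_add, hp, hq]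
    ring
  | mul_X p i hp =>
    simp only [map_mul, pderiv_mul, hp, aeval_X, map_add]
    fin_cases i <;> simp [cv] <;> ring

private lemma A9_pd0_sw (f : P2) : pderiv 0 (sw f) = sw (pderiv 1 f) := by
  unfold sw
  induction f using MvPolynomial.induction_on with
  | C a => simp
  | add p q hp hq => simp only [map_add, hp, hq]
  | mul_X p i hp =>
    simp only [map_mul, pderiv_mul, hp, aeval_X, map_add]
    fin_cases i <;> simp [sv]

private lemma A9_pd1_sw (f : P2) : pderiv 1 (sw f) = sw (pderiv 0 f) := by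
  unfold sw
  induction f using MvPolynomial.induction_on with
  | C a => simp
  | add p q hp hq => simp only [map_add, hp, hq]
  | mul_X p i hp =>
    simp only [map_mul, pderiv_mul, hp, aeval_X, map_add]
    fin_cases i <;> simp [sv]

private lemma A9_eval_ch (w y : ℂ) (f : P2) : eval ![0, y] (ch w f) = eval 0 f := by
  unfold ch
  induction f using MvPolynomial.induction_on with
  | C a => simp
  | add p q hp hq => simp only [map_add, hp, hq]
  | mul_X p i hp =>
    rw [map_mul, map_mul, map_mul, hp, aeval_X]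
    fin_cases i <;> simp [cv]

private lemma A9_zero : (![0, 0] : Fin 2 → ℂ) = 0 := by
  ext i
  fin_cases i <;> rfl

private lemma A9_eval_ch0 (w : ℂ) (f : P2) : eval 0 (ch w f) = eval 0 f := by
  rw [← A9_zero, A9_eval_ch, A9_zero]

private lemma A9_vw (w : ℂ) (v u : P2) (h : ch w v = X 0 * u) (y : ℂ) :
    eval ![0, y] u = eval 0 (pderiv 0 v) + (y + w) * eval 0 (pderiv 1 v) := by
  have h1 := A9_pd0_ch w v
  rw [h, pderiv_mul, pderiv_X_self, one_mul] at h1
  have h2 := congrArg (eval ![0, y]) h1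
  rw [map_add, map_mul, map_add, map_mul, map_add, A9_eval_ch, A9_eval_ch, eval_X, eval_X,
    eval_C] at h2
  simpa using h2

private lemma A9_pd1_u (w : ℂ) (v u : P2) (h : ch w v = X 0 * u) :
    pderiv 1 u = ch w (pderiv 1 v) := by
  have h1 := A9_pd1_ch w v
  rw [h, pderiv_mul, pderiv_X_of_ne (by decide), zero_mul, zero_add] at h1
  exact mul_left_cancel₀ (X_ne_zero 0) h1

private lemma A9_chart {r : ℕ} (F g : Fin r → P2) (v : P2) (A M : ℕ)
    (hM : 0 < M) (hF : ∀ j, F j = X 0 ^ A * v ^ M * g j) (hv : eval 0 v = 0)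
    (hv' : eval 0 (pderiv 0 v) ≠ 0 ∨ eval 0 (pderiv 1 v) ≠ 0)
    (hg : ∃ j, eval 0 (g j) ≠ 0) (w : ℂ) :
    ∃ X : Str r, Rz (fun j => ch w (F j)) (A + M) 0 X ∧ ∀ M' ∈ X.strs, M' = M := by
  obtain ⟨u, hu, -⟩ := ch_ord w v 1 ((ordP_one v).mpr hv)
  rw [pow_one] at hu
  have hFw : ∀ j, ch w (F j) = X 0 ^ (A + M) * u ^ M * ch w (g j) := by
    intro j
    have hu' : aeval (cv w) v = X 0 * u := hu
    have h0 : aeval (cv w) (X 0 : P2) = X 0 := by
      rw [aeval_X]
      rfl
    rw [hF]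
    show aeval (cv w) _ = _ * aeval (cv w) (g j)
    rw [map_mul, map_mul, map_pow, map_pow, h0, hu', mul_pow, pow_add]
    ring
  obtain ⟨j₀, hj₀⟩ := hg
  have hg' : ∃ j, eval 0 (ch w (g j)) ≠ 0 := ⟨j₀, by rw [A9_eval_ch0]; exact hj₀⟩
  have hval : eval 0 u = eval 0 (pderiv 0 v) + w * eval 0 (pderiv 1 v) := by
    have := A9_vw w v u hu 0
    rw [A9_zero, zero_add] at this
    exact this
  by_cases h : eval 0 u = 0
  · have hβ : eval 0 (pderiv 1 v) ≠ 0 := by
      intro hb
      rw [hval, hb, mul_zero, add_zero] at h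
      rcases hv' with h' | h'
      · exact h' h
      · exact h' hb
    refine ⟨.strict M, Rz.strict _ (fun j => ch w (g j)) u (A + M) M (by omega) hM hFw h ?_ hg',
      ?_⟩
    · rw [A9_pd1_u w v u hu, A9_eval_ch0]
      exact hβ
    · intro M' hM'
      exact Multiset.mem_singleton.mp hM'
  · refine ⟨.triv, Rz.triv _ (fun j => u ^ M * ch w (g j)) (A + M) 0 (by omega) ?_ ⟨j₀, ?_⟩, ?_⟩
    · intro j
      show ch w (F j) = _
      rw [hFw, pow_zero, mul_one, mul_assoc]
    · rw [map_mul, map_pow, A9_eval_ch0]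
      exact mul_ne_zero (pow_ne_zero _ h) hj₀
    · intro M' hM'
      exact absurd hM' (Multiset.notMem_zero M')

private lemma A9_hc1 {v : P2} (hv : eval 0 v = 0)
    (hv' : eval 0 (pderiv 0 v) ≠ 0 ∨ eval 0 (pderiv 1 v) ≠ 0) :
    homogeneousComponent 1 v ≠ 0 := by
  intro h0
  obtain ⟨u, hu, hu'⟩ := ch_ord 0 v 1 ((ordP_one v).mpr hv)
  rw [pow_one] at hu
  have h1 : ∀ y : ℂ, eval 0 (pderiv 0 v) + (y + 0) * eval 0 (pderiv 1 v) = 0 := by
    intro y
    rw [← A9_vw 0 v u hu y, hu' y, h0, map_zero]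
  have h2 := h1 0
  have h3 := h1 1
  rw [add_zero, zero_mul, add_zero] at h2
  rw [h2, add_zero, one_mul, zero_add] at h3
  rcases hv' with h' | h'
  · exact h' h2
  · exact h' h3

private lemma A9_pow {v : P2} (hv : eval 0 v = 0) (M : ℕ) :
    OrdP (v ^ M) M ∧ homogeneousComponent M (v ^ M) = homogeneousComponent 1 v ^ M := by
  induction M with
  | zero =>
    refine ⟨fun k hk => absurd hk (Nat.not_lt_zero k), ?_⟩
    rw [pow_zero, pow_zero, homogeneousComponent_zero, coeff_zero_one, C_1]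
  | succ M ih =>
    have h1 : OrdP v 1 := (ordP_one v).mpr hv
    refine ⟨?_, ?_⟩
    · rw [pow_succ]
      exact ordP_mul ih.1 h1
    · rw [pow_succ, hc_mul ih.1 h1, ih.2, pow_succ]

private lemma A9_order {r : ℕ} {g : Fin r → P2} {v : P2} {M : ℕ} (hv : eval 0 v = 0)
    (hv' : eval 0 (pderiv 0 v) ≠ 0 ∨ eval 0 (pderiv 1 v) ≠ 0)
    (hg : ∃ j, eval 0 (g j) ≠ 0) {μ : ℕ} (h1 : ∀ j, OrdP (v ^ M * g j) μ)
    (h2 : ∃ j, homogeneousComponent μ (v ^ M * g j) ≠ 0) : μ = M := by
  obtain ⟨hp1, hp2⟩ := A9_pow hv M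
  have hg0 : ∀ j, OrdP (g j) 0 := fun j k hk => absurd hk (Nat.not_lt_zero k)
  refine le_antisymm ?_ ?_
  · by_contra hlt
    obtain ⟨j, hj⟩ := hg
    have h3 := h1 j M (not_le.mp hlt)
    have h4 := hc_mul hp1 (hg0 j)
    rw [add_zero, h3, hp2, homogeneousComponent_zero] at h4
    rcases mul_eq_zero.mp h4.symm with h5 | h5
    · exact pow_ne_zero M (A9_hc1 hv hv') h5
    · apply hj
      rw [← map_zero (C : ℂ →+* P2)] at h5
      have h6 := C_injective (Fin 2) ℂ h5
      rw [← constantCoeff_eq, ← eval_zero] at h6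
      exact h6
  · by_contra hlt
    obtain ⟨j, hj⟩ := h2
    have h3 : OrdP (v ^ M * g j) (M + 0) := ordP_mul hp1 (hg0 j)
    exact hj (h3 μ (by omega))

private lemma A9_y_dvd {f : P2} (h : aeval ![(X 0 : P2), 0] f = 0) : (X 1 : P2) ∣ f := by
  have h1 : ∀ f : P2, (X 1 : P2) ∣ f - aeval ![(X 0 : P2), 0] f := by
    intro f
    induction f using MvPolynomial.induction_on with
    | C a => simp
    | add p q hp hq =>
      rw [map_add]
      have : p + q - (aeval ![(X 0 : P2), 0] p + aeval ![(X 0 : P2), 0] q) =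
        (p - aeval ![(X 0 : P2), 0] p) + (q - aeval ![(X 0 : P2), 0] q) := by ring
      rw [this]
      exact dvd_add hp hq
    | mul_X p i hp =>
      rw [map_mul, aeval_X]
      have h2 : (X 1 : P2) ∣ X i - (![(X 0 : P2), 0] : Fin 2 → P2) i := by
        fin_cases i <;> simp
      have h3 : p * X i - aeval ![(X 0 : P2), 0] p * (![(X 0 : P2), 0] : Fin 2 → P2) i =
          (p - aeval ![(X 0 : P2), 0] p) * X i +
            aeval ![(X 0 : P2), 0] p * (X i - (![(X 0 : P2), 0] : Fin 2 → P2) i) := by ring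
      rw [h3]
      exact dvd_add (hp.mul_right _) (h2.mul_left _)
  have h2 := h1 f
  rwa [h, sub_zero] at h2

private lemma A9_ch_zero (f : P2) :
    aeval ![(X 0 : P2), 0] (aeval (cv 0) f) = aeval ![(X 0 : P2), 0] f := by
  induction f using MvPolynomial.induction_on with
  | C a => simp
  | add p q hp hq => rw [map_add, map_add, map_add, hp, hq]
  | mul_X p i hp =>
    rw [map_mul, map_mul, map_mul, hp, aeval_X, aeval_X]
    fin_cases i
    · show _ * aeval ![(X 0 : P2), 0] (X 0 : P2) = _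
      rw [aeval_X]
      rfl
    · show _ * aeval ![(X 0 : P2), 0] (X 0 * (X 1 + C 0) : P2) = _
      rw [map_mul, map_add, aeval_X, aeval_X]
      simp

private lemma A9_y_dvd_ch {f : P2} (h : (X 1 : P2) ∣ ch 0 f) : (X 1 : P2) ∣ f := by
  apply A9_y_dvd
  obtain ⟨q, hq⟩ := h
  rw [← A9_ch_zero]
  have hq' : aeval (cv 0) f = X 1 * q := hq
  rw [hq', map_mul, aeval_X]
  simp

private lemma A9_x_dvd {v : P2} (h : (X 1 : P2) ∣ sw v) : (X 0 : P2) ∣ v := by
  obtain ⟨q, hq⟩ := h
  refine ⟨sw q, ?_⟩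
  rw [← sw_sw v, hq]
  show aeval sv (X 1 * q) = X 0 * aeval sv q
  rw [map_mul, aeval_X]
  rfl

private lemma A9_sw_grad {v : P2} (hv' : eval 0 (pderiv 0 v) ≠ 0 ∨ eval 0 (pderiv 1 v) ≠ 0) :
    eval 0 (pderiv 0 (sw v)) ≠ 0 ∨ eval 0 (pderiv 1 (sw v)) ≠ 0 := by
  rw [A9_pd0_sw, A9_pd1_sw, eval_sw, eval_sw]
  exact hv'.symm

theorem smooth_gen {r : ℕ} (F g : Fin r → P2) (v : P2) (A B M : ℕ) (hAB : 0 < A ∨ B = 0)
    (hM : 0 < M) (hF : ∀ j, F j = X 0 ^ A * X 1 ^ B * v ^ M * g j) (hv : eval 0 v = 0)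
    (hv' : eval 0 (pderiv 0 v) ≠ 0 ∨ eval 0 (pderiv 1 v) ≠ 0)
    (hx : 0 < A → ¬ (X 0 : P2) ∣ v) (hy : 0 < B → ¬ (X 1 : P2) ∣ v)
    (hg : ∃ j, eval 0 (g j) ≠ 0) :
    ∃ X : Str r, X ≠ Str.triv ∧ Rz F A B X ∧ ∀ M' ∈ X.strs, M' = M := by
  rcases Nat.eq_zero_or_pos B with hB | hB
  · subst hB
    have hJ : ∀ j, F j = X 0 ^ A * X 1 ^ 0 * (v ^ M * g j) := by
      intro j
      rw [hF, mul_assoc]
    have hF' : ∀ j, F j = X 0 ^ A * v ^ M * g j := by
      intro j
      rw [hF, pow_zero, mul_one]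
    have hv0 : v ≠ 0 := by
      rintro rfl
      rcases hv' with h | h <;> exact h (by simp)
    have h0 : ∀ j, eval 0 (v ^ M * g j) = 0 := by
      intro j
      rw [map_mul, map_pow, hv, zero_pow hM.ne', zero_mul]
    have hne : ∃ j, v ^ M * g j ≠ 0 := by
      obtain ⟨j, hj⟩ := hg
      refine ⟨j, mul_ne_zero (pow_ne_zero M hv0) ?_⟩
      intro hgj
      exact hj (by rw [hgj, map_zero])
    have hsub : ∀ μ : ℕ, 0 < μ → (∀ j, OrdP (v ^ M * g j) μ) →
        (∃ j, homogeneousComponent μ (v ^ M * g j) ≠ 0) →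
        ∀ w : ℂ, (w = 0 ∨ ld μ (fun j => v ^ M * g j) ![1, w] = 0) →
        ∃ X : Str r, Rz (fun j => ch w (F j)) (A + 0 + μ) (if w = 0 then 0 else 0) X ∧
          ∀ M' ∈ X.strs, M' = M := by
      intro μ _ h1 h2 w _
      have hμ := A9_order hv hv' hg h1 h2
      subst hμ
      rw [ite_self, add_zero]
      exact A9_chart F g v A μ hM hF' hv hv' hg w
    rcases Nat.eq_zero_or_pos A with hA | hA
    · subst hA
      refine node_of_subs F (fun j => v ^ M * g j) 0 0 hJ h0 hne (fun M' => M' = M) hsub ?_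
      intro μ _ h1 h2
      have hμ := A9_order hv hv' hg h1 h2
      subst hμ
      have hFs : ∀ j, sw (F j) = X 0 ^ 0 * sw v ^ μ * sw (g j) := by
        intro j
        rw [hF', pow_zero, one_mul, one_mul]
        show aeval sv _ = aeval sv v ^ μ * aeval sv (g j)
        rw [map_mul, map_pow]
      obtain ⟨j₀, hj₀⟩ := hg
      have h3 := A9_chart (fun j => sw (F j)) (fun j => sw (g j)) (sw v) 0 μ hM hFs
        (by rw [eval_sw]; exact hv) (A9_sw_grad hv') ⟨j₀, by rw [eval_sw]; exact hj₀⟩ 0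
      rw [add_zero]
      exact h3
    · by_cases hβ : eval 0 (pderiv 1 v) = 0
      · have hα : eval 0 (pderiv 0 v) ≠ 0 := by
          rcases hv' with h | h
          · exact h
          · exact absurd hβ h
        refine node_of_subs F (fun j => v ^ M * g j) A 0 hJ h0 hne (fun M' => M' = M) hsub ?_
        intro μ _ h1 h2
        have hμ := A9_order hv hv' hg h1 h2
        subst hμ
        obtain ⟨u, hu, -⟩ := ch_ord 0 (sw v) 1 ((ordP_one (sw v)).mpr (by rw [eval_sw]; exact hv))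
        rw [pow_one] at hu
        have hval : ∀ y : ℂ, eval ![0, y] u = y * eval 0 (pderiv 0 v) := by
          intro y
          rw [A9_vw 0 (sw v) u hu y, A9_pd0_sw, A9_pd1_sw, eval_sw, eval_sw, hβ, zero_add,
            add_zero]
        have hFs : ∀ j, ch 0 (sw (F j)) =
            X 0 ^ (A + 0 + μ) * X 1 ^ A * u ^ μ * ch 0 (sw (g j)) := by
          intro j
          have hu' : aeval (cv 0) (aeval sv v) = X 0 * u := hu
          rw [hF']
          show aeval (cv 0) (aeval sv (X 0 ^ A * v ^ μ * g j)) =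
            _ * aeval (cv 0) (aeval sv (g j))
          have e0 : aeval (cv 0) (aeval sv (X 0 : P2)) = X 0 * X 1 := by
            rw [aeval_X]
            show aeval (cv 0) (X 1 : P2) = _
            rw [aeval_X]
            show X 0 * (X 1 + C 0) = _
            rw [C_0, add_zero]
          simp only [map_mul, map_pow]
          rw [hu']
          have e0' : (aeval (cv 0)) ((aeval sv) (X 0 : P2)) = X 0 * X 1 := e0
          simp only [e0']
          ring
        obtain ⟨j₀, hj₀⟩ := hg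
        obtain ⟨Y, -, hY1, hY2⟩ := smooth_two (fun j => ch 0 (sw (F j)))
          (fun j => ch 0 (sw (g j))) u (A + 0 + μ) A μ (by omega) hA hM hFs
          (by rw [← A9_zero, hval, zero_mul])
          (Or.inr (by
            rw [A9_pd1_u 0 (sw v) u hu, A9_eval_ch0, A9_pd1_sw, eval_sw]
            exact hα))
          (by
            rintro ⟨q, hq⟩
            have h3 := hval 1
            rw [hq, map_mul, eval_X, one_mul] at h3
            apply hα
            rw [← h3]
            simp)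
          (by
            intro hq
            apply hx hA
            apply A9_x_dvd
            apply A9_y_dvd_ch
            rw [hu]
            exact hq.mul_left _)
          ⟨j₀, by rw [A9_eval_ch0, eval_sw]; exact hj₀⟩
        exact ⟨Y, hY1, hY2⟩
      · refine ⟨.strict M, by simp, Rz.strict F g v A M hA hM hF' hv hβ hg, ?_⟩
        intro M' hM'
        exact Multiset.mem_singleton.mp hM'
  · have hA : 0 < A := by
      rcases hAB with h | h
      · exact h
      · omega
    exact smooth_two F g v A B M hA hB hM hF hv hv' (hx hA) (hy hB) hg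

end TV
end MotMono
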