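import Pool.Agent.Lib.MP_4e5fcd_ag.TV.A2
import Pool.Agent.Lib.MP_4e5fcd_ag.TV.A9

/-!
# TV-A10: existence of the resolution tree

`exists_rz_st`: strong induction on `N`. Let `h = ∏ p_i`, `K_j = ∏ p_i ^ m_i * J_j`.
1. Some `J_j (0) ≠ 0` and `h (0) ≠ 0`: then `K_j (0) ≠ 0`; `A ≠ 0` (if `A = 0` then `B = 0` and
   `F_j (0) ≠ 0`), `triv`; `strs = 0`.
2. Some `J_j (0) ≠ 0`, `h (0) = 0`, not `OrdP h 2`: exactly one `p_i` vanishes at `0` (two of them: order
   `≥ 2`), and its gradient is not zero (otherwise `OrdP (p_i) 2`, `OrdP h 2`). `smooth_gen` with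
   `v = p_i`, `M = m_i`, `g_j = ∏_{l ≠ i} p_l ^ m_l * J_j`; all `M' ∈ strs` are `m_i`.
3. Otherwise all `J_j (0) = 0` or `OrdP h 2`. In both cases `K_j (0) = 0`: `node_of_subs` with `J := K`,
   `P M := ∃ i, eval 0 (p i) = 0 ∧ m i = M`; the charts are states with `n1' + n2' < n1 + n2`
   (`st_chart`; for `subi` first `st_swap`, which has the exponents `(B, A)`:
   `ch 0 (sw F)` has exponents `B + A + μ = A + B + μ` and `A`), so the induction hypothesis applies
   (`A + B + μ > 0`); `p'_i (0) = 0 → p_i (0) = 0` transports the statement on `strs`.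
`exists_rz`: a `CD` is a state with `A = B = 0` and lengths from `len_of_fin2`; `N = n1 + n2`.
-/

open MvPolynomial

namespace MotMono
namespace TV

private theorem coeff_single_eq (f : P2) (i : Fin 2) :
    coeff (Finsupp.single i 1) f = eval 0 (pderiv i f) := by
  have h : ∀ g : P2, eval (0 : Fin 2 → ℂ) g = coeff 0 g := fun g => by
    rw [← constantCoeff_eq, constantCoeff_eq, ← MvPolynomial.constantCoeff_eq,
      MvPolynomial.constantCoeff_eq]
    have := congrArg (fun φ => φ g) (MvPolynomial.eval_zero (σ := Fin 2) (R := ℂ))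
    simpa [MvPolynomial.constantCoeff_eq] using this
  rw [h]
  induction f using MvPolynomial.induction_on' with
  | monomial s a =>
    rw [pderiv_monomial, coeff_monomial, coeff_monomial]
    by_cases hs : s = Finsupp.single i 1
    · subst hs
      simp
    · rw [if_neg hs]
      split_ifs with h0
      · -- `s ≤ single i 1`, `s ≠ single i 1`: `s i = 0`
        have hle : s ≤ Finsupp.single i 1 := tsub_eq_zero_iff_le.mp h0
        have hsi : s i = 0 := by
          by_contra hne
          apply hs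
          apply le_antisymm hle
          rw [Finsupp.single_le_iff]
          omega
        simp [hsi]
      · rfl
  | add p q hp hq => rw [coeff_add, map_add, coeff_add, hp, hq]

private theorem ordP_two {f : P2} (h0 : eval 0 f = 0) (h1 : eval 0 (pderiv 0 f) = 0)
    (h2 : eval 0 (pderiv 1 f) = 0) : OrdP f 2 := by
  intro k hk
  rcases Nat.lt_or_ge k 1 with hk1 | hk1
  · exact (ordP_one f).mpr h0 k hk1
  · have hk' : k = 1 := by omega
    subst hk'
    ext d
    rw [coeff_homogeneousComponent, coeff_zero]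
    split_ifs with hd
    · have hd' : (d.sum fun _ n => n) = 1 := hd
      obtain ⟨i, rfl⟩ := (Finsupp.sum_eq_one_iff d).mp hd'
      rw [coeff_single_eq]
      fin_cases i
      · exact h1
      · exact h2
    · rfl

private theorem ordP_mono {f : P2} {a b : ℕ} (h : a ≤ b) (hf : OrdP f b) : OrdP f a :=
  fun k hk => hf k (hk.trans_le h)

private theorem ordP_zero (f : P2) : OrdP f 0 := fun k hk => absurd hk (Nat.not_lt_zero k)

private theorem sw_mul (f g : P2) : sw (f * g) = sw f * sw g := map_mul _ _ _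

private theorem sw_prod_pow {s : ℕ} (p : Fin s → P2) (m : Fin s → ℕ) :
    sw (∏ i, p i ^ m i) = ∏ i, sw (p i) ^ m i := by
  unfold sw
  rw [map_prod]
  simp [map_pow]

private theorem sw_prod {s : ℕ} (p : Fin s → P2) : sw (∏ i, p i) = ∏ i, sw (p i) := by
  unfold sw
  rw [map_prod]

private theorem sw_ne {f : P2} (h : f ≠ 0) : sw f ≠ 0 := by
  intro h0
  apply h
  rw [← sw_sw f, h0]
  simp [sw]

theorem exists_rz_st (N : ℕ) {r s : ℕ} {F : Fin r → P2} {A B : ℕ} {p : Fin s → P2}
    {m : Fin s → ℕ} {J : Fin r → P2} {n1 n2 : ℕ} (h : St F A B p m J n1 n2) (hN : n1 + n2 ≤ N)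
    (hAB : 0 < A ∨ B = 0) (h0 : A = 0 → ∀ j, eval 0 (F j) = 0) :
    ∃ X : Str r, (A = 0 → X ≠ Str.triv) ∧ Rz F A B X ∧
      ∀ M ∈ X.strs, ∃ i, eval 0 (p i) = 0 ∧ m i = M := by
  induction N using Nat.strong_induction_on generalizing F A B p J n1 n2 with
  | _ N ih =>
  have hFK : ∀ j, F j = X 0 ^ A * X 1 ^ B * ((∏ i, p i ^ m i) * J j) := by
    intro j; rw [h.eq j]; ring
  by_cases h3 : (∀ j, eval 0 (J j) = 0) ∨ OrdP (∏ i, p i) 2
  · -- case 3
    have hK0 : ∀ j, eval 0 ((∏ i, p i ^ m i) * J j) = 0 := by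
      intro j
      rw [map_mul]
      rcases h3 with h3 | h3
      · rw [h3 j, mul_zero]
      · have h4 : eval 0 (∏ i, p i) = 0 := (ordP_one _).mp (ordP_mono (by norm_num) h3)
        rw [map_prod, Finset.prod_eq_zero_iff] at h4
        obtain ⟨i, hi, h4⟩ := h4
        have : eval 0 (∏ i, p i ^ m i) = 0 := by
          rw [map_prod, Finset.prod_eq_zero_iff]
          refine ⟨i, hi, ?_⟩
          rw [map_pow, h4, zero_pow (h.pos i).ne']
        rw [this, zero_mul]
    have hKne : ∃ j, (∏ i, p i ^ m i) * J j ≠ 0 := by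
      obtain ⟨j, hj⟩ := h.neJ
      refine ⟨j, mul_ne_zero ?_ hj⟩
      exact Finset.prod_ne_zero_iff.mpr fun i _ => pow_ne_zero _ (h.ne i)
    obtain ⟨Y, hY1, hY2, hY3⟩ := node_of_subs F (fun j => (∏ i, p i ^ m i) * J j) A B hFK hK0 hKne
      (fun M => ∃ i, eval 0 (p i) = 0 ∧ m i = M)
      (by
        intro μ hμ hO hO' w hw
        obtain ⟨p', J', n1', n2', hst, hp', hn1, hn2, hl1, hl2⟩ := st_chart h w μ hO hO'
        have hlt : n1' + n2' < N := by
          rcases h3 with h3 | h3
          · have := hl1 h3; omega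
          · have := hl2 h3; omega
        obtain ⟨Y, -, hY2, hY3⟩ := ih (n1' + n2') hlt hst le_rfl (Or.inl (by omega))
          (fun hz => absurd hz (by omega))
        refine ⟨Y, hY2, fun M hM => ?_⟩
        obtain ⟨i, hi, hmi⟩ := hY3 M hM
        exact ⟨i, hp' i hi, hmi⟩)
      (by
        intro μ hμ hO hO'
        have hs := st_swap h
        have hO2 : ∀ j, OrdP ((∏ i, sw (p i) ^ m i) * sw (J j)) μ := by
          intro j
          rw [← sw_prod_pow, ← sw_mul]
          exact (ordP_sw _ _).mpr (hO j)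
        have hO2' : ∃ j, homogeneousComponent μ ((∏ i, sw (p i) ^ m i) * sw (J j)) ≠ 0 := by
          obtain ⟨j, hj⟩ := hO'
          refine ⟨j, ?_⟩
          rw [← sw_prod_pow, ← sw_mul, hc_sw]
          exact sw_ne hj
        obtain ⟨p', J', n1', n2', hst, hp', hn1, hn2, hl1, hl2⟩ := st_chart hs 0 μ hO2 hO2'
        rw [if_pos rfl, Nat.add_comm B A] at hst
        have hlt : n1' + n2' < N := by
          rcases h3 with h3 | h3
          · have := hl1 (fun j => by rw [eval_sw]; exact h3 j); omega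
          · have := hl2 (by rw [← sw_prod]; exact (ordP_sw _ _).mpr h3); omega
        obtain ⟨Y, -, hY2, hY3⟩ := ih (n1' + n2') hlt hst le_rfl (Or.inl (by omega))
          (fun hz => absurd hz (by omega))
        refine ⟨Y, hY2, fun M hM => ?_⟩
        obtain ⟨i, hi, hmi⟩ := hY3 M hM
        refine ⟨i, ?_, hmi⟩
        have := hp' i hi
        rwa [eval_sw] at this)
    exact ⟨Y, fun _ => hY1, hY2, hY3⟩
  · push Not at h3
    obtain ⟨⟨j0, hj0⟩, hnO⟩ := h3
    by_cases hh : eval 0 (∏ i, p i) = 0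
    · -- case 2
      have hh' := hh
      rw [map_prod, Finset.prod_eq_zero_iff] at hh'
      obtain ⟨i, -, hi⟩ := hh'
      have hsplit : ∏ l, p l = p i * ∏ l ∈ Finset.univ.erase i, p l :=
        (Finset.mul_prod_erase _ _ (Finset.mem_univ i)).symm
      have hsplitm : ∏ l, p l ^ m l = p i ^ m i * ∏ l ∈ Finset.univ.erase i, p l ^ m l :=
        (Finset.mul_prod_erase _ _ (Finset.mem_univ i)).symm
      have hgrad : eval 0 (pderiv 0 (p i)) ≠ 0 ∨ eval 0 (pderiv 1 (p i)) ≠ 0 := by
        by_contra hcon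
        push Not at hcon
        apply hnO
        rw [hsplit]
        have := ordP_mul (ordP_two hi hcon.1 hcon.2)
          (ordP_zero (∏ l ∈ Finset.univ.erase i, p l))
        simpa using this
      have hoth : ∀ l, l ≠ i → eval 0 (p l) ≠ 0 := by
        intro l hl hz
        apply hnO
        have h2 : ∏ l ∈ Finset.univ.erase i, p l =
            p l * ∏ k ∈ (Finset.univ.erase i).erase l, p k :=
          (Finset.mul_prod_erase _ _ (Finset.mem_erase.mpr ⟨hl, Finset.mem_univ l⟩)).symm
        rw [hsplit, h2, ← mul_assoc]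
        have h5 := ordP_mul (ordP_mul ((ordP_one _).mpr hi) ((ordP_one _).mpr hz))
          (ordP_zero (∏ k ∈ (Finset.univ.erase i).erase l, p k))
        simpa using h5
      obtain ⟨Y, hY1, hY2, hY3⟩ := smooth_gen F
        (fun j => (∏ l ∈ Finset.univ.erase i, p l ^ m l) * J j) (p i) A B (m i) hAB (h.pos i)
        (by intro j; rw [hFK j, hsplitm]; ring) hi hgrad (fun hA => h.nx hA i)
        (fun hB => h.ny hB i)
        ⟨j0, by
          rw [map_mul]
          refine mul_ne_zero ?_ hj0
          rw [map_prod]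
          refine Finset.prod_ne_zero_iff.mpr fun l hl => ?_
          rw [map_pow]
          exact pow_ne_zero _ (hoth l (Finset.ne_of_mem_erase hl))⟩
      exact ⟨Y, fun _ => hY1, hY2, fun M hM => ⟨i, hi, (hY3 M hM).symm⟩⟩
    · -- case 1
      have hK : eval 0 ((∏ i, p i ^ m i) * J j0) ≠ 0 := by
        rw [map_mul]
        refine mul_ne_zero ?_ hj0
        rw [map_prod] at hh ⊢
        refine Finset.prod_ne_zero_iff.mpr fun l hl => ?_
        rw [map_pow]
        exact pow_ne_zero _ ((Finset.prod_ne_zero_iff.mp hh) l hl)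
      have hA : 0 < A := by
        rcases Nat.eq_zero_or_pos A with hA | hA
        · exfalso
          have hB : B = 0 := by
            rcases hAB with hAB | hAB
            · omega
            · exact hAB
          have := h0 hA j0
          rw [hFK j0, hA, hB] at this
          simp only [pow_zero, one_mul] at this
          exact hK this
        · exact hA
      refine ⟨Str.triv, fun hz => absurd hz hA.ne', ?_, ?_⟩
      · exact Rz.triv F (fun j => (∏ i, p i ^ m i) * J j) A B hA hFK ⟨j0, hK⟩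
      · intro M hM
        simp [Str.strs] at hM

theorem exists_rz {r s : ℕ} {F : Fin r → P2} {p : Fin s → P2} {m : Fin s → ℕ} {J : Fin r → P2}
    (h : CD F p m J) (h0 : ∀ j, eval 0 (F j) = 0) :
    ∃ X : Str r, X ≠ Str.triv ∧ Rz F 0 0 X ∧
      ∀ M ∈ X.strs, ∃ i, eval 0 (p i) = 0 ∧ m i = M := by
  obtain ⟨n1, hn1⟩ := len_of_fin2 h.finJ
  obtain ⟨n2, hn2⟩ := len_of_fin2 h.finT
  have hne : ∃ j, J j ≠ 0 := by
    by_contra hcon
    push Not at hcon
    obtain ⟨⟨f, hf, hfm⟩, -⟩ := h.finJ
    have hbot : Ideal.span (Set.range J) = ⊥ := by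
      rw [Ideal.span_eq_bot]
      rintro _ ⟨j, rfl⟩
      exact hcon j
    rw [hbot, Ideal.mem_bot] at hfm
    apply hf
    apply Polynomial.funext
    intro z
    have h1 : eval (fun _ => z) (Polynomial.aeval (X 0 : P2) f) = Polynomial.eval z f := by
      rw [← MvPolynomial.coe_aeval_eq_eval]
      have := Polynomial.aeval_algHom_apply (MvPolynomial.aeval (fun _ : Fin 2 => z)) (X 0 : P2) f
      simp only [aeval_X] at this
      rw [RingHom.coe_coe]
      rw [← this]
      simp [Polynomial.aeval_def, Polynomial.eval₂_eq_eval_map]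
    rw [← h1, hfm]
    simp
  have hst : St F 0 0 p m J n1 n2 :=
    { eq := fun j => by rw [h.eq j]; simp
      pos := h.pos
      ne := h.ne
      neJ := hne
      len1 := hn1
      len2 := hn2
      nx := fun hz => absurd hz (lt_irrefl 0)
      ny := fun hz => absurd hz (lt_irrefl 0) }
  obtain ⟨Y, hY1, hY2, hY3⟩ := exists_rz_st (n1 + n2) hst le_rfl (Or.inr rfl) (fun _ => h0)
  exact ⟨Y, hY1 rfl, hY2, hY3⟩

end TV
end MotMono
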