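import Pool.Agent.Lib.MP_4e5fcd_ag.TV.A1

/-!
# TV-A2: the data of a tuple

`ℂ[x, y]` is a unique factorisation domain. Let `h` be a common divisor of the `F j` of maximal
total degree (`F ≠ 0`), `F j = h * J j`: the `J j` have no common irreducible factor `q` (`h q`
would be a common divisor of larger degree: an irreducible `q` is not constant). So
`Fin2 (span J)` by `fin2_of_coprime` (not all `J j` are zero).
Factor `h = u ∏_{i < s} p_i ^ m_i`, `p_i` irreducible, pairwise non-associated, `m_i ≥ 1`, `u` a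
unit (constant): replace `J` by `u J`.
`T = ∏ p_i`: `T, T_x, T_y` have no common irreducible factor `q`: `q ∣ T` gives `q ~ p_i` for some
`i`, `T = p_i Q`, `p_i ∤ Q`; `p_i ∣ T_x = p_i Q_x + Q (p_i)_x` gives `p_i ∣ (p_i)_x`, so
`(p_i)_x = 0` (degree in `x`, or total degree), similarly `(p_i)_y = 0`: `p_i` is constant
(characteristic 0), contradiction. If `s = 0`, `T = 1`. Apply `fin2_of_coprime` to the tuple
`![T, T_x, T_y]`.
-/

open MvPolynomial

namespace MotMono
namespace TV

private theorem A2_deg_pos {q : P2} (hq : Irreducible q) : 1 ≤ q.totalDegree := by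
  by_contra h
  have h1 : q.totalDegree = 0 := by omega
  rw [totalDegree_eq_zero_iff_eq_C] at h1
  have h2 : q.coeff 0 ≠ 0 := by
    intro hz
    rw [hz, map_zero] at h1
    exact hq.ne_zero h1
  apply hq.not_isUnit
  rw [h1]
  exact (isUnit_iff_ne_zero.mpr h2).map C

private theorem A2_pderiv {q : P2} (i : Fin 2) (hq : q ∣ pderiv i q) : pderiv i q = 0 := by
  by_contra h0
  obtain ⟨d, hd, hdeg⟩ : ∃ d ∈ (pderiv i q).support, (pderiv i q).totalDegree = d.sum fun _ e => e := by
    have hne : (pderiv i q).support.Nonempty := by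
      rw [Finset.nonempty_iff_ne_empty, Ne, support_eq_empty]
      exact h0
    obtain ⟨d, hd, h⟩ := Finset.exists_mem_eq_sup _ hne (fun s : Fin 2 →₀ ℕ => s.sum fun _ e => e)
    exact ⟨d, hd, h⟩
  rw [mem_support_iff, coeff_pderiv] at hd
  have h1 : d + Finsupp.single i 1 ∈ q.support := by
    rw [mem_support_iff]
    intro hz
    rw [hz] at hd
    simp at hd
  have h2 := le_totalDegree h1
  obtain ⟨g, hg⟩ := hq
  have hg0 : g ≠ 0 := by
    rintro rfl
    exact h0 (by rw [hg, mul_zero])
  have hq0 : q ≠ 0 := by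
    rintro rfl
    exact h0 (by rw [hg, zero_mul])
  have h3 : (pderiv i q).totalDegree = q.totalDegree + g.totalDegree := by
    rw [hg, totalDegree_mul_of_isDomain hq0 hg0]
  rw [Finsupp.sum_add_index' (by simp) (by simp)] at h2
  rw [Finsupp.sum_single_index (by rfl)] at h2
  omega

private theorem A2_const {q : P2} (h0 : pderiv 0 q = 0) (h1 : pderiv 1 q = 0) :
    q.totalDegree = 0 := by
  rw [totalDegree_eq_zero_iff]
  intro m hm i
  by_contra hi
  have hi' : 1 ≤ m i := Nat.one_le_iff_ne_zero.mpr hi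
  have h2 : pderiv i q = 0 := by
    fin_cases i
    · exact h0
    · exact h1
  have h3 := coeff_pderiv (i := i) q (m - Finsupp.single i 1)
  rw [h2, coeff_zero, tsub_add_cancel_of_le (Finsupp.single_le_iff.mpr hi')] at h3
  rcases mul_eq_zero.mp h3.symm with h4 | h4
  · exact (mem_support_iff.mp hm) h4
  · exact absurd h4 (Nat.cast_add_one_ne_zero _)

private theorem A2_irr_pderiv {q : P2} (hq : Irreducible q) (h0 : q ∣ pderiv 0 q)
    (h1 : q ∣ pderiv 1 q) : False := by
  have h2 := A2_const (A2_pderiv 0 h0) (A2_pderiv 1 h1)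
  have h3 := A2_deg_pos hq
  omega

/-- a common divisor of maximal degree -/
private theorem A2_gcd {r : ℕ} (F : Fin r → P2) (h0 : ∃ j, F j ≠ 0) :
    ∃ (h : P2) (J : Fin r → P2), h ≠ 0 ∧ (∀ j, F j = h * J j) ∧ (∃ j, J j ≠ 0) ∧
      ∀ q : P2, Irreducible q → ¬ ∀ j, q ∣ J j := by
  classical
  obtain ⟨j0, hj0⟩ := h0
  have hb : ∀ n, (∃ h : P2, (∀ j, h ∣ F j) ∧ h.totalDegree = n) → n ≤ (F j0).totalDegree := by
    rintro n ⟨h, hd, rfl⟩
    obtain ⟨g, hg⟩ := hd j0
    have hg0 : g ≠ 0 := by
      rintro rfl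
      exact hj0 (by rw [hg, mul_zero])
    have hh0 : h ≠ 0 := by
      rintro rfl
      exact hj0 (by rw [hg, zero_mul])
    rw [hg, totalDegree_mul_of_isDomain hh0 hg0]
    omega
  set P : ℕ → Prop := fun n => ∃ h : P2, (∀ j, h ∣ F j) ∧ h.totalDegree = n with hP
  have hP0 : P 0 := ⟨1, fun j => one_dvd _, by simp⟩
  have hspec : P (Nat.findGreatest P (F j0).totalDegree) :=
    Nat.findGreatest_spec (P := P) (Nat.zero_le _) hP0
  obtain ⟨h, hd, hdeg⟩ := hspec
  choose J hJ using hd
  have hh0 : h ≠ 0 := by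
    rintro rfl
    exact hj0 (by rw [hJ j0, zero_mul])
  refine ⟨h, J, hh0, hJ, ⟨j0, ?_⟩, ?_⟩
  · intro hz
    exact hj0 (by rw [hJ j0, hz, mul_zero])
  · intro q hq hall
    have h1 : P (h * q).totalDegree := by
      refine ⟨h * q, fun j => ?_, rfl⟩
      rw [hJ j]
      exact mul_dvd_mul_left h (hall j)
    have h2 := Nat.le_findGreatest (hb _ h1) h1
    rw [← hdeg, totalDegree_mul_of_isDomain hh0 hq.ne_zero] at h2
    have := A2_deg_pos hq
    omega

/-- factorisation with distinct factors -/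
private theorem A2_fac (h : P2) (h0 : h ≠ 0) :
    ∃ (s : ℕ) (p : Fin s → P2) (m : Fin s → ℕ) (u : P2), IsUnit u ∧
      h = (∏ i, p i ^ m i) * u ∧ (∀ i, 0 < m i) ∧ (∀ i, Irreducible (p i)) ∧
      ∀ i j, Associated (p i) (p j) → i = j := by
  classical
  let _ : StrongNormalizationMonoid P2 := UniqueFactorizationMonoid.strongNormalizationMonoid
  set S := UniqueFactorizationMonoid.normalizedFactors h with hS
  set T := S.toFinset with hT
  obtain ⟨u, hu⟩ := (UniqueFactorizationMonoid.prod_normalizedFactors h0 : Associated S.prod h)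
  refine ⟨T.card, fun i => (T.equivFin.symm i : P2), fun i => S.count (T.equivFin.symm i : P2),
    u, u.isUnit, ?_, ?_, ?_, ?_⟩
  · rw [← hu, Finset.prod_multiset_count]
    congr 1
    rw [← Finset.prod_coe_sort T (fun x => x ^ S.count x)]
    exact (Equiv.prod_comp T.equivFin.symm (fun x : T => (x : P2) ^ S.count (x : P2))).symm
  · intro i
    rw [Multiset.count_pos, ← Multiset.mem_toFinset]
    exact (T.equivFin.symm i).2
  · intro i
    apply UniqueFactorizationMonoid.irreducible_of_normalized_factor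
    rw [← Multiset.mem_toFinset]
    exact (T.equivFin.symm i).2
  · intro i j hij
    have h1 : (T.equivFin.symm i : P2) ∈ S := by
      rw [← Multiset.mem_toFinset]
      exact (T.equivFin.symm i).2
    have h2 : (T.equivFin.symm j : P2) ∈ S := by
      rw [← Multiset.mem_toFinset]
      exact (T.equivFin.symm j).2
    have h3 : (T.equivFin.symm i : P2) = (T.equivFin.symm j : P2) := by
      rw [← UniqueFactorizationMonoid.normalize_normalized_factor _ h1,
        ← UniqueFactorizationMonoid.normalize_normalized_factor _ h2]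
      exact normalize_eq_normalize hij.dvd hij.symm.dvd
    exact T.equivFin.symm.injective (Subtype.ext h3)

private theorem A2_T {s : ℕ} (p : Fin s → P2) (hp : ∀ i, Irreducible (p i))
    (hd : ∀ i j, Associated (p i) (p j) → i = j) : Fin2 (tj (∏ i, p i)) := by
  classical
  set T : P2 := ∏ i, p i with hT
  have hT0 : T ≠ 0 := Finset.prod_ne_zero_iff.mpr fun i _ => (hp i).ne_zero
  have h1 : Fin2 (Ideal.span (Set.range (![T, pderiv 0 T, pderiv 1 T] : Fin 3 → P2))) := by
    apply fin2_of_coprime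
    · exact ⟨0, hT0⟩
    · intro q hq hall
      have hq0 : q ∣ T := hall 0
      have hq1 : q ∣ pderiv 0 T := hall 1
      have hq2 : q ∣ pderiv 1 T := hall 2
      obtain ⟨i, _, hi⟩ := (hq.prime.dvd_finsetProd_iff p).mp hq0
      have hass : Associated q (p i) := hq.associated_of_dvd (hp i) hi
      have hfac : T = p i * ∏ j ∈ Finset.univ.erase i, p j :=
        (Finset.mul_prod_erase _ _ (Finset.mem_univ i)).symm
      set Q : P2 := ∏ j ∈ Finset.univ.erase i, p j with hQ
      have hnd : ¬ p i ∣ Q := by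
        intro hdv
        obtain ⟨j, hj, hij⟩ := ((hp i).prime.dvd_finsetProd_iff p).mp hdv
        have := hd i j ((hp i).associated_of_dvd (hp j) hij)
        exact (Finset.ne_of_mem_erase hj) this.symm
      have key : ∀ k : Fin 2, q ∣ pderiv k T → p i ∣ pderiv k (p i) := by
        intro k hk
        have hk1 : p i ∣ pderiv k T := hass.symm.dvd.trans hk
        rw [hfac, pderiv_mul] at hk1
        have hk2 : p i ∣ pderiv k (p i) * Q := by
          rw [dvd_add_left (Dvd.intro _ rfl)] at hk1
          exact hk1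
        rcases (hp i).prime.dvd_or_dvd hk2 with h | h
        · exact h
        · exact absurd h hnd
      exact A2_irr_pderiv (hp i) (key 0 hq1) (key 1 hq2)
  have h2 : Set.range (![T, pderiv 0 T, pderiv 1 T] : Fin 3 → P2) =
      {T, pderiv 0 T, pderiv 1 T} := by
    ext x
    simp only [Set.mem_range, Set.mem_insert_iff, Set.mem_singleton_iff]
    constructor
    · rintro ⟨i, rfl⟩
      fin_cases i
      · exact Or.inl rfl
      · exact Or.inr (Or.inl rfl)
      · exact Or.inr (Or.inr rfl)
    · rintro (rfl | rfl | rfl)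
      · exact ⟨0, rfl⟩
      · exact ⟨1, rfl⟩
      · exact ⟨2, rfl⟩
  rw [h2] at h1
  exact h1

theorem exists_cd {r : ℕ} (F : Fin r → P2) (h0 : ∃ j, F j ≠ 0) :
    ∃ (s : ℕ) (p : Fin s → P2) (m : Fin s → ℕ) (J : Fin r → P2), CD F p m J := by
  obtain ⟨h, J, hh0, hJ, hJ0, hcop⟩ := A2_gcd F h0
  obtain ⟨s, p, m, u, hu, hfac, hm, hp, hd⟩ := A2_fac h hh0
  refine ⟨s, p, m, fun j => u * J j, ?_, hm, fun i => (hp i).ne_zero, ?_, A2_T p hp hd⟩
  · intro j
    rw [hJ j, hfac, mul_assoc]
  · apply fin2_of_coprime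
    · obtain ⟨j, hj⟩ := hJ0
      exact ⟨j, mul_ne_zero hu.ne_zero hj⟩
    · intro q hq hall
      apply hcop q hq
      intro j
      exact (hu.dvd_mul_left).mp (hall j)

end TV
end MotMono
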