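import Pool.Agent.Lib.MP_4e5fcd_ag.TV.B4

/-!
# TV-C2: Euler characteristic of the non-special part of a contact locus

For `γ ∈ NS d i ws` (`1 ≤ i ≤ d`, `w = y_i / x_i`): by `coeff_low`, `eval_hc` the tuple `F (γ)` has order exactly
`N i` (`N = A + B + μ`) with leading coefficient `x_i ^ N w ^ B ld μ J ![1, w] ≠ 0`. So the set
is empty if `N i ≠ d`; if `N i = d` it is
`{(x_i, y_i) : x_i ≠ 0, w not special, x_i ^ N w ^ B ld μ J ![1, w] = η} × A ^ (2 (d - i))`. Over a `w` (not special)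
there is a solution `x_i` iff `ld μ J ![1, w] ~ η`, and then exactly `N` of them. With the fibration
property (`hχ.fubini`; `LF.chi_fib_const`, or `IsEulerChar`-type Kummer covers) `χ = N χ (base)`.
`chi_dir`: `inl ζ`: `ld ![1, w] = c(w) ζ`, `c(w) ≠ 0` for non-special `w ≠ 0`: the set is
`C^* - {ws}` (`χ = - n`) if `ζ ~ η`, empty otherwise; `ld ![0, 1]` is `ζ` times the coefficient of
`w ^ μ` of `c`, `ld ![1, 0] = c(0) ζ`. `inr f`: the set is finite (`fin_dir`), `χ` of a finite set is its number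
of elements (`cls` of a finite set is the number of points).
`fin_dir`: if infinitely many `w` satisfy `ld ![1, w] ~ ζ`, `ζ_k ≠ 0`, then the polynomials
`ζ_k P_j - ζ_j P_k` (`P_j (w) = ld ![1, w] j`, `exists_eval_ne`-type) vanish, so
`ld ![1, w] = (P_k (w) / ζ_k) ζ` for all `w`, contradiction.
-/

open MvPolynomial

namespace MotMono
namespace TV

open CN

private theorem c2_poly (μ : ℕ) (f : P2) :
    ∃ P : Polynomial ℂ, ∀ w : ℂ, P.eval w = eval ![1, w] (homogeneousComponent μ f) := by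
  by_cases h : homogeneousComponent μ f = 0
  · exact ⟨0, fun w => by rw [h]; simp⟩
  · obtain ⟨P, -, -, hP⟩ := exists_eval_ne h
    exact ⟨P, hP⟩

private theorem c2_ne {r : ℕ} {ζ : Fin r → ℂ} (hζ : ζ ≠ 0) : ∃ k, ζ k ≠ 0 := by
  by_contra hcon
  push Not at hcon
  exact hζ (funext hcon)

theorem fin_dir {r μ : ℕ} {J : Fin r → P2}
    (h : ¬ ∃ (η : Fin r → ℂ) (c : Polynomial ℂ), ∀ w : ℂ, ld μ J ![1, w] = c.eval w • η)
    (ζ : Fin r → ℂ) (hζ : ζ ≠ 0) : {w : ℂ | Pr (ld μ J ![1, w]) ζ}.Finite := by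
  by_contra hinf
  apply h
  obtain ⟨k, hk⟩ := c2_ne hζ
  choose P hP using fun j => c2_poly μ (J j)
  have hld : ∀ w j, ld μ J ![1, w] j = (P j).eval w := fun w j => (hP j w).symm
  refine ⟨ζ, Polynomial.C (ζ k)⁻¹ * P k, fun w => ?_⟩
  funext j
  have hQ : Polynomial.C (ζ k) * P j - Polynomial.C (ζ j) * P k = 0 := by
    refine Polynomial.eq_zero_of_infinite_isRoot _ (Set.Infinite.mono ?_ hinf)
    intro w hw
    obtain ⟨c, -, hc⟩ := hw
    have hj := congrFun hc j
    have hk' := congrFun hc k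
    rw [hld, Pi.smul_apply, smul_eq_mul] at hj hk'
    simp only [Set.mem_ofPred_eq, Polynomial.IsRoot.def, Polynomial.eval_sub, Polynomial.eval_mul,
      Polynomial.eval_C]
    rw [hj, hk']
    ring
  have hw := congrArg (Polynomial.eval w) hQ
  simp only [Polynomial.eval_sub, Polynomial.eval_mul, Polynomial.eval_C,
    Polynomial.eval_zero] at hw
  rw [hld, Pi.smul_apply, smul_eq_mul]
  simp only [Polynomial.eval_mul, Polynomial.eval_C]
  field_simp
  linear_combination hw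

/-- the non-special directions in which the tuple has the direction `η` -/
def Dir {r n : ℕ} (μ : ℕ) (J : Fin r → P2) (ws : Fin n → ℂ) (η : Fin r → ℂ) : Set (Unit → ℂ) :=
  {w | w () ≠ 0 ∧ (∀ e, ws e ≠ w ()) ∧ Pr (ld μ J ![1, w ()]) η}

private theorem c2_constr_uni (P Q : Polynomial ℂ) :
    Constr {w : Unit → ℂ | P.eval (w ()) = Q.eval (w ())} := by
  have h := constr_eq (Polynomial.aeval (X () : MvPolynomial Unit ℂ) P)
    (Polynomial.aeval (X () : MvPolynomial Unit ℂ) Q)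
  have e : ∀ (R : Polynomial ℂ) (w : Unit → ℂ),
      eval w (Polynomial.aeval (X () : MvPolynomial Unit ℂ) R) = R.eval (w ()) := by
    intro R w
    have h1 : (aeval w : MvPolynomial Unit ℂ →ₐ[ℂ] ℂ)
        (Polynomial.aeval (X () : MvPolynomial Unit ℂ) R) =
        Polynomial.aeval ((aeval w : MvPolynomial Unit ℂ →ₐ[ℂ] ℂ) (X ())) R :=
      (Polynomial.aeval_algHom_apply _ _ _).symm
    rw [aeval_X, Polynomial.coe_aeval_eq_eval] at h1
    rw [← h1]
    rfl
  simp only [e] at h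
  exact h

private theorem c2_constr_dir {r n : ℕ} (μ : ℕ) (J : Fin r → P2) (ws : Fin n → ℂ)
    {η : Fin r → ℂ} (hη : η ≠ 0) : Constr (Dir μ J ws η) := by
  obtain ⟨k, hk⟩ := c2_ne hη
  choose P hP using fun j => c2_poly μ (J j)
  have hld : ∀ w j, ld μ J ![1, w] j = (P j).eval w := fun w j => (hP j w).symm
  have e : Dir μ J ws η = ({w : Unit → ℂ | Polynomial.X.eval (w ()) =
        (0 : Polynomial ℂ).eval (w ())}ᶜ ∩
      (⋂ e : Fin n, {w : Unit → ℂ | (Polynomial.C (ws e)).eval (w ()) =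
        Polynomial.X.eval (w ())}ᶜ)) ∩
      ({w : Unit → ℂ | (P k).eval (w ()) = (0 : Polynomial ℂ).eval (w ())}ᶜ ∩
      (⋂ j : Fin r, {w : Unit → ℂ | (Polynomial.C (η k) * P j).eval (w ()) =
        (Polynomial.C (η j) * P k).eval (w ())})) := by
    ext w
    simp only [Dir, Set.mem_ofPred_eq, Set.mem_inter_iff, Set.mem_compl_iff, Set.mem_iInter,
      Polynomial.eval_X, Polynomial.eval_zero, Polynomial.eval_C, Polynomial.eval_mul]
    constructor
    · rintro ⟨h1, h2, c, hc0, hc⟩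
      have hc' : ∀ j, (P j).eval (w ()) = c * η j := fun j => by
        have := congrFun hc j
        rw [hld, Pi.smul_apply, smul_eq_mul] at this
        exact this
      refine ⟨⟨h1, h2⟩, ?_, fun j => ?_⟩
      · rw [hc']
        exact mul_ne_zero hc0 hk
      · rw [hc', hc']
        ring
    · rintro ⟨⟨h1, h2⟩, h3, h4⟩
      refine ⟨h1, h2, (P k).eval (w ()) / η k, div_ne_zero h3 hk, ?_⟩
      funext j
      rw [hld, Pi.smul_apply, smul_eq_mul]
      have := h4 j
      field_simp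
      linear_combination this
  rw [e]
  exact ((c2_constr_uni _ _).compl.inter (constr_iInter fun e => (c2_constr_uni _ _).compl)).inter
    ((c2_constr_uni _ _).compl.inter (constr_iInter fun j => c2_constr_uni _ _))

private theorem c2_constr_coord {σ : Type} [Finite σ] (S : Set σ) (p : σ → ℂ) :
    Constr {x : σ → ℂ | ∀ q ∈ S, x q = p q} := by
  classical
  have e : {x : σ → ℂ | ∀ q ∈ S, x q = p q} = ⋂ q : σ, {x : σ → ℂ |
      eval x (if q ∈ S then (X q : MvPolynomial σ ℂ) else 0) =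
        eval x (if q ∈ S then (C (p q) : MvPolynomial σ ℂ) else 0)} := by
    ext x
    simp only [Set.mem_ofPred_eq, Set.mem_iInter]
    refine forall_congr' fun q => ?_
    by_cases hq : q ∈ S
    · simp [hq]
    · simp [hq]
  rw [e]
  exact constr_iInter fun q => constr_eq _ _

private theorem c2_chi_coord {χ : K0 →+* ℤ} (hχ : χ LL = 1) {σ : Type} [Finite σ] (S : Set σ)
    (p : σ → ℂ) : χ (cls {x : σ → ℂ | ∀ q ∈ S, x q = p q}) = 1 := by
  let W : Submodule ℂ (σ → ℂ) :=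
    { carrier := {x | ∀ q ∈ S, x q = 0}
      zero_mem' := fun q _ => rfl
      add_mem' := fun {a b} ha hb q hq => by
        rw [Pi.add_apply, ha q hq, hb q hq, add_zero]
      smul_mem' := fun c x hx q hq => by
        rw [Pi.smul_apply, hx q hq, smul_zero] }
  have h1 : RegIso {x : σ → ℂ | ∀ q ∈ S, x q = p q} (W : Set (σ → ℂ)) := by
    refine RegIso.linear LinearMap.id LinearMap.id (-p) p (fun x hx q hq => ?_)
      (fun y hy q hq => ?_) (fun x _ => ?_) (fun y _ => ?_)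
    · have := hx q hq
      simp [this]
    · have := hy q hq
      simp [this]
    · simp
    · simp
  rw [cls_iso (c2_constr_coord S p) (constr_submodule W) h1, cls_submodule, map_pow, hχ, one_pow]

private theorem c2_mem_NS {d i n : ℕ} (hid : i ≤ d) (ws : Fin n → ℂ)
    (γ : Fin 2 × Fin (d + 1) → ℂ) : γ ∈ NS d i ws ↔
      (∀ c (l : Fin (d + 1)), (l : ℕ) < i → γ (c, l) = 0) ∧
      γ (0, ⟨i, Nat.lt_succ_of_le hid⟩) ≠ 0 ∧ γ (1, ⟨i, Nat.lt_succ_of_le hid⟩) ≠ 0 ∧
      ∀ e, γ (1, ⟨i, Nat.lt_succ_of_le hid⟩) ≠ ws e * γ (0, ⟨i, Nat.lt_succ_of_le hid⟩) := by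
  simp only [NS, OO, Set.mem_inter_iff, Set.mem_ofPred_eq]
  constructor
  · rintro ⟨⟨h1, h2, h3, h4⟩, h5⟩
    refine ⟨fun c l hl => ?_, h2 _ rfl, h4 _ rfl, fun e => h5 _ rfl e⟩
    fin_cases c
    · exact h1 l hl
    · exact h3 l hl
  · rintro ⟨h1, h2, h3, h4⟩
    have e : ∀ l : Fin (d + 1), (l : ℕ) = i → l = ⟨i, Nat.lt_succ_of_le hid⟩ :=
      fun l hl => Fin.ext hl
    refine ⟨⟨fun l hl => h1 0 l hl, fun l hl => ?_, fun l hl => h1 1 l hl, fun l hl => ?_⟩,
      fun l hl e' => ?_⟩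
    · rw [e l hl]; exact h2
    · rw [e l hl]; exact h3
    · rw [e l hl]; exact h4 e'

private theorem c2_coeff {r d i n : ℕ} (hi : 1 ≤ i) (hid : i ≤ d)
    {F J : Fin r → P2} {A B μ : ℕ} (hF : ∀ j, F j = X 0 ^ A * X 1 ^ B * J j)
    (hJ : ∀ j, OrdP (J j) μ) (ws : Fin n → ℂ) {γ : Fin 2 × Fin (d + 1) → ℂ}
    (hγ : γ ∈ NS d i ws) (w : ℂ)
    (hw : w * γ (0, ⟨i, Nat.lt_succ_of_le hid⟩) = γ (1, ⟨i, Nat.lt_succ_of_le hid⟩)) (j : Fin r) :
    (∀ l < (A + B + μ) * i, (along (F j) γ).coeff l = 0) ∧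
      (along (F j) γ).coeff ((A + B + μ) * i) =
        γ (0, ⟨i, Nat.lt_succ_of_le hid⟩) ^ (A + B + μ) * w ^ B * ld μ J ![1, w] j := by
  rw [c2_mem_NS hid] at hγ
  obtain ⟨h1, h2⟩ := coeff_low (F j) (A + B + μ) i (hc_F (hF j) (hJ j)).1 γ hi
    (Nat.lt_succ_of_le hid) hγ.1
  refine ⟨h1, ?_⟩
  rw [h2]
  have e : (fun c => γ (c, ⟨i, Nat.lt_succ_of_le hid⟩)) =
      ![γ (0, ⟨i, Nat.lt_succ_of_le hid⟩), w * γ (0, ⟨i, Nat.lt_succ_of_le hid⟩)] := by
    funext c
    fin_cases c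
    · rfl
    · exact hw.symm
  rw [e, eval_hc (hF j) (hJ j)]
  rfl

private theorem c2_mem_Qe {r d : ℕ} {F : Fin r → P2} {η : Fin r → ℂ}
    {γ : Fin 2 × Fin (d + 1) → ℂ} : cj F γ ∈ Qe η d ↔
      ∀ j, (∀ l < d, (along (F j) γ).coeff l = 0) ∧ (along (F j) γ).coeff d = η j := by
  simp only [Qe, cj, Set.mem_ofPred_eq]
  refine forall_congr' fun j => and_congr ⟨fun h l hl => ?_, fun h l hl => h l hl⟩ ?_
  · exact h ⟨l, Nat.lt_succ_of_lt hl⟩ hl
  · rw [Fin.val_last]

private theorem c2_empty {r d i n : ℕ} (hi : 1 ≤ i) (hid : i ≤ d)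
    {F J : Fin r → P2} {A B μ : ℕ} (hF : ∀ j, F j = X 0 ^ A * X 1 ^ B * J j)
    (hJ : ∀ j, OrdP (J j) μ) (ws : Fin n → ℂ)
    (hnz : ∀ w : ℂ, w ≠ 0 → (∀ e, ws e ≠ w) → ld μ J ![1, w] ≠ 0) {η : Fin r → ℂ}
    (hη : η ≠ 0) (hN : (A + B + μ) * i ≠ d) : WW F d (Qe η d) ∩ NS d i ws = ∅ := by
  rw [Set.eq_empty_iff_forall_notMem]
  rintro γ ⟨h1, hγ⟩
  have h1' := c2_mem_Qe.1 h1.2
  have hγ' := (c2_mem_NS hid ws γ).1 hγ
  obtain ⟨-, hx, hy, hs⟩ := hγ'
  set x := γ (0, ⟨i, Nat.lt_succ_of_le hid⟩) with hxdef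
  set y := γ (1, ⟨i, Nat.lt_succ_of_le hid⟩) with hydef
  have hw : y / x * x = y := div_mul_cancel₀ y hx
  have hco := c2_coeff hi hid hF hJ ws hγ (y / x) hw
  have hw0 : y / x ≠ 0 := div_ne_zero hy hx
  rcases lt_or_gt_of_ne hN with hlt | hgt
  · refine hnz (y / x) hw0 (fun e he => hs e ?_) ?_
    · rw [he, hw]
    · funext j
      have h2 := (h1' j).1 _ hlt
      rw [(hco j).2] at h2
      rcases mul_eq_zero.1 h2 with h3 | h3
      · exact absurd h3 (mul_ne_zero (pow_ne_zero _ hx) (pow_ne_zero _ hw0))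
      · exact h3
  · apply hη
    funext j
    rw [← (h1' j).2, (hco j).1 d hgt]
    rfl

theorem chi_ns_e {χ : K0 →+* ℤ} (hχ : IsEulerCharF χ) {r d i n : ℕ} (hi : 1 ≤ i) (hid : i ≤ d)
    {F J : Fin r → P2} {A B μ : ℕ} (hμ : 0 < μ) (hF : ∀ j, F j = X 0 ^ A * X 1 ^ B * J j)
    (hJ : ∀ j, OrdP (J j) μ) (ws : Fin n → ℂ) (hinj : Function.Injective ws)
    (hw : ∀ e, ws e ≠ 0)
    (hnz : ∀ w : ℂ, w ≠ 0 → (∀ e, ws e ≠ w) → ld μ J ![1, w] ≠ 0) {η : Fin r → ℂ}
    (hη : η ≠ 0) :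
    χ (cls (WW F d (Qe η d) ∩ NS d i ws)) =
      if (A + B + μ) * i = d then ((A + B + μ : ℕ) : ℤ) * χ (cls (Dir μ J ws η)) else 0 := by
  classical
  by_cases hN : (A + B + μ) * i = d
  swap
  · rw [if_neg hN, c2_empty hi hid hF hJ ws hnz hη hN, cls_empty, map_zero]
  rw [if_pos hN]
  set I : Fin (d + 1) := ⟨i, Nat.lt_succ_of_le hid⟩ with hI
  set S := WW F d (Qe η d) ∩ NS d i ws with hS
  have cS : Constr S := (constr_WW F d (constr_Qe η d)).inter (constr_NS d i ws)
  have hmem : ∀ (γ : Fin 2 × Fin (d + 1) → ℂ) (w : ℂ), w * γ (0, I) = γ (1, I) →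
      (γ ∈ S ↔ γ ∈ NS d i ws ∧
        ∀ j, γ (0, I) ^ (A + B + μ) * w ^ B * ld μ J ![1, w] j = η j) := by
    intro γ w hγw
    constructor
    · rintro ⟨h1, h2⟩
      refine ⟨h2, fun j => ?_⟩
      have h3 := (c2_mem_Qe.1 h1.2 j).2
      rw [← (c2_coeff hi hid hF hJ ws h2 w hγw j).2, hN]
      exact h3
    · rintro ⟨h2, h3⟩
      refine ⟨⟨?_, c2_mem_Qe.2 fun j => ⟨fun l hl => ?_, ?_⟩⟩, h2⟩
      · funext c
        exact ((c2_mem_NS hid ws γ).1 h2).1 c 0 (by simp only [Fin.val_zero]; omega)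
      · exact (c2_coeff hi hid hF hJ ws h2 w hγw j).1 l (by omega)
      · have := (c2_coeff hi hid hF hJ ws h2 w hγw j).2
        rw [hN] at this
        rw [this]
        exact h3 j
  set XX : Set ((Fin 2 × Fin (d + 1)) ⊕ Unit → ℂ) :=
    {z | (fun q => z (Sum.inl q)) ∈ S ∧
      z (Sum.inr ()) * z (Sum.inl (0, I)) = z (Sum.inl (1, I))} with hXX
  have cX : Constr XX := by
    have h1 := cS.comp (Sum.inl : Fin 2 × Fin (d + 1) → (Fin 2 × Fin (d + 1)) ⊕ Unit)
    have h2 := constr_eq (X (Sum.inr ()) * X (Sum.inl (0, I)) :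
      MvPolynomial ((Fin 2 × Fin (d + 1)) ⊕ Unit) ℂ) (X (Sum.inl (1, I)))
    have h3 := h1.inter h2
    have e : XX = {z : (Fin 2 × Fin (d + 1)) ⊕ Unit → ℂ | (fun q => z (Sum.inl q)) ∈ S} ∩
        {z | eval z (X (Sum.inr ()) * X (Sum.inl (0, I)) :
          MvPolynomial ((Fin 2 × Fin (d + 1)) ⊕ Unit) ℂ) = eval z (X (Sum.inl (1, I)))} := by
      ext z
      simp [hXX]
    rw [e]
    exact h3
  have hx0 : ∀ γ ∈ S, γ (0, I) ≠ 0 := fun γ hγ => ((c2_mem_NS hid ws γ).1 hγ.2).2.1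
  have iso : RegIso S XX := by
    refine ⟨fun γ => Sum.elim γ (fun _ => γ (1, I) / γ (0, I)), fun z q => z (Sum.inl q),
      ?_, fun q => regFun_coord _ _, fun γ hγ => ?_, fun z hz => hz.1, fun γ _ => rfl,
      fun z hz => ?_⟩
    · rintro (q | u)
      · exact regFun_coord _ q
      · simp only [Sum.elim_inr, div_eq_mul_inv]
        exact (regFun_coord S (1, I)).mul ((regFun_coord S (0, I)).inv hx0)
    · refine ⟨hγ, ?_⟩
      simp only [Sum.elim_inr, Sum.elim_inl]
      exact div_mul_cancel₀ _ (hx0 γ hγ)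
    · funext q
      rcases q with q | u
      · rfl
      · simp only [Sum.elim_inr]
        have h1 := hx0 _ hz.1
        have h2 := hz.2
        cases u
        rw [← h2]
        exact mul_div_cancel_right₀ _ h1
  rw [cls_iso cS cX iso]
  refine LF.chi_fib_const hχ cX (c2_constr_dir μ J ws hη) _ (fun y hy => ?_) (fun y hy γ hγ => ?_)
  · obtain ⟨hw0, hws, c, hc0, hc⟩ := hy
    set w := y () with hwdef
    have hb : w ^ B * c ≠ 0 := mul_ne_zero (pow_ne_zero _ hw0) hc0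
    have hNpos : 0 < A + B + μ := by omega
    let R : Finset ℂ := (Polynomial.nthRoots (A + B + μ) (w ^ B * c)⁻¹).toFinset
    have hR : ∀ x, x ∈ R ↔ x ^ (A + B + μ) = (w ^ B * c)⁻¹ := fun x => by
      simp only [R, Multiset.mem_toFinset, Polynomial.mem_nthRoots hNpos]
    have hcard : R.card = A + B + μ := by
      have hprim := Complex.isPrimitiveRoot_exp (A + B + μ) hNpos.ne'
      simp only [R]
      rw [Multiset.toFinset_card_of_nodup (hprim.nthRoots_nodup (inv_ne_zero hb)),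
        hprim.card_nthRoots, if_pos]
      exact IsAlgClosed.exists_pow_nat_eq _ hNpos
    let pt : ℂ → Fin 2 × Fin (d + 1) → ℂ := fun x q =>
      if (q.2 : ℕ) < i then 0 else if q.1 = 0 then x else w * x
    let T : ℂ → Set (Fin 2 × Fin (d + 1) → ℂ) := fun x =>
      {γ | ∀ q ∈ {q : Fin 2 × Fin (d + 1) | (q.2 : ℕ) ≤ i}, γ q = pt x q}
    have hT : ∀ x γ, γ ∈ T x ↔ (∀ c (l : Fin (d + 1)), (l : ℕ) < i → γ (c, l) = 0) ∧
        γ (0, I) = x ∧ γ (1, I) = w * x := by
      intro x γ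
      constructor
      · intro h
        refine ⟨fun c l hl => ?_, ?_, ?_⟩
        · have := h (c, l) (le_of_lt hl)
          rw [this]
          simp [pt, hl]
        · have := h (0, I) (show ((0 : Fin 2), I).2.val ≤ i from le_refl i)
          rw [this]
          simp [pt, hI]
        · have := h (1, I) (show ((1 : Fin 2), I).2.val ≤ i from le_refl i)
          rw [this]
          simp [pt, hI]
      · rintro ⟨h1, h2, h3⟩ ⟨c, l⟩ hq
        have hq' : (l : ℕ) ≤ i := hq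
        rcases lt_or_eq_of_le hq' with hl | hl
        · rw [h1 c l hl]
          simp [pt, hl]
        · have hl' : l = I := Fin.ext hl
          subst hl'
          fin_cases c
          · simpa [pt, hI] using h2
          · simpa [pt, hI] using h3
    have hfib : {γ : Fin 2 × Fin (d + 1) → ℂ | Sum.elim γ y ∈ XX} = ⋃ x ∈ R, T x := by
      ext γ
      simp only [Set.mem_iUnion, exists_prop]
      have e1 : γ ∈ {γ : Fin 2 × Fin (d + 1) → ℂ | Sum.elim γ y ∈ XX} ↔
          γ ∈ S ∧ w * γ (0, I) = γ (1, I) := Iff.rfl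
      rw [e1]
      constructor
      · rintro ⟨h1, h2⟩
        have h3 := (hmem γ w h2).1 h1
        refine ⟨γ (0, I), ?_, (hT _ _).2 ⟨((c2_mem_NS hid ws γ).1 h3.1).1, rfl, h2.symm⟩⟩
        rw [hR]
        obtain ⟨k, hk⟩ := c2_ne hη
        have h4 := h3.2 k
        rw [hc, Pi.smul_apply, smul_eq_mul] at h4
        have h5 : γ (0, I) ^ (A + B + μ) * (w ^ B * c) = 1 := by
          apply mul_right_cancel₀ hk
          rw [one_mul]
          linear_combination h4
        exact eq_inv_of_mul_eq_one_left h5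
      · rintro ⟨x, hx, hγ⟩
        rw [hR] at hx
        obtain ⟨h1, h2, h3⟩ := (hT _ _).1 hγ
        have hx0' : x ≠ 0 := by
          rintro rfl
          rw [zero_pow hNpos.ne'] at hx
          exact inv_ne_zero hb hx.symm
        have h4 : w * γ (0, I) = γ (1, I) := by rw [h2, h3]
        refine ⟨(hmem γ w h4).2 ⟨(c2_mem_NS hid ws γ).2 ⟨h1, ?_, ?_, fun e he => ?_⟩,
          fun j => ?_⟩, h4⟩
        · change γ (0, I) ≠ 0
          rw [h2]; exact hx0'
        · change γ (1, I) ≠ 0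
          rw [h3]; exact mul_ne_zero hw0 hx0'
        · change γ (1, I) = ws e * γ (0, I) at he
          rw [h3, h2] at he
          exact hws e (mul_right_cancel₀ hx0' he).symm
        · rw [h2, hc, Pi.smul_apply, smul_eq_mul, hx]
          field_simp
    rw [hfib, cls_biUnion R (fun x _ => c2_constr_coord _ _), map_sum]
    · rw [Finset.sum_congr rfl fun x _ => c2_chi_coord hχ.line _ _]
      rw [Finset.sum_const, hcard]
      simp
    · intro x _ x' _ hxx'
      rw [Set.disjoint_left]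
      intro γ h1 h2
      exact hxx' (((hT _ _).1 h1).2.1.symm.trans ((hT _ _).1 h2).2.1)
  · apply hy
    have h1 : γ ∈ S := hγ.1
    have h2 : y () * γ (0, I) = γ (1, I) := hγ.2
    have h3 := (hmem γ _ h2).1 h1
    obtain ⟨h4, h5, h6, h7⟩ := (c2_mem_NS hid ws γ).1 h3.1
    change γ (0, I) ≠ 0 at h5
    change γ (1, I) ≠ 0 at h6
    change ∀ e, γ (1, I) ≠ ws e * γ (0, I) at h7
    have hy0 : y () ≠ 0 := by
      intro h
      rw [h, zero_mul] at h2
      exact h6 h2.symm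
    have hb : γ (0, I) ^ (A + B + μ) * y () ^ B ≠ 0 :=
      mul_ne_zero (pow_ne_zero _ h5) (pow_ne_zero _ hy0)
    refine ⟨hy0, fun e he => h7 e ?_, (γ (0, I) ^ (A + B + μ) * y () ^ B)⁻¹, inv_ne_zero hb, ?_⟩
    · rw [he, h2]
    · funext j
      rw [Pi.smul_apply, smul_eq_mul, ← h3.2 j, inv_mul_cancel_left₀ hb]

private theorem c2_pr_smul {r : ℕ} {ζ η : Fin r → ℂ} {c : ℂ} (hc : c ≠ 0) :
    Pr (c • ζ) η ↔ Pr ζ η := by
  constructor
  · rintro ⟨a, ha, h⟩
    refine ⟨c⁻¹ * a, mul_ne_zero (inv_ne_zero hc) ha, ?_⟩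
    rw [mul_smul, ← h, smul_smul, inv_mul_cancel₀ hc, one_smul]
  · rintro ⟨a, ha, h⟩
    exact ⟨c * a, mul_ne_zero hc ha, by rw [h, mul_smul]⟩

private theorem c2_top {r μ : ℕ} {J : Fin r → P2} {ζ : Fin r → ℂ} (hζ : ζ ≠ 0)
    {c : Polynomial ℂ} (h : ∀ w : ℂ, ld μ J ![1, w] = c.eval w • ζ) :
    ∃ b : ℂ, ld μ J ![0, 1] = b • ζ := by
  obtain ⟨k, hk⟩ := c2_ne hζ
  refine ⟨ld μ J ![0, 1] k / ζ k, ?_⟩
  funext j
  have key : homogeneousComponent μ (C (ζ k) * J j - C (ζ j) * J k) = 0 := by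
    by_contra hne
    obtain ⟨P, hP, -, hPe⟩ := exists_eval_ne hne
    apply hP
    apply Polynomial.funext
    intro w
    rw [hPe, Polynomial.eval_zero, map_sub, homogeneousComponent_C_mul,
      homogeneousComponent_C_mul, map_sub, map_mul, map_mul, eval_C, eval_C]
    have h1 := congrFun (h w) j
    have h2 := congrFun (h w) k
    simp only [ld, Pi.smul_apply, smul_eq_mul] at h1 h2
    rw [h1, h2]
    ring
  have h3 := congrArg (eval ![0, 1]) key
  rw [map_sub, homogeneousComponent_C_mul, homogeneousComponent_C_mul, map_sub, map_mul,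
    map_mul, eval_C, eval_C, map_zero] at h3
  simp only [ld, Pi.smul_apply, smul_eq_mul]
  field_simp
  linear_combination h3

open Classical in
theorem chi_dir {χ : K0 →+* ℤ} (hχ : IsEulerCharF χ) {r n μ : ℕ} {J : Fin r → P2}
    (ws : Fin n → ℂ) (hinj : Function.Injective ws) (hw : ∀ e, ws e ≠ 0)
    (hnz : ∀ w : ℂ, w ≠ 0 → (∀ e, ws e ≠ w) → ld μ J ![1, w] ≠ 0) {d0 di : ℕ} (h0 : d0 ≤ 1)
    (hi : di ≤ 1) (hd0 : d0 = 0 → ld μ J ![1, 0] ≠ 0) (hdi : di = 0 → ld μ J ![0, 1] ≠ 0)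
    (lab : Lab r) (hlab : LabOK μ J ws d0 di lab) {η : Fin r → ℂ} (hη : η ≠ 0) (N ν : ℕ) :
    χ (cls (Dir μ J ws η)) + (if d0 = 0 ∧ Pr (ld μ J ![1, 0]) η then 1 else 0) +
      (if di = 0 ∧ Pr (ld μ J ![0, 1]) η then 1 else 0) = cE ⟨N, ν, n + d0 + di, lab⟩ η := by
  have hcinj : Function.Injective (fun u : ℂ => fun _ : Unit => u) := by
    intro a b hab
    exact congrFun hab ()
  cases lab with
  | inl ζ =>
    obtain ⟨hζ, c, hc⟩ := hlab
    obtain ⟨b, hb⟩ := c2_top hζ hc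
    have hcE : cE ⟨N, ν, n + d0 + di, Sum.inl ζ⟩ η =
        if Pr ζ η then 2 - ((n + d0 + di : ℕ) : ℤ) else 0 := rfl
    rw [hcE]
    have hgen : ∀ w : ℂ, ld μ J ![1, w] ≠ 0 → (Pr (ld μ J ![1, w]) η ↔ Pr ζ η) := by
      intro w hw'
      rw [hc] at hw' ⊢
      refine c2_pr_smul fun h => hw' ?_
      rw [h, zero_smul]
    have htop : di = 0 → (Pr (ld μ J ![0, 1]) η ↔ Pr ζ η) := by
      intro h
      have hne := hdi h
      rw [hb] at hne ⊢
      refine c2_pr_smul fun h => hne ?_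
      rw [h, zero_smul]
    by_cases hP : Pr ζ η
    · rw [if_pos hP]
      have e1 : Dir μ J ws η = Set.univ \
          (((insert 0 (Finset.univ.image ws)).image (fun u : ℂ => fun _ : Unit => u) :
            Finset (Unit → ℂ)) : Set (Unit → ℂ)) := by
        ext w
        simp only [Dir, Set.mem_ofPred_eq, Set.mem_sdiff, Set.mem_univ, true_and,
          Finset.coe_image, Set.mem_image, Finset.mem_coe, Finset.mem_insert, Finset.mem_image,
          Finset.mem_univ]
        constructor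
        · rintro ⟨h1, h2, -⟩ ⟨u, hu, rfl⟩
          rcases hu with hu | ⟨e, he⟩
          · exact h1 hu
          · exact h2 e he
        · intro h
          have h1 : w () ≠ 0 := fun h1 => h ⟨w (), Or.inl h1, rfl⟩
          have h2 : ∀ e, ws e ≠ w () := fun e he => h ⟨w (), Or.inr ⟨e, he⟩, rfl⟩
          exact ⟨h1, h2, (hgen _ (hnz _ h1 h2)).2 hP⟩
      have hcF : ∀ s : Finset (Unit → ℂ), Constr (s : Set (Unit → ℂ)) := by
        intro s
        have e : (s : Set (Unit → ℂ)) = ⋃ p ∈ s, ({p} : Set (Unit → ℂ)) := by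
          ext x; simp
        rw [e]
        exact constr_biUnion s fun p _ => constr_singleton p
      have hcard : (insert 0 (Finset.univ.image ws)).card = n + 1 := by
        rw [Finset.card_insert_of_notMem, Finset.card_image_of_injective _ hinj,
          Finset.card_univ, Fintype.card_fin]
        simp only [Finset.mem_image, Finset.mem_univ, true_and, not_exists]
        exact hw
      rw [e1, cls_diff constr_univ (hcF _) (Set.subset_univ _), map_sub, LF.chi_finset,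
        Finset.card_image_of_injective _ hcinj, hcard]
      have e2 : χ (cls (Set.univ : Set (Unit → ℂ))) = 1 := hχ.line
      rw [e2]
      have e3 : (if d0 = 0 ∧ Pr (ld μ J ![1, 0]) η then (1 : ℤ) else 0) = 1 - (d0 : ℤ) := by
        by_cases h : d0 = 0
        · rw [if_pos ⟨h, (hgen 0 (hd0 h)).2 hP⟩, h]
          simp
        · have : d0 = 1 := by omega
          rw [if_neg (fun h' => h h'.1), this]
          simp
      have e4 : (if di = 0 ∧ Pr (ld μ J ![0, 1]) η then (1 : ℤ) else 0) = 1 - (di : ℤ) := by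
        by_cases h : di = 0
        · rw [if_pos ⟨h, (htop h).2 hP⟩, h]
          simp
        · have : di = 1 := by omega
          rw [if_neg (fun h' => h h'.1), this]
          simp
      rw [e3, e4]
      push_cast
      ring
    · rw [if_neg hP]
      have e1 : Dir μ J ws η = ∅ := by
        rw [Set.eq_empty_iff_forall_notMem]
        rintro w ⟨h1, h2, h3⟩
        exact hP ((hgen _ (hnz _ h1 h2)).1 h3)
      rw [e1, cls_empty, map_zero, if_neg, if_neg]
      · simp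
      · rintro ⟨h1, h2⟩
        exact hP ((htop h1).1 h2)
      · rintro ⟨h1, h2⟩
        exact hP ((hgen 0 (hd0 h1)).1 h2)
  | inr f =>
    obtain ⟨hn, hf⟩ := hlab
    have hcE : cE ⟨N, ν, n + d0 + di, Sum.inr f⟩ η = (f η : ℤ) := rfl
    rw [hcE, hf η hη]
    have hfin : {w : ℂ | w ≠ 0 ∧ (∀ i, ws i ≠ w) ∧ Pr (ld μ J ![1, w]) η}.Finite :=
      (fin_dir hn η hη).subset fun w hw' => hw'.2.2
    have e1 : Dir μ J ws η =
        ((hfin.toFinset.image (fun u : ℂ => fun _ : Unit => u) :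
            Finset (Unit → ℂ)) : Set (Unit → ℂ)) := by
      ext w
      simp only [Dir, Set.mem_ofPred_eq, Finset.coe_image, Set.mem_image, Finset.mem_coe,
        Set.Finite.mem_toFinset]
      constructor
      · intro h
        exact ⟨w (), h, rfl⟩
      · rintro ⟨u, hu, rfl⟩
        exact hu
    rw [e1, LF.chi_finset, Finset.card_image_of_injective _ hcinj,
      Set.ncard_eq_toFinset_card _ hfin]
    push_cast
    ring

end TV
end MotMono
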