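import Pool.Agent.Lib.MP_4e5fcd_ag.TV.B4
import Pool.Agent.Lib.MP_4e5fcd_ag.TV.C2

/-!
# TV-C4: realised directions

* `rd_ch`: `cj (cv w) γ'` is a jet at the origin (`bp γ' = 0`), and `cj_ch`/`along_cj` compare the
  coefficients. `rd_sw`: exchange the coordinates.
* `rd_own`: `γ = (t, w t)`, an `N`-jet (`N = A + B + μ ≥ 1`): `coeff_low` with `i = 1`, `eval_hc`.
* `rd_left`: induction on `Rz`; for the node itself take `w ≠ 0` not special (`ws` finite):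
  `w ^ B ld ![1, w] = (w ^ B c(w)) ζ`. For the nodes of the charts: induction hypothesis and `rd_ch`, `rd_sw`.
  `rd_right`: for the node itself: the set of `w` with `ld ![1, w] ~ ζ` is finite for each `ζ ∈ Z`
  (`fin_dir`), so there is `w ≠ 0`, not special, with `ld ![1, w]` not `~` to any `ζ ∈ Z`; put
  `η = w ^ B ld ![1, w]`; `w` belongs to the finite set counted by `f η` (`LabOK`), so `f η ≥ 1`.
-/

open MvPolynomial

namespace MotMono
namespace TV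

open CN

private theorem Pr_symm4 {r : ℕ} {u v : Fin r → ℂ} (h : Pr u v) : Pr v u := by
  obtain ⟨c, hc, rfl⟩ := h
  exact ⟨c⁻¹, inv_ne_zero hc, by rw [smul_smul, inv_mul_cancel₀ hc, one_smul]⟩

private theorem Pr_trans4 {r : ℕ} {u v w : Fin r → ℂ} (h : Pr u v) (h' : Pr v w) : Pr u w := by
  obtain ⟨c, hc, rfl⟩ := h
  obtain ⟨d, hd, rfl⟩ := h'
  exact ⟨c * d, mul_ne_zero hc hd, by rw [smul_smul]⟩

private theorem rd_map {r : ℕ} {F : Fin r → P2} {v : Fin 2 → P2} (hv : ∀ i, eval 0 (v i) = 0)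
    {η : Fin r → ℂ} (h : Rd (fun j => aeval v (F j)) η) : Rd F η := by
  obtain ⟨n, γ, hn, hbp, hγ⟩ := h
  refine ⟨n, cj v γ, hn, ?_, ?_⟩
  · rw [bp_cj, hbp]
    funext i
    exact hv i
  · intro j
    obtain ⟨h1, h2⟩ := hγ j
    refine ⟨fun l hl => ?_, ?_⟩
    · rw [← along_cj v (F j) γ l (by omega)]
      exact h1 l hl
    · rw [← along_cj v (F j) γ n (by omega)]
      exact h2

theorem rd_ch {r : ℕ} {F : Fin r → P2} {w : ℂ} {η : Fin r → ℂ}
    (h : Rd (fun j => ch w (F j)) η) : Rd F η := by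
  refine rd_map (v := cv w) ?_ h
  intro i
  fin_cases i <;> simp [cv]

theorem rd_sw {r : ℕ} {F : Fin r → P2} {η : Fin r → ℂ}
    (h : Rd (fun j => sw (F j)) η) : Rd F η := by
  refine rd_map (v := sv) ?_ h
  intro i
  fin_cases i <;> simp [sv]

theorem rd_own {r : ℕ} {F J : Fin r → P2} {A B μ : ℕ} (hμ : 0 < μ)
    (hF : ∀ j, F j = X 0 ^ A * X 1 ^ B * J j) (hJ : ∀ j, OrdP (J j) μ) (w : ℂ) :
    Rd F (w ^ B • ld μ J ![1, w]) := by
  have hi : 1 < A + B + μ + 1 := by omega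
  refine ⟨A + B + μ, fun q => if (q.2 : ℕ) = 1 then ![1, w] q.1 else 0, by omega, ?_, ?_⟩
  · funext i
    show (if ((0 : Fin (A + B + μ + 1)) : ℕ) = 1 then (![1, w] : Fin 2 → ℂ) i else 0) = 0
    rw [if_neg (by simp)]
  · intro j
    obtain ⟨h1, h2⟩ := coeff_low (k := A + B + μ) (F j) (A + B + μ) 1 (hc_F (hF j) (hJ j)).1
      (fun q => if (q.2 : ℕ) = 1 then ![1, w] q.1 else 0) le_rfl hi (by
        intro c l hl
        have : (l : ℕ) = 0 := by omega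
        show (if (l : ℕ) = 1 then (![1, w] : Fin 2 → ℂ) c else 0) = 0
        rw [if_neg (by omega)])
    rw [mul_one] at h1 h2
    refine ⟨h1, ?_⟩
    rw [h2]
    have h3 : (fun c : Fin 2 => (fun q : Fin 2 × Fin (A + B + μ + 1) =>
        if (q.2 : ℕ) = 1 then (![1, w] : Fin 2 → ℂ) q.1 else 0) (c, ⟨1, hi⟩)) =
        ![1, w * 1] := by
      funext c
      rw [mul_one]
      show (if (1 : ℕ) = 1 then (![1, w] : Fin 2 → ℂ) c else 0) = _
      rw [if_pos rfl]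
    rw [h3, eval_hc (hF j) (hJ j), one_pow, one_mul]
    rfl

private theorem exists_w {n : ℕ} (ws : Fin n → ℂ) (S : Set ℂ) (hS : S.Finite) :
    ∃ w : ℂ, w ≠ 0 ∧ (∀ i, ws i ≠ w) ∧ w ∉ S := by
  have h1 : (({0} ∪ Set.range ws) ∪ S : Set ℂ).Finite :=
    ((Set.finite_singleton 0).union (Set.finite_range ws)).union hS
  obtain ⟨w, hw⟩ := h1.exists_notMem
  rw [Set.mem_union, Set.mem_union, not_or, not_or] at hw
  exact ⟨w, hw.1.1, fun i hi => hw.1.2 ⟨i, hi⟩, hw.2⟩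

theorem rd_left {r : ℕ} {F : Fin r → P2} {A B : ℕ} {X : Str r} (h : Rz F A B X) (a b : ℕ)
    (e : Nd r) (he : e ∈ X.nds A a B b) (ζ : Fin r → ℂ) (hζ : e.lab = Sum.inl ζ) :
    ζ ≠ 0 ∧ ∃ c : ℂ, c ≠ 0 ∧ Rd F (c • ζ) := by
  induction h generalizing a b with
  | triv F J A B hA hF h => simp [Str.nds] at he
  | strict F g v A M hA hM hF hv hv' h => simp [Str.nds] at he
  | node F J A B μ hμ hF hJ hJ' n ws hinj hw0 hz hnz lab s0 si fr hlab h0 hi hf ih0 ihi ihf =>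
    rw [Str.nds, Multiset.mem_add, Multiset.mem_add, Multiset.mem_add, Multiset.mem_sum] at he
    rcases he with ((he | he) | he) | ⟨i, -, he⟩
    · rw [Multiset.mem_singleton] at he
      subst he
      have hζ' : lab = Sum.inl ζ := hζ
      subst hζ'
      obtain ⟨hζ0, c, hc⟩ := hlab
      refine ⟨hζ0, ?_⟩
      obtain ⟨w, hw, hws, -⟩ := exists_w ws ∅ Set.finite_empty
      have h1 := hnz w hw hws
      have h2 : c.eval w ≠ 0 := by
        intro h3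
        rw [hc w, h3, zero_smul] at h1
        exact h1 rfl
      refine ⟨w ^ B * c.eval w, mul_ne_zero (pow_ne_zero _ hw) h2, ?_⟩
      have h4 := rd_own hμ hF hJ w
      rw [hc w, smul_smul] at h4
      exact h4
    · obtain ⟨h1, c, hc, h2⟩ := ih0 _ _ he
      exact ⟨h1, c, hc, rd_ch h2⟩
    · obtain ⟨h1, c, hc, h2⟩ := ihi _ _ he
      exact ⟨h1, c, hc, rd_sw (rd_ch h2)⟩
    · obtain ⟨h1, c, hc, h2⟩ := ihf i _ _ he
      exact ⟨h1, c, hc, rd_ch h2⟩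

theorem rd_right {r : ℕ} {F : Fin r → P2} {A B : ℕ} {X : Str r} (h : Rz F A B X) (a b : ℕ)
    (e : Nd r) (he : e ∈ X.nds A a B b) (f : (Fin r → ℂ) → ℕ) (hf : e.lab = Sum.inr f)
    (Z : Finset (Fin r → ℂ)) (hZ : ∀ ζ ∈ Z, ζ ≠ 0) :
    ∃ η : Fin r → ℂ, η ≠ 0 ∧ Rd F η ∧ 1 ≤ f η ∧ ∀ ζ ∈ Z, ¬ Pr ζ η := by
  induction h generalizing a b with
  | triv F J A B hA hF h => simp [Str.nds] at he
  | strict F g v A M hA hM hF hv hv' h => simp [Str.nds] at he
  | node F J A B μ hμ hF hJ hJ' n ws hinj hw0 hz hnz lab s0 si fr hlab h0 hi hfr ih0 ihi ihf =>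
    rw [Str.nds, Multiset.mem_add, Multiset.mem_add, Multiset.mem_add, Multiset.mem_sum] at he
    rcases he with ((he | he) | he) | ⟨i, -, he⟩
    · rw [Multiset.mem_singleton] at he
      subst he
      have hf' : lab = Sum.inr f := hf
      subst hf'
      obtain ⟨hno, hcount⟩ := hlab
      have hfin : (⋃ ζ ∈ Z, {w : ℂ | Pr (ld μ J ![1, w]) ζ}).Finite :=
        Z.finite_toSet.biUnion fun ζ hζ => fin_dir hno ζ (hZ ζ hζ)
      obtain ⟨w, hw, hws, hwZ⟩ := exists_w ws _ hfin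
      have h1 := hnz w hw hws
      have hwB : w ^ B ≠ 0 := pow_ne_zero _ hw
      have hη : w ^ B • ld μ J ![1, w] ≠ 0 := smul_ne_zero hwB h1
      have hPr : Pr (ld μ J ![1, w]) (w ^ B • ld μ J ![1, w]) := Pr_symm4 ⟨w ^ B, hwB, rfl⟩
      refine ⟨w ^ B • ld μ J ![1, w], hη, rd_own hμ hF hJ w, ?_, ?_⟩
      · rw [hcount _ hη]
        have h2 : ({w' : ℂ | w' ≠ 0 ∧ (∀ i, ws i ≠ w') ∧
            Pr (ld μ J ![1, w']) (w ^ B • ld μ J ![1, w])}).Finite :=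
          (fin_dir hno _ hη).subset fun x hx => hx.2.2
        have h3 : 0 < ({w' : ℂ | w' ≠ 0 ∧ (∀ i, ws i ≠ w') ∧
            Pr (ld μ J ![1, w']) (w ^ B • ld μ J ![1, w])}).ncard := by
          rw [Set.ncard_pos h2]
          exact ⟨w, hw, hws, hPr⟩
        omega
      · intro ζ hζ hcon
        apply hwZ
        rw [Set.mem_iUnion₂]
        exact ⟨ζ, hζ, Pr_trans4 hPr (Pr_symm4 hcon)⟩
    · obtain ⟨η, h1, h2, h3⟩ := ih0 _ _ he
      exact ⟨η, h1, rd_ch h2, h3⟩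
    · obtain ⟨η, h1, h2, h3⟩ := ihi _ _ he
      exact ⟨η, h1, rd_sw (rd_ch h2), h3⟩
    · obtain ⟨η, h1, h2, h3⟩ := ihf i _ _ he
      exact ⟨η, h1, rd_ch h2, h3⟩

end TV
end MotMono
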