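import Pool.Agent.Lib.MP_4e5fcd_ag.Z1

/-!
# TV-C5: zeta functions with several factors

`Z = ∏ (1 - T ^ n) ^ c` over the pairs `(n, c) ∈ S` (`c ∈ ℤ`). For one pair this is
`exists_zeta` (Z1; see its proof for `IsZeta` of `(1 - T ^ n) ^ c`, both signs of `c`; here `c = 0` gives `Z = 1`).
`IsZeta` is multiplicative: logarithmic derivatives add. Let `Pos = ∏_{c > 0} (1 - T ^ n) ^ c`,
`Neg = ∏_{c < 0} (1 - T ^ n) ^ (- c)`, polynomials, `Neg * Z = Pos`. `1 - T ^ n` has at `α` a simple zero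
if `α ^ n = 1`, no zero otherwise. So the orders of vanishing of `Pos` and `Neg` at `α` differ by the sum in `hs`, which
is not `0`: divide by the gcd of `Pos` and `Neg` to get coprime `P`, `Q` with `Q * Z = P`; exactly one of them
vanishes at `α` (see the definition of `ZeroOrPole` in Defs).
-/

namespace MotMono
namespace TV

/-- the logarithmic derivative of `(1 - X ^ n)⁻¹` -/
private noncomputable def zG (n : ℕ) : PowerSeries ℂ :=
  PowerSeries.mk fun d => if d = 0 then (0 : ℂ) else if n ∣ d then (n : ℂ) else 0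

private theorem zkey (n : ℕ) (hn : 0 < n) :
    (1 - PowerSeries.X ^ n) * zG n = (n : PowerSeries ℂ) * PowerSeries.X ^ n := by
  have hC : (n : PowerSeries ℂ) = PowerSeries.C (n : ℂ) := by simp
  ext d
  rw [hC, sub_mul, one_mul, map_sub, PowerSeries.coeff_X_pow_mul', PowerSeries.coeff_C_mul,
    PowerSeries.coeff_X_pow]
  simp only [zG, PowerSeries.coeff_mk]
  rcases lt_trichotomy d n with h | h | h
  · rw [if_neg (not_le.mpr h), if_neg h.ne]
    by_cases h0 : d = 0
    · simp [h0]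
    · rw [if_neg h0, if_neg (Nat.not_dvd_of_pos_of_lt (Nat.pos_of_ne_zero h0) h)]
      simp
  · subst h
    rw [if_neg hn.ne', if_pos dvd_rfl, if_pos le_rfl]
    simp
  · rw [if_neg (by omega : ¬ d = 0), if_pos h.le, if_neg (by omega : ¬ d - n = 0), if_neg h.ne']
    have : n ∣ d ↔ n ∣ d - n := by
      constructor
      · intro h2
        exact Nat.dvd_sub h2 dvd_rfl
      · intro h2
        have h3 := Nat.dvd_add h2 (dvd_refl n)
        rwa [Nat.sub_add_cancel h.le] at h3
    by_cases h1 : n ∣ d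
    · rw [if_pos h1, if_pos (this.mp h1)]; simp
    · rw [if_neg h1, if_neg (fun h2 => h1 (this.mpr h2))]; simp

private theorem zdX (n : ℕ) :
    PowerSeries.X * PowerSeries.derivative ℂ ((PowerSeries.X : PowerSeries ℂ) ^ n) =
      (n : PowerSeries ℂ) * PowerSeries.X ^ n := by
  rcases n with _ | n
  · simp
  · rw [Derivation.leibniz_pow]
    simp only [Nat.add_sub_cancel, PowerSeries.derivative_X, smul_eq_mul, mul_one, nsmul_eq_mul]
    ring

private theorem zU (n : ℕ) (hn : 0 < n) (m : ℕ) :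
    PowerSeries.X * PowerSeries.derivative ℂ ((1 - PowerSeries.X ^ n : PowerSeries ℂ) ^ m) =
      -((m : PowerSeries ℂ) * zG n) * (1 - PowerSeries.X ^ n) ^ m := by
  induction m with
  | zero => simp
  | succ m ih =>
    have h1 : PowerSeries.X * PowerSeries.derivative ℂ (1 - PowerSeries.X ^ n : PowerSeries ℂ) =
        -((n : PowerSeries ℂ) * PowerSeries.X ^ n) := by
      rw [map_sub, mul_sub, zdX]
      simp
    rw [pow_succ, Derivation.leibniz, smul_eq_mul, smul_eq_mul, mul_add]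
    have e1 : PowerSeries.X * ((1 - PowerSeries.X ^ n : PowerSeries ℂ) ^ m *
        PowerSeries.derivative ℂ (1 - PowerSeries.X ^ n : PowerSeries ℂ)) =
        (1 - PowerSeries.X ^ n) ^ m * (PowerSeries.X *
          PowerSeries.derivative ℂ (1 - PowerSeries.X ^ n : PowerSeries ℂ)) := by ring
    have e2 : PowerSeries.X * ((1 - PowerSeries.X ^ n : PowerSeries ℂ) *
        PowerSeries.derivative ℂ ((1 - PowerSeries.X ^ n : PowerSeries ℂ) ^ m)) =
        (1 - PowerSeries.X ^ n) * (PowerSeries.X *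
          PowerSeries.derivative ℂ ((1 - PowerSeries.X ^ n : PowerSeries ℂ) ^ m)) := by ring
    rw [e1, e2, h1, ih, ← zkey n hn]
    push_cast
    ring

/-- `IsZeta` is multiplicative. -/
private theorem isZeta_mul {L1 L2 L : ℕ → ℤ} {Z1 Z2 : PowerSeries ℂ} (h1 : IsZeta L1 Z1)
    (h2 : IsZeta L2 Z2) (hL : ∀ d, 0 < d → L d = L1 d + L2 d) : IsZeta L (Z1 * Z2) := by
  refine ⟨by rw [map_mul, h1.1, h2.1, one_mul], ?_⟩
  have hs : (PowerSeries.mk fun d => if d = 0 then (0 : ℂ) else (L d : ℂ)) =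
      (PowerSeries.mk fun d => if d = 0 then (0 : ℂ) else (L1 d : ℂ)) +
      (PowerSeries.mk fun d => if d = 0 then (0 : ℂ) else (L2 d : ℂ)) := by
    ext d
    rw [map_add]
    simp only [PowerSeries.coeff_mk]
    by_cases h0 : d = 0
    · simp [h0]
    · rw [if_neg h0, if_neg h0, if_neg h0, hL d (Nat.pos_of_ne_zero h0)]
      push_cast; ring
  rw [hs, Derivation.leibniz, smul_eq_mul, smul_eq_mul]
  linear_combination Z1 * h2.2 + Z2 * h1.2

/-- one factor: rational function and zeta function. -/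
private theorem one_factor (n : ℕ) (hn : 0 < n) (c : ℤ) :
    ∃ (a b : ℕ) (Z : PowerSeries ℂ), (c = a - b) ∧
      IsZeta (fun d => if n ∣ d then (n : ℤ) * c else 0) Z ∧
      (((1 - Polynomial.X ^ n) ^ b : Polynomial ℂ) : PowerSeries ℂ) * Z =
        (((1 - Polynomial.X ^ n) ^ a : Polynomial ℂ) : PowerSeries ℂ) := by
  have hF : (PowerSeries.mk fun d => if d = 0 then (0 : ℂ) else
      (((if n ∣ d then (n : ℤ) * c else 0 : ℤ)) : ℂ)) = PowerSeries.C (c : ℂ) * zG n := by
    ext d
    rw [PowerSeries.coeff_C_mul]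
    simp only [zG, PowerSeries.coeff_mk]
    by_cases h0 : d = 0
    · simp [h0]
    · rw [if_neg h0, if_neg h0]
      by_cases h1 : n ∣ d
      · rw [if_pos h1, if_pos h1]; push_cast; ring
      · rw [if_neg h1, if_neg h1]; simp
  have hcc : ∀ m : ℕ, PowerSeries.constantCoeff ((1 - PowerSeries.X ^ n : PowerSeries ℂ) ^ m) = 1 := by
    intro m
    rw [map_pow, map_sub, map_pow, PowerSeries.constantCoeff_X, zero_pow hn.ne', map_one, sub_zero,
      one_pow]
  have hpoly : ∀ m : ℕ, (((1 - Polynomial.X ^ n : Polynomial ℂ) ^ m : Polynomial ℂ) : PowerSeries ℂ)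
      = (1 - PowerSeries.X ^ n) ^ m := by
    intro m
    simp
  rcases le_or_gt 0 c with hpos | hneg
  · obtain ⟨m, hm⟩ : ∃ m : ℕ, c = (m : ℤ) := ⟨c.natAbs, by omega⟩
    refine ⟨m, 0, (1 - PowerSeries.X ^ n) ^ m, by rw [hm]; simp, ⟨hcc m, ?_⟩, ?_⟩
    · rw [hF, zU n hn m]
      have h5 : PowerSeries.C (c : ℂ) = (m : PowerSeries ℂ) := by
        rw [hm]; push_cast; simp
      rw [h5]
    · rw [hpoly]; simp
  · obtain ⟨m, hm⟩ : ∃ m : ℕ, c = -(m : ℤ) := ⟨c.natAbs, by omega⟩
    set U : PowerSeries ℂ := (1 - PowerSeries.X ^ n) ^ m with hU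
    have hU0 : PowerSeries.constantCoeff U ≠ 0 := by rw [hU, hcc]; exact one_ne_zero
    have hUZ : U * U⁻¹ = 1 := PowerSeries.mul_inv_cancel U hU0
    refine ⟨0, m, U⁻¹, by rw [hm]; simp, ⟨?_, ?_⟩, ?_⟩
    · rw [PowerSeries.constantCoeff_inv, hU, hcc, inv_one]
    · rw [hF]
      have h1 : PowerSeries.derivative ℂ (U * U⁻¹) = 0 := by
        rw [hUZ]; simp
      rw [Derivation.leibniz, smul_eq_mul, smul_eq_mul] at h1
      have h2 : U * (PowerSeries.X * PowerSeries.derivative ℂ U⁻¹) +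
          U⁻¹ * (PowerSeries.X * PowerSeries.derivative ℂ U) = 0 := by
        have : U * (PowerSeries.X * PowerSeries.derivative ℂ U⁻¹) +
          U⁻¹ * (PowerSeries.X * PowerSeries.derivative ℂ U) = PowerSeries.X *
            (U * PowerSeries.derivative ℂ U⁻¹ + U⁻¹ * PowerSeries.derivative ℂ U) := by ring
        rw [this, h1, mul_zero]
      rw [hU, zU n hn m, ← hU] at h2
      have h3 : U * (PowerSeries.X * PowerSeries.derivative ℂ U⁻¹) =
          (m : PowerSeries ℂ) * zG n := by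
        have : U⁻¹ * (-((m : PowerSeries ℂ) * zG n) * U) =
            -((m : PowerSeries ℂ) * zG n) * (U * U⁻¹) := by ring
        rw [this, hUZ, mul_one] at h2
        linear_combination h2
      have h4 : PowerSeries.X * PowerSeries.derivative ℂ U⁻¹ =
          (m : PowerSeries ℂ) * zG n * U⁻¹ := by
        calc PowerSeries.X * PowerSeries.derivative ℂ U⁻¹ =
            (U * U⁻¹) * (PowerSeries.X * PowerSeries.derivative ℂ U⁻¹) := by rw [hUZ, one_mul]
          _ = (U * (PowerSeries.X * PowerSeries.derivative ℂ U⁻¹)) * U⁻¹ := by ring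
          _ = _ := by rw [h3]
      have h5 : PowerSeries.C (c : ℂ) = -(m : PowerSeries ℂ) := by
        rw [hm]; push_cast; simp
      rw [h4, h5]
      ring
    · rw [hpoly, ← hU, hUZ]; simp

/-- `1 - X ^ n` has at `α` a simple zero if `α ^ n = 1`, no zero otherwise. -/
private theorem rm_one_sub (n : ℕ) (hn : 0 < n) (α : ℂ) :
    (1 - Polynomial.X ^ n : Polynomial ℂ) ≠ 0 ∧
    (α ^ n = 1 → (1 - Polynomial.X ^ n : Polynomial ℂ).rootMultiplicity α = 1) ∧
    (α ^ n ≠ 1 → (1 - Polynomial.X ^ n : Polynomial ℂ).rootMultiplicity α = 0) := by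
  have hne : (1 - Polynomial.X ^ n : Polynomial ℂ) ≠ 0 := by
    intro h
    have := congrArg (Polynomial.eval 0) h
    simp [hn.ne'] at this
  refine ⟨hne, fun h => ?_, fun h => ?_⟩
  · apply le_antisymm
    · have hsep : (Polynomial.X ^ n - Polynomial.C (1 : ℂ)).Separable :=
        Polynomial.separable_X_pow_sub_C 1 (by exact_mod_cast hn.ne') one_ne_zero
      have hsep' : (1 - Polynomial.X ^ n : Polynomial ℂ).Separable := by
        have : (1 - Polynomial.X ^ n : Polynomial ℂ) = -(Polynomial.X ^ n - Polynomial.C (1 : ℂ)) := by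
          simp
        rw [this]
        obtain ⟨a, b, hab⟩ := (Polynomial.separable_def' _).1 hsep
        refine (Polynomial.separable_def' _).2 ⟨-a, -b, ?_⟩
        rw [map_neg]
        linear_combination hab
      exact Polynomial.rootMultiplicity_le_one_of_separable hsep' α
    · exact (Polynomial.rootMultiplicity_pos hne).2 (by simp [Polynomial.IsRoot, h])
  · apply Polynomial.rootMultiplicity_eq_zero
    intro h1
    apply h
    simp only [Polynomial.IsRoot, Polynomial.eval_sub, Polynomial.eval_one, Polynomial.eval_pow,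
      Polynomial.eval_X] at h1
    exact (sub_eq_zero.1 h1).symm

private theorem rm_pow (P : Polynomial ℂ) (hP : P ≠ 0) (α : ℂ) (m : ℕ) :
    (P ^ m).rootMultiplicity α = m * P.rootMultiplicity α := by
  induction m with
  | zero => simp
  | succ m ih =>
    rw [pow_succ, Polynomial.rootMultiplicity_mul (mul_ne_zero (pow_ne_zero m hP) hP), ih]
    ring

open Classical in
private theorem zeta_aux (S : Multiset (ℕ × ℤ)) (hS : ∀ p ∈ S, 0 < p.1) (α : ℂ) :
    ∃ (P Q : Polynomial ℂ) (Z : PowerSeries ℂ), P ≠ 0 ∧ Q ≠ 0 ∧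
      IsZeta (fun d => (S.map fun p => if p.1 ∣ d then (p.1 : ℤ) * p.2 else 0).sum) Z ∧
      (Q : PowerSeries ℂ) * Z = (P : PowerSeries ℂ) ∧
      (P.rootMultiplicity α : ℤ) - (Q.rootMultiplicity α : ℤ) =
        (S.map fun p => if α ^ p.1 = 1 then p.2 else 0).sum := by
  induction S using Multiset.induction_on with
  | empty =>
    refine ⟨1, 1, 1, one_ne_zero, one_ne_zero, ⟨by simp, ?_⟩, by simp, by simp⟩
    have : (PowerSeries.mk fun d => if d = 0 then (0 : ℂ) else
        ((((0 : Multiset (ℕ × ℤ)).map fun p => if p.1 ∣ d then (p.1 : ℤ) * p.2 else 0).sum : ℤ) : ℂ)) =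
        0 := by
      ext d
      simp
    rw [this]
    simp
  | cons p S ih =>
    obtain ⟨P, Q, Z, hP, hQ, hZ, hQZ, hm⟩ := ih (fun q hq => hS q (Multiset.mem_cons_of_mem hq))
    obtain ⟨a, b, Z1, hab, hZ1, hQZ1⟩ := one_factor p.1 (hS p (Multiset.mem_cons_self p S)) p.2
    obtain ⟨hne, r1, r2⟩ := rm_one_sub p.1 (hS p (Multiset.mem_cons_self p S)) α
    refine ⟨(1 - Polynomial.X ^ p.1) ^ a * P, (1 - Polynomial.X ^ p.1) ^ b * Q, Z1 * Z,
      mul_ne_zero (pow_ne_zero a hne) hP, mul_ne_zero (pow_ne_zero b hne) hQ, ?_, ?_, ?_⟩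
    · apply isZeta_mul hZ1 hZ
      intro d hd
      rw [Multiset.map_cons, Multiset.sum_cons]
    · rw [Polynomial.coe_mul, Polynomial.coe_mul, ← hQZ1, ← hQZ]
      ring
    · rw [Polynomial.rootMultiplicity_mul (mul_ne_zero (pow_ne_zero a hne) hP),
        Polynomial.rootMultiplicity_mul (mul_ne_zero (pow_ne_zero b hne) hQ), rm_pow _ hne,
        rm_pow _ hne, Multiset.map_cons, Multiset.sum_cons, ← hm]
      by_cases h : α ^ p.1 = 1
      · rw [r1 h, if_pos h, hab]
        push_cast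
        ring
      · rw [r2 h, if_neg h]
        push_cast
        ring

open Classical in
theorem zeta_multi (S : Multiset (ℕ × ℤ)) (hS : ∀ p ∈ S, 0 < p.1) (α : ℂ)
    (hs : (S.map fun p => if α ^ p.1 = 1 then p.2 else 0).sum ≠ 0) :
    ∃ Z, IsZeta (fun d => (S.map fun p => if p.1 ∣ d then (p.1 : ℤ) * p.2 else 0).sum) Z ∧
      ZeroOrPole Z α := by
  obtain ⟨P, Q, Z, hP, hQ, hZ, hQZ, hm⟩ := zeta_aux S hS α
  refine ⟨Z, hZ, ?_⟩
  set g := EuclideanDomain.gcd P Q with hg
  have hg0 : g ≠ 0 := by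
    intro h
    rw [hg, EuclideanDomain.gcd_eq_zero_iff] at h
    exact hP h.1
  obtain ⟨P1, hP1⟩ := EuclideanDomain.gcd_dvd_left P Q
  obtain ⟨Q1, hQ1⟩ := EuclideanDomain.gcd_dvd_right P Q
  rw [← hg] at hP1 hQ1
  have hP10 : P1 ≠ 0 := by
    intro h
    rw [h, mul_zero] at hP1
    exact hP hP1
  have hQ10 : Q1 ≠ 0 := by
    intro h
    rw [h, mul_zero] at hQ1
    exact hQ hQ1
  have hcop : IsCoprime P1 Q1 := by
    have h1 := EuclideanDomain.gcd_eq_gcd_ab P Q
    rw [← hg] at h1
    refine ⟨EuclideanDomain.gcdA P Q, EuclideanDomain.gcdB P Q, ?_⟩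
    apply mul_left_cancel₀ hg0
    calc g * (EuclideanDomain.gcdA P Q * P1 + EuclideanDomain.gcdB P Q * Q1)
        = (g * P1) * EuclideanDomain.gcdA P Q + (g * Q1) * EuclideanDomain.gcdB P Q := by ring
      _ = P * EuclideanDomain.gcdA P Q + Q * EuclideanDomain.gcdB P Q := by rw [← hP1, ← hQ1]
      _ = g * 1 := by rw [← h1, mul_one]
  refine ⟨P1, Q1, hcop, ?_, ?_⟩
  · have hg0' : (g : PowerSeries ℂ) ≠ 0 := by
      rw [Ne, Polynomial.coe_eq_zero_iff]
      exact hg0
    apply mul_left_cancel₀ hg0'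
    rw [← mul_assoc, ← Polynomial.coe_mul, ← Polynomial.coe_mul, ← hP1, ← hQ1]
    exact hQZ
  · by_contra hcon
    push Not at hcon
    apply hs
    rw [← hm]
    have e1 : P.rootMultiplicity α = g.rootMultiplicity α := by
      conv_lhs => rw [hP1]
      rw [Polynomial.rootMultiplicity_mul (mul_ne_zero hg0 hP10),
        Polynomial.rootMultiplicity_eq_zero (p := P1) hcon.1, add_zero]
    have e2 : Q.rootMultiplicity α = g.rootMultiplicity α := by
      conv_lhs => rw [hQ1]
      rw [Polynomial.rootMultiplicity_mul (mul_ne_zero hg0 hQ10),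
        Polynomial.rootMultiplicity_eq_zero (p := Q1) hcon.2, add_zero]
    rw [e1, e2, sub_self]

end TV
end MotMono
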