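import Pool.Agent.Lib.MP_4e5fcd_ag.TV.C3
import Pool.Agent.Lib.MP_4e5fcd_ag.TV.C4
import Pool.Agent.Lib.MP_4e5fcd_ag.TV.C5

/-!
# TV-C6: visible eigenvalues at the origin

* `nds_pos`: all exponents are `> 0` (`μ > 0`): induction on `X` with `WF`.
* `vis_of_sum`: let `γ` be the `n`-jet of `Rd F η`. `OrdGe (span F) n γ` (`ordGe_span`), `η ≠ 0` gives an `F_j`
  with coefficient `≠ 0`. For `d ≥ 1`: `CA (span F) 0 (leading coefficients of γ) d = WW F d (Qe η d)`
  (`mem_CA_span`, CN/P2; `bp γ = 0`). By `contact_eq` (`leafC = 0` because `X ≠ triv`) the numbers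
  are `∑_e [e.N ∣ d] e.N cE e η`; apply `zeta_multi` to the multiset of the pairs `(e.N, cE e η)` (`IsZeta` uses
  only `d ≥ 1`).
-/

open MvPolynomial

namespace MotMono
namespace TV

open CN

theorem nds_pos {r : ℕ} (X : Str r) (A a B b : ℕ) (hX : X.WF A B) :
    ∀ e ∈ X.nds A a B b, 0 < e.N := by
  induction X generalizing A a B b with
  | triv => intro e he; simp [Str.nds] at he
  | strict M => intro e he; simp [Str.nds] at he
  | node μ lab s0 si n fr h0 hi hf =>
    intro e he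
    obtain ⟨hμ, -, -, -, w0, wi, wf⟩ := hX
    rw [Str.nds, Multiset.mem_add, Multiset.mem_add, Multiset.mem_add, Multiset.mem_sum] at he
    rcases he with ((he | he) | he) | ⟨i, -, he⟩
    · rw [Multiset.mem_singleton] at he
      subst he
      show 0 < A + B + μ
      omega
    · exact h0 _ _ _ _ w0 e he
    · exact hi _ _ _ _ wi e he
    · exact hf i _ _ _ _ (wf i) e he

private theorem isZeta_congr6 {Λ Λ' : ℕ → ℤ} {Z : PowerSeries ℂ} (h : ∀ d, 0 < d → Λ d = Λ' d)
    (hZ : IsZeta Λ' Z) : IsZeta Λ Z := by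
  refine ⟨hZ.1, ?_⟩
  have h1 : (fun d => if d = 0 then (0 : ℂ) else (Λ d : ℂ)) =
      fun d => if d = 0 then (0 : ℂ) else (Λ' d : ℂ) := by
    funext d
    by_cases hd : d = 0
    · rw [if_pos hd, if_pos hd]
    · rw [if_neg hd, if_neg hd, h d (Nat.pos_of_ne_zero hd)]
  rw [h1]
  exact hZ.2

open Classical in
theorem vis_of_sum {χ : K0 →+* ℤ} (hχ : IsEulerCharF χ) {r : ℕ} {F : Fin r → P2} {X : Str r}
    (h : Rz F 0 0 X) (hX : X ≠ Str.triv) {η : Fin r → ℂ} (hη : η ≠ 0) (hr : Rd F η) (lam : ℂ)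
    (hs : ((X.nds 0 1 0 1).map fun e => if lam ^ e.N = 1 then cE e η else 0).sum ≠ 0) :
    CN.Vis χ (Ideal.span (Set.range F)) 0 lam := by
  obtain ⟨n, γ, hn, hbp, hγ⟩ := hr
  have hord : OrdGe (Ideal.span (Set.range F)) n γ := by
    rw [ordGe_span]
    rintro f ⟨j, rfl⟩
    exact (hγ j).1
  obtain ⟨j₀, hj₀⟩ : ∃ j, η j ≠ 0 := by
    by_contra hcon
    push Not at hcon
    exact hη (funext hcon)
  obtain ⟨Z, hZ1, hZ2⟩ := zeta_multi ((X.nds 0 1 0 1).map fun e => (e.N, cE e η)) (by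
      intro p hp
      obtain ⟨e, he, rfl⟩ := Multiset.mem_map.mp hp
      exact nds_pos X 0 1 0 1 (wf_of_rz h) e he) lam (by
      rw [Multiset.map_map]
      exact hs)
  refine ⟨n, γ, hn, hbp, hord, ⟨F j₀, Ideal.subset_span ⟨j₀, rfl⟩, ?_⟩, Z, ?_, hZ2⟩
  · rw [(hγ j₀).2]
    exact hj₀
  · refine isZeta_congr6 ?_ hZ1
    intro d hd
    have h1 : CA (Ideal.span (Set.range F)) 0 (fun f => (along f γ).coeff n) d =
        WW F d (Qe η d) := by
      ext γ'
      have h2 := mem_CA_span (m := d) (Set.range F) γ hord γ'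
      rw [hbp] at h2
      rw [h2]
      constructor
      · rintro ⟨h3, h4⟩
        refine ⟨h3, fun j => ⟨fun l hl => ?_, ?_⟩⟩
        · exact (h4 (F j) ⟨j, rfl⟩).1 l hl
        · have h5 := (h4 (F j) ⟨j, rfl⟩).2
          rw [(hγ j).2] at h5
          exact h5
      · rintro ⟨h3, h4⟩
        refine ⟨h3, ?_⟩
        rintro f ⟨j, rfl⟩
        refine ⟨fun l hl => ?_, ?_⟩
        · exact (h4 j).1 ⟨l, by omega⟩ hl
        · rw [(hγ j).2]
          exact (h4 j).2
    rw [h1, contact_eq hχ h 1 1 hη hd]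
    have h6 : leafC F 0 0 η d X = 0 := by
      cases X with
      | triv => exact absurd rfl hX
      | strict M => rfl
      | node μ lab s0 si n fr => rfl
    rw [h6, zero_add, Multiset.map_map]
    rfl

end TV
end MotMono
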