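import Pool.Agent.Lib.MP_4e5fcd_ag.TV.V0
import Pool.Agent.Lib.MP_4e5fcd_ag.CN.G3
import Pool.Agent.Lib.MP_4e5fcd_ag.CN.P3
import Pool.Agent.Lib.MP_4e5fcd_ag.CN.P5
import Pool.Agent.Lib.MP_4e5fcd_ag.CN.V4
import Pool.Agent.Lib.MP_4e5fcd_ag.CN.E4
import Pool.Agent.Lib.MP_4e5fcd_ag.CN.P1

/-!
# TV-V1: pull-back under étale coordinates, for one value `s₀`
-/

open MvPolynomial

namespace MotMono
namespace TV

open CN

private theorem v1_eval {N k : ℕ} (v : Fin k → MvPolynomial (Fin N) ℂ)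
    (g : MvPolynomial (Fin k) ℂ) (p : Fin N → ℂ) :
    eval p (aeval v g) = eval (fun i => eval p (v i)) g := by
  induction g using MvPolynomial.induction_on with
  | C a => simp
  | add a b ha hb => simp only [map_add, ha, hb]
  | mul_X a i ha => simp only [map_mul, ha, aeval_X, eval_X]

theorem ugood_of_locPull {χ : K0 →+* ℤ} (hχ : IsEulerCharF χ) (s₀ : ℚ) {N k : ℕ}
    (I : Ideal (MvPolynomial (Fin N) ℂ)) (p : Fin N → ℂ) (G : Ideal (MvPolynomial (Fin k) ℂ))
    (h : LocPull I p G) (hG : UGood χ s₀ G 0) : UGood χ s₀ I p := by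
  obtain ⟨hG', hnear⟩ := hG
  refine ⟨?_, near_of_locPull hχ I p G h 1 hnear⟩
  rcases hG' with hn | ⟨hg, hg0, D, hD, K, hreg⟩
  · exact Or.inl (near_of_locPull hχ I p G h _ hn)
  right
  obtain ⟨u, e, h, hinj, hh, hj, h0, hpush, hpull⟩ := h
  have c : Chart I G u e h := ⟨hinj, hpush, hpull⟩
  refine ⟨h * jacDet u * aeval (fun i => u (e i)) hg, ?_, D, hD, K, ?_⟩
  · rw [map_mul, map_mul, v1_eval]
    have e0 : (fun i => eval p (u (e i))) = 0 := funext h0
    rw [e0]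
    exact mul_ne_zero (mul_ne_zero hh hj) hg0
  · intro σ _ Γ hΓ hne
    have hne' : ∀ z ∈ Γ, eval (fun i => z (Sum.inr i)) h ≠ 0 ∧
        eval (fun i => z (Sum.inr i)) (jacDet u) ≠ 0 ∧
        eval (fun i => z (Sum.inr i)) (aeval (fun i => u (e i)) hg) ≠ 0 := by
      intro z hz
      have h1 := hne z hz
      rw [map_mul, map_mul] at h1
      exact ⟨left_ne_zero_of_mul (left_ne_zero_of_mul h1),
        right_ne_zero_of_mul (left_ne_zero_of_mul h1), right_ne_zero_of_mul h1⟩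
    rw [Zf_chart c hΓ (fun z hz => (hne' z hz).1) (fun z hz => (hne' z hz).2.1)]
    refine ubd_C _ ?_
    refine hreg (σ ⊕ Fin N) _ (constr_push _ hΓ) ?_
    rintro z ⟨hz1, hz2⟩
    have h3 := (hne' _ hz1).2.2
    rw [v1_eval] at h3
    have e1 : (fun i => z (Sum.inr i)) =
        fun i => eval (fun j => z (Sum.inl (Sum.inr j))) (u (e i)) := funext hz2
    rw [e1]
    exact h3

end TV
end MotMono
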