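import Pool.Agent.Lib.MP_4e5fcd_ag.TV.E1
import Pool.Agent.Lib.MP_4e5fcd_ag.TV.V1

/-!
# TV-V2: descent along an étale polynomial map with a regular inverse

`ψ` polynomial, `ψ (0) = 0`, `D (0) ≠ 0`; on `{D ≠ 0}` the map `ψ` is étale and bijective onto `{D ≠ 0}` with regular
inverse `ρ`; `I' = ψ^* I`. Then `UGood χ s₀ I' 0 → UGood χ s₀ I 0`.
* `Chart I' I ψ id 1`: `inj`, `push` and `pull` from `hI` (`ψ (id i) = ψ i`).
* `Near`: let `ε > 0`; `z ↦ (eval z (ψ i))_i` is continuous, `0 ↦ 0`, so for small `δ` every `p'`, `‖p'‖ < δ`, has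
  `‖ψ (p')‖ < ε`, `D (p') ≠ 0`; `vis_push`. So `Near χ I' 0 lam → Near χ I 0 lam` (both for `lam = 1` and
  for the contrapositive in (a)).
* (a): `h'` from `UGood χ s₀ I' 0`. `x ↦ eval (ρ x) h'` is a regular function on `{D ≠ 0}` (`RegFun` of a polynomial in regular
  functions; see the closure lemmas of LF/X1a–X4): `= P / Q` there; `h = P * D`; `h (0) ≠ 0` because
  `ρ 0 = ρ (ψ 0) = 0`, `h' (0) ≠ 0`. Let `Γ` be constructible over `{h ≠ 0}`; put
  `Γ' = {(s, z) : (s, ψ (z)) ∈ Γ}` (constructible; `D (z) = D (ψ z) ≠ 0`, `h' (z) ≠ 0` because `z = ρ (ψ z)`). `Zf_chart` (CN/E4, `k = N`):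
  `Zf I' Γ' = Zf I (push ψ Γ')` (`Lu ^ 0 = 1`). And `Zf I (push ψ Γ') = Zf I Γ`: for every `k` the map
  `((s, z), γ) ↦ (s, γ)` is an isomorphism `fam I (push ψ Γ') k ≅ fam I Γ k` with inverse
  `(s, γ) ↦ ((s, ρ (bp γ)), γ)` (`cls_iso`; `constr_fam`, `constr_push`: CN/P1).
-/

open MvPolynomial

namespace MotMono
namespace TV

open CN

private theorem V2_chart {N : ℕ} {I I' : Ideal (MvPolynomial (Fin N) ℂ)}
    {ψ : Fin N → MvPolynomial (Fin N) ℂ}
    (hI : I' = Ideal.span {f' | ∃ f ∈ I, f' = aeval ψ f}) : Chart I' I ψ id 1 where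
  inj := Function.injective_id
  push := by
    intro g hg
    rw [hI, one_mul]
    exact Ideal.subset_span ⟨g, hg, rfl⟩
  pull := by
    intro f hf
    rw [one_mul]
    rw [hI] at hf
    exact hf

private theorem V2_near {χ : K0 →+* ℤ} (hχ : IsEulerCharF χ) {N : ℕ}
    {I I' : Ideal (MvPolynomial (Fin N) ℂ)} {ψ : Fin N → MvPolynomial (Fin N) ℂ}
    {D : MvPolynomial (Fin N) ℂ} (hψ0 : ∀ i, eval 0 (ψ i) = 0)
    (hD : eval 0 D ≠ 0) (hj : ∀ z, eval z D ≠ 0 → eval z (jacDet ψ) ≠ 0)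
    (hI : I' = Ideal.span {f' | ∃ f ∈ I, f' = aeval ψ f}) (lam : ℂ) (h : CN.Near χ I' 0 lam) :
    CN.Near χ I 0 lam := by
  intro ε hε
  have hc : Continuous fun z : Fin N → ℂ => fun i => eval z (ψ i) :=
    continuous_pi fun i => MvPolynomial.continuous_eval (ψ i)
  have hcD : Continuous fun z : Fin N → ℂ => eval z D := MvPolynomial.continuous_eval D
  have h0 : (fun i => eval (0 : Fin N → ℂ) (ψ i)) = 0 := funext hψ0
  have ev1 : ∀ᶠ z in nhds (0 : Fin N → ℂ), ‖(fun i => eval z (ψ i)) - 0‖ < ε := by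
    have h1 : Filter.Tendsto (fun z : Fin N → ℂ => fun i => eval z (ψ i)) (nhds 0)
        (nhds (0 : Fin N → ℂ)) := by
      have h1' := hc.tendsto 0
      rwa [h0] at h1'
    have h2 := h1.eventually (Metric.ball_mem_nhds (0 : Fin N → ℂ) hε)
    filter_upwards [h2] with z hz
    rwa [dist_eq_norm] at hz
  have ev2 : ∀ᶠ z in nhds (0 : Fin N → ℂ), eval z D ≠ 0 := hcD.continuousAt.eventually_ne hD
  obtain ⟨δ, hδ, hball⟩ := Metric.eventually_nhds_iff.mp (ev1.and ev2)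
  obtain ⟨p', hp', hv⟩ := h δ hδ
  have h3 := hball (y := p') (by rw [dist_eq_norm]; exact hp')
  refine ⟨fun i => eval p' (ψ i), h3.1, ?_⟩
  exact vis_push hχ (V2_chart hI) p' (by simp) (hj p' h3.2) lam hv

/-- the preimage of a family -/
private def V2G {N : ℕ} {σ : Type} (ψ : Fin N → MvPolynomial (Fin N) ℂ)
    (Γ : Set (σ ⊕ Fin N → ℂ)) : Set (σ ⊕ Fin N → ℂ) :=
  {z : σ ⊕ Fin N → ℂ | (Sum.elim (fun s => z (Sum.inl s))
      (fun i => eval (fun j => z (Sum.inr j)) (ψ i)) : σ ⊕ Fin N → ℂ) ∈ Γ}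

private theorem V2_mem {N : ℕ} {σ : Type} {ψ : Fin N → MvPolynomial (Fin N) ℂ}
    {Γ : Set (σ ⊕ Fin N → ℂ)} {z : σ ⊕ Fin N → ℂ} :
    z ∈ V2G ψ Γ ↔ (Sum.elim (fun s => z (Sum.inl s))
      (fun i => eval (fun j => z (Sum.inr j)) (ψ i)) : σ ⊕ Fin N → ℂ) ∈ Γ := Iff.rfl

private theorem V2_fam {N : ℕ} {σ : Type} {I : Ideal (MvPolynomial (Fin N) ℂ)}
    {Γ : Set (σ ⊕ Fin N → ℂ)} {K : ℕ} {z : σ ⊕ (Fin N × Fin (K + 1)) → ℂ} :
    z ∈ fam I Γ K ↔ (Sum.elim (fun s => z (Sum.inl s)) (fun i => z (Sum.inr (i, 0))) :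
      σ ⊕ Fin N → ℂ) ∈ Γ ∧ (fun q => z (Sum.inr q)) ∈ ExOrd I K := Iff.rfl

private theorem V2_push {N k : ℕ} {σ : Type} {v : Fin k → MvPolynomial (Fin N) ℂ}
    {Γ : Set (σ ⊕ Fin N → ℂ)} {z : (σ ⊕ Fin N) ⊕ Fin k → ℂ} :
    z ∈ push v Γ ↔ (fun s => z (Sum.inl s)) ∈ Γ ∧
      ∀ i, z (Sum.inr i) = eval (fun j => z (Sum.inl (Sum.inr j))) (v i) := Iff.rfl

/-- the forward map -/
private def V2f {N : ℕ} {σ : Type} (K : ℕ) (w : (σ ⊕ Fin N) ⊕ (Fin N × Fin (K + 1)) → ℂ) :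
    σ ⊕ (Fin N × Fin (K + 1)) → ℂ :=
  Sum.elim (fun s => w (Sum.inl (Sum.inl s))) (fun q => w (Sum.inr q))

/-- the backward map -/
private def V2g {N : ℕ} {σ : Type} (K : ℕ) (ρ : (Fin N → ℂ) → (Fin N → ℂ))
    (w : σ ⊕ (Fin N × Fin (K + 1)) → ℂ) : (σ ⊕ Fin N) ⊕ (Fin N × Fin (K + 1)) → ℂ :=
  Sum.elim (Sum.elim (fun s => w (Sum.inl s)) (fun i => ρ (fun j => w (Sum.inr (j, 0))) i))
    (fun q => w (Sum.inr q))

/-- the regular isomorphism of the families of jets -/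
private theorem V2_iso {N : ℕ} {σ : Type} (I : Ideal (MvPolynomial (Fin N) ℂ))
    (ψ : Fin N → MvPolynomial (Fin N) ℂ) (D : MvPolynomial (Fin N) ℂ)
    (ρ : (Fin N → ℂ) → (Fin N → ℂ))
    (hDψ : ∀ z, eval (fun i => eval z (ψ i)) D = eval z D)
    (hρ : RegularOn {x | eval x D ≠ 0} ρ)
    (h1 : ∀ z, eval z D ≠ 0 → ρ (fun i => eval z (ψ i)) = z)
    (h2 : ∀ x, eval x D ≠ 0 → (fun i => eval (ρ x) (ψ i)) = x)
    (Γ : Set (σ ⊕ Fin N → ℂ)) (hΓ : ∀ z ∈ Γ, eval (fun i => z (Sum.inr i)) D ≠ 0) (K : ℕ) :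
    RegIso (fam I (push ψ (V2G ψ Γ)) K) (fam I Γ K) := by
  have hDF : ∀ y ∈ fam I Γ K, eval (fun j => y (Sum.inr (j, 0))) D ≠ 0 := by
    intro y hy
    rw [V2_fam] at hy
    have h3 := hΓ _ hy.1
    exact h3
  refine ⟨V2f K, V2g K ρ, ?_, ?_, ?_, ?_, ?_, ?_⟩
  · rintro (s | q)
    · exact regFun_coord _ _
    · exact regFun_coord _ _
  · rintro ((s | i) | q)
    · exact regFun_coord _ _
    · have h3 := RegFun.comp (E := fam I Γ K) (F := {x | eval x D ≠ 0})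
        (f := fun (w : σ ⊕ (Fin N × Fin (K + 1)) → ℂ) (j : Fin N) => w (Sum.inr (j, 0)))
        (h := fun x => ρ x i) (fun j => regFun_coord _ _) (hρ i) hDF
      exact h3
    · exact regFun_coord _ _
  · intro w hw
    rw [V2_fam, V2_push, V2_mem] at hw
    obtain ⟨⟨hw1, hw2⟩, hw3⟩ := hw
    rw [V2_fam]
    refine ⟨?_, hw3⟩
    have e : (Sum.elim (fun s => V2f K w (Sum.inl s)) (fun i => V2f K w (Sum.inr (i, 0))) :
        σ ⊕ Fin N → ℂ) = Sum.elim (fun s => w (Sum.inl (Sum.inl s)))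
          (fun i => eval (fun j => w (Sum.inl (Sum.inr j))) (ψ i)) := by
      funext s
      rcases s with s | i
      · rfl
      · exact hw2 i
    rw [e]
    exact hw1
  · intro y hy
    have hDy := hDF y hy
    rw [V2_fam] at hy
    obtain ⟨hy1, hy2⟩ := hy
    have hinv := h2 _ hDy
    rw [V2_fam, V2_push, V2_mem]
    refine ⟨⟨?_, fun i => ?_⟩, hy2⟩
    · have e : (Sum.elim (fun s => y (Sum.inl s))
          (fun i => eval (fun j => ρ (fun j => y (Sum.inr (j, 0))) j) (ψ i)) :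
          σ ⊕ Fin N → ℂ) = Sum.elim (fun s => y (Sum.inl s)) fun i => y (Sum.inr (i, 0)) := by
        funext s
        rcases s with s | i
        · rfl
        · exact congrFun hinv i
      rw [← e] at hy1
      exact hy1
    · exact (congrFun hinv i).symm
  · intro w hw
    rw [V2_fam, V2_push, V2_mem] at hw
    obtain ⟨⟨hw1, hw2⟩, hw3⟩ := hw
    have hDz : eval (fun j => w (Sum.inl (Sum.inr j))) D ≠ 0 := by
      rw [← hDψ]
      have h3 := hΓ _ hw1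
      exact h3
    have hinv := h1 _ hDz
    have e : (fun j => w (Sum.inr (j, 0))) =
        fun i => eval (fun j => w (Sum.inl (Sum.inr j))) (ψ i) := funext fun i => hw2 i
    funext s
    rcases s with (s | i) | q
    · rfl
    · show ρ (fun j => w (Sum.inr (j, 0))) i = w (Sum.inl (Sum.inr i))
      rw [e, hinv]
    · rfl
  · intro y hy
    funext s
    rcases s with s | q <;> rfl

theorem ugood_descend {χ : K0 →+* ℤ} (hχ : IsEulerCharF χ) (s₀ : ℚ) {N : ℕ}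
    (I I' : Ideal (MvPolynomial (Fin N) ℂ)) (ψ : Fin N → MvPolynomial (Fin N) ℂ)
    (D : MvPolynomial (Fin N) ℂ) (ρ : (Fin N → ℂ) → (Fin N → ℂ)) (hψ0 : ∀ i, eval 0 (ψ i) = 0)
    (hD : eval 0 D ≠ 0) (hj : ∀ z, eval z D ≠ 0 → eval z (jacDet ψ) ≠ 0)
    (hDψ : ∀ z, eval (fun i => eval z (ψ i)) D = eval z D)
    (hρ : RegularOn {x | eval x D ≠ 0} ρ)
    (h1 : ∀ z, eval z D ≠ 0 → ρ (fun i => eval z (ψ i)) = z)
    (h2 : ∀ x, eval x D ≠ 0 → (fun i => eval (ρ x) (ψ i)) = x)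
    (hI : I' = Ideal.span {f' | ∃ f ∈ I, f' = aeval ψ f}) (hG : UGood χ s₀ I' 0) :
    UGood χ s₀ I 0 := by
  obtain ⟨hG', hnear⟩ := hG
  refine ⟨?_, V2_near hχ hψ0 hD hj hI 1 hnear⟩
  rcases hG' with hn | ⟨h', hh0, D', hD', K', hreg⟩
  · exact Or.inl (V2_near hχ hψ0 hD hj hI _ hn)
  right
  have hreg' : RegFun {x | eval x D ≠ 0} (fun x => eval (ρ x) h') :=
    RegFun.comp (E := {x | eval x D ≠ 0}) (F := Set.univ) (f := ρ)
      (h := fun z => eval z h') hρ (regFun_poly _ h') (fun _ _ => trivial)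
  obtain ⟨P, Q, hPQ⟩ := hreg'
  have hPQ' : ∀ x, eval x D ≠ 0 → eval x Q ≠ 0 ∧ eval (ρ x) h' = eval x P / eval x Q :=
    fun x hx => hPQ x hx
  have hρ0 : ρ 0 = 0 := by
    have h3 := h1 0 hD
    rwa [show (fun i => eval (0 : Fin N → ℂ) (ψ i)) = 0 from funext hψ0] at h3
  refine ⟨P * D, ?_, D', hD', K', ?_⟩
  · rw [map_mul]
    refine mul_ne_zero (fun hP => hh0 ?_) hD
    have h3 := (hPQ' 0 hD).2
    rw [hρ0, hP, zero_div] at h3
    exact h3
  · intro σ _ Γ hΓ hΓh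
    have hΓD : ∀ z ∈ Γ, eval (fun i => z (Sum.inr i)) D ≠ 0 := by
      intro z hz
      have h3 := hΓh z hz
      rw [map_mul] at h3
      exact right_ne_zero_of_mul h3
    have hΓP : ∀ z ∈ Γ, eval (fun i => z (Sum.inr i)) P ≠ 0 := by
      intro z hz
      have h3 := hΓh z hz
      rw [map_mul] at h3
      exact left_ne_zero_of_mul h3
    have hΓ'D : ∀ z ∈ V2G ψ Γ, eval (fun i => z (Sum.inr i)) D ≠ 0 := by
      intro z hz
      rw [V2_mem] at hz
      have h3 := hΓD _ hz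
      simp only [Sum.elim_inr] at h3
      rwa [hDψ] at h3
    have hconstr : Constr (V2G ψ Γ) := by
      have h3 := hΓ.preimage (σ := σ ⊕ Fin N)
        (Sum.elim (fun s => X (Sum.inl s)) fun i => rename Sum.inr (ψ i))
      have e : {x : σ ⊕ Fin N → ℂ | (fun j => eval x ((Sum.elim (fun s => X (Sum.inl s))
          (fun i => rename Sum.inr (ψ i)) : σ ⊕ Fin N → MvPolynomial (σ ⊕ Fin N) ℂ) j)) ∈ Γ} =
          V2G ψ Γ := by
        ext x
        have e2 : (fun j => eval x ((Sum.elim (fun s => X (Sum.inl s))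
            (fun i => rename Sum.inr (ψ i)) : σ ⊕ Fin N → MvPolynomial (σ ⊕ Fin N) ℂ) j)) =
            Sum.elim (fun s => x (Sum.inl s))
              (fun i => eval (fun j => x (Sum.inr j)) (ψ i)) := by
          funext j
          rcases j with s | i
          · simp
          · simp only [Sum.elim_inr, eval_rename]
            rfl
        rw [Set.mem_ofPred_eq, e2, V2_mem]
      rwa [e] at h3
    have hΓ'h : ∀ z ∈ V2G ψ Γ, eval (fun i => z (Sum.inr i)) h' ≠ 0 := by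
      intro z hz h0
      have hD0 := hΓ'D z hz
      rw [V2_mem] at hz
      have hDz := hΓD _ hz
      have hPz := hΓP _ hz
      simp only [Sum.elim_inr] at hDz hPz
      obtain ⟨h3, h4⟩ := hPQ' _ hDz
      rw [h1 _ hD0, h0] at h4
      exact div_ne_zero hPz h3 h4.symm
    have hZ' := hreg σ (V2G ψ Γ) hconstr hΓ'h
    have hch := Zf_chart (V2_chart hI) hconstr (fun z _ => by simp) (fun z hz => hj _ (hΓ'D z hz))
    have hone : PowerSeries.C ((Lu ^ ((N : ℤ) - N) : MCˣ) : MC) = 1 := by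
      rw [sub_self, zpow_zero, Units.val_one, map_one]
    rw [hone, one_mul] at hch
    have hZ : Zf I (push (fun i => ψ (id i)) (V2G ψ Γ)) = Zf I Γ := by
      ext K
      unfold Zf
      rw [PowerSeries.coeff_mk, PowerSeries.coeff_mk]
      congr 2
      exact cls_iso (constr_fam I (constr_push _ hconstr) K) (constr_fam I hΓ K)
        (V2_iso I ψ D ρ hDψ hρ h1 h2 Γ hΓD K)
    rw [← hZ, ← hch]
    exact hZ'

end TV
end MotMono
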