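import Pool.Agent.Lib.MP_4e5fcd_ag.TV.YDefs
import Pool.Agent.Lib.MP_4e5fcd_ag.TV.V2

/-!
# TV-V3: germs of homogeneous ideals and dehomogenisation

Let `s j = i.succAbove j`, `c' j = c (s j) / c i`, `I = germ (span F) c`, `G = germ (span (dh i '' F)) c'`.
`ψ (i) = X i`, `ψ (s j) = (X i + c i) (X (s j) + c' j) - c (s j)`, `D = X i + c i`:
`ψ (0) = 0`, `jacDet ψ = D ^ N`, `D (ψ (z)) = D (z)`; inverse on `{D ≠ 0}`: `ρ x (i) = x i`,
`ρ x (s j) = (x (s j) + c (s j)) / (x i + c i) - c' j`.
For `f` homogeneous of degree `d`: `f (ψ (z) + c) = (z_i + c_i) ^ d (dh i f) (z_(s j) + c'_j)`. So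
`I' = ψ^* I` is generated by the `D ^ d * (dh i f) (z_s + c')`, `f ∈ F`, and `LocPull I' 0 G` holds with `u = X`
(Jacobian `1`), `e = s`, `h = D ^ d`. `ugood_of_locPull`: `UGood χ s₀ I' 0`; `ugood_descend`: `UGood χ s₀ I 0`.
-/

open MvPolynomial

namespace MotMono
namespace TV

open CN

private theorem span_eq_map {A B : Type*} [CommRing A] [CommRing B] [Algebra ℂ A] [Algebra ℂ B]
    (φ : A →ₐ[ℂ] B) (I : Ideal A) : Ideal.span {f' | ∃ f ∈ I, f' = φ f} = I.map φ := by
  rw [Ideal.map]
  congr 1
  ext x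
  constructor
  · rintro ⟨f, hf, h⟩
    exact ⟨f, hf, h.symm⟩
  · rintro ⟨f, hf, h⟩
    exact ⟨f, hf, h.symm⟩

private theorem span_image {A B : Type*} [CommRing A] [CommRing B] [Algebra ℂ A] [Algebra ℂ B]
    (φ : A →ₐ[ℂ] B) (F : Set A) : Ideal.span {f' | ∃ f ∈ Ideal.span F, f' = φ f} =
      Ideal.span (φ '' F) := by
  rw [span_eq_map, Ideal.map_span]

private theorem span_image₂ {A B E : Type*} [CommRing A] [CommRing B] [CommRing E] [Algebra ℂ A]
    [Algebra ℂ B] [Algebra ℂ E] (φ : A →ₐ[ℂ] B) (θ : B →ₐ[ℂ] E) (F : Set A) :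
    Ideal.span {f' | ∃ f ∈ Ideal.span {f' | ∃ f ∈ Ideal.span F, f' = φ f}, f' = θ f} =
      Ideal.span ((fun f => θ (φ f)) '' F) := by
  rw [span_image φ F, span_image θ, Set.image_image]

private theorem aeval_scale {M N : ℕ} (f : MvPolynomial (Fin M) ℂ) (d : ℕ) (hf : f.IsHomogeneous d)
    (D : MvPolynomial (Fin N) ℂ) (v : Fin M → MvPolynomial (Fin N) ℂ) :
    aeval (fun a => D * v a) f = D ^ d * aeval v f := by
  rw [aeval_def, aeval_def, eval₂_eq, eval₂_eq, Finset.mul_sum]
  apply Finset.sum_congr rfl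
  intro m hm
  have hdeg : m.degree = d := by
    have h1 := hf (mem_support_iff.1 hm)
    rw [← h1]
    exact (Finsupp.degree_eq_weight_one (R := ℕ) ▸ rfl)
  have h2 : ∏ a ∈ m.support, (D * v a) ^ m a = D ^ d * ∏ a ∈ m.support, v a ^ m a := by
    rw [← hdeg]
    simp only [mul_pow]
    rw [Finset.prod_mul_distrib, Finset.prod_pow_eq_pow_sum]
    rfl
  rw [h2]
  ring

theorem ugood_dehom {χ : K0 →+* ℤ} (hχ : IsEulerCharF χ) (s₀ : ℚ) {N : ℕ}
    (F : Set (MvPolynomial (Fin (N + 1)) ℂ)) (d : ℕ) (hF : ∀ f ∈ F, f.IsHomogeneous d)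
    (i : Fin (N + 1)) (c : Fin (N + 1) → ℂ) (hc : c i ≠ 0)
    (h : UGood χ s₀ (germ (Ideal.span (dh i '' F)) fun j => c (i.succAbove j) / c i) 0) :
    UGood χ s₀ (germ (Ideal.span F) c) 0 := by
  set c' : Fin N → ℂ := fun j => c (i.succAbove j) / c i with hc'
  have hcc : ∀ j, c i * c' j = c (i.succAbove j) := by
    intro j
    rw [hc']
    field_simp
  set D : MvPolynomial (Fin (N + 1)) ℂ := X i + C (c i) with hD
  set ψ : Fin (N + 1) → MvPolynomial (Fin (N + 1)) ℂ :=
    i.insertNth (X i) (fun j => D * (X (i.succAbove j) + C (c' j)) - C (c (i.succAbove j))) with hψ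
  have ψi : ψ i = X i := by rw [hψ, Fin.insertNth_apply_same]
  have ψs : ∀ j, ψ (i.succAbove j) =
      D * (X (i.succAbove j) + C (c' j)) - C (c (i.succAbove j)) := by
    intro j
    rw [hψ, Fin.insertNth_apply_succAbove]
  set ρ : (Fin (N + 1) → ℂ) → (Fin (N + 1) → ℂ) := fun x =>
    i.insertNth (x i) (fun j => (x (i.succAbove j) + c (i.succAbove j)) / (x i + c i) - c' j) with hρ
  have ρi : ∀ x, ρ x i = x i := by
    intro x
    rw [hρ]
    simp only [Fin.insertNth_apply_same]
  have ρs : ∀ x j, ρ x (i.succAbove j) =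
      (x (i.succAbove j) + c (i.succAbove j)) / (x i + c i) - c' j := by
    intro x j
    rw [hρ]
    simp only [Fin.insertNth_apply_succAbove]
  have evD : ∀ z, eval z D = z i + c i := by
    intro z
    rw [hD]
    simp
  -- the Jacobian determinant
  have hjac : jacDet ψ = D ^ N := by
    rw [jacDet, Matrix.det_succ_row _ i, Finset.sum_eq_single i]
    · have h1 : (Matrix.of fun a b => pderiv b (ψ a)).submatrix i.succAbove i.succAbove =
          D • (1 : Matrix (Fin N) (Fin N) (MvPolynomial (Fin (N + 1)) ℂ)) := by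
        ext1 a b
        rw [Matrix.submatrix_apply, Matrix.of_apply, ψs, map_sub, pderiv_C, sub_zero, pderiv_mul,
          map_add, map_add, pderiv_C, pderiv_C, add_zero, add_zero, pderiv_X, pderiv_X,
          Matrix.smul_apply, smul_eq_mul]
        rw [Pi.single_eq_of_ne' (Fin.succAbove_ne i b), zero_mul, zero_add]
        by_cases hab : a = b
        · rw [hab, Pi.single_eq_same, Matrix.one_apply_eq]
        · rw [Matrix.one_apply_ne hab, Pi.single_eq_of_ne']
          intro h2
          exact hab (Fin.succAbove_right_injective h2).symm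
      rw [h1, Matrix.det_smul, Matrix.det_one, mul_one, Fintype.card_fin, Matrix.of_apply, ψi,
        pderiv_X, Pi.single_eq_same, mul_one, Even.neg_one_pow (Even.add_self _), one_mul]
    · intro b _ hb
      rw [Matrix.of_apply, ψi, pderiv_X, Pi.single_eq_of_ne' hb]
      ring
    · intro h1
      exact absurd (Finset.mem_univ i) h1
  -- the key identity
  have key : ∀ f ∈ F, aeval ψ (aeval (fun a => X a + C (c a)) f) =
      D ^ d * aeval (fun j => X (i.succAbove j)) (aeval (fun j => X j + C (c' j)) (dh i f)) := by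
    intro f hf
    set v : Fin (N + 1) → MvPolynomial (Fin (N + 1)) ℂ :=
      i.insertNth 1 (fun j => X (i.succAbove j) + C (c' j)) with hv
    have vi : v i = 1 := by rw [hv, Fin.insertNth_apply_same]
    have vs : ∀ j, v (i.succAbove j) = X (i.succAbove j) + C (c' j) := by
      intro j
      rw [hv, Fin.insertNth_apply_succAbove]
    have e1 : aeval ψ (aeval (fun a => X a + C (c a)) f) = aeval (fun a => D * v a) f := by
      rw [← AlgHom.comp_apply, comp_aeval]
      congr 1
      congr 1
      funext a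
      rcases Fin.eq_self_or_eq_succAbove i a with ha | ⟨j, ha⟩
      · rw [ha, vi, map_add, aeval_X, ψi, ← algebraMap_eq, AlgHom.commutes, algebraMap_eq, mul_one]
      · rw [ha, vs, map_add, aeval_X, ψs, ← algebraMap_eq, AlgHom.commutes, algebraMap_eq]
        ring
    have e2 : aeval (fun j => X (i.succAbove j)) (aeval (fun j => X j + C (c' j)) (dh i f)) =
        aeval v f := by
      rw [dh, ← AlgHom.comp_apply, comp_aeval, ← AlgHom.comp_apply, comp_aeval]
      congr 1
      congr 1
      funext a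
      rcases Fin.eq_self_or_eq_succAbove i a with ha | ⟨j, ha⟩
      · rw [ha, vi, Fin.insertNth_apply_same, map_one]
      · rw [ha, vs, Fin.insertNth_apply_succAbove, aeval_X, map_add, aeval_X, ← algebraMap_eq,
          AlgHom.commutes, algebraMap_eq]
    rw [e1, e2, aeval_scale f d (hF f hf)]
  -- the ideals
  set Φ : MvPolynomial (Fin (N + 1)) ℂ → MvPolynomial (Fin (N + 1)) ℂ := fun f =>
    aeval ψ (aeval (fun a => X a + C (c a)) f) with hΦ
  set Θ : MvPolynomial (Fin (N + 1)) ℂ → MvPolynomial (Fin (N + 1)) ℂ := fun f =>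
    aeval (fun j => X (i.succAbove j)) (aeval (fun j => X j + C (c' j)) (dh i f)) with hΘ
  have hI' : Ideal.span {f' | ∃ f ∈ germ (Ideal.span F) c, f' = aeval ψ f} =
      Ideal.span (Φ '' F) := by
    rw [germ]
    exact span_image₂ _ _ _
  have hG' : Ideal.span {f' | ∃ g ∈ germ (Ideal.span (dh i '' F)) c',
      f' = aeval (fun j => (X (i.succAbove j) : MvPolynomial (Fin (N + 1)) ℂ)) g} =
      Ideal.span (Θ '' F) := by
    rw [germ, span_image₂, Set.image_image]
  have hLP : LocPull (Ideal.span {f' | ∃ f ∈ germ (Ideal.span F) c, f' = aeval ψ f}) 0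
      (germ (Ideal.span (dh i '' F)) c') := by
    refine ⟨X, i.succAbove, D ^ d, Fin.succAbove_right_injective, ?_, ?_, ?_, ?_, ?_⟩
    · rw [map_pow, evD]
      simpa using pow_ne_zero d hc
    · have h1 : jacDet (X : Fin (N + 1) → MvPolynomial (Fin (N + 1)) ℂ) = 1 := by
        rw [jacDet]
        have : (Matrix.of fun a b => pderiv b (X a : MvPolynomial (Fin (N + 1)) ℂ)) = 1 := by
          ext1 a b
          rw [Matrix.of_apply, pderiv_X]
          by_cases hab : a = b
          · rw [hab, Pi.single_eq_same, Matrix.one_apply_eq]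
          · rw [Matrix.one_apply_ne hab, Pi.single_eq_of_ne hab]
        rw [this, Matrix.det_one]
      rw [h1, map_one]
      exact one_ne_zero
    · intro j
      simp
    · intro g hg
      rw [hI']
      have h1 : aeval (fun j => (X (i.succAbove j) : MvPolynomial (Fin (N + 1)) ℂ)) g ∈
          Ideal.span (Θ '' F) := by
        rw [← hG']
        exact Ideal.subset_span ⟨g, hg, rfl⟩
      refine Submodule.span_induction (p := fun x _ => D ^ d * x ∈ Ideal.span (Φ '' F))
        ?_ ?_ ?_ ?_ h1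
      · rintro x ⟨f, hf, rfl⟩
        have h2 : D ^ d * Θ f = Φ f := (key f hf).symm
        rw [h2]
        exact Ideal.subset_span ⟨f, hf, rfl⟩
      · rw [mul_zero]
        exact Ideal.zero_mem _
      · intro x y _ _ hx hy
        rw [mul_add]
        exact Ideal.add_mem _ hx hy
      · intro a x _ hx
        rw [smul_eq_mul]
        have h2 : D ^ d * (a * x) = a * (D ^ d * x) := by ring
        rw [h2]
        exact Ideal.mul_mem_left _ _ hx
    · intro f hf
      rw [hG']
      rw [hI'] at hf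
      apply Ideal.mul_mem_left
      have h1 : Ideal.span (Φ '' F) ≤ Ideal.span (Θ '' F) := by
        rw [Ideal.span_le]
        rintro x ⟨f, hf, rfl⟩
        have h2 : Φ f = D ^ d * Θ f := key f hf
        rw [h2]
        exact Ideal.mul_mem_left _ _ (Ideal.subset_span ⟨f, hf, rfl⟩)
      exact h1 hf
  refine ugood_descend hχ s₀ (germ (Ideal.span F) c) _ ψ D ρ ?_ ?_ ?_ ?_ ?_ ?_ ?_ rfl
    (ugood_of_locPull hχ s₀ _ 0 _ hLP h)
  · intro a
    rcases Fin.eq_self_or_eq_succAbove i a with ha | ⟨j, ha⟩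
    · rw [ha, ψi]
      simp
    · rw [ha, ψs, map_sub, map_mul, evD]
      simp only [map_add, eval_X, eval_C, Pi.zero_apply, zero_add]
      rw [hcc, sub_self]
  · rw [evD]
    simpa using hc
  · intro z hz
    rw [hjac, map_pow]
    exact pow_ne_zero _ hz
  · intro z
    rw [evD, evD, ψi, eval_X]
  · intro a
    rcases Fin.eq_self_or_eq_succAbove i a with ha | ⟨j, ha⟩
    · refine ⟨X i, 1, fun x _ => ⟨by simp, ?_⟩⟩
      show ρ x a = _
      rw [ha, ρi]
      simp
    · refine ⟨(X (i.succAbove j) + C (c (i.succAbove j))) - C (c' j) * (X i + C (c i)),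
        X i + C (c i), fun x hx => ⟨hx, ?_⟩⟩
      have hx' : x i + c i ≠ 0 := by
        rw [← evD]
        exact hx
      show ρ x a = _
      rw [ha, ρs]
      simp only [map_sub, map_add, map_mul, eval_X, eval_C]
      field_simp
  · intro z hz
    rw [evD] at hz
    funext a
    rcases Fin.eq_self_or_eq_succAbove i a with ha | ⟨j, ha⟩
    · rw [ha]
      refine (ρi (fun b => eval z (ψ b))).trans ?_
      simp only [ψi, eval_X]
    · rw [ha]
      refine (ρs (fun b => eval z (ψ b)) j).trans ?_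
      simp only [ψi, ψs, map_sub, map_add, map_mul, eval_X, eval_C, evD]
      field_simp
      ring
  · intro x hx
    rw [evD] at hx
    funext a
    rcases Fin.eq_self_or_eq_succAbove i a with ha | ⟨j, ha⟩
    · rw [ha, ψi, eval_X, ρi]
    · rw [ha, ψs]
      simp only [map_sub, map_add, map_mul, eval_X, eval_C, evD, ρi, ρs]
      field_simp
      ring

end TV
end MotMono
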