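import Pool.Agent.Lib.MP_4e5fcd_ag.CN.Defs

/-!
# Ideals which are tame at `s₀`: definitions of the statement

* `dh i f`: the dehomogenisation `x_i = 1` of `f`;
* `adjVar I`: the ideal generated by `I` and a new variable;
* `boxProd I J`: the product of two ideals in disjoint sets of variables;
* `TameAt χ s₀ I`: ideals which are tame at `s₀`.
-/

open MvPolynomial

namespace MotMono

/-- Dehomogenisation: `x_i = 1`, the other variables are numbered `0, …, N - 1`. -/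
noncomputable def dh {N : ℕ} (i : Fin (N + 1)) (f : MvPolynomial (Fin (N + 1)) ℂ) :
    MvPolynomial (Fin N) ℂ :=
  aeval (i.insertNth (1 : MvPolynomial (Fin N) ℂ) fun j => X j) f

/-- The ideal of `ℂ[x₁,…,x_N,z]` generated by an ideal `I` of `ℂ[x₁,…,x_N]` and by `z`. -/
noncomputable def adjVar {N : ℕ} (I : Ideal (MvPolynomial (Fin N) ℂ)) :
    Ideal (MvPolynomial (Fin (N + 1)) ℂ) :=
  Ideal.span ({f' | ∃ f ∈ I, f' = rename Fin.castSucc f} ∪ {X (Fin.last N)})

/-- The product in `ℂ[x₁,…,x_N,y₁,…,y_M]` of an ideal `I` of `ℂ[x₁,…,x_N]` and an ideal `J` of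
`ℂ[y₁,…,y_M]`. -/
noncomputable def boxProd {N M : ℕ} (I : Ideal (MvPolynomial (Fin N) ℂ))
    (J : Ideal (MvPolynomial (Fin M) ℂ)) : Ideal (MvPolynomial (Fin (N + M)) ℂ) :=
  Ideal.span {h | ∃ f ∈ I, ∃ g ∈ J, h = rename (Fin.castAdd M) f * rename (Fin.natAdd N) g}

/-- Ideals which are tame at `s₀`:
* `two`: non-zero ideals in two variables with `0` in the zero set;
* `lin`: non-zero ideals generated by products of linear forms (up to factors which do not vanish
  at the origin), with `0` in the zero set;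
* `pull`: ideals which near the origin are pull-backs of ideals tame at `s₀` under étale
  coordinates;
* `dehom`: the germ at `c`, `c_i ≠ 0`, of an ideal generated by forms of one degree, if the germ at
  `(c_j / c_i)_j` of the dehomogenised ideal is tame at `s₀`;
* `cone`: ideals generated by a set `F` of forms of one degree `d` in `N` variables, whose germs at
  the zeros `c ≠ 0` are tame at `s₀`; if `s₀ = -N/d` then one of the following has to hold: `s₀` is
  an integer; some fibre `{f = y_f for all f ∈ F}`, `y ≠ 0`, has a non-zero Euler characteristic;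
  `F` contains `N` algebraically independent elements; `exp (2 π i s₀)` is a zero or pole of the
  monodromy zeta function at a point, off the zero section, of the normal cone over some `p ≠ 0`;
* `adj`: `(I, z)`, `z` a new variable, if `I` is tame at `s₀ + 1`;
* `pow`: `I ^ k`, `k > 0`, if `I` is tame at `k s₀`;
* `box`: products in disjoint sets of variables of two ideals tame at `s₀`. -/
inductive TameAt (χ : K0 →+* ℤ) : ℚ → {N : ℕ} → Ideal (MvPolynomial (Fin N) ℂ) → Prop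
  | two (s₀ : ℚ) (G : Ideal (MvPolynomial (Fin 2) ℂ)) (hG : G ≠ ⊥) (h0 : ∀ f ∈ G, eval 0 f = 0) :
      TameAt χ s₀ G
  | lin (s₀ : ℚ) {N : ℕ} (P : Set (MvPolynomial (Fin N) ℂ)) (hP : ∀ f ∈ P, IsProdLin f)
      (h0 : ∃ f ∈ P, f ≠ 0) (h1 : ∀ f ∈ P, eval 0 f = 0) : TameAt χ s₀ (Ideal.span P)
  | pull (s₀ : ℚ) {N k : ℕ} (I : Ideal (MvPolynomial (Fin N) ℂ))
      (G : Ideal (MvPolynomial (Fin k) ℂ)) (h : LocPull I 0 G) (hG : TameAt χ s₀ G) :
      TameAt χ s₀ I
  | dehom (s₀ : ℚ) {N : ℕ} (F : Set (MvPolynomial (Fin (N + 1)) ℂ)) (d : ℕ)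
      (hF : ∀ f ∈ F, f.IsHomogeneous d) (i : Fin (N + 1)) (c : Fin (N + 1) → ℂ) (hc : c i ≠ 0)
      (h : TameAt χ s₀ (germ (Ideal.span (dh i '' F)) fun j => c (i.succAbove j) / c i)) :
      TameAt χ s₀ (germ (Ideal.span F) c)
  | cone (s₀ : ℚ) {N : ℕ} (F : Set (MvPolynomial (Fin N) ℂ)) (d : ℕ) (hd : 0 < d)
      (hF : ∀ f ∈ F, f.IsHomogeneous d) (h0 : ∃ f ∈ F, f ≠ 0)
      (hloc : ∀ c : Fin N → ℂ, c ≠ 0 → (∀ f ∈ F, eval c f = 0) →
        TameAt χ s₀ (germ (Ideal.span F) c))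
      (hs : s₀ = -(N : ℚ) / d →
        (∃ z : ℤ, s₀ = z) ∨
        (∃ y : MvPolynomial (Fin N) ℂ → ℂ, (∃ f ∈ F, y f ≠ 0) ∧
          χ (cls {x | ∀ f ∈ F, eval x f = y f}) ≠ 0) ∨
        (∃ g : Fin N → MvPolynomial (Fin N) ℂ, (∀ i, g i ∈ F) ∧ AlgebraicIndependent ℂ g) ∨
        ∃ p : Fin N → ℂ, p ≠ 0 ∧ ∃ y : ConePoint (Ideal.span F) p, y.Nonzero ∧
          ∃ Z, IsZeta (fun m => χ (cls (contactArcs (Ideal.span F) p y m))) Z ∧
            ZeroOrPole Z (Complex.exp (2 * Real.pi * Complex.I * s₀))) :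
      TameAt χ s₀ (Ideal.span F)
  | adj (s₀ : ℚ) {N : ℕ} (I : Ideal (MvPolynomial (Fin N) ℂ)) (h : TameAt χ (s₀ + 1) I) :
      TameAt χ s₀ (adjVar I)
  | pow (s₀ : ℚ) {N : ℕ} (I : Ideal (MvPolynomial (Fin N) ℂ)) (k : ℕ) (hk : 0 < k)
      (h : TameAt χ (k * s₀) I) : TameAt χ s₀ (I ^ k)
  | box (s₀ : ℚ) {N M : ℕ} (I : Ideal (MvPolynomial (Fin N) ℂ))
      (J : Ideal (MvPolynomial (Fin M) ℂ)) (hI : TameAt χ s₀ I) (hJ : TameAt χ s₀ J) :
      TameAt χ s₀ (boxProd I J)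

end MotMono
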