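import Pool.Agent.Lib.MP_4e5fcd_ag.TV.V1

/-!
# TV-V4: cones

The same as `cone_reg` (CN/G2), for one value `s₀`.
-/

open MvPolynomial

namespace MotMono
namespace TV

open CN

/-- finitely many of the `h_c` cover the zeros `≠ 0` -/
private theorem v4_cover {N : ℕ} (F : Set (MvPolynomial (Fin N) ℂ))
    (hc : (Fin N → ℂ) → MvPolynomial (Fin N) ℂ)
    (hh : ∀ c : Fin N → ℂ, c ≠ 0 → (∀ f ∈ F, eval c f = 0) → eval c (hc c) ≠ 0) :
    ∃ S : Finset (MvPolynomial (Fin N) ℂ),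
      (∀ h ∈ S, ∃ c : Fin N → ℂ, c ≠ 0 ∧ (∀ f ∈ F, eval c f = 0) ∧ h = hc c) ∧
      ∀ x : Fin N → ℂ, x ≠ 0 → (∀ f ∈ F, eval x f = 0) → ∃ h ∈ S, eval x h ≠ 0 := by
  classical
  set H : Set (MvPolynomial (Fin N) ℂ) :=
    {h | ∃ c : Fin N → ℂ, c ≠ 0 ∧ (∀ f ∈ F, eval c f = 0) ∧ h = hc c} with hH
  obtain ⟨P', hP', hspan⟩ := (Submodule.fg_span_iff_fg_span_finset_subset H).1
    (IsNoetherian.noetherian (Submodule.span (MvPolynomial (Fin N) ℂ) H))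
  refine ⟨P', fun h hh' => hP' hh', fun x hx hxF => ?_⟩
  by_contra hcon
  push Not at hcon
  have h2 : Ideal.span (P' : Set (MvPolynomial (Fin N) ℂ)) ≤ RingHom.ker (eval x) := by
    rw [Ideal.span_le]
    exact fun g hg => hcon g hg
  have h3 : hc x ∈ Ideal.span (P' : Set (MvPolynomial (Fin N) ℂ)) := by
    have h4 : hc x ∈ Ideal.span H := Ideal.subset_span ⟨x, hx, hxF, rfl⟩
    have h5 : Ideal.span H = Ideal.span (P' : Set (MvPolynomial (Fin N) ℂ)) := hspan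
    rwa [h5] at h4
  exact hh x hx hxF (h2 h3)

private theorem v4_constr_zeros {N : ℕ} {σ : Type} (F : Set (MvPolynomial (Fin N) ℂ)) :
    Constr {z : σ ⊕ Fin N → ℂ | ∀ f ∈ F, eval (fun i => z (Sum.inr i)) f = 0} :=
  (constr_zeroLocus F).comp Sum.inr

private theorem v4_constr_zero {N : ℕ} {σ : Type} :
    Constr {z : σ ⊕ Fin N → ℂ | ∀ i, z (Sum.inr i) = 0} := by
  have h := (constr_singleton (0 : Fin N → ℂ)).comp (Sum.inr : Fin N → σ ⊕ Fin N)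
  have e : {x : σ ⊕ Fin N → ℂ | (fun j => x (Sum.inr j)) ∈ ({0} : Set (Fin N → ℂ))} =
      {z : σ ⊕ Fin N → ℂ | ∀ i, z (Sum.inr i) = 0} := by
    ext z
    rw [Set.mem_ofPred_eq, Set.mem_singleton_iff, Set.mem_ofPred_eq, funext_iff]
    rfl
  rwa [e] at h

private theorem v4_near_one {χ : K0 →+* ℤ} (hχ : IsEulerCharF χ) (s₀ : ℚ) {N d : ℕ} (hd : 0 < d)
    (F : Set (MvPolynomial (Fin N) ℂ)) (hF : ∀ f ∈ F, f.IsHomogeneous d) (h0 : ∃ f ∈ F, f ≠ 0)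
    (hloc : ∀ c : Fin N → ℂ, c ≠ 0 → (∀ f ∈ F, eval c f = 0) → UGood χ s₀ (Ideal.span F) c) :
    CN.Near χ (Ideal.span F) 0 1 := by
  by_cases hc : ∃ c : Fin N → ℂ, c ≠ 0 ∧ ∀ f ∈ F, eval c f = 0
  · obtain ⟨c, hc0, hcF⟩ := hc
    exact near_scale hχ F (fun f hf => ⟨d, hF f hf⟩) c 1 (hloc c hc0 hcF).2
  · push Not at hc
    exact cone_near_one hχ hd F hF h0 fun c hc0 hcF => by
      obtain ⟨f, hf, hf0⟩ := hc c hc0
      exact absurd (hcF f hf) hf0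

/-- cones: if `exp (2 π i s₀)` is visible near the origin when `s₀ = -N/d` -/
theorem ugood_cone {χ : K0 →+* ℤ} (hχ : IsEulerCharF χ) (s₀ : ℚ) {N d : ℕ} (hd : 0 < d)
    (F : Set (MvPolynomial (Fin N) ℂ)) (hF : ∀ f ∈ F, f.IsHomogeneous d) (h0 : ∃ f ∈ F, f ≠ 0)
    (hloc : ∀ c : Fin N → ℂ, c ≠ 0 → (∀ f ∈ F, eval c f = 0) → UGood χ s₀ (Ideal.span F) c)
    (hs : s₀ = -(N : ℚ) / d → (∃ z : ℤ, s₀ = z) ∨ CN.Near χ (Ideal.span F) 0 (expo s₀)) :
    UGood χ s₀ (Ideal.span F) 0 := by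
  classical
  have h1 := v4_near_one hχ s₀ hd F hF h0 hloc
  refine ⟨?_, h1⟩
  by_cases hn : CN.Near χ (Ideal.span F) 0 (expo s₀)
  · exact Or.inl hn
  right
  have hs1 : s₀ ≠ -(N : ℚ) / d := by
    intro h
    rcases hs h with ⟨z, hz⟩ | h
    · apply hn
      have e1 : expo s₀ = 1 := by
        rw [expo, hz]
        have := Complex.exp_int_mul_two_pi_mul_I z
        rw [← this]
        congr 1
        push_cast
        ring
      rw [e1]
      exact h1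
    · exact hn h
  have hs' : ∀ c, ¬ CN.Near χ (Ideal.span F) c (expo s₀) := fun c hn' =>
    hn (near_scale hχ F (fun f hf => ⟨d, hF f hf⟩) c _ hn')
  have hex : ∀ c : Fin N → ℂ, ∃ h : MvPolynomial (Fin N) ℂ,
      c ≠ 0 → (∀ f ∈ F, eval c f = 0) → eval c h ≠ 0 ∧ UReg s₀ (Ideal.span F) h := by
    intro c
    by_cases h : c ≠ 0 ∧ ∀ f ∈ F, eval c f = 0
    · rcases (hloc c h.1 h.2).1 with h2 | ⟨g, hg, hr⟩
      · exact absurd h2 (hs' c)
      · exact ⟨g, fun _ _ => ⟨hg, hr⟩⟩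
    · exact ⟨0, fun h1 h2 => absurd ⟨h1, h2⟩ h⟩
  choose hc hhc using hex
  obtain ⟨S, hS1, hS2⟩ := v4_cover F hc fun c h1 h2 => (hhc c h1 h2).1
  obtain ⟨D, hD, K, hK⟩ := ubd_cover (s₀ := s₀) (Ideal.span F) S (by
    intro h hh
    obtain ⟨c, hc1, hc2, rfl⟩ := hS1 h hh
    exact (hhc c hc1 hc2).2)
  obtain ⟨k, hk⟩ := den_deg hD
  -- base points different from the origin
  have main : ∀ (τ : Type) [Finite τ] (Γ' : Set (τ ⊕ Fin N → ℂ)), Constr Γ' →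
      (∀ z ∈ Γ', ∃ i, z (Sum.inr i) ≠ 0) → UBd D (K + k) (Zf (Ideal.span F) Γ') := by
    intro τ _ Γ' hΓ' hne
    have hA := v4_constr_zeros (σ := τ) F
    have e : Γ' = (Γ' ∩ {z | ∀ f ∈ F, eval (fun i => z (Sum.inr i)) f = 0}) ∪
        (Γ' \ {z | ∀ f ∈ F, eval (fun i => z (Sum.inr i)) f = 0}) :=
      (Set.inter_union_sdiff _ _).symm
    rw [e, Zf_union _ (hΓ'.inter hA) (hΓ'.diff hA) (Set.disjoint_sdiff_inter.symm)]
    refine ubd_add ?_ ?_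
    · refine ubd_mono (by omega) (hK τ _ (hΓ'.inter hA) ?_)
      rintro z ⟨hz1, hz2⟩
      refine hS2 _ ?_ hz2
      obtain ⟨i, hi⟩ := hne z hz1
      exact fun h0 => hi (congrFun h0 i)
    · rw [Zf_off _ (hΓ'.diff hA)]
      · exact ubd_mono (by omega) (ubd_const hk _)
      · rintro z ⟨_, hz2⟩
        rw [Set.mem_ofPred_eq] at hz2
        push Not at hz2
        obtain ⟨f, hf, hf0⟩ := hz2
        exact ⟨f, Ideal.subset_span hf, hf0⟩
  -- the zeta function at the origin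
  have hne : -((N : ℤ) : ℚ) / d ≠ s₀ := by
    rw [Int.cast_natCast]
    exact hs1.symm
  set E : PowerSeries MC := 1 - PowerSeries.C ((Lu ^ (-(N : ℤ)) : MCˣ) : MC) *
    (PowerSeries.X : PowerSeries MC) ^ d with hE
  have hEd : E ∈ Den s₀ := den_gen (N : ℤ) d hd hne
  obtain ⟨k', hk'⟩ := den_deg hEd
  have hZ : UBd (D * E) (d + (K + k)) (Zmot (Ideal.span F)) := by
    refine ubd_of_mul ?_
    rw [mul_comm E, hE, cone_step hd F hF]
    refine ubd_mul_left ?_ (main Empty _ ?_ fun z hz => hz)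
    · intro j hj
      rw [PowerSeries.coeff_C_mul, PowerSeries.coeff_X_pow, if_neg (by omega), mul_zero]
    have h := (v4_constr_zero (N := N) (σ := Empty)).compl
    have e : {z : Empty ⊕ Fin N → ℂ | ∀ i, z (Sum.inr i) = 0}ᶜ =
        {z : Empty ⊕ Fin N → ℂ | ∃ i, z (Sum.inr i) ≠ 0} := by
      ext z
      simp
    rwa [e] at h
  refine ⟨1, by simp, D * E, den_mul hD hEd, d + (K + k) + k', fun σ _ Γ hΓ _ => ?_⟩
  have hA := v4_constr_zero (N := N) (σ := σ)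
  have e : Γ = (Γ ∩ {z | ∀ i, z (Sum.inr i) = 0}) ∪ (Γ \ {z | ∀ i, z (Sum.inr i) = 0}) :=
    (Set.inter_union_sdiff _ _).symm
  rw [e, Zf_union _ (hΓ.inter hA) (hΓ.diff hA) (Set.disjoint_sdiff_inter.symm)]
  refine ubd_add ?_ ?_
  · rw [Zf_zero _ (hΓ.inter hA) fun z hz => hz.2]
    exact ubd_mono (by omega) (ubd_C _ hZ)
  · rw [mul_comm D E]
    refine ubd_mono (by omega) (ubd_den hk' (main σ _ (hΓ.diff hA) ?_))
    rintro z ⟨_, hz⟩
    rw [Set.mem_ofPred_eq] at hz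
    push Not at hz
    exact hz

end TV
end MotMono
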