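import Pool.Agent.Lib.MP_4e5fcd_ag.TV.E5
import Pool.Agent.Lib.MP_4e5fcd_ag.TV.A10

/-!
# TV-E6: the two-variable theorem
-/

open MvPolynomial

namespace MotMono
namespace TV

open CN

theorem gd_strs {χ : K0 →+* ℤ} (hχ : IsEulerCharF χ) {r s : ℕ} {F : Fin r → P2}
    {p : Fin s → P2} {m : Fin s → ℕ} {J : Fin r → P2} (h : CD F p m J) (i : Fin s)
    (hi : eval 0 (p i) = 0) {s₀ : ℚ} (hg : gd s₀ (m i)) :
    CN.Near χ (Ideal.span (Set.range F)) 0 (expo s₀) :=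
  near_curve hχ h i hi (near_pow hχ (h.pos i) ((expo_pow s₀ (m i)).2 hg.2))

theorem near_one_two {χ : K0 →+* ℤ} (hχ : IsEulerCharF χ) {r s : ℕ} {F : Fin r → P2}
    {p : Fin s → P2} {m : Fin s → ℕ} {J : Fin r → P2} (h : CD F p m J) {X : Str r}
    (hR : Rz F 0 0 X) (hX : X ≠ Str.triv)
    (hS : ∀ M ∈ X.strs, ∃ i, eval 0 (p i) = 0 ∧ m i = M) :
    CN.Near χ (Ideal.span (Set.range F)) 0 1 := by
  rcases exists_kind X 0 1 0 1 (wf_of_rz hR) hX with ⟨e, he, hr⟩ | ⟨M, hM⟩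
  · by_contra hn
    have hv : ¬ CN.Vis χ (Ideal.span (Set.range F)) 0 1 := fun hv =>
      hn fun ε hε => ⟨0, by simpa using hε, hv⟩
    have h1 := all_left hχ hR hX 1 hv e he (one_pow _)
    cases hl : e.lab with
    | inl a => rw [hl] at hr; simp at hr
    | inr a => rw [hl] at h1; simp at h1
  · obtain ⟨i, hi, hm⟩ := hS M hM
    exact near_curve hχ h i hi (near_pow hχ (h.pos i) (one_pow _))

/-- **Ideals in two variables.** -/
theorem good_two {χ : K0 →+* ℤ} (hχ : IsEulerCharF χ) (G : Ideal P2) (hG : G ≠ ⊥)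
    (h0 : ∀ f ∈ G, eval 0 f = 0) : CN.Good χ G 0 := by
  obtain ⟨S, hS⟩ := (isNoetherianRing_iff_ideal_fg P2).1 inferInstance G
  let F : Fin S.card → P2 := fun j => (S.equivFin.symm j : P2)
  have hF : Ideal.span (Set.range F) = G := by
    rw [← hS]
    congr 1
    ext f
    constructor
    · rintro ⟨j, rfl⟩
      exact (S.equivFin.symm j).2
    · intro hf
      exact ⟨S.equivFin ⟨f, hf⟩, by simp [F]⟩
  have hF0 : ∃ j, F j ≠ 0 := by
    by_contra hn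
    push Not at hn
    apply hG
    rw [← hF, Ideal.span_eq_bot]
    rintro f ⟨j, rfl⟩
    exact hn j
  have hFz : ∀ j, eval 0 (F j) = 0 := fun j =>
    h0 (F j) (by rw [← hF]; exact Ideal.subset_span ⟨j, rfl⟩)
  obtain ⟨s, p, m, J, hcd⟩ := exists_cd F hF0
  obtain ⟨X, hX, hR, hst⟩ := exists_rz hcd hFz
  obtain ⟨H, hH0, hH⟩ := exists_locus hcd
  rw [← hF]
  refine ⟨⟨H, hH0, reg_two hχ hcd hH fun s₀ hn => zmot_mem hχ hR hX hn fun M hM hg => ?_⟩,
    near_one_two hχ hcd hR hX hst⟩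
  obtain ⟨i, hi, hm⟩ := hst M hM
  exact hn (gd_strs hχ hcd i hi (by rw [hm]; exact hg))

end TV
end MotMono
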