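import Pool.Agent.Lib.MP_4e5fcd_ag.TV.V0
import Pool.Agent.Lib.MP_4e5fcd_ag.CN.L5

/-!
# TV-V5: products of linear forms: uniform regularity

The same as CN/L3 and CN/L5.
-/

open MvPolynomial

namespace MotMono
namespace TV

open CN

private theorem v5_constr {J : Type} [Fintype J] {N : ℕ} {σ : Type} (lam : J → Fin N → ℂ)
    (K : Set J) : Constr {z : σ ⊕ Fin N → ℂ | van lam (fun i => z (Sum.inr i)) = K} := by
  classical
  have e : {z : σ ⊕ Fin N → ℂ | van lam (fun i => z (Sum.inr i)) = K} =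
      ⋂ i : J, {z : σ ⊕ Fin N → ℂ | (fun j => z (Sum.inr j)) ∈
        (if i ∈ K then {x | eval x (linForm (lam i)) = 0} else {x | eval x (linForm (lam i)) ≠ 0} :
          Set (Fin N → ℂ))} := by
    ext z
    rw [Set.mem_ofPred_eq, Set.mem_iInter, Set.ext_iff]
    refine forall_congr' fun i => ?_
    unfold van
    by_cases hi : i ∈ K
    · simp only [hi, if_true, Set.mem_ofPred_eq, eval_linForm, iff_true]
    · simp only [hi, if_false, Set.mem_ofPred_eq, eval_linForm, iff_false, ne_eq]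
  rw [e]
  refine constr_iInter fun i => ?_
  refine Constr.comp ?_ Sum.inr
  by_cases hi : i ∈ K
  · rw [if_pos hi]
    exact Constr.zeroSet _
  · rw [if_neg hi]
    exact constr_ne _

private theorem v5_reg {J G : Type} [Fintype J] [Fintype G] [Nonempty G] {N : ℕ} {χ : K0 →+* ℤ}
    (hχ : IsEulerCharF χ) (s₀ : ℚ) (lam : J → Fin N → ℂ) (hlam : ∀ i, lam i ≠ 0)
    (W : G → J → ℕ) (U : G → MvPolynomial (Fin N) ℂ) (hU : ∀ g, eval 0 (U g) ≠ 0)
    (hs : ¬ CN.Near χ (LI lam W U) 0 (expo s₀)) : UReg s₀ (LI lam W U) (∏ g, U g) := by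
  classical
  -- one stratum
  have hstr : ∀ K : Set J, ∃ D ∈ Den s₀, ∃ K' : ℕ, ∀ (σ : Type) [Finite σ]
      (Γ : Set (σ ⊕ Fin N → ℂ)), Constr Γ →
      (∀ z ∈ Γ, eval (fun i => z (Sum.inr i)) (∏ g, U g) ≠ 0) →
      UBd D K' (Zf (LI lam W U) (Γ ∩ {z | van lam (fun i => z (Sum.inr i)) = K})) := by
    intro K
    by_cases hK : ∃ p, van lam p = K
    · obtain ⟨p, hp⟩ := hK
      have h1 : Zmot (LI lam (res W K) fun _ => 1) ∈ polarRing s₀ := by
        by_contra hcon
        apply hs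
        subst hp
        refine near_of_van hχ lam W U hU p _ ?_
        intro ε hε
        obtain ⟨q, hq, -, y, hy, Z, hZ, hZP⟩ := LF.glob_main lam hlam
          (res W (van lam p)) (fun _ => 1) (fun g => by simp) _ rfl s₀ hcon hχ ε hε
        exact ⟨q, by rwa [sub_zero], vis_of_cone y hy Z hZ hZP⟩
      obtain ⟨D, hD, K', hK'⟩ := exists_ubd h1
      refine ⟨D, hD, K', fun σ _ Γ hΓ hne => ?_⟩
      have hU' : ∀ z ∈ Γ, ∀ g, eval (fun i => z (Sum.inr i)) (U g) ≠ 0 := by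
        intro z hz g
        have h1 := hne z hz
        rw [map_prod, Finset.prod_ne_zero_iff] at h1
        exact h1 g (Finset.mem_univ g)
      rw [Zf_van lam W U K (hΓ.inter (v5_constr lam K)) (fun z hz => hU' z hz.1) fun z hz => hz.2]
      exact ubd_C _ hK'
    · refine ⟨1, den_one s₀, 0, fun σ _ Γ hΓ hne => ?_⟩
      have e : Γ ∩ {z | van lam (fun i => z (Sum.inr i)) = K} = ∅ := by
        rw [Set.eq_empty_iff_forall_notMem]
        rintro z ⟨-, hz⟩
        exact hK ⟨_, hz⟩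
      rw [e, Zf_empty]
      exact ubd_zero _ _
  -- finite union of strata
  have hfin : ∀ T : Finset (Set J), ∃ D ∈ Den s₀, ∃ K' : ℕ, ∀ (σ : Type) [Finite σ]
      (Γ : Set (σ ⊕ Fin N → ℂ)), Constr Γ →
      (∀ z ∈ Γ, eval (fun i => z (Sum.inr i)) (∏ g, U g) ≠ 0) →
      UBd D K' (Zf (LI lam W U) (Γ ∩ {z | van lam (fun i => z (Sum.inr i)) ∈ T})) := by
    intro T
    induction T using Finset.induction_on with
    | empty =>
      refine ⟨1, den_one s₀, 0, fun σ _ Γ hΓ hne => ?_⟩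
      have e : Γ ∩ {z : σ ⊕ Fin N → ℂ | van lam (fun i => z (Sum.inr i)) ∈
          (∅ : Finset (Set J))} = ∅ := by
        ext z
        simp
      rw [e, Zf_empty]
      exact ubd_zero _ _
    | insert K T hK ih =>
      obtain ⟨D', hD', K', hK'⟩ := ih
      obtain ⟨D, hD, K0, hK0⟩ := hstr K
      obtain ⟨k, hk⟩ := den_deg hD
      obtain ⟨k', hk'⟩ := den_deg hD'
      refine ⟨D' * D, den_mul hD' hD, k' + K0 + (k + K'), fun σ _ Γ hΓ hne => ?_⟩
      have e : Γ ∩ {z : σ ⊕ Fin N → ℂ | van lam (fun i => z (Sum.inr i)) ∈ insert K T} =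
          (Γ ∩ {z | van lam (fun i => z (Sum.inr i)) = K}) ∪
          (Γ ∩ {z | van lam (fun i => z (Sum.inr i)) ∈ T}) := by
        ext z
        simp only [Set.mem_inter_iff, Set.mem_union, Set.mem_ofPred_eq, Finset.mem_insert]
        tauto
      have hT : Constr {z : σ ⊕ Fin N → ℂ | van lam (fun i => z (Sum.inr i)) ∈ T} := by
        have e2 : {z : σ ⊕ Fin N → ℂ | van lam (fun i => z (Sum.inr i)) ∈ T} =
            ⋃ K ∈ T, {z | van lam (fun i => z (Sum.inr i)) = K} := by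
          ext z
          simp
        rw [e2]
        exact constr_biUnion T fun K _ => v5_constr lam K
      rw [e, Zf_union _ (hΓ.inter (v5_constr lam K)) (hΓ.inter hT)]
      · refine ubd_add ?_ ?_
        · exact ubd_mono (by omega) (ubd_den hk' (hK0 σ Γ hΓ hne))
        · rw [mul_comm D' D]
          exact ubd_mono (by omega) (ubd_den hk (hK' σ Γ hΓ hne))
      · rw [Set.disjoint_left]
        rintro z ⟨_, h1⟩ ⟨_, h2⟩
        rw [Set.mem_ofPred_eq] at h1 h2
        rw [h1] at h2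
        exact hK h2
  obtain ⟨D, hD, K, hK⟩ := hfin Finset.univ
  refine ⟨D, hD, K, fun σ _ Γ hΓ hne => ?_⟩
  have h := hK σ Γ hΓ hne
  have e : Γ ∩ {z : σ ⊕ Fin N → ℂ | van lam (fun i => z (Sum.inr i)) ∈
      (Finset.univ : Finset (Set J))} = Γ := by
    ext z
    simp
  rwa [e] at h

theorem ugood_lin {N : ℕ} {χ : K0 →+* ℤ} (hχ : IsEulerCharF χ) (s₀ : ℚ)
    (P : Set (MvPolynomial (Fin N) ℂ)) (hP : ∀ f ∈ P, IsProdLin f) (h0 : ∃ f ∈ P, f ≠ 0)
    (h1 : ∀ f ∈ P, eval 0 f = 0) : UGood χ s₀ (Ideal.span P) 0 := by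
  obtain ⟨J, G, _, _, _, lam, W, U, hlam, hU, hW, hI⟩ := lin_data P hP h0 h1
  rw [hI]
  constructor
  · by_cases hn : CN.Near χ (LI lam W U) 0 (expo s₀)
    · exact Or.inl hn
    · refine Or.inr ⟨∏ g, U g, ?_, v5_reg hχ s₀ lam hlam W U hU hn⟩
      rw [map_prod]
      exact Finset.prod_ne_zero_iff.2 fun g _ => hU g
  · obtain ⟨p, hp, hq⟩ := exists_minimal lam W hW
    exact near_of_van hχ lam W U hU p 1 (near_one_iso hχ lam hlam W _ hp hq)

end TV
end MotMono
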