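import Pool.Agent.Lib.MP_4e5fcd_ag.TV.V1
import Pool.Agent.Lib.MP_4e5fcd_ag.TV.V5
import Pool.Agent.Lib.MP_4e5fcd_ag.TV.E6

/-!
# TV-V6: ideals in two variables: uniform regularity

The same as TV-E5 (`reg_two`) and TV-E6 (`good_two`).
-/

open MvPolynomial

namespace MotMono
namespace TV

open CN

/-- finitely many elements of `T` have the same zeros as `T` -/
private theorem v6_cover {N : ℕ} (T : Set (MvPolynomial (Fin N) ℂ)) :
    ∃ S : Finset (MvPolynomial (Fin N) ℂ), (∀ h ∈ S, h ∈ T) ∧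
      ∀ x : Fin N → ℂ, (∃ h ∈ T, eval x h ≠ 0) → ∃ h ∈ S, eval x h ≠ 0 := by
  classical
  obtain ⟨P', hP', hspan⟩ := (Submodule.fg_span_iff_fg_span_finset_subset T).1
    (IsNoetherian.noetherian (Submodule.span (MvPolynomial (Fin N) ℂ) T))
  refine ⟨P', fun h hh' => hP' hh', fun x hx => ?_⟩
  obtain ⟨g, hg, hgx⟩ := hx
  by_contra hcon
  push Not at hcon
  have h2 : Ideal.span (P' : Set (MvPolynomial (Fin N) ℂ)) ≤ RingHom.ker (eval x) := by
    rw [Ideal.span_le]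
    exact fun g hg => hcon g hg
  have h3 : g ∈ Ideal.span (P' : Set (MvPolynomial (Fin N) ℂ)) := by
    have h4 : g ∈ Ideal.span T := Ideal.subset_span hg
    have h5 : Ideal.span T = Ideal.span (P' : Set (MvPolynomial (Fin N) ℂ)) := hspan
    rwa [h5] at h4
  exact hgx (h2 h3)

private theorem v6_constr_zero {N : ℕ} {σ : Type} :
    Constr {z : σ ⊕ Fin N → ℂ | ∀ i, z (Sum.inr i) = 0} := by
  have h := (constr_singleton (0 : Fin N → ℂ)).comp (Sum.inr : Fin N → σ ⊕ Fin N)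
  have e : {x : σ ⊕ Fin N → ℂ | (fun j => x (Sum.inr j)) ∈ ({0} : Set (Fin N → ℂ))} =
      {z : σ ⊕ Fin N → ℂ | ∀ i, z (Sum.inr i) = 0} := by
    ext z
    rw [Set.mem_ofPred_eq, Set.mem_singleton_iff, Set.mem_ofPred_eq, funext_iff]
    rfl
  rwa [e] at h

private theorem v6_pow {χ : K0 →+* ℤ} (hχ : IsEulerCharF χ) (s₀ : ℚ) {m : ℕ} (hm : 0 < m) :
    UGood χ s₀ (Xm m) 0 := by
  unfold Xm
  refine ugood_lin hχ s₀ {X 0 ^ m} ?_ ⟨_, rfl, pow_ne_zero _ (X_ne_zero 0)⟩ ?_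
  · rintro _ rfl
    refine ⟨1, m, fun _ _ => 1, ?_, ?_⟩
    · rw [map_one]
      exact one_ne_zero
    · simp
  · rintro _ rfl
    rw [map_pow, eval_X, Pi.zero_apply, zero_pow hm.ne']

private theorem v6_zero {r s : ℕ} {F : Fin r → P2}
    {p : Fin s → P2} {m : Fin s → ℕ} {J : Fin r → P2} (h : CD F p m J) {q : Fin 2 → ℂ}
    (hF : ∀ j, eval q (F j) = 0) (hJ : ∃ j, eval q (J j) ≠ 0) : ∃ i, eval q (p i) = 0 := by
  obtain ⟨j, hj⟩ := hJ
  have h1 := hF j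
  rw [h.eq j, map_mul, map_prod] at h1
  rcases mul_eq_zero.1 h1 with h2 | h2
  · obtain ⟨i, -, h3⟩ := Finset.prod_eq_zero_iff.1 h2
    rw [map_pow] at h3
    exact ⟨i, pow_eq_zero_iff (h.pos i).ne' |>.1 h3⟩
  · exact absurd h2 hj

private theorem v6_curve {χ : K0 →+* ℤ} (hχ : IsEulerCharF χ) (s₀ : ℚ) {r s : ℕ}
    {F : Fin r → P2} {p : Fin s → P2} {m : Fin s → ℕ} {J : Fin r → P2} (h : CD F p m J)
    (q : Fin 2 → ℂ) (hF : ∀ j, eval q (F j) = 0)
    (hJ : ∃ j, eval q (J j) ≠ 0) (ht : ∃ f ∈ tj (∏ l, p l), eval q f ≠ 0) :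
    UGood χ s₀ (Ideal.span (Set.range F)) q := by
  obtain ⟨i, hi⟩ := v6_zero h hF hJ
  exact ugood_of_locPull hχ s₀ _ q _ (locPull_curve h q i hi hJ ht) (v6_pow hχ s₀ (h.pos i))

private theorem v6_reg {χ : K0 →+* ℤ} (hχ : IsEulerCharF χ) {s₀ : ℚ} {r s : ℕ} {F : Fin r → P2}
    {p : Fin s → P2} {m : Fin s → ℕ} {J : Fin r → P2} (h : CD F p m J) {H : P2}
    (hH : ∀ q : Fin 2 → ℂ, eval q H ≠ 0 → q ≠ 0 →
      (∃ j, eval q (J j) ≠ 0) ∧ (∃ f ∈ tj (∏ l, p l), eval q f ≠ 0) ∧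
        ∀ i, eval 0 (p i) ≠ 0 → eval q (p i) ≠ 0)
    (hs : ¬ CN.Near χ (Ideal.span (Set.range F)) 0 (expo s₀))
    (hz : Zmot (Ideal.span (Set.range F)) ∈ polarRing s₀) :
    UReg s₀ (Ideal.span (Set.range F)) H := by
  classical
  obtain ⟨S, hS1, hS2⟩ := v6_cover {g : P2 | UReg s₀ (Ideal.span (Set.range F)) g}
  obtain ⟨D, hD, K, hK⟩ := ubd_cover (Ideal.span (Set.range F)) S fun h hh => hS1 h hh
  obtain ⟨D', hD', K', hK'⟩ := exists_ubd hz
  obtain ⟨k, hk⟩ := den_deg hD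
  obtain ⟨k', hk'⟩ := den_deg hD'
  refine ⟨D' * D, den_mul hD' hD, k' + K + (k + K'), fun σ _ Γ hΓ hne => ?_⟩
  have hA := v6_constr_zero (N := 2) (σ := σ)
  have e : Γ = (Γ ∩ {z | ∀ i, z (Sum.inr i) = 0}) ∪ (Γ \ {z | ∀ i, z (Sum.inr i) = 0}) :=
    (Set.inter_union_sdiff _ _).symm
  rw [e, Zf_union _ (hΓ.inter hA) (hΓ.diff hA) (Set.disjoint_sdiff_inter.symm)]
  refine ubd_add ?_ ?_
  · rw [Zf_zero _ (hΓ.inter hA) fun z hz => hz.2, mul_comm D' D]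
    exact ubd_mono (by omega) (ubd_den hk (ubd_C _ hK'))
  · refine ubd_mono (by omega) (ubd_den hk' (hK σ _ (hΓ.diff hA) ?_))
    rintro z ⟨hz1, hz2⟩
    rw [Set.mem_ofPred_eq] at hz2
    push Not at hz2
    obtain ⟨i, hi⟩ := hz2
    have hq := hne z hz1
    refine hS2 _ ?_
    set q : Fin 2 → ℂ := fun i => z (Sum.inr i) with hqdef
    have hq0 : q ≠ 0 := fun h0 => hi (congrFun h0 i)
    by_cases hF : ∀ j, eval q (F j) = 0
    · obtain ⟨hJ, ht, -⟩ := hH q hq hq0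
      rcases (v6_curve hχ s₀ h q hF hJ ht).1 with hn | ⟨g, hg, hr⟩
      · exact absurd (near_of_near hχ h hH q hq hq0 hn) hs
      · exact ⟨g, hr, hg⟩
    · push Not at hF
      obtain ⟨j, hj⟩ := hF
      refine ⟨F j, ?_, hj⟩
      refine ⟨1, den_one s₀, 0, fun τ _ Γ' hΓ' hne' => ?_⟩
      have hoff : ∀ z ∈ Γ', ∃ f ∈ Ideal.span (Set.range F),
          eval (fun i => z (Sum.inr i)) f ≠ 0 :=
        fun z hz => ⟨F j, Ideal.subset_span ⟨j, rfl⟩, hne' z hz⟩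
      rw [Zf_off _ hΓ' hoff]
      exact ubd_const (fun k hk => by rw [PowerSeries.coeff_one, if_neg (by omega)]) _

/-- **Ideals in two variables.** -/
theorem ugood_two {χ : K0 →+* ℤ} (hχ : IsEulerCharF χ) (s₀ : ℚ) (G : Ideal P2) (hG : G ≠ ⊥)
    (h0 : ∀ f ∈ G, eval 0 f = 0) : UGood χ s₀ G 0 := by
  have hgood := good_two hχ G hG h0
  obtain ⟨S, hS⟩ := (isNoetherianRing_iff_ideal_fg P2).1 inferInstance G
  let F : Fin S.card → P2 := fun j => (S.equivFin.symm j : P2)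
  have hF : Ideal.span (Set.range F) = G := by
    rw [← hS]
    congr 1
    ext f
    constructor
    · rintro ⟨j, rfl⟩
      exact (S.equivFin.symm j).2
    · intro hf
      exact ⟨S.equivFin ⟨f, hf⟩, by simp [F]⟩
  have hF0 : ∃ j, F j ≠ 0 := by
    by_contra hn
    push Not at hn
    apply hG
    rw [← hF, Ideal.span_eq_bot]
    rintro f ⟨j, rfl⟩
    exact hn j
  obtain ⟨s, p, m, J, hcd⟩ := exists_cd F hF0
  obtain ⟨H, hH0, hH⟩ := exists_locus hcd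
  refine ⟨?_, hgood.2⟩
  by_cases hn : CN.Near χ G 0 (expo s₀)
  · exact Or.inl hn
  · right
    have hz : Zmot G ∈ polarRing s₀ := by
      obtain ⟨g, hg, hr⟩ := hgood.1
      have h1 := hr s₀ hn Empty ({0} : Set (Empty ⊕ Fin 2 → ℂ)) (constr_singleton 0) (by
        intro z hz
        rw [Set.mem_singleton_iff] at hz
        subst hz
        exact hg)
      rw [Zf_zero G (constr_singleton 0) (by
        intro z hz i
        rw [Set.mem_singleton_iff] at hz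
        subst hz
        rfl), cls_singleton, map_one, map_one, one_mul] at h1
      exact h1
    rw [← hF] at hn hz ⊢
    exact ⟨H, hH0, v6_reg hχ hcd hH hn hz⟩

end TV
end MotMono
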