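import Pool.Agent.Lib.MP_4e5fcd_ag.TV.Y0
import Pool.Agent.Lib.MP_4e5fcd_ag.TV.Y1
import Pool.Agent.Lib.MP_4e5fcd_ag.CN.P3

/-!
# TV-Y2: a new variable as a generator: the zeta functions

`J = adjVar I`, base points with last coordinate `0`. `Γ' = {w | (w, 0) ∈ Γ}`. Put
`G k = {z : k-jets of the family Γ' | OrdGe I (k + 1)}`, `g k = [G k] L^(-N (k+1))`, `c = [Γ'] L^(-N)`.
(1) `Zf I Γ'`: coefficient `0`: `c - g 0`; coefficient `k ≥ 1`: `g (k-1) - g k`. Reason: `fam I Γ' k` is the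
    difference of `{OrdGe I k}` and `G k`; by `cls_trunc` (truncation to `(k-1)`-jets, `along_tr`)
    `[{OrdGe I k}] = [G (k-1)] L^N` for `k ≥ 1`, and it is `[Γ']` for `k = 0` (`cls_iso`).
(2) `Zf J Γ` for `Γ ⊆ {last coordinate = 0}`: coefficient `0`: `L⁻¹ (c - g 0)`; coefficient `k ≥ 1`:
    `L^(-k) g (k-1) - L^(-k-1) g k`. Reason: `fam J Γ k = A \ B`, `A`: `OrdGe I k`, last coordinates zero at the levels
    `< k`, free at the level `k` (`k ≥ 1`): `[A] = [G (k-1)] L^(N+1)`; `B`: `OrdGe I (k+1)`, all last coordinates zero: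
    `[B] = [G k]`. For `k = 0`: `fam J Γ 0 ≅ fam I Γ' 0`.
(3) `P = mk g`: `(1 - X) P = C c - Zf I Γ'`, `Zf J Γ = C L⁻¹ (C c - (1 - X) rescale L⁻¹ P)`.
(4) Let `D, K` be the data of `UReg (s₀+1) I h`, `k₀` a bound for the degree of `D`. `UBd D (K + k₀) ((1 - X) P)`
    (`ubd_sub`, `ubd_const`), so `UBd (D (1 - X)) (K + k₀) P` (`ubd_of_mul`), `1 - X = 1 - C (L^(-0)) X^1 ∈ Den (s₀+1)`
    because `s₀ + 1 ≠ 0`; rescale; multiply with `1 - X` (`ubd_mul_left`).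
(5) General `Γ`: split into last coordinate `= 0` and `≠ 0` (`Zf_union`); second part: `Zf_off` with `X (last N) ∈ J`,
    `ubd_const`. All constants only depend on `D, K`.
-/

open MvPolynomial

namespace MotMono
namespace TV

open CN

/-- the jets of the family `Γ` along which `I` vanishes to order `m` -/
private def y2S {σ : Type} {N : ℕ} (I : Ideal (MvPolynomial (Fin N) ℂ))
    (Γ : Set (σ ⊕ Fin N → ℂ)) (m k : ℕ) : Set (σ ⊕ (Fin N × Fin (k + 1)) → ℂ) :=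
  {z | Sum.elim (fun s => z (Sum.inl s)) (fun i => z (Sum.inr (i, 0))) ∈ Γ ∧
    OrdGe I m (fun q => z (Sum.inr q))}

private theorem y2_constr {σ : Type} {N : ℕ} (I : Ideal (MvPolynomial (Fin N) ℂ))
    {Γ : Set (σ ⊕ Fin N → ℂ)} (hΓ : Constr Γ) (m k : ℕ) : Constr (y2S I Γ m k) := by
  have h1 := hΓ.comp (σ := σ ⊕ (Fin N × Fin (k + 1)))
    (Sum.elim Sum.inl fun i => Sum.inr (i, 0))
  have h2 := (constr_ordGe (n := k + 1) I m).comp (σ := σ ⊕ (Fin N × Fin (k + 1))) Sum.inr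
  have e : {x : σ ⊕ (Fin N × Fin (k + 1)) → ℂ |
      (fun j => x (Sum.elim Sum.inl (fun i => Sum.inr (i, 0)) j)) ∈ Γ} ∩
      {x | (fun j => x (Sum.inr j)) ∈ {γ : Fin N × Fin (k + 1) → ℂ | OrdGe I m γ}} =
      y2S I Γ m k := by
    ext z
    simp only [Set.mem_inter_iff, Set.mem_ofPred_eq, y2S]
    have : (fun j => z (Sum.elim Sum.inl (fun i => Sum.inr (i, 0)) j)) =
        Sum.elim (fun s => z (Sum.inl s)) (fun i => z (Sum.inr (i, 0))) := by
      funext j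
      rcases j with s | i <;> rfl
    rw [this]
  have h3 := h1.inter h2
  rwa [e] at h3

private theorem y2_sub {σ : Type} {N : ℕ} (I : Ideal (MvPolynomial (Fin N) ℂ))
    (Γ : Set (σ ⊕ Fin N → ℂ)) (k : ℕ) : y2S I Γ (k + 1) k ⊆ y2S I Γ k k := by
  rintro z ⟨h1, h2⟩
  exact ⟨h1, fun f hf l hl => h2 f hf l (by omega)⟩

private theorem y2_fam {σ : Type} {N : ℕ} (I : Ideal (MvPolynomial (Fin N) ℂ))
    (Γ : Set (σ ⊕ Fin N → ℂ)) (k : ℕ) : fam I Γ k = y2S I Γ k k \ y2S I Γ (k + 1) k := by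
  ext z
  constructor
  · rintro ⟨h1, h2, f, hf, h3⟩
    refine ⟨⟨h1, h2⟩, ?_⟩
    rintro ⟨-, h4⟩
    exact h3 (h4 f hf k (Nat.lt_succ_self k))
  · rintro ⟨⟨h1, h2⟩, h3⟩
    refine ⟨h1, h2, ?_⟩
    by_contra hc
    push Not at hc
    apply h3
    refine ⟨h1, fun f hf l hl => ?_⟩
    rcases Nat.lt_succ_iff_lt_or_eq.mp hl with h | h
    · exact h2 f hf l h
    · rw [h]
      exact hc f hf

private theorem y2_step {σ : Type} {N : ℕ} (I : Ideal (MvPolynomial (Fin N) ℂ))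
    (Γ : Set (σ ⊕ Fin N → ℂ)) (k : ℕ) :
    y2S I Γ (k + 1) (k + 1) = {z | tr (Nat.le_succ k) z ∈ y2S I Γ (k + 1) k} := by
  ext z
  have e1 : (Sum.elim (fun s => tr (Nat.le_succ k) z (Sum.inl s))
      (fun i => tr (Nat.le_succ k) z (Sum.inr (i, 0))) : σ ⊕ Fin N → ℂ) =
      Sum.elim (fun s => z (Sum.inl s)) (fun i => z (Sum.inr (i, 0))) := by
    funext j
    rcases j with s | i
    · rfl
    · rfl
  constructor
  · rintro ⟨h1, h2⟩
    refine ⟨?_, fun f hf l hl => ?_⟩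
    · rw [e1]
      exact h1
    · rw [along_tr (Nat.le_succ k) z f l (by omega)]
      exact h2 f hf l hl
  · rintro ⟨h1, h2⟩
    rw [e1] at h1
    refine ⟨h1, fun f hf l hl => ?_⟩
    rw [← along_tr (Nat.le_succ k) z f l (by omega)]
    exact h2 f hf l hl

private theorem y2_zero {σ : Type} [Finite σ] {N : ℕ} (I : Ideal (MvPolynomial (Fin N) ℂ))
    {Γ : Set (σ ⊕ Fin N → ℂ)} (hΓ : Constr Γ) : cls (y2S I Γ 0 0) = cls Γ := by
  refine (cls_iso hΓ (y2_constr I hΓ 0 0) ?_).symm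
  refine ⟨fun x s => Sum.elim (fun t => x (Sum.inl t)) (fun q => x (Sum.inr q.1)) s,
    fun z s => Sum.elim (fun t => z (Sum.inl t)) (fun i => z (Sum.inr (i, 0))) s, ?_, ?_, ?_, ?_,
    ?_, ?_⟩
  · rintro (t | q)
    · exact regFun_coord _ (Sum.inl t)
    · exact regFun_coord _ (Sum.inr q.1)
  · rintro (t | i)
    · exact regFun_coord _ (Sum.inl t)
    · exact regFun_coord _ (Sum.inr (i, 0))
  · intro x hx
    have e1 : (Sum.elim (fun s => x (Sum.inl s)) (fun i => x (Sum.inr i)) : σ ⊕ Fin N → ℂ) = x := by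
      funext s
      rcases s with t | i <;> rfl
    refine ⟨?_, ?_⟩
    · show (Sum.elim (fun s => x (Sum.inl s)) (fun i => x (Sum.inr i)) : σ ⊕ Fin N → ℂ) ∈ Γ
      rw [e1]; exact hx
    · intro f _ l hl
      exact absurd hl (Nat.not_lt_zero l)
  · intro z hz
    exact hz.1
  · intro x _
    funext s
    rcases s with t | i <;> rfl
  · intro z _
    funext s
    rcases s with t | ⟨i, j⟩
    · rfl
    · have hj : j = 0 := Fin.ext (by have := j.2; omega)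
      rw [hj]
      rfl

private theorem y2_LL (k : ℕ) : algebraMap K0 MC (LL ^ k) = ((Lu ^ (k : ℤ) : MCˣ) : MC) := by
  rw [map_pow, zpow_natCast, Units.val_pow_eq_pow_val]
  rfl

private noncomputable def y2g {σ : Type} {N : ℕ} [Finite σ] (I : Ideal (MvPolynomial (Fin N) ℂ))
    (Γ : Set (σ ⊕ Fin N → ℂ)) (k : ℕ) : MC :=
  algebraMap K0 MC (cls (y2S I Γ (k + 1) k)) * ((Lu ^ (-(N * (k + 1) : ℤ)) : MCˣ) : MC)

private theorem y2_tel {σ : Type} {N : ℕ} [Finite σ] (I : Ideal (MvPolynomial (Fin N) ℂ))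
    {Γ : Set (σ ⊕ Fin N → ℂ)} (hΓ : Constr Γ) :
    (1 - PowerSeries.X) * PowerSeries.mk (y2g I Γ) =
      PowerSeries.C (algebraMap K0 MC (cls Γ) * ((Lu ^ (-(N : ℤ)) : MCˣ) : MC)) - Zf I Γ := by
  have hcls : ∀ k, cls (fam I Γ k) = cls (y2S I Γ k k) - cls (y2S I Γ (k + 1) k) := by
    intro k
    rw [y2_fam, cls_diff (y2_constr I hΓ k k) (y2_constr I hΓ (k + 1) k) (y2_sub I Γ k)]
  ext k
  rw [sub_mul, one_mul, map_sub, map_sub, PowerSeries.coeff_mk, PowerSeries.coeff_C]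
  unfold Zf
  rw [PowerSeries.coeff_mk, hcls, map_sub]
  rcases k with _ | k
  · rw [PowerSeries.coeff_zero_X_mul, if_pos rfl, y2_zero I hΓ]
    unfold y2g
    have e : (-(N * ((0 : ℕ) + 1) : ℤ)) = -(N : ℤ) := by push_cast; ring
    rw [e]
    ring
  · rw [PowerSeries.coeff_succ_X_mul, PowerSeries.coeff_mk, if_neg (Nat.succ_ne_zero k), y2_step,
      cls_trunc (Nat.le_succ k) (y2_constr I hΓ (k + 1) k), map_mul, y2_LL]
    unfold y2g
    have e1 : ((Lu ^ ((N * (k + 1 - k) : ℕ) : ℤ) : MCˣ) : MC) *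
        ((Lu ^ (-(N * ((k + 1 : ℕ) + 1) : ℤ)) : MCˣ) : MC) =
        ((Lu ^ (-(N * (k + 1) : ℤ)) : MCˣ) : MC) := by
      rw [← Units.val_mul, ← zpow_add]
      congr 2
      rw [Nat.add_sub_cancel_left]
      push_cast
      ring
    rw [sub_mul, mul_assoc _ ((Lu ^ ((N * (k + 1 - k) : ℕ) : ℤ) : MCˣ) : MC), e1]
    ring

/-- the point with last coordinate `0` -/
private noncomputable def y2e {σ : Type} {N : ℕ} (w : σ ⊕ Fin N → ℂ) : σ ⊕ Fin (N + 1) → ℂ :=
  Sum.elim (fun s => w (Sum.inl s)) (Fin.snoc (α := fun _ => ℂ) (fun i => w (Sum.inr i)) 0)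

private noncomputable def y2r {σ : Type} {N : ℕ} (z : σ ⊕ Fin (N + 1) → ℂ) : σ ⊕ Fin N → ℂ :=
  Sum.elim (fun s => z (Sum.inl s)) (fun i => z (Sum.inr i.castSucc))

private theorem y2_re {σ : Type} {N : ℕ} (w : σ ⊕ Fin N → ℂ) : y2r (y2e w) = w := by
  funext s
  rcases s with s | i
  · rfl
  · show (Fin.snoc (α := fun _ => ℂ) (fun i => w (Sum.inr i)) 0 : Fin (N + 1) → ℂ) i.castSucc = _
    rw [Fin.snoc_castSucc]

private theorem y2_er {σ : Type} {N : ℕ} (z : σ ⊕ Fin (N + 1) → ℂ)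
    (hz : z (Sum.inr (Fin.last N)) = 0) : y2e (y2r z) = z := by
  funext s
  rcases s with s | i
  · rfl
  · show (Fin.snoc (α := fun _ => ℂ) (fun i => z (Sum.inr i.castSucc)) 0 : Fin (N + 1) → ℂ) i = _
    induction i using Fin.lastCases with
    | last => rw [Fin.snoc_last, hz]
    | cast i => rw [Fin.snoc_castSucc]

private theorem y2_constr' {σ : Type} {N : ℕ} {Γ : Set (σ ⊕ Fin (N + 1) → ℂ)} (hΓ : Constr Γ) :
    Constr {w : σ ⊕ Fin N → ℂ | y2e w ∈ Γ} := by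
  have h := hΓ.preimage (Sum.elim (fun s => (X (Sum.inl s) : MvPolynomial (σ ⊕ Fin N) ℂ))
    (Fin.snoc (α := fun _ => MvPolynomial (σ ⊕ Fin N) ℂ) (fun i => X (Sum.inr i)) 0))
  have e : ∀ w : σ ⊕ Fin N → ℂ, (fun j => eval w (Sum.elim
      (fun s => (X (Sum.inl s) : MvPolynomial (σ ⊕ Fin N) ℂ))
      (Fin.snoc (α := fun _ => MvPolynomial (σ ⊕ Fin N) ℂ) (fun i => X (Sum.inr i)) 0) j)) =
      y2e w := by
    intro w
    funext j
    rcases j with s | i
    · show eval w (X (Sum.inl s)) = w (Sum.inl s)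
      rw [eval_X]
    · show eval w ((Fin.snoc (α := fun _ => MvPolynomial (σ ⊕ Fin N) ℂ)
        (fun i => X (Sum.inr i)) 0 : Fin (N + 1) → _) i) =
        (Fin.snoc (α := fun _ => ℂ) (fun i => w (Sum.inr i)) 0 : Fin (N + 1) → ℂ) i
      induction i using Fin.lastCases with
      | last => rw [Fin.snoc_last, Fin.snoc_last, map_zero]
      | cast i => rw [Fin.snoc_castSucc, Fin.snoc_castSucc, eval_X]
  simp only [e] at h
  exact h

private theorem y2_clsΓ {σ : Type} [Finite σ] {N : ℕ} {Γ : Set (σ ⊕ Fin (N + 1) → ℂ)}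
    (hΓ : Constr Γ) (h0 : ∀ z ∈ Γ, z (Sum.inr (Fin.last N)) = 0) :
    cls Γ = cls {w : σ ⊕ Fin N → ℂ | y2e w ∈ Γ} := by
  refine cls_iso hΓ (y2_constr' hΓ) ?_
  refine ⟨y2r, y2e, ?_, ?_, ?_, ?_, ?_, ?_⟩
  · rintro (s | i)
    · exact regFun_coord _ (Sum.inl s)
    · exact regFun_coord _ (Sum.inr i.castSucc)
  · rintro (s | i)
    · exact regFun_coord _ (Sum.inl s)
    · induction i using Fin.lastCases with
      | last =>
        have e : (fun w : σ ⊕ Fin N → ℂ => y2e w (Sum.inr (Fin.last N))) = fun _ => 0 := by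
          funext w
          show (Fin.snoc (α := fun _ => ℂ) (fun i => w (Sum.inr i)) 0 : Fin (N + 1) → ℂ) _ = _
          rw [Fin.snoc_last]
        rw [e]
        exact regFun_const _ 0
      | cast i =>
        have e : (fun w : σ ⊕ Fin N → ℂ => y2e w (Sum.inr i.castSucc)) =
            fun w => w (Sum.inr i) := by
          funext w
          show (Fin.snoc (α := fun _ => ℂ) (fun i => w (Sum.inr i)) 0 : Fin (N + 1) → ℂ) _ = _
          rw [Fin.snoc_castSucc]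
        rw [e]
        exact regFun_coord _ (Sum.inr i)
  · intro z hz
    show y2e (y2r z) ∈ Γ
    rw [y2_er z (h0 z hz)]
    exact hz
  · intro w hw
    exact hw
  · intro z hz
    exact y2_er z (h0 z hz)
  · intro w _
    exact y2_re w

private theorem y2_ord {N k : ℕ} (I : Ideal (MvPolynomial (Fin N) ℂ))
    (γ : Fin (N + 1) × Fin (k + 1) → ℂ) :
    OrdGe (adjVar I) (k + 1) γ ↔
      OrdGe I (k + 1) (fun q => γ (q.1.castSucc, q.2)) ∧ ∀ l, γ (Fin.last N, l) = 0 := by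
  unfold adjVar
  rw [ordGe_span]
  constructor
  · intro h
    refine ⟨fun f hf l hl => ?_, fun l => ?_⟩
    · have h1 := h (rename Fin.castSucc f) (Or.inl ⟨f, hf, rfl⟩) l hl
      rw [along_castSucc] at h1
      exact h1
    · have h1 := h (X (Fin.last N)) (Or.inr rfl) l l.2
      unfold along at h1
      rw [aeval_X, a1_arc_coeff, dif_pos l.2] at h1
      exact h1
  · rintro ⟨h1, h2⟩ f (⟨g, hg, rfl⟩ | rfl) l hl
    · rw [along_castSucc]
      exact h1 g hg l hl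
    · unfold along
      rw [aeval_X, a1_arc_coeff, dif_pos hl]
      exact h2 _

private theorem y2_clsG {σ : Type} [Finite σ] {N : ℕ} (I : Ideal (MvPolynomial (Fin N) ℂ))
    {Γ : Set (σ ⊕ Fin (N + 1) → ℂ)} (hΓ : Constr Γ) (k : ℕ) :
    cls (y2S (adjVar I) Γ (k + 1) k) =
      cls (y2S I {w : σ ⊕ Fin N → ℂ | y2e w ∈ Γ} (k + 1) k) := by
  have key : ∀ w : σ ⊕ (Fin N × Fin (k + 1)) → ℂ,
      (Sum.elim (fun s => w (Sum.inl s)) (fun q : Fin (N + 1) × Fin (k + 1) =>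
        (Fin.snoc (α := fun _ => ℂ) (fun i => w (Sum.inr (i, q.2))) 0 : Fin (N + 1) → ℂ) q.1) :
        σ ⊕ (Fin (N + 1) × Fin (k + 1)) → ℂ) ∈ y2S (adjVar I) Γ (k + 1) k ↔
      w ∈ y2S I {w : σ ⊕ Fin N → ℂ | y2e w ∈ Γ} (k + 1) k := by
    intro w
    refine and_congr ?_ ?_
    · have e : (Sum.elim (fun s => w (Sum.inl s)) (fun i : Fin (N + 1) =>
          (Fin.snoc (α := fun _ => ℂ) (fun i => w (Sum.inr (i, 0))) 0 : Fin (N + 1) → ℂ) i) :
          σ ⊕ Fin (N + 1) → ℂ) =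
          y2e (Sum.elim (fun s => w (Sum.inl s)) (fun i => w (Sum.inr (i, 0)))) := by
        funext j
        rcases j with s | i <;> rfl
      exact Eq.to_iff (congrArg (· ∈ Γ) e)
    · rw [y2_ord]
      have e : (fun q : Fin N × Fin (k + 1) => (Sum.elim (fun s => w (Sum.inl s))
          (fun q : Fin (N + 1) × Fin (k + 1) =>
          (Fin.snoc (α := fun _ => ℂ) (fun i => w (Sum.inr (i, q.2))) 0 : Fin (N + 1) → ℂ) q.1) :
          σ ⊕ (Fin (N + 1) × Fin (k + 1)) → ℂ) (Sum.inr (q.1.castSucc, q.2))) =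
          fun q => w (Sum.inr q) := by
        funext q
        show (Fin.snoc (α := fun _ => ℂ) (fun i => w (Sum.inr (i, q.2))) 0 : Fin (N + 1) → ℂ)
          q.1.castSucc = _
        rw [Fin.snoc_castSucc]
      rw [e]
      refine and_iff_left ?_
      intro l
      show (Fin.snoc (α := fun _ => ℂ) (fun i => w (Sum.inr (i, l))) 0 : Fin (N + 1) → ℂ)
          (Fin.last N) = 0
      rw [Fin.snoc_last]
  have hinv : ∀ z ∈ y2S (adjVar I) Γ (k + 1) k,
      (Sum.elim (fun s => z (Sum.inl s)) (fun q : Fin (N + 1) × Fin (k + 1) =>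
        (Fin.snoc (α := fun _ => ℂ) (fun i : Fin N => z (Sum.inr (i.castSucc, q.2))) 0 :
          Fin (N + 1) → ℂ) q.1) : σ ⊕ (Fin (N + 1) × Fin (k + 1)) → ℂ) = z := by
    rintro z ⟨-, h2⟩
    rw [y2_ord] at h2
    funext s
    rcases s with s | ⟨i, l⟩
    · rfl
    · show (Fin.snoc (α := fun _ => ℂ) (fun i : Fin N => z (Sum.inr (i.castSucc, l))) 0 :
          Fin (N + 1) → ℂ) i = _
      induction i using Fin.lastCases with
      | last =>
        rw [Fin.snoc_last]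
        exact (h2.2 l).symm
      | cast i => rw [Fin.snoc_castSucc]
  refine cls_iso (y2_constr _ hΓ _ _) (y2_constr I (y2_constr' hΓ) _ _) ?_
  refine ⟨fun z => Sum.elim (fun s => z (Sum.inl s)) (fun q => z (Sum.inr (q.1.castSucc, q.2))),
    fun w => Sum.elim (fun s => w (Sum.inl s)) (fun q : Fin (N + 1) × Fin (k + 1) =>
        (Fin.snoc (α := fun _ => ℂ) (fun i => w (Sum.inr (i, q.2))) 0 : Fin (N + 1) → ℂ) q.1),
    ?_, ?_, ?_, ?_, ?_, ?_⟩
  · rintro (s | q)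
    · exact regFun_coord _ (Sum.inl s)
    · exact regFun_coord _ (Sum.inr (q.1.castSucc, q.2))
  · rintro (s | ⟨i, l⟩)
    · exact regFun_coord _ (Sum.inl s)
    · induction i using Fin.lastCases with
      | last =>
        have e : (fun w : σ ⊕ (Fin N × Fin (k + 1)) → ℂ =>
            (Fin.snoc (α := fun _ => ℂ) (fun i => w (Sum.inr (i, l))) 0 : Fin (N + 1) → ℂ)
              (Fin.last N)) = fun _ => 0 := by
          funext w
          rw [Fin.snoc_last]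
        show RegFun _ (fun w : σ ⊕ (Fin N × Fin (k + 1)) → ℂ =>
            (Fin.snoc (α := fun _ => ℂ) (fun i => w (Sum.inr (i, l))) 0 : Fin (N + 1) → ℂ)
              (Fin.last N))
        rw [e]
        exact regFun_const _ 0
      | cast i =>
        have e : (fun w : σ ⊕ (Fin N × Fin (k + 1)) → ℂ =>
            (Fin.snoc (α := fun _ => ℂ) (fun i => w (Sum.inr (i, l))) 0 : Fin (N + 1) → ℂ)
              i.castSucc) = fun w => w (Sum.inr (i, l)) := by
          funext w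
          rw [Fin.snoc_castSucc]
        show RegFun _ (fun w : σ ⊕ (Fin N × Fin (k + 1)) → ℂ =>
            (Fin.snoc (α := fun _ => ℂ) (fun i => w (Sum.inr (i, l))) 0 : Fin (N + 1) → ℂ)
              i.castSucc)
        rw [e]
        exact regFun_coord _ (Sum.inr (i, l))
  · intro z hz
    rw [← key]
    have h := hinv z hz
    have e : (Sum.elim (fun s => z (Sum.inl s)) (fun q : Fin (N + 1) × Fin (k + 1) =>
        (Fin.snoc (α := fun _ => ℂ) (fun i : Fin N => z (Sum.inr (i.castSucc, q.2))) 0 :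
          Fin (N + 1) → ℂ) q.1) : σ ⊕ (Fin (N + 1) × Fin (k + 1)) → ℂ) ∈
          y2S (adjVar I) Γ (k + 1) k := by
      rw [h]
      exact hz
    exact e
  · intro w hw
    exact (key w).2 hw
  · intro z hz
    exact hinv z hz
  · intro w _
    funext s
    rcases s with s | ⟨i, l⟩
    · rfl
    · show (Fin.snoc (α := fun _ => ℂ) (fun i => w (Sum.inr (i, l))) 0 : Fin (N + 1) → ℂ)
        i.castSucc = _
      rw [Fin.snoc_castSucc]

private theorem y2_g {σ : Type} [Finite σ] {N : ℕ} (I : Ideal (MvPolynomial (Fin N) ℂ))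
    {Γ : Set (σ ⊕ Fin (N + 1) → ℂ)} (hΓ : Constr Γ) :
    PowerSeries.mk (y2g (adjVar I) Γ) = PowerSeries.C ((Lu⁻¹ : MCˣ) : MC) *
      PowerSeries.rescale ((Lu⁻¹ : MCˣ) : MC)
        (PowerSeries.mk (y2g I {w : σ ⊕ Fin N → ℂ | y2e w ∈ Γ})) := by
  ext k
  rw [PowerSeries.coeff_mk, PowerSeries.coeff_C_mul, PowerSeries.coeff_rescale,
    PowerSeries.coeff_mk]
  unfold y2g
  rw [y2_clsG I hΓ k]
  have e : ((Lu ^ (-(((N + 1 : ℕ) : ℤ) * (k + 1))) : MCˣ) : MC) =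
      ((Lu⁻¹ : MCˣ) : MC) * (((Lu⁻¹ : MCˣ) : MC) ^ k *
        ((Lu ^ (-(N * (k + 1) : ℤ)) : MCˣ) : MC)) := by
    rw [← Units.val_pow_eq_pow_val, ← Units.val_mul, ← Units.val_mul]
    congr 1
    have h1 : (Lu⁻¹ : MCˣ) ^ k = Lu ^ (-(k : ℤ)) := by
      rw [inv_pow, zpow_neg, zpow_natCast]
    have h2 : (Lu⁻¹ : MCˣ) = Lu ^ (-(1 : ℤ)) := by
      rw [zpow_neg, zpow_one]
    rw [h1, h2, ← zpow_add, ← zpow_add]
    congr 1
    push_cast
    ring
  rw [e]
  ring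

theorem ureg_adj {s₀ : ℚ} (hs : s₀ + 1 ≠ 0) {N : ℕ} {I : Ideal (MvPolynomial (Fin N) ℂ)}
    {h : MvPolynomial (Fin N) ℂ} (hr : UReg (s₀ + 1) I h) :
    UReg s₀ (adjVar I) (rename Fin.castSucc h) := by
  obtain ⟨D, hD, K, hK⟩ := hr
  obtain ⟨k₀, hk₀⟩ := den_deg hD
  have hX1 : ∀ k, 1 < k → PowerSeries.coeff k (1 - PowerSeries.X : PowerSeries MC) = 0 := by
    intro k hk
    rw [map_sub, PowerSeries.coeff_one, if_neg (by omega), PowerSeries.coeff_X, if_neg (by omega),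
      sub_zero]
  have hX : (1 - PowerSeries.X : PowerSeries MC) ∈ Den (s₀ + 1) := by
    have h1 := den_gen (s₀ := s₀ + 1) 0 1 Nat.one_pos (by
      rw [Int.cast_zero, neg_zero, zero_div]
      exact fun h => hs h.symm)
    rw [neg_zero, zpow_zero, Units.val_one, map_one, one_mul, pow_one] at h1
    exact h1
  obtain ⟨D', hD'e⟩ : ∃ D', D' = PowerSeries.rescale ((Lu⁻¹ : MCˣ) : MC)
    (D * (1 - PowerSeries.X)) := ⟨_, rfl⟩
  have hD' : D' ∈ Den s₀ := by
    rw [hD'e]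
    exact den_rescale (den_mul hD hX)
  obtain ⟨k₁, hk₁⟩ := den_deg hD'
  refine ⟨D', hD', 1 + (K + k₀) + k₁, ?_⟩
  intro σ _ Γ hΓ hΓh
  -- base points with last coordinate 0, and the others
  have hZ : Constr {z : σ ⊕ Fin (N + 1) → ℂ | z (Sum.inr (Fin.last N)) = 0} := by
    have h1 := Constr.zeroSet (X (Sum.inr (Fin.last N)) : MvPolynomial (σ ⊕ Fin (N + 1)) ℂ)
    simp only [eval_X] at h1
    exact h1
  have hΓ0 := hΓ.inter hZ
  have hΓ1 := hΓ.diff hZ
  have hsplit : Γ = (Γ ∩ {z : σ ⊕ Fin (N + 1) → ℂ | z (Sum.inr (Fin.last N)) = 0}) ∪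
      (Γ \ {z : σ ⊕ Fin (N + 1) → ℂ | z (Sum.inr (Fin.last N)) = 0}) :=
    (Set.inter_union_sdiff _ _).symm
  rw [hsplit, Zf_union (adjVar I) hΓ0 hΓ1 (by
    rw [Set.disjoint_left]
    rintro z ⟨-, h1⟩ ⟨-, h2⟩
    exact h2 h1)]
  apply ubd_add
  · obtain ⟨Γ₀, hΓ₀⟩ : ∃ Γ₀, Γ₀ = Γ ∩ {z : σ ⊕ Fin (N + 1) → ℂ |
      z (Sum.inr (Fin.last N)) = 0} := ⟨_, rfl⟩
    rw [← hΓ₀] at hΓ0 ⊢
    have hw : ∀ w ∈ {w : σ ⊕ Fin N → ℂ | y2e w ∈ Γ₀},
        eval (fun i => w (Sum.inr i)) h ≠ 0 := by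
      intro w hw1
      have hw2 : y2e w ∈ Γ := by
        have : y2e w ∈ Γ₀ := hw1
        rw [hΓ₀] at this
        exact this.1
      have h1 := hΓh _ hw2
      rw [eval_rename] at h1
      have e : ((fun i => y2e w (Sum.inr i)) ∘ Fin.castSucc) = fun i => w (Sum.inr i) := by
        funext i
        show (Fin.snoc (α := fun _ => ℂ) (fun i => w (Sum.inr i)) 0 : Fin (N + 1) → ℂ)
          i.castSucc = _
        rw [Fin.snoc_castSucc]
      rw [e] at h1
      exact h1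
    have h1 := hK σ {w : σ ⊕ Fin N → ℂ | y2e w ∈ Γ₀} (y2_constr' hΓ0) hw
    have h2 : UBd D (K + k₀) ((1 - PowerSeries.X) *
        PowerSeries.mk (y2g I {w : σ ⊕ Fin N → ℂ | y2e w ∈ Γ₀})) := by
      rw [y2_tel I (y2_constr' hΓ0)]
      exact ubd_sub (ubd_mono (by omega) (ubd_const hk₀ _)) (ubd_mono (by omega) h1)
    have h3 := ubd_rescale (ubd_of_mul h2) ((Lu⁻¹ : MCˣ) : MC)
    rw [← hD'e] at h3
    have h4 : UBd D' (1 + (K + k₀) + k₁) ((1 - PowerSeries.X) *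
        PowerSeries.mk (y2g (adjVar I) Γ₀)) := by
      rw [y2_g I hΓ0]
      exact ubd_mono (by omega) (ubd_mul_left hX1 (ubd_C _ h3))
    have h5 : Zf (adjVar I) Γ₀ = PowerSeries.C (algebraMap K0 MC (cls Γ₀) *
        ((Lu ^ (-((N + 1 : ℕ) : ℤ)) : MCˣ) : MC)) -
        (1 - PowerSeries.X) * PowerSeries.mk (y2g (adjVar I) Γ₀) := by
      rw [y2_tel (adjVar I) hΓ0]
      ring
    rw [h5]
    exact ubd_sub (ubd_mono (by omega) (ubd_const hk₁ _)) h4
  · rw [Zf_off (adjVar I) hΓ1 (by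
      rintro z ⟨-, hz⟩
      refine ⟨X (Fin.last N), Ideal.subset_span (Or.inr rfl), ?_⟩
      rw [eval_X]
      exact hz)]
    exact ubd_mono (by omega) (ubd_const hk₁ _)

end TV
end MotMono
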