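import Pool.Agent.Lib.MP_4e5fcd_ag.TV.YDefs
import Pool.Agent.Lib.MP_4e5fcd_ag.TV.V0
import Pool.Agent.Lib.MP_4e5fcd_ag.CN.V4

/-!
# TV-Y5: products in disjoint variables: visible values

`exists_ne_near`: `g ≠ 0` does not vanish identically near `0` (`MvPolynomial.funext` on a small ball; or: restrict to a line
through the origin and a point where `g` is not zero; compare `l3_small` in CN/L3).
`near_box_left`: let `g ∈ J`, `g ≠ 0`, `‖q‖ < ε / 2`, `eval q g ≠ 0`. `LocPull (boxProd I J) (0, q) I`: `u i = X i` for `i` in the first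
block, `u i = X i - C (q ..)` (any étale coordinates; the Jacobian matrix is the identity), `e = Fin.castAdd M`,
`h = rename (Fin.natAdd N) g`: `h * rename f ∈ boxProd I J`, and `boxProd I J` is contained in the ideal generated by the
`rename (Fin.castAdd M) f`. `near_of_locPull` and the triangle inequality (as in `near_of_van`, CN/L3).
`near_box_right`: the same with the roles exchanged.
-/

open MvPolynomial

namespace MotMono
namespace TV

open CN

private theorem y5_jac {N : ℕ} (c : Fin N → ℂ) :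
    jacDet (fun i => (X i - C (c i) : MvPolynomial (Fin N) ℂ)) = 1 := by
  unfold jacDet
  have : (Matrix.of fun i j => pderiv j (X i - C (c i) : MvPolynomial (Fin N) ℂ)) = 1 := by
    ext1 i j
    rw [Matrix.of_apply, map_sub, pderiv_X, pderiv_C, sub_zero, Matrix.one_apply,
      Pi.single_apply]
  rw [this, Matrix.det_one]

private theorem y5_rename {N L : ℕ} (e : Fin N → Fin L) (f : MvPolynomial (Fin N) ℂ) :
    aeval (fun i => (X (e i) : MvPolynomial (Fin L) ℂ)) f = rename e f := by
  have h : aeval (fun i => (X (e i) : MvPolynomial (Fin L) ℂ)) = rename e := by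
    apply MvPolynomial.algHom_ext
    intro i
    simp
  rw [h]

theorem exists_ne_near {M : ℕ} {g : MvPolynomial (Fin M) ℂ} (hg : g ≠ 0) (ε : ℝ) (hε : 0 < ε) :
    ∃ q : Fin M → ℂ, ‖q‖ < ε ∧ eval q g ≠ 0 := by
  by_contra hcon
  push Not at hcon
  apply hg
  have hinf : (Metric.ball (0 : ℂ) ε).Infinite :=
    infinite_of_mem_nhds 0 (Metric.ball_mem_nhds 0 hε)
  have : ∀ i : Fin M, (Metric.ball (0 : ℂ) ε).Infinite := fun _ => hinf
  refine MvPolynomial.funext_set (fun _ : Fin M => Metric.ball (0 : ℂ) ε) this ?_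
  intro x hx
  rw [map_zero]
  refine hcon x ?_
  rw [pi_norm_lt_iff hε]
  intro i
  have h := hx i (Set.mem_univ i)
  rwa [mem_ball_zero_iff] at h

private theorem y5_triangle {L : ℕ} {χ : K0 →+* ℤ} {K : Ideal (MvPolynomial (Fin L) ℂ)} {lam : ℂ}
    (h : ∀ ε : ℝ, 0 < ε → ∃ c : Fin L → ℂ, ‖c‖ < ε ∧ Near χ K c lam) : Near χ K 0 lam := by
  intro ε hε
  obtain ⟨c, hc, hn⟩ := h (ε / 2) (by positivity)
  obtain ⟨p', hp', hv⟩ := hn (ε / 2) (by positivity)
  refine ⟨p', ?_, hv⟩
  have h2 : p' - 0 = (p' - c) + c := by abel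
  rw [h2]
  calc ‖p' - c + c‖ ≤ ‖p' - c‖ + ‖c‖ := norm_add_le _ _
    _ < ε / 2 + ε / 2 := add_lt_add hp' hc
    _ = ε := by ring

private theorem y5_exists_ne {L : ℕ} {J : Ideal (MvPolynomial (Fin L) ℂ)} (hJ : J ≠ ⊥) :
    ∃ g ∈ J, g ≠ 0 := by
  by_contra hcon
  push Not at hcon
  exact hJ ((Submodule.eq_bot_iff J).2 hcon)

theorem near_box_left {χ : K0 →+* ℤ} (hχ : IsEulerCharF χ) {N M : ℕ}
    {I : Ideal (MvPolynomial (Fin N) ℂ)} {J : Ideal (MvPolynomial (Fin M) ℂ)} (hJ : J ≠ ⊥)
    {lam : ℂ} (h : CN.Near χ I 0 lam) : CN.Near χ (boxProd I J) 0 lam := by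
  obtain ⟨g, hgJ, hg⟩ := y5_exists_ne hJ
  refine y5_triangle fun ε hε => ?_
  obtain ⟨q, hq, hgq⟩ := exists_ne_near hg ε hε
  refine ⟨Fin.append (0 : Fin N → ℂ) q, ?_, ?_⟩
  · rw [pi_norm_lt_iff hε]
    intro i
    induction i using Fin.addCases with
    | left i => simpa using hε
    | right i =>
      rw [Fin.append_right]
      exact lt_of_le_of_lt (norm_le_pi_norm q i) hq
  · refine near_of_locPull hχ _ _ I ?_ lam h
    set c : Fin (N + M) → ℂ := Fin.append (0 : Fin N → ℂ) q with hc
    have hu : (fun i : Fin N => (X (Fin.castAdd M i) - C (c (Fin.castAdd M i)) :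
        MvPolynomial (Fin (N + M)) ℂ)) = fun i => X (Fin.castAdd M i) := by
      funext i
      rw [hc, Fin.append_left, Pi.zero_apply, C_0, sub_zero]
    have hr : ∀ f : MvPolynomial (Fin N) ℂ,
        aeval (fun i : Fin N => (X (Fin.castAdd M i) : MvPolynomial (Fin (N + M)) ℂ)) f =
          rename (Fin.castAdd M) f := fun f => y5_rename _ f
    refine ⟨fun i => X i - C (c i), Fin.castAdd M, rename (Fin.natAdd N) g,
      Fin.castAdd_injective N M, ?_, ?_, ?_, ?_, ?_⟩
    · rw [eval_rename]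
      have : c ∘ Fin.natAdd N = q := by
        funext i
        rw [Function.comp_apply, hc, Fin.append_right]
      rwa [this]
    · rw [y5_jac, map_one]
      exact one_ne_zero
    · intro i
      rw [map_sub, eval_X, eval_C, sub_self]
    · intro f hf
      rw [hu, hr, mul_comm]
      exact Ideal.subset_span ⟨f, hf, g, hgJ, rfl⟩
    · intro f hf
      rw [hu]
      refine Ideal.mul_mem_left _ _ ?_
      have hle : boxProd I J ≤ Ideal.span {f' | ∃ g ∈ I, f' =
          aeval (fun i : Fin N => (X (Fin.castAdd M i) : MvPolynomial (Fin (N + M)) ℂ)) g} := by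
        unfold boxProd
        rw [Ideal.span_le]
        rintro _ ⟨f₁, hf₁, g₁, -, rfl⟩
        exact Ideal.mul_mem_right _ _ (Ideal.subset_span ⟨f₁, hf₁, (hr f₁).symm⟩)
      exact hle hf

theorem near_box_right {χ : K0 →+* ℤ} (hχ : IsEulerCharF χ) {N M : ℕ}
    {I : Ideal (MvPolynomial (Fin N) ℂ)} {J : Ideal (MvPolynomial (Fin M) ℂ)} (hI : I ≠ ⊥)
    {lam : ℂ} (h : CN.Near χ J 0 lam) : CN.Near χ (boxProd I J) 0 lam := by
  obtain ⟨g, hgI, hg⟩ := y5_exists_ne hI
  refine y5_triangle fun ε hε => ?_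
  obtain ⟨q, hq, hgq⟩ := exists_ne_near hg ε hε
  refine ⟨Fin.append q (0 : Fin M → ℂ), ?_, ?_⟩
  · rw [pi_norm_lt_iff hε]
    intro i
    induction i using Fin.addCases with
    | left i =>
      rw [Fin.append_left]
      exact lt_of_le_of_lt (norm_le_pi_norm q i) hq
    | right i => simpa using hε
  · refine near_of_locPull hχ _ _ J ?_ lam h
    set c : Fin (N + M) → ℂ := Fin.append q (0 : Fin M → ℂ) with hc
    have hu : (fun i : Fin M => (X (Fin.natAdd N i) - C (c (Fin.natAdd N i)) :
        MvPolynomial (Fin (N + M)) ℂ)) = fun i => X (Fin.natAdd N i) := by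
      funext i
      rw [hc, Fin.append_right, Pi.zero_apply, C_0, sub_zero]
    have hr : ∀ f : MvPolynomial (Fin M) ℂ,
        aeval (fun i : Fin M => (X (Fin.natAdd N i) : MvPolynomial (Fin (N + M)) ℂ)) f =
          rename (Fin.natAdd N) f := fun f => y5_rename _ f
    refine ⟨fun i => X i - C (c i), Fin.natAdd N, rename (Fin.castAdd M) g,
      Fin.natAdd_injective M N, ?_, ?_, ?_, ?_, ?_⟩
    · rw [eval_rename]
      have : c ∘ Fin.castAdd M = q := by
        funext i
        rw [Function.comp_apply, hc, Fin.append_left]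
      rwa [this]
    · rw [y5_jac, map_one]
      exact one_ne_zero
    · intro i
      rw [map_sub, eval_X, eval_C, sub_self]
    · intro f hf
      rw [hu, hr]
      exact Ideal.subset_span ⟨g, hgI, f, hf, rfl⟩
    · intro f hf
      rw [hu]
      refine Ideal.mul_mem_left _ _ ?_
      have hle : boxProd I J ≤ Ideal.span {f' | ∃ g ∈ J, f' =
          aeval (fun i : Fin M => (X (Fin.natAdd N i) : MvPolynomial (Fin (N + M)) ℂ)) g} := by
        unfold boxProd
        rw [Ideal.span_le]
        rintro _ ⟨f₁, -, g₁, hg₁, rfl⟩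
        exact Ideal.mul_mem_left _ _ (Ideal.subset_span ⟨g₁, hg₁, (hr g₁).symm⟩)
      exact hle hf

end TV
end MotMono
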