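import Pool.Agent.Lib.MP_4e5fcd_ag.TV.Y6

/-!
# TV-Y7: products in disjoint variables: the zeta functions

Let `D, K` and `D', K'` be the data of `UReg s₀ I h`, `UReg s₀ J g`. `a i j = a2 I J Γ i j`. By `row_left` and the first hypothesis
`∑_{i' + i'' = i} D_{i'} a_{i'' j} = 0` for `i > K` and all `j`; by `row_right`
`∑_{j' + j'' = j} D'_{j'} a_{i j''} = 0` for `j > K'` and all `i`. The coefficient `n` of `D D' Zf` is
`∑_{i + j = n} c i j`, `c i j = ∑_{i' + i'' = i} ∑_{j' + j'' = j} D_{i'} D'_{j'} a_{i'' j''}`, and `c i j = 0` if `i > K` or `j > K'`.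
So it is `0` for `n > K + K'`. (`box_diag`: pure algebra of power series.)
-/

open MvPolynomial

namespace MotMono
namespace TV

open CN

private theorem y7_t1 (f : ℕ → ℕ → ℕ → MC) (n : ℕ) :
    ∑ p ∈ Finset.HasAntidiagonal.antidiagonal n,
        ∑ q ∈ Finset.HasAntidiagonal.antidiagonal p.2, f p.1 q.1 q.2 =
      ∑ p ∈ Finset.HasAntidiagonal.antidiagonal n,
        ∑ q ∈ Finset.HasAntidiagonal.antidiagonal p.1, f q.1 q.2 p.2 := by
  rw [Finset.sum_sigma', Finset.sum_sigma']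
  refine Finset.sum_nbij' (fun x => ⟨(x.1.1 + x.2.1, x.2.2), (x.1.1, x.2.1)⟩)
    (fun x => ⟨(x.2.1, x.2.2 + x.1.2), (x.2.2, x.1.2)⟩) ?_ ?_ ?_ ?_ ?_
  · rintro ⟨⟨a, b⟩, ⟨c, d⟩⟩ h
    simp only [Finset.mem_sigma, Finset.HasAntidiagonal.mem_antidiagonal] at h ⊢
    obtain ⟨h1, h2⟩ := h
    exact ⟨by omega, trivial⟩
  · rintro ⟨⟨a, b⟩, ⟨c, d⟩⟩ h
    simp only [Finset.mem_sigma, Finset.HasAntidiagonal.mem_antidiagonal] at h ⊢
    obtain ⟨h1, h2⟩ := h
    exact ⟨by omega, trivial⟩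
  · rintro ⟨⟨a, b⟩, ⟨c, d⟩⟩ h
    simp only [Finset.mem_sigma, Finset.HasAntidiagonal.mem_antidiagonal] at h ⊢
    obtain ⟨h1, h2⟩ := h
    subst h2
    rfl
  · rintro ⟨⟨a, b⟩, ⟨c, d⟩⟩ h
    simp only [Finset.mem_sigma, Finset.HasAntidiagonal.mem_antidiagonal] at h ⊢
    obtain ⟨h1, h2⟩ := h
    subst h2
    rfl
  · rintro ⟨⟨a, b⟩, ⟨c, d⟩⟩ h
    rfl

private theorem y7_t2 (f : ℕ → ℕ → ℕ → MC) (n : ℕ) :
    ∑ p ∈ Finset.HasAntidiagonal.antidiagonal n,
        ∑ q ∈ Finset.HasAntidiagonal.antidiagonal p.2, f p.1 q.1 q.2 =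
      ∑ p ∈ Finset.HasAntidiagonal.antidiagonal n,
        ∑ q ∈ Finset.HasAntidiagonal.antidiagonal p.2, f q.1 p.1 q.2 := by
  rw [Finset.sum_sigma', Finset.sum_sigma']
  refine Finset.sum_nbij' (fun x => ⟨(x.2.1, x.1.1 + x.2.2), (x.1.1, x.2.2)⟩)
    (fun x => ⟨(x.2.1, x.1.1 + x.2.2), (x.1.1, x.2.2)⟩) ?_ ?_ ?_ ?_ ?_
  · rintro ⟨⟨a, b⟩, ⟨c, d⟩⟩ h
    simp only [Finset.mem_sigma, Finset.HasAntidiagonal.mem_antidiagonal] at h ⊢
    obtain ⟨h1, h2⟩ := h
    exact ⟨by omega, trivial⟩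
  · rintro ⟨⟨a, b⟩, ⟨c, d⟩⟩ h
    simp only [Finset.mem_sigma, Finset.HasAntidiagonal.mem_antidiagonal] at h ⊢
    obtain ⟨h1, h2⟩ := h
    exact ⟨by omega, trivial⟩
  · rintro ⟨⟨a, b⟩, ⟨c, d⟩⟩ h
    simp only [Finset.mem_sigma, Finset.HasAntidiagonal.mem_antidiagonal] at h ⊢
    obtain ⟨h1, h2⟩ := h
    subst h2
    rfl
  · rintro ⟨⟨a, b⟩, ⟨c, d⟩⟩ h
    simp only [Finset.mem_sigma, Finset.HasAntidiagonal.mem_antidiagonal] at h ⊢
    obtain ⟨h1, h2⟩ := h
    subst h2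
    rfl
  · rintro ⟨⟨a, b⟩, ⟨c, d⟩⟩ h
    rfl

/-- the coefficients of `D * Z` -/
private theorem y7_left {D Z : PowerSeries MC} (a : ℕ → ℕ → MC)
    (hZ : ∀ k, PowerSeries.coeff k Z =
      ∑ p ∈ Finset.HasAntidiagonal.antidiagonal k, a p.1 p.2) (k : ℕ) :
    PowerSeries.coeff k (D * Z) = ∑ p ∈ Finset.HasAntidiagonal.antidiagonal k,
      ∑ q ∈ Finset.HasAntidiagonal.antidiagonal p.1, PowerSeries.coeff q.1 D * a q.2 p.2 := by
  rw [PowerSeries.coeff_mul, ← y7_t1 (fun x y z => PowerSeries.coeff x D * a y z)]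
  refine Finset.sum_congr rfl fun p _ => ?_
  rw [hZ, Finset.mul_sum]

private theorem y7_right {D Z : PowerSeries MC} (a : ℕ → ℕ → MC)
    (hZ : ∀ k, PowerSeries.coeff k Z =
      ∑ p ∈ Finset.HasAntidiagonal.antidiagonal k, a p.1 p.2) (k : ℕ) :
    PowerSeries.coeff k (D * Z) = ∑ p ∈ Finset.HasAntidiagonal.antidiagonal k,
      ∑ q ∈ Finset.HasAntidiagonal.antidiagonal p.2, PowerSeries.coeff q.1 D * a p.1 q.2 := by
  rw [PowerSeries.coeff_mul, ← y7_t2 (fun x y z => PowerSeries.coeff x D * a y z)]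
  refine Finset.sum_congr rfl fun p _ => ?_
  rw [hZ, Finset.mul_sum]

theorem box_diag {D D' Z : PowerSeries MC} {K K' : ℕ} (a : ℕ → ℕ → MC)
    (hZ : ∀ k, PowerSeries.coeff k Z = ∑ p ∈ Finset.HasAntidiagonal.antidiagonal k, a p.1 p.2)
    (h1 : ∀ j i, K < i → ∑ p ∈ Finset.HasAntidiagonal.antidiagonal i, PowerSeries.coeff p.1 D * a p.2 j = 0)
    (h2 : ∀ i j, K' < j → ∑ p ∈ Finset.HasAntidiagonal.antidiagonal j, PowerSeries.coeff p.1 D' * a i p.2 = 0) :
    UBd (D * D') (K + K') Z := by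
  intro n hn
  have hW := y7_left (D := D) a hZ
  rw [show D * D' * Z = D' * (D * Z) by ring, y7_right (D := D') (Z := D * Z)
    (fun i j => ∑ q ∈ Finset.HasAntidiagonal.antidiagonal i, PowerSeries.coeff q.1 D * a q.2 j)
    hW n]
  refine Finset.sum_eq_zero fun p hp => ?_
  rw [Finset.HasAntidiagonal.mem_antidiagonal] at hp
  rcases lt_or_ge K p.1 with h | h
  · refine Finset.sum_eq_zero fun q _ => ?_
    show PowerSeries.coeff q.1 D' *
      ∑ r ∈ Finset.HasAntidiagonal.antidiagonal p.1, PowerSeries.coeff r.1 D * a r.2 q.2 = 0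
    rw [h1 q.2 p.1 h, mul_zero]
  · have h' : K' < p.2 := by omega
    have e : ∑ q ∈ Finset.HasAntidiagonal.antidiagonal p.2, PowerSeries.coeff q.1 D' *
        ∑ r ∈ Finset.HasAntidiagonal.antidiagonal p.1, PowerSeries.coeff r.1 D * a r.2 q.2 =
        ∑ r ∈ Finset.HasAntidiagonal.antidiagonal p.1, PowerSeries.coeff r.1 D *
          ∑ q ∈ Finset.HasAntidiagonal.antidiagonal p.2,
            PowerSeries.coeff q.1 D' * a r.2 q.2 := by
      simp only [Finset.mul_sum]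
      rw [Finset.sum_comm]
      refine Finset.sum_congr rfl fun r _ => Finset.sum_congr rfl fun q _ => ?_
      ring
    refine e.trans (Finset.sum_eq_zero fun r _ => ?_)
    rw [h2 r.2 p.2 h', mul_zero]

theorem ureg_box {s₀ : ℚ} {N M : ℕ} {I : Ideal (MvPolynomial (Fin N) ℂ)}
    {J : Ideal (MvPolynomial (Fin M) ℂ)} {h : MvPolynomial (Fin N) ℂ}
    {g : MvPolynomial (Fin M) ℂ} (hI : UReg s₀ I h) (hJ : UReg s₀ J g) :
    UReg s₀ (boxProd I J) (rename (Fin.castAdd M) h * rename (Fin.natAdd N) g) := by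
  obtain ⟨D, hD, K, hK⟩ := hI
  obtain ⟨D', hD', K', hK'⟩ := hJ
  refine ⟨D * D', den_mul hD hD', K + K', fun σ _ Γ hΓ hh => ?_⟩
  refine box_diag (a2 I J Γ) (coeff_box I J hΓ) ?_ ?_
  · intro j i hi
    have h0 := hK (σ ⊕ (Fin M × Fin (j + 1))) (par1 J Γ j) (constr_par1 J hΓ j) ?_ i hi
    · rw [PowerSeries.coeff_mul] at h0
      calc ∑ p ∈ Finset.HasAntidiagonal.antidiagonal i,
            PowerSeries.coeff p.1 D * a2 I J Γ p.2 j
          = ((Lu ^ (-(M * (j + 1) : ℤ)) : MCˣ) : MC) *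
              ∑ p ∈ Finset.HasAntidiagonal.antidiagonal i,
                PowerSeries.coeff p.1 D * PowerSeries.coeff p.2 (Zf I (par1 J Γ j)) := by
            rw [Finset.mul_sum]
            refine Finset.sum_congr rfl fun p _ => ?_
            rw [row_left I J hΓ]
            ring
        _ = 0 := by rw [h0, mul_zero]
    · rintro z ⟨hz, -⟩ h0
      refine hh _ hz ?_
      rw [map_mul, eval_rename]
      have e : (fun i => Sum.elim (fun s => z (Sum.inl (Sum.inl s)))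
          (Fin.append (fun a => z (Sum.inr a)) fun b => z (Sum.inl (Sum.inr (b, 0))))
          (Sum.inr i : σ ⊕ Fin (N + M))) ∘ Fin.castAdd M = fun a => z (Sum.inr a) := by
        funext a
        simp only [Function.comp_apply, Sum.elim_inr, Fin.append_left]
      rw [e, h0, zero_mul]
  · intro i j hj
    have h0 := hK' (σ ⊕ (Fin N × Fin (i + 1))) (par2 I Γ i) (constr_par2 I hΓ i) ?_ j hj
    · rw [PowerSeries.coeff_mul] at h0
      calc ∑ p ∈ Finset.HasAntidiagonal.antidiagonal j,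
            PowerSeries.coeff p.1 D' * a2 I J Γ i p.2
          = ((Lu ^ (-(N * (i + 1) : ℤ)) : MCˣ) : MC) *
              ∑ p ∈ Finset.HasAntidiagonal.antidiagonal j,
                PowerSeries.coeff p.1 D' * PowerSeries.coeff p.2 (Zf J (par2 I Γ i)) := by
            rw [Finset.mul_sum]
            refine Finset.sum_congr rfl fun p _ => ?_
            rw [row_right I J hΓ]
            ring
        _ = 0 := by rw [h0, mul_zero]
    · rintro z ⟨hz, -⟩ h0
      refine hh _ hz ?_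
      rw [map_mul, eval_rename, eval_rename]
      have e : (fun i => Sum.elim (fun s => z (Sum.inl (Sum.inl s)))
          (Fin.append (fun a => z (Sum.inl (Sum.inr (a, 0)))) fun b => z (Sum.inr b))
          (Sum.inr i : σ ⊕ Fin (N + M))) ∘ Fin.natAdd N = fun b => z (Sum.inr b) := by
        funext a
        simp only [Function.comp_apply, Sum.elim_inr, Fin.append_right]
      rw [e, h0, mul_zero]

end TV
end MotMono
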