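import Pool.Agent.Lib.MP_4e5fcd_ag.TV.V3
import Pool.Agent.Lib.MP_4e5fcd_ag.TV.V4
import Pool.Agent.Lib.MP_4e5fcd_ag.TV.V6
import Pool.Agent.Lib.MP_4e5fcd_ag.TV.Y2
import Pool.Agent.Lib.MP_4e5fcd_ag.TV.Y4
import Pool.Agent.Lib.MP_4e5fcd_ag.TV.Y5
import Pool.Agent.Lib.MP_4e5fcd_ag.TV.Y7
import Pool.Agent.Lib.MP_4e5fcd_ag.CN.Sp

/-!
# TV-Y8: the theorem for ideals which are tame at `s₀`
-/

open MvPolynomial

namespace MotMono
namespace TV

open CN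

private theorem y8_expo_pow {s₀ : ℚ} {e : ℕ} (h : ∃ z : ℤ, s₀ * e = z) : expo s₀ ^ e = 1 := by
  obtain ⟨z, hz⟩ := h
  rw [expo, ← Complex.exp_nat_mul]
  have hz' : (s₀ : ℂ) * e = z := by exact_mod_cast hz
  have e1 : (e : ℂ) * (2 * Real.pi * Complex.I * (s₀ : ℂ)) = (z : ℂ) * (2 * Real.pi * Complex.I) := by
    linear_combination (2 * Real.pi * Complex.I) * hz'
  rw [e1, Complex.exp_int_mul_two_pi_mul_I]

private theorem y8_expo_one (s₀ : ℚ) : expo (s₀ + 1) = expo s₀ := by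
  rw [expo, expo]
  have e1 : (2 * Real.pi * Complex.I * ((s₀ + 1 : ℚ) : ℂ)) =
      2 * Real.pi * Complex.I * (s₀ : ℂ) + 2 * Real.pi * Complex.I := by
    push_cast
    ring
  rw [e1, Complex.exp_add, Complex.exp_two_pi_mul_I, mul_one]

private theorem y8_expo_mul (s₀ : ℚ) (k : ℕ) : expo (k * s₀) = expo s₀ ^ k := by
  rw [expo, expo, ← Complex.exp_nat_mul]
  congr 1
  push_cast
  ring

private theorem y8_ne_bot {χ : K0 →+* ℤ} {N : ℕ} {I : Ideal (MvPolynomial (Fin N) ℂ)} {lam : ℂ}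
    (h : CN.Near χ I 0 lam) : I ≠ ⊥ := by
  rintro rfl
  obtain ⟨p, -, n, γ, -, -, -, ⟨f, hf, hf0⟩, -⟩ := h 1 one_pos
  rw [Ideal.mem_bot] at hf
  subst hf
  apply hf0
  simp [along]

private theorem y8_visDeg {χ : K0 →+* ℤ} {N d : ℕ} (hd : 0 < d)
    (F : Set (MvPolynomial (Fin N) ℂ)) (hF : ∀ f ∈ F, f.IsHomogeneous d)
    (y : MvPolynomial (Fin N) ℂ → ℂ) (hy : ∃ f ∈ F, y f ≠ 0)
    (hχy : χ (cls {x | ∀ f ∈ F, eval x f = y f}) ≠ 0) : VisDeg χ (Ideal.span F) d := by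
  have e1 : Ideal.span F = Ideal.span (F \ {0}) := (Ideal.span_sdiff_singleton_zero).symm
  have hF' : ∀ f ∈ F \ {0}, f.totalDegree = d := fun f hf => (hF f hf.1).totalDegree hf.2
  -- the fibre is not empty
  have hne : {x : Fin N → ℂ | ∀ f ∈ F, eval x f = y f}.Nonempty := by
    by_contra h
    rw [Set.not_nonempty_iff_eq_empty] at h
    exact hχy (by rw [h, cls_empty, map_zero])
  obtain ⟨x₀, hx₀⟩ := hne
  have h0 : (0 : MvPolynomial (Fin N) ℂ) ∈ F → y 0 = 0 := by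
    intro h
    have := hx₀ 0 h
    rw [map_zero] at this
    exact this.symm
  obtain ⟨f₀, hf₀, hyf₀⟩ := hy
  have hf₀0 : f₀ ≠ 0 := by
    rintro rfl
    exact hyf₀ (h0 hf₀)
  rw [e1]
  refine VisDeg.here (F \ {0}) d (fun f hf => ⟨hf.2, ?_, ?_⟩) y
    ⟨f₀, ⟨hf₀, hf₀0⟩, hF' _ ⟨hf₀, hf₀0⟩, hyf₀⟩ ?_
  · rw [hF' f hf]
    exact hd
  · rw [hF' f hf]
    exact hF f hf.1
  · have e2 : fib (F \ {0}) d y = {x | ∀ f ∈ F, eval x f = y f} := by
      ext x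
      constructor
      · intro hx f hf
        by_cases hf0 : f = 0
        · subst hf0
          rw [map_zero, h0 hf]
        · exact (hx f ⟨hf, hf0⟩).2 (hF' f ⟨hf, hf0⟩)
      · intro hx f hf
        exact ⟨fun h => absurd (hF' f hf) h.ne, fun _ => hx f hf.1⟩
    rw [e2]
    exact hχy

theorem ugood_adj {χ : K0 →+* ℤ} (hχ : IsEulerCharF χ) (s₀ : ℚ) {N : ℕ}
    (I : Ideal (MvPolynomial (Fin N) ℂ)) (h : UGood χ (s₀ + 1) I 0) :
    UGood χ s₀ (adjVar I) 0 := by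
  obtain ⟨h1, h2⟩ := h
  have h3 := near_adj hχ h2
  refine ⟨?_, h3⟩
  rcases h1 with hn | ⟨g, hg, hr⟩
  · left
    rw [y8_expo_one] at hn
    exact near_adj hχ hn
  · by_cases hs : s₀ + 1 = 0
    · left
      rw [← y8_expo_one, hs]
      have : expo 0 = 1 := by simp [expo]
      rw [this]
      exact h3
    · right
      refine ⟨_, ?_, ureg_adj hs hr⟩
      rw [eval_rename]
      exact hg

theorem ugood_pow {χ : K0 →+* ℤ} (hχ : IsEulerCharF χ) (s₀ : ℚ) {N : ℕ}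
    (I : Ideal (MvPolynomial (Fin N) ℂ)) (k : ℕ) (hk : 0 < k) (h : UGood χ (k * s₀) I 0) :
    UGood χ s₀ (I ^ k) 0 := by
  obtain ⟨h1, h2⟩ := h
  refine ⟨?_, near_powI hχ hk (by rwa [one_pow])⟩
  rcases h1 with hn | ⟨g, hg, hr⟩
  · left
    rw [y8_expo_mul] at hn
    exact near_powI hχ hk hn
  · exact Or.inr ⟨g, hg, ureg_pow hk hr⟩

theorem ugood_box {χ : K0 →+* ℤ} (hχ : IsEulerCharF χ) (s₀ : ℚ) {N M : ℕ}
    (I : Ideal (MvPolynomial (Fin N) ℂ)) (J : Ideal (MvPolynomial (Fin M) ℂ))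
    (hI : UGood χ s₀ I 0) (hJ : UGood χ s₀ J 0) : UGood χ s₀ (boxProd I J) 0 := by
  obtain ⟨h1, h2⟩ := hI
  obtain ⟨h3, h4⟩ := hJ
  have hI0 := y8_ne_bot h2
  have hJ0 := y8_ne_bot h4
  refine ⟨?_, near_box_left hχ hJ0 h2⟩
  rcases h1 with hn | ⟨g, hg, hr⟩
  · exact Or.inl (near_box_left hχ hJ0 hn)
  · rcases h3 with hn | ⟨g', hg', hr'⟩
    · exact Or.inl (near_box_right hχ hI0 hn)
    · refine Or.inr ⟨_, ?_, ureg_box hr hr'⟩
      rw [map_mul, eval_rename, eval_rename]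
      exact mul_ne_zero hg hg'

theorem ugood_of_tameAt {χ : K0 →+* ℤ} (hχ : IsEulerCharF χ) (s₀ : ℚ) {N : ℕ}
    (I : Ideal (MvPolynomial (Fin N) ℂ)) (h : TameAt χ s₀ I) : UGood χ s₀ I 0 := by
  induction h with
  | two s₀ G hG h0 => exact ugood_two hχ s₀ G hG h0
  | lin s₀ P hP h0 h1 => exact ugood_lin hχ s₀ P hP h0 h1
  | pull s₀ I G h hG ih => exact ugood_of_locPull hχ s₀ I 0 G h ih
  | dehom s₀ F d hF i c hc h ih => exact ugood_dehom hχ s₀ F d hF i c hc ih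
  | @cone s₀ N F d hd hF h0 hloc hs ih =>
    refine ugood_cone hχ s₀ hd F hF h0 (fun c hc hz =>
      ugood_of_locPull hχ s₀ _ c _ (locPull_germ (Ideal.span F) c) (ih c hc hz)) fun h => ?_
    have hint : ∃ z : ℤ, s₀ * (d : ℕ) = z := by
      refine ⟨-N, ?_⟩
      have hd' : (d : ℚ) ≠ 0 := by exact_mod_cast hd.ne'
      rw [h]
      push_cast
      field_simp
    rcases hs h with h1 | ⟨y, hy, hχy⟩ | ⟨g, hgF, hg⟩ | ⟨p, hp, y, hy, Z, hZ, hP⟩
    · exact Or.inl h1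
    · exact Or.inr (near_of_visDeg hχ _ d (y8_visDeg hd F hF y hy hχy) _ (y8_expo_pow hint))
    · rcases Nat.eq_zero_or_pos N with hN | hN
      · left
        refine ⟨0, ?_⟩
        rw [h, hN]
        simp
      · exact Or.inr (near_of_visDeg hχ _ d (visDeg_of_algebraicIndependent χ hN hd F hF g hgF hg)
          _ (y8_expo_pow hint))
    · refine Or.inr (near_scale hχ F (fun f hf => ⟨d, hF f hf⟩) p _ fun ε hε => ⟨p, ?_, ?_⟩)
      · simpa using hε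
      · exact vis_of_cone y hy Z hZ hP
  | adj s₀ I h ih => exact ugood_adj hχ s₀ I ih
  | pow s₀ I k hk h ih => exact ugood_pow hχ s₀ I k hk ih
  | box s₀ I J hI hJ ih ih' => exact ugood_box hχ s₀ I J ih ih'

theorem tameAt_main {χ : K0 →+* ℤ} (hχ : IsEulerCharF χ) {N : ℕ}
    (I : Ideal (MvPolynomial (Fin N) ℂ)) (s₀ : ℚ) (h : TameAt χ s₀ I)
    (hpole : IsPole (Zmot I) s₀) (ε : ℝ) (hε : 0 < ε) :
    ∃ p : Fin N → ℂ, ‖p‖ < ε ∧ (∀ f ∈ I, eval p f = 0) ∧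
      ∃ y : ConePoint I p, y.Nonzero ∧
        ∃ Z, IsZeta (fun d => χ (cls (contactArcs I p y d))) Z ∧
          ZeroOrPole Z (Complex.exp (2 * Real.pi * Complex.I * s₀)) := by
  obtain ⟨hn, -⟩ := ugood_of_tameAt hχ s₀ I h
  rcases hn with hn | ⟨g, hg, D, hD, K, hreg⟩
  · obtain ⟨p, hp, hv⟩ := hn ε hε
    rw [sub_zero] at hp
    obtain ⟨h1, y, hy, Z, hZ, hZP⟩ := cone_of_vis hv
    exact ⟨p, hp, h1, y, hy, Z, hZ, hZP⟩
  · exfalso
    apply hpole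
    have h1 := mem_of_ubd hD (hreg Empty ({0} : Set (Empty ⊕ Fin N → ℂ)) (constr_singleton 0) (by
      intro z hz
      rw [Set.mem_singleton_iff] at hz
      subst hz
      exact hg))
    rw [Zf_zero I (constr_singleton 0) (by
      intro z hz i
      rw [Set.mem_singleton_iff] at hz
      subst hz
      rfl), cls_singleton, map_one, map_one, one_mul] at h1
    exact h1

end TV
end MotMono
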