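import Pool.Agent.Lib.MP_4e5fcd_ag.TV.Pol

/-!
# TV-A0: orders, leading forms, charts

* `mem_mm_pow`: `mm ^ k` is spanned by the monomials of degree `k` (Mathlib: `Ideal.span_pow`-type
  lemmas or induction on `k`: `f ∈ mm ^ (k + 1)` iff `f = x g + y h`, `g, h ∈ mm ^ k`); a polynomial
  with all components of degree `< k` zero is a combination of monomials `x ^ i y ^ j`,
  `i + j ≥ k`, and these are in `mm ^ k`; conversely components of degree `< k` of `f g`, `f`
  homogeneous of degree `k`, vanish.
* `hc_mul`: the component of degree `a + b` of `f g` is `∑_{i + j = a + b} f_i g_j = f_a g_b`.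
* `exists_ord`: `f ≠ 0` has a smallest non-zero component.
* `ch_ord`: `f = ∑_k f_k`, `f_k (x, x (y + w)) = x ^ k f_k (1, y + w)`. So
  `g = ∑_{k ≥ μ} x ^ (k - μ) f_k (1, y + w)`.
* `ch_mem`: if moreover `f ∈ mm ^ (μ + k)` then `ch w f` is divisible by `x ^ (μ + k)`; cancel
  `x ^ μ` (domain).
-/

open MvPolynomial

namespace MotMono
namespace TV

private theorem A0_mm : mm = MvPolynomial.idealOfVars (Fin 2) ℂ := by
  unfold mm MvPolynomial.idealOfVars
  congr 1
  ext q
  simp only [Set.mem_insert_iff, Set.mem_singleton_iff, Set.mem_range, Fin.exists_fin_two]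
  constructor
  · rintro (h | h)
    · exact Or.inl h.symm
    · exact Or.inr h.symm
  · rintro (h | h)
    · exact Or.inl h.symm
    · exact Or.inr h.symm

private theorem A0_ordP (f : P2) (k : ℕ) :
    OrdP f k ↔ ∀ x : Fin 2 →₀ ℕ, x.degree < k → f.coeff x = 0 := by
  constructor
  · intro h x hx
    have h1 := congrArg (fun g : P2 => g.coeff x) (h x.degree hx)
    simpa [coeff_homogeneousComponent] using h1
  · intro h j hj
    ext x
    rw [coeff_homogeneousComponent]
    split_ifs with h1
    · rw [h x (by omega), coeff_zero]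
    · rw [coeff_zero]

theorem mem_mm_pow (f : P2) (k : ℕ) : f ∈ mm ^ k ↔ OrdP f k := by
  rw [A0_mm, MvPolynomial.mem_pow_idealOfVars_iff', A0_ordP]

theorem ordP_one (f : P2) : OrdP f 1 ↔ eval 0 f = 0 := by
  rw [A0_ordP, MvPolynomial.eval_zero, constantCoeff_eq]
  constructor
  · intro h
    exact h 0 (by simp)
  · intro h x hx
    have h1 : x.degree = 0 := by omega
    rw [Finsupp.degree_eq_zero_iff] at h1
    rw [h1]
    exact h

theorem ordP_mul {f g : P2} {a b : ℕ} (hf : OrdP f a) (hg : OrdP g b) : OrdP (f * g) (a + b) := by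
  rw [← mem_mm_pow] at hf hg ⊢
  rw [pow_add]
  exact Ideal.mul_mem_mul hf hg

private theorem A0_rest {f : P2} {a : ℕ} (hf : OrdP f a) :
    OrdP (f - homogeneousComponent a f) (a + 1) := by
  rw [A0_ordP] at hf ⊢
  intro x hx
  rw [coeff_sub, coeff_homogeneousComponent]
  split_ifs with h
  · rw [sub_self]
  · rw [sub_zero]
    exact hf x (by omega)

private theorem A0_hom (f : P2) (a : ℕ) : OrdP (homogeneousComponent a f) a := by
  rw [A0_ordP]
  intro x hx
  rw [coeff_homogeneousComponent, if_neg (by omega)]

private theorem A0_hc_zero {f : P2} {a : ℕ} (hf : OrdP f (a + 1)) :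
    homogeneousComponent a f = 0 := hf a (Nat.lt_succ_self a)

theorem hc_mul {f g : P2} {a b : ℕ} (hf : OrdP f a) (hg : OrdP g b) :
    homogeneousComponent (a + b) (f * g) =
      homogeneousComponent a f * homogeneousComponent b g := by
  have h1 : f * g = homogeneousComponent a f * homogeneousComponent b g
      + (homogeneousComponent a f * (g - homogeneousComponent b g)
        + (f - homogeneousComponent a f) * g) := by ring
  have h2 : OrdP (homogeneousComponent a f * (g - homogeneousComponent b g)) (a + b + 1) := by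
    have := ordP_mul (A0_hom f a) (A0_rest hg)
    rwa [← add_assoc] at this
  have h3 : OrdP ((f - homogeneousComponent a f) * g) (a + b + 1) := by
    have := ordP_mul (A0_rest hf) hg
    rwa [show a + 1 + b = a + b + 1 by ring] at this
  have h4 : (homogeneousComponent a f * homogeneousComponent b g).IsHomogeneous (a + b) :=
    (homogeneousComponent_isHomogeneous a f).mul (homogeneousComponent_isHomogeneous b g)
  conv_lhs => rw [h1]
  rw [map_add, map_add, A0_hc_zero h2, A0_hc_zero h3, add_zero, add_zero,
    homogeneousComponent_of_mem ((mem_homogeneousSubmodule _ _).mpr h4), if_pos rfl]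

private theorem A0_ex_comp {f : P2} (hf : f ≠ 0) : ∃ k, homogeneousComponent k f ≠ 0 := by
  by_contra h
  push Not at h
  apply hf
  rw [← sum_homogeneousComponent f]
  exact Finset.sum_eq_zero fun k _ => h k

theorem exists_ord {f : P2} (hf : f ≠ 0) : ∃ μ, OrdP f μ ∧ homogeneousComponent μ f ≠ 0 := by
  classical
  have h := A0_ex_comp hf
  refine ⟨Nat.find h, ?_, Nat.find_spec h⟩
  intro k hk
  by_contra h1
  exact Nat.find_min h hk h1

theorem exists_ord_tuple {r : ℕ} {J : Fin r → P2} (hJ : ∃ j, J j ≠ 0) :
    ∃ μ, (∀ j, OrdP (J j) μ) ∧ ∃ j, homogeneousComponent μ (J j) ≠ 0 := by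
  classical
  have h : ∃ k, ∃ j, homogeneousComponent k (J j) ≠ 0 := by
    obtain ⟨j, hj⟩ := hJ
    obtain ⟨k, hk⟩ := A0_ex_comp hj
    exact ⟨k, j, hk⟩
  refine ⟨Nat.find h, ?_, Nat.find_spec h⟩
  intro j k hk
  by_contra h1
  exact Nat.find_min h hk ⟨j, h1⟩

private theorem A0_eval_aeval (p : Fin 2 → ℂ) (u : Fin 2 → P2) (h : P2) :
    eval p (aeval u h) = eval (fun i => eval p (u i)) h := by
  induction h using MvPolynomial.induction_on with
  | C a => simp
  | add f g hf hg => rw [map_add, map_add, map_add, hf, hg]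
  | mul_X f i hf => rw [map_mul, map_mul, map_mul, hf, aeval_X, eval_X]

/-- homogeneity -/
private theorem A0_scale {R : Type*} [CommRing R] [Algebra ℂ R] (h : P2) (k : ℕ)
    (hh : h.IsHomogeneous k) (r : R) (u : Fin 2 → R) :
    aeval (fun i => r * u i) h = r ^ k * aeval u h := by
  have h1 : ∀ v : Fin 2 → R, aeval v h = ∑ d ∈ h.support,
      algebraMap ℂ R (coeff d h) * ∏ i, v i ^ d i := by
    intro v
    rw [aeval_def, eval₂_eq']
  rw [h1, h1, Finset.mul_sum]
  refine Finset.sum_congr rfl fun d hd => ?_
  have h2 : d 0 + d 1 = k := by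
    have h3 := hh (mem_support_iff.mp hd)
    rw [Finsupp.weight_apply, Finsupp.sum_fintype _ _ (by simp), Fin.sum_univ_two] at h3
    simpa using h3
  rw [Fin.prod_univ_two, Fin.prod_univ_two, ← h2]
  ring

private theorem A0_cv (w : ℂ) : cv w = fun i => X 0 * (![1, X 1 + C w] : Fin 2 → P2) i := by
  funext i
  fin_cases i
  · simp [cv]
  · simp [cv]

theorem ch_ord (w : ℂ) (f : P2) (μ : ℕ) (hf : OrdP f μ) :
    ∃ g : P2, ch w f = X 0 ^ μ * g ∧
      ∀ y : ℂ, eval ![0, y] g = eval ![1, y + w] (homogeneousComponent μ f) := by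
  set u : Fin 2 → P2 := ![1, X 1 + C w] with hu
  set N : ℕ := max f.totalDegree μ with hN
  have hsum : f = ∑ k ∈ Finset.range (N + 1), homogeneousComponent k f := by
    conv_lhs => rw [← sum_homogeneousComponent f]
    refine Finset.sum_subset ?_ ?_
    · intro k hk
      rw [Finset.mem_range] at hk ⊢
      have := le_max_left f.totalDegree μ
      omega
    · intro k _ hk
      rw [Finset.mem_range] at hk
      exact homogeneousComponent_eq_zero _ _ (by omega)
  refine ⟨∑ k ∈ Finset.range (N + 1), X 0 ^ (k - μ) * aeval u (homogeneousComponent k f), ?_, ?_⟩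
  · unfold ch
    conv_lhs => rw [hsum]
    rw [map_sum, Finset.mul_sum]
    refine Finset.sum_congr rfl fun k _ => ?_
    rw [A0_cv, A0_scale _ k (homogeneousComponent_isHomogeneous k f)]
    rcases Nat.lt_or_ge k μ with h | h
    · rw [hf k h, map_zero, mul_zero, mul_zero, mul_zero]
    · rw [← mul_assoc, ← pow_add, Nat.add_sub_cancel' h]
  · intro y
    rw [map_sum, Finset.sum_eq_single μ]
    · rw [Nat.sub_self, pow_zero, one_mul, A0_eval_aeval]
      congr 1
      congr 1
      funext i
      fin_cases i
      · simp [hu]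
      · simp [hu]
    · intro k _ hk
      rcases Nat.lt_or_ge k μ with h | h
      · rw [hf k h, map_zero, mul_zero, map_zero]
      · rw [map_mul, map_pow, eval_X]
        have : k - μ ≠ 0 := by omega
        simp [this]
    · intro h
      exfalso
      apply h
      rw [Finset.mem_range]
      have := le_max_right f.totalDegree μ
      omega

theorem ch_mem (w : ℂ) (f g : P2) (μ k : ℕ) (hf : OrdP f (μ + k)) (h : ch w f = X 0 ^ μ * g) :
    g ∈ mm ^ k := by
  obtain ⟨g', hg', _⟩ := ch_ord w f (μ + k) hf
  rw [h, pow_add, mul_assoc] at hg'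
  have h0 : (X 0 ^ μ : P2) ≠ 0 := pow_ne_zero _ (X_ne_zero 0)
  rw [mul_left_cancel₀ h0 hg']
  refine Ideal.mul_mem_right _ _ (Ideal.pow_mem_pow ?_ k)
  exact Ideal.subset_span (Set.mem_insert _ _)

/-- the leading form of a polynomial does not vanish identically on the line `(1, w)` -/
theorem exists_eval_ne {f : P2} {μ : ℕ} (hf : homogeneousComponent μ f ≠ 0) :
    ∃ P : Polynomial ℂ, P ≠ 0 ∧ P.natDegree ≤ μ ∧
      ∀ w : ℂ, P.eval w = eval ![1, w] (homogeneousComponent μ f) := by
  set h : P2 := homogeneousComponent μ f with hh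
  have hhom : h.IsHomogeneous μ := homogeneousComponent_isHomogeneous μ f
  have hev : ∀ w : ℂ, (aeval (![1, Polynomial.X] : Fin 2 → Polynomial ℂ) h).eval w
      = eval ![1, w] h := by
    intro w
    induction h using MvPolynomial.induction_on with
    | C a => simp
    | add f g hf hg => rw [map_add, Polynomial.eval_add, map_add, hf, hg]
    | mul_X f i hf =>
      rw [map_mul, Polynomial.eval_mul, map_mul, hf, aeval_X, eval_X]
      congr 1
      fin_cases i
      · simp
      · simp
  refine ⟨aeval (![1, Polynomial.X] : Fin 2 → Polynomial ℂ) h, ?_, ?_, hev⟩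
  · intro h0
    apply hf
    have h1 : ∀ w : ℂ, eval ![1, w] h = 0 := by
      intro w
      rw [← hev w, h0, Polynomial.eval_zero]
    have h2 : (X 0 : P2) * h = 0 := by
      apply MvPolynomial.funext
      intro p
      rw [map_mul, eval_X, map_zero]
      by_cases hp : p 0 = 0
      · rw [hp, zero_mul]
      · have h3 := A0_scale h μ hhom (p 0) ![1, p 1 / p 0]
        have h4 : (fun i => p 0 * (![1, p 1 / p 0] : Fin 2 → ℂ) i) = p := by
          funext i
          fin_cases i
          · simp
          · simp only [Fin.mk_one, Matrix.cons_val_one, Matrix.cons_val_fin_one]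
            exact mul_div_cancel₀ _ hp
        rw [h4] at h3
        rw [MvPolynomial.aeval_eq_eval, MvPolynomial.aeval_eq_eval] at h3
        rw [h3, h1, mul_zero, mul_zero]
    rcases mul_eq_zero.mp h2 with h3 | h3
    · exact absurd h3 (X_ne_zero 0)
    · exact h3
  · rw [aeval_def, eval₂_eq']
    refine Polynomial.natDegree_sum_le_of_forall_le _ _ fun d hd => ?_
    have h2 : d 0 + d 1 = μ := by
      have h3 := hhom (mem_support_iff.mp hd)
      rw [Finsupp.weight_apply, Finsupp.sum_fintype _ _ (by simp), Fin.sum_univ_two] at h3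
      simpa using h3
    rw [Fin.prod_univ_two]
    simp only [Matrix.cons_val_zero, Matrix.cons_val_one, one_pow, one_mul,
      Polynomial.algebraMap_eq]
    refine (Polynomial.natDegree_C_mul_X_pow_le _ _).trans (by omega)

end TV
end MotMono
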