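import Pool.Agent.Lib.MP_4e5fcd_ag.TV.Pol

/-!
# TV-A1: polynomials without common factor have a non-zero combination in `ℂ[x]`

Let `J : Fin r → ℂ[x, y]` be not all zero and without common irreducible factor. Identify `ℂ[x, y]` with
`R[Y]`, `R = ℂ[x]` (e.g. `MvPolynomial.finSuccEquiv` and `MvPolynomial` in one variable
`≃ Polynomial`, or directly), `K = Frac R`. In the PID `K[Y]` let `D` be a generator of the ideal
generated by the `J j`; take `D` primitive in `R[Y]` (`Polynomial.IsPrimitive`,
`integerNormalization`, `primPart`). `D ∣ J j` in `K[Y]` implies `D ∣ J j` in `R[Y]`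
(Gauss: `Polynomial.IsPrimitive.dvd_iff_fraction_map_dvd_fraction_map` and its relatives; `J j` is
`content * primPart`). If `D` had positive degree it would have an irreducible factor dividing
all `J j`. So `D` is constant, i.e. `1` is a combination of the `J j` over `K[Y]`; clear the
denominators: a non-zero element of `R` is in the ideal. Exchange the variables for the other half.
-/

open MvPolynomial

namespace MotMono
namespace TV

attribute [local instance] Polynomial.algebra in
private theorem A1_gauss {A : Type} [CommRing A] [IsDomain A] [UniqueFactorizationMonoid A] {r : ℕ}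
    (J : Fin r → Polynomial A) (h0 : ∃ j, J j ≠ 0)
    (h : ∀ q : Polynomial A, Irreducible q → ¬ ∀ j, q ∣ J j) :
    ∃ c : A, c ≠ 0 ∧ Polynomial.C c ∈ Ideal.span (Set.range J) := by
  classical
  let _ : NormalizedGCDMonoid A := Classical.arbitrary _
  set K := FractionRing A with hK
  set φ : Polynomial A →+* Polynomial K := Polynomial.mapRingHom (algebraMap A K) with hφ
  have hinj : Function.Injective (algebraMap A K) := IsFractionRing.injective A K
  set I : Ideal (Polynomial A) := Ideal.span (Set.range J) with hI
  have htop : I.map φ = ⊤ := by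
    by_contra hne
    set D := Submodule.IsPrincipal.generator (I.map φ) with hD
    have hspan : Ideal.span {D} = I.map φ := Ideal.span_singleton_generator _
    have hdvd : ∀ j, D ∣ φ (J j) := by
      intro j
      rw [← Ideal.mem_span_singleton, hspan]
      exact Ideal.mem_map_of_mem φ (Ideal.subset_span ⟨j, rfl⟩)
    have hD0 : D ≠ 0 := by
      intro hz
      obtain ⟨j, hj⟩ := h0
      have h1 := hdvd j
      rw [hz, zero_dvd_iff] at h1
      exact hj ((Polynomial.map_eq_zero_iff hinj).mp h1)
    have hDu : ¬ IsUnit D := by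
      intro hu
      apply hne
      rw [← hspan, Ideal.span_singleton_eq_top]
      exact hu
    obtain ⟨p, hp, hpD⟩ := WfDvdMonoid.exists_irreducible_factor hDu hD0
    obtain ⟨b, hb, hbs⟩ := IsLocalization.integerNormalization_spec (nonZeroDivisors A) (S := K) p
    set s : Polynomial A := IsLocalization.integerNormalization (nonZeroDivisors A) p with hs
    have hb0 : b ≠ 0 := nonZeroDivisors.ne_zero hb
    have hbK : algebraMap A K b ≠ 0 := by
      intro hz
      exact hb0 (hinj (by rw [hz, map_zero]))
    have hs0 : s ≠ 0 := by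
      intro hz
      rw [hz, Polynomial.map_zero, Algebra.smul_def, Polynomial.algebraMap_apply] at hbs
      rcases mul_eq_zero.mp hbs.symm with h1 | h1
      · exact hbK (Polynomial.C_eq_zero.mp h1)
      · exact hp.ne_zero h1
    have hc0 : s.content ≠ 0 := by
      rw [Ne, Polynomial.content_eq_zero_iff]
      exact hs0
    have hcK : algebraMap A K s.content ≠ 0 := by
      intro hz
      exact hc0 (hinj (by rw [hz, map_zero]))
    have hassoc : Associated (s.primPart.map (algebraMap A K)) p := by
      have h1 : Polynomial.C (algebraMap A K s.content) * s.primPart.map (algebraMap A K)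
          = Polynomial.C (algebraMap A K b) * p := by
        rw [← Polynomial.map_C, ← Polynomial.map_mul, ← s.eq_C_content_mul_primPart, hbs,
          Algebra.smul_def, Polynomial.algebraMap_apply]
      have u1 : IsUnit (Polynomial.C (algebraMap A K s.content)) :=
        Polynomial.isUnit_C.mpr (isUnit_iff_ne_zero.mpr hcK)
      have u2 : IsUnit (Polynomial.C (algebraMap A K b)) :=
        Polynomial.isUnit_C.mpr (isUnit_iff_ne_zero.mpr hbK)
      have a1 : Associated (Polynomial.C (algebraMap A K s.content) *
          s.primPart.map (algebraMap A K)) (s.primPart.map (algebraMap A K)) :=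
        associated_unit_mul_left _ _ u1
      have a2 : Associated (Polynomial.C (algebraMap A K b) * p) p :=
        associated_unit_mul_left _ _ u2
      exact a1.symm.trans ((Associated.of_eq h1).trans a2)
    have hprim : s.primPart.IsPrimitive := s.isPrimitive_primPart
    have hirr : Irreducible s.primPart := by
      rw [hprim.irreducible_iff_irreducible_map_fraction_map (K := K)]
      exact hassoc.symm.irreducible hp
    apply h s.primPart hirr
    intro j
    apply hprim.dvd_of_fraction_map_dvd_fraction_map (K := K)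
    exact (hassoc.dvd.trans hpD).trans (hdvd j)
  have hloc : IsLocalization ((nonZeroDivisors A).map (Polynomial.C : A →+* Polynomial A))
      (Polynomial K) := Polynomial.isLocalization (nonZeroDivisors A) K
  have h1 : (1 : Polynomial K) ∈ Ideal.map (algebraMap (Polynomial A) (Polynomial K)) I := by
    have h2 : (algebraMap (Polynomial A) (Polynomial K)) = φ := rfl
    rw [h2, htop]
    exact Submodule.mem_top
  rw [IsLocalization.mem_map_algebraMap_iff
    ((nonZeroDivisors A).map (Polynomial.C : A →+* Polynomial A)) (Polynomial K)] at h1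
  obtain ⟨⟨⟨a, ha⟩, ⟨m, hm⟩⟩, hx⟩ := h1
  rw [one_mul] at hx
  obtain ⟨c, hc, rfl⟩ := hm
  refine ⟨c, nonZeroDivisors.ne_zero hc, ?_⟩
  have h3 : Function.Injective φ := Polynomial.map_injective _ hinj
  have h4 : (Polynomial.C : A →+* Polynomial A) c = a := h3 hx
  rw [← h4] at ha
  exact ha

/-- the half of the statement for the second variable -/
private theorem A1_half {r : ℕ} (J : Fin r → P2) (h0 : ∃ j, J j ≠ 0)
    (h : ∀ q : P2, Irreducible q → ¬ ∀ j, q ∣ J j) :
    ∃ f : Polynomial ℂ, f ≠ 0 ∧ Polynomial.aeval (X 1 : P2) f ∈ Ideal.span (Set.range J) := by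
  set e := finSuccEquiv ℂ 1 with he
  have h0' : ∃ j, (fun j => e (J j)) j ≠ 0 := by
    obtain ⟨j, hj⟩ := h0
    refine ⟨j, fun hz => hj ?_⟩
    exact e.injective (by rw [map_zero]; exact hz)
  have h' : ∀ q : Polynomial (MvPolynomial (Fin 1) ℂ), Irreducible q →
      ¬ ∀ j, q ∣ (fun j => e (J j)) j := by
    intro q hq hall
    have hq' : Irreducible (e.symm q) := (MulEquiv.irreducible_iff e.symm.toMulEquiv).mpr hq
    apply h _ hq'
    intro j
    have := map_dvd e.symm (hall j)
    simpa using this
  obtain ⟨c, hc, hmem⟩ := A1_gauss (fun j => e (J j)) h0' h'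
  have hback : ∀ d : MvPolynomial (Fin 1) ℂ,
      Polynomial.aeval (X 1 : P2) (aeval (fun _ : Fin 1 => (Polynomial.X : Polynomial ℂ)) d)
        = e.symm (Polynomial.C d) := by
    intro d
    induction d using MvPolynomial.induction_on with
    | C a =>
      have h1 : e.symm (Polynomial.C (C a)) = (C a : P2) := by
        have := finSuccEquiv_comp_C_eq_C (R := ℂ) 1
        exact congrArg (fun g : ℂ →+* P2 => g a) this
      rw [h1, algHom_C]
      simp [MvPolynomial.algebraMap_eq]
    | add f g hf hg => rw [map_add, map_add, Polynomial.C_add, map_add, hf, hg]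
    | mul_X f i hf =>
      have h1 : e (X 1 : P2) = Polynomial.C (X 0) := finSuccEquiv_X_succ (j := (0 : Fin 1))
      have h2 : i = 0 := Subsingleton.elim _ _
      rw [map_mul, map_mul, Polynomial.C_mul, map_mul, hf, aeval_X, Polynomial.aeval_X, h2, ← h1,
        AlgEquiv.symm_apply_apply]
  refine ⟨aeval (fun _ : Fin 1 => (Polynomial.X : Polynomial ℂ)) c, ?_, ?_⟩
  · intro hz
    apply hc
    have h1 := hback c
    rw [hz, map_zero] at h1
    have h2 : (Polynomial.C c : Polynomial (MvPolynomial (Fin 1) ℂ)) = 0 :=
      e.symm.injective (by rw [map_zero]; exact h1.symm)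
    exact Polynomial.C_eq_zero.mp h2
  · rw [hback c]
    have h1 := Ideal.mem_map_of_mem (e.symm : Polynomial (MvPolynomial (Fin 1) ℂ) →+* P2) hmem
    rw [Ideal.map_span, ← Set.range_comp] at h1
    have h2 : (fun x => (e.symm : Polynomial (MvPolynomial (Fin 1) ℂ) →+* P2) x) ∘
        (fun j => e (J j)) = J := by
      funext j
      simp
    have h3 : (⇑(e.symm : Polynomial (MvPolynomial (Fin 1) ℂ) →+* P2)) ∘
        (fun j => e (J j)) = J := h2
    rw [h3] at h1
    exact h1

theorem fin2_of_coprime {r : ℕ} (J : Fin r → P2) (h0 : ∃ j, J j ≠ 0)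
    (h : ∀ q : P2, Irreducible q → ¬ ∀ j, q ∣ J j) : Fin2 (Ideal.span (Set.range J)) := by
  refine ⟨?_, A1_half J h0 h⟩
  set σ := renameEquiv ℂ (Equiv.swap (0 : Fin 2) 1) with hσ
  have h0' : ∃ j, (fun j => σ (J j)) j ≠ 0 := by
    obtain ⟨j, hj⟩ := h0
    refine ⟨j, fun hz => hj ?_⟩
    exact σ.injective (by rw [map_zero]; exact hz)
  have h' : ∀ q : P2, Irreducible q → ¬ ∀ j, q ∣ (fun j => σ (J j)) j := by
    intro q hq hall
    have hq' : Irreducible (σ.symm q) := (MulEquiv.irreducible_iff σ.symm.toMulEquiv).mpr hq
    apply h _ hq'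
    intro j
    have := map_dvd σ.symm (hall j)
    simpa using this
  obtain ⟨f, hf, hmem⟩ := A1_half (fun j => σ (J j)) h0' h'
  refine ⟨f, hf, ?_⟩
  have h1 := Ideal.mem_map_of_mem (σ.symm : P2 →+* P2) hmem
  rw [Ideal.map_span, ← Set.range_comp] at h1
  have h3 : (⇑(σ.symm : P2 →+* P2)) ∘ (fun j => σ (J j)) = J := by
    funext j
    simp
  rw [h3] at h1
  have h4 : (σ.symm : P2 →+* P2) (Polynomial.aeval (X 1 : P2) f) = Polynomial.aeval (X 0 : P2) f := by
    have h5 : σ.symm (Polynomial.aeval (X 1 : P2) f) = Polynomial.aeval (σ.symm (X 1 : P2)) f :=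
      (Polynomial.aeval_algHom_apply σ.symm (X 1 : P2) f).symm
    have h6 : σ.symm (X 1 : P2) = X 0 := by
      rw [hσ, AlgEquiv.symm_apply_eq]
      simp
    rw [h6] at h5
    exact h5
  rw [h4] at h1
  exact h1

end TV
end MotMono
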