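import Pool.Agent.Lib.MP_4e5fcd_ag.TV.A0

/-!
# TV-A3: local lengths, elementary properties

* `finite_quot`: `ℂ[x, y] / mm ^ k` is finite-dimensional (spanned by the monomials of degree
  `< k`), hence so is `ℂ[x, y] / (I + mm ^ k)`.
* `len_mono`: `I ≤ I'`: surjection `P2 / (I + mm ^ k) → P2 / (I' + mm ^ k)`, finite-dimensional.
* `len_unit`: `f ∈ I`, `f(0) ≠ 0`: `f` is invertible modulo `mm ^ k` (`f = f(0) (1 - g)`, `g ∈ mm`, geometric
  series), so `I + mm ^ k = ⊤`.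
* `len_mul`: for `u(0) ≠ 0`: `u` is invertible modulo `mm ^ k`, so
  `span (u J_j) + mm ^ k = span (J_j) + mm ^ k`.
* `len_of_fin2`: `f(x) ∈ I`, `f = x ^ a f₁`, `f₁(0) ≠ 0`: modulo `mm ^ k` `f₁(x)` is invertible, so
  `x ^ a ∈ I + mm ^ k`; similarly `y ^ b ∈ I + mm ^ k`; so `P2 / (I + mm ^ k)` is spanned by the
  `x ^ i y ^ j`, `i < a`, `j < b`: `n = a b`.
-/

open MvPolynomial

namespace MotMono
namespace TV

private theorem mem_mm (f : P2) : f ∈ mm ↔ eval 0 f = 0 := by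
  have h := mem_mm_pow f 1
  rw [pow_one] at h
  rw [h, ordP_one]

private theorem exists_inv {u : P2} (hu : eval 0 u ≠ 0) (k : ℕ) :
    ∃ a b : P2, b ∈ mm ^ k ∧ a * u + b = 1 := by
  have h1 : IsCoprime (Ideal.span {u}) (mm ^ k) := by
    apply IsCoprime.pow_right
    rw [Ideal.isCoprime_iff_exists]
    refine ⟨C ((eval 0 u)⁻¹) * u, ?_, 1 - C ((eval 0 u)⁻¹) * u, ?_, by ring⟩
    · exact Ideal.mul_mem_left _ _ (Ideal.mem_span_singleton_self u)
    · rw [mem_mm, map_sub, map_mul, eval_C, map_one, inv_mul_cancel₀ hu, sub_self]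
  rw [Ideal.isCoprime_iff_exists] at h1
  obtain ⟨i, hi, j, hj, hij⟩ := h1
  rw [Ideal.mem_span_singleton'] at hi
  obtain ⟨a, rfl⟩ := hi
  exact ⟨a, j, hj, hij⟩

private theorem span_quot {K : Ideal P2} {a b : ℕ} (ha : (X 0 : P2) ^ a ∈ K)
    (hb : (X 1 : P2) ^ b ∈ K) :
    Submodule.span ℂ (Set.range fun i : Fin a × Fin b =>
      Ideal.Quotient.mk K ((X 0 : P2) ^ (i.1 : ℕ) * X 1 ^ (i.2 : ℕ))) = ⊤ := by
  rw [eq_top_iff]
  rintro z -
  obtain ⟨f, rfl⟩ := Ideal.Quotient.mk_surjective z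
  induction f using MvPolynomial.induction_on' with
  | monomial s c =>
    have h1 : (monomial s c : P2) = C c * (X 0 ^ (s 0) * X 1 ^ (s 1)) := by
      rw [monomial_eq, Finsupp.prod_fintype _ _ (fun i => by simp), Fin.prod_univ_two]
    by_cases h0 : s 0 < a ∧ s 1 < b
    · have h2 : Ideal.Quotient.mk K (monomial s c : P2)
          = c • Ideal.Quotient.mk K ((X 0 : P2) ^ (s 0) * X 1 ^ (s 1)) := by
        rw [h1, ← smul_eq_C_mul]
        rfl
      rw [h2]
      apply Submodule.smul_mem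
      apply Submodule.subset_span
      exact ⟨(⟨s 0, h0.1⟩, ⟨s 1, h0.2⟩), rfl⟩
    · have h2 : (monomial s c : P2) ∈ K := by
        rw [h1]
        apply Ideal.mul_mem_left
        rcases not_and_or.1 h0 with h | h
        · apply Ideal.mul_mem_right
          exact Ideal.mem_of_dvd _ (pow_dvd_pow _ (not_lt.1 h)) ha
        · apply Ideal.mul_mem_left
          exact Ideal.mem_of_dvd _ (pow_dvd_pow _ (not_lt.1 h)) hb
      rw [Ideal.Quotient.eq_zero_iff_mem.2 h2]
      exact Submodule.zero_mem _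
  | add p q hp hq =>
    rw [map_add]
    exact Submodule.add_mem _ hp hq

private theorem finrank_quot {K : Ideal P2} {a b : ℕ} (ha : (X 0 : P2) ^ a ∈ K)
    (hb : (X 1 : P2) ^ b ∈ K) : Module.finrank ℂ (P2 ⧸ K) ≤ a * b := by
  have h := finrank_range_le_card (R := ℂ) (fun i : Fin a × Fin b =>
      Ideal.Quotient.mk K ((X 0 : P2) ^ (i.1 : ℕ) * X 1 ^ (i.2 : ℕ)))
  rw [Set.finrank, span_quot ha hb, finrank_top, Fintype.card_prod, Fintype.card_fin,
    Fintype.card_fin] at h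
  exact h

private theorem X_mem (i : Fin 2) : (X i : P2) ∈ mm := by
  rw [mem_mm]; simp

theorem finite_quot (I : Ideal P2) (k : ℕ) : Module.Finite ℂ (P2 ⧸ (I ⊔ mm ^ k)) := by
  have h (i : Fin 2) : (X i : P2) ^ k ∈ I ⊔ mm ^ k :=
    Ideal.mem_sup_right (Ideal.pow_mem_pow (X_mem i) k)
  rw [Module.finite_def, ← span_quot (h 0) (h 1)]
  exact Submodule.fg_span (Set.finite_range _)

theorem len_mono {I I' : Ideal P2} (h : I ≤ I') {n : ℕ} (hn : LenLe I n) : LenLe I' n := by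
  intro k
  refine le_trans ?_ (hn k)
  have h1 : I ⊔ mm ^ k ≤ I' ⊔ mm ^ k := sup_le_sup_right h _
  have := finite_quot I k
  exact LinearMap.finrank_le_finrank_of_surjective
    (f := (Ideal.Quotient.factorₐ ℂ h1).toLinearMap) (Ideal.Quotient.factor_surjective h1)

theorem len_le {I : Ideal P2} {n n' : ℕ} (h : n ≤ n') (hn : LenLe I n) : LenLe I n' :=
  fun k => (hn k).trans h

theorem len_unit {I : Ideal P2} {f : P2} (hf : f ∈ I) (h : eval 0 f ≠ 0) : LenLe I 0 := by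
  intro k
  obtain ⟨a, b, hb, hab⟩ := exists_inv h k
  have h1 : I ⊔ mm ^ k = ⊤ := by
    rw [Ideal.eq_top_iff_one, ← hab]
    exact Ideal.add_mem _ (Ideal.mem_sup_left (Ideal.mul_mem_left _ _ hf)) (Ideal.mem_sup_right hb)
  rw [h1]
  have : Subsingleton (P2 ⧸ (⊤ : Ideal P2)) := Ideal.Quotient.subsingleton_iff.2 rfl
  exact le_of_eq Module.finrank_zero_of_subsingleton

theorem len_mul {r : ℕ} {J : Fin r → P2} {u : P2} (hu : eval 0 u ≠ 0) {n : ℕ}
    (hn : LenLe (Ideal.span (Set.range J)) n) :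
    LenLe (Ideal.span (Set.range fun j => u * J j)) n := by
  intro k
  obtain ⟨a, b, hb, hab⟩ := exists_inv hu k
  have h1 : Ideal.span (Set.range fun j => u * J j) ⊔ mm ^ k
      = Ideal.span (Set.range J) ⊔ mm ^ k := by
    apply le_antisymm
    · refine sup_le ?_ le_sup_right
      rw [Ideal.span_le]
      rintro _ ⟨j, rfl⟩
      exact Ideal.mem_sup_left (Ideal.mul_mem_left _ _ (Ideal.subset_span ⟨j, rfl⟩))
    · refine sup_le ?_ le_sup_right
      rw [Ideal.span_le]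
      rintro _ ⟨j, rfl⟩
      have h2 : J j = a * (u * J j) + b * J j := by
        calc J j = (a * u + b) * J j := by rw [hab, one_mul]
          _ = _ := by ring
      rw [h2]
      exact Ideal.add_mem _ (Ideal.mem_sup_left (Ideal.mul_mem_left _ _ (Ideal.subset_span ⟨j, rfl⟩)))
        (Ideal.mem_sup_right (Ideal.mul_mem_right _ _ hb))
  rw [h1]
  exact hn k

private theorem pow_mem_of {I : Ideal P2} {f : Polynomial ℂ} (hf : f ≠ 0) (i : Fin 2)
    (h : Polynomial.aeval (X i : P2) f ∈ I) : ∃ a : ℕ, ∀ k, (X i : P2) ^ a ∈ I ⊔ mm ^ k := by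
  obtain ⟨q, hq, hq'⟩ := Polynomial.exists_eq_pow_rootMultiplicity_mul_and_not_dvd f hf 0
  rw [Polynomial.C_0, sub_zero] at hq hq'
  rw [Polynomial.X_dvd_iff] at hq'
  refine ⟨f.rootMultiplicity 0, fun k => ?_⟩
  have h0 : eval 0 (Polynomial.aeval (X i : P2) q) ≠ 0 := by
    have h1 : eval 0 (Polynomial.aeval (X i : P2) q) = q.coeff 0 := by
      rw [Polynomial.coeff_zero_eq_eval_zero, Polynomial.aeval_def, Polynomial.hom_eval₂]
      have h2 : ((eval (0 : Fin 2 → ℂ)).comp (algebraMap ℂ P2)) = RingHom.id ℂ := by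
        ext x
        simp [algebraMap_eq]
      rw [h2, eval_X]
      rfl
    rwa [h1]
  obtain ⟨a, b, hb, hab⟩ := exists_inv h0 k
  have h3 : (X i : P2) ^ f.rootMultiplicity 0
      = a * Polynomial.aeval (X i : P2) f + b * (X i : P2) ^ f.rootMultiplicity 0 := by
    conv_rhs => rw [hq]
    rw [map_mul, map_pow, Polynomial.aeval_X]
    calc (X i : P2) ^ f.rootMultiplicity 0
        = (a * Polynomial.aeval (X i : P2) q + b) * (X i : P2) ^ f.rootMultiplicity 0 := by
          rw [hab, one_mul]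
      _ = _ := by
          rw [← hq]; ring
  rw [h3]
  exact Ideal.add_mem _ (Ideal.mem_sup_left (Ideal.mul_mem_left _ _ h))
    (Ideal.mem_sup_right (Ideal.mul_mem_right _ _ hb))

theorem len_of_fin2 {I : Ideal P2} (h : Fin2 I) : ∃ n, LenLe I n := by
  obtain ⟨⟨f, hf, hf'⟩, g, hg, hg'⟩ := h
  obtain ⟨a, ha⟩ := pow_mem_of hf 0 hf'
  obtain ⟨b, hb⟩ := pow_mem_of hg 1 hg'
  exact ⟨a * b, fun k => finrank_quot (ha k) (hb k)⟩

end TV
end MotMono
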