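import Pool.Agent.Lib.MP_4e5fcd_ag.TV.A3

/-!
# TV-A4: lengths decrease under blow-up

Fix `k`. Let `T : {f | OrdP f μ} → P2 / (𝔟 + mm ^ k)`, `f ↦ x ^ (-μ) ch w f` (`ch_ord`; linear, well
defined because `x ^ μ` can be cancelled).
* `T` kills `I` (by `hb`) and `mm ^ (μ + k)` (`ch_mem`).
* `T` is onto: `g₀ = x ^ (-μ) ch w f₀ ∈ 𝔟`, `g₀ (0, y) = P (y + w)`, `P (w) = (f₀)_μ (1, w) ≠ 0` of
  degree `≤ μ` (`exists_eval_ne`). Write `P (y + w) = y ^ M e(y)`, `e(0) ≠ 0`, `M ≤ μ`. `e(y)` is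
  invertible modulo `mm ^ k`, so `y ^ M ∈ x P2 + 𝔟 + mm ^ k`, hence
  `P2 = span (y ^ b, b < M) + x P2 + 𝔟 + mm ^ k`, and by iteration (`x ^ k ∈ mm ^ k`)
  `P2 = ∑_{a < k} x ^ a span (y ^ b, b < M) + 𝔟 + mm ^ k`; and
  `span (y ^ b, b < M) = span ((y + w) ^ b, b < M)`, `x ^ a (y + w) ^ b = T (x ^ (a + μ - b) y ^ b)`
  for `b ≤ μ`.
* So `dim P2 / (𝔟 + mm ^ k) ≤ dim {f | OrdP f μ} / (I + mm ^ (μ + k)) ≤ dim P2 / (I + mm ^ (μ + k)) ≤ n`
  (`I` and `mm ^ (μ + k)` lie in `{f | OrdP f μ} = mm ^ μ`), and if `μ > 0` the second inequality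
  is strict because `1 ∉ mm ^ μ`.
  (For `μ > 0`: `n ≥ 1`, and `n' = n - 1` works for all `k`.)
-/

open MvPolynomial

namespace MotMono
namespace TV

private theorem A4_ch_add (w : ℂ) (f g : P2) : ch w (f + g) = ch w f + ch w g := map_add _ _ _

private theorem A4_ch_mul (w : ℂ) (f g : P2) : ch w (f * g) = ch w f * ch w g := map_mul _ _ _

private theorem A4_ch_zero (w : ℂ) : ch w (0 : P2) = 0 := map_zero _

private theorem A4_ch_smul (w c : ℂ) (f : P2) : ch w (c • f) = c • ch w f := map_smul _ _ _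

private theorem A4_ch_X0 (w : ℂ) : ch w (X 0 : P2) = X 0 := by
  unfold ch
  rw [aeval_X]
  rfl

private theorem A4_ch_X1 (w : ℂ) : ch w (X 1 : P2) = X 0 * (X 1 + C w) := by
  unfold ch
  rw [aeval_X]
  rfl

private theorem A4_cancel {μ : ℕ} {a b : P2} (h : (X 0 : P2) ^ μ * a = X 0 ^ μ * b) : a = b :=
  mul_left_cancel₀ (pow_ne_zero _ (X_ne_zero 0)) h

private theorem A4_X0_mem : (X 0 : P2) ∈ mm := Ideal.subset_span (Or.inl rfl)

private theorem A4_X1_mem : (X 1 : P2) ∈ mm := Ideal.subset_span (Or.inr rfl)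

/-- reduction modulo `x` -/
private theorem A4_red (q : P2) : ∃ (p : Polynomial ℂ) (h : P2),
    q = Polynomial.aeval (X 1 : P2) p + X 0 * h := by
  induction q using MvPolynomial.induction_on with
  | C a =>
    refine ⟨Polynomial.C a, 0, ?_⟩
    rw [Polynomial.aeval_C, mul_zero, add_zero]
    rfl
  | add p q hp hq =>
    obtain ⟨p1, h1, e1⟩ := hp
    obtain ⟨p2, h2, e2⟩ := hq
    refine ⟨p1 + p2, h1 + h2, ?_⟩
    rw [map_add, mul_add]
    nth_rewrite 1 [e1]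
    nth_rewrite 1 [e2]
    ring
  | mul_X p i hp =>
    obtain ⟨p1, h1, e1⟩ := hp
    fin_cases i
    · refine ⟨0, p, ?_⟩
      rw [map_zero, zero_add]
      exact mul_comm _ _
    · refine ⟨p1 * Polynomial.X, h1 * X 1, ?_⟩
      rw [map_mul, Polynomial.aeval_X]
      nth_rewrite 1 [e1]
      change (Polynomial.aeval (X 1 : P2) p1 + X 0 * h1) * X 1 = _
      ring

/-- the elements which are in the image modulo `𝔟 + mm ^ k` -/
private def A4V (𝔟 : Ideal P2) (μ k : ℕ) (w : ℂ) (q : P2) : Prop :=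
  ∃ f g : P2, f ∈ mm ^ μ ∧ ch w f = X 0 ^ μ * g ∧ q - g ∈ 𝔟 ⊔ mm ^ k

private theorem A4V_of_mem {𝔟 : Ideal P2} {μ k : ℕ} {w : ℂ} {q : P2} (h : q ∈ 𝔟 ⊔ mm ^ k) :
    A4V 𝔟 μ k w q :=
  ⟨0, 0, Ideal.zero_mem _, by rw [A4_ch_zero, mul_zero], by rwa [sub_zero]⟩

private theorem A4V_add {𝔟 : Ideal P2} {μ k : ℕ} {w : ℂ} {q q' : P2} (h : A4V 𝔟 μ k w q)
    (h' : A4V 𝔟 μ k w q') : A4V 𝔟 μ k w (q + q') := by
  obtain ⟨f, g, h1, h2, h3⟩ := h
  obtain ⟨f', g', h1', h2', h3'⟩ := h'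
  refine ⟨f + f', g + g', Ideal.add_mem _ h1 h1', ?_, ?_⟩
  · rw [A4_ch_add, h2, h2', mul_add]
  · have := Ideal.add_mem _ h3 h3'
    convert this using 1
    ring

private theorem A4V_X0 {𝔟 : Ideal P2} {μ k : ℕ} {w : ℂ} {q : P2} (h : A4V 𝔟 μ k w q) (j : ℕ) :
    A4V 𝔟 μ k w (X 0 ^ j * q) := by
  obtain ⟨f, g, h1, h2, h3⟩ := h
  refine ⟨X 0 ^ j * f, X 0 ^ j * g, Ideal.mul_mem_left _ _ h1, ?_, ?_⟩
  · rw [A4_ch_mul, h2]
    have : ch w (X 0 ^ j : P2) = X 0 ^ j := by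
      have h4 : ch w (X 0 ^ j : P2) = ch w (X 0 : P2) ^ j := map_pow _ _ _
      rw [h4, A4_ch_X0]
    rw [this]
    ring
  · rw [← mul_sub]
    exact Ideal.mul_mem_left _ _ h3

/-- polynomials in `y` of degree at most `μ` -/
private theorem A4V_y {𝔟 : Ideal P2} {μ k : ℕ} {w : ℂ} {r : Polynomial ℂ}
    (hr : r.natDegree ≤ μ) : A4V 𝔟 μ k w (Polynomial.aeval (X 1 : P2) r) := by
  obtain ⟨r', hr'⟩ : ∃ r' : Polynomial ℂ, r' = r.comp (Polynomial.X - Polynomial.C w) := ⟨_, rfl⟩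
  have hdeg : r'.natDegree ≤ μ := by
    rw [hr']
    refine Polynomial.natDegree_comp_le.trans ?_
    rw [Polynomial.natDegree_X_sub_C, mul_one]
    exact hr
  have hrr : r = r'.comp (Polynomial.X + Polynomial.C w) := by
    rw [hr', Polynomial.comp_assoc]
    simp
  refine ⟨∑ b ∈ Finset.range (μ + 1), C (r'.coeff b) * (X 0 ^ (μ - b) * X 1 ^ b),
    Polynomial.aeval (X 1 : P2) r, ?_, ?_, by rw [sub_self]; exact Ideal.zero_mem _⟩
  · refine Ideal.sum_mem _ fun b hb => Ideal.mul_mem_left _ _ ?_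
    have hb' : b ≤ μ := Nat.lt_succ_iff.1 (Finset.mem_range.1 hb)
    have h1 := Ideal.mul_mem_mul (Ideal.pow_mem_pow A4_X0_mem (μ - b))
      (Ideal.pow_mem_pow A4_X1_mem b)
    rwa [← pow_add, Nat.sub_add_cancel hb'] at h1
  · have h1 : Polynomial.aeval (X 1 : P2) r =
        ∑ b ∈ Finset.range (μ + 1), C (r'.coeff b) * (X 1 + C w) ^ b := by
      have h2 : Polynomial.aeval (X 1 : P2) r = Polynomial.aeval (X 1 + C w : P2) r' := by
        rw [hrr, Polynomial.aeval_comp]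
        congr 1
        rw [map_add, Polynomial.aeval_X, Polynomial.aeval_C]
        rfl
      rw [h2, Polynomial.aeval_eq_sum_range' (Nat.lt_succ_of_le hdeg)]
      refine Finset.sum_congr rfl fun b _ => ?_
      rw [MvPolynomial.smul_eq_C_mul]
    rw [h1]
    have h3 : ch w (∑ b ∈ Finset.range (μ + 1), C (r'.coeff b) * (X 0 ^ (μ - b) * X 1 ^ b)) =
        ∑ b ∈ Finset.range (μ + 1), ch w (C (r'.coeff b) * (X 0 ^ (μ - b) * X 1 ^ b)) :=
      map_sum _ _ _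
    rw [h3, Finset.mul_sum]
    refine Finset.sum_congr rfl fun b hb => ?_
    have hb' : b ≤ μ := Nat.lt_succ_iff.1 (Finset.mem_range.1 hb)
    have h4 : ch w (X 0 ^ (μ - b) : P2) = X 0 ^ (μ - b) := by
      have h5 : ch w (X 0 ^ (μ - b) : P2) = ch w (X 0 : P2) ^ (μ - b) := map_pow _ _ _
      rw [h5, A4_ch_X0]
    have h6 : ch w (X 1 ^ b : P2) = (X 0 * (X 1 + C w)) ^ b := by
      have h5 : ch w (X 1 ^ b : P2) = ch w (X 1 : P2) ^ b := map_pow _ _ _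
      rw [h5, A4_ch_X1]
    have h7 : ch w (C (r'.coeff b) : P2) = C (r'.coeff b) := by
      unfold ch
      rw [aeval_C]
      rfl
    rw [A4_ch_mul, A4_ch_mul, h4, h6, h7, mul_pow]
    have h8 : (X 0 : P2) ^ μ = X 0 ^ (μ - b) * X 0 ^ b := by
      rw [← pow_add, Nat.sub_add_cancel hb']
    rw [h8]
    ring

/-- `y ^ M` is in the ideal modulo `x` -/
private theorem A4_yM {𝔟 : Ideal P2} {μ : ℕ} (k : ℕ) {w : ℂ} {g₀ f : P2} (hg₀ : g₀ ∈ 𝔟)
    (hf : homogeneousComponent μ f ≠ 0)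
    (h : ∀ y : ℂ, eval ![0, y] g₀ = eval ![1, y + w] (homogeneousComponent μ f)) :
    ∃ M ≤ μ, ∃ q h : P2, q ∈ 𝔟 ⊔ mm ^ k ∧ (X 1 : P2) ^ M = q + X 0 * h := by
  obtain ⟨P, hP0, hPd, hPe⟩ := exists_eval_ne hf
  obtain ⟨p₀, h₀, e₀⟩ := A4_red g₀
  have hp₀ : p₀ = P.comp (Polynomial.X + Polynomial.C w) := by
    apply Polynomial.funext
    intro y
    have h1 := h y
    rw [← hPe, e₀] at h1
    rw [Polynomial.eval_comp, Polynomial.eval_add, Polynomial.eval_X, Polynomial.eval_C, ← h1,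
      map_add, map_mul, eval_X]
    have h2 : eval ![0, y] (Polynomial.aeval (X 1 : P2) p₀) = p₀.eval y := by
      have h3 := Polynomial.aeval_algHom_apply (MvPolynomial.aeval ![0, y] : P2 →ₐ[ℂ] ℂ) (X 1) p₀
      rw [MvPolynomial.aeval_X] at h3
      change Polynomial.aeval y p₀ = _ at h3
      rw [Polynomial.coe_aeval_eq_eval] at h3
      exact h3.symm
    rw [h2]
    simp
  have hp₀0 : p₀ ≠ 0 := by
    rw [hp₀]
    intro h1
    apply hP0
    have h2 : P = (P.comp (Polynomial.X + Polynomial.C w)).comp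
        (Polynomial.X - Polynomial.C w) := by
      rw [Polynomial.comp_assoc]
      simp
    rw [h2, h1, Polynomial.zero_comp]
  have hp₀d : p₀.natDegree ≤ μ := by
    rw [hp₀]
    refine Polynomial.natDegree_comp_le.trans ?_
    rw [Polynomial.natDegree_X_add_C, mul_one]
    exact hPd
  obtain ⟨e, he1, he2⟩ := Polynomial.exists_eq_pow_rootMultiplicity_mul_and_not_dvd p₀ hp₀0 0
  obtain ⟨M, hM⟩ : ∃ M, M = p₀.rootMultiplicity 0 := ⟨_, rfl⟩
  rw [← hM, Polynomial.C_0, sub_zero] at he1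
  rw [Polynomial.C_0, sub_zero] at he2
  have hMμ : M ≤ μ := by
    have h5 := Polynomial.natDegree_le_of_dvd (Dvd.intro _ he1.symm) hp₀0
    rw [Polynomial.natDegree_X_pow] at h5
    exact h5.trans hp₀d
  have hcop : IsCoprime e (Polynomial.X ^ k) := by
    apply IsCoprime.pow_right
    rw [isCoprime_comm]
    exact (Polynomial.irreducible_X.coprime_iff_not_dvd).2 he2
  obtain ⟨u, v, huv⟩ := hcop
  refine ⟨M, hMμ, Polynomial.aeval (X 1 : P2) u * g₀ +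
    Polynomial.aeval (X 1 : P2) v * X 1 ^ M * X 1 ^ k, - (Polynomial.aeval (X 1 : P2) u * h₀),
    ?_, ?_⟩
  · refine Ideal.add_mem _ (Ideal.mul_mem_left _ _ (Ideal.mem_sup_left hg₀))
      (Ideal.mul_mem_left _ _ (Ideal.mem_sup_right (Ideal.pow_mem_pow A4_X1_mem k)))
  · have h3 : (Polynomial.X : Polynomial ℂ) ^ M = u * p₀ + v * Polynomial.X ^ M *
        Polynomial.X ^ k := by
      nth_rewrite 1 [he1]
      calc (Polynomial.X : Polynomial ℂ) ^ M = Polynomial.X ^ M * (u * e + v * Polynomial.X ^ k) := by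
            rw [huv, mul_one]
        _ = _ := by ring
    have h4 := congrArg (Polynomial.aeval (X 1 : P2)) h3
    simp only [map_pow, map_add, map_mul, Polynomial.aeval_X] at h4
    linear_combination h4 - Polynomial.aeval (X 1 : P2) u * e₀

/-- everything is in the image -/
private theorem A4V_all {𝔟 : Ideal P2} {μ k : ℕ} {w : ℂ} {g₀ f : P2} (hg₀ : g₀ ∈ 𝔟)
    (hf : homogeneousComponent μ f ≠ 0)
    (h : ∀ y : ℂ, eval ![0, y] g₀ = eval ![1, y + w] (homogeneousComponent μ f)) (q : P2) :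
    A4V 𝔟 μ k w q := by
  obtain ⟨M, hM, q₁, h₁, hq₁, hyM⟩ := A4_yM k hg₀ hf h
  have base : ∀ q : P2, ∃ v h : P2, A4V 𝔟 μ k w v ∧ q = v + X 0 * h := by
    intro q
    obtain ⟨p, h, e⟩ := A4_red q
    have hmon : (Polynomial.X ^ M : Polynomial ℂ).Monic := Polynomial.monic_X_pow M
    have hdiv := Polynomial.modByMonic_add_div p (Polynomial.X ^ M : Polynomial ℂ)
    have hdeg : (p %ₘ (Polynomial.X ^ M : Polynomial ℂ)).natDegree ≤ μ := by
      have h1 := Polynomial.natDegree_modByMonic_le p hmon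
      rw [Polynomial.natDegree_X_pow] at h1
      omega
    have h2 := congrArg (Polynomial.aeval (X 1 : P2)) hdiv
    rw [map_add, map_mul, map_pow, Polynomial.aeval_X, hyM] at h2
    refine ⟨Polynomial.aeval (X 1 : P2) (p %ₘ (Polynomial.X ^ M : Polynomial ℂ)) +
      Polynomial.aeval (X 1 : P2) (p /ₘ (Polynomial.X ^ M : Polynomial ℂ)) * q₁,
      h + Polynomial.aeval (X 1 : P2) (p /ₘ (Polynomial.X ^ M : Polynomial ℂ)) * h₁,
      A4V_add (A4V_y hdeg) (A4V_of_mem (Ideal.mul_mem_left _ _ hq₁)), ?_⟩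
    rw [e, ← h2]
    ring
  have step : ∀ j : ℕ, ∀ q : P2, ∃ v h : P2, A4V 𝔟 μ k w v ∧ q = v + X 0 ^ j * h := by
    intro j
    induction j with
    | zero => exact fun q => ⟨0, q, A4V_of_mem (Ideal.zero_mem _), by ring⟩
    | succ j ih =>
      intro q
      obtain ⟨v, h, hv, e⟩ := ih q
      obtain ⟨v', h', hv', e'⟩ := base h
      refine ⟨v + X 0 ^ j * v', h', A4V_add hv (A4V_X0 hv' j), ?_⟩
      rw [e, e']
      ring
  obtain ⟨v, h, hv, e⟩ := step k q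
  rw [e]
  refine A4V_add hv (A4V_of_mem (Ideal.mem_sup_right ?_))
  exact Ideal.mul_mem_right _ _ (Ideal.pow_mem_pow A4_X0_mem k)

/-- the inequality for one `k` -/
private theorem A4_k {I 𝔟 : Ideal P2} {μ : ℕ} {w : ℂ} (hI : ∀ f ∈ I, OrdP f μ) {f₀ : P2}
    (hf₀ : f₀ ∈ I) (h₀ : homogeneousComponent μ f₀ ≠ 0)
    (hb : ∀ f ∈ I, ∀ g : P2, ch w f = X 0 ^ μ * g → g ∈ 𝔟) (k : ℕ) :
    Module.finrank ℂ (P2 ⧸ (𝔟 ⊔ mm ^ k)) ≤ Module.finrank ℂ (P2 ⧸ (I ⊔ mm ^ (μ + k))) ∧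
      (0 < μ → Module.finrank ℂ (P2 ⧸ (𝔟 ⊔ mm ^ k)) <
        Module.finrank ℂ (P2 ⧸ (I ⊔ mm ^ (μ + k)))) := by
  haveI := finite_quot I (μ + k)
  haveI := finite_quot 𝔟 k
  obtain ⟨M', hM'⟩ : ∃ M' : Submodule ℂ P2, M' = (mm ^ μ).restrictScalars ℂ := ⟨_, rfl⟩
  have hmem : ∀ f : P2, f ∈ M' ↔ f ∈ mm ^ μ := fun f => by rw [hM']; rfl
  have hex : ∀ f : M', ∃ g : P2, ch w f = X 0 ^ μ * g := fun f => by
    obtain ⟨g, hg, -⟩ := ch_ord w f μ ((mem_mm_pow _ _).1 ((hmem _).1 f.2))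
    exact ⟨g, hg⟩
  choose G hG using hex
  let T : M' →ₗ[ℂ] (P2 ⧸ (𝔟 ⊔ mm ^ k)) :=
    { toFun := fun f => Ideal.Quotient.mk _ (G f)
      map_add' := fun f f' => by
        rw [← map_add]
        congr 1
        apply A4_cancel (μ := μ)
        rw [mul_add, ← hG, ← hG, ← hG, ← A4_ch_add]
        rfl
      map_smul' := fun c f => by
        have h1 : G (c • f) = c • G f := by
          apply A4_cancel (μ := μ)
          rw [mul_smul_comm, ← hG, ← hG, ← A4_ch_smul]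
          rfl
        rw [h1]
        rfl }
  let S : M' →ₗ[ℂ] (P2 ⧸ (I ⊔ mm ^ (μ + k))) :=
    ((Ideal.Quotient.mkₐ ℂ (I ⊔ mm ^ (μ + k))).toLinearMap).comp M'.subtype
  have hT : Function.Surjective T := by
    intro q
    obtain ⟨q, rfl⟩ := Ideal.Quotient.mk_surjective q
    obtain ⟨g₀, hg₀, hg₀'⟩ := ch_ord w f₀ μ (hI f₀ hf₀)
    obtain ⟨f, g, h1, h2, h3⟩ := A4V_all (k := k) (hb f₀ hf₀ g₀ hg₀) h₀ hg₀' q
    refine ⟨⟨f, (hmem _).2 h1⟩, ?_⟩
    have h4 : G ⟨f, (hmem _).2 h1⟩ = g := by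
      apply A4_cancel (μ := μ)
      rw [← hG, ← h2]
    change Ideal.Quotient.mk _ (G ⟨f, (hmem _).2 h1⟩) = _
    rw [h4, Ideal.Quotient.eq]
    have h5 := Ideal.neg_mem_iff _ |>.2 h3
    rwa [neg_sub] at h5
  have hker : LinearMap.ker S ≤ LinearMap.ker T := by
    intro f hf
    rw [LinearMap.mem_ker] at hf ⊢
    change Ideal.Quotient.mk _ (f : P2) = 0 at hf
    rw [Ideal.Quotient.eq_zero_iff_mem, Submodule.mem_sup] at hf
    obtain ⟨a, ha, b, hb', hab⟩ := hf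
    change Ideal.Quotient.mk _ (G f) = 0
    rw [Ideal.Quotient.eq_zero_iff_mem]
    obtain ⟨ga, hga, -⟩ := ch_ord w a μ (hI a ha)
    have hb1 : OrdP b (μ + k) := (mem_mm_pow _ _).1 hb'
    obtain ⟨gb, hgb, -⟩ := ch_ord w b μ (fun j hj => hb1 j (by omega))
    have h1 : G f = ga + gb := by
      apply A4_cancel (μ := μ)
      rw [← hG, mul_add, ← hga, ← hgb, ← A4_ch_add, hab]
    rw [h1]
    exact Ideal.add_mem _ (Ideal.mem_sup_left (hb a ha ga hga))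
      (Ideal.mem_sup_right (ch_mem w b gb μ k hb1 hgb))
  have h1 : Module.finrank ℂ (P2 ⧸ (𝔟 ⊔ mm ^ k)) ≤ Module.finrank ℂ (LinearMap.range S) := by
    let e := S.quotKerEquivRange
    let L : LinearMap.range S →ₗ[ℂ] (P2 ⧸ (𝔟 ⊔ mm ^ k)) :=
      ((LinearMap.ker S).liftQ T hker).comp e.symm.toLinearMap
    have hL : Function.Surjective L := by
      intro q
      obtain ⟨f, rfl⟩ := hT q
      refine ⟨e (Submodule.Quotient.mk f), ?_⟩
      change ((LinearMap.ker S).liftQ T hker) (e.symm (e (Submodule.Quotient.mk f))) = T f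
      rw [LinearEquiv.symm_apply_apply]
      exact Submodule.liftQ_apply _ _ _
    exact LinearMap.finrank_le_finrank_of_surjective hL
  refine ⟨h1.trans (Submodule.finrank_le _), fun hμ => lt_of_le_of_lt h1 ?_⟩
  apply Submodule.finrank_lt
  intro htop
  have h2 : (Ideal.Quotient.mk (I ⊔ mm ^ (μ + k)) (1 : P2)) ∈ LinearMap.range S := by
    rw [htop]
    trivial
  obtain ⟨f, hf⟩ := h2
  change Ideal.Quotient.mk _ (f : P2) = Ideal.Quotient.mk _ (1 : P2) at hf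
  rw [Ideal.Quotient.eq] at hf
  have h3 : I ⊔ mm ^ (μ + k) ≤ mm ^ μ := by
    refine sup_le (fun g hg => (mem_mm_pow _ _).2 (hI g hg)) ?_
    exact Ideal.pow_le_pow_right (Nat.le_add_right _ _)
  have h4 : (1 : P2) ∈ mm ^ μ := by
    have h5 := Ideal.sub_mem _ ((hmem _).1 f.2) (h3 hf)
    rwa [sub_sub_cancel] at h5
  have h6 : (1 : P2) ∈ mm ^ 1 := Ideal.pow_le_pow_right hμ h4
  rw [mem_mm_pow, ordP_one, map_one] at h6
  exact one_ne_zero h6

theorem len_blowup {I 𝔟 : Ideal P2} {μ : ℕ} {w : ℂ} (hI : ∀ f ∈ I, OrdP f μ) {f₀ : P2}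
    (hf₀ : f₀ ∈ I) (h₀ : homogeneousComponent μ f₀ ≠ 0)
    (hb : ∀ f ∈ I, ∀ g : P2, ch w f = X 0 ^ μ * g → g ∈ 𝔟) {n : ℕ} (hn : LenLe I n) :
    LenLe 𝔟 n ∧ (0 < μ → ∃ n' < n, LenLe 𝔟 n') := by
  have h1 := A4_k hI hf₀ h₀ hb
  refine ⟨fun k => (h1 k).1.trans (hn _), fun hμ => ⟨n - 1, ?_, fun k => ?_⟩⟩
  · have h2 := (h1 0).2 hμ
    have h3 := hn (μ + 0)
    omega
  · have h2 := (h1 k).2 hμ
    have h3 := hn (μ + k)
    omega

end TV
end MotMono
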