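import Pool.Agent.Lib.MP_4e5fcd_ag.TV.A4

/-!
# TV-A5: blow-up of tuples, of singularities, exchange of the variables

* `len_tuple`: apply `len_blowup` to `I = span J`, `𝔟 = span J'`: for `f = ∑ a_j J_j`,
  `ch w f = x ^ μ ∑ ch w a_j J'_j`, cancel `x ^ μ`.
* `tj_blowup`: `I = tj h`, `μ - 1` instead of `μ`, `𝔟 = tj h1`. Elements of `tj h` have order `≥ μ - 1`
  (a partial derivative of `h`, `OrdP h μ`, has order `≥ μ - 1`). `f₀`: one of the two partial
  derivatives has non-zero component of degree `μ - 1`: it is the derivative of `h_μ ≠ 0`, and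
  `μ h_μ = x ∂_x h_μ + y ∂_y h_μ` (Euler; or: a form with both derivatives zero of degree `μ > 0` is zero).
  `hb`: chain rule, `D = ch w`: `∂_y (D h) = x D (∂_y h)`, `∂_x (D h) = D (∂_x h) + (y + w) D (∂_y h)`. With
  `D h = x ^ μ h1`: `D (∂_y h) = x ^ (μ - 1) ∂_y h1`,
  `D (∂_x h) = x ^ (μ - 1) (μ h1 + x ∂_x h1 - (y + w) ∂_y h1)`, `D h = x ^ (μ - 1) (x h1)`: all of the
  form `x ^ (μ - 1)` times an element of `tj h1`. A general `f ∈ tj h` is a combination.
* swap: `sw` is an involutive algebra automorphism which maps `mm` to `mm`.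
-/

open MvPolynomial

namespace MotMono
namespace TV

private theorem A5_ordP (f : P2) (k : ℕ) :
    OrdP f k ↔ ∀ x : Fin 2 →₀ ℕ, x.degree < k → f.coeff x = 0 := by
  constructor
  · intro h x hx
    have h1 := congrArg (fun g : P2 => g.coeff x) (h x.degree hx)
    simpa [coeff_homogeneousComponent] using h1
  · intro h j hj
    ext x
    rw [coeff_homogeneousComponent]
    split_ifs with h1
    · rw [h x (by omega), coeff_zero]
    · rw [coeff_zero]

private theorem A5_ord_span {S : Set P2} {μ : ℕ} (hS : ∀ f ∈ S, OrdP f μ) :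
    ∀ f ∈ Ideal.span S, OrdP f μ := by
  intro f hf
  rw [← mem_mm_pow]
  have : Ideal.span S ≤ mm ^ μ := by
    rw [Ideal.span_le]
    intro g hg
    exact (mem_mm_pow g μ).mpr (hS g hg)
  exact this hf

private theorem A5_ch_mul (w : ℂ) (f g : P2) : ch w (f * g) = ch w f * ch w g := by
  unfold ch
  rw [map_mul]

private theorem A5_ch_add (w : ℂ) (f g : P2) : ch w (f + g) = ch w f + ch w g := by
  unfold ch
  rw [map_add]

private theorem A5_hb {S : Set P2} {𝔟 : Ideal P2} {μ : ℕ} {w : ℂ}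
    (hS : ∀ f ∈ S, ∃ g ∈ 𝔟, ch w f = X 0 ^ μ * g) :
    ∀ f ∈ Ideal.span S, ∀ g : P2, ch w f = X 0 ^ μ * g → g ∈ 𝔟 := by
  have h1 : ∀ f ∈ Ideal.span S, ∃ g ∈ 𝔟, ch w f = X 0 ^ μ * g := by
    intro f hf
    induction hf using Submodule.span_induction with
    | mem x hx => exact hS x hx
    | zero => exact ⟨0, 𝔟.zero_mem, by unfold ch; simp⟩
    | add x y _ _ hx hy =>
      obtain ⟨g, hg, e⟩ := hx
      obtain ⟨g', hg', e'⟩ := hy
      exact ⟨g + g', 𝔟.add_mem hg hg', by rw [A5_ch_add, e, e']; ring⟩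
    | smul a x _ hx =>
      obtain ⟨g, hg, e⟩ := hx
      exact ⟨ch w a * g, 𝔟.mul_mem_left _ hg, by rw [smul_eq_mul, A5_ch_mul, e]; ring⟩
  intro f hf g hg
  obtain ⟨g', hg', e⟩ := h1 f hf
  rw [hg] at e
  have h0 : (X 0 ^ μ : P2) ≠ 0 := pow_ne_zero _ (X_ne_zero 0)
  rw [mul_left_cancel₀ h0 e]
  exact hg'

theorem len_tuple {r : ℕ} {J J' : Fin r → P2} {μ : ℕ} {w : ℂ} (hJ : ∀ j, OrdP (J j) μ)
    (hJ' : ∃ j, homogeneousComponent μ (J j) ≠ 0) (h : ∀ j, ch w (J j) = X 0 ^ μ * J' j) {n : ℕ}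
    (hn : LenLe (Ideal.span (Set.range J)) n) :
    LenLe (Ideal.span (Set.range J')) n ∧
      (0 < μ → ∃ n' < n, LenLe (Ideal.span (Set.range J')) n') := by
  obtain ⟨j0, hj0⟩ := hJ'
  refine len_blowup (I := Ideal.span (Set.range J)) (w := w) ?_ (f₀ := J j0)
    (Ideal.subset_span ⟨j0, rfl⟩) hj0 ?_ hn
  · apply A5_ord_span
    rintro f ⟨j, rfl⟩
    exact hJ j
  · apply A5_hb
    rintro f ⟨j, rfl⟩
    exact ⟨J' j, Ideal.subset_span ⟨j, rfl⟩, h j⟩

private theorem A5_chain1 (w : ℂ) (f : P2) :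
    pderiv 1 (ch w f) = X 0 * ch w (pderiv 1 f) := by
  unfold ch
  induction f using MvPolynomial.induction_on with
  | C a => simp
  | add f g hf hg => rw [map_add, map_add, map_add, map_add, hf, hg, mul_add]
  | mul_X f i hf =>
    rw [map_mul, pderiv_mul, pderiv_mul, map_add, map_mul, map_mul, hf, aeval_X]
    fin_cases i
    · simp only [cv, Fin.zero_eta, Matrix.cons_val_zero, pderiv_X_of_ne (show (0 : Fin 2) ≠ 1 by decide)]
      rw [map_zero]
      ring
    · simp only [cv, Fin.mk_one, Matrix.cons_val_one, Matrix.cons_val_fin_one, pderiv_mul, map_add,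
        pderiv_X_of_ne (show (0 : Fin 2) ≠ 1 by decide), pderiv_X_self, pderiv_C, map_one]
      ring

private theorem A5_chain0 (w : ℂ) (f : P2) :
    pderiv 0 (ch w f) = ch w (pderiv 0 f) + (X 1 + C w) * ch w (pderiv 1 f) := by
  unfold ch
  induction f using MvPolynomial.induction_on with
  | C a => simp
  | add f g hf hg => 
    rw [map_add, map_add, map_add, map_add, map_add, map_add, hf, hg]
    ring
  | mul_X f i hf =>
    rw [map_mul, pderiv_mul, pderiv_mul, pderiv_mul, map_add, map_add, map_mul, map_mul, map_mul,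
      map_mul, hf, aeval_X]
    fin_cases i
    · simp only [cv, Fin.zero_eta, Matrix.cons_val_zero, pderiv_X_self, map_one,
        pderiv_X_of_ne (show (0 : Fin 2) ≠ 1 by decide)]
      rw [map_zero]
      ring
    · simp only [cv, Fin.mk_one, Matrix.cons_val_one, Matrix.cons_val_fin_one, pderiv_mul, map_add,
        pderiv_X_of_ne (show (1 : Fin 2) ≠ 0 by decide), pderiv_X_self, pderiv_C, map_one]
      rw [map_zero]
      ring

private theorem A5_ord_pderiv {h : P2} {ν : ℕ} (hh : OrdP h (ν + 1)) (i : Fin 2) :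
    OrdP (pderiv i h) ν := by
  rw [A5_ordP] at hh ⊢
  intro x hx
  rw [coeff_pderiv, hh, zero_mul]
  rw [map_add, Finsupp.degree_single]
  omega

private theorem A5_lead {h : P2} {ν : ℕ} (hh' : homogeneousComponent (ν + 1) h ≠ 0) :
    ∃ i, homogeneousComponent ν (pderiv i h) ≠ 0 := by
  obtain ⟨x, hx⟩ := ne_zero_iff.mp hh'
  rw [coeff_homogeneousComponent] at hx
  split_ifs at hx with hd
  · have h1 : ∃ i, x i ≠ 0 := by
      by_contra hcon
      push Not at hcon
      have : x = 0 := Finsupp.ext hcon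
      rw [this] at hd
      simp at hd
    obtain ⟨i, hi⟩ := h1
    refine ⟨i, ?_⟩
    rw [ne_zero_iff]
    have hle : Finsupp.single i 1 ≤ x := Finsupp.single_le_iff.mpr (Nat.one_le_iff_ne_zero.mpr hi)
    refine ⟨x - Finsupp.single i 1, ?_⟩
    have h2 : (x - Finsupp.single i 1).degree = ν := by
      have h3 : (x - Finsupp.single i 1 + Finsupp.single i 1).degree = ν + 1 := by
        rw [tsub_add_cancel_of_le hle, hd]
      rw [map_add, Finsupp.degree_single] at h3
      omega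
    rw [coeff_homogeneousComponent, if_pos h2, coeff_pderiv, tsub_add_cancel_of_le hle]
    exact mul_ne_zero hx (Nat.cast_add_one_ne_zero _)
  · exact absurd rfl hx

private theorem A5_tjb {h h1 : P2} {ν : ℕ} {w : ℂ} (e : ch w h = X 0 ^ (ν + 1) * h1) :
    ∀ f ∈ ({h, pderiv 0 h, pderiv 1 h} : Set P2), ∃ g ∈ tj h1, ch w f = X 0 ^ ν * g := by
  have m0 : h1 ∈ tj h1 := Ideal.subset_span (by simp)
  have m1 : pderiv 0 h1 ∈ tj h1 := Ideal.subset_span (by simp)
  have m2 : pderiv 1 h1 ∈ tj h1 := Ideal.subset_span (by simp)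
  have e1 : ch w (pderiv 1 h) = X 0 ^ ν * pderiv 1 h1 := by
    have h2 := A5_chain1 w h
    rw [e, pderiv_mul, pderiv_pow, pderiv_X_of_ne (show (0 : Fin 2) ≠ 1 by decide)] at h2
    apply mul_left_cancel₀ (X_ne_zero (0 : Fin 2) : (X 0 : P2) ≠ 0)
    rw [← h2]
    ring
  have e0 : ch w (pderiv 0 h) =
      X 0 ^ ν * (((ν + 1 : ℕ) : P2) * h1 + X 0 * pderiv 0 h1 - (X 1 + C w) * pderiv 1 h1) := by
    have h2 := A5_chain0 w h
    rw [e1, e, pderiv_mul, pderiv_pow, pderiv_X_self] at h2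
    rw [eq_comm, ← eq_sub_iff_add_eq] at h2
    rw [h2]
    simp only [Nat.add_sub_cancel]
    push_cast
    ring
  rintro f (rfl | rfl | rfl)
  · exact ⟨X 0 * h1, Ideal.mul_mem_left _ _ m0, by rw [e]; ring⟩
  · refine ⟨_, ?_, e0⟩
    exact Ideal.sub_mem _ (Ideal.add_mem _ (Ideal.mul_mem_left _ _ m0) (Ideal.mul_mem_left _ _ m1))
      (Ideal.mul_mem_left _ _ m2)
  · exact ⟨_, m2, e1⟩

theorem tj_blowup {h h1 : P2} {μ : ℕ} {w : ℂ} (hμ : 0 < μ) (hh : OrdP h μ)
    (hh' : homogeneousComponent μ h ≠ 0) (e : ch w h = X 0 ^ μ * h1) {n : ℕ}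
    (hn : LenLe (tj h) n) :
    LenLe (tj h1) n ∧ (2 ≤ μ → ∃ n' < n, LenLe (tj h1) n') := by
  obtain ⟨ν, rfl⟩ : ∃ ν, μ = ν + 1 := ⟨μ - 1, by omega⟩
  obtain ⟨i, hi⟩ := A5_lead hh'
  have hmem : pderiv i h ∈ tj h := by
    apply Ideal.subset_span
    fin_cases i
    · simp
    · simp
  have hord : ∀ f ∈ tj h, OrdP f ν := by
    apply A5_ord_span
    rintro f (rfl | rfl | rfl)
    · intro k hk
      exact hh k (by omega)
    · exact A5_ord_pderiv hh 0
    · exact A5_ord_pderiv hh 1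
  obtain ⟨r1, r2⟩ := len_blowup (I := tj h) (𝔟 := tj h1) (w := w) hord hmem hi (A5_hb (A5_tjb e)) hn
  exact ⟨r1, fun h2 => r2 (by omega)⟩

private theorem A5_comp : (aeval sv : P2 →ₐ[ℂ] P2).comp (aeval sv) = AlgHom.id ℂ P2 := by
  apply MvPolynomial.algHom_ext
  intro i
  fin_cases i
  · simp [sv]
  · simp [sv]

theorem sw_sw (f : P2) : sw (sw f) = f := by
  unfold sw
  exact congrArg (fun g : P2 →ₐ[ℂ] P2 => g f) A5_comp

private noncomputable def A5_E : P2 ≃ₐ[ℂ] P2 :=
  AlgEquiv.ofAlgHom (aeval sv) (aeval sv) A5_comp A5_comp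

private theorem A5_E_apply (f : P2) : (A5_E : P2 →+* P2) f = sw f := rfl

private theorem A5_mm : mm.map (A5_E : P2 →+* P2) = mm := by
  unfold mm
  rw [Ideal.map_span, Set.image_pair, A5_E_apply, A5_E_apply, Set.pair_comm]
  congr 2
  · simp [sw, sv]
  · simp [sw, sv]

private theorem A5_len {I I' : Ideal P2} (h : I' = I.map (A5_E : P2 →+* P2)) {n : ℕ}
    (hn : LenLe I n) : LenLe I' n := by
  intro k
  have h1 : I' ⊔ mm ^ k = (I ⊔ mm ^ k).map (A5_E : P2 →+* P2) := by
    rw [Ideal.map_sup, Ideal.map_pow, A5_mm, h]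
  rw [← (Ideal.quotientEquivAlg (I ⊔ mm ^ k) (I' ⊔ mm ^ k) A5_E h1).toLinearEquiv.finrank_eq]
  exact hn k

theorem len_sw {r : ℕ} {J : Fin r → P2} {n : ℕ} (hn : LenLe (Ideal.span (Set.range J)) n) :
    LenLe (Ideal.span (Set.range fun j => sw (J j))) n := by
  refine A5_len ?_ hn
  rw [Ideal.map_span, ← Set.range_comp]
  rfl

private theorem A5_sw0 (f : P2) : pderiv 0 (sw f) = sw (pderiv 1 f) := by
  unfold sw
  induction f using MvPolynomial.induction_on with
  | C a => simp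
  | add f g hf hg => rw [map_add, map_add, map_add, map_add, hf, hg]
  | mul_X f i hf =>
    rw [map_mul, pderiv_mul, pderiv_mul, map_add, map_mul, map_mul, hf, aeval_X]
    fin_cases i
    · simp [sv]
    · simp [sv]

private theorem A5_sw1 (f : P2) : pderiv 1 (sw f) = sw (pderiv 0 f) := by
  have h := A5_sw0 (sw f)
  rw [sw_sw] at h
  rw [h, sw_sw]

theorem tj_sw {h : P2} {n : ℕ} (hn : LenLe (tj h) n) : LenLe (tj (sw h)) n := by
  refine A5_len ?_ hn
  unfold tj
  rw [Ideal.map_span, A5_sw0, A5_sw1, Set.image_insert_eq, Set.image_pair, A5_E_apply, A5_E_apply,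
    A5_E_apply, Set.pair_comm]

end TV
end MotMono
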