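import Pool.Agent.Lib.MP_4e5fcd_ag.TV.A5

/-!
# TV-A6: states under blow-up

`st_chart`. Let `μ_i` be the order of `p_i` (`exists_ord`), `ch w (p_i) = x ^ μ_i p'_i` (`ch_ord`,
`p'_i (0, y) = (p_i)_μ_i (1, y + w)` is not identically zero, so `x ∤ p'_i`, `p'_i ≠ 0`), `μ_J` the
order of the tuple `J`, `ch w (J_j) = x ^ μ_J J''_j`. The order of the tuple `∏ p_i ^ m_i J_j` is
`∑ m_i μ_i + μ_J` (`hc_mul`, the polynomial ring is a domain), so it is `μ`. Hence
`ch w (F_j) = x ^ A (x (y + w)) ^ B x ^ μ ∏ p'_i ^ m_i J''_j`.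
`w = 0`: `J' = J''`. `w ≠ 0`: `J' = (y + w) ^ B J''` (`len_mul`), and the new `B` is `0`.
`n1'`: `len_tuple` (for `J`, order `μ_J`; `μ_J > 0` iff all `J_j (0) = 0`), `n2'`: `h = ∏ p_i` has order
`∑ μ_i`, `ch w h = x ^ (∑ μ_i) ∏ p'_i`; if `∑ μ_i > 0` use `tj_blowup`, if `∑ μ_i = 0`, `h(0) ≠ 0`,
`(∏ p'_i)(0) = h(0) ≠ 0`: `len_unit` with `n2' = 0`.
`p'_i (0) = 0 → p_i (0) = 0`: if `p_i(0) ≠ 0` then `μ_i = 0` and `p'_i (0) = p_i (0)`.
`ny` (`w = 0`, `B > 0`): if `y ∣ p'_i` then `x ^ μ_i p'_i (x, y)` vanishes for `y = 0`, so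
`p_i (x, 0) = (ch 0 p_i) (x, 0) = 0`, `y ∣ p_i`.
`neJ`: `J''_j ≠ 0` for `J_j ≠ 0` (`ch w` is injective: `f = ch`-preimage, or: the leading form).
`st_swap`: everything is symmetric.
-/

open MvPolynomial

namespace MotMono
namespace TV

private theorem vec00 : (![0, 0] : Fin 2 → ℂ) = 0 := by
  ext i; fin_cases i <;> rfl

private theorem hc_zero (f : P2) : homogeneousComponent 0 f = C (eval 0 f) := by
  rw [homogeneousComponent_zero, eval_zero]
  rfl

private theorem ord_zero_of_eval {f : P2} {μ : ℕ} (hf : OrdP f μ) (h : eval 0 f ≠ 0) : μ = 0 := by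
  by_contra hμ
  have := hf 0 (Nat.pos_of_ne_zero hμ)
  rw [hc_zero] at this
  exact h (by simpa using this)

private theorem ordP_one_poly : OrdP (1 : P2) 0 := fun k hk => absurd hk (by omega)

private theorem hc_one : homogeneousComponent 0 (1 : P2) = 1 := by
  rw [hc_zero]; simp

private theorem ord_prod {ι : Type*} (s : Finset ι) (f : ι → P2) (a : ι → ℕ)
    (hf : ∀ i ∈ s, OrdP (f i) (a i)) :
    OrdP (∏ i ∈ s, f i) (∑ i ∈ s, a i) ∧
      homogeneousComponent (∑ i ∈ s, a i) (∏ i ∈ s, f i) =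
        ∏ i ∈ s, homogeneousComponent (a i) (f i) := by
  classical
  induction s using Finset.induction_on with
  | empty => exact ⟨by simpa using ordP_one_poly, by simp⟩
  | insert i s hi ih =>
      have h1 := hf i (Finset.mem_insert_self i s)
      obtain ⟨h2, h3⟩ := ih fun j hj => hf j (Finset.mem_insert_of_mem hj)
      rw [Finset.prod_insert hi, Finset.sum_insert hi, Finset.prod_insert hi]
      exact ⟨ordP_mul h1 h2, by rw [hc_mul h1 h2, h3]⟩

private theorem ord_pow (f : P2) (a m : ℕ) (hf : OrdP f a) :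
    OrdP (f ^ m) (m * a) ∧
      homogeneousComponent (m * a) (f ^ m) = homogeneousComponent a f ^ m := by
  have h := ord_prod (Finset.range m) (fun _ => f) (fun _ => a) (fun _ _ => hf)
  simpa using h

private theorem ord_unique {r : ℕ} {J : Fin r → P2} {a b : ℕ} (ha : ∀ j, OrdP (J j) a)
    (ha' : ∃ j, homogeneousComponent a (J j) ≠ 0) (hb : ∀ j, OrdP (J j) b)
    (hb' : ∃ j, homogeneousComponent b (J j) ≠ 0) : a = b := by
  obtain ⟨i, hi⟩ := ha'
  obtain ⟨j, hj⟩ := hb'
  rcases lt_trichotomy a b with h | h | h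
  · exact absurd (hb i a h) hi
  · exact h
  · exact absurd (ha j b h) hj

private theorem exists_line_ne {f g : P2} {μ : ℕ} {w : ℂ} (hf : homogeneousComponent μ f ≠ 0)
    (hg : ∀ y : ℂ, eval ![0, y] g = eval ![1, y + w] (homogeneousComponent μ f)) :
    ∃ y : ℂ, eval ![0, y] g ≠ 0 := by
  obtain ⟨P, hP, _, h⟩ := exists_eval_ne hf
  obtain ⟨z, hz⟩ : ∃ z : ℂ, P.eval z ≠ 0 := by
    by_contra hcon
    push Not at hcon
    exact hP (Polynomial.funext fun x => by simp [hcon x])
  refine ⟨z - w, ?_⟩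
  rw [hg, sub_add_cancel, ← h]
  exact hz

private theorem x_dvd_eval {g : P2} (h : (X 0 : P2) ∣ g) (y : ℂ) : eval ![0, y] g = 0 := by
  obtain ⟨q, rfl⟩ := h
  simp

private theorem y_dvd_eval {g : P2} (h : (X 1 : P2) ∣ g) (x : ℂ) : eval ![x, 0] g = 0 := by
  obtain ⟨q, rfl⟩ := h
  simp

private theorem y_dvd_of_eval {g : P2} (h : ∀ x : ℂ, eval ![x, 0] g = 0) : (X 1 : P2) ∣ g := by
  have h1 : ∀ f : P2, (X 1 : P2) ∣ f - aeval (![X 0, 0] : Fin 2 → P2) f := by
    intro f
    induction f using MvPolynomial.induction_on with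
    | C a => simp
    | add p q hp hq =>
        rw [map_add]
        have : p + q - (aeval ![X 0, 0] p + aeval ![X 0, 0] q) =
          (p - aeval (![X 0, 0] : Fin 2 → P2) p) + (q - aeval (![X 0, 0] : Fin 2 → P2) q) := by ring
        rw [this]
        exact dvd_add hp hq
    | mul_X p i hp =>
        rw [map_mul, aeval_X]
        have : p * X i - aeval (![X 0, 0] : Fin 2 → P2) p * (![X 0, 0] : Fin 2 → P2) i =
          (p - aeval (![X 0, 0] : Fin 2 → P2) p) * X i +
            aeval (![X 0, 0] : Fin 2 → P2) p * (X i - (![X 0, 0] : Fin 2 → P2) i) := by ring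
        rw [this]
        refine dvd_add (Dvd.dvd.mul_right hp _) (Dvd.dvd.mul_left ?_ _)
        fin_cases i
        · simp
        · simp
  have h2 : aeval (![X 0, 0] : Fin 2 → P2) g = 0 := by
    refine MvPolynomial.funext fun q => ?_
    rw [map_zero, ← h (q 0)]
    have : ∀ f : P2, eval q (aeval (![X 0, 0] : Fin 2 → P2) f) = eval ![q 0, 0] f := by
      intro f
      induction f using MvPolynomial.induction_on with
      | C a => simp
      | add p q hp hq => rw [map_add, map_add, map_add, hp, hq]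
      | mul_X p i hp =>
          rw [map_mul, map_mul, map_mul, hp, aeval_X, eval_X]
          congr 1
          fin_cases i <;> simp
    exact this g
  have := h1 g
  rwa [h2, sub_zero] at this

private theorem eval_ch (w : ℂ) (q : Fin 2 → ℂ) (f : P2) :
    eval q (ch w f) = eval ![q 0, q 0 * (q 1 + w)] f := by
  unfold ch
  induction f using MvPolynomial.induction_on with
  | C a => simp
  | add p q hp hq => rw [map_add, map_add, map_add, hp, hq]
  | mul_X p i hp =>
      rw [map_mul, map_mul, map_mul, hp, aeval_X, eval_X]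
      congr 1
      fin_cases i <;> simp [cv]

theorem st_chart {r s : ℕ} {F : Fin r → P2} {A B : ℕ} {p : Fin s → P2} {m : Fin s → ℕ}
    {J : Fin r → P2} {n1 n2 : ℕ} (h : St F A B p m J n1 n2) (w : ℂ) (μ : ℕ)
    (hμ : ∀ j, OrdP ((∏ i, p i ^ m i) * J j) μ)
    (hμ' : ∃ j, homogeneousComponent μ ((∏ i, p i ^ m i) * J j) ≠ 0) :
    ∃ (p' : Fin s → P2) (J' : Fin r → P2) (n1' n2' : ℕ),
      St (fun j => ch w (F j)) (A + B + μ) (if w = 0 then B else 0) p' m J' n1' n2' ∧
      (∀ i, eval 0 (p' i) = 0 → eval 0 (p i) = 0) ∧ n1' ≤ n1 ∧ n2' ≤ n2 ∧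
      ((∀ j, eval 0 (J j) = 0) → n1' < n1) ∧ (OrdP (∏ i, p i) 2 → n2' < n2) := by
  classical
  choose a ha ha' using fun i => exists_ord (h.ne i)
  choose p' hp' hp0 using fun i => ch_ord w (p i) (a i) (ha i)
  obtain ⟨b, hb, hb'⟩ := exists_ord_tuple h.neJ
  choose J'' hJ'' hJ0 using fun j => ch_ord w (J j) b (hb j)
  -- order of the product
  have hP := ord_prod Finset.univ (fun i => p i ^ m i) (fun i => m i * a i)
    (fun i _ => (ord_pow (p i) (a i) (m i) (ha i)).1)
  have hPne : homogeneousComponent (∑ i, m i * a i) (∏ i, p i ^ m i) ≠ 0 := by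
    rw [hP.2, Finset.prod_ne_zero_iff]
    intro i _
    rw [(ord_pow (p i) (a i) (m i) (ha i)).2]
    exact pow_ne_zero _ (ha' i)
  have hμeq : (∑ i, m i * a i) + b = μ := by
    refine ord_unique (J := fun j => (∏ i, p i ^ m i) * J j) (fun j => ordP_mul hP.1 (hb j)) ?_
      hμ hμ'
    obtain ⟨j, hj⟩ := hb'
    exact ⟨j, by rw [hc_mul hP.1 (hb j)]; exact mul_ne_zero hPne hj⟩
  -- the equation
  have hch : ∀ j, ch w (F j) =
      X 0 ^ (A + B + μ) * (X 1 + C w) ^ B * (∏ i, p' i ^ m i) * J'' j := by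
    intro j
    have e1 : ch w (F j) = (ch w (X 0)) ^ A * (ch w (X 1)) ^ B * (∏ i, (ch w (p i)) ^ m i) *
        ch w (J j) := by
      rw [h.eq j]
      unfold ch
      simp only [map_mul, map_pow, map_prod]
    have e2 : ch w (X 0) = X 0 := by simp [ch, cv]
    have e3 : ch w (X 1) = X 0 * (X 1 + C w) := by simp [ch, cv]
    have e4 : (∏ i, (ch w (p i)) ^ m i) = X 0 ^ (∑ i, m i * a i) * ∏ i, p' i ^ m i := by
      rw [← Finset.prod_pow_eq_pow_sum, ← Finset.prod_mul_distrib]
      refine Finset.prod_congr rfl fun i _ => ?_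
      rw [hp' i, mul_pow, ← pow_mul, mul_comm (a i)]
    rw [e1, e2, e3, e4, hJ'' j, ← hμeq, mul_pow]
    ring
  have hline : ∀ i, ∃ y : ℂ, eval ![0, y] (p' i) ≠ 0 := fun i => exists_line_ne (ha' i) (hp0 i)
  have hnx : ∀ i, ¬ (X 0 : P2) ∣ p' i := by
    intro i hd
    obtain ⟨y, hy⟩ := hline i
    exact hy (x_dvd_eval hd y)
  have hne : ∀ i, p' i ≠ 0 := by
    intro i h0
    exact hnx i (by rw [h0]; exact dvd_zero _)
  have hneJ : ∃ j, J'' j ≠ 0 := by
    obtain ⟨j, hj⟩ := hb'
    obtain ⟨y, hy⟩ := exists_line_ne hj (hJ0 j)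
    exact ⟨j, fun h0 => hy (by rw [h0, map_zero])⟩
  have heval : ∀ i, eval 0 (p' i) = 0 → eval 0 (p i) = 0 := by
    intro i
    contrapose!
    intro hi
    have h0 : a i = 0 := ord_zero_of_eval (ha i) hi
    have h1 := hp0 i 0
    rw [h0, hc_zero, eval_C, vec00] at h1
    rw [h1]
    exact hi
  -- lengths of `J`
  obtain ⟨hl1, hl1'⟩ := len_tuple hb hb' hJ'' h.len1
  obtain ⟨n1', hn1, hn1le, hn1lt⟩ : ∃ n1', LenLe (Ideal.span (Set.range J'')) n1' ∧ n1' ≤ n1 ∧
      ((∀ j, eval 0 (J j) = 0) → n1' < n1) := by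
    by_cases hall : ∀ j, eval 0 (J j) = 0
    · have hbpos : 0 < b := by
        rcases Nat.eq_zero_or_pos b with h0 | h0
        · exfalso
          obtain ⟨j, hj⟩ := hb'
          rw [h0, hc_zero, hall j] at hj
          exact hj (by simp)
        · exact h0
      obtain ⟨n', hn', hn''⟩ := hl1' hbpos
      exact ⟨n', hn'', hn'.le, fun _ => hn'⟩
    · exact ⟨n1, hl1, le_rfl, fun h' => absurd h' hall⟩
  -- lengths of the curve
  have hQ := ord_prod Finset.univ p a (fun i _ => ha i)
  have hQne : homogeneousComponent (∑ i, a i) (∏ i, p i) ≠ 0 := by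
    rw [hQ.2, Finset.prod_ne_zero_iff]
    exact fun i _ => ha' i
  have hchQ : ch w (∏ i, p i) = X 0 ^ (∑ i, a i) * ∏ i, p' i := by
    have e1 : ch w (∏ i, p i) = ∏ i, ch w (p i) := by
      unfold ch
      rw [map_prod]
    rw [e1, ← Finset.prod_pow_eq_pow_sum, ← Finset.prod_mul_distrib]
    exact Finset.prod_congr rfl fun i _ => hp' i
  obtain ⟨n2', hn2, hn2le, hn2lt⟩ : ∃ n2', LenLe (tj (∏ i, p' i)) n2' ∧ n2' ≤ n2 ∧
      (OrdP (∏ i, p i) 2 → n2' < n2) := by
    rcases Nat.eq_zero_or_pos (∑ i, a i) with h0 | h0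
    · refine ⟨0, ?_, Nat.zero_le _, fun h2 => ?_⟩
      · refine len_unit (f := ∏ i, p' i) (Ideal.subset_span (by simp)) ?_
        rw [map_prod, Finset.prod_ne_zero_iff]
        intro i _ hi
        have hai : a i = 0 := by
          have := Finset.single_le_sum (f := a) (fun j _ => Nat.zero_le _) (Finset.mem_univ i)
          omega
        have h1 := hp0 i 0
        have h2 := ha' i
        rw [hai, hc_zero] at h2
        rw [hai, hc_zero, eval_C, vec00, hi] at h1
        exact h2 (by rw [← h1]; simp)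
      · exfalso
        apply hQne
        rw [h0]
        exact h2 0 (by norm_num)
    · obtain ⟨h1, h2⟩ := tj_blowup h0 hQ.1 hQne hchQ h.len2
      by_cases h3 : OrdP (∏ i, p i) 2
      · have h4 : 2 ≤ ∑ i, a i := by
          by_contra hcon
          exact hQne (h3 _ (by omega))
        obtain ⟨n', hn', hn''⟩ := h2 h4
        exact ⟨n', hn'', hn'.le, fun _ => hn'⟩
      · exact ⟨n2, h1, le_rfl, fun h' => absurd h' h3⟩
  by_cases hw : w = 0
  · subst hw
    refine ⟨p', J'', n1', n2', ?_, heval, hn1le, hn2le, hn1lt, hn2lt⟩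
    refine ⟨fun j => ?_, h.pos, hne, hneJ, hn1, hn2, fun _ => hnx, fun hB i hd => ?_⟩
    · rw [if_pos rfl]
      show ch 0 (F j) = _
      rw [hch j]
      simp
    · rw [if_pos rfl] at hB
      refine h.ny hB i (y_dvd_of_eval fun x => ?_)
      have h1 := congrArg (eval ![x, 0]) (hp' i)
      rw [eval_ch, map_mul, y_dvd_eval hd, mul_zero] at h1
      simpa using h1
  · set u : P2 := (X 1 + C w) ^ B with hu
    have hu0 : eval 0 u ≠ 0 := by
      rw [hu]
      simp [hw]
    refine ⟨p', fun j => u * J'' j, n1', n2', ?_, heval, hn1le, hn2le, hn1lt, hn2lt⟩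
    refine ⟨fun j => ?_, h.pos, hne, ?_, len_mul hu0 hn1, hn2, fun _ => hnx, fun hB => ?_⟩
    · rw [if_neg hw]
      show ch w (F j) = _
      rw [hch j]
      ring
    · obtain ⟨j, hj⟩ := hneJ
      refine ⟨j, mul_ne_zero ?_ hj⟩
      intro h0
      exact hu0 (by rw [h0, map_zero])
    · rw [if_neg hw] at hB
      exact absurd hB (by omega)

private theorem sw_inj {f : P2} (h : sw f = 0) : f = 0 := by
  rw [← sw_sw f, h]
  simp [sw]

private theorem sw_mul (f g : P2) : sw (f * g) = sw f * sw g := by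
  unfold sw; rw [map_mul]

private theorem sw_dvd {f g : P2} (h : f ∣ g) : sw f ∣ sw g := by
  obtain ⟨q, rfl⟩ := h
  rw [sw_mul]
  exact dvd_mul_right _ _

private theorem sw_X0 : sw (X 0) = X 1 := by simp [sw, sv]

private theorem sw_X1 : sw (X 1) = X 0 := by simp [sw, sv]

theorem st_swap {r s : ℕ} {F : Fin r → P2} {A B : ℕ} {p : Fin s → P2} {m : Fin s → ℕ}
    {J : Fin r → P2} {n1 n2 : ℕ} (h : St F A B p m J n1 n2) :
    St (fun j => sw (F j)) B A (fun i => sw (p i)) m (fun j => sw (J j)) n1 n2 := by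
  refine ⟨fun j => ?_, h.pos, fun i hi => h.ne i (sw_inj hi), ?_, len_sw h.len1, ?_,
    fun hB i hd => ?_, fun hA i hd => ?_⟩
  · show sw (F j) = _
    rw [h.eq j]
    have e : sw (X 0 ^ A * X 1 ^ B * (∏ i, p i ^ m i) * J j) =
        sw (X 0) ^ A * sw (X 1) ^ B * (∏ i, sw (p i) ^ m i) * sw (J j) := by
      unfold sw
      simp only [map_mul, map_pow, map_prod]
    rw [e, sw_X0, sw_X1]
    ring
  · obtain ⟨j, hj⟩ := h.neJ
    exact ⟨j, fun h0 => hj (sw_inj h0)⟩
  · have e : (∏ i, sw (p i)) = sw (∏ i, p i) := by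
      unfold sw
      rw [map_prod]
    rw [e]
    exact tj_sw h.len2
  · have := sw_dvd hd
    rw [sw_X0, sw_sw] at this
    exact h.ny hB i this
  · have := sw_dvd hd
    rw [sw_X1, sw_sw] at this
    exact h.nx hA i this

theorem eval_sw (f : P2) : eval 0 (sw f) = eval 0 f := by
  unfold sw
  induction f using MvPolynomial.induction_on with
  | C a => simp
  | add p q hp hq => rw [map_add, map_add, map_add, hp, hq]
  | mul_X p i hp =>
      rw [map_mul, map_mul, map_mul, hp, aeval_X, eval_X]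
      congr 1
      fin_cases i <;> simp [sv]

theorem hc_sw (f : P2) (μ : ℕ) :
    homogeneousComponent μ (sw f) = sw (homogeneousComponent μ f) := by
  have hhom : ∀ k, (sw (homogeneousComponent k f)).IsHomogeneous k := by
    intro k
    have e : sw (homogeneousComponent k f) =
        rename (Equiv.swap (0 : Fin 2) 1) (homogeneousComponent k f) := by
      have e' : (aeval sv : P2 →ₐ[ℂ] P2) = rename (Equiv.swap (0 : Fin 2) 1) := by
        refine MvPolynomial.algHom_ext fun i => ?_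
        rw [aeval_X, rename_X]
        fin_cases i <;> simp [sv]
      unfold sw
      rw [e']
    rw [e]
    exact (homogeneousComponent_isHomogeneous k f).rename_isHomogeneous
  have e : sw f = ∑ k ∈ Finset.range (f.totalDegree + 1), sw (homogeneousComponent k f) := by
    conv_lhs => rw [← sum_homogeneousComponent f]
    unfold sw
    rw [map_sum]
  rw [e, map_sum]
  have : ∀ k ∈ Finset.range (f.totalDegree + 1),
      homogeneousComponent μ (sw (homogeneousComponent k f)) =
        if μ = k then sw (homogeneousComponent k f) else 0 := fun k _ =>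
    homogeneousComponent_of_mem (hhom k)
  rw [Finset.sum_congr rfl this, Finset.sum_ite_eq]
  split_ifs with h
  · rfl
  · have h1 : f.totalDegree < μ := by
      rw [Finset.mem_range] at h
      omega
    rw [homogeneousComponent_eq_zero _ _ h1]
    simp [sw]

theorem ordP_sw (f : P2) (μ : ℕ) : OrdP (sw f) μ ↔ OrdP f μ := by
  constructor
  · intro h k hk
    have := h k hk
    rw [hc_sw] at this
    exact sw_inj this
  · intro h k hk
    rw [hc_sw, h k hk]
    simp [sw]

end TV
end MotMono
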