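import Pool.Agent.Lib.MP_4e5fcd_ag.TV.Base
import Pool.Agent.Lib.MP_4e5fcd_ag.TV.A0

/-!
# TV-A7: a tuple has a resolution tree if its charts have

Let `μ` be the order of the tuple `J` (`exists_ord_tuple`), `μ > 0` because `J (0) = 0` (`ordP_one`).
The set of `w ≠ 0` with `ld μ J ![1, w] = 0` is finite (`exists_eval_ne` for a `j` with non-zero
leading form: roots of a non-zero polynomial): list it as `ws : Fin n → ℂ`, injective.
Label: if there are `η, c` with `ld μ J ![1, w] = c.eval w • η` for all `w` then `inl η`, and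
`η ≠ 0` because `ld μ J ![1, w] ≠ 0` for some `w`; otherwise `inr f` with `f` defined by the formula of
`LabOK`. Choose the trees of the charts from `sub` (`w = 0`, `w = ws i`) and `subi`.
`strs` of the node is the sum of the `strs` of the subtrees.
-/

open MvPolynomial

namespace MotMono
namespace TV

theorem node_of_subs {r : ℕ} (F J : Fin r → P2) (A B : ℕ)
    (hF : ∀ j, F j = X 0 ^ A * X 1 ^ B * J j) (h0 : ∀ j, eval 0 (J j) = 0)
    (hne : ∃ j, J j ≠ 0) (P : ℕ → Prop)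
    (sub : ∀ μ : ℕ, 0 < μ → (∀ j, OrdP (J j) μ) → (∃ j, homogeneousComponent μ (J j) ≠ 0) →
      ∀ w : ℂ, (w = 0 ∨ ld μ J ![1, w] = 0) →
        ∃ X : Str r, Rz (fun j => ch w (F j)) (A + B + μ) (if w = 0 then B else 0) X ∧
          ∀ M ∈ X.strs, P M)
    (subi : ∀ μ : ℕ, 0 < μ → (∀ j, OrdP (J j) μ) → (∃ j, homogeneousComponent μ (J j) ≠ 0) →
        ∃ X : Str r, Rz (fun j => ch 0 (sw (F j))) (A + B + μ) A X ∧ ∀ M ∈ X.strs, P M) :
    ∃ X : Str r, X ≠ Str.triv ∧ Rz F A B X ∧ ∀ M ∈ X.strs, P M := by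
  classical
  obtain ⟨μ, hμ, hμ'⟩ := exists_ord_tuple hne
  have hμpos : 0 < μ := by
    rcases Nat.eq_zero_or_pos μ with h | h
    · exfalso
      obtain ⟨j, hj⟩ := hμ'
      apply hj
      rw [h]
      exact (ordP_one (J j)).mpr (h0 j) 0 (by norm_num)
    · exact h
  obtain ⟨j₀, hj₀⟩ := hμ'
  obtain ⟨Q, hQ0, _, hQ⟩ := exists_eval_ne hj₀
  have hne' : ∀ w : ℂ, Q.eval w ≠ 0 → ld μ J ![1, w] ≠ 0 := by
    intro w hw h
    have := congrFun h j₀
    rw [Pi.zero_apply] at this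
    rw [hQ w] at hw
    exact hw this
  have hfin : {w : ℂ | w ≠ 0 ∧ ld μ J ![1, w] = 0}.Finite := by
    refine (Q.rootSet_finite ℂ).subset fun w hw => ?_
    rw [Polynomial.mem_rootSet]
    refine ⟨hQ0, ?_⟩
    by_contra hcon
    refine hne' w ?_ hw.2
    simpa [Polynomial.aeval_def] using hcon
  obtain ⟨n, ws, hinj, hws⟩ : ∃ (n : ℕ) (ws : Fin n → ℂ), Function.Injective ws ∧
      ∀ w, (∃ i, ws i = w) ↔ (w ≠ 0 ∧ ld μ J ![1, w] = 0) := by
    refine ⟨hfin.toFinset.card, fun i => (hfin.toFinset.equivFin.symm i : ℂ), ?_, fun w => ?_⟩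
    · intro i j hij
      exact hfin.toFinset.equivFin.symm.injective (Subtype.ext hij)
    · constructor
      · rintro ⟨i, rfl⟩
        have := (hfin.toFinset.equivFin.symm i).2
        rw [Set.Finite.mem_toFinset] at this
        exact this
      · intro hw
        have hm : w ∈ hfin.toFinset := by
          rw [Set.Finite.mem_toFinset]
          exact hw
        exact ⟨hfin.toFinset.equivFin ⟨w, hm⟩, by simp⟩
  have hws0 : ∀ i, ws i ≠ 0 := fun i => ((hws (ws i)).mp ⟨i, rfl⟩).1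
  have hwsz : ∀ i, ld μ J ![1, ws i] = 0 := fun i => ((hws (ws i)).mp ⟨i, rfl⟩).2
  have hnz : ∀ w : ℂ, w ≠ 0 → (∀ i, ws i ≠ w) → ld μ J ![1, w] ≠ 0 := by
    intro w hw hi h
    obtain ⟨i, hi'⟩ := (hws w).mpr ⟨hw, h⟩
    exact hi i hi'
  obtain ⟨s0, hs0, hs0'⟩ := sub μ hμpos hμ ⟨j₀, hj₀⟩ 0 (Or.inl rfl)
  rw [if_pos rfl] at hs0
  obtain ⟨si, hsi, hsi'⟩ := subi μ hμpos hμ ⟨j₀, hj₀⟩
  have hfr : ∀ i, ∃ X : Str r, Rz (fun j => ch (ws i) (F j)) (A + B + μ) 0 X ∧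
      ∀ M ∈ X.strs, P M := by
    intro i
    obtain ⟨X, hX, hX'⟩ := sub μ hμpos hμ ⟨j₀, hj₀⟩ (ws i) (Or.inr (hwsz i))
    rw [if_neg (hws0 i)] at hX
    exact ⟨X, hX, hX'⟩
  choose fr hfr1 hfr2 using hfr
  obtain ⟨lab, hlab⟩ : ∃ lab, LabOK μ J ws (s0.dv B) (si.dv A) lab := by
    by_cases hex : ∃ (η : Fin r → ℂ) (c : Polynomial ℂ), ∀ w : ℂ, ld μ J ![1, w] = c.eval w • η
    · obtain ⟨η, c, hc⟩ := hex
      refine ⟨Sum.inl η, ?_, c, hc⟩
      rintro rfl
      obtain ⟨z, hz⟩ : ∃ z : ℂ, Q.eval z ≠ 0 := by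
        by_contra hcon
        push Not at hcon
        exact hQ0 (Polynomial.funext fun x => by simp [hcon x])
      exact hne' z hz (by rw [hc z, smul_zero])
    · exact ⟨Sum.inr _, hex, fun ζ _ => rfl⟩
  refine ⟨.node μ lab s0 si n fr, by simp, ?_, ?_⟩
  · exact Rz.node F J A B μ hμpos hF hμ ⟨j₀, hj₀⟩ n ws hinj hws0 hwsz hnz lab s0 si fr hlab hs0 hsi
      hfr1
  · intro M hM
    simp only [Str.strs, Multiset.mem_add, Multiset.mem_sum, Finset.mem_univ, true_and] at hM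
    rcases hM with (hM | hM) | ⟨i, hM⟩
    · exact hs0' M hM
    · exact hsi' M hM
    · exact hfr2 i M hM

end TV
end MotMono
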