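import Pool.Agent.Lib.MP_4e5fcd_ag.TV.A6
import Pool.Agent.Lib.MP_4e5fcd_ag.TV.A7

/-!
# TV-A8: resolution of a smooth curve at a corner

`F_j = x ^ A y ^ B v ^ M g_j`, `v(0) = 0`, gradient of `v` at `0` not zero, `g (0) ≠ 0`, `x, y ∤ v`.
Induction on `i_x + i_y`, where `i_x = ord_y v(0, y)`, `i_y = ord_x v(x, 0)` (finite and `≥ 1`; e.g.
`Polynomial.natTrailingDegree` of `aeval ![0, Polynomial.X] v`, `aeval ![Polynomial.X, 0] v`).
Apply `node_of_subs` with `J_j = v ^ M g_j` (order `M`, leading form `v_1 ^ M g_j (0)`,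
`v_1 = α x + β y`, so the `μ` of the charts is `M`, and `ld M J ![1, w] = (α + β w) ^ M g (0)`).
Let `ch w v = x v_w` (`ch_ord`), `v_w (0) = α + β w`, `ch w (F_j) = x ^ (A + B + M) (y + w) ^ B v_w ^ M
(ch w g_j)`, `ch w g_j (0) = g_j (0)`.
* `w = 0`, `α ≠ 0`: `triv`. `w = 0`, `α = 0` (so `β ≠ 0`): `v_0 (0) = 0`, `∂_y v_0 (0) = β ≠ 0`, `x ∤ v_0`
  (`v_0 (0, y) = β y`), `y ∤ v_0` (else `v(x, 0) = 0`): both lines are curves, `i_x (v_0) = 1`,
  `i_y (v_0) = i_y (v) - 1` (`v(x, 0) = x v_0 (x, 0)`), so the sum is `i_y (v) < i_x (v) + i_y (v)`: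
  induction.
* `w ≠ 0`, `α + β w = 0`: `β ≠ 0`, `∂_y v_w (0) = β ≠ 0`: `strict M` with `g_j` replaced by
  `(y + w) ^ B ch w g_j`. (The other `w ≠ 0` do not occur in `sub`.)
* `subi`: the tuple `sw (F_j) = x ^ B y ^ A (sw v) ^ M sw g_j`: same computation with `α`, `β` exchanged.
All strict transforms have multiplicity `M`.
-/

open MvPolynomial

namespace MotMono
namespace TV

private noncomputable def a8px (f : P2) : Polynomial ℂ := aeval ![0, Polynomial.X] f

private noncomputable def a8py (f : P2) : Polynomial ℂ := aeval ![Polynomial.X, 0] f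

private theorem a8px_mul (f g : P2) : a8px (f * g) = a8px f * a8px g := map_mul _ _ _

private theorem a8py_mul (f g : P2) : a8py (f * g) = a8py f * a8py g := map_mul _ _ _

private theorem a8px_add (f g : P2) : a8px (f + g) = a8px f + a8px g := map_add _ _ _

private theorem a8py_add (f g : P2) : a8py (f + g) = a8py f + a8py g := map_add _ _ _

private theorem a8px_C (a : ℂ) : a8px (C a) = Polynomial.C a := by
  unfold a8px
  rw [aeval_C]
  rfl

private theorem a8py_C (a : ℂ) : a8py (C a) = Polynomial.C a := by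
  unfold a8py
  rw [aeval_C]
  rfl

private theorem a8px_X0 : a8px (X 0) = 0 := by
  unfold a8px
  rw [aeval_X]
  rfl

private theorem a8px_X1 : a8px (X 1) = Polynomial.X := by
  unfold a8px
  rw [aeval_X]
  rfl

private theorem a8py_X0 : a8py (X 0) = Polynomial.X := by
  unfold a8py
  rw [aeval_X]
  rfl

private theorem a8py_X1 : a8py (X 1) = 0 := by
  unfold a8py
  rw [aeval_X]
  rfl

private theorem a8px_eval (f : P2) (y : ℂ) : (a8px f).eval y = eval ![0, y] f := by
  induction f using MvPolynomial.induction_on with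
  | C a => rw [a8px_C, Polynomial.eval_C, eval_C]
  | add p q hp hq => rw [a8px_add, Polynomial.eval_add, hp, hq, map_add]
  | mul_X p i hp =>
    rw [a8px_mul, Polynomial.eval_mul, hp, map_mul, eval_X]
    fin_cases i
    · simp only [Fin.zero_eta, Fin.isValue]
      rw [a8px_X0]
      simp
    · simp only [Fin.mk_one, Fin.isValue]
      rw [a8px_X1]
      simp

private theorem a8py_eval (f : P2) (y : ℂ) : (a8py f).eval y = eval ![y, 0] f := by
  induction f using MvPolynomial.induction_on with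
  | C a => rw [a8py_C, Polynomial.eval_C, eval_C]
  | add p q hp hq => rw [a8py_add, Polynomial.eval_add, hp, hq, map_add]
  | mul_X p i hp =>
    rw [a8py_mul, Polynomial.eval_mul, hp, map_mul, eval_X]
    fin_cases i
    · simp only [Fin.zero_eta, Fin.isValue]
      rw [a8py_X0]
      simp
    · simp only [Fin.mk_one, Fin.isValue]
      rw [a8py_X1]
      simp

private theorem a8_zero : (![0, 0] : Fin 2 → ℂ) = 0 := by
  funext i
  fin_cases i <;> rfl

private theorem a8px_eval0 (f : P2) : (a8px f).eval 0 = eval 0 f := by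
  rw [a8px_eval, a8_zero]

private theorem a8py_eval0 (f : P2) : (a8py f).eval 0 = eval 0 f := by
  rw [a8py_eval, a8_zero]

private theorem a8px_deriv (f : P2) :
    Polynomial.derivative (a8px f) = a8px (pderiv 1 f) := by
  induction f using MvPolynomial.induction_on with
  | C a =>
    rw [a8px_C, Polynomial.derivative_C, pderiv_C]
    exact (map_zero (aeval (R := ℂ) ![0, Polynomial.X])).symm
  | add p q hp hq => rw [a8px_add, Polynomial.derivative_add, hp, hq, map_add, a8px_add]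
  | mul_X p i hp =>
    rw [a8px_mul, Polynomial.derivative_mul, hp, pderiv_mul, a8px_add, a8px_mul, a8px_mul]
    fin_cases i
    · simp only [Fin.zero_eta, Fin.isValue]
      rw [a8px_X0, pderiv_X_of_ne (by decide), Polynomial.derivative_zero]
      have : a8px 0 = 0 := map_zero (aeval (R := ℂ) ![0, Polynomial.X])
      rw [this]
    · simp only [Fin.mk_one, Fin.isValue]
      rw [a8px_X1, pderiv_X_self, Polynomial.derivative_X]
      have : a8px 1 = 1 := map_one (aeval (R := ℂ) ![0, Polynomial.X])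
      rw [this]

private theorem a8py_deriv (f : P2) :
    Polynomial.derivative (a8py f) = a8py (pderiv 0 f) := by
  induction f using MvPolynomial.induction_on with
  | C a =>
    rw [a8py_C, Polynomial.derivative_C, pderiv_C]
    exact (map_zero (aeval (R := ℂ) ![Polynomial.X, 0])).symm
  | add p q hp hq => rw [a8py_add, Polynomial.derivative_add, hp, hq, map_add, a8py_add]
  | mul_X p i hp =>
    rw [a8py_mul, Polynomial.derivative_mul, hp, pderiv_mul, a8py_add, a8py_mul, a8py_mul]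
    fin_cases i
    · simp only [Fin.zero_eta, Fin.isValue]
      rw [a8py_X0, pderiv_X_self, Polynomial.derivative_X]
      have : a8py 1 = 1 := map_one (aeval (R := ℂ) ![Polynomial.X, 0])
      rw [this]
    · simp only [Fin.mk_one, Fin.isValue]
      rw [a8py_X1, pderiv_X_of_ne (by decide), Polynomial.derivative_zero]
      have : a8py 0 = 0 := map_zero (aeval (R := ℂ) ![Polynomial.X, 0])
      rw [this]

private theorem a8px_dvd (f : P2) : (X 0 : P2) ∣ f ↔ a8px f = 0 := by
  constructor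
  · rintro ⟨g, rfl⟩
    rw [a8px_mul, a8px_X0, zero_mul]
  · intro h
    have h1 : (X 0 : P2) ∣ f - Polynomial.aeval (X 1 : P2) (a8px f) := by
      clear h
      induction f using MvPolynomial.induction_on with
      | C a =>
        rw [a8px_C, Polynomial.aeval_C]
        show (X 0 : P2) ∣ C a - C a
        rw [sub_self]
        exact dvd_zero _
      | add p q hp hq =>
        rw [a8px_add, map_add, add_sub_add_comm]
        exact dvd_add hp hq
      | mul_X p i hp =>
        rw [a8px_mul, map_mul]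
        fin_cases i
        · simp only [Fin.zero_eta, Fin.isValue]
          rw [a8px_X0, map_zero, mul_zero, sub_zero]
          exact dvd_mul_left _ _
        · simp only [Fin.mk_one, Fin.isValue]
          rw [a8px_X1, Polynomial.aeval_X, ← sub_mul]
          exact dvd_mul_of_dvd_left hp _
    rw [h, map_zero, sub_zero] at h1
    exact h1

private theorem a8_sw_X0 : sw (X 0) = X 1 := by
  unfold sw
  rw [aeval_X]
  rfl

private theorem a8_sw_X1 : sw (X 1) = X 0 := by
  unfold sw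
  rw [aeval_X]
  rfl

private theorem a8px_sw (f : P2) : a8px (sw f) = a8py f := by
  induction f using MvPolynomial.induction_on with
  | C a =>
    have : sw (C a) = C a := by
      unfold sw
      rw [aeval_C]
      rfl
    rw [this, a8px_C, a8py_C]
  | add p q hp hq =>
    have : sw (p + q) = sw p + sw q := map_add _ _ _
    rw [this, a8px_add, a8py_add, hp, hq]
  | mul_X p i hp =>
    have : sw (p * X i) = sw p * sw (X i) := map_mul _ _ _
    rw [this, a8px_mul, a8py_mul, hp]
    fin_cases i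
    · simp only [Fin.zero_eta, Fin.isValue]
      rw [a8_sw_X0, a8px_X1, a8py_X0]
    · simp only [Fin.mk_one, Fin.isValue]
      rw [a8_sw_X1, a8px_X0, a8py_X1]

private theorem a8py_sw (f : P2) : a8py (sw f) = a8px f := by
  rw [← a8px_sw, sw_sw]

private theorem a8py_dvd (f : P2) : (X 1 : P2) ∣ f ↔ a8py f = 0 := by
  rw [← a8px_sw, ← a8px_dvd]
  constructor
  · rintro ⟨g, rfl⟩
    refine ⟨sw g, ?_⟩
    have : sw (X 1 * g) = sw (X 1) * sw g := map_mul _ _ _
    rw [this, a8_sw_X1]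
  · rintro ⟨g, hg⟩
    refine ⟨sw g, ?_⟩
    have : sw (X 0 * g) = sw (X 0) * sw g := map_mul _ _ _
    rw [← sw_sw f, hg, this, a8_sw_X0]

private theorem a8_pderiv_sw1 (f : P2) : eval 0 (pderiv 1 (sw f)) = eval 0 (pderiv 0 f) := by
  rw [← a8px_eval0, ← a8px_deriv, a8px_sw, a8py_deriv, a8py_eval0]

private theorem a8_pderiv_sw0 (f : P2) : eval 0 (pderiv 0 (sw f)) = eval 0 (pderiv 1 f) := by
  rw [← a8py_eval0, ← a8py_deriv, a8py_sw, a8px_deriv, a8px_eval0]

private theorem a8_ch_X0 (w : ℂ) : ch w (X 0) = X 0 := by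
  unfold ch
  rw [aeval_X]
  rfl

private theorem a8_ch_X1 (w : ℂ) : ch w (X 1) = X 0 * (X 1 + C w) := by
  unfold ch
  rw [aeval_X]
  rfl

private theorem a8_ch_mul (w : ℂ) (f g : P2) : ch w (f * g) = ch w f * ch w g := map_mul _ _ _

private theorem a8_ch_pow (w : ℂ) (f : P2) (n : ℕ) : ch w (f ^ n) = ch w f ^ n := map_pow _ _ _

private theorem a8_sw_mul (f g : P2) : sw (f * g) = sw f * sw g := map_mul _ _ _

private theorem a8_sw_pow (f : P2) (n : ℕ) : sw (f ^ n) = sw f ^ n := map_pow _ _ _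

private theorem a8_ch_C (w a : ℂ) : ch w (C a) = C a := by
  unfold ch
  rw [aeval_C]
  rfl

private theorem a8_ch_add (w : ℂ) (f g : P2) : ch w (f + g) = ch w f + ch w g := map_add _ _ _

private theorem a8_eval_ch (w : ℂ) (f : P2) : eval 0 (ch w f) = eval 0 f := by
  induction f using MvPolynomial.induction_on with
  | C a => rw [a8_ch_C]
  | add p q hp hq => rw [a8_ch_add, map_add, map_add, hp, hq]
  | mul_X p i hp =>
    rw [a8_ch_mul, map_mul, map_mul, hp]
    congr 1
    fin_cases i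
    · simp only [Fin.zero_eta, Fin.isValue]
      rw [a8_ch_X0]
    · simp only [Fin.mk_one, Fin.isValue]
      rw [a8_ch_X1]
      simp

private theorem a8py_ch (f : P2) : a8py (ch 0 f) = a8py f := by
  induction f using MvPolynomial.induction_on with
  | C a => rw [a8_ch_C]
  | add p q hp hq => rw [a8_ch_add, a8py_add, a8py_add, hp, hq]
  | mul_X p i hp =>
    rw [a8_ch_mul, a8py_mul, a8py_mul, hp]
    congr 1
    fin_cases i
    · simp only [Fin.zero_eta, Fin.isValue]
      rw [a8_ch_X0]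
    · simp only [Fin.mk_one, Fin.isValue]
      rw [a8_ch_X1, a8py_mul, a8py_add, a8py_X1, a8py_C, map_zero, add_zero, mul_zero]

private theorem a8_eval_pderiv (f : P2) (i : Fin 2) :
    eval 0 (pderiv i f) = coeff (Finsupp.single i 1) f := by
  have h1 : eval 0 (pderiv i f) = coeff 0 (pderiv i f) := by
    rw [eval_zero, constantCoeff_eq]
  rw [h1, coeff_pderiv]
  simp

private theorem a8_deg (d : Fin 2 →₀ ℕ) : d.degree = 1 ↔
    (Finsupp.single 0 1 = d ∨ Finsupp.single 1 1 = d) := by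
  rw [Finsupp.degree_eq_sum, Fin.sum_univ_two]
  constructor
  · intro h
    have h' : (d 0 = 1 ∧ d 1 = 0) ∨ (d 0 = 0 ∧ d 1 = 1) := by omega
    rcases h' with ⟨h0, h1⟩ | ⟨h0, h1⟩
    · left
      ext i
      fin_cases i
      · simp [h0]
      · simp [h1]
    · right
      ext i
      fin_cases i
      · simp [h0]
      · simp [h1]
  · rintro (rfl | rfl) <;> simp

private theorem a8_hc1 (v : P2) : homogeneousComponent 1 v
    = C (eval 0 (pderiv 0 v)) * X 0 + C (eval 0 (pderiv 1 v)) * X 1 := by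
  classical
  have hne : ¬ ((Finsupp.single 1 1 : Fin 2 →₀ ℕ) = Finsupp.single 0 1) := by
    intro h
    have := DFunLike.congr_fun h 0
    simp at this
  have hne' : ¬ ((Finsupp.single 0 1 : Fin 2 →₀ ℕ) = Finsupp.single 1 1) := fun h => hne h.symm
  rw [a8_eval_pderiv, a8_eval_pderiv]
  ext d
  rw [coeff_homogeneousComponent, coeff_add, coeff_C_mul, coeff_C_mul, coeff_X, coeff_X]
  by_cases h0 : Finsupp.single 0 1 = d
  · have h1 : d.degree = 1 := (a8_deg d).2 (Or.inl h0)
    subst h0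
    rw [if_pos h1, if_pos rfl, if_neg hne]
    ring
  · by_cases h1 : Finsupp.single 1 1 = d
    · have h2 : d.degree = 1 := (a8_deg d).2 (Or.inr h1)
      subst h1
      rw [if_pos h2, if_pos rfl, if_neg hne']
      ring
    · have h2 : ¬ d.degree = 1 := fun h => (((a8_deg d).1 h).elim h0 h1)
      rw [if_neg h2, if_neg h0, if_neg h1]
      ring

private theorem a8_px_pos {v : P2} (hv : eval 0 v = 0) (hx : ¬ (X 0 : P2) ∣ v) :
    1 ≤ (a8px v).natTrailingDegree := by
  rw [a8px_dvd] at hx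
  by_contra h
  have h1 : (a8px v).natTrailingDegree = 0 := by omega
  rw [Polynomial.natTrailingDegree_eq_zero] at h1
  rcases h1 with h1 | h1
  · exact hx h1
  · apply h1
    rw [Polynomial.coeff_zero_eq_eval_zero, a8px_eval0, hv]

private theorem a8_line {v vw : P2} {w : ℂ} (hv : ∀ y : ℂ, eval ![0, y] vw
    = eval ![1, y + w] (homogeneousComponent 1 v)) (y : ℂ) :
    eval ![0, y] vw = (eval 0 (pderiv 0 v) + eval 0 (pderiv 1 v) * w)
      + eval 0 (pderiv 1 v) * y := by
  rw [hv, a8_hc1]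
  simp
  ring

private theorem a8_px_line {v vw : P2} {w : ℂ} (hv : ∀ y : ℂ, eval ![0, y] vw
    = eval ![1, y + w] (homogeneousComponent 1 v)) :
    a8px vw = Polynomial.C (eval 0 (pderiv 0 v) + eval 0 (pderiv 1 v) * w)
      + Polynomial.C (eval 0 (pderiv 1 v)) * Polynomial.X := by
  apply Polynomial.funext
  intro y
  rw [a8px_eval, a8_line hv y]
  simp

private theorem a8_pd_line {v vw : P2} {w : ℂ} (hv : ∀ y : ℂ, eval ![0, y] vw
    = eval ![1, y + w] (homogeneousComponent 1 v)) :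
    eval 0 (pderiv 1 vw) = eval 0 (pderiv 1 v) := by
  rw [← a8px_eval0 (pderiv 1 vw), ← a8px_deriv, a8_px_line hv]
  simp

private theorem a8_ev_line {v vw : P2} {w : ℂ} (hv : ∀ y : ℂ, eval ![0, y] vw
    = eval ![1, y + w] (homogeneousComponent 1 v)) :
    eval 0 vw = eval 0 (pderiv 0 v) + eval 0 (pderiv 1 v) * w := by
  have h := a8_line hv 0
  rw [a8_zero, mul_zero, add_zero] at h
  exact h

private def A8Ih (r k : ℕ) : Prop := ∀ (F g : Fin r → P2) (v : P2) (A B M : ℕ), 0 < A → 0 < B →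
  0 < M → (∀ j, F j = X 0 ^ A * X 1 ^ B * v ^ M * g j) → eval 0 v = 0 →
  (eval 0 (pderiv 0 v) ≠ 0 ∨ eval 0 (pderiv 1 v) ≠ 0) → (¬ (X 0 : P2) ∣ v) →
  (¬ (X 1 : P2) ∣ v) → (∃ j, eval 0 (g j) ≠ 0) →
  (a8px v).natTrailingDegree + (a8py v).natTrailingDegree < k →
  ∃ X : Str r, X ≠ Str.triv ∧ Rz F A B X ∧ ∀ M' ∈ X.strs, M' = M

private theorem a8_zero_chart {r k : ℕ} (IH : A8Ih r k) (F g : Fin r → P2) (v : P2)
    (A B M : ℕ) (hA : 0 < A) (hB : 0 < B)
    (hM : 0 < M) (hF : ∀ j, F j = X 0 ^ A * X 1 ^ B * v ^ M * g j) (hv : eval 0 v = 0)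
    (hv' : eval 0 (pderiv 0 v) ≠ 0 ∨ eval 0 (pderiv 1 v) ≠ 0) (hx : ¬ (X 0 : P2) ∣ v)
    (hy : ¬ (X 1 : P2) ∣ v) (hg : ∃ j, eval 0 (g j) ≠ 0)
    (hk : (a8px v).natTrailingDegree + (a8py v).natTrailingDegree = k) :
    ∃ X : Str r, Rz (fun j => ch 0 (F j)) (A + B + M) B X ∧ ∀ M' ∈ X.strs, M' = M := by
  obtain ⟨v0, hv0, hv0e⟩ := ch_ord 0 v 1 ((ordP_one v).2 hv)
  have hF' : ∀ j, ch 0 (F j) = X 0 ^ (A + B + M) * X 1 ^ B * v0 ^ M * ch 0 (g j) := by
    intro j
    rw [hF j, a8_ch_mul, a8_ch_mul, a8_ch_mul, a8_ch_pow, a8_ch_pow, a8_ch_pow, a8_ch_X0,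
      a8_ch_X1, hv0, C_0]
    ring
  by_cases hα : eval 0 (pderiv 0 v) = 0
  · have hβ : eval 0 (pderiv 1 v) ≠ 0 := hv'.resolve_left (fun h => h hα)
    have hpx : a8px v0 = Polynomial.C (eval 0 (pderiv 1 v)) * Polynomial.X := by
      rw [a8_px_line hv0e, hα, mul_zero, add_zero, Polynomial.C_0, zero_add]
    have hpx0 : a8px v0 ≠ 0 := by
      rw [hpx]
      exact mul_ne_zero (Polynomial.C_ne_zero.2 hβ) Polynomial.X_ne_zero
    have hpxd : (a8px v0).natTrailingDegree ≤ 1 := by
      refine (Polynomial.natTrailingDegree_le_natDegree _).trans ?_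
      rw [hpx]
      exact (Polynomial.natDegree_C_mul_le _ _).trans Polynomial.natDegree_X_le
    have hpy : a8py v = Polynomial.X * a8py v0 := by
      rw [← a8py_ch, hv0, pow_one, a8py_mul, a8py_X0]
    have hpyv : a8py v ≠ 0 := fun h => hy ((a8py_dvd v).2 h)
    have hpy0 : a8py v0 ≠ 0 := by
      intro h
      rw [h, mul_zero] at hpy
      exact hpyv hpy
    have hpyd : (a8py v).natTrailingDegree = 1 + (a8py v0).natTrailingDegree := by
      rw [hpy, Polynomial.natTrailingDegree_mul Polynomial.X_ne_zero hpy0,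
        Polynomial.natTrailingDegree_X]
    have hpos := a8_px_pos hv hx
    obtain ⟨g0, hg0⟩ := hg
    obtain ⟨X, -, h1, h2⟩ := IH (fun j => ch 0 (F j)) (fun j => ch 0 (g j)) v0 (A + B + M) B M
      (by omega) hB hM hF' (by rw [a8_ev_line hv0e, hα]; ring)
      (Or.inr (by rw [a8_pd_line hv0e]; exact hβ))
      (fun h => hpx0 ((a8px_dvd v0).1 h)) (fun h => hpy0 ((a8py_dvd v0).1 h))
      ⟨g0, by rw [a8_eval_ch]; exact hg0⟩ (by omega)
    exact ⟨X, h1, h2⟩
  · obtain ⟨g0, hg0⟩ := hg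
    refine ⟨Str.triv, Rz.triv _ (fun j => v0 ^ M * ch 0 (g j)) _ _ (by omega) ?_ ⟨g0, ?_⟩, ?_⟩
    · intro j
      rw [hF' j, mul_assoc (X 0 ^ (A + B + M) * X 1 ^ B)]
    · rw [map_mul, map_pow, a8_eval_ch, a8_ev_line hv0e, mul_zero, add_zero]
      exact mul_ne_zero (pow_ne_zero _ hα) hg0
    · intro M' hM'
      exact absurd hM' (Multiset.notMem_zero M')

private theorem a8_all (r k : ℕ) : ∀ (F g : Fin r → P2) (v : P2) (A B M : ℕ), 0 < A → 0 < B →
    0 < M → (∀ j, F j = X 0 ^ A * X 1 ^ B * v ^ M * g j) → eval 0 v = 0 →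
    (eval 0 (pderiv 0 v) ≠ 0 ∨ eval 0 (pderiv 1 v) ≠ 0) → (¬ (X 0 : P2) ∣ v) →
    (¬ (X 1 : P2) ∣ v) → (∃ j, eval 0 (g j) ≠ 0) →
    (a8px v).natTrailingDegree + (a8py v).natTrailingDegree = k →
    ∃ X : Str r, X ≠ Str.triv ∧ Rz F A B X ∧ ∀ M' ∈ X.strs, M' = M := by
  induction k using Nat.strong_induction_on with
  | _ k ih =>
  intro F g v A B M hA hB hM hF hv hv' hx hy hg hk
  have IH : A8Ih r k := fun F' g' v' A' B' M' a1 a2 a3 a4 a5 a6 a7 a8 a9 a10 =>
    ih _ a10 F' g' v' A' B' M' a1 a2 a3 a4 a5 a6 a7 a8 a9 rfl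
  obtain ⟨g0, hg0⟩ := hg
  have hO : OrdP v 1 := (ordP_one v).2 hv
  have hOM : ∀ n : ℕ, OrdP (v ^ n) n := by
    intro n
    induction n with
    | zero => exact fun k hk => absurd hk (Nat.not_lt_zero k)
    | succ n ihn =>
      rw [pow_succ]
      exact ordP_mul ihn hO
  have hO0 : ∀ f : P2, OrdP f 0 := fun f k hk => absurd hk (Nat.not_lt_zero k)
  have hhcM : ∀ n : ℕ, homogeneousComponent n (v ^ n) = homogeneousComponent 1 v ^ n := by
    intro n
    induction n with
    | zero => simp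
    | succ n ihn => rw [pow_succ, hc_mul (hOM n) hO, ihn, pow_succ]
  have hJM : ∀ j, OrdP (v ^ M * g j) M := fun j => by
    have := ordP_mul (hOM M) (hO0 (g j))
    rwa [add_zero] at this
  have hhcJ : ∀ j, homogeneousComponent M (v ^ M * g j)
      = homogeneousComponent 1 v ^ M * C (eval 0 (g j)) := by
    intro j
    have := hc_mul (hOM M) (hO0 (g j))
    rw [add_zero, hhcM] at this
    rw [this, homogeneousComponent_zero, eval_zero, constantCoeff_eq]
  have hv1 : homogeneousComponent 1 v ≠ 0 := by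
    intro h0
    have h1 : ∀ a b : ℂ, eval 0 (pderiv 0 v) * a + eval 0 (pderiv 1 v) * b = 0 := by
      intro a b
      have h2 := congrArg (eval ![a, b]) (a8_hc1 v)
      rw [h0] at h2
      simpa using h2.symm
    rcases hv' with h | h
    · have := h1 1 0
      rw [mul_one, mul_zero, add_zero] at this
      exact h this
    · have := h1 0 1
      rw [mul_one, mul_zero, zero_add] at this
      exact h this
  have hJ0 : homogeneousComponent M (v ^ M * g g0) ≠ 0 := by
    rw [hhcJ]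
    exact mul_ne_zero (pow_ne_zero _ hv1) (by rwa [Ne, C_eq_zero])
  have hμM : ∀ μ : ℕ, (∀ j, OrdP (v ^ M * g j) μ) →
      (∃ j, homogeneousComponent μ (v ^ M * g j) ≠ 0) → μ = M := by
    intro μ h1 h2
    obtain ⟨j, hj⟩ := h2
    rcases lt_trichotomy μ M with h | h | h
    · exact absurd (hJM j μ h) hj
    · exact h
    · exact absurd (h1 g0 M h) hJ0
  refine node_of_subs F (fun j => v ^ M * g j) A B ?_ ?_ ?_ (fun M' => M' = M) ?_ ?_
  · intro j
    rw [hF j, mul_assoc (X 0 ^ A * X 1 ^ B)]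
  · intro j
    rw [map_mul, map_pow, hv, zero_pow hM.ne', zero_mul]
  · refine ⟨g0, fun h => hJ0 ?_⟩
    show homogeneousComponent M (v ^ M * g g0) = 0
    have h' : v ^ M * g g0 = 0 := h
    rw [h', map_zero]
  · intro μ hμ hJ hJ' w hw
    have hμ' := hμM μ hJ hJ'
    subst hμ'
    by_cases hw0 : w = 0
    · rw [if_pos hw0, hw0]
      exact a8_zero_chart IH F g v A B μ hA hB hM hF hv hv' hx hy ⟨g0, hg0⟩ hk
    · rw [if_neg hw0]
      have hz := hw.resolve_left hw0
      have hlin : eval 0 (pderiv 0 v) + eval 0 (pderiv 1 v) * w = 0 := by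
        have h1 := congrFun hz g0
        unfold ld at h1
        have h2 : eval ![1, w] (homogeneousComponent μ (v ^ μ * g g0)) = 0 := h1
        rw [hhcJ, map_mul, map_pow, eval_C] at h2
        have h3 := pow_eq_zero_iff (hM.ne') |>.1 ((mul_eq_zero.1 h2).resolve_right hg0)
        rw [a8_hc1] at h3
        simpa using h3
      have hβ : eval 0 (pderiv 1 v) ≠ 0 := by
        intro h
        rw [h, zero_mul, add_zero] at hlin
        rcases hv' with h' | h'
        · exact h' hlin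
        · exact h' h
      obtain ⟨vw, hvw, hvwe⟩ := ch_ord w v 1 hO
      refine ⟨Str.strict μ, Rz.strict _ (fun j => (X 1 + C w) ^ B * ch w (g j)) vw (A + B + μ) μ
        (by omega) hM ?_ ?_ ?_ ⟨g0, ?_⟩, ?_⟩
      · intro j
        show ch w (F j) = _
        rw [hF j, a8_ch_mul, a8_ch_mul, a8_ch_mul, a8_ch_pow, a8_ch_pow, a8_ch_pow, a8_ch_X0,
          a8_ch_X1, hvw, mul_pow (X 0) (X 1 + C w) B]
        ring
      · rw [a8_ev_line hvwe, hlin]
      · rw [a8_pd_line hvwe]
        exact hβ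
      · rw [map_mul, map_pow, a8_eval_ch]
        refine mul_ne_zero (pow_ne_zero _ ?_) hg0
        simpa using hw0
      · intro M' hM'
        exact Multiset.mem_singleton.1 hM'
  · intro μ hμ hJ hJ'
    have hμ' := hμM μ hJ hJ'
    subst hμ'
    have hsF : ∀ j, sw (F j) = X 0 ^ B * X 1 ^ A * sw v ^ μ * sw (g j) := by
      intro j
      rw [hF j, a8_sw_mul, a8_sw_mul, a8_sw_mul, a8_sw_pow, a8_sw_pow, a8_sw_pow, a8_sw_X0,
        a8_sw_X1]
      ring
    have h1 := a8_zero_chart IH (fun j => sw (F j)) (fun j => sw (g j)) (sw v) B A μ hB hA hM hsF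
      (by rw [eval_sw, hv])
      (by
        rw [a8_pderiv_sw0, a8_pderiv_sw1]
        exact hv'.symm)
      (by
        rw [a8px_dvd, a8px_sw, ← a8py_dvd]
        exact hy)
      (by
        rw [a8py_dvd, a8py_sw, ← a8px_dvd]
        exact hx)
      ⟨g0, by rw [eval_sw]; exact hg0⟩
      (by rw [a8px_sw, a8py_sw, add_comm]; exact hk)
    rw [add_comm B A] at h1
    exact h1

theorem smooth_two {r : ℕ} (F g : Fin r → P2) (v : P2) (A B M : ℕ) (hA : 0 < A) (hB : 0 < B)
    (hM : 0 < M) (hF : ∀ j, F j = X 0 ^ A * X 1 ^ B * v ^ M * g j) (hv : eval 0 v = 0)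
    (hv' : eval 0 (pderiv 0 v) ≠ 0 ∨ eval 0 (pderiv 1 v) ≠ 0) (hx : ¬ (X 0 : P2) ∣ v)
    (hy : ¬ (X 1 : P2) ∣ v) (hg : ∃ j, eval 0 (g j) ≠ 0) :
    ∃ X : Str r, X ≠ Str.triv ∧ Rz F A B X ∧ ∀ M' ∈ X.strs, M' = M :=
  a8_all r _ F g v A B M hA hB hM hF hv hv' hx hy hg rfl

end TV
end MotMono
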