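import Pool.Agent.Lib.MP_4e5fcd_ag.TV.Base
import Pool.Agent.Lib.MP_4e5fcd_ag.CN.P1
import Pool.Agent.Lib.MP_4e5fcd_ag.CN.E1

/-!
# TV-B0: elementary facts on the sets of jets

* `constr_cj`: `cj F γ` has polynomial coordinates (`exists_alongPoly`, CN/P1), so the preimage of a
  constructible set is constructible (induction on `Constr`).
* `constr_WW`, `constr_OO`, `constr_NS`, `constr_Qx`, `constr_Qe`: finite Boolean combinations.
* `mw_one`: every jet lies in exactly one `OO k i j`, `i, j ≤ k + 1` (least index of a non-zero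
  coefficient, or `k + 1`): `cls_biUnion` (K1) or two applications of `cls_levels`.
* `cj_comp`: `along_cj` (CN/E1) coefficientwise.
-/

open MvPolynomial

namespace MotMono
namespace TV

open CN

private theorem b0_forall {σ ι : Type} [Finite ι] {P : ι → (σ → ℂ) → Prop}
    (h : ∀ i, Constr {x | P i x}) : Constr {x | ∀ i, P i x} := by
  have e : {x | ∀ i, P i x} = ⋂ i, {x | P i x} := by
    ext x
    simp
  rw [e]
  exact constr_iInter h

private theorem b0_exists {σ ι : Type} [Finite ι] {P : ι → (σ → ℂ) → Prop}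
    (h : ∀ i, Constr {x | P i x}) : Constr {x | ∃ i, P i x} := by
  have e : {x | ∃ i, P i x} = ⋃ i, {x | P i x} := by
    ext x
    simp
  rw [e]
  exact constr_iUnion h

private theorem b0_and {σ : Type} {P Q : (σ → ℂ) → Prop} (h : Constr {x | P x})
    (h' : Constr {x | Q x}) : Constr {x | P x ∧ Q x} := by
  have e : {x | P x ∧ Q x} = {x | P x} ∩ {x | Q x} := by
    ext x
    simp
  rw [e]
  exact h.inter h'

private theorem b0_imp {σ : Type} {p : Prop} {P : (σ → ℂ) → Prop} (h : Constr {x | P x}) :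
    Constr {x | p → P x} := by
  by_cases hp : p
  · have e : {x | p → P x} = {x | P x} := by
      ext x
      simp [hp]
    rw [e]
    exact h
  · have e : {x | p → P x} = Set.univ := by
      ext x
      simp [hp]
    rw [e]
    exact constr_univ

private theorem b0_eq {σ : Type} (q : σ) (c : ℂ) : Constr {x : σ → ℂ | x q = c} := by
  have e : {x : σ → ℂ | x q = c} =
      {x | eval x (X q : MvPolynomial σ ℂ) = eval x (C c : MvPolynomial σ ℂ)} := by
    ext x
    simp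
  rw [e]
  exact constr_eq _ _

private theorem b0_ne {σ : Type} (q : σ) : Constr {x : σ → ℂ | x q ≠ 0} := by
  have e : {x : σ → ℂ | x q ≠ 0} = {x | eval x (X q : MvPolynomial σ ℂ) ≠ 0} := by
    ext x
    simp
  rw [e]
  exact constr_ne _

private theorem b0_least {k : ℕ} (x : Fin (k + 1) → ℂ) :
    ∃ i ≤ k + 1, (∀ l : Fin (k + 1), (l : ℕ) < i → x l = 0) ∧
      ∀ l : Fin (k + 1), (l : ℕ) = i → x l ≠ 0 := by
  classical
  by_cases h : ∃ m, ∃ hm : m < k + 1, x ⟨m, hm⟩ ≠ 0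
  · refine ⟨Nat.find h, ?_, ?_, ?_⟩
    · obtain ⟨hm, _⟩ := Nat.find_spec h
      exact hm.le
    · intro l hl
      by_contra hne
      exact Nat.find_min h hl ⟨l.2, hne⟩
    · intro l hl
      obtain ⟨hm, h1⟩ := Nat.find_spec h
      have h2 : l = ⟨Nat.find h, hm⟩ := Fin.ext hl
      rw [h2]
      exact h1
  · push Not at h
    exact ⟨k + 1, le_rfl, fun l _ => h l l.2, fun l hl => absurd l.2 (by omega)⟩

private theorem b0_uniq {k : ℕ} {x : Fin (k + 1) → ℂ} {i i' : ℕ} (hi : i ≤ k + 1)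
    (hi' : i' ≤ k + 1) (h1 : ∀ l : Fin (k + 1), (l : ℕ) < i → x l = 0)
    (h2 : ∀ l : Fin (k + 1), (l : ℕ) = i → x l ≠ 0)
    (h1' : ∀ l : Fin (k + 1), (l : ℕ) < i' → x l = 0)
    (h2' : ∀ l : Fin (k + 1), (l : ℕ) = i' → x l ≠ 0) : i = i' := by
  rcases lt_trichotomy i i' with h | h | h
  · exact absurd (h1' ⟨i, by omega⟩ h) (h2 ⟨i, by omega⟩ rfl)
  · exact h
  · exact absurd (h1 ⟨i', by omega⟩ h) (h2' ⟨i', by omega⟩ rfl)

private theorem b0_cj_aeval {N M r k : ℕ} (v : Fin M → MvPolynomial (Fin N) ℂ)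
    (F : Fin r → MvPolynomial (Fin M) ℂ) (γ : Fin N × Fin (k + 1) → ℂ) :
    cj (fun j => aeval v (F j)) γ = cj F (cj v γ) := by
  funext q
  exact along_cj v (F q.1) γ q.2 q.2.2

theorem constr_preimage_cj {N r k : ℕ} (F : Fin r → MvPolynomial (Fin N) ℂ)
    {Q : Set (Fin r × Fin (k + 1) → ℂ)} (hQ : Constr Q) :
    Constr {γ : Fin N × Fin (k + 1) → ℂ | cj F γ ∈ Q} := by
  choose P hP using fun (q : Fin r × Fin (k + 1)) =>
    CN.exists_alongPoly (N := N) (n := k + 1) (F q.1) (q.2 : ℕ)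
  have h := hQ.preimage P
  have e : {γ : Fin N × Fin (k + 1) → ℂ | cj F γ ∈ Q} =
      {x | (fun j => eval x (P j)) ∈ Q} := by
    ext γ
    have h1 : cj F γ = fun j => eval γ (P j) := by
      funext q
      exact (hP q γ).symm
    simp only [Set.mem_ofPred_eq, h1]
  rw [e]
  exact h

theorem constr_WW {r : ℕ} (F : Fin r → P2) (k : ℕ) {Q : Set (Fin r × Fin (k + 1) → ℂ)}
    (hQ : Constr Q) : Constr (WW F k Q) := by
  unfold WW
  refine b0_and ?_ (constr_preimage_cj F hQ)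
  have e : {x : Fin 2 × Fin (k + 1) → ℂ | bp x = 0} = {x | ∀ i, x (i, 0) = 0} := by
    ext x
    simp only [Set.mem_ofPred_eq]
    exact funext_iff
  rw [e]
  exact b0_forall fun i => b0_eq _ _

theorem constr_OO (k i j : ℕ) : Constr (OO k i j) := by
  unfold OO
  refine b0_and ?_ (b0_and ?_ (b0_and ?_ ?_))
  · exact b0_forall fun l => b0_imp (b0_eq _ _)
  · exact b0_forall fun l => b0_imp (b0_ne _)
  · exact b0_forall fun l => b0_imp (b0_eq _ _)
  · exact b0_forall fun l => b0_imp (b0_ne _)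

theorem constr_NS (k i : ℕ) {n : ℕ} (ws : Fin n → ℂ) : Constr (NS k i ws) := by
  unfold NS
  refine (constr_OO k i i).inter (b0_forall fun l => b0_imp (b0_forall fun e => ?_))
  have e' : {x : Fin 2 × Fin (k + 1) → ℂ | x (1, l) ≠ ws e * x (0, l)} =
      {x | eval x (X (1, l) - C (ws e) * X (0, l) :
        MvPolynomial (Fin 2 × Fin (k + 1)) ℂ) ≠ 0} := by
    ext x
    simp [sub_eq_zero]
  rw [e']
  exact constr_ne _

theorem constr_Qx (r k : ℕ) : Constr (Qx r k) := by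
  unfold Qx
  refine b0_and ?_ ?_
  · exact b0_forall fun j => b0_forall fun l => b0_imp (b0_eq _ _)
  · exact b0_exists fun j => b0_ne _

theorem constr_Qe {r : ℕ} (η : Fin r → ℂ) (k : ℕ) : Constr (Qe η k) := by
  unfold Qe
  refine b0_forall fun j => b0_and ?_ (b0_eq _ _)
  exact b0_forall fun l => b0_imp (b0_eq _ _)

theorem OO_disjoint {k i j i' j' : ℕ} (hi : i ≤ k + 1) (hj : j ≤ k + 1) (hi' : i' ≤ k + 1)
    (hj' : j' ≤ k + 1) {γ : Fin 2 × Fin (k + 1) → ℂ} (h : γ ∈ OO k i j) (h' : γ ∈ OO k i' j') :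
    i = i' ∧ j = j' := by
  obtain ⟨a1, a2, a3, a4⟩ := h
  obtain ⟨b1, b2, b3, b4⟩ := h'
  exact ⟨b0_uniq (x := fun l => γ (0, l)) hi hi' a1 a2 b1 b2,
    b0_uniq (x := fun l => γ (1, l)) hj hj' a3 a4 b3 b4⟩

theorem exists_OO {k : ℕ} (γ : Fin 2 × Fin (k + 1) → ℂ) :
    ∃ i ≤ k + 1, ∃ j ≤ k + 1, γ ∈ OO k i j := by
  obtain ⟨i, hi, a1, a2⟩ := b0_least fun l => γ (0, l)
  obtain ⟨j, hj, b1, b2⟩ := b0_least fun l => γ (1, l)
  exact ⟨i, hi, j, hj, a1, a2, b1, b2⟩

theorem sum_OO {k : ℕ} {E : Set (Fin 2 × Fin (k + 1) → ℂ)} (hE : Constr E) :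
    ∑ i ∈ Finset.range (k + 2), ∑ j ∈ Finset.range (k + 2), cls (E ∩ OO k i j) = cls E := by
  classical
  rw [← Finset.sum_product' (f := fun i j => cls (E ∩ OO k i j))]
  rw [← cls_biUnion (Finset.range (k + 2) ×ˢ Finset.range (k + 2))
    (E := fun p : ℕ × ℕ => E ∩ OO k p.1 p.2) (fun p _ => hE.inter (constr_OO k p.1 p.2)) ?_]
  · congr 1
    ext γ
    simp only [Set.mem_iUnion, Set.mem_inter_iff]
    constructor
    · rintro ⟨p, -, h, -⟩
      exact h
    · intro h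
      obtain ⟨i, hi, j, hj, hγ⟩ := exists_OO γ
      exact ⟨(i, j), Finset.mem_product.mpr ⟨Finset.mem_range.mpr (by omega),
        Finset.mem_range.mpr (by omega)⟩, h, hγ⟩
  · intro p hp q hq hpq
    rw [Finset.mem_product, Finset.mem_range, Finset.mem_range] at hp hq
    rw [Set.disjoint_left]
    intro γ h1 h2
    obtain ⟨e1, e2⟩ := OO_disjoint (by omega) (by omega) (by omega) (by omega) h1.2 h2.2
    exact hpq (Prod.ext e1 e2)

theorem mw_one {R : Type*} [CommRing R] (φ : K0 →+* R) (k wa wb : ℕ)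
    {E : Set (Fin 2 × Fin (k + 1) → ℂ)} (hE : Constr E) : mw φ 1 k wa wb E = φ (cls E) := by
  unfold mw
  simp only [one_zpow, Units.val_one, mul_one]
  rw [← sum_OO hE]
  simp only [map_sum]

theorem mw_zero {R : Type*} [CommRing R] (φ : K0 →+* R) (u : Rˣ) (k : ℕ)
    {E : Set (Fin 2 × Fin (k + 1) → ℂ)} (hE : Constr E) : mw φ u k 0 0 E = φ (cls E) := by
  unfold mw
  rw [← sum_OO hE]
  simp only [map_sum]
  refine Finset.sum_congr rfl fun i _ => Finset.sum_congr rfl fun j _ => ?_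
  have h : (-(((0 : ℕ) : ℤ) * (i : ℤ) + ((0 : ℕ) : ℤ) * (j : ℤ)) : ℤ) = 0 := by simp
  rw [h, zpow_zero, Units.val_one, mul_one]

/-- the tuple `f (x, x (y + w))` along `γ` is the tuple `f` along the image of `γ` -/
theorem cj_ch {r k : ℕ} (w : ℂ) (F : Fin r → P2) (γ : Fin 2 × Fin (k + 1) → ℂ) :
    cj (fun j => ch w (F j)) γ = cj F (cj (cv w) γ) := by
  exact b0_cj_aeval (cv w) F γ

theorem cj_sw {r k : ℕ} (F : Fin r → P2) (γ : Fin 2 × Fin (k + 1) → ℂ) :
    cj (fun j => sw (F j)) γ = cj F (fun q => γ (if q.1 = 0 then 1 else 0, q.2)) := by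
  have h1 : cj (fun j => sw (F j)) γ = cj F (cj sv γ) := b0_cj_aeval sv F γ
  rw [h1]
  congr 1
  funext q
  obtain ⟨c, l⟩ := q
  show (along (sv c) γ).coeff (l : ℕ) = γ (if c = 0 then 1 else 0, l)
  have h2 : ∀ i : Fin 2, (along (X i : P2) γ).coeff (l : ℕ) = γ (i, l) := by
    intro i
    rw [along, aeval_X, a1_arc_coeff, dif_pos l.2]
  fin_cases c
  · exact h2 1
  · exact h2 0

/-- if every component is divisible by `x` (`c = 0`) or `y` (`c = 1`) and this coordinate of the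
jet vanishes then the tuple vanishes along the jet -/
theorem cj_eq_zero {r k : ℕ} (F : Fin r → P2) (c : Fin 2) (h : ∀ j, (X c : P2) ∣ F j)
    (γ : Fin 2 × Fin (k + 1) → ℂ) (hγ : ∀ l, γ (c, l) = 0) : cj F γ = 0 := by
  have h0 : arc γ c = 0 := by
    ext l
    rw [a1_arc_coeff, Polynomial.coeff_zero]
    split_ifs with hl
    · exact hγ _
    · rfl
  funext q
  obtain ⟨g, hg⟩ := h q.1
  show (along (F q.1) γ).coeff (q.2 : ℕ) = 0
  rw [hg, along, map_mul, aeval_X, h0, zero_mul, Polynomial.coeff_zero]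

/-- if `F (0) = 0` then the tuple vanishes along the jet `0` -/
theorem cj_zero {r k : ℕ} (F : Fin r → P2) (h : ∀ j, eval 0 (F j) = 0) :
    cj F (0 : Fin 2 × Fin (k + 1) → ℂ) = 0 := by
  have h0 : arc (0 : Fin 2 × Fin (k + 1) → ℂ) = 0 := by
    funext i
    ext l
    rw [a1_arc_coeff]
    split_ifs <;> simp
  funext q
  show (along (F q.1) 0).coeff (q.2 : ℕ) = 0
  have h1 := h q.1
  rw [eval_zero] at h1
  rw [along, h0, aeval_zero, h1, map_zero, Polynomial.coeff_zero]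

end TV
end MotMono
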