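import Pool.Agent.Lib.MP_4e5fcd_ag.TV.B0
import Pool.Agent.Lib.MP_4e5fcd_ag.Det.R1

/-!
# TV-B1: division of jets

`cj (cv w) (x, y') = (x, x (y' + w) mod t ^ (k + 1))`. Let `S` be a set of jets `(x, y)` with
`ord x = i ≤ k` and `y = 0 mod t ^ i`. Then `S' = {γ' | cj (cv w) γ' ∈ S}` is isomorphic to
`S × A ^ i`.
-/

open MvPolynomial

namespace MotMono
namespace TV

open CN

/-- the power series of a component of a jet, divided by `t ^ i` -/
private noncomputable def b1s {k : ℕ} (i : ℕ) (c : Fin 2) (γ : Fin 2 × Fin (k + 1) → ℂ) :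
    PowerSeries ℂ :=
  PowerSeries.mk fun l => if h : i + l < k + 1 then γ (c, ⟨i + l, h⟩) else 0

private theorem b1_arc {k : ℕ} (c : Fin 2) (γ : Fin 2 × Fin (k + 1) → ℂ) :
    ((arc γ c : Polynomial ℂ) : PowerSeries ℂ) = b1s 0 c γ := by
  ext l
  rw [Polynomial.coeff_coe, a1_arc_coeff, b1s, PowerSeries.coeff_mk]
  simp only [zero_add]

private theorem b1_shift {k i : ℕ} (c : Fin 2) (γ : Fin 2 × Fin (k + 1) → ℂ)
    (h : ∀ l : Fin (k + 1), (l : ℕ) < i → γ (c, l) = 0) :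
    b1s 0 c γ = PowerSeries.X ^ i * b1s i c γ := by
  ext l
  rw [PowerSeries.coeff_X_pow_mul', b1s, b1s, PowerSeries.coeff_mk, PowerSeries.coeff_mk]
  by_cases hl : i ≤ l
  · rw [if_pos hl]
    by_cases h2 : l < k + 1
    · rw [dif_pos (by omega : 0 + l < k + 1), dif_pos (by omega : i + (l - i) < k + 1)]
      congr 2
      ext
      simp
      omega
    · rw [dif_neg (by omega : ¬ 0 + l < k + 1), dif_neg (by omega : ¬ i + (l - i) < k + 1)]
  · rw [if_neg hl]
    by_cases h2 : 0 + l < k + 1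
    · rw [dif_pos h2]
      refine h ⟨0 + l, h2⟩ ?_
      simp
      omega
    · rw [dif_neg h2]

private theorem b1_cj0 {k : ℕ} (w : ℂ) (γ : Fin 2 × Fin (k + 1) → ℂ) (l : Fin (k + 1)) :
    cj (cv w) γ (0, l) = γ (0, l) := by
  show (along (cv w 0) γ).coeff (l : ℕ) = _
  have h1 : cv w 0 = X 0 := rfl
  rw [h1, along, aeval_X, a1_arc_coeff, dif_pos l.2]

/-- the second component of `cj (cv w) γ` -/
private theorem b1_cj1 {k : ℕ} (w : ℂ) (γ : Fin 2 × Fin (k + 1) → ℂ) (l : Fin (k + 1)) :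
    cj (cv w) γ (1, l) =
      PowerSeries.coeff (l : ℕ) (b1s 0 0 γ * (b1s 0 1 γ + PowerSeries.C w)) := by
  show (along (cv w 1) γ).coeff (l : ℕ) = _
  have h1 : cv w 1 = X 0 * (X 1 + C w) := rfl
  rw [h1, along, map_mul, map_add, aeval_X, aeval_X, aeval_C, ← Polynomial.coeff_coe,
    Polynomial.coe_mul, Polynomial.coe_add, b1_arc, b1_arc, Polynomial.algebraMap_eq,
    Polynomial.coe_C]

/-- the second component for `ord x ≥ i` -/
private theorem b1_cj1' {k i : ℕ} (w : ℂ) (γ : Fin 2 × Fin (k + 1) → ℂ)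
    (h : ∀ l : Fin (k + 1), (l : ℕ) < i → γ (0, l) = 0) :
    (∀ l : Fin (k + 1), (l : ℕ) < i → cj (cv w) γ (1, l) = 0) ∧
    ∀ (l : ℕ) (hl : i + l < k + 1), cj (cv w) γ (1, ⟨i + l, hl⟩) =
      PowerSeries.coeff l (b1s i 0 γ * (b1s 0 1 γ + PowerSeries.C w)) := by
  constructor
  · intro l hl
    rw [b1_cj1, b1_shift 0 γ h, mul_assoc, PowerSeries.coeff_X_pow_mul', if_neg (by omega)]
  · intro l hl
    rw [b1_cj1, b1_shift 0 γ h, mul_assoc]
    show PowerSeries.coeff (i + l) _ = _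
    rw [PowerSeries.coeff_X_pow_mul', if_pos (by omega), Nat.add_sub_cancel_left]

/-- agreement of coefficients up to an index is preserved by multiplication -/
private theorem b1_mul_congr {n : ℕ} (a b c : PowerSeries ℂ)
    (h : ∀ l ≤ n, PowerSeries.coeff l b = PowerSeries.coeff l c) :
    ∀ l ≤ n, PowerSeries.coeff l (a * b) = PowerSeries.coeff l (a * c) := by
  intro l hl
  rw [PowerSeries.coeff_mul, PowerSeries.coeff_mul]
  refine Finset.sum_congr rfl fun p hp => ?_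
  have h1 := Finset.HasAntidiagonal.mem_antidiagonal.1 hp
  rw [h p.2 (by omega)]

/-- the inverse map -/
private noncomputable def b1g {k : ℕ} (w : ℂ) (i : ℕ)
    (z : (Fin 2 × Fin (k + 1)) ⊕ Fin i → ℂ) : Fin 2 × Fin (k + 1) → ℂ :=
  fun q => if q.1 = 0 then z (Sum.inl q) else
    if h : i + (q.2 : ℕ) < k + 1 then
      PowerSeries.coeff (q.2 : ℕ) (b1s i 1 (fun p => z (Sum.inl p)) *
        (b1s i 0 (fun p => z (Sum.inl p)))⁻¹) - (if (q.2 : ℕ) = 0 then w else 0)
    else z (Sum.inr ⟨(q.2 : ℕ) + i - (k + 1), by have := q.2.2; omega⟩)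

private theorem b1s_congr {k i : ℕ} (c : Fin 2) (γ γ' : Fin 2 × Fin (k + 1) → ℂ)
    (h : ∀ l, γ (c, l) = γ' (c, l)) : b1s i c γ = b1s i c γ' := by
  ext l
  rw [b1s, b1s, PowerSeries.coeff_mk, PowerSeries.coeff_mk]
  split_ifs with h1
  · exact h _
  · rfl

private theorem b1_ne {k i : ℕ} (hi : i ≤ k) (γ : Fin 2 × Fin (k + 1) → ℂ)
    (h : ∀ l : Fin (k + 1), (l : ℕ) = i → γ (0, l) ≠ 0) :
    PowerSeries.constantCoeff (b1s i 0 γ) ≠ 0 := by
  rw [← PowerSeries.coeff_zero_eq_constantCoeff_apply, b1s, PowerSeries.coeff_mk,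
    dif_pos (by omega : i + 0 < k + 1)]
  exact h _ rfl

private theorem b1_gf {k i : ℕ} (hi : i ≤ k) (w : ℂ) (γ' : Fin 2 × Fin (k + 1) → ℂ)
    (h1 : ∀ l : Fin (k + 1), (l : ℕ) < i → γ' (0, l) = 0)
    (h2 : ∀ l : Fin (k + 1), (l : ℕ) = i → γ' (0, l) ≠ 0) :
    b1g w i (Sum.elim (cj (cv w) γ')
      (fun e => γ' (1, ⟨k + 1 - i + e, by have := e.2; omega⟩))) = γ' := by
  funext q
  obtain ⟨c, l⟩ := q
  by_cases hc : c = 0
  · subst hc
    simp only [b1g, if_true, Sum.elim_inl]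
    exact b1_cj0 w γ' l
  · have hc1 : c = 1 := by
      fin_cases c
      · exact absurd rfl hc
      · rfl
    subst hc1
    have h10 : ¬ ((1 : Fin 2) = 0) := by decide
    simp only [b1g, h10, if_false, Sum.elim_inl, Sum.elim_inr]
    by_cases hl : i + (l : ℕ) < k + 1
    · rw [dif_pos hl]
      have e0 : b1s i 0 (cj (cv w) γ') = b1s i 0 γ' := b1s_congr 0 _ _ (b1_cj0 w γ')
      have hne := b1_ne hi γ' h2
      have e1 : ∀ m ≤ k - i, PowerSeries.coeff m ((b1s i 0 γ')⁻¹ * b1s i 1 (cj (cv w) γ')) =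
          PowerSeries.coeff m ((b1s i 0 γ')⁻¹ *
            (b1s i 0 γ' * (b1s 0 1 γ' + PowerSeries.C w))) := by
        refine b1_mul_congr _ _ _ fun m hm => ?_
        rw [b1s, PowerSeries.coeff_mk, dif_pos (by omega : i + m < k + 1)]
        exact (b1_cj1' w γ' h1).2 m (by omega)
      change PowerSeries.coeff (l : ℕ) (b1s i 1 (cj (cv w) γ') * (b1s i 0 (cj (cv w) γ'))⁻¹) -
        (if (l : ℕ) = 0 then w else 0) = γ' (1, l)
      rw [e0, mul_comm, e1 (l : ℕ) (by omega), ← mul_assoc,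
        PowerSeries.inv_mul_cancel _ hne, one_mul, map_add, b1s, PowerSeries.coeff_mk,
        dif_pos (by omega : 0 + (l : ℕ) < k + 1), PowerSeries.coeff_C]
      have e2 : (⟨0 + (l : ℕ), by omega⟩ : Fin (k + 1)) = l := by
        ext
        simp
      rw [e2]
      ring
    · rw [dif_neg hl]
      congr 2
      ext
      simp
      omega

private theorem b1_fg {k i : ℕ} (hi : i ≤ k) (w : ℂ) (z : (Fin 2 × Fin (k + 1)) ⊕ Fin i → ℂ)
    (h1 : ∀ l : Fin (k + 1), (l : ℕ) < i → z (Sum.inl (0, l)) = 0)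
    (h2 : ∀ l : Fin (k + 1), (l : ℕ) = i → z (Sum.inl (0, l)) ≠ 0)
    (h3 : ∀ l : Fin (k + 1), (l : ℕ) < i → z (Sum.inl (1, l)) = 0) :
    cj (cv w) (b1g w i z) = (fun q => z (Sum.inl q)) ∧
      ∀ e : Fin i, b1g w i z (1, ⟨k + 1 - i + e, by have := e.2; omega⟩) = z (Sum.inr e) := by
  have h10 : ¬ ((1 : Fin 2) = 0) := by decide
  have e0 : ∀ l, b1g w i z (0, l) = z (Sum.inl (0, l)) := fun l => by simp [b1g]
  constructor
  · funext q
    obtain ⟨c, l⟩ := q
    by_cases hc : c = 0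
    · subst hc
      rw [b1_cj0, e0]
    · have hc1 : c = 1 := by
        fin_cases c
        · exact absurd rfl hc
        · rfl
      subst hc1
      have h4 := b1_cj1' (i := i) w (b1g w i z) (fun l hl => by rw [e0]; exact h1 l hl)
      by_cases hl : (l : ℕ) < i
      · rw [h4.1 l hl, h3 l hl]
      · obtain ⟨m, hm⟩ : ∃ m, (l : ℕ) = i + m := ⟨(l : ℕ) - i, by omega⟩
        have hm' : i + m < k + 1 := hm ▸ l.2
        have hl' : l = ⟨i + m, hm'⟩ := by ext; exact hm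
        rw [hl', h4.2 m hm']
        have e1 : b1s i 0 (b1g w i z) = b1s i 0 (fun p => z (Sum.inl p)) := b1s_congr 0 _ _ e0
        have hne := b1_ne hi (fun p => z (Sum.inl p)) h2
        have e2 : ∀ n ≤ k - i, PowerSeries.coeff n (b1s i 0 (fun p => z (Sum.inl p)) *
            (b1s 0 1 (b1g w i z) + PowerSeries.C w)) =
            PowerSeries.coeff n (b1s i 0 (fun p => z (Sum.inl p)) *
              (b1s i 1 (fun p => z (Sum.inl p)) * (b1s i 0 (fun p => z (Sum.inl p)))⁻¹)) := by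
          refine b1_mul_congr _ _ _ fun n hn => ?_
          rw [map_add, PowerSeries.coeff_C]
          conv_lhs => rw [b1s, PowerSeries.coeff_mk, dif_pos (by omega : 0 + n < k + 1)]
          simp only [b1g, h10, if_false]
          rw [dif_pos (by simp; omega)]
          simp only [zero_add]
          ring
        rw [e1, e2 m (by omega), mul_comm (b1s i 1 _), ← mul_assoc,
          PowerSeries.mul_inv_cancel _ hne, one_mul, b1s, PowerSeries.coeff_mk, dif_pos hm']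
  · intro e
    simp only [b1g, h10, if_false]
    rw [dif_neg (by simp; omega)]
    congr 2
    ext
    simp
    omega

private theorem b1_reg {k i : ℕ} (w : ℂ) {E : Set ((Fin 2 × Fin (k + 1)) ⊕ Fin i → ℂ)}
    (h : ∀ z ∈ E, PowerSeries.constantCoeff (b1s i 0 (fun p => z (Sum.inl p))) ≠ 0) :
    RegularOn E (b1g w i) := by
  have hs : ∀ c : Fin 2, RegSer E fun z => b1s i c (fun p => z (Sum.inl p)) := by
    intro c l
    unfold b1s
    simp only [PowerSeries.coeff_mk]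
    by_cases hl : i + l < k + 1
    · simp only [hl, dif_pos]
      exact regFun_coord E _
    · simp only [hl, dif_neg, not_false_eq_true]
      exact regFun_const E 0
  intro q
  obtain ⟨c, l⟩ := q
  by_cases hc : c = 0
  · simp only [b1g, hc, if_true]
    exact regFun_coord E _
  · simp only [b1g, hc, if_false]
    by_cases hl : i + (l : ℕ) < k + 1
    · simp only [hl, dif_pos]
      exact (((hs 1).mul ((hs 0).inv h)) (l : ℕ)).sub (regFun_const E _)
    · simp only [hl, dif_neg, not_false_eq_true]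
      exact regFun_coord E _

theorem cls_div (w : ℂ) (k i : ℕ) (hi : i ≤ k) (S : Set (Fin 2 × Fin (k + 1) → ℂ))
    (hS : Constr S)
    (h : ∀ γ ∈ S, (∀ l : Fin (k + 1), (l : ℕ) < i → γ (0, l) = 0) ∧
      (∀ l : Fin (k + 1), (l : ℕ) = i → γ (0, l) ≠ 0) ∧
      ∀ l : Fin (k + 1), (l : ℕ) < i → γ (1, l) = 0) :
    cls {γ' : Fin 2 × Fin (k + 1) → ℂ | cj (cv w) γ' ∈ S} = LL ^ i * cls S := by
  have hu : cls (Set.univ : Set (Fin i → ℂ)) = LL ^ i := by
    rw [cls_univ, Fintype.card_fin]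
  rw [← hu, mul_comm, ← cls_prodSet hS constr_univ]
  refine cls_iso (constr_preimage_cj (cv w) hS) (hS.prodSet constr_univ) ?_
  have key : ∀ γ' : Fin 2 × Fin (k + 1) → ℂ, cj (cv w) γ' ∈ S →
      (∀ l : Fin (k + 1), (l : ℕ) < i → γ' (0, l) = 0) ∧
      ∀ l : Fin (k + 1), (l : ℕ) = i → γ' (0, l) ≠ 0 := by
    intro γ' hγ'
    obtain ⟨h1, h2, -⟩ := h _ hγ'
    exact ⟨fun l hl => by rw [← b1_cj0 w γ' l]; exact h1 l hl,
      fun l hl => by rw [← b1_cj0 w γ' l]; exact h2 l hl⟩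
  refine ⟨fun γ' => Sum.elim (cj (cv w) γ')
      (fun e => γ' (1, ⟨k + 1 - i + e, by have := e.2; omega⟩)), b1g w i, ?_, ?_, ?_, ?_, ?_, ?_⟩
  · intro q
    rcases q with q | e
    · simp only [Sum.elim_inl]
      obtain ⟨P, hP⟩ := exists_alongPoly (n := k + 1) (cv w q.1) q.2
      exact (regFun_poly _ P).congr fun γ' _ => hP γ'
    · simp only [Sum.elim_inr]
      exact regFun_coord _ _
  · refine b1_reg w fun z hz => b1_ne hi _ (h _ hz.1).2.1
  · intro γ' hγ'
    exact ⟨hγ', Set.mem_univ _⟩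
  · intro z hz
    obtain ⟨h1, h2, h3⟩ := h _ hz.1
    show cj (cv w) (b1g w i z) ∈ S
    rw [(b1_fg hi w z h1 h2 h3).1]
    exact hz.1
  · intro γ' hγ'
    exact b1_gf hi w γ' (key γ' hγ').1 (key γ' hγ').2
  · intro z hz
    obtain ⟨h1, h2, h3⟩ := h _ hz.1
    have h4 := b1_fg hi w z h1 h2 h3
    funext q
    rcases q with q | e
    · simp only [Sum.elim_inl]
      rw [h4.1]
    · simp only [Sum.elim_inr]
      exact h4.2 e

end TV
end MotMono
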