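import Pool.Agent.Lib.MP_4e5fcd_ag.TV.B1

/-!
# TV-B2: the charts of the blow-up, for fixed orders

All from `cls_div` and `cj_ch`.
-/

open MvPolynomial

namespace MotMono
namespace TV

open CN

/-- the components of `cj (cv w) γ` -/
private theorem b2_cj0 {k : ℕ} (w : ℂ) (γ : Fin 2 × Fin (k + 1) → ℂ) (l : Fin (k + 1)) :
    cj (cv w) γ (0, l) = γ (0, l) := by
  show (along (cv w 0) γ).coeff (l : ℕ) = _
  have h1 : cv w 0 = X 0 := rfl
  rw [h1, along, aeval_X, a1_arc_coeff, dif_pos l.2]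

private theorem b2_cj1 {k : ℕ} (w : ℂ) (γ : Fin 2 × Fin (k + 1) → ℂ) (l : Fin (k + 1)) :
    cj (cv w) γ (1, l) = (arc γ 0 * (arc γ 1 + Polynomial.C w)).coeff (l : ℕ) := by
  show (along (cv w 1) γ).coeff (l : ℕ) = _
  have h1 : cv w 1 = X 0 * (X 1 + C w) := rfl
  rw [h1, along, map_mul, map_add, aeval_X, aeval_X, aeval_C, Polynomial.algebraMap_eq]

/-- coefficients of a product, low orders -/
private theorem b2_low (P Q : Polynomial ℂ) (i j : ℕ) (hP : ∀ l < i, P.coeff l = 0)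
    (hQ : ∀ l < j, Q.coeff l = 0) :
    (∀ l < i + j, (P * Q).coeff l = 0) ∧ (P * Q).coeff (i + j) = P.coeff i * Q.coeff j := by
  have h1 : Polynomial.X ^ i ∣ P := Polynomial.X_pow_dvd_iff.2 hP
  have h2 : Polynomial.X ^ j ∣ Q := Polynomial.X_pow_dvd_iff.2 hQ
  obtain ⟨P', rfl⟩ := h1
  obtain ⟨Q', rfl⟩ := h2
  have h3 : Polynomial.X ^ i * P' * (Polynomial.X ^ j * Q') =
      Polynomial.X ^ (i + j) * (P' * Q') := by ring
  constructor
  · intro l hl
    rw [h3, Polynomial.coeff_X_pow_mul', if_neg (by omega)]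
  · rw [h3, Polynomial.coeff_X_pow_mul', if_pos le_rfl, Polynomial.coeff_X_pow_mul',
      if_pos le_rfl, Polynomial.coeff_X_pow_mul', if_pos le_rfl, Nat.sub_self, Nat.sub_self,
      Nat.sub_self, Polynomial.mul_coeff_zero]

/-- if `P` has order exactly `i` and `P * Q` vanishes below `m` then `Q` vanishes below `m - i` -/
private theorem b2_div (P Q : Polynomial ℂ) (i m : ℕ) (hP : ∀ l < i, P.coeff l = 0)
    (hPi : P.coeff i ≠ 0) (h : ∀ l < m, (P * Q).coeff l = 0) : ∀ l, i + l < m → Q.coeff l = 0 := by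
  intro l
  induction l using Nat.strong_induction_on with
  | _ l ih =>
    intro hl
    have h1 := (b2_low P Q i l hP fun l' hl' => ih l' hl' (by omega)).2
    rw [h _ hl] at h1
    exact (mul_eq_zero.1 h1.symm).resolve_left hPi

private theorem b2_arc_low {k : ℕ} (γ : Fin 2 × Fin (k + 1) → ℂ) (c : Fin 2) (i : ℕ) :
    (∀ l < i, (arc γ c).coeff l = 0) ↔ ∀ l : Fin (k + 1), (l : ℕ) < i → γ (c, l) = 0 := by
  constructor
  · intro h l hl
    have h1 := h l hl
    rwa [a1_arc_coeff, dif_pos l.2] at h1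
  · intro h l hl
    rw [a1_arc_coeff]
    split_ifs with h1
    · exact h ⟨l, h1⟩ hl
    · rfl

private theorem b2_arc_ne {k : ℕ} (γ : Fin 2 × Fin (k + 1) → ℂ) (c : Fin 2) (i : ℕ)
    (hi : i ≤ k) : (arc γ c).coeff i ≠ 0 ↔ ∀ l : Fin (k + 1), (l : ℕ) = i → γ (c, l) ≠ 0 := by
  rw [a1_arc_coeff, dif_pos (by omega : i < k + 1)]
  constructor
  · intro h l hl
    have : l = ⟨i, by omega⟩ := by ext; exact hl
    rw [this]
    exact h
  · intro h
    exact h ⟨i, by omega⟩ rfl

private theorem b2_coeff {k : ℕ} (γ : Fin 2 × Fin (k + 1) → ℂ) (c : Fin 2) (l : Fin (k + 1)) :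
    γ (c, l) = (arc γ c).coeff (l : ℕ) := by
  rw [a1_arc_coeff, dif_pos l.2]

/-- membership in `WW` of the chart -/
private theorem b2_mem {r k : ℕ} (w : ℂ) (F : Fin r → P2) (Q : Set (Fin r × Fin (k + 1) → ℂ))
    (γ : Fin 2 × Fin (k + 1) → ℂ) (h0 : bp γ = 0) :
    γ ∈ WW (fun j => ch w (F j)) k Q ↔ cj (cv w) γ ∈ WW F k Q := by
  have h1 : bp (cj (cv w) γ) = 0 := by
    funext c
    have hz : ∀ c, (arc γ c).coeff 0 = 0 := by
      intro c
      rw [a1_arc_coeff, dif_pos (Nat.succ_pos k)]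
      exact congrFun h0 c
    show cj (cv w) γ (c, 0) = 0
    fin_cases c
    · exact (b2_cj0 w γ 0).trans (congrFun h0 0)
    · have h2 := b2_cj1 w γ 0
      simp only [Fin.val_zero, Polynomial.mul_coeff_zero, hz, zero_mul] at h2
      exact h2
  constructor
  · intro h
    refine ⟨h1, ?_⟩
    rw [← cj_ch]
    exact h.2
  · intro h
    refine ⟨h0, ?_⟩
    have h2 := h.2
    rw [← cj_ch] at h2
    exact h2

theorem cls_zero_lt {r k : ℕ} (F : Fin r → P2) {Q : Set (Fin r × Fin (k + 1) → ℂ)}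
    (hQ : Constr Q) (i j : ℕ) (hi : 1 ≤ i) (hij : i < j) (hj : j ≤ k) :
    cls (WW (fun j => ch 0 (F j)) k Q ∩ OO k i (j - i)) =
      LL ^ i * cls (WW F k Q ∩ OO k i j) := by
  rw [← cls_div 0 k i (by omega) (WW F k Q ∩ OO k i j) ((constr_WW F k hQ).inter
    (constr_OO k i j)) ?_]
  · congr 1
    ext γ
    have e1 : ∀ l : Fin (k + 1), cj (cv 0) γ (1, l) = (arc γ 0 * arc γ 1).coeff (l : ℕ) := by
      intro l
      rw [b2_cj1, map_zero, add_zero]
    constructor
    · rintro ⟨hW, h1, h2, h3, h4⟩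
      have a1 := (b2_arc_low γ 0 i).2 h1
      have a2 := (b2_arc_ne γ 0 i (by omega)).2 h2
      have a3 := (b2_arc_low γ 1 (j - i)).2 h3
      have a4 := (b2_arc_ne γ 1 (j - i) (by omega)).2 h4
      have a5 := b2_low _ _ i (j - i) a1 a3
      rw [show i + (j - i) = j by omega] at a5
      refine ⟨(b2_mem 0 F Q γ hW.1).1 hW, fun l hl => ?_, fun l hl => ?_, fun l hl => ?_,
        fun l hl => ?_⟩
      · rw [b2_cj0]; exact h1 l hl
      · rw [b2_cj0]; exact h2 l hl
      · rw [e1]; exact a5.1 _ hl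
      · rw [e1, hl, a5.2]; exact mul_ne_zero a2 a4
    · rintro ⟨hW, h1, h2, h3, h4⟩
      have h1' : ∀ l : Fin (k + 1), (l : ℕ) < i → γ (0, l) = 0 := fun l hl => by
        rw [← b2_cj0 0 γ l]; exact h1 l hl
      have h2' : ∀ l : Fin (k + 1), (l : ℕ) = i → γ (0, l) ≠ 0 := fun l hl => by
        rw [← b2_cj0 0 γ l]; exact h2 l hl
      have a1 := (b2_arc_low γ 0 i).2 h1'
      have a2 := (b2_arc_ne γ 0 i (by omega)).2 h2'
      have a3 : ∀ l < j, (arc γ 0 * arc γ 1).coeff l = 0 := by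
        intro l hl
        have := h3 ⟨l, by omega⟩ hl
        rwa [e1] at this
      have a4 := b2_div _ _ i j a1 a2 a3
      have a5 : ∀ l < j - i, (arc γ 1).coeff l = 0 := fun l hl => a4 l (by omega)
      have a6 := (b2_low _ _ i (j - i) a1 a5).2
      rw [show i + (j - i) = j by omega] at a6
      have a7 := h4 ⟨j, by omega⟩ rfl
      rw [e1] at a7
      have a8 : (arc γ 1).coeff (j - i) ≠ 0 := by
        intro h0
        apply a7
        show (arc γ 0 * arc γ 1).coeff j = 0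
        rw [a6, h0, mul_zero]
      have hb : bp γ = 0 := by
        funext c
        fin_cases c
        · exact h1' 0 (by simp; omega)
        · show γ (1, 0) = 0
          rw [b2_coeff γ 1 0]
          exact a5 _ (by simp; omega)
      exact ⟨(b2_mem 0 F Q γ hb).2 hW, h1', h2', (b2_arc_low γ 1 (j - i)).1 a5,
        (b2_arc_ne γ 1 (j - i) (by omega)).1 a8⟩
  · rintro γ ⟨-, h1, h2, h3, -⟩
    exact ⟨h1, h2, fun l hl => h3 l (by omega)⟩

theorem cls_zero_top {r k : ℕ} (F : Fin r → P2) {Q : Set (Fin r × Fin (k + 1) → ℂ)}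
    (hQ : Constr Q) (i : ℕ) (hi : 1 ≤ i) (hik : i ≤ k) :
    ∑ j' ∈ Finset.Icc (k + 1 - i) (k + 1), cls (WW (fun j => ch 0 (F j)) k Q ∩ OO k i j') =
      LL ^ i * cls (WW F k Q ∩ OO k i (k + 1)) := by
  rw [← cls_div 0 k i (by omega) (WW F k Q ∩ OO k i (k + 1)) ((constr_WW F k hQ).inter
    (constr_OO k i (k + 1))) ?_]
  · have e1 : ∀ (γ : Fin 2 × Fin (k + 1) → ℂ) (l : Fin (k + 1)),
        cj (cv 0) γ (1, l) = (arc γ 0 * arc γ 1).coeff (l : ℕ) := by
      intro γ l
      rw [b2_cj1, map_zero, add_zero]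
    have e2 : {γ' : Fin 2 × Fin (k + 1) → ℂ | cj (cv 0) γ' ∈ WW F k Q ∩ OO k i (k + 1)} =
        ⋃ j' ∈ Finset.Icc (k + 1 - i) (k + 1),
          (WW (fun j => ch 0 (F j)) k Q ∩ OO k i j') := by
      ext γ
      simp only [Set.mem_iUnion, exists_prop]
      constructor
      · rintro ⟨hW, h1, h2, h3, h4⟩
        have h1' : ∀ l : Fin (k + 1), (l : ℕ) < i → γ (0, l) = 0 := fun l hl => by
          rw [← b2_cj0 0 γ l]; exact h1 l hl
        have h2' : ∀ l : Fin (k + 1), (l : ℕ) = i → γ (0, l) ≠ 0 := fun l hl => by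
          rw [← b2_cj0 0 γ l]; exact h2 l hl
        have a1 := (b2_arc_low γ 0 i).2 h1'
        have a2 := (b2_arc_ne γ 0 i (by omega)).2 h2'
        have a3 : ∀ l < k + 1, (arc γ 0 * arc γ 1).coeff l = 0 := by
          intro l hl
          have := h3 ⟨l, by omega⟩ (by simpa using hl)
          rwa [e1] at this
        have a4 := b2_div _ _ i (k + 1) a1 a2 a3
        have hb : bp γ = 0 := by
          funext c
          fin_cases c
          · exact h1' 0 (by simp; omega)
          · show γ (1, 0) = 0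
            rw [b2_coeff γ 1 0]
            exact a4 _ (by simp; omega)
        obtain ⟨i', hi', j', hj', hO⟩ := exists_OO γ
        have hi2 : i' = i := by
          rcases lt_trichotomy i' i with h | h | h
          · exact absurd (h1' ⟨i', by omega⟩ h) (hO.2.1 ⟨i', by omega⟩ rfl)
          · exact h
          · exact absurd (hO.1 ⟨i, by omega⟩ h) (h2' ⟨i, by omega⟩ rfl)
        rw [hi2] at hO
        refine ⟨j', ?_, (b2_mem 0 F Q γ hb).2 hW, hO⟩
        rw [Finset.mem_Icc]
        refine ⟨?_, hj'⟩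
        by_contra hlt
        have h5 := hO.2.2.2 ⟨j', by omega⟩ rfl
        apply h5
        rw [b2_coeff γ 1]
        exact a4 j' (by omega)
      · rintro ⟨j', hj', hW, h1, h2, h3, h4⟩
        rw [Finset.mem_Icc] at hj'
        have a1 := (b2_arc_low γ 0 i).2 h1
        have a3 := (b2_arc_low γ 1 j').2 h3
        have a5 := b2_low _ _ i j' a1 a3
        refine ⟨(b2_mem 0 F Q γ hW.1).1 hW, fun l hl => ?_, fun l hl => ?_, fun l hl => ?_,
          fun l hl => ?_⟩
        · rw [b2_cj0]; exact h1 l hl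
        · rw [b2_cj0]; exact h2 l hl
        · rw [e1]; exact a5.1 _ (by omega)
        · exact absurd l.2 (by omega)
    rw [e2, cls_biUnion]
    · intro j' _
      exact (constr_WW _ k hQ).inter (constr_OO k i j')
    · intro a ha b hb hab
      rw [Finset.mem_Icc] at ha hb
      refine Set.disjoint_left.2 fun γ h1 h2 => hab ?_
      exact (OO_disjoint (by omega) ha.2 (by omega) hb.2 h1.2 h2.2).2
  · rintro γ ⟨-, h1, h2, h3, -⟩
    exact ⟨h1, h2, fun l hl => h3 l (by omega)⟩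

theorem cls_free {r k : ℕ} (F : Fin r → P2) {Q : Set (Fin r × Fin (k + 1) → ℂ)}
    (hQ : Constr Q) (w : ℂ) (hw : w ≠ 0) (i : ℕ) (hi : 1 ≤ i) (hik : i ≤ k) :
    ∑ j' ∈ Finset.range (k + 2), cls (WW (fun j => ch w (F j)) k Q ∩ OO k i j') =
      LL ^ i * cls (WW F k Q ∩ OO k i i ∩
        {γ | ∀ l : Fin (k + 1), (l : ℕ) = i → γ (1, l) = w * γ (0, l)}) := by
  have hc : Constr ({γ | ∀ l : Fin (k + 1), (l : ℕ) = i → γ (1, l) = w * γ (0, l)} :
      Set (Fin 2 × Fin (k + 1) → ℂ)) := by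
    have h1 := constr_eq (X (1, ⟨i, by omega⟩) : MvPolynomial (Fin 2 × Fin (k + 1)) ℂ)
      (C w * X (0, ⟨i, by omega⟩))
    convert h1 using 1
    ext γ
    constructor
    · intro h
      simpa using h ⟨i, by omega⟩ rfl
    · intro h l hl
      have : l = ⟨i, by omega⟩ := by ext; exact hl
      rw [this]
      simpa using h
  rw [← cls_div w k i (by omega) _ (((constr_WW F k hQ).inter (constr_OO k i i)).inter hc) ?_]
  · have e2 : {γ' : Fin 2 × Fin (k + 1) → ℂ | cj (cv w) γ' ∈ WW F k Q ∩ OO k i i ∩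
        {γ | ∀ l : Fin (k + 1), (l : ℕ) = i → γ (1, l) = w * γ (0, l)}} =
        ⋃ j' ∈ Finset.range (k + 2), (WW (fun j => ch w (F j)) k Q ∩ OO k i j') := by
      ext γ
      simp only [Set.mem_iUnion, exists_prop]
      have q1 : ∀ (h : ∀ l : Fin (k + 1), (l : ℕ) < i → γ (0, l) = 0),
          (∀ l < i, (arc γ 0 * (arc γ 1 + Polynomial.C w)).coeff l = 0) ∧
          (arc γ 0 * (arc γ 1 + Polynomial.C w)).coeff i =
            (arc γ 0).coeff i * ((arc γ 1).coeff 0 + w) := by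
        intro h
        have h5 := b2_low (arc γ 0) (arc γ 1 + Polynomial.C w) i 0 ((b2_arc_low γ 0 i).2 h)
          (fun l hl => absurd hl (Nat.not_lt_zero l))
        rw [add_zero] at h5
        refine ⟨h5.1, ?_⟩
        rw [h5.2, Polynomial.coeff_add, Polynomial.coeff_C_zero]
      constructor
      · rintro ⟨⟨hW, h1, h2, h3, h4⟩, h5⟩
        have h1' : ∀ l : Fin (k + 1), (l : ℕ) < i → γ (0, l) = 0 := fun l hl => by
          rw [← b2_cj0 w γ l]; exact h1 l hl
        have h2' : ∀ l : Fin (k + 1), (l : ℕ) = i → γ (0, l) ≠ 0 := fun l hl => by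
          rw [← b2_cj0 w γ l]; exact h2 l hl
        have h6 : cj (cv w) γ (1, ⟨i, by omega⟩) = w * cj (cv w) γ (0, ⟨i, by omega⟩) :=
          h5 ⟨i, by omega⟩ rfl
        rw [b2_cj1, b2_cj0] at h6
        have h7 := (q1 h1').2
        rw [show ((⟨i, by omega⟩ : Fin (k + 1)) : ℕ) = i from rfl] at h6
        rw [h7, b2_coeff γ 0 ⟨i, by omega⟩] at h6
        have h8 : (arc γ 0).coeff i ≠ 0 := (b2_arc_ne γ 0 i hik).2 h2'
        have h9 : (arc γ 1).coeff 0 = 0 := by
          have h10 : (arc γ 0).coeff i * (arc γ 1).coeff 0 = 0 := by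
            have h11 : (arc γ 0).coeff i * ((arc γ 1).coeff 0 + w) = w * (arc γ 0).coeff i := h6
            linear_combination h11
          exact (mul_eq_zero.1 h10).resolve_left h8
        have hb : bp γ = 0 := by
          funext c
          fin_cases c
          · exact h1' 0 (by simp; omega)
          · show γ (1, 0) = 0
            rw [b2_coeff γ 1 0]
            exact h9
        obtain ⟨i', hi', j', hj', hO⟩ := exists_OO γ
        have hi2 : i' = i := by
          rcases lt_trichotomy i' i with h | h | h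
          · exact absurd (h1' ⟨i', by omega⟩ h) (hO.2.1 ⟨i', by omega⟩ rfl)
          · exact h
          · exact absurd (hO.1 ⟨i, by omega⟩ h) (h2' ⟨i, by omega⟩ rfl)
        rw [hi2] at hO
        exact ⟨j', Finset.mem_range.2 (by omega), (b2_mem w F Q γ hb).2 hW, hO⟩
      · rintro ⟨j', hj', hW, h1, h2, h3, h4⟩
        have h7 := q1 h1
        have h9 : (arc γ 1).coeff 0 = 0 := by
          rw [a1_arc_coeff, dif_pos (Nat.succ_pos k)]
          exact congrFun hW.1 1
        rw [h9, zero_add] at h7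
        have h8 : (arc γ 0).coeff i ≠ 0 := (b2_arc_ne γ 0 i hik).2 h2
        refine ⟨⟨(b2_mem w F Q γ hW.1).1 hW, fun l hl => ?_, fun l hl => ?_, fun l hl => ?_,
          fun l hl => ?_⟩, fun l hl => ?_⟩
        · rw [b2_cj0]; exact h1 l hl
        · rw [b2_cj0]; exact h2 l hl
        · rw [b2_cj1]; exact h7.1 _ hl
        · rw [b2_cj1, hl, h7.2]; exact mul_ne_zero h8 hw
        · rw [b2_cj1, b2_cj0, hl, h7.2, b2_coeff γ 0 l, hl, mul_comm]
    rw [e2, cls_biUnion]
    · intro j' _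
      exact (constr_WW _ k hQ).inter (constr_OO k i j')
    · intro a ha b hb hab
      rw [Finset.mem_range] at ha hb
      refine Set.disjoint_left.2 fun γ h1 h2 => hab ?_
      exact (OO_disjoint (by omega) (by omega) (by omega) (by omega) h1.2 h2.2).2
  · rintro γ ⟨⟨-, h1, h2, h3, -⟩, -⟩
    exact ⟨h1, h2, h3⟩

theorem cls_swap {r k : ℕ} (F : Fin r → P2) {Q : Set (Fin r × Fin (k + 1) → ℂ)}
    (hQ : Constr Q) (i j : ℕ) :
    cls (WW (fun j => sw (F j)) k Q ∩ OO k i j) = cls (WW F k Q ∩ OO k j i) := by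
  have h1 := RegIso.reindex (Equiv.prodCongr (Equiv.swap (0 : Fin 2) 1) (Equiv.refl (Fin (k + 1))))
    (WW F k Q ∩ OO k j i)
  have h2 := cls_iso ((constr_WW F k hQ).inter (constr_OO k j i)) ?_ h1
  · rw [h2]
    congr 1
    ext γ
    have e0 : ∀ l, (fun q : Fin 2 × Fin (k + 1) =>
        γ ((Equiv.prodCongr (Equiv.swap (0 : Fin 2) 1) (Equiv.refl (Fin (k + 1)))) q)) (0, l) =
          γ (1, l) := fun l => rfl
    have e1 : ∀ l, (fun q : Fin 2 × Fin (k + 1) =>
        γ ((Equiv.prodCongr (Equiv.swap (0 : Fin 2) 1) (Equiv.refl (Fin (k + 1)))) q)) (1, l) =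
          γ (0, l) := fun l => rfl
    have e2 : (fun q : Fin 2 × Fin (k + 1) =>
        γ ((Equiv.prodCongr (Equiv.swap (0 : Fin 2) 1) (Equiv.refl (Fin (k + 1)))) q)) =
        fun q => γ (if q.1 = 0 then 1 else 0, q.2) := by
      funext q
      obtain ⟨c, l⟩ := q
      fin_cases c <;> rfl
    constructor
    · rintro ⟨⟨hb, hW⟩, h3, h4, h5, h6⟩
      refine ⟨⟨?_, ?_⟩, h5, h6, h3, h4⟩
      · funext c
        fin_cases c
        · exact congrFun hb 1
        · exact congrFun hb 0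
      · rw [e2, ← cj_sw]
        exact hW
    · rintro ⟨⟨hb, hW⟩, h3, h4, h5, h6⟩
      refine ⟨⟨?_, ?_⟩, h5, h6, h3, h4⟩
      · funext c
        fin_cases c
        · exact congrFun hb 1
        · exact congrFun hb 0
      · rw [e2, ← cj_sw] at hW
        exact hW
  · exact ((constr_WW F k hQ).inter (constr_OO k j i)).comp _

end TV
end MotMono
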