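import Pool.Agent.Lib.MP_4e5fcd_ag.TV.B2

/-!
# TV-B3: the blow-up formula for weighted measures of sets of jets

`mw φ u k wa wb (WW F k Q) = ∑_{i, j} φ [WW F k Q ∩ OO k i j] u ^ -(wa i + wb j)`. The terms:
* `i = 0` or `j = 0`: empty (base point `0`). `i = j = k + 1`: `γ = 0`, `cj F γ = 0 ∉ Q`: empty.
* `1 ≤ i ≤ k`, `i < j`: claim
  `∑_{i = 1}^k ∑_{j > i} φ [WW F k Q ∩ OO k i j] u ^ -(wa i + wb j) = mw φ u k (wa + wb + 1) wb (WW (ch 0 F) k Q)`.
  In the right side `i = 0`, `j' = 0` and `i = k + 1` give nothing (`x = 0`: `F (0, 0) = 0 ∉ Q`: `cj_ch`, the image of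
  a jet with `x = 0` is the jet `0`), and
  `u ^ -((wa + wb + 1) i + wb j') = u ^ -i u ^ -(wa i + wb (i + j'))`. For `i + j' ≤ k`: `cls_zero_lt`
  (`φ LL = u`). If `wb = 0` the terms `i + j' > k` are summed with `cls_zero_top`. If `wb > 0` then
  `y ∣ F j`: `WW F k Q ∩ OO k i (k + 1) = ∅` (`cj_eq_zero`), and by `cls_zero_top`-type argument the jets
  `γ'` with `i + j' > k` have `x y' = 0`, so they are not in `WW (ch 0 F) k Q`.
* `1 ≤ j ≤ k`, `j < i`: exchange (`cls_swap`) and the previous case for `sw F` with `wa`, `wb` exchanged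
  (`x ∣ F j` gives `y ∣ sw (F j)`).
* `1 ≤ i = j ≤ k`: `OO k i i` is the disjoint union of `NS k i ws` and the `{y_i = ws e * x_i}`
  (`ws` injective); `cls_free`, `u ^ -((wa + wb + 1) i + 0) = u ^ -i u ^ -(wa i + wb i)`; in
  `mw φ u k (wa + wb + 1) 0 (WW (ch w F) k Q)` the terms `i = 0`, `i = k + 1` vanish.
-/

open MvPolynomial

namespace MotMono
namespace TV

open CN

private theorem TVB3_wt {R : Type*} [CommRing R] (u : Rˣ) (a b i j : ℕ) :
    ((u ^ (-(a * i + b * j : ℤ)) : Rˣ) : R) = ((u⁻¹ : Rˣ) : R) ^ (a * i + b * j) := by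
  have h : (-(a * i + b * j : ℤ)) = -((a * i + b * j : ℕ) : ℤ) := by push_cast; ring
  rw [h, zpow_neg, zpow_natCast, ← inv_pow, Units.val_pow_eq_pow_val]

private theorem TVB3_mw {R : Type*} [CommRing R] (φ : K0 →+* R) (u : Rˣ) (k wa wb : ℕ)
    (E : Set (Fin 2 × Fin (k + 1) → ℂ)) :
    mw φ u k wa wb E = ∑ i ∈ Finset.range (k + 2), ∑ j ∈ Finset.range (k + 2),
      φ (cls (E ∩ OO k i j)) * ((u⁻¹ : Rˣ) : R) ^ (wa * i + wb * j) := by
  unfold mw
  refine Finset.sum_congr rfl fun i _ => Finset.sum_congr rfl fun j _ => ?_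
  rw [TVB3_wt]

private theorem TVB3_i0 {r k : ℕ} (F : Fin r → P2) (Q : Set (Fin r × Fin (k + 1) → ℂ)) (j : ℕ) :
    WW F k Q ∩ OO k 0 j = ∅ := by
  ext γ
  simp only [Set.mem_inter_iff, Set.mem_empty_iff_false, iff_false, not_and]
  rintro ⟨h, _⟩ h2
  exact h2.2.1 0 rfl (congrFun h 0)

private theorem TVB3_j0 {r k : ℕ} (F : Fin r → P2) (Q : Set (Fin r × Fin (k + 1) → ℂ)) (i : ℕ) :
    WW F k Q ∩ OO k i 0 = ∅ := by
  ext γ
  simp only [Set.mem_inter_iff, Set.mem_empty_iff_false, iff_false, not_and]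
  rintro ⟨h, _⟩ h2
  exact h2.2.2.2 0 rfl (congrFun h 1)

private theorem TVB3_xzero {k : ℕ} (w : ℂ) (γ : Fin 2 × Fin (k + 1) → ℂ)
    (h : ∀ l, γ (0, l) = 0) : cj (cv w) γ = 0 := by
  have h0 : arc γ 0 = 0 := by
    unfold arc
    refine Finset.sum_eq_zero fun l _ => ?_
    rw [h l, map_zero, zero_mul]
  funext q
  obtain ⟨c, l⟩ := q
  fin_cases c
  · show (along (cv w 0) γ).coeff l = 0
    simp [along, cv, h0]
  · show (along (cv w 1) γ).coeff l = 0
    simp [along, cv, h0]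

private theorem TVB3_top {r k : ℕ} (F : Fin r → P2) {Q : Set (Fin r × Fin (k + 1) → ℂ)}
    (hQ0 : (0 : Fin r × Fin (k + 1) → ℂ) ∉ Q) (hF0 : ∀ j, eval 0 (F j) = 0) (w : ℂ) (j : ℕ) :
    WW (fun j => ch w (F j)) k Q ∩ OO k (k + 1) j = ∅ := by
  ext γ
  simp only [Set.mem_inter_iff, Set.mem_empty_iff_false, iff_false, not_and]
  rintro ⟨_, h⟩ h2
  rw [cj_ch, TVB3_xzero w γ (fun l => h2.1 l l.2), cj_zero F hF0] at h
  exact hQ0 h

private theorem TVB3_yzero {k : ℕ} (i j : ℕ) (hij : k + 1 ≤ i + j) (γ : Fin 2 × Fin (k + 1) → ℂ)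
    (hx : ∀ l : Fin (k + 1), (l : ℕ) < i → γ (0, l) = 0)
    (hy : ∀ l : Fin (k + 1), (l : ℕ) < j → γ (1, l) = 0) (l : Fin (k + 1)) :
    cj (cv 0) γ (1, l) = 0 := by
  have hx' : (Polynomial.X : Polynomial ℂ) ^ i ∣ arc γ 0 := by
    rw [Polynomial.X_pow_dvd_iff]
    intro d hd
    rw [a1_arc_coeff]
    split_ifs with h
    · exact hx ⟨d, h⟩ hd
    · rfl
  have hy' : (Polynomial.X : Polynomial ℂ) ^ j ∣ arc γ 1 := by
    rw [Polynomial.X_pow_dvd_iff]
    intro d hd
    rw [a1_arc_coeff]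
    split_ifs with h
    · exact hy ⟨d, h⟩ hd
    · rfl
  have h1 : along (cv 0 1) γ = arc γ 0 * arc γ 1 := by
    simp [along, cv]
  have h2 : (Polynomial.X : Polynomial ℂ) ^ (i + j) ∣ along (cv 0 1) γ := by
    rw [h1, pow_add]
    exact mul_dvd_mul hx' hy'
  show (along (cv 0 1) γ).coeff l = 0
  exact Polynomial.X_pow_dvd_iff.1 h2 l (by have := l.2; omega)

private theorem TVB3_big {r k : ℕ} (F : Fin r → P2) {Q : Set (Fin r × Fin (k + 1) → ℂ)}
    (hQ0 : (0 : Fin r × Fin (k + 1) → ℂ) ∉ Q) (hy : ∀ j, (X 1 : P2) ∣ F j) (i j : ℕ)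
    (hij : k + 1 ≤ i + j) : WW (fun j => ch 0 (F j)) k Q ∩ OO k i j = ∅ := by
  ext γ
  simp only [Set.mem_inter_iff, Set.mem_empty_iff_false, iff_false, not_and]
  rintro ⟨_, h⟩ h2
  rw [cj_ch, cj_eq_zero F 1 hy _ (TVB3_yzero i j hij γ h2.1 h2.2.2.1)] at h
  exact hQ0 h

private theorem TVB3_ytop {r k : ℕ} (F : Fin r → P2) {Q : Set (Fin r × Fin (k + 1) → ℂ)}
    (hQ0 : (0 : Fin r × Fin (k + 1) → ℂ) ∉ Q) (hy : ∀ j, (X 1 : P2) ∣ F j) (i : ℕ) :
    WW F k Q ∩ OO k i (k + 1) = ∅ := by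
  ext γ
  simp only [Set.mem_inter_iff, Set.mem_empty_iff_false, iff_false, not_and]
  rintro ⟨_, h⟩ h2
  rw [cj_eq_zero F 1 hy γ (fun l => h2.2.2.1 l l.2)] at h
  exact hQ0 h

/-- the part `i < j` -/
private theorem TVB3_lt {R : Type*} [CommRing R] (φ : K0 →+* R) (u : Rˣ) (hu : φ LL = (u : R))
    {r k : ℕ} (F : Fin r → P2) {Q : Set (Fin r × Fin (k + 1) → ℂ)} (hQ : Constr Q)
    (hQ0 : (0 : Fin r × Fin (k + 1) → ℂ) ∉ Q) (hF0 : ∀ j, eval 0 (F j) = 0) (wa wb : ℕ)
    (hb : wb = 0 ∨ ∀ j, (X 1 : P2) ∣ F j) :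
    ∑ i ∈ Finset.range (k + 2), ∑ j ∈ Finset.range (k + 2), (if i < j then
      φ (cls (WW F k Q ∩ OO k i j)) * ((u⁻¹ : Rˣ) : R) ^ (wa * i + wb * j) else 0) =
      mw φ u k (wa + wb + 1) wb (WW (fun j => ch 0 (F j)) k Q) := by
  rw [TVB3_mw]
  refine Finset.sum_congr rfl fun i hi => ?_
  rw [Finset.mem_range] at hi
  have huv : φ LL * ((u⁻¹ : Rˣ) : R) = 1 := by rw [hu, Units.mul_inv]
  generalize ((u⁻¹ : Rˣ) : R) = v at *
  have huvn : ∀ m : ℕ, φ LL ^ m * v ^ m = 1 := fun m => by rw [← mul_pow, huv, one_pow]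
  rcases Nat.eq_zero_or_pos i with hi0 | hi0
  · subst hi0
    rw [Finset.sum_eq_zero, Finset.sum_eq_zero]
    · intro j _
      rw [TVB3_i0, cls_empty, map_zero, zero_mul]
    · intro j _
      rw [TVB3_i0, cls_empty, map_zero, zero_mul, ite_self]
  rcases Nat.lt_or_ge k i with hik | hik
  · have hik' : i = k + 1 := by omega
    subst hik'
    rw [Finset.sum_eq_zero, Finset.sum_eq_zero]
    · intro j _
      rw [TVB3_top F hQ0 hF0, cls_empty, map_zero, zero_mul]
    · intro j hj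
      rw [Finset.mem_range] at hj
      rw [if_neg (by omega)]
  -- main case
  have hL : ∑ j ∈ Finset.range (k + 2), (if i < j then
      φ (cls (WW F k Q ∩ OO k i j)) * v ^ (wa * i + wb * j) else 0) =
      ∑ j ∈ Finset.range (k - i),
        φ (cls (WW F k Q ∩ OO k i (i + 1 + j))) * v ^ (wa * i + wb * (i + 1 + j)) +
        φ (cls (WW F k Q ∩ OO k i (k + 1))) * v ^ (wa * i + wb * (k + 1)) := by
    rw [← Finset.sum_filter]
    have hfil : (Finset.range (k + 2)).filter (fun j => i < j) = Finset.Ico (i + 1) (k + 1 + 1) := by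
      ext j
      simp only [Finset.mem_filter, Finset.mem_range, Finset.mem_Ico]
      omega
    rw [hfil, Finset.sum_Ico_succ_top (by omega), Finset.sum_Ico_eq_sum_range]
    have e : k + 1 - (i + 1) = k - i := by omega
    rw [e]
  have hR : ∑ j ∈ Finset.range (k + 2),
      φ (cls (WW (fun j => ch 0 (F j)) k Q ∩ OO k i j)) * v ^ ((wa + wb + 1) * i + wb * j) =
      ∑ j ∈ Finset.range (k - i), φ (cls (WW (fun j => ch 0 (F j)) k Q ∩ OO k i (j + 1))) *
        v ^ ((wa + wb + 1) * i + wb * (j + 1)) +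
        ∑ j ∈ Finset.Icc (k + 1 - i) (k + 1),
          φ (cls (WW (fun j => ch 0 (F j)) k Q ∩ OO k i j)) * v ^ ((wa + wb + 1) * i + wb * j) := by
    rw [← Finset.sum_range_add_sum_Ico _ (show k + 1 - i ≤ k + 2 by omega)]
    have e : k + 1 - i = (k - i) + 1 := by omega
    rw [e, Finset.sum_range_succ', TVB3_j0, cls_empty, map_zero, zero_mul, add_zero]
    congr 1
  rw [hL, hR]
  congr 1
  · refine Finset.sum_congr rfl fun j hj => ?_
    rw [Finset.mem_range] at hj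
    have h1 := cls_zero_lt F hQ i (i + 1 + j) hi0 (by omega) (by omega)
    have e : i + 1 + j - i = j + 1 := by omega
    rw [e] at h1
    rw [h1, map_mul, map_pow]
    have e2 : (wa + wb + 1) * i + wb * (j + 1) = i + (wa * i + wb * (i + 1 + j)) := by ring
    rw [e2, pow_add v i]
    calc φ (cls (WW F k Q ∩ OO k i (i + 1 + j))) * v ^ (wa * i + wb * (i + 1 + j))
        = (φ LL ^ i * v ^ i) * (φ (cls (WW F k Q ∩ OO k i (i + 1 + j))) *
          v ^ (wa * i + wb * (i + 1 + j))) := by rw [huvn, one_mul]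
      _ = _ := by ring
  · rcases hb with hb | hb
    · subst hb
      have h1 := cls_zero_top F hQ i hi0 hik
      have h2 := congrArg φ h1
      rw [map_sum, map_mul, map_pow] at h2
      have h3 : ∀ j ∈ Finset.Icc (k + 1 - i) (k + 1),
          φ (cls (WW (fun j => ch 0 (F j)) k Q ∩ OO k i j)) * v ^ ((wa + 0 + 1) * i + 0 * j) =
          φ (cls (WW (fun j => ch 0 (F j)) k Q ∩ OO k i j)) * v ^ ((wa + 1) * i) := by
        intro j _
        congr 2
        ring
      rw [Finset.sum_congr rfl h3, ← Finset.sum_mul, h2]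
      have e2 : (wa + 1) * i = i + wa * i := by ring
      rw [e2, pow_add v i]
      calc φ (cls (WW F k Q ∩ OO k i (k + 1))) * v ^ (wa * i + 0 * (k + 1))
          = (φ LL ^ i * v ^ i) * (φ (cls (WW F k Q ∩ OO k i (k + 1))) * v ^ (wa * i)) := by
            rw [huvn, one_mul, zero_mul, add_zero]
        _ = _ := by ring
    · rw [TVB3_ytop F hQ0 hb, cls_empty, map_zero, zero_mul, Finset.sum_eq_zero]
      intro j hj
      rw [Finset.mem_Icc] at hj
      rw [TVB3_big F hQ0 hb i j (by omega), cls_empty, map_zero, zero_mul]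

private theorem TVB3_eval_sw (f : P2) : eval 0 (sw f) = eval 0 f := by
  unfold sw
  induction f using MvPolynomial.induction_on with
  | C c => simp
  | add p q hp hq => rw [map_add, map_add, hp, hq, map_add]
  | mul_X p i hp =>
    rw [map_mul, map_mul, hp, map_mul, aeval_X]
    congr 1
    fin_cases i <;> simp [sv]

private theorem TVB3_dvd_sw (f : P2) (h : (X 0 : P2) ∣ f) : (X 1 : P2) ∣ sw f := by
  obtain ⟨g, rfl⟩ := h
  refine ⟨sw g, ?_⟩
  unfold sw
  rw [map_mul, aeval_X]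
  rfl

/-- the diagonal -/
private theorem TVB3_diag {r k : ℕ} (F : Fin r → P2) {Q : Set (Fin r × Fin (k + 1) → ℂ)}
    (hQ : Constr Q) {n : ℕ} (ws : Fin n → ℂ) (hinj : Function.Injective ws) (i : ℕ)
    (hik : i ≤ k) :
    cls (WW F k Q ∩ OO k i i) = cls (WW F k Q ∩ NS k i ws) +
      ∑ e, cls (WW F k Q ∩ OO k i i ∩
        {γ | ∀ l : Fin (k + 1), (l : ℕ) = i → γ (1, l) = ws e * γ (0, l)}) := by
  have hcW : Constr (WW F k Q) := constr_WW F k hQ
  have hcO : Constr (OO k i i) := constr_OO k i i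
  have hce : ∀ e, Constr ({γ : Fin 2 × Fin (k + 1) → ℂ |
      ∀ l : Fin (k + 1), (l : ℕ) = i → γ (1, l) = ws e * γ (0, l)}) := by
    intro e
    have h1 : {γ : Fin 2 × Fin (k + 1) → ℂ |
        ∀ l : Fin (k + 1), (l : ℕ) = i → γ (1, l) = ws e * γ (0, l)} =
        {γ : Fin 2 × Fin (k + 1) → ℂ | eval γ (X (1, (⟨i, by omega⟩ : Fin (k + 1)))) =
          eval γ (C (ws e) * X (0, (⟨i, by omega⟩ : Fin (k + 1))))} := by
      ext γ
      simp only [Set.mem_ofPred_eq, eval_X, map_mul, eval_C]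
      constructor
      · intro h
        exact h ⟨i, by omega⟩ rfl
      · intro h l hl
        have : l = ⟨i, by omega⟩ := Fin.ext hl
        rw [this]
        exact h
    rw [h1]
    exact constr_eq _ _
  have hdec : WW F k Q ∩ OO k i i = (WW F k Q ∩ NS k i ws) ∪
      ⋃ e ∈ (Finset.univ : Finset (Fin n)), (WW F k Q ∩ OO k i i ∩
        {γ | ∀ l : Fin (k + 1), (l : ℕ) = i → γ (1, l) = ws e * γ (0, l)}) := by
    ext γ
    simp only [Set.mem_inter_iff, Set.mem_union, Set.mem_iUnion, Finset.mem_univ, exists_const,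
      NS, Set.mem_ofPred_eq]
    constructor
    · rintro ⟨h1, h2⟩
      by_cases h3 : ∃ e, γ (1, (⟨i, by omega⟩ : Fin (k + 1))) =
          ws e * γ (0, (⟨i, by omega⟩ : Fin (k + 1)))
      · obtain ⟨e, he⟩ := h3
        refine Or.inr ⟨e, ⟨h1, h2⟩, ?_⟩
        intro l hl
        have : l = ⟨i, by omega⟩ := Fin.ext hl
        rw [this]
        exact he
      · push Not at h3
        refine Or.inl ⟨h1, h2, ?_⟩
        intro l hl e
        have : l = ⟨i, by omega⟩ := Fin.ext hl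
        rw [this]
        exact h3 e
    · rintro (⟨h1, h2, _⟩ | ⟨e, ⟨h1, h2⟩, _⟩)
      · exact ⟨h1, h2⟩
      · exact ⟨h1, h2⟩
  have hdisj : ∀ e ∈ (Finset.univ : Finset (Fin n)), ∀ e' ∈ (Finset.univ : Finset (Fin n)), e ≠ e' →
      Disjoint (WW F k Q ∩ OO k i i ∩
        {γ | ∀ l : Fin (k + 1), (l : ℕ) = i → γ (1, l) = ws e * γ (0, l)})
        (WW F k Q ∩ OO k i i ∩
        {γ | ∀ l : Fin (k + 1), (l : ℕ) = i → γ (1, l) = ws e' * γ (0, l)}) := by
    intro e _ e' _ hee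
    rw [Set.disjoint_left]
    rintro γ ⟨⟨_, h2⟩, h3⟩ ⟨_, h4⟩
    have h5 := h3 ⟨i, by omega⟩ rfl
    have h6 := h4 ⟨i, by omega⟩ rfl
    have h7 := h2.2.1 ⟨i, by omega⟩ rfl
    rw [h5] at h6
    exact hee (hinj (mul_right_cancel₀ h7 h6))
  have hdisj2 : Disjoint (WW F k Q ∩ NS k i ws)
      (⋃ e ∈ (Finset.univ : Finset (Fin n)), (WW F k Q ∩ OO k i i ∩
        {γ | ∀ l : Fin (k + 1), (l : ℕ) = i → γ (1, l) = ws e * γ (0, l)})) := by
    rw [Set.disjoint_left]
    rintro γ ⟨_, _, h2⟩ h3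
    simp only [Set.mem_iUnion] at h3
    obtain ⟨e, _, _, h4⟩ := h3
    exact h2 ⟨i, by omega⟩ rfl e (h4 ⟨i, by omega⟩ rfl)
  conv_lhs => rw [hdec]
  rw [cls_union (hcW.inter (constr_NS k i ws))
    (constr_biUnion _ fun e _ => (hcW.inter hcO).inter (hce e)) hdisj2,
    cls_biUnion _ (fun e _ => (hcW.inter hcO).inter (hce e)) hdisj]

theorem mw_node {R : Type*} [CommRing R] (φ : K0 →+* R) (u : Rˣ) (hu : φ LL = (u : R))
    {r k : ℕ} (F : Fin r → P2) {Q : Set (Fin r × Fin (k + 1) → ℂ)} (hQ : Constr Q)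
    (hQ0 : (0 : Fin r × Fin (k + 1) → ℂ) ∉ Q) (hF0 : ∀ j, eval 0 (F j) = 0) (wa wb : ℕ)
    (ha : wa = 0 ∨ ∀ j, (X 0 : P2) ∣ F j) (hb : wb = 0 ∨ ∀ j, (X 1 : P2) ∣ F j)
    {n : ℕ} (ws : Fin n → ℂ) (hinj : Function.Injective ws) (hw : ∀ e, ws e ≠ 0) :
    mw φ u k wa wb (WW F k Q) =
      ∑ i ∈ Finset.Icc 1 k, φ (cls (WW F k Q ∩ NS k i ws)) *
          ((u ^ (-((wa + wb) * i : ℤ)) : Rˣ) : R) +
        mw φ u k (wa + wb + 1) wb (WW (fun j => ch 0 (F j)) k Q) +
        mw φ u k (wa + wb + 1) wa (WW (fun j => ch 0 (sw (F j))) k Q) +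
        ∑ e, mw φ u k (wa + wb + 1) 0 (WW (fun j => ch (ws e) (F j)) k Q) := by
  have h1 := TVB3_lt φ u hu F hQ hQ0 hF0 wa wb hb
  have h2 := TVB3_lt φ u hu (fun j => sw (F j)) hQ hQ0
    (fun j => by rw [TVB3_eval_sw]; exact hF0 j) wb wa
    (by
      rcases ha with ha | ha
      · exact Or.inl ha
      · exact Or.inr fun j => TVB3_dvd_sw _ (ha j))
  rw [← h1, show wa + wb + 1 = wb + wa + 1 by ring, ← h2]
  have huv : φ LL * ((u⁻¹ : Rˣ) : R) = 1 := by rw [hu, Units.mul_inv]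
  have hns : ∀ i : ℕ, ((u ^ (-((wa + wb) * i : ℤ)) : Rˣ) : R) =
      ((u⁻¹ : Rˣ) : R) ^ (wa * i + wb * i) := by
    intro i
    rw [← TVB3_wt]
    congr 2
    ring
  -- the diagonal
  have hdiag : ∑ i ∈ Finset.range (k + 2),
      φ (cls (WW F k Q ∩ OO k i i)) * ((u⁻¹ : Rˣ) : R) ^ (wa * i + wb * i) =
      ∑ i ∈ Finset.Icc 1 k, φ (cls (WW F k Q ∩ NS k i ws)) *
          ((u ^ (-((wa + wb) * i : ℤ)) : Rˣ) : R) +
        ∑ e, mw φ u k (wb + wa + 1) 0 (WW (fun j => ch (ws e) (F j)) k Q) := by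
    simp only [TVB3_mw, hns]
    generalize ((u⁻¹ : Rˣ) : R) = v at *
    have huvn : ∀ m : ℕ, φ LL ^ m * v ^ m = 1 := fun m => by rw [← mul_pow, huv, one_pow]
    rw [Finset.sum_comm (s := (Finset.univ : Finset (Fin n)))]
    -- restrict the sums to `Icc 1 k`
    have hsub : Finset.Icc 1 k ⊆ Finset.range (k + 2) := by
      intro i hi
      rw [Finset.mem_Icc] at hi
      rw [Finset.mem_range]
      omega
    have hcases : ∀ i ∈ Finset.range (k + 2), i ∉ Finset.Icc 1 k → i = 0 ∨ i = k + 1 := by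
      intro i hi hi'
      rw [Finset.mem_range] at hi
      rw [Finset.mem_Icc] at hi'
      omega
    rw [← Finset.sum_subset hsub (f := fun i => φ (cls (WW F k Q ∩ OO k i i)) *
      v ^ (wa * i + wb * i))]
    · rw [← Finset.sum_subset hsub (f := fun i => ∑ e, ∑ j ∈ Finset.range (k + 2),
        φ (cls (WW (fun j => ch (ws e) (F j)) k Q ∩ OO k i j)) * v ^ ((wb + wa + 1) * i + 0 * j))]
      · rw [← Finset.sum_add_distrib]
        refine Finset.sum_congr rfl fun i hi => ?_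
        rw [Finset.mem_Icc] at hi
        rw [TVB3_diag F hQ ws hinj i hi.2, map_add, map_sum, add_mul, Finset.sum_mul]
        congr 1
        refine Finset.sum_congr rfl fun e _ => ?_
        have h3 := congrArg φ (cls_free F hQ (ws e) (hw e) i hi.1 hi.2)
        rw [map_sum, map_mul, map_pow] at h3
        have h4 : ∀ j ∈ Finset.range (k + 2),
            φ (cls (WW (fun j => ch (ws e) (F j)) k Q ∩ OO k i j)) *
              v ^ ((wb + wa + 1) * i + 0 * j) =
            φ (cls (WW (fun j => ch (ws e) (F j)) k Q ∩ OO k i j)) * v ^ (i + (wa * i + wb * i)) := by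
          intro j _
          congr 2
          ring
        rw [Finset.sum_congr rfl h4, ← Finset.sum_mul, h3, pow_add v i]
        calc _ = (φ LL ^ i * v ^ i) * (φ (cls (WW F k Q ∩ OO k i i ∩
              {γ | ∀ l : Fin (k + 1), (l : ℕ) = i → γ (1, l) = ws e * γ (0, l)})) *
              v ^ (wa * i + wb * i)) := by rw [huvn, one_mul]
          _ = _ := by ring
      · intro i hi hi'
        rcases hcases i hi hi' with h | h
        · subst h
          refine Finset.sum_eq_zero fun e _ => Finset.sum_eq_zero fun j _ => ?_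
          rw [TVB3_i0, cls_empty, map_zero, zero_mul]
        · subst h
          refine Finset.sum_eq_zero fun e _ => Finset.sum_eq_zero fun j _ => ?_
          rw [TVB3_top F hQ0 hF0, cls_empty, map_zero, zero_mul]
    · intro i hi hi'
      rcases hcases i hi hi' with h | h
      · subst h
        rw [TVB3_i0, cls_empty, map_zero, zero_mul]
      · subst h
        have h5 : WW F k Q ∩ OO k (k + 1) (k + 1) = ∅ := by
          ext γ
          simp only [Set.mem_inter_iff, Set.mem_empty_iff_false, iff_false, not_and]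
          rintro ⟨_, h⟩ h2
          have h6 : γ = 0 := by
            funext q
            obtain ⟨c, l⟩ := q
            fin_cases c
            · exact h2.1 l l.2
            · exact h2.2.2.1 l l.2
          rw [h6, cj_zero F hF0] at h
          exact hQ0 h
        rw [h5, cls_empty, map_zero, zero_mul]
  -- splitting
  rw [TVB3_mw]
  have hsplit : ∑ i ∈ Finset.range (k + 2), ∑ j ∈ Finset.range (k + 2),
      φ (cls (WW F k Q ∩ OO k i j)) * ((u⁻¹ : Rˣ) : R) ^ (wa * i + wb * j) =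
      ∑ i ∈ Finset.range (k + 2), φ (cls (WW F k Q ∩ OO k i i)) *
        ((u⁻¹ : Rˣ) : R) ^ (wa * i + wb * i) +
      ∑ i ∈ Finset.range (k + 2), ∑ j ∈ Finset.range (k + 2), (if i < j then
        φ (cls (WW F k Q ∩ OO k i j)) * ((u⁻¹ : Rˣ) : R) ^ (wa * i + wb * j) else 0) +
      ∑ i ∈ Finset.range (k + 2), ∑ j ∈ Finset.range (k + 2), (if j < i then
        φ (cls (WW F k Q ∩ OO k i j)) * ((u⁻¹ : Rˣ) : R) ^ (wa * i + wb * j) else 0) := by
    rw [← Finset.sum_add_distrib, ← Finset.sum_add_distrib]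
    refine Finset.sum_congr rfl fun i hi => ?_
    have e1 : φ (cls (WW F k Q ∩ OO k i i)) * ((u⁻¹ : Rˣ) : R) ^ (wa * i + wb * i) =
        ∑ j ∈ Finset.range (k + 2), (if i = j then
          φ (cls (WW F k Q ∩ OO k i j)) * ((u⁻¹ : Rˣ) : R) ^ (wa * i + wb * j) else 0) := by
      rw [Finset.sum_ite_eq, if_pos hi]
    rw [e1, ← Finset.sum_add_distrib, ← Finset.sum_add_distrib]
    refine Finset.sum_congr rfl fun j _ => ?_
    rcases lt_trichotomy i j with h | h | h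
    · rw [if_neg h.ne, if_pos h, if_neg (by omega), zero_add, add_zero]
    · subst h
      rw [if_pos rfl, if_neg (lt_irrefl _), add_zero, add_zero]
    · rw [if_neg h.ne', if_neg (by omega), if_pos h, zero_add, zero_add]
  rw [hsplit, hdiag]
  have hswap : ∑ i ∈ Finset.range (k + 2), ∑ j ∈ Finset.range (k + 2), (if j < i then
        φ (cls (WW F k Q ∩ OO k i j)) * ((u⁻¹ : Rˣ) : R) ^ (wa * i + wb * j) else 0) =
      ∑ i ∈ Finset.range (k + 2), ∑ j ∈ Finset.range (k + 2), (if i < j then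
        φ (cls (WW (fun j => sw (F j)) k Q ∩ OO k i j)) *
          ((u⁻¹ : Rˣ) : R) ^ (wb * i + wa * j) else 0) := by
    rw [Finset.sum_comm]
    refine Finset.sum_congr rfl fun i _ => Finset.sum_congr rfl fun j _ => ?_
    rw [cls_swap F hQ i j, add_comm (wa * j) (wb * i)]
  rw [hswap]
  ring

end TV
end MotMono
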