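import Pool.Agent.Lib.MP_4e5fcd_ag.TV.B0
import Pool.Agent.Lib.MP_4e5fcd_ag.TV.A0
import Pool.Agent.Lib.MP_4e5fcd_ag.CN.P5
import Pool.Agent.Lib.MP_4e5fcd_ag.CN.C2

/-!
# TV-B4: leading coefficients, class of the non-special part
-/

open MvPolynomial

namespace MotMono
namespace TV

open CN

/-- a polynomial is the sum of its components of degree `≥ N` -/
private theorem b4_sum (f : P2) (N : ℕ) (hf : OrdP f N) :
    ∃ s : Finset ℕ, (∀ m ∈ s, N ≤ m) ∧ N ∈ s ∧ f = ∑ m ∈ s, homogeneousComponent m f := by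
  classical
  refine ⟨Finset.Icc N (N + f.totalDegree), fun m hm => (Finset.mem_Icc.1 hm).1,
    Finset.mem_Icc.2 ⟨le_rfl, by omega⟩, ?_⟩
  conv_lhs => rw [← sum_homogeneousComponent f]
  have h1 : ∑ m ∈ Finset.range (N + f.totalDegree + 1), homogeneousComponent m f =
      ∑ m ∈ Finset.range (f.totalDegree + 1), homogeneousComponent m f := by
    symm
    refine Finset.sum_subset (fun m hm => ?_) (fun m _ hm => ?_)
    · rw [Finset.mem_range] at hm ⊢
      omega
    · rw [Finset.mem_range] at hm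
      exact homogeneousComponent_eq_zero _ _ (by omega)
  have h2 : ∑ m ∈ Finset.range (N + f.totalDegree + 1), homogeneousComponent m f =
      ∑ m ∈ Finset.Icc N (N + f.totalDegree), homogeneousComponent m f := by
    symm
    refine Finset.sum_subset (fun m hm => ?_) (fun m hm hm' => ?_)
    · rw [Finset.mem_Icc] at hm
      rw [Finset.mem_range]
      omega
    · rw [Finset.mem_range] at hm
      rw [Finset.mem_Icc] at hm'
      exact hf m (by omega)
  rw [← h1, h2]

theorem coeff_low {k : ℕ} (f : P2) (N i : ℕ) (hf : OrdP f N) (γ : Fin 2 × Fin (k + 1) → ℂ)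
    (hi1 : 1 ≤ i) (hi : i < k + 1) (hγ : ∀ c (l : Fin (k + 1)), (l : ℕ) < i → γ (c, l) = 0) :
    (∀ l < N * i, (along f γ).coeff l = 0) ∧
      (along f γ).coeff (N * i) = eval (fun c => γ (c, ⟨i, hi⟩)) (homogeneousComponent N f) := by
  have h1 : ∀ c, Polynomial.X ^ i ∣ arc γ c := by
    intro c
    rw [Polynomial.X_pow_dvd_iff]
    intro l hl
    rw [a1_arc_coeff]
    split_ifs with h
    · exact hγ c ⟨l, h⟩ hl
    · rfl
  choose G hG using h1
  have h2 : arc γ = fun c => Polynomial.X ^ i * G c := funext hG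
  have h3 : ∀ m (g : P2), g.IsHomogeneous m →
      along g γ = Polynomial.X ^ (i * m) * aeval G g := by
    intro m g hg
    unfold along
    rw [h2, p5_hom g hg, pow_mul]
  obtain ⟨s, hs, hN, hfs⟩ := b4_sum f N hf
  have h4 : ∀ l, (along f γ).coeff l =
      ∑ m ∈ s, (Polynomial.X ^ (i * m) * aeval G (homogeneousComponent m f)).coeff l := by
    intro l
    rw [← Polynomial.finsetSum_coeff]
    congr 1
    conv_lhs => rw [hfs]
    unfold along
    rw [map_sum]
    exact Finset.sum_congr rfl fun m _ => h3 m _ (homogeneousComponent_isHomogeneous m f)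
  have hG0 : ∀ c, (G c).coeff 0 = γ (c, ⟨i, hi⟩) := by
    intro c
    have h5 := congrArg (fun P => Polynomial.coeff P i) (hG c)
    simp only [Polynomial.coeff_X_pow_mul', le_refl, if_true, Nat.sub_self] at h5
    rw [← h5, a1_arc_coeff, dif_pos hi]
  have hev : (aeval G (homogeneousComponent N f)).coeff 0 =
      eval (fun c => γ (c, ⟨i, hi⟩)) (homogeneousComponent N f) := by
    rw [Polynomial.coeff_zero_eq_eval_zero]
    have h6 : (Polynomial.evalRingHom (0 : ℂ)).comp (aeval G : P2 →ₐ[ℂ] Polynomial ℂ).toRingHom =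
        (eval (fun c => γ (c, ⟨i, hi⟩)) : P2 →+* ℂ) := by
      apply MvPolynomial.ringHom_ext
      · intro r
        simp
      · intro c
        simp [← hG0, Polynomial.coeff_zero_eq_eval_zero]
    exact congrFun (congrArg DFunLike.coe h6) (homogeneousComponent N f)
  constructor
  · intro l hl
    rw [h4]
    refine Finset.sum_eq_zero fun m hm => ?_
    have := hs m hm
    rw [Polynomial.coeff_X_pow_mul', if_neg]
    have : N * i ≤ i * m := by nlinarith
    omega
  · rw [h4, Finset.sum_eq_single N]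
    · rw [Polynomial.coeff_X_pow_mul', if_pos (by rw [mul_comm]), mul_comm i N, Nat.sub_self,
        hev]
    · intro m hm hmN
      have := hs m hm
      rw [Polynomial.coeff_X_pow_mul', if_neg]
      have : N * i < i * m := by
        have : N < m := lt_of_le_of_ne this (Ne.symm hmN)
        nlinarith
      omega
    · intro h
      exact absurd hN h

private theorem b4_hcX (c : Fin 2) (A : ℕ) :
    OrdP ((X c : P2) ^ A) A ∧ homogeneousComponent A ((X c : P2) ^ A) = X c ^ A := by
  have h1 : ((X c : P2) ^ A).IsHomogeneous A := isHomogeneous_X_pow c A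
  constructor
  · intro k hk
    rw [homogeneousComponent_of_mem ((mem_homogeneousSubmodule A _).2 h1), if_neg (by omega)]
  · rw [homogeneousComponent_of_mem ((mem_homogeneousSubmodule A _).2 h1), if_pos rfl]

theorem hc_F {f J : P2} {A B μ : ℕ} (hF : f = X 0 ^ A * X 1 ^ B * J) (hJ : OrdP J μ) :
    OrdP f (A + B + μ) ∧
      homogeneousComponent (A + B + μ) f = X 0 ^ A * X 1 ^ B * homogeneousComponent μ J := by
  obtain ⟨h1, h2⟩ := b4_hcX 0 A
  obtain ⟨h3, h4⟩ := b4_hcX 1 B
  rw [hF]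
  refine ⟨ordP_mul (ordP_mul h1 h3) hJ, ?_⟩
  rw [hc_mul (ordP_mul h1 h3) hJ, hc_mul h1 h3, h2, h4]

/-- the leading form at `(x, y)`, `x ≠ 0` -/
theorem eval_hc {f J : P2} {A B μ : ℕ} (hF : f = X 0 ^ A * X 1 ^ B * J) (hJ : OrdP J μ)
    (x w : ℂ) : eval ![x, w * x] (homogeneousComponent (A + B + μ) f) =
      x ^ (A + B + μ) * w ^ B * eval ![1, w] (homogeneousComponent μ J) := by
  rw [(hc_F hF hJ).2, map_mul, map_mul, map_pow, map_pow, eval_X, eval_X]
  have h1 : eval ![x, w * x] (homogeneousComponent μ J) =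
      x ^ μ * eval ![1, w] (homogeneousComponent μ J) := by
    have h2 := eval_smul_of_homogeneous (homogeneousComponent μ J)
      (homogeneousComponent_isHomogeneous μ J) x ![1, w]
    rw [← h2]
    congr 2
    funext c
    fin_cases c
    · simp
    · simp [mul_comm]
  rw [h1]
  simp only [Matrix.cons_val_zero, Matrix.cons_val_one]
  ring

/-- the first factor -/
private def b4A : Set (Unit → ℂ) := {x | x () ≠ 0}

/-- the second factor -/
private def b4B {n : ℕ} (ws : Fin n → ℂ) : Set (Unit → ℂ) := {w | w () ≠ 0 ∧ ∀ e, ws e ≠ w ()}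

private theorem b4_cA : Constr b4A := by
  have h := constr_ne (X () : MvPolynomial Unit ℂ)
  simpa [b4A] using h

private theorem b4_clsA : cls b4A = LL - 1 := by
  have h1 : b4A = Set.univ \ {0} := by
    ext x
    simp only [b4A, Set.mem_ofPred_eq, Set.mem_sdiff, Set.mem_univ, true_and,
      Set.mem_singleton_iff]
    constructor
    · rintro h rfl
      exact h rfl
    · intro h h2
      apply h
      funext u
      exact h2
  rw [h1, cls_diff constr_univ (constr_singleton 0) (Set.subset_univ _), cls_singleton]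
  rfl

/-- the excluded points -/
private def b4P {n : ℕ} (ws : Fin n → ℂ) : Option (Fin n) → (Unit → ℂ)
  | none => fun _ => 0
  | some e => fun _ => ws e

private theorem b4_B_eq {n : ℕ} (ws : Fin n → ℂ) :
    b4B ws = Set.univ \ ⋃ a ∈ (Finset.univ : Finset (Option (Fin n))), {b4P ws a} := by
  ext x
  simp only [b4B, Set.mem_ofPred_eq, Set.mem_sdiff, Set.mem_univ, true_and, Set.mem_iUnion,
    Finset.mem_univ, Set.mem_singleton_iff, exists_prop, not_exists]
  constructor
  · rintro ⟨h1, h2⟩ a h3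
    rcases a with _ | e
    · exact h1 (by rw [h3]; rfl)
    · exact h2 e (by rw [h3]; rfl)
  · intro h
    refine ⟨fun h1 => h none ?_, fun e h1 => h (some e) ?_⟩
    · funext u
      exact h1
    · funext u
      exact h1.symm

private theorem b4_cB {n : ℕ} (ws : Fin n → ℂ) : Constr (b4B ws) := by
  rw [b4_B_eq]
  exact constr_univ.diff (constr_biUnion _ fun a _ => constr_singleton _)

private theorem b4_clsB {n : ℕ} (ws : Fin n → ℂ) (hinj : Function.Injective ws)
    (hw : ∀ e, ws e ≠ 0) : cls (b4B ws) = LL - 1 - n := by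
  have hP : Function.Injective (b4P ws) := by
    intro a b h
    have h' := congrFun h ()
    rcases a with _ | a <;> rcases b with _ | b
    · rfl
    · exact absurd h'.symm (hw b)
    · exact absurd h' (hw a)
    · rw [hinj h']
  rw [b4_B_eq, cls_diff constr_univ (constr_biUnion _ fun a _ => constr_singleton _)
    (Set.subset_univ _), cls_biUnion]
  · simp only [cls_singleton, Finset.sum_const, Finset.card_univ, Fintype.card_option,
      Fintype.card_fin, nsmul_eq_mul, mul_one, Nat.cast_add, Nat.cast_one]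
    rw [show (cls (Set.univ : Set (Unit → ℂ))) = LL from rfl]
    ring
  · exact fun a _ => constr_singleton _
  · intro a _ b _ hab
    refine Set.disjoint_left.2 fun x h1 h2 => hab (hP ?_)
    rw [Set.mem_singleton_iff] at h1 h2
    rw [← h1, ← h2]

/-- the pairs of leading coefficients -/
private def b4T {n : ℕ} (ws : Fin n → ℂ) : Set (Fin 2 → ℂ) :=
  {v | v 0 ≠ 0 ∧ v 1 ≠ 0 ∧ ∀ e, v 1 ≠ ws e * v 0}

private theorem b4_cT {n : ℕ} (ws : Fin n → ℂ) : Constr (b4T ws) := by
  have h1 := constr_ne (X 0 : MvPolynomial (Fin 2) ℂ)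
  have h2 := constr_ne (X 1 : MvPolynomial (Fin 2) ℂ)
  have h3 := constr_iInter fun e : Fin n =>
    constr_ne (X 1 - C (ws e) * X 0 : MvPolynomial (Fin 2) ℂ)
  have h4 := h1.inter (h2.inter h3)
  convert h4 using 1
  ext v
  simp [b4T, sub_eq_zero]

private theorem b4_clsT {n : ℕ} (ws : Fin n → ℂ) (hinj : Function.Injective ws)
    (hw : ∀ e, ws e ≠ 0) : cls (b4T ws) = (LL - 1) * (LL - 1 - n) := by
  rw [← b4_clsB ws hinj hw, ← b4_clsA, ← cls_prodSet b4_cA (b4_cB ws)]
  refine cls_iso (b4_cT ws) (b4_cA.prodSet (b4_cB ws)) ?_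
  refine ⟨fun v => Sum.elim (fun _ => v 0) (fun _ => v 1 * (v 0)⁻¹),
    fun z => ![z (Sum.inl ()), z (Sum.inr ()) * z (Sum.inl ())], ?_, ?_, ?_, ?_, ?_, ?_⟩
  · intro q
    rcases q with q | q
    · exact regFun_coord _ 0
    · exact (regFun_coord _ 1).mul ((regFun_coord _ 0).inv fun v hv => hv.1)
  · intro c
    fin_cases c
    · exact regFun_coord _ (Sum.inl ())
    · exact (regFun_coord _ (Sum.inr ())).mul (regFun_coord _ (Sum.inl ()))
  · rintro v ⟨h1, h2, h3⟩
    refine ⟨h1, mul_ne_zero h2 (inv_ne_zero h1), fun e he => h3 e ?_⟩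
    have he' : ws e = v 1 * (v 0)⁻¹ := he
    rw [he', mul_assoc, inv_mul_cancel₀ h1, mul_one]
  · rintro z ⟨h1, h2, h3⟩
    refine ⟨h1, mul_ne_zero h2 h1, fun e he => h3 e ?_⟩
    have he' : z (Sum.inr ()) * z (Sum.inl ()) = ws e * z (Sum.inl ()) := he
    exact (mul_right_cancel₀ h1 he').symm
  · rintro v ⟨h1, h2, h3⟩
    funext c
    fin_cases c
    · rfl
    · show v 1 * (v 0)⁻¹ * v 0 = v 1
      rw [mul_assoc, inv_mul_cancel₀ h1, mul_one]
  · rintro z ⟨h1, h2, h3⟩
    have h1' : z (Sum.inl ()) ≠ 0 := h1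
    funext q
    rcases q with q | q
    · rfl
    · show z (Sum.inr ()) * z (Sum.inl ()) * (z (Sum.inl ()))⁻¹ = z (Sum.inr ())
      rw [mul_assoc, mul_inv_cancel₀ h1', mul_one]

open Classical in
/-- the levels -/
private noncomputable def b4G {k n : ℕ} (i : ℕ) (ws : Fin n → ℂ) (l : Fin (k + 1)) :
    Set (Fin 2 → ℂ) :=
  if (l : ℕ) < i then {0} else if (l : ℕ) = i then b4T ws else Set.univ

private theorem b4_levels {k i n : ℕ} (ws : Fin n → ℂ) :
    NS k i ws = {γ | ∀ l, (fun c => γ (c, l)) ∈ b4G i ws l} := by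
  ext γ
  constructor
  · rintro ⟨⟨h1, h2, h3, h4⟩, h5⟩ l
    unfold b4G
    split_ifs with h6 h7
    · rw [Set.mem_singleton_iff]
      funext c
      fin_cases c
      · exact h1 l h6
      · exact h3 l h6
    · exact ⟨h2 l h7, h4 l h7, fun e => h5 l h7 e⟩
    · exact Set.mem_univ _
  · intro h
    have h1 : ∀ l : Fin (k + 1), (l : ℕ) < i → ∀ c, γ (c, l) = 0 := by
      intro l hl c
      have h2 := h l
      rw [b4G, if_pos hl, Set.mem_singleton_iff] at h2
      exact congrFun h2 c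
    have h3 : ∀ l : Fin (k + 1), (l : ℕ) = i → (fun c => γ (c, l)) ∈ b4T ws := by
      intro l hl
      have h2 := h l
      rwa [b4G, if_neg (by omega), if_pos hl] at h2
    exact ⟨⟨fun l hl => h1 l hl 0, fun l hl => (h3 l hl).1, fun l hl => h1 l hl 1,
      fun l hl => (h3 l hl).2.1⟩, fun l hl e => (h3 l hl).2.2 e⟩

theorem cls_ns {k i n : ℕ} (hi : 1 ≤ i) (hik : i ≤ k) (ws : Fin n → ℂ)
    (hinj : Function.Injective ws) (hw : ∀ e, ws e ≠ 0) :
    cls (NS k i ws) = (LL - 1) * (LL - 1 - n) * LL ^ (2 * (k - i)) := by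
  have hG : ∀ l : Fin (k + 1), Constr (b4G i ws l) := by
    intro l
    unfold b4G
    split_ifs
    · exact constr_singleton 0
    · exact b4_cT ws
    · exact constr_univ
  rw [b4_levels, cls_levels hG]
  have h1 : ∀ l : Fin (k + 1), cls (b4G i ws l) =
      if (l : ℕ) < i then 1 else if (l : ℕ) = i then (LL - 1) * (LL - 1 - n) else LL ^ 2 := by
    intro l
    unfold b4G
    split_ifs
    · exact cls_singleton 0
    · exact b4_clsT ws hinj hw
    · rw [cls_univ, Fintype.card_fin]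
  rw [Finset.prod_congr rfl fun l _ => h1 l]
  obtain ⟨m, rfl⟩ : ∃ m, k = i + m := ⟨k - i, by omega⟩
  rw [Fin.prod_univ_eq_prod_range (fun l => if l < i then (1 : K0) else
    if l = i then (LL - 1) * (LL - 1 - n) else LL ^ 2) (i + m + 1)]
  rw [show i + m + 1 = i + (m + 1) by ring, Finset.prod_range_add, Finset.prod_range_succ']
  have h2 : ∏ x ∈ Finset.range i, (if x < i then (1 : K0) else
      if x = i then (LL - 1) * (LL - 1 - n) else LL ^ 2) = 1 := by
    refine Finset.prod_eq_one fun x hx => ?_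
    rw [if_pos (Finset.mem_range.1 hx)]
  have h3 : ∏ x ∈ Finset.range m, (if i + (x + 1) < i then (1 : K0) else
      if i + (x + 1) = i then (LL - 1) * (LL - 1 - n) else LL ^ 2) = LL ^ (2 * m) := by
    rw [Finset.prod_congr rfl (g := fun _ => (LL : K0) ^ 2), Finset.prod_const,
      Finset.card_range, pow_mul]
    intro x _
    rw [if_neg (by omega), if_neg (by omega)]
  rw [h2, h3, if_neg (by omega), if_pos (by omega), one_mul, Nat.add_sub_cancel_left, mul_comm]

theorem cls_ns_x {r k i n : ℕ} (hi : 1 ≤ i) (hik : i ≤ k) {F J : Fin r → P2} {A B μ : ℕ}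
    (hF : ∀ j, F j = X 0 ^ A * X 1 ^ B * J j) (hJ : ∀ j, OrdP (J j) μ) (ws : Fin n → ℂ)
    (hinj : Function.Injective ws) (hw : ∀ e, ws e ≠ 0)
    (hnz : ∀ w : ℂ, w ≠ 0 → (∀ e, ws e ≠ w) → ld μ J ![1, w] ≠ 0) :
    cls (WW F k (Qx r k) ∩ NS k i ws) =
      if (A + B + μ) * i = k then (LL - 1) * (LL - 1 - n) * LL ^ (2 * (k - i)) else 0 := by
  have key : ∀ γ ∈ NS k i ws, (∀ j, ∀ l < (A + B + μ) * i, (along (F j) γ).coeff l = 0) ∧
      ∃ j, (along (F j) γ).coeff ((A + B + μ) * i) ≠ 0 := by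
    rintro γ ⟨⟨h1, h2, h3, h4⟩, h5⟩
    have hγ : ∀ c (l : Fin (k + 1)), (l : ℕ) < i → γ (c, l) = 0 := by
      intro c l hl
      fin_cases c
      · exact h1 l hl
      · exact h3 l hl
    have hx : γ (0, ⟨i, by omega⟩) ≠ 0 := h2 ⟨i, by omega⟩ rfl
    have hy : γ (1, ⟨i, by omega⟩) ≠ 0 := h4 ⟨i, by omega⟩ rfl
    have h6 := fun j => coeff_low (F j) (A + B + μ) i (hc_F (hF j) (hJ j)).1 γ hi (by omega) hγ
    refine ⟨fun j => (h6 j).1, ?_⟩
    have h7 := hnz (γ (1, ⟨i, by omega⟩) * (γ (0, ⟨i, by omega⟩))⁻¹)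
      (mul_ne_zero hy (inv_ne_zero hx)) (by
        intro e he
        refine h5 ⟨i, by omega⟩ rfl e ?_
        rw [he, mul_assoc, inv_mul_cancel₀ hx, mul_one])
    obtain ⟨j, hj⟩ := Function.ne_iff.1 h7
    refine ⟨j, ?_⟩
    rw [(h6 j).2]
    have h8 := eval_hc (hF j) (hJ j) (γ (0, ⟨i, by omega⟩))
      (γ (1, ⟨i, by omega⟩) * (γ (0, ⟨i, by omega⟩))⁻¹)
    have h9 : (fun c => γ (c, ⟨i, by omega⟩)) = ![γ (0, ⟨i, by omega⟩),
        γ (1, ⟨i, by omega⟩) * (γ (0, ⟨i, by omega⟩))⁻¹ * γ (0, ⟨i, by omega⟩)] := by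
      funext c
      fin_cases c
      · rfl
      · show γ (1, _) = _ * _ * _
        rw [mul_assoc, inv_mul_cancel₀ hx, mul_one]
    rw [h9, h8]
    exact mul_ne_zero (mul_ne_zero (pow_ne_zero _ hx)
      (pow_ne_zero _ (mul_ne_zero hy (inv_ne_zero hx)))) hj
  split_ifs with h
  · rw [← cls_ns hi hik ws hinj hw]
    congr 1
    ext γ
    constructor
    · exact fun hγ => hγ.2
    · intro hγ
      refine ⟨⟨?_, ?_, ?_⟩, hγ⟩
      · funext c
        fin_cases c
        · exact hγ.1.1 0 (by simp; omega)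
        · exact hγ.1.2.2.1 0 (by simp; omega)
      · intro j l hl
        exact (key γ hγ).1 j l (by omega)
      · obtain ⟨j, hj⟩ := (key γ hγ).2
        refine ⟨j, ?_⟩
        rw [h] at hj
        exact hj
  · have h0 : WW F k (Qx r k) ∩ NS k i ws = ∅ := by
      rw [Set.eq_empty_iff_forall_notMem]
      rintro γ ⟨⟨hb, hq1, j, hq2⟩, hγ⟩
      obtain ⟨h1, j', h2⟩ := key γ hγ
      rcases lt_trichotomy ((A + B + μ) * i) k with h3 | h3 | h3
      · exact h2 (hq1 j' ⟨(A + B + μ) * i, by omega⟩ h3)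
      · exact h h3
      · exact hq2 (h1 j k h3)
    rw [h0, cls_empty]

end TV
end MotMono
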