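import Pool.Agent.Lib.MP_4e5fcd_ag.TV.B3
import Pool.Agent.Lib.MP_4e5fcd_ag.TV.B4

/-!
# TV-B5: the blow-up formula for the zeta function

Coefficient of `T ^ k`: `mw_node` with `φ = algebraMap K0 MC`, `u = Lu`, `Q = Qx r k` (`0 ∉ Q`), and
`cls_ns_x`: with `N = A + B + μ > 0` the first sum has at most one non-zero term, `i = k / N` (if `N ∣ k`,
`k > 0`), equal to
`(L - 1) (L - 1 - n) L ^ (2 (k - i)) L ^ -((wa + wb) i)`; times `L ^ -(2 (k + 1))` this is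
`L ^ -2 (L - 1 - n) (L - 1) L ^ -((wa + wb + 2) i)`, the coefficient of
`L ^ -2 (L - 1 - n) gg N (wa + wb + 2)`. (`k = 0`: both sides: `WW F 0 _` is empty as `F (0) = 0`; `gg` has
constant coefficient `0`.) `F (0) = 0` because `N > 0` (`hc_F`, `ordP_one`).
-/

open MvPolynomial

namespace MotMono
namespace TV

open CN

private theorem b5_Lu : algebraMap K0 MC LL = ((Lu : MCˣ) : MC) :=
  (IsUnit.unit_spec (IsLocalization.Away.algebraMap_isUnit (S := MC) LL)).symm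

private theorem b5_mul (a b : ℤ) :
    ((Lu ^ a : MCˣ) : MC) * ((Lu ^ b : MCˣ) : MC) = ((Lu ^ (a + b) : MCˣ) : MC) := by
  rw [← Units.val_mul, ← zpow_add]

private theorem b5_pow (a : ℕ) : ((Lu : MCˣ) : MC) ^ a = ((Lu ^ (a : ℤ) : MCˣ) : MC) := by
  rw [zpow_natCast, Units.val_pow_eq_pow_val]

private theorem b5_main (N n k wab : ℕ) (hN : 0 < N) :
    (∑ i ∈ Finset.Icc 1 k, algebraMap K0 MC
        (if N * i = k then (LL - 1) * (LL - 1 - n) * LL ^ (2 * (k - i)) else 0) *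
          ((Lu ^ (-((wab : ℤ) * i)) : MCˣ) : MC)) * ((Lu ^ (-(2 * (k + 1) : ℤ)) : MCˣ) : MC) =
      ((Lu ^ (-2 : ℤ) : MCˣ) : MC) * ((((Lu : MCˣ) : MC) - 1 - n) *
        (if 0 < k ∧ N ∣ k then (((Lu : MCˣ) : MC) - 1) *
          ((Lu ^ (-((wab + 2 : ℕ) * (k / N : ℕ) : ℤ)) : MCˣ) : MC) else 0)) := by
  by_cases hk : 0 < k ∧ N ∣ k
  · obtain ⟨hk0, m, hm⟩ := hk
    have hm1 : 1 ≤ m := by
      rcases Nat.eq_zero_or_pos m with h | h
      · rw [h, mul_zero] at hm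
        omega
      · exact h
    have hmk : m ≤ k := by
      rw [hm]
      exact Nat.le_mul_of_pos_left m hN
    rw [if_pos ⟨hk0, m, hm⟩]
    have h1 : ∑ i ∈ Finset.Icc 1 k, algebraMap K0 MC
        (if N * i = k then (LL - 1) * (LL - 1 - n) * LL ^ (2 * (k - i)) else 0) *
          ((Lu ^ (-((wab : ℤ) * i)) : MCˣ) : MC) =
        algebraMap K0 MC ((LL - 1) * (LL - 1 - n) * LL ^ (2 * (k - m))) *
          ((Lu ^ (-((wab : ℤ) * m)) : MCˣ) : MC) := by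
      rw [Finset.sum_eq_single m]
      · rw [if_pos hm.symm]
      · intro i _ him
        rw [if_neg, map_zero, zero_mul]
        intro h
        apply him
        rw [hm] at h
        exact Nat.eq_of_mul_eq_mul_left hN h
      · intro h
        exact absurd (Finset.mem_Icc.mpr ⟨hm1, hmk⟩) h
    have h2 : k / N = m := by rw [hm, Nat.mul_div_cancel_left _ hN]
    rw [h1, h2, map_mul, map_mul, map_sub, map_sub, map_sub, map_one, map_natCast, map_pow,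
      b5_Lu, b5_pow (2 * (k - m))]
    have h3 : ((Lu ^ ((2 * (k - m) : ℕ) : ℤ) : MCˣ) : MC) *
        ((Lu ^ (-((wab : ℤ) * m)) : MCˣ) : MC) * ((Lu ^ (-(2 * (k + 1) : ℤ)) : MCˣ) : MC) =
        ((Lu ^ (-2 : ℤ) : MCˣ) : MC) * ((Lu ^ (-((wab + 2 : ℕ) * m : ℤ)) : MCˣ) : MC) := by
      rw [b5_mul, b5_mul, b5_mul]
      congr 2
      push_cast [Nat.cast_sub hmk]
      ring
    calc (((Lu : MCˣ) : MC) - 1) * (((Lu : MCˣ) : MC) - 1 - (n : MC)) *
          ((Lu ^ ((2 * (k - m) : ℕ) : ℤ) : MCˣ) : MC) *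
          ((Lu ^ (-((wab : ℤ) * m)) : MCˣ) : MC) * ((Lu ^ (-(2 * (k + 1) : ℤ)) : MCˣ) : MC)
        = (((Lu : MCˣ) : MC) - 1) * (((Lu : MCˣ) : MC) - 1 - (n : MC)) *
          (((Lu ^ ((2 * (k - m) : ℕ) : ℤ) : MCˣ) : MC) *
          ((Lu ^ (-((wab : ℤ) * m)) : MCˣ) : MC) *
          ((Lu ^ (-(2 * (k + 1) : ℤ)) : MCˣ) : MC)) := by ring
      _ = _ := by
        rw [h3]
        ring
  · rw [if_neg hk, mul_zero, mul_zero]
    have h1 : ∑ i ∈ Finset.Icc 1 k, algebraMap K0 MC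
        (if N * i = k then (LL - 1) * (LL - 1 - n) * LL ^ (2 * (k - i)) else 0) *
          ((Lu ^ (-((wab : ℤ) * i)) : MCˣ) : MC) = 0 := by
      refine Finset.sum_eq_zero fun i hi => ?_
      rw [Finset.mem_Icc] at hi
      rw [if_neg, map_zero, zero_mul]
      intro h
      exact hk ⟨by omega, i, h.symm⟩
    rw [h1, zero_mul]

theorem Zw_node {r n : ℕ} {F J : Fin r → P2} {A B μ : ℕ} (hμ : 0 < μ)
    (hF : ∀ j, F j = X 0 ^ A * X 1 ^ B * J j) (hJ : ∀ j, OrdP (J j) μ) (ws : Fin n → ℂ)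
    (hinj : Function.Injective ws) (hw : ∀ e, ws e ≠ 0)
    (hnz : ∀ w : ℂ, w ≠ 0 → (∀ e, ws e ≠ w) → ld μ J ![1, w] ≠ 0) (wa wb : ℕ)
    (ha : wa = 0 ∨ 0 < A) (hb : wb = 0 ∨ 0 < B) :
    Zw F wa wb = PowerSeries.C ((Lu ^ (-2 : ℤ) : MCˣ) : MC) *
        (PowerSeries.C (((Lu : MCˣ) : MC) - 1 - n) * gg (A + B + μ) (wa + wb + 2)) +
      Zw (fun j => ch 0 (F j)) (wa + wb + 1) wb + Zw (fun j => ch 0 (sw (F j))) (wa + wb + 1) wa +
      ∑ e, Zw (fun j => ch (ws e) (F j)) (wa + wb + 1) 0 := by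
  have hN : 0 < A + B + μ := by omega
  have hc := fun j => hc_F (hF j) (hJ j)
  have hF0 : ∀ j, eval 0 (F j) = 0 := by
    intro j
    have h1 := (hc j).1 0 hN
    rw [homogeneousComponent_zero] at h1
    have h2 : coeff 0 (F j) = 0 := by
      have h3 := congrArg (coeff 0) h1
      rwa [coeff_C, if_pos rfl, coeff_zero] at h3
    rw [eval_zero, constantCoeff_eq]
    exact h2
  have ha' : wa = 0 ∨ ∀ j, (X 0 : P2) ∣ F j := by
    rcases ha with h | h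
    · exact Or.inl h
    · right
      intro j
      rw [hF j, mul_assoc]
      exact Dvd.dvd.mul_right (dvd_pow_self _ h.ne') _
  have hb' : wb = 0 ∨ ∀ j, (X 1 : P2) ∣ F j := by
    rcases hb with h | h
    · exact Or.inl h
    · right
      intro j
      rw [hF j]
      exact Dvd.dvd.mul_right (Dvd.dvd.mul_left (dvd_pow_self _ h.ne') _) _
  ext k
  have hQ0 : (0 : Fin r × Fin (k + 1) → ℂ) ∉ Qx r k := by
    rintro ⟨-, j, hj⟩
    exact hj rfl
  have hnode := mw_node (algebraMap K0 MC) Lu b5_Lu (k := k) F (constr_Qx r k) hQ0 hF0 wa wb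
    ha' hb' ws hinj hw
  have hns : ∀ i ∈ Finset.Icc 1 k, algebraMap K0 MC (cls (WW F k (Qx r k) ∩ NS k i ws)) *
      ((Lu ^ (-((wa + wb) * i : ℤ)) : MCˣ) : MC) = algebraMap K0 MC
        (if (A + B + μ) * i = k then (LL - 1) * (LL - 1 - n) * LL ^ (2 * (k - i)) else 0) *
          ((Lu ^ (-(((wa + wb : ℕ) : ℤ) * i)) : MCˣ) : MC) := by
    intro i hi
    rw [Finset.mem_Icc] at hi
    rw [cls_ns_x hi.1 hi.2 hF hJ ws hinj hw hnz]
    push_cast
    rfl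
  rw [Finset.sum_congr rfl hns] at hnode
  have hmain := b5_main (A + B + μ) n k (wa + wb) hN
  have hgg : gg (A + B + μ) (wa + wb + 2) = PowerSeries.mk fun k =>
      if 0 < k ∧ (A + B + μ) ∣ k then (((Lu : MCˣ) : MC) - 1) *
        ((Lu ^ (-((wa + wb + 2 : ℕ) * (k / (A + B + μ) : ℕ) : ℤ)) : MCˣ) : MC) else 0 := by
    unfold gg
    rw [if_neg hN.ne']
  simp only [map_add, map_sum, PowerSeries.coeff_C_mul, hgg, Zw, PowerSeries.coeff_mk]
  rw [hnode, add_mul, add_mul, add_mul, hmain, Finset.sum_mul]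

end TV
end MotMono
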