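import Pool.Agent.Lib.MP_4e5fcd_ag.TV.B0
import Pool.Agent.Lib.MP_4e5fcd_ag.CN.P2
import Pool.Agent.Lib.MP_4e5fcd_ag.CN.E2

/-!
# TV-U1: units and étale coordinates at the leaves

`F_j = q g_j`, `g (0) ≠ 0`. Along a jet `γ` at the origin, with `q (γ)` of order `≥ m`:
`coeff_m F_j (γ) = g_j (0) coeff_m q (γ)` (`coeff_mul_lt`, `coeff_mul_eq`, CN/P2); conversely if all
`F_j (γ)` have order `≥ m` so has `q (γ)` (take `j` with `g_j (0) ≠ 0`; strong induction on the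
coefficients).
* `ww_unit_x`: orders exactly `k`.
* `ww_unit_e`: `F (γ) = η t ^ d` iff `q (γ) = c t ^ d` and `η = c g (0)`.
* `cls_etale`: `v (0) = 0`, `∂_y v (0) ≠ 0`: `u = ![X 0, v]` has Jacobian `∂_y v`. `γ ↦ cj u γ` is a
  bijection from the `k`-jets at `0` to the `k`-jets at `0`, with regular inverse `Ψ` (`exists_lift`, CN/E2, with
  `z = (0, γ')`), and `cj u γ (0, l) = γ (0, l)`, `(x ^ A y ^ M) (cj u γ) = (x ^ A v ^ M) (γ)`
  (`along_cj`). So the two sets are isomorphic.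
-/

open MvPolynomial

namespace MotMono
namespace TV

open CN

private theorem u1_low {r m : ℕ} {F g : Fin r → P2} {q : P2} (hF : ∀ j, F j = q * g j)
    (hg : ∃ j, eval 0 (g j) ≠ 0) {k : ℕ} {γ : Fin 2 × Fin (k + 1) → ℂ} (hγ : bp γ = 0) :
    (∀ j, ∀ l < m, (along (F j) γ).coeff l = 0) ↔ ∀ l < m, (along q γ).coeff l = 0 := by
  have hF' : ∀ j, F j = g j * q := fun j => by rw [hF j, mul_comm]
  constructor
  · intro h
    obtain ⟨j, hj⟩ := hg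
    intro l
    induction l using Nat.strong_induction_on with
    | _ l ih =>
      intro hl
      have h1 := coeff_mul_eq (g j) q γ l (fun l' hl' => ih l' hl' (hl'.trans hl))
      rw [← hF' j, h j l hl, hγ] at h1
      rcases mul_eq_zero.1 h1.symm with h2 | h2
      · exact absurd h2 hj
      · exact h2
  · intro h j
    rw [hF' j]
    exact coeff_mul_lt (g j) q γ m h

private theorem u1_eq {r m : ℕ} {F g : Fin r → P2} {q : P2} (hF : ∀ j, F j = q * g j)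
    {k : ℕ} {γ : Fin 2 × Fin (k + 1) → ℂ} (hγ : bp γ = 0)
    (h : ∀ l < m, (along q γ).coeff l = 0) (j : Fin r) :
    (along (F j) γ).coeff m = eval 0 (g j) * (along q γ).coeff m := by
  have hF' : F j = g j * q := by rw [hF j, mul_comm]
  rw [hF', coeff_mul_eq (g j) q γ m h, hγ]

private theorem u1_lt {r k : ℕ} (F : Fin r → P2) (γ : Fin 2 × Fin (k + 1) → ℂ) (j : Fin r) :
    (∀ l : Fin (k + 1), (l : ℕ) < k → cj F γ (j, l) = 0) ↔
      ∀ l < k, (along (F j) γ).coeff l = 0 := by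
  constructor
  · intro h l hl
    exact h ⟨l, by omega⟩ hl
  · intro h l hl
    exact h l hl

theorem ww_unit_x {r k : ℕ} {F g : Fin r → P2} {q : P2} (hF : ∀ j, F j = q * g j)
    (hg : ∃ j, eval 0 (g j) ≠ 0) :
    WW F k (Qx r k) = WW (fun _ : Fin 1 => q) k (Qx 1 k) := by
  ext γ
  have e1 : γ ∈ WW F k (Qx r k) ↔ bp γ = 0 ∧ ((∀ j, ∀ l < k, (along (F j) γ).coeff l = 0) ∧
      ∃ j, (along (F j) γ).coeff k ≠ 0) := by
    show (bp γ = 0 ∧ ((∀ j, ∀ l : Fin (k + 1), (l : ℕ) < k → cj F γ (j, l) = 0) ∧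
      ∃ j, cj F γ (j, Fin.last k) ≠ 0)) ↔ _
    simp only [u1_lt]
    rfl
  have e2 : γ ∈ WW (fun _ : Fin 1 => q) k (Qx 1 k) ↔ bp γ = 0 ∧
      ((∀ l < k, (along q γ).coeff l = 0) ∧ (along q γ).coeff k ≠ 0) := by
    show (bp γ = 0 ∧ ((∀ j : Fin 1, ∀ l : Fin (k + 1), (l : ℕ) < k →
      cj (fun _ : Fin 1 => q) γ (j, l) = 0) ∧
      ∃ j : Fin 1, cj (fun _ : Fin 1 => q) γ (j, Fin.last k) ≠ 0)) ↔ _
    simp only [u1_lt]
    constructor
    · rintro ⟨h1, h2, j, h3⟩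
      exact ⟨h1, h2 0, h3⟩
    · rintro ⟨h1, h2, h3⟩
      exact ⟨h1, fun _ => h2, 0, h3⟩
  rw [e1, e2]
  refine and_congr_right fun hγ => ?_
  rw [u1_low hF hg hγ]
  refine and_congr_right fun h => ?_
  constructor
  · rintro ⟨j, hj⟩ h0
    rw [u1_eq hF hγ h j, h0, mul_zero] at hj
    exact hj rfl
  · intro h0
    obtain ⟨j, hj⟩ := hg
    refine ⟨j, ?_⟩
    rw [u1_eq hF hγ h j]
    exact mul_ne_zero hj h0

theorem ww_unit_e {r d : ℕ} {F g : Fin r → P2} {q : P2} (hF : ∀ j, F j = q * g j)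
    (hg : ∃ j, eval 0 (g j) ≠ 0) {η : Fin r → ℂ} (hη : η ≠ 0) :
    (Pr (fun j => eval 0 (g j)) η → ∃ c : ℂ, c ≠ 0 ∧
      WW F d (Qe η d) = WW (fun _ : Fin 1 => q) d (Qe (fun _ => c) d)) ∧
    (¬ Pr (fun j => eval 0 (g j)) η → WW F d (Qe η d) = ∅) := by
  have e1 : ∀ γ, γ ∈ WW F d (Qe η d) ↔ bp γ = 0 ∧
      ((∀ j, ∀ l < d, (along (F j) γ).coeff l = 0) ∧
      ∀ j, (along (F j) γ).coeff d = η j) := by
    intro γ
    show (bp γ = 0 ∧ ∀ j, (∀ l : Fin (d + 1), (l : ℕ) < d → cj F γ (j, l) = 0) ∧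
      cj F γ (j, Fin.last d) = η j) ↔ _
    simp only [u1_lt]
    constructor
    · rintro ⟨h1, h2⟩
      exact ⟨h1, fun j => (h2 j).1, fun j => (h2 j).2⟩
    · rintro ⟨h1, h2, h3⟩
      exact ⟨h1, fun j => ⟨h2 j, h3 j⟩⟩
  have e2 : ∀ (c : ℂ) (γ : Fin 2 × Fin (d + 1) → ℂ),
      γ ∈ WW (fun _ : Fin 1 => q) d (Qe (fun _ => c) d) ↔ bp γ = 0 ∧
      ((∀ l < d, (along q γ).coeff l = 0) ∧ (along q γ).coeff d = c) := by
    intro c γ
    show (bp γ = 0 ∧ ∀ j : Fin 1, (∀ l : Fin (d + 1), (l : ℕ) < d →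
      cj (fun _ : Fin 1 => q) γ (j, l) = 0) ∧
      cj (fun _ : Fin 1 => q) γ (j, Fin.last d) = c) ↔ _
    simp only [u1_lt]
    constructor
    · rintro ⟨h1, h2⟩
      exact ⟨h1, (h2 0).1, (h2 0).2⟩
    · rintro ⟨h1, h2, h3⟩
      exact ⟨h1, fun _ => ⟨h2, h3⟩⟩
  obtain ⟨i, hi⟩ : ∃ i, η i ≠ 0 := by
    by_contra hcon
    push Not at hcon
    exact hη (funext hcon)
  constructor
  · rintro ⟨c, hc, hgc⟩
    have hgj : ∀ j, eval 0 (g j) = c * η j := fun j => by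
      have := congrFun hgc j
      simpa using this
    refine ⟨c⁻¹, inv_ne_zero hc, ?_⟩
    ext γ
    rw [e1, e2]
    refine and_congr_right fun hγ => ?_
    rw [u1_low hF hg hγ]
    refine and_congr_right fun h => ?_
    constructor
    · intro h0
      have h1 := h0 i
      rw [u1_eq hF hγ h i, hgj i] at h1
      have h2 : (c * (along q γ).coeff d) * η i = 1 * η i := by
        linear_combination h1
      have h3 := mul_right_cancel₀ hi h2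
      exact eq_inv_of_mul_eq_one_right h3
    · intro h0 j
      rw [u1_eq hF hγ h j, h0, hgj j]
      field_simp
  · intro hn
    ext γ
    rw [e1]
    simp only [Set.mem_empty_iff_false, iff_false]
    rintro ⟨hγ, h1, h2⟩
    rw [u1_low hF hg hγ] at h1
    apply hn
    have h3 : ∀ j, eval 0 (g j) * (along q γ).coeff d = η j := fun j => by
      rw [← h2 j, u1_eq hF hγ h1 j]
    have h4 : (along q γ).coeff d ≠ 0 := by
      intro h5
      apply hi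
      rw [← h3 i, h5, mul_zero]
    refine ⟨((along q γ).coeff d)⁻¹, inv_ne_zero h4, ?_⟩
    funext j
    show eval 0 (g j) = ((along q γ).coeff d)⁻¹ * η j
    rw [← h3 j]
    field_simp

/-- jets whose first coordinate is in `S₀` -/
private def u1S (k : ℕ) (S₀ : Set (Fin (k + 1) → ℂ)) : Set (Fin 2 × Fin (k + 1) → ℂ) :=
  {γ | (fun l => γ (0, l)) ∈ S₀}

private theorem u1_jac {v : P2} (hv' : eval 0 (pderiv 1 v) ≠ 0) :
    eval 0 (jacDet (![X 0, v] : Fin 2 → P2)) ≠ 0 := by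
  unfold jacDet
  rw [Matrix.det_fin_two]
  simp only [Matrix.of_apply, Matrix.cons_val_zero, Matrix.cons_val_one, pderiv_X]
  simpa using hv'

private theorem u1_iso {k A M : ℕ} {v : P2} (hv : eval 0 v = 0)
    (hv' : eval 0 (pderiv 1 v) ≠ 0) (Q : Set (Fin 1 × Fin (k + 1) → ℂ))
    (S₀ : Set (Fin (k + 1) → ℂ)) :
    RegIso (WW (fun _ : Fin 1 => X 0 ^ A * v ^ M) k Q ∩ u1S k S₀)
      (WW (fun _ : Fin 1 => X 0 ^ A * X 1 ^ M) k Q ∩ u1S k S₀) := by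
  set u : Fin 2 → P2 := ![X 0, v] with hu
  obtain ⟨Ψ, hΨ1, hΨ2, hΨ3⟩ := exists_lift u k
  have hjac : eval 0 (jacDet u) ≠ 0 := u1_jac hv'
  have hz : ∀ δ : Fin 2 × Fin (k + 1) → ℂ, eval (fun i => (Sum.elim 0 δ :
      Fin 2 ⊕ (Fin 2 × Fin (k + 1)) → ℂ) (Sum.inl i)) (jacDet u) ≠ 0 := fun δ => hjac
  have hu0 : ∀ i, eval 0 (u i) = 0 := by
    intro i
    fin_cases i
    · simp [hu]
    · simpa [hu] using hv
  -- properties of `cj u γ`
  have hb : ∀ γ : Fin 2 × Fin (k + 1) → ℂ, bp γ = 0 → bp (cj u γ) = 0 := by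
    intro γ hγ
    rw [bp_cj]
    funext i
    rw [hγ]
    exact hu0 i
  have hc : ∀ γ : Fin 2 × Fin (k + 1) → ℂ, cj (fun _ : Fin 1 => (X 0 ^ A * X 1 ^ M : P2))
      (cj u γ) = cj (fun _ : Fin 1 => X 0 ^ A * v ^ M) γ := by
    intro γ
    funext q
    show (along (X 0 ^ A * X 1 ^ M : P2) (cj u γ)).coeff q.2 = (along (X 0 ^ A * v ^ M) γ).coeff q.2
    rw [← along_cj u _ γ q.2 q.2.2]
    congr 2
    simp [hu]
  have hx : ∀ (γ : Fin 2 × Fin (k + 1) → ℂ) (l : Fin (k + 1)), cj u γ (0, l) = γ (0, l) := by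
    intro γ l
    show (along (X 0 : P2) γ).coeff l = _
    unfold along
    rw [aeval_X, a1_arc_coeff, dif_pos l.2]
  have hmem : ∀ γ : Fin 2 × Fin (k + 1) → ℂ, bp γ = 0 →
      (γ ∈ WW (fun _ : Fin 1 => X 0 ^ A * v ^ M) k Q ∩ u1S k S₀ ↔
        cj u γ ∈ WW (fun _ : Fin 1 => X 0 ^ A * X 1 ^ M) k Q ∩ u1S k S₀) := by
    intro γ hγ
    have h1 : γ ∈ WW (fun _ : Fin 1 => X 0 ^ A * v ^ M) k Q ↔
        cj u γ ∈ WW (fun _ : Fin 1 => X 0 ^ A * X 1 ^ M) k Q := by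
      show (bp γ = 0 ∧ cj (fun _ : Fin 1 => X 0 ^ A * v ^ M) γ ∈ Q) ↔
        (bp (cj u γ) = 0 ∧ cj (fun _ : Fin 1 => X 0 ^ A * X 1 ^ M) (cj u γ) ∈ Q)
      rw [hc γ]
      simp only [hγ, hb γ hγ]
    have h2 : γ ∈ u1S k S₀ ↔ cj u γ ∈ u1S k S₀ := by
      show (fun l => γ (0, l)) ∈ S₀ ↔ (fun l => cj u γ (0, l)) ∈ S₀
      simp only [hx γ]
    rw [Set.mem_inter_iff, Set.mem_inter_iff, h1, h2]
  have hb' : ∀ δ : Fin 2 × Fin (k + 1) → ℂ, bp (Ψ (Sum.elim 0 δ)) = 0 := by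
    intro δ
    funext i
    exact (hΨ2 _ (hz δ)).1 i
  have hcΨ : ∀ δ : Fin 2 × Fin (k + 1) → ℂ, bp δ = 0 → cj u (Ψ (Sum.elim 0 δ)) = δ := by
    intro δ hδ
    funext q
    obtain ⟨i, l⟩ := q
    by_cases hl : l = 0
    · subst hl
      have h1 := congrFun (hb _ (hb' δ)) i
      have h2 := congrFun hδ i
      exact h1.trans h2.symm
    · exact (hΨ2 _ (hz δ)).2 i l hl
  refine ⟨fun γ => cj u γ, fun δ => Ψ (Sum.elim 0 δ), fun q => ?_, fun q => ?_, fun γ hγ => ?_,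
    fun δ hδ => ?_, fun γ hγ => ?_, fun δ hδ => ?_⟩
  · obtain ⟨P, hP⟩ := exists_alongPoly (n := k + 1) (u q.1) q.2
    exact (regFun_poly _ P).congr fun γ _ => hP γ
  · refine RegFun.comp (f := fun δ : Fin 2 × Fin (k + 1) → ℂ =>
      (Sum.elim 0 δ : Fin 2 ⊕ (Fin 2 × Fin (k + 1)) → ℂ)) ?_ (hΨ1 q) (fun δ _ => hz δ)
    rintro (i | i)
    · exact (regFun_const _ 0).congr fun _ _ => rfl
    · exact (regFun_coord _ i).congr fun _ _ => rfl
  · exact (hmem γ hγ.1.1).1 hγ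
  · refine (hmem _ (hb' δ)).2 ?_
    rw [hcΨ δ hδ.1.1]
    exact hδ
  · refine hΨ3 _ γ (hz _) (fun i => ?_) (fun i l _ => rfl)
    exact congrFun hγ.1.1 i
  · exact hcΨ δ hδ.1.1

/-- jets whose second coordinate has order `j` -/
private theorem u1_ex {k : ℕ} (i : ℕ) (γ : Fin 2 × Fin (k + 1) → ℂ)
    (h1 : ∀ l : Fin (k + 1), (l : ℕ) < i → γ (0, l) = 0)
    (h2 : ∀ l : Fin (k + 1), (l : ℕ) = i → γ (0, l) ≠ 0) :
    ∃ j ∈ Finset.range (k + 2), γ ∈ OO k i j := by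
  obtain ⟨i', -, j, hj, h⟩ := exists_OO γ
  exact ⟨j, Finset.mem_range.2 (by omega), h1, h2, h.2.2.1, h.2.2.2⟩

private theorem u1_sum {k i : ℕ} {E : Set (Fin 2 × Fin (k + 1) → ℂ)} (hE : Constr E) :
    Constr (E ∩ u1S k {x | (∀ l : Fin (k + 1), (l : ℕ) < i → x l = 0) ∧
      ∀ l : Fin (k + 1), (l : ℕ) = i → x l ≠ 0}) ∧
    ∑ j ∈ Finset.range (k + 2), cls (E ∩ OO k i j) =
      cls (E ∩ u1S k {x | (∀ l : Fin (k + 1), (l : ℕ) < i → x l = 0) ∧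
        ∀ l : Fin (k + 1), (l : ℕ) = i → x l ≠ 0}) := by
  have e : E ∩ u1S k {x | (∀ l : Fin (k + 1), (l : ℕ) < i → x l = 0) ∧
      ∀ l : Fin (k + 1), (l : ℕ) = i → x l ≠ 0} =
      ⋃ j ∈ Finset.range (k + 2), E ∩ OO k i j := by
    ext γ
    simp only [Set.mem_iUnion, exists_prop]
    constructor
    · rintro ⟨h1, h2, h3⟩
      obtain ⟨j, hj, h4⟩ := u1_ex i γ h2 h3
      exact ⟨j, hj, h1, h4⟩
    · rintro ⟨j, -, h1, h2, h3, -⟩
      exact ⟨h1, h2, h3⟩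
  rw [e]
  refine ⟨constr_biUnion _ fun j _ => hE.inter (constr_OO k i j), ?_⟩
  rw [cls_biUnion _ (fun j _ => hE.inter (constr_OO k i j))]
  intro j hj j' hj' hne
  rw [Set.disjoint_left]
  rintro γ ⟨-, -, -, h1, h2⟩ ⟨-, -, -, h3, h4⟩
  simp only [Finset.mem_range] at hj hj'
  rcases lt_or_gt_of_ne hne with h | h
  · exact h2 ⟨j, by omega⟩ rfl (h3 ⟨j, by omega⟩ h)
  · exact h4 ⟨j', by omega⟩ rfl (h1 ⟨j', by omega⟩ h)

theorem cls_etale {k A M i : ℕ} {v : P2} (hv : eval 0 v = 0) (hv' : eval 0 (pderiv 1 v) ≠ 0)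
    {Q : Set (Fin 1 × Fin (k + 1) → ℂ)} (hQ : Constr Q) :
    ∑ j ∈ Finset.range (k + 2), cls (WW (fun _ : Fin 1 => X 0 ^ A * v ^ M) k Q ∩ OO k i j) =
      ∑ j ∈ Finset.range (k + 2),
        cls (WW (fun _ : Fin 1 => X 0 ^ A * X 1 ^ M) k Q ∩ OO k i j) := by
  have h1 := u1_sum (i := i) (constr_WW (fun _ : Fin 1 => X 0 ^ A * v ^ M) k hQ)
  have h2 := u1_sum (i := i) (constr_WW (fun _ : Fin 1 => X 0 ^ A * X 1 ^ M) k hQ)
  rw [h1.2, h2.2]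
  exact cls_iso h1.1 h2.1 (u1_iso hv hv' Q _)

theorem cls_etale' {k A M : ℕ} {v : P2} (hv : eval 0 v = 0) (hv' : eval 0 (pderiv 1 v) ≠ 0)
    {Q : Set (Fin 1 × Fin (k + 1) → ℂ)} (hQ : Constr Q) :
    cls (WW (fun _ : Fin 1 => X 0 ^ A * v ^ M) k Q) =
      cls (WW (fun _ : Fin 1 => X 0 ^ A * X 1 ^ M) k Q) := by
  have h := u1_iso (A := A) (M := M) hv hv' Q Set.univ
  have e : u1S k Set.univ = Set.univ := by
    ext γ
    simp [u1S]
  rw [e, Set.inter_univ, Set.inter_univ] at h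
  exact cls_iso (constr_WW _ k hQ) (constr_WW _ k hQ) h

end TV
end MotMono
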