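import Pool.Agent.Lib.MP_4e5fcd_ag.TV.B4
import Pool.Agent.Lib.MP_4e5fcd_ag.TV.U1
import Pool.Agent.Lib.MP_4e5fcd_ag.Mon.H2

/-!
# TV-B6: zeta functions of the leaves

* `Zw_mono`: `q = x ^ A y ^ B`, `A > 0`.
  `B > 0`: `WW q k (Qx 1 k) ∩ OO k i j` is `OO k i j` if `i, j ≥ 1` and `A i + B j = k`, empty
  otherwise. `[OO k i j] = (LL - 1) ^ 2 LL ^ (2 k - i - j)` (`i, j ≤ k`). So the coefficient of `T ^ k` of `Zw` is
  `L ^ -2 ∑_{i, j ≥ 1, A i + B j = k} (L - 1) ^ 2 L ^ -(a i + b j)`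
  (`2 k - i - j - (a - 1) i - (b - 1) j - 2 (k + 1) = - 2 - a i - b j`), that of
  `L ^ -2 gg A a * gg B b` (`PowerSeries.coeff_mul`).
  `B = 0`, `b = 1`: `∑_j` of the classes for `ord x = i`: the jets at `0` with `ord x = i`, `A i = k`:
  `(LL - 1) LL ^ (k - i) LL ^ k`; the coefficient is `L ^ -2 (L - 1) L ^ -(a i)`; `gg 0 1 = 1`.
* `Zw_triv`: `F_j = (x ^ A y ^ B) J_j`: `ww_unit_x`, so `Zw F = Zw (x ^ A y ^ B)`.
* `Zw_strict`: `ww_unit_x` with `q = x ^ A v ^ M`, then `cls_etale` (the second weight is `0`), `Zw_mono` with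
  `B = M`, `b = 1`.
-/

open MvPolynomial

namespace MotMono
namespace TV

open CN

private theorem b6_LL : algebraMap K0 MC LL = ((Lu : MCˣ) : MC) := Mon.h2_map_LL

/-- class of the series of order exactly `i` modulo `t ^ (k + 1)` (`0` if `i = k + 1`) -/
private noncomputable def c1 (k i : ℕ) : K0 := if i ≤ k then (LL - 1) * LL ^ (k - i) else 1

private theorem prod_c1 {k i : ℕ} (hi : i ≤ k + 1) :
    ∏ l : Fin (k + 1), (if (l : ℕ) < i then (1 : K0) else if (l : ℕ) = i then LL - 1 else LL)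
      = c1 k i := by
  rw [Fin.prod_univ_eq_prod_range (fun l => if l < i then (1 : K0) else if l = i then LL - 1 else LL)]
  rcases Nat.lt_or_ge k i with h | h
  · obtain rfl : i = k + 1 := by omega
    rw [c1, if_neg (by omega)]
    apply Finset.prod_eq_one
    intro l hl
    rw [if_pos (Finset.mem_range.1 hl)]
  · obtain ⟨m, rfl⟩ : ∃ m, k = i + m := ⟨k - i, by omega⟩
    rw [c1, if_pos h, show i + m + 1 = (i + 1) + m by ring, Finset.prod_range_add,
      Finset.prod_range_succ, Finset.prod_eq_one (s := Finset.range i)]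
    · simp only [lt_irrefl, if_false, if_true, one_mul, Nat.add_sub_cancel_left]
      congr 1
      rw [Finset.prod_congr rfl (g := fun _ => LL), Finset.prod_const, Finset.card_range]
      intro l _
      rw [if_neg (by omega), if_neg (by omega)]
    · intro l hl
      rw [if_pos (Finset.mem_range.1 hl)]

private theorem cls_OO {k i j : ℕ} (hi : i ≤ k + 1) (hj : j ≤ k + 1) :
    cls (OO k i j) = c1 k i * c1 k j := by
  have h := (Mon.h2_box (σ := Fin 2 × Fin (k + 1))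
    (fun q => (q.2 : ℕ) < if q.1 = 0 then i else j) (fun q => (q.2 : ℕ) = if q.1 = 0 then i else j)).2
  have e : OO k i j = {w : Fin 2 × Fin (k + 1) → ℂ | ∀ q, (((q.2 : ℕ) < if q.1 = 0 then i else j) →
      w q = 0) ∧ (¬ ((q.2 : ℕ) < if q.1 = 0 then i else j) →
      ((q.2 : ℕ) = if q.1 = 0 then i else j) → w q ≠ 0)} := by
    ext w
    simp only [OO, Set.mem_ofPred_eq, Prod.forall, Fin.forall_fin_two, if_true,
      if_neg (show ¬ ((1 : Fin 2) = 0) by decide), forall_and]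
    constructor
    · rintro ⟨h1, h2, h3, h4⟩
      exact ⟨⟨h1, h3⟩, fun l _ => h2 l, fun l _ => h4 l⟩
    · rintro ⟨⟨h1, h3⟩, h2, h4⟩
      exact ⟨h1, fun l hl => h2 l (by omega) hl, h3, fun l hl => h4 l (by omega) hl⟩
  rw [e, h, Fintype.prod_prod_type, Fin.prod_univ_two]
  simp only [if_true, if_neg (show ¬ ((1 : Fin 2) = 0) by decide)]
  rw [← prod_c1 hi, ← prod_c1 hj]

private theorem sum_c1 (k : ℕ) : ∑ j ∈ Finset.range (k + 2), (if 1 ≤ j then c1 k j else 0) = LL ^ k := by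
  have h (k : ℕ) : ∑ j ∈ Finset.range (k + 1), (LL - 1) * LL ^ j = LL ^ (k + 1) - 1 := by
    rw [← Finset.mul_sum, mul_comm, geom_sum_mul]
  rw [Finset.sum_range_succ', Finset.sum_range_succ]
  simp only [show ¬ (1 ≤ 0) by omega, if_false, add_zero, show 1 ≤ k + 1 by omega, if_true]
  rw [c1, if_neg (by omega : ¬ k + 1 ≤ k)]
  rcases k with _ | k
  · simp
  · rw [← Finset.sum_range_reflect]
    rw [Finset.sum_congr rfl (g := fun j => (LL - 1) * LL ^ j), h]
    · ring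
    · intro j hj
      have := Finset.mem_range.1 hj
      rw [if_pos (by omega), c1, if_pos (by omega)]
      congr 2
      omega

/-- order of the arc -/
private theorem arc_ord {k i : ℕ} (γ : Fin 2 × Fin (k + 1) → ℂ) (c : Fin 2) (hi : i ≤ k)
    (h1 : ∀ l : Fin (k + 1), (l : ℕ) < i → γ (c, l) = 0)
    (h2 : ∀ l : Fin (k + 1), (l : ℕ) = i → γ (c, l) ≠ 0) :
    ∃ Q : Polynomial ℂ, arc γ c = Polynomial.X ^ i * Q ∧ Q.coeff 0 ≠ 0 := by
  have hc (l : Fin (k + 1)) : (arc γ c).coeff l = γ (c, l) := by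
    simp only [arc, Polynomial.finsetSum_coeff, Polynomial.coeff_C_mul, Polynomial.coeff_X_pow]
    rw [Finset.sum_eq_single l]
    · simp
    · intro m _ hm
      rw [if_neg (fun h => hm (Fin.ext h.symm)), mul_zero]
    · simp
  have hd : Polynomial.X ^ i ∣ arc γ c := by
    rw [Polynomial.X_pow_dvd_iff]
    intro l hl
    have := hc ⟨l, by omega⟩
    rw [show ((⟨l, by omega⟩ : Fin (k + 1)) : ℕ) = l from rfl] at this
    rw [this]
    exact h1 _ hl
  obtain ⟨Q, hQ⟩ := hd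
  refine ⟨Q, hQ, ?_⟩
  have := hc ⟨i, by omega⟩
  rw [show ((⟨i, by omega⟩ : Fin (k + 1)) : ℕ) = i from rfl, hQ,
    Polynomial.coeff_X_pow_mul', if_pos le_rfl, Nat.sub_self] at this
  rw [this]
  exact h2 _ rfl

private theorem arc_zero {k : ℕ} (γ : Fin 2 × Fin (k + 1) → ℂ) (c : Fin 2)
    (h1 : ∀ l : Fin (k + 1), γ (c, l) = 0) : arc γ c = 0 := by
  rw [arc]
  apply Finset.sum_eq_zero
  intro l _
  rw [h1]
  simp

private theorem mem_ww {k A B i j : ℕ} (hA : 0 < A) {γ : Fin 2 × Fin (k + 1) → ℂ}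
    (hi : i ≤ k + 1) (hj : j ≤ k + 1) (h : γ ∈ OO k i j) :
    γ ∈ WW (fun _ : Fin 1 => X 0 ^ A * X 1 ^ B) k (Qx 1 k) ↔
      1 ≤ i ∧ 1 ≤ j ∧ A * i + B * j = k := by
  obtain ⟨h1, h2, h3, h4⟩ := h
  have hal : along (X 0 ^ A * X 1 ^ B : P2) γ = arc γ 0 ^ A * arc γ 1 ^ B := by
    simp [along]
  have hbp : bp γ = 0 ↔ 1 ≤ i ∧ 1 ≤ j := by
    constructor
    · intro h0
      constructor
      · by_contra hi0
        exact h2 0 (by simp; omega) (congrFun h0 0)
      · by_contra hj0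
        exact h4 0 (by simp; omega) (congrFun h0 1)
    · rintro ⟨hi1, hj1⟩
      funext c
      fin_cases c
      · exact h1 0 (by simp; omega)
      · exact h3 0 (by simp; omega)
  have hmem : γ ∈ WW (fun _ : Fin 1 => X 0 ^ A * X 1 ^ B) k (Qx 1 k) ↔
      bp γ = 0 ∧ (∀ l < k, (arc γ 0 ^ A * arc γ 1 ^ B).coeff l = 0) ∧
        (arc γ 0 ^ A * arc γ 1 ^ B).coeff k ≠ 0 := by
    rw [← hal]
    constructor
    · rintro ⟨h0, h5, ⟨_, h6⟩⟩
      refine ⟨h0, fun l hl => h5 0 ⟨l, by omega⟩ hl, ?_⟩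
      exact h6
    · rintro ⟨h0, h5, h6⟩
      exact ⟨h0, fun _ l hl => h5 l hl, 0, h6⟩
  rw [hmem, hbp, and_assoc]
  refine and_congr_right fun hi1 => and_congr_right fun hj1 => ?_
  by_cases hik : i ≤ k
  · by_cases hjk : j ≤ k
    · obtain ⟨P, hP, hP0⟩ := arc_ord γ 0 hik h1 h2
      obtain ⟨Q, hQ, hQ0⟩ := arc_ord γ 1 hjk h3 h4
      have e : arc γ 0 ^ A * arc γ 1 ^ B = Polynomial.X ^ (A * i + B * j) * (P ^ A * Q ^ B) := by
        rw [hP, hQ]; ring
      have e0 : (P ^ A * Q ^ B).coeff 0 ≠ 0 := by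
        rw [Polynomial.mul_coeff_zero, Polynomial.coeff_zero_eq_eval_zero,
          Polynomial.coeff_zero_eq_eval_zero, Polynomial.eval_pow, Polynomial.eval_pow,
          ← Polynomial.coeff_zero_eq_eval_zero, ← Polynomial.coeff_zero_eq_eval_zero]
        exact mul_ne_zero (pow_ne_zero _ hP0) (pow_ne_zero _ hQ0)
      rw [e]
      simp only [Polynomial.coeff_X_pow_mul']
      constructor
      · rintro ⟨h5, h6⟩
        rcases lt_trichotomy (A * i + B * j) k with h7 | h7 | h7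
        · have := h5 _ h7
          rw [if_pos le_rfl, Nat.sub_self] at this
          exact absurd this e0
        · exact h7
        · rw [if_neg (by omega)] at h6
          exact absurd rfl h6
      · intro h7
        refine ⟨fun l hl => if_neg (by omega), ?_⟩
        rw [if_pos (by omega), h7, Nat.sub_self]
        exact e0
    · have hj' : j = k + 1 := by omega
      have hz : arc γ 1 = 0 := arc_zero γ 1 (fun l => h3 l (by have := l.2; omega))
      rcases Nat.eq_zero_or_pos B with hB | hB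
      · subst hB
        obtain ⟨P, hP, hP0⟩ := arc_ord γ 0 hik h1 h2
        have e : arc γ 0 ^ A * arc γ 1 ^ 0 = Polynomial.X ^ (A * i) * P ^ A := by
          rw [hP]; ring
        have e0 : (P ^ A).coeff 0 ≠ 0 := by
          rw [Polynomial.coeff_zero_eq_eval_zero, Polynomial.eval_pow,
            ← Polynomial.coeff_zero_eq_eval_zero]
          exact pow_ne_zero _ hP0
        rw [e, zero_mul, add_zero]
        simp only [Polynomial.coeff_X_pow_mul']
        constructor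
        · rintro ⟨h5, h6⟩
          rcases lt_trichotomy (A * i) k with h7 | h7 | h7
          · have := h5 _ h7
            rw [if_pos le_rfl, Nat.sub_self] at this
            exact absurd this e0
          · exact h7
          · rw [if_neg (by omega)] at h6
            exact absurd rfl h6
        · intro h7
          refine ⟨fun l hl => if_neg (by omega), ?_⟩
          rw [if_pos (by omega), h7, Nat.sub_self]
          exact e0
      · constructor
        · rintro ⟨_, h6⟩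
          rw [hz, zero_pow hB.ne', mul_zero] at h6
          exact absurd rfl h6
        · intro h7
          have : B * 1 ≤ B * j := Nat.mul_le_mul_left _ hj1
          have : 1 * j ≤ B * j := Nat.mul_le_mul_right _ hB
          omega
  · have hz : arc γ 0 = 0 := arc_zero γ 0 (fun l => h1 l (by have := l.2; omega))
    constructor
    · rintro ⟨_, h6⟩
      rw [hz, zero_pow hA.ne', zero_mul] at h6
      exact absurd rfl h6
    · intro h7
      have : 1 * i ≤ A * i := Nat.mul_le_mul_right _ hA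
      omega

private theorem cls_ww {k A B i j : ℕ} (hA : 0 < A) (hi : i ≤ k + 1) (hj : j ≤ k + 1) :
    cls (WW (fun _ : Fin 1 => X 0 ^ A * X 1 ^ B) k (Qx 1 k) ∩ OO k i j) =
      if 1 ≤ i ∧ 1 ≤ j ∧ A * i + B * j = k then c1 k i * c1 k j else 0 := by
  split_ifs with h
  · have e : WW (fun _ : Fin 1 => X 0 ^ A * X 1 ^ B) k (Qx 1 k) ∩ OO k i j = OO k i j := by
      apply Set.inter_eq_right.2
      intro γ hγ
      exact (mem_ww hA hi hj hγ).2 h
    rw [e, cls_OO hi hj]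
  · have e : WW (fun _ : Fin 1 => X 0 ^ A * X 1 ^ B) k (Qx 1 k) ∩ OO k i j = ∅ := by
      rw [Set.eq_empty_iff_forall_notMem]
      rintro γ ⟨h1, h2⟩
      exact h ((mem_ww hA hi hj h2).1 h1)
    rw [e, cls_empty]

/-- the term `(L - 1) L ^ (- a i)` -/
private noncomputable def tt (a i : ℕ) : MC :=
  (((Lu : MCˣ) : MC) - 1) * ((Lu ^ (-(a * i : ℕ) : ℤ) : MCˣ) : MC)

private theorem coeff_gg {N ν k : ℕ} (hN : 0 < N) :
    PowerSeries.coeff k (gg N ν) = if 0 < k ∧ N ∣ k then tt ν (k / N) else 0 := by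
  rw [gg, if_neg hN.ne', PowerSeries.coeff_mk, tt]
  push_cast
  rfl

private theorem sum_conv {R : Type*} [CommRing R] (f g : ℕ → R) {A B k : ℕ} (hA : 0 < A) (hB : 0 < B) :
    ∑ i ∈ Finset.range (k + 2), ∑ j ∈ Finset.range (k + 2),
      (if 1 ≤ i ∧ 1 ≤ j ∧ A * i + B * j = k then f i * g j else 0) =
    ∑ p ∈ Finset.HasAntidiagonal.antidiagonal k, (if 0 < p.1 ∧ A ∣ p.1 then f (p.1 / A) else 0) *
      (if 0 < p.2 ∧ B ∣ p.2 then g (p.2 / B) else 0) := by
  rw [← Finset.sum_product', ← Finset.sum_filter]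
  have h1 : ∀ p : ℕ × ℕ, (if 0 < p.1 ∧ A ∣ p.1 then f (p.1 / A) else 0) *
      (if 0 < p.2 ∧ B ∣ p.2 then g (p.2 / B) else 0) =
      if (0 < p.1 ∧ A ∣ p.1) ∧ (0 < p.2 ∧ B ∣ p.2) then f (p.1 / A) * g (p.2 / B) else 0 := by
    intro p
    by_cases h : 0 < p.1 ∧ A ∣ p.1 <;> by_cases h' : 0 < p.2 ∧ B ∣ p.2 <;> simp [h, h']
  rw [Finset.sum_congr rfl (fun p _ => h1 p), ← Finset.sum_filter]
  refine Finset.sum_nbij' (fun p => (A * p.1, B * p.2)) (fun p => (p.1 / A, p.2 / B)) ?_ ?_ ?_ ?_ ?_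
  · rintro ⟨i, j⟩ h
    simp only [Finset.mem_filter, Finset.mem_product, Finset.mem_range,
      Finset.HasAntidiagonal.mem_antidiagonal] at h ⊢
    exact ⟨h.2.2.2, ⟨Nat.mul_pos hA h.2.1, dvd_mul_right _ _⟩,
      ⟨Nat.mul_pos hB h.2.2.1, dvd_mul_right _ _⟩⟩
  · rintro ⟨m, n⟩ h
    simp only [Finset.mem_filter, Finset.mem_product, Finset.mem_range,
      Finset.HasAntidiagonal.mem_antidiagonal] at h ⊢
    obtain ⟨h1, ⟨h2, h3⟩, h4, h5⟩ := h
    have h6 := Nat.div_le_self m A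
    have h7 := Nat.div_le_self n B
    refine ⟨⟨by omega, by omega⟩, Nat.div_pos (Nat.le_of_dvd h2 h3) hA,
      Nat.div_pos (Nat.le_of_dvd h4 h5) hB, ?_⟩
    rw [Nat.mul_div_cancel' h3, Nat.mul_div_cancel' h5, h1]
  · rintro ⟨i, j⟩ _
    simp [Nat.mul_div_cancel_left _ hA, Nat.mul_div_cancel_left _ hB]
  · rintro ⟨m, n⟩ h
    simp only [Finset.mem_filter] at h
    simp [Nat.mul_div_cancel' h.2.1.2, Nat.mul_div_cancel' h.2.2.2]
  · rintro ⟨i, j⟩ _
    simp [Nat.mul_div_cancel_left _ hA, Nat.mul_div_cancel_left _ hB]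

private theorem lu_mul (a b : ℤ) : ((Lu ^ a : MCˣ) : MC) * ((Lu ^ b : MCˣ) : MC) =
    ((Lu ^ (a + b) : MCˣ) : MC) := by
  rw [zpow_add, Units.val_mul]

private theorem map_c1 {k i : ℕ} (hi : i ≤ k) : algebraMap K0 MC (c1 k i) =
    (((Lu : MCˣ) : MC) - 1) * ((Lu ^ ((k : ℤ) - i) : MCˣ) : MC) := by
  rw [c1, if_pos hi, map_mul, map_pow, map_sub, map_one, b6_LL]
  congr 1
  rw [show ((k : ℤ) - i) = ((k - i : ℕ) : ℤ) by omega, zpow_natCast, Units.val_pow_eq_pow_val]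

theorem Zw_mono {A B a b : ℕ} (hA : 0 < A) (ha : 1 ≤ a) (hb : 1 ≤ b) (hB : B = 0 → b = 1) :
    Zw (fun _ : Fin 1 => X 0 ^ A * X 1 ^ B) (a - 1) (b - 1) =
      PowerSeries.C ((Lu ^ (-2 : ℤ) : MCˣ) : MC) * (gg A a * gg B b) := by
  ext k
  rw [Zw, PowerSeries.coeff_mk, PowerSeries.coeff_C_mul, mw]
  have h1 : ∀ i ∈ Finset.range (k + 2), ∀ j ∈ Finset.range (k + 2),
      algebraMap K0 MC (cls (WW (fun _ : Fin 1 => X 0 ^ A * X 1 ^ B) k (Qx 1 k) ∩ OO k i j)) *
        ((Lu ^ (-(((a - 1 : ℕ) : ℤ) * i + ((b - 1 : ℕ) : ℤ) * j)) : MCˣ) : MC) =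
      if 1 ≤ i ∧ 1 ≤ j ∧ A * i + B * j = k then algebraMap K0 MC (c1 k i * c1 k j) *
        ((Lu ^ (-(((a - 1 : ℕ) : ℤ) * i + ((b - 1 : ℕ) : ℤ) * j)) : MCˣ) : MC) else 0 := by
    intro i hi j hj
    rw [cls_ww hA (by have := Finset.mem_range.1 hi; omega) (by have := Finset.mem_range.1 hj; omega)]
    split_ifs
    · rfl
    · rw [map_zero, zero_mul]
  rw [Finset.sum_congr rfl (fun i hi => Finset.sum_congr rfl (fun j hj => h1 i hi j hj))]
  have ha' : ((a - 1 : ℕ) : ℤ) = (a : ℤ) - 1 := by omega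
  have hb' : ((b - 1 : ℕ) : ℤ) = (b : ℤ) - 1 := by omega
  rcases Nat.eq_zero_or_pos B with hB0 | hB0
  · subst hB0
    obtain rfl := hB rfl
    have hg : gg 0 1 = 1 := by rw [gg, if_pos rfl]
    rw [hg, mul_one, coeff_gg hA]
    simp only [zero_mul, add_zero, Nat.sub_self, Nat.cast_zero]
    have h2 : ∀ i ∈ Finset.range (k + 2), ∑ j ∈ Finset.range (k + 2),
        (if 1 ≤ i ∧ 1 ≤ j ∧ A * i = k then algebraMap K0 MC (c1 k i * c1 k j) *
        ((Lu ^ (-(((a - 1 : ℕ) : ℤ) * i)) : MCˣ) : MC) else 0) =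
        if 1 ≤ i ∧ A * i = k then algebraMap K0 MC (c1 k i) * ((Lu ^ (k : ℤ) : MCˣ) : MC) *
          ((Lu ^ (-(((a - 1 : ℕ) : ℤ) * i)) : MCˣ) : MC) else 0 := by
      intro i _
      by_cases h3 : 1 ≤ i ∧ A * i = k
      · rw [if_pos h3]
        have h4 : ∀ j ∈ Finset.range (k + 2), (if 1 ≤ i ∧ 1 ≤ j ∧ A * i = k then
            algebraMap K0 MC (c1 k i * c1 k j) *
            ((Lu ^ (-(((a - 1 : ℕ) : ℤ) * i)) : MCˣ) : MC) else 0) =
            algebraMap K0 MC (c1 k i) * algebraMap K0 MC (if 1 ≤ j then c1 k j else 0) *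
            ((Lu ^ (-(((a - 1 : ℕ) : ℤ) * i)) : MCˣ) : MC) := by
          intro j _
          by_cases h5 : 1 ≤ j
          · rw [if_pos ⟨h3.1, h5, h3.2⟩, if_pos h5, map_mul]
          · rw [if_neg (fun h => h5 h.2.1), if_neg h5, map_zero, mul_zero, zero_mul]
        rw [Finset.sum_congr rfl h4, ← Finset.sum_mul, ← Finset.mul_sum, ← map_sum, sum_c1,
          map_pow, b6_LL, zpow_natCast, Units.val_pow_eq_pow_val]
      · rw [if_neg h3]
        apply Finset.sum_eq_zero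
        intro j _
        rw [if_neg (fun h => h3 ⟨h.1, h.2.2⟩)]
    rw [Finset.sum_congr rfl h2]
    by_cases h3 : 0 < k ∧ A ∣ k
    · rw [if_pos h3]
      obtain ⟨h4, i, rfl⟩ := h3
      have hi : 0 < i := Nat.pos_of_mul_pos_left h4 |> fun h => by
        rcases Nat.eq_zero_or_pos i with h5 | h5
        · subst h5; simp at h4
        · exact h5
      have hik : i ≤ A * i := Nat.le_mul_of_pos_left i hA
      rw [Finset.sum_eq_single i]
      · rw [if_pos ⟨hi, rfl⟩, Nat.mul_div_cancel_left _ hA, map_c1 hik, tt, ha']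
        have e1 : ((Lu ^ (-2 : ℤ) : MCˣ) : MC) * ((((Lu : MCˣ) : MC) - 1) *
            ((Lu ^ (-(a * i : ℕ) : ℤ) : MCˣ) : MC)) = (((Lu : MCˣ) : MC) - 1) *
            ((Lu ^ (-2 + -(a * i : ℕ) : ℤ) : MCˣ) : MC) := by
          rw [← lu_mul]; ring
        rw [e1, mul_assoc, mul_assoc, mul_assoc, lu_mul, lu_mul, lu_mul]
        congr 3
        push_cast
        ring
      · intro j _ hj
        rw [if_neg]
        rintro ⟨_, h6⟩
        exact hj (Nat.eq_of_mul_eq_mul_left hA h6)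
      · intro h5
        exact absurd (Finset.mem_range.2 (by omega)) h5
    · rw [if_neg h3, mul_zero, Finset.sum_eq_zero, zero_mul]
      intro i _
      rw [if_neg]
      rintro ⟨h4, h5⟩
      exact h3 ⟨by rw [← h5]; exact Nat.mul_pos hA h4, ⟨i, h5.symm⟩⟩
  · rw [PowerSeries.coeff_mul]
    simp only [coeff_gg hA, coeff_gg hB0]
    rw [← sum_conv (tt a) (tt b) hA hB0, Finset.sum_mul, Finset.mul_sum]
    refine Finset.sum_congr rfl fun i _ => ?_
    rw [Finset.sum_mul, Finset.mul_sum]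
    refine Finset.sum_congr rfl fun j _ => ?_
    split_ifs with h
    · obtain ⟨hi1, hj1, hij⟩ := h
      have hi2 : 1 * i ≤ A * i := Nat.mul_le_mul_right _ hA
      have hj2 : 1 * j ≤ B * j := Nat.mul_le_mul_right _ hB0
      rw [map_mul, map_c1 (by omega), map_c1 (by omega), tt, tt, ha', hb']
      have e1 : ∀ u x y z w : MC, u * x * (u * y) * z * w = u * u * (x * y * z * w) := by
        intros; ring
      have e2 : ∀ u x y z : MC, x * (u * y * (u * z)) = u * u * (x * y * z) := by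
        intros; ring
      rw [e1, e2, lu_mul, lu_mul, lu_mul, lu_mul, lu_mul]
      congr 3
      push_cast
      ring
    · rw [zero_mul, mul_zero]

theorem Zw_triv {r A B a b : ℕ} {F J : Fin r → P2} (hA : 0 < A)
    (hF : ∀ j, F j = X 0 ^ A * X 1 ^ B * J j) (h : ∃ j, eval 0 (J j) ≠ 0) (ha : 1 ≤ a)
    (hb : 1 ≤ b) (hB : B = 0 → b = 1) :
    Zw F (a - 1) (b - 1) = PowerSeries.C ((Lu ^ (-2 : ℤ) : MCˣ) : MC) * (gg A a * gg B b) := by
  rw [← Zw_mono hA ha hb hB, Zw, Zw]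
  simp only [ww_unit_x hF h]

theorem Zw_strict {r A M a : ℕ} {F g : Fin r → P2} {v : P2} (hA : 0 < A) (hM : 0 < M)
    (hF : ∀ j, F j = X 0 ^ A * v ^ M * g j) (hv : eval 0 v = 0)
    (hv' : eval 0 (pderiv 1 v) ≠ 0) (h : ∃ j, eval 0 (g j) ≠ 0) (ha : 1 ≤ a) :
    Zw F (a - 1) 0 = PowerSeries.C ((Lu ^ (-2 : ℤ) : MCˣ) : MC) * (gg A a * gg M 1) := by
  rw [← Zw_mono hA ha le_rfl (fun h => absurd h hM.ne')]
  have key : ∀ k, mw (algebraMap K0 MC) Lu k (a - 1) 0 (WW F k (Qx r k)) =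
      mw (algebraMap K0 MC) Lu k (a - 1) (1 - 1)
        (WW (fun _ : Fin 1 => X 0 ^ A * X 1 ^ M) k (Qx 1 k)) := by
    intro k
    rw [ww_unit_x hF h, mw, mw, Nat.sub_self]
    refine Finset.sum_congr rfl fun i _ => ?_
    simp only [Nat.cast_zero, zero_mul, add_zero]
    rw [← Finset.sum_mul, ← Finset.sum_mul, ← map_sum, ← map_sum, cls_etale hv hv' (constr_Qx 1 k)]
  rw [Zw, Zw]
  simp only [key]

end TV
end MotMono
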