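import Pool.Agent.Lib.MP_4e5fcd_ag.TV.B5
import Pool.Agent.Lib.MP_4e5fcd_ag.TV.B6

/-!
# TV-B7: the zeta function is that of the resolution tree

Induction on `Rz`: `Zw_triv`, `Zw_strict`, `Zw_node` (`wa = a - 1`, `wb = b - 1`:
`wa + wb + 2 = a + b`, `wa + wb + 1 = (a + b) - 1`; `A = 0 → wa = 0`). `Zw_zero`: weights `0`
(`mw_zero`), and `ordLocus (span F) k = WW F k (Qx r k)` (CN/P2 `exOrd_span`).
-/

open MvPolynomial

namespace MotMono
namespace TV

open CN

theorem Zw_eq {r : ℕ} {F : Fin r → P2} {A B : ℕ} {X : Str r} (h : Rz F A B X) (a b : ℕ)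
    (ha1 : 1 ≤ a) (hb1 : 1 ≤ b) (ha : A = 0 → a = 1) (hb : B = 0 → b = 1) :
    Zw F (a - 1) (b - 1) = PowerSeries.C ((Lu ^ (-2 : ℤ) : MCˣ) : MC) * Zs X A a B b := by
  induction h generalizing a b with
  | triv F J A B hA hF h =>
    rw [Zw_triv hA hF h ha1 hb1 hb]
    rfl
  | strict F g v A M hA hM hF hv hv' h =>
    have hb' : b = 1 := hb rfl
    subst hb'
    exact Zw_strict hA hM hF hv hv' h ha1
  | node F J A B μ hμ hF hJ hJ' n ws hinj hw0 hz hnz lab s0 si fr hlab h0 hi hf ih0 ihi ihf =>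
    have hN : A + B + μ = 0 → a + b = 1 := fun h => absurd h (by omega)
    have e1 : a - 1 + (b - 1) + 2 = a + b := by omega
    have e2 : a - 1 + (b - 1) + 1 = a + b - 1 := by omega
    have h1 := Zw_node hμ hF hJ ws hinj hw0 hnz (a - 1) (b - 1)
      (by
        rcases Nat.eq_zero_or_pos A with h | h
        · left
          rw [ha h]
        · exact Or.inr h)
      (by
        rcases Nat.eq_zero_or_pos B with h | h
        · left
          rw [hb h]
        · exact Or.inr h)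
    rw [e1, e2] at h1
    have h2 := ih0 (a + b) b (by omega) hb1 hN hb
    have h3 := ihi (a + b) a (by omega) ha1 hN ha
    have h4 : ∀ e, Zw (fun j => ch (ws e) (F j)) (a + b - 1) 0 =
        PowerSeries.C ((Lu ^ (-2 : ℤ) : MCˣ) : MC) * Zs (fr e) (A + B + μ) (a + b) 0 1 :=
      fun e => ihf e (a + b) 1 (by omega) le_rfl hN (fun _ => rfl)
    rw [h1, h2, h3, Finset.sum_congr rfl fun e _ => h4 e]
    have h5 : Zs (Str.node μ lab s0 si n fr) A a B b =
        (PowerSeries.C (((Lu : MCˣ) : MC) - 1 - n)) * gg (A + B + μ) (a + b) +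
        Zs s0 (A + B + μ) (a + b) B b + Zs si (A + B + μ) (a + b) A a +
        ∑ i, Zs (fr i) (A + B + μ) (a + b) 0 1 := rfl
    rw [h5, mul_add, mul_add, mul_add, Finset.mul_sum]

theorem Zw_zero {r : ℕ} (F : Fin r → P2) : Zw F 0 0 = Zmot (Ideal.span (Set.range F)) := by
  have hloc : ∀ k, ordLocus (Ideal.span (Set.range F)) k = WW F k (Qx r k) := by
    intro k
    ext γ
    have h1 : γ ∈ ordLocus (Ideal.span (Set.range F)) k ↔
        (∀ i, γ (i, 0) = 0) ∧ γ ∈ ExOrd (Ideal.span (Set.range F)) k := Iff.rfl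
    rw [h1, exOrd_span]
    constructor
    · rintro ⟨h0, h2, f, ⟨j, rfl⟩, h3⟩
      refine ⟨funext h0, fun j' l hl => ?_, j, h3⟩
      exact h2 (F j') ⟨j', rfl⟩ l hl
    · rintro ⟨h0, h2, j, h3⟩
      refine ⟨fun i => congrFun h0 i, ?_, F j, ⟨j, rfl⟩, h3⟩
      rintro f ⟨j', rfl⟩ l hl
      exact h2 j' ⟨l, by omega⟩ hl
  unfold Zw Zmot
  congr 1
  funext k
  rw [mw_zero _ _ _ (constr_WW F k (constr_Qx r k)), hloc]
  norm_cast

theorem Zmot_of_rz {r : ℕ} {F : Fin r → P2} {X : Str r} (h : Rz F 0 0 X) :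
    Zmot (Ideal.span (Set.range F)) =
      PowerSeries.C ((Lu ^ (-2 : ℤ) : MCˣ) : MC) * Zs X 0 1 0 1 := by
  rw [← Zw_zero, ← Zw_eq h 1 1 le_rfl le_rfl (fun _ => rfl) (fun _ => rfl)]

end TV
end MotMono
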