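import Mathlib

/-!
# TV-Pol: polynomials in two variables, charts of the blow-up, local lengths
-/

open MvPolynomial

namespace MotMono
namespace TV

/-- polynomials in two variables -/
abbrev P2 : Type := MvPolynomial (Fin 2) ℂ

/-- the chart `(x, y) ↦ (x, x (y + w))` of the blow-up -/
noncomputable def cv (w : ℂ) : Fin 2 → P2 := ![X 0, X 0 * (X 1 + C w)]

/-- `f (x, x (y + w))` -/
noncomputable def ch (w : ℂ) (f : P2) : P2 := aeval (cv w) f

/-- the exchange of the variables -/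
noncomputable def sv : Fin 2 → P2 := ![X 1, X 0]

/-- `f (y, x)` -/
noncomputable def sw (f : P2) : P2 := aeval sv f

/-- all components of degree `< μ` vanish -/
def OrdP (f : P2) (μ : ℕ) : Prop := ∀ k < μ, homogeneousComponent k f = 0

/-- the values at `p` of the components of degree `μ` of a tuple -/
noncomputable def ld {r : ℕ} (μ : ℕ) (J : Fin r → P2) (p : Fin 2 → ℂ) : Fin r → ℂ :=
  fun j => eval p (homogeneousComponent μ (J j))

/-- proportional vectors -/
def Pr {r : ℕ} (u v : Fin r → ℂ) : Prop := ∃ c : ℂ, c ≠ 0 ∧ u = c • v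

/-- the maximal ideal of the origin -/
noncomputable def mm : Ideal P2 := Ideal.span {X 0, X 1}

/-- the local length of `ℂ[x, y] / I` at the origin is at most `n` -/
def LenLe (I : Ideal P2) (n : ℕ) : Prop :=
  ∀ k : ℕ, Module.finrank ℂ (P2 ⧸ (I ⊔ mm ^ k)) ≤ n

/-- the ideal of `h` and its partial derivatives -/
noncomputable def tj (h : P2) : Ideal P2 := Ideal.span {h, pderiv 0 h, pderiv 1 h}

/-- the ideal contains a non-zero polynomial in `x` and a non-zero polynomial in `y` -/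
def Fin2 (I : Ideal P2) : Prop :=
  (∃ f : Polynomial ℂ, f ≠ 0 ∧ Polynomial.aeval (X 0 : P2) f ∈ I) ∧
    ∃ f : Polynomial ℂ, f ≠ 0 ∧ Polynomial.aeval (X 1 : P2) f ∈ I

/-- `F = ∏ p_i ^ m_i * J`, the common zeros of `J` and the singularities of the curve
`∏ p_i = 0` are isolated -/
structure CD {r s : ℕ} (F : Fin r → P2) (p : Fin s → P2) (m : Fin s → ℕ) (J : Fin r → P2) :
    Prop where
  eq : ∀ j, F j = (∏ i, p i ^ m i) * J j
  pos : ∀ i, 0 < m i
  ne : ∀ i, p i ≠ 0
  finJ : Fin2 (Ideal.span (Set.range J))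
  finT : Fin2 (tj (∏ i, p i))

/-- a state of the resolution, with its lengths -/
structure St {r s : ℕ} (F : Fin r → P2) (A B : ℕ) (p : Fin s → P2) (m : Fin s → ℕ)
    (J : Fin r → P2) (n1 n2 : ℕ) : Prop where
  eq : ∀ j, F j = X 0 ^ A * X 1 ^ B * (∏ i, p i ^ m i) * J j
  pos : ∀ i, 0 < m i
  ne : ∀ i, p i ≠ 0
  neJ : ∃ j, J j ≠ 0
  len1 : LenLe (Ideal.span (Set.range J)) n1
  len2 : LenLe (tj (∏ i, p i)) n2
  nx : 0 < A → ∀ i, ¬ (X 0 : P2) ∣ p i
  ny : 0 < B → ∀ i, ¬ (X 1 : P2) ∣ p i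

end TV
end MotMono
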