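import Mathlib

/-!
# TV-Str: resolution trees of tuples of polynomials in two variables (combinatorial part)

A state has two lines `x = 0`, `y = 0`, with numerical data `(A, a)` and `(B, b)`: the exponent of
the line in the tuple and its log discrepancy. A line with exponent `0` is not a curve of the
configuration, it has log discrepancy `1`.
-/

namespace MotMono
namespace TV

/-- Label of a node (an exceptional curve `E`): `inl η`: the tuple is constant on `E`, with
direction `η`; `inr f`: it is not, and `f ζ` is the number of points of `E` (without the special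
ones) where it has the direction `ζ`. -/
abbrev Lab (r : ℕ) : Type := (Fin r → ℂ) ⊕ ((Fin r → ℂ) → ℕ)

/-- Resolution trees: `triv`: nothing to do; `strict M`: the second line is not a curve, and
there is a transversal curve of multiplicity `M`; `node μ lab s0 si n fr`: blow up, `μ` is the
multiplicity, `s0` and `si` are the trees of the charts at the directions of the second line
`y = 0` and of the first line `x = 0`, `fr` those at the `n` special free directions. -/
inductive Str (r : ℕ) : Type
  | triv : Str r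
  | strict (M : ℕ) : Str r
  | node (μ : ℕ) (lab : Lab r) (s0 si : Str r) (n : ℕ) (fr : Fin n → Str r) : Str r

namespace Str

variable {r : ℕ}

/-- order of the tuple (without the exponents of the lines) on the second line -/
def m2 : Str r → ℕ
  | triv => 0
  | strict _ => 0
  | node μ _ s0 _ _ _ => μ + m2 s0

/-- order of the tuple (without the exponents of the lines) on the first line -/
def m1 : Str r → ℕ
  | triv => 0
  | strict M => M
  | node μ _ _ si _ _ => μ + m2 si

/-- the neighbour of the second line: exponent and log discrepancy -/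
def j2 : Str r → ℕ → ℕ → ℕ → ℕ → ℕ × ℕ
  | triv, A, a, _, _ => (A, a)
  | strict _, A, a, _, _ => (A, a)
  | node μ _ s0 _ _ _, A, a, B, b => j2 s0 (A + B + μ) (a + b) B b

/-- the neighbour of the first line: exponent and log discrepancy -/
def j1 : Str r → ℕ → ℕ → ℕ → ℕ → ℕ × ℕ
  | triv, _, _, B, b => (B, b)
  | strict M, _, _, _, _ => (M, 1)
  | node μ _ _ si _ _, A, a, B, b => j2 si (A + B + μ) (a + b) A a

/-- `0` for a direction through which nothing passes (the second line, of exponent `B`, is not a
curve, and the tree is trivial), `1` for a real direction -/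
def dv : Str r → ℕ → ℕ
  | triv, B => if B = 0 then 0 else 1
  | strict _, _ => 1
  | node _ _ _ _ _ _, _ => 1

/-- the multiplicities of the strict transforms -/
def strs : Str r → Multiset ℕ
  | triv => 0
  | strict M => {M}
  | node _ _ s0 si _ fr => strs s0 + strs si + ∑ i, strs (fr i)

/-- the numerical conditions -/
def WF : Str r → ℕ → ℕ → Prop
  | triv, _, _ => True
  | strict M, _, B => 0 < M ∧ B = 0
  | node μ lab s0 si _ fr, A, B =>
      0 < μ ∧ m1 s0 + m1 si + ∑ i, m1 (fr i) ≤ μ ∧
      (lab.isLeft = true → m1 s0 + m1 si + ∑ i, m1 (fr i) = μ) ∧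
      (∀ i, 0 < m1 (fr i)) ∧
      WF s0 (A + B + μ) B ∧ WF si (A + B + μ) A ∧ ∀ i, WF (fr i) (A + B + μ) 0

end Str

/-- an exceptional curve: exponent, log discrepancy, number of neighbours, label -/
structure Nd (r : ℕ) : Type where
  /-- the exponent -/
  N : ℕ
  /-- the log discrepancy -/
  ν : ℕ
  /-- the number of neighbours -/
  val : ℕ
  /-- the label -/
  lab : Lab r

namespace Str

variable {r : ℕ}

/-- the exceptional curves -/
def nds : Str r → ℕ → ℕ → ℕ → ℕ → Multiset (Nd r)
  | triv, _, _, _, _ => 0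
  | strict _, _, _, _, _ => 0
  | node μ lab s0 si n fr, A, a, B, b =>
      {⟨A + B + μ, a + b, n + dv s0 B + dv si A, lab⟩} + nds s0 (A + B + μ) (a + b) B b +
        nds si (A + B + μ) (a + b) A a + ∑ i, nds (fr i) (A + B + μ) (a + b) 0 1

end Str

/-- `exp (2 π i s₀) ^ N = 1`, for a curve with exponent `N` -/
def gd (s₀ : ℚ) (N : ℕ) : Prop := 0 < N ∧ ∃ z : ℤ, s₀ * N = z

/-- the curve with the data `c = (N, ν)` gives the candidate pole `s₀` -/
def iss (s₀ : ℚ) (c : ℕ × ℕ) : Prop := 0 < c.1 ∧ (c.2 : ℚ) + s₀ * c.1 = 0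

/-- numerical condition on a line with exponent `A` and log discrepancy `a`, on which the rest of
the tuple has order `m`; the other line has exponent `B` and log discrepancy `b` -/
def Iv (A a m B b : ℕ) : Prop :=
  (A = 0 ∧ a = 1) ∨ (0 < A ∧ 1 ≤ a ∧ a * m ≤ 2 * A ∧
    ((a : ℤ) - 1) * (B + m) < ((b : ℤ) + 1) * A)

open Classical in
/-- `1` for a non-trivial tree with good neighbour `N` of the first line -/
noncomputable def dg {r : ℕ} (s₀ : ℚ) : Str r → ℕ → ℤ
  | .triv, _ => 0
  | .strict _, N => if gd s₀ N then 1 else 0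
  | .node _ _ _ _ _ _, N => if gd s₀ N then 1 else 0

open Classical in
/-- `1` for a real direction with bad neighbour `N` -/
noncomputable def db {r : ℕ} (s₀ : ℚ) (s : Str r) (B N : ℕ) : ℤ :=
  s.dv B * if gd s₀ N then 0 else 1

/-- `2 * (number of non-trivial directions with good neighbour) + (number of bad neighbours) - 2`
for the curve `E = (N, ν)` with the trees `s0`, `si`, `fr` (the second line is `(B, b)` in the
direction `s0` and `(A, a)` in the direction `si`) -/
noncomputable def own {r : ℕ} (s₀ : ℚ) (s0 si : Str r) {n : ℕ} (fr : Fin n → Str r)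
    (N ν A a B b : ℕ) : ℤ :=
  2 * (dg s₀ s0 (s0.j1 N ν B b).1 + dg s₀ si (si.j1 N ν A a).1 +
      ∑ i, dg s₀ (fr i) ((fr i).j1 N ν 0 1).1) +
    (db s₀ s0 B (s0.j1 N ν B b).1 + db s₀ si A (si.j1 N ν A a).1 +
      ∑ i, db s₀ (fr i) 0 ((fr i).j1 N ν 0 1).1) - 2

open Classical in
/-- the sum of `own` over the good curves -/
noncomputable def TT {r : ℕ} (s₀ : ℚ) : Str r → ℕ → ℕ → ℕ → ℕ → ℤ
  | .triv, _, _, _, _ => 0
  | .strict _, _, _, _, _ => 0
  | .node μ _ s0 si _ fr, A, a, B, b =>
      (if gd s₀ (A + B + μ) then own s₀ s0 si fr (A + B + μ) (a + b) A a B b else 0) +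
        TT s₀ s0 (A + B + μ) (a + b) B b + TT s₀ si (A + B + μ) (a + b) A a +
        ∑ i, TT s₀ (fr i) (A + B + μ) (a + b) 0 1

/-- no good curve is of the second kind, no strict transform is good -/
def NG {r : ℕ} (s₀ : ℚ) : Str r → ℕ → ℕ → Prop
  | .triv, _, _ => True
  | .strict M, _, _ => ¬ gd s₀ M
  | .node μ lab s0 si _ fr, A, B =>
      (gd s₀ (A + B + μ) → lab.isLeft = true) ∧ NG s₀ s0 (A + B + μ) B ∧
        NG s₀ si (A + B + μ) A ∧ ∀ i, NG s₀ (fr i) (A + B + μ) 0

/-- condition on the curves which give the candidate pole `s₀`: at most two neighbours, and no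
neighbour gives the same candidate pole -/
def OK {r : ℕ} (s₀ : ℚ) : Str r → ℕ → ℕ → ℕ → ℕ → Prop
  | .triv, _, _, _, _ => True
  | .strict _, _, _, _, _ => True
  | .node μ _ s0 si n fr, A, a, B, b =>
      (iss s₀ (A + B + μ, a + b) → n + s0.dv B + si.dv A ≤ 2 ∧
        ¬ iss s₀ (s0.j1 (A + B + μ) (a + b) B b) ∧ ¬ iss s₀ (si.j1 (A + B + μ) (a + b) A a) ∧
        ∀ i, ¬ iss s₀ ((fr i).j1 (A + B + μ) (a + b) 0 1)) ∧
      OK s₀ s0 (A + B + μ) (a + b) B b ∧ OK s₀ si (A + B + μ) (a + b) A a ∧
        ∀ i, OK s₀ (fr i) (A + B + μ) (a + b) 0 1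

end TV
end MotMono
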