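import Pool.Agent.Lib.MP_4e5fcd_ag.CN.Base
import Pool.Agent.Lib.MP_4e5fcd_ag.TV.Str
import Pool.Agent.Lib.MP_4e5fcd_ag.TV.Pol

/-!
# TV-Base: resolution of tuples of polynomials in two variables, jets, zeta functions
-/

open MvPolynomial

namespace MotMono
namespace TV

open CN

open Classical in
/-- condition on the label of a node: `inl η`: the leading forms of the tuple are `c(w) η` on the
line `(1, w)`; `inr f`: they are not of this form, and `f ζ` is the number of points with the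
direction `ζ` -/
def LabOK {r : ℕ} (μ : ℕ) (J : Fin r → P2) {n : ℕ} (ws : Fin n → ℂ) (d0 di : ℕ) : Lab r → Prop
  | Sum.inl η => η ≠ 0 ∧ ∃ c : Polynomial ℂ, ∀ w : ℂ, ld μ J ![1, w] = c.eval w • η
  | Sum.inr f =>
      (¬ ∃ (η : Fin r → ℂ) (c : Polynomial ℂ), ∀ w : ℂ, ld μ J ![1, w] = c.eval w • η) ∧
      ∀ ζ : Fin r → ℂ, ζ ≠ 0 →
        f ζ = Set.ncard {w : ℂ | w ≠ 0 ∧ (∀ i, ws i ≠ w) ∧ Pr (ld μ J ![1, w]) ζ} +
          (if d0 = 0 ∧ Pr (ld μ J ![1, 0]) ζ then 1 else 0) +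
          (if di = 0 ∧ Pr (ld μ J ![0, 1]) ζ then 1 else 0)

/-- `Rz F A B X`: `X` is a resolution tree of the tuple `F`, which is divisible by
`x ^ A * y ^ B` -/
inductive Rz {r : ℕ} : (Fin r → P2) → ℕ → ℕ → Str r → Prop
  | triv (F J : Fin r → P2) (A B : ℕ) (hA : 0 < A)
      (hF : ∀ j, F j = X 0 ^ A * X 1 ^ B * J j) (h : ∃ j, eval 0 (J j) ≠ 0) : Rz F A B .triv
  | strict (F g : Fin r → P2) (v : P2) (A M : ℕ) (hA : 0 < A) (hM : 0 < M)
      (hF : ∀ j, F j = X 0 ^ A * v ^ M * g j) (hv : eval 0 v = 0)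
      (hv' : eval 0 (pderiv 1 v) ≠ 0) (h : ∃ j, eval 0 (g j) ≠ 0) : Rz F A 0 (.strict M)
  | node (F J : Fin r → P2) (A B μ : ℕ) (hμ : 0 < μ)
      (hF : ∀ j, F j = X 0 ^ A * X 1 ^ B * J j) (hJ : ∀ j, OrdP (J j) μ)
      (hJ' : ∃ j, homogeneousComponent μ (J j) ≠ 0) (n : ℕ) (ws : Fin n → ℂ)
      (hinj : Function.Injective ws) (hw0 : ∀ i, ws i ≠ 0)
      (hz : ∀ i, ld μ J ![1, ws i] = 0)
      (hnz : ∀ w : ℂ, w ≠ 0 → (∀ i, ws i ≠ w) → ld μ J ![1, w] ≠ 0)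
      (lab : Lab r) (s0 si : Str r) (fr : Fin n → Str r)
      (hlab : LabOK μ J ws (s0.dv B) (si.dv A) lab)
      (h0 : Rz (fun j => ch 0 (F j)) (A + B + μ) B s0)
      (hi : Rz (fun j => ch 0 (sw (F j))) (A + B + μ) A si)
      (hf : ∀ i, Rz (fun j => ch (ws i) (F j)) (A + B + μ) 0 (fr i)) :
      Rz F A B (.node μ lab s0 si n fr)

/-- the `k`-jets at the origin with `F (γ) ∈ Q` -/
def WW {r : ℕ} (F : Fin r → P2) (k : ℕ) (Q : Set (Fin r × Fin (k + 1) → ℂ)) :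
    Set (Fin 2 × Fin (k + 1) → ℂ) :=
  {γ | bp γ = 0 ∧ cj F γ ∈ Q}

/-- the `k`-jets `(x, y)` with `ord x = i`, `ord y = j` (truncated orders: `k + 1` for the jet
`0`) -/
def OO (k i j : ℕ) : Set (Fin 2 × Fin (k + 1) → ℂ) :=
  {γ | (∀ l : Fin (k + 1), (l : ℕ) < i → γ (0, l) = 0) ∧
    (∀ l : Fin (k + 1), (l : ℕ) = i → γ (0, l) ≠ 0) ∧
    (∀ l : Fin (k + 1), (l : ℕ) < j → γ (1, l) = 0) ∧
    ∀ l : Fin (k + 1), (l : ℕ) = j → γ (1, l) ≠ 0}

/-- `ord x = ord y = i` and the ratio of the leading coefficients is not one of the `ws` -/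
def NS (k i : ℕ) {n : ℕ} (ws : Fin n → ℂ) : Set (Fin 2 × Fin (k + 1) → ℂ) :=
  OO k i i ∩ {γ | ∀ l : Fin (k + 1), (l : ℕ) = i → ∀ e, γ (1, l) ≠ ws e * γ (0, l)}

/-- tuples of `k`-jets of order exactly `k` -/
def Qx (r k : ℕ) : Set (Fin r × Fin (k + 1) → ℂ) :=
  {z | (∀ j, ∀ l : Fin (k + 1), (l : ℕ) < k → z (j, l) = 0) ∧ ∃ j, z (j, Fin.last k) ≠ 0}

/-- the tuple of `k`-jets `η t ^ k` -/
def Qe {r : ℕ} (η : Fin r → ℂ) (k : ℕ) : Set (Fin r × Fin (k + 1) → ℂ) :=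
  {z | ∀ j, (∀ l : Fin (k + 1), (l : ℕ) < k → z (j, l) = 0) ∧ z (j, Fin.last k) = η j}

/-- the measure `φ` of a set of jets, with the weights `u ^ (- wa ord x - wb ord y)` -/
noncomputable def mw {R : Type*} [CommRing R] (φ : K0 →+* R) (u : Rˣ) (k wa wb : ℕ)
    (E : Set (Fin 2 × Fin (k + 1) → ℂ)) : R :=
  ∑ i ∈ Finset.range (k + 2), ∑ j ∈ Finset.range (k + 2),
    φ (cls (E ∩ OO k i j)) * ((u ^ (-(wa * i + wb * j : ℤ)) : Rˣ) : R)

/-- zeta function of a tuple, with weights -/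
noncomputable def Zw {r : ℕ} (F : Fin r → P2) (wa wb : ℕ) : PowerSeries MC :=
  PowerSeries.mk fun k => mw (algebraMap K0 MC) Lu k wa wb (WW F k (Qx r k)) *
    ((Lu ^ (-(2 * (k + 1) : ℤ)) : MCˣ) : MC)

/-- `L ^ (-ν) T ^ N` -/
noncomputable def qq (N ν : ℕ) : PowerSeries MC :=
  PowerSeries.C ((Lu ^ (-(ν : ℤ)) : MCˣ) : MC) * PowerSeries.X ^ N

open Classical in
/-- `(L - 1) q / (1 - q)` with `q = L ^ (-ν) T ^ N`, and `1` if `N = 0` -/
noncomputable def gg (N ν : ℕ) : PowerSeries MC :=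
  if N = 0 then 1 else PowerSeries.mk fun k =>
    if 0 < k ∧ N ∣ k then (((Lu : MCˣ) : MC) - 1) * ((Lu ^ (-(ν * (k / N : ℕ) : ℤ)) : MCˣ) : MC)
    else 0

/-- the zeta function of a resolution tree -/
noncomputable def Zs {r : ℕ} : Str r → ℕ → ℕ → ℕ → ℕ → PowerSeries MC
  | .triv, A, a, B, b => gg A a * gg B b
  | .strict M, A, a, _, _ => gg A a * gg M 1
  | .node μ _ s0 si n fr, A, a, B, b =>
      (PowerSeries.C (((Lu : MCˣ) : MC) - 1 - n)) * gg (A + B + μ) (a + b) +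
        Zs s0 (A + B + μ) (a + b) B b + Zs si (A + B + μ) (a + b) A a +
        ∑ i, Zs (fr i) (A + B + μ) (a + b) 0 1

open Classical in
/-- contribution of a curve to the Lefschetz numbers at `η` -/
noncomputable def cE {r : ℕ} (e : Nd r) (η : Fin r → ℂ) : ℤ :=
  match e.lab with
  | Sum.inl ζ => if Pr ζ η then 2 - (e.val : ℤ) else 0
  | Sum.inr f => f η

open Classical in
/-- contribution of a trivial tree -/
noncomputable def leafC {r : ℕ} (F : Fin r → P2) (A B : ℕ) (η : Fin r → ℂ) (d : ℕ) : Str r → ℤ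
  | .triv => if B = 0 ∧ A ∣ d ∧ ∃ J : Fin r → P2, (∀ j, F j = X 0 ^ A * J j) ∧
      Pr (fun j => eval 0 (J j)) η then (A : ℤ) else 0
  | .strict _ => 0
  | .node _ _ _ _ _ _ => 0

/-- `η` is the leading coefficient of `F` along some jet at the origin -/
def Rd {r : ℕ} (F : Fin r → P2) (η : Fin r → ℂ) : Prop :=
  ∃ (n : ℕ) (γ : Fin 2 × Fin (n + 1) → ℂ), 1 ≤ n ∧ bp γ = 0 ∧
    ∀ j, (∀ l < n, (along (F j) γ).coeff l = 0) ∧ (along (F j) γ).coeff n = η j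

end TV
end MotMono
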