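import Pool.Agent.Lib.MP_4e5fcd_ag.TV.U1
import Pool.Agent.Lib.MP_4e5fcd_ag.CN.C1

/-!
# TV-C1: Euler characteristics of contact loci at the leaves

`E = WW (x ^ A y ^ B) d (Qe c d) = {(x, y) jets at 0 : x ^ A y ^ B = c t ^ d mod t ^ (d + 1)}`, `c ≠ 0`, `d > 0`.
* `B > 0`: `E` is stable under `(x, y) ↦ (s ^ B x, s ^ (-A) y)`, all weights are non-zero, and `x ≠ 0` on `E`:
  `chi_cstar` (CN/C1) gives `0`.
* `B = 0`: `x ^ A = c t ^ d mod t ^ (d + 1)`: with `i = ord x` (`≥ 1`): `A i = d` and `x_i ^ A = c`. If `A ∤ d` empty.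
  If `d = A i`: `x_i` one of the `A` roots, the coefficients of `x` of index `> i` and those of `y` of index
  `≥ 1` free: class `A LL ^ (..)`, `χ = A` (`x ^ A (t)` has no coefficient below `A i`, the coefficient at
  `A i` is `x_i ^ A`: `coeff_low`-like, or `Polynomial` order of a power).
* `chi_triv`, `chi_strict`: with `ww_unit_e` and `cls_etale'`.
-/

open MvPolynomial

namespace MotMono
namespace TV

open CN

private theorem c1_constr_coord {σ : Type} [Finite σ] (S : Set σ) (p : σ → ℂ) :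
    Constr {x : σ → ℂ | ∀ q ∈ S, x q = p q} := by
  classical
  have e : {x : σ → ℂ | ∀ q ∈ S, x q = p q} = ⋂ q : σ, {x : σ → ℂ |
      eval x (if q ∈ S then (X q : MvPolynomial σ ℂ) else 0) =
        eval x (if q ∈ S then (C (p q) : MvPolynomial σ ℂ) else 0)} := by
    ext x
    simp only [Set.mem_ofPred_eq, Set.mem_iInter]
    refine forall_congr' fun q => ?_
    by_cases hq : q ∈ S
    · simp [hq]
    · simp [hq]
  rw [e]
  exact constr_iInter fun q => constr_eq _ _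

private theorem c1_chi_coord {χ : K0 →+* ℤ} (hχ : χ LL = 1) {σ : Type} [Finite σ] (S : Set σ)
    (p : σ → ℂ) : χ (cls {x : σ → ℂ | ∀ q ∈ S, x q = p q}) = 1 := by
  let W : Submodule ℂ (σ → ℂ) :=
    { carrier := {x | ∀ q ∈ S, x q = 0}
      zero_mem' := fun q _ => rfl
      add_mem' := fun {a b} ha hb q hq => by
        rw [Pi.add_apply, ha q hq, hb q hq, add_zero]
      smul_mem' := fun c x hx q hq => by
        rw [Pi.smul_apply, hx q hq, smul_zero] }
  have h1 : RegIso {x : σ → ℂ | ∀ q ∈ S, x q = p q} (W : Set (σ → ℂ)) := by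
    refine RegIso.linear LinearMap.id LinearMap.id (-p) p (fun x hx q hq => ?_)
      (fun y hy q hq => ?_) (fun x _ => ?_) (fun y _ => ?_)
    · have := hx q hq
      simp [this]
    · have := hy q hq
      simp [this]
    · simp
    · simp
  rw [cls_iso (c1_constr_coord S p) (constr_submodule W) h1, cls_submodule, map_pow, hχ, one_pow]

private theorem c1_mem {A B d : ℕ} {c : ℂ} {γ : Fin 2 × Fin (d + 1) → ℂ} :
    γ ∈ WW (fun _ : Fin 1 => X 0 ^ A * X 1 ^ B) d (Qe (fun _ => c) d) ↔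
      bp γ = 0 ∧ (∀ l < d, (arc γ 0 ^ A * arc γ 1 ^ B).coeff l = 0) ∧
        (arc γ 0 ^ A * arc γ 1 ^ B).coeff d = c := by
  have h0 : along (X 0 ^ A * X 1 ^ B : P2) γ = arc γ 0 ^ A * arc γ 1 ^ B := by
    unfold along
    rw [map_mul, map_pow, map_pow, aeval_X, aeval_X]
  simp only [WW, Qe, cj, Set.mem_ofPred_eq, h0, Fin.val_last]
  refine and_congr_right fun _ => ⟨fun h => ⟨fun l hl => ?_, (h 0).2⟩,
    fun h j => ⟨fun l hl => h.1 l hl, h.2⟩⟩
  exact (h 0).1 ⟨l, Nat.lt_succ_of_lt hl⟩ hl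

private theorem c1_ord {p : Polynomial ℂ} (hp : p ≠ 0) :
    ∃ (i : ℕ) (q : Polynomial ℂ), p = Polynomial.X ^ i * q ∧ q.coeff 0 ≠ 0 := by
  obtain ⟨q, hq, hq'⟩ := Polynomial.exists_eq_pow_rootMultiplicity_mul_and_not_dvd p hp 0
  rw [Polynomial.C_0, sub_zero] at hq hq'
  exact ⟨_, q, hq, fun h => hq' (Polynomial.X_dvd_iff.2 h)⟩

private theorem c1_pow {i A : ℕ} (q : Polynomial ℂ) :
    (∀ l < A * i, ((Polynomial.X ^ i * q) ^ A).coeff l = 0) ∧
      ((Polynomial.X ^ i * q) ^ A).coeff (A * i) = q.coeff 0 ^ A := by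
  have e : (Polynomial.X ^ i * q) ^ A = Polynomial.X ^ (A * i) * q ^ A := by
    rw [mul_pow, ← pow_mul, mul_comm i A]
  rw [e]
  refine ⟨fun l hl => ?_, ?_⟩
  · rw [Polynomial.coeff_X_pow_mul', if_neg (by omega)]
  · rw [Polynomial.coeff_X_pow_mul', if_pos le_rfl, Nat.sub_self, Polynomial.coeff_zero_eq_eval_zero,
      Polynomial.eval_pow, ← Polynomial.coeff_zero_eq_eval_zero]

private theorem c1_dvd {A d : ℕ} {c : ℂ} (hc : c ≠ 0) {p : Polynomial ℂ} (hA : 0 < A)
    (h1 : ∀ l < d, (p ^ A).coeff l = 0) (h2 : (p ^ A).coeff d = c) :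
    ∃ i, d = A * i ∧ (∀ l < i, p.coeff l = 0) ∧ p.coeff i ^ A = c := by
  have hp : p ≠ 0 := by
    rintro rfl
    rw [zero_pow hA.ne', Polynomial.coeff_zero] at h2
    exact hc h2.symm
  obtain ⟨i, q, hq, hq0⟩ := c1_ord hp
  obtain ⟨h3, h4⟩ := c1_pow (i := i) (A := A) q
  rw [← hq] at h3 h4
  have h5 : d = A * i := by
    rcases lt_trichotomy d (A * i) with h | h | h
    · exact absurd ((h3 d h).symm.trans h2).symm hc
    · exact h
    · exact absurd ((h4.symm.trans (h1 _ h))) (pow_ne_zero _ hq0)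
  refine ⟨i, h5, fun l hl => ?_, ?_⟩
  · rw [hq, Polynomial.coeff_X_pow_mul', if_neg (by omega)]
  · rw [hq, Polynomial.coeff_X_pow_mul', if_pos le_rfl, Nat.sub_self, ← h4, ← h5, h2]

private theorem c1_conv {A i : ℕ} {p : Polynomial ℂ} (h : ∀ l < i, p.coeff l = 0) :
    (∀ l < A * i, (p ^ A).coeff l = 0) ∧ (p ^ A).coeff (A * i) = p.coeff i ^ A := by
  obtain ⟨q, hq⟩ := Polynomial.X_pow_dvd_iff.2 h
  have h1 : p.coeff i = q.coeff 0 := by
    rw [hq, Polynomial.coeff_X_pow_mul', if_pos le_rfl, Nat.sub_self]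
  rw [h1, hq]
  exact c1_pow q

private theorem c1_pos {χ : K0 →+* ℤ} (hχ : IsEulerCharF χ) {A B d : ℕ} (hA : 0 < A)
    (hB : 0 < B) {c : ℂ} (hc : c ≠ 0) :
    χ (cls (WW (fun _ : Fin 1 => X 0 ^ A * X 1 ^ B) d (Qe (fun _ => c) d))) = 0 := by
  refine chi_cstar hχ (fun q : Fin 2 × Fin (d + 1) => if q.1 = 0 then (B : ℤ) else -(A : ℤ)) _
    (constr_WW _ d (constr_Qe _ d)) (fun s hs γ hγ => ?_) (fun γ hγ => ?_)
  · rw [c1_mem] at hγ ⊢
    obtain ⟨h0, h1, h2⟩ := hγ
    have e0 : arc (fun q : Fin 2 × Fin (d + 1) =>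
        s ^ (if q.1 = 0 then (B : ℤ) else -(A : ℤ)) * γ q) 0 =
        Polynomial.C (s ^ (B : ℤ)) * arc γ 0 := by
      unfold arc
      rw [Finset.mul_sum]
      refine Finset.sum_congr rfl fun l _ => ?_
      change Polynomial.C (s ^ (if (0 : Fin 2) = 0 then (B : ℤ) else -(A : ℤ)) * γ (0, l)) * _ = _
      rw [if_pos rfl, map_mul, mul_assoc]
    have e1 : arc (fun q : Fin 2 × Fin (d + 1) =>
        s ^ (if q.1 = 0 then (B : ℤ) else -(A : ℤ)) * γ q) 1 =
        Polynomial.C (s ^ (-(A : ℤ))) * arc γ 1 := by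
      unfold arc
      rw [Finset.mul_sum]
      refine Finset.sum_congr rfl fun l _ => ?_
      change Polynomial.C (s ^ (if (1 : Fin 2) = 0 then (B : ℤ) else -(A : ℤ)) * γ (1, l)) * _ = _
      rw [if_neg (by decide), map_mul, mul_assoc]
    have e2 : (Polynomial.C (s ^ (B : ℤ)) * arc γ 0) ^ A *
        (Polynomial.C (s ^ (-(A : ℤ))) * arc γ 1) ^ B = arc γ 0 ^ A * arc γ 1 ^ B := by
      have e3 : (s ^ (B : ℤ)) ^ A * (s ^ (-(A : ℤ))) ^ B = 1 := by
        rw [← zpow_natCast, ← zpow_natCast, ← zpow_mul, ← zpow_mul, ← zpow_add₀ hs]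
        have : (B : ℤ) * (A : ℤ) + -(A : ℤ) * (B : ℤ) = 0 := by ring
        rw [this, zpow_zero]
      calc (Polynomial.C (s ^ (B : ℤ)) * arc γ 0) ^ A *
            (Polynomial.C (s ^ (-(A : ℤ))) * arc γ 1) ^ B
          = Polynomial.C ((s ^ (B : ℤ)) ^ A * (s ^ (-(A : ℤ))) ^ B) *
              (arc γ 0 ^ A * arc γ 1 ^ B) := by
            rw [map_mul, map_pow, map_pow]; ring
        _ = _ := by rw [e3, map_one, one_mul]
    rw [e0, e1, e2]
    refine ⟨?_, h1, h2⟩
    funext i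
    have := congrFun h0 i
    simp only [bp, Pi.zero_apply] at this ⊢
    rw [this, mul_zero]
  · rw [c1_mem] at hγ
    obtain ⟨-, -, h2⟩ := hγ
    by_contra hcon
    push Not at hcon
    have h3 : arc γ 0 = 0 := by
      unfold arc
      refine Finset.sum_eq_zero fun l _ => ?_
      have := hcon (0, l) (by simpa using hB.ne')
      rw [this, map_zero, zero_mul]
    rw [h3, zero_pow hA.ne', zero_mul, Polynomial.coeff_zero] at h2
    exact hc h2.symm

private theorem c1_zero_mem {A d : ℕ} {c : ℂ} {γ : Fin 2 × Fin (d + 1) → ℂ} :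
    γ ∈ WW (fun _ : Fin 1 => X 0 ^ A * X 1 ^ 0) d (Qe (fun _ => c) d) ↔
      bp γ = 0 ∧ (∀ l < d, (arc γ 0 ^ A).coeff l = 0) ∧ (arc γ 0 ^ A).coeff d = c := by
  rw [c1_mem, pow_zero, mul_one]

private theorem c1_zero_dvd {χ : K0 →+* ℤ} (hχ : IsEulerCharF χ) {A i : ℕ} (hA : 0 < A)
    (hi : 0 < i) {c : ℂ} (hc : c ≠ 0) :
    χ (cls (WW (fun _ : Fin 1 => X 0 ^ A * X 1 ^ 0) (A * i) (Qe (fun _ => c) (A * i)))) =
      (A : ℤ) := by
  classical
  have hid : i < A * i + 1 := Nat.lt_succ_of_le (Nat.le_mul_of_pos_left i hA)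
  let I : Fin (A * i + 1) := ⟨i, hid⟩
  have hI0 : I ≠ 0 := by
    intro h
    have := congrArg Fin.val h
    simp only [I, Fin.val_zero] at this
    omega
  let S : Set (Fin 2 × Fin (A * i + 1)) := {q | (q.1 = 0 ∧ (q.2 : ℕ) ≤ i) ∨ q = (1, 0)}
  let pt : ℂ → Fin 2 × Fin (A * i + 1) → ℂ := fun x q => if q = (0, I) then x else 0
  let T : ℂ → Set (Fin 2 × Fin (A * i + 1) → ℂ) := fun x => {γ | ∀ q ∈ S, γ q = pt x q}
  let R : Finset ℂ := (Polynomial.nthRoots A c).toFinset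
  have hR : ∀ x, x ∈ R ↔ x ^ A = c := fun x => by
    simp only [R, Multiset.mem_toFinset, Polynomial.mem_nthRoots hA]
  have hcard : R.card = A := by
    have hprim := Complex.isPrimitiveRoot_exp A hA.ne'
    simp only [R]
    rw [Multiset.toFinset_card_of_nodup (hprim.nthRoots_nodup hc), hprim.card_nthRoots, if_pos]
    exact IsAlgClosed.exists_pow_nat_eq _ hA
  have hT : ∀ x γ, γ ∈ T x ↔ bp γ = 0 ∧ (∀ l : Fin (A * i + 1), (l : ℕ) < i → γ (0, l) = 0) ∧
      γ (0, I) = x := by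
    intro x γ
    constructor
    · intro h
      refine ⟨?_, fun l hl => ?_, ?_⟩
      · funext j
        fin_cases j
        · have := h (0, 0) (Or.inl ⟨rfl, by simp⟩)
          simp only [pt] at this
          rw [if_neg (by intro h'; exact hI0 (Prod.ext_iff.1 h').2.symm)] at this
          exact this
        · have := h (1, 0) (Or.inr rfl)
          simp only [pt] at this
          rw [if_neg (by intro h'; exact absurd (Prod.ext_iff.1 h').1 (by simp))] at this
          exact this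
      · have := h (0, l) (Or.inl ⟨rfl, le_of_lt hl⟩)
        simp only [pt] at this
        rw [if_neg] at this
        · exact this
        · intro h'
          have h2 : l = I := (Prod.ext_iff.1 h').2
          have h3 : (l : ℕ) = i := congrArg Fin.val h2
          omega
      · have := h (0, I) (Or.inl ⟨rfl, show (I : ℕ) ≤ i from le_refl i⟩)
        simp only [pt, if_true] at this
        exact this
    · rintro ⟨h1, h2, h3⟩ q hq
      rcases hq with ⟨hq1, hq2⟩ | hq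
      · obtain ⟨a, l⟩ := q
        simp only at hq1 hq2
        subst hq1
        rcases lt_or_eq_of_le hq2 with hl | hl
        · rw [h2 l hl]
          simp only [pt]
          rw [if_neg]
          intro h'
          have h2 : l = I := (Prod.ext_iff.1 h').2
          have h3 : (l : ℕ) = i := congrArg Fin.val h2
          omega
        · have hl' : l = I := Fin.ext hl
          rw [hl', h3]
          simp only [pt, if_true]
      · rw [hq]
        have := congrFun h1 1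
        simp only [bp, Pi.zero_apply] at this
        rw [this]
        simp only [pt]
        rw [if_neg]
        intro h'
        exact absurd (Prod.ext_iff.1 h').1 (by simp)
  have hE : WW (fun _ : Fin 1 => X 0 ^ A * X 1 ^ 0) (A * i) (Qe (fun _ => c) (A * i)) =
      ⋃ x ∈ R, T x := by
    ext γ
    rw [c1_zero_mem]
    simp only [Set.mem_iUnion, exists_prop]
    have hcoef : ∀ l : Fin (A * i + 1), (arc γ 0).coeff l = γ (0, l) := fun l => by
      rw [a1_arc_coeff, dif_pos l.2]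
    constructor
    · rintro ⟨h0, h1, h2⟩
      obtain ⟨i', hi', h3, h4⟩ := c1_dvd hc hA h1 h2
      have hii : i' = i := (Nat.eq_of_mul_eq_mul_left hA hi').symm
      subst hii
      refine ⟨γ (0, I), ?_, (hT _ _).2 ⟨h0, fun l hl => ?_, rfl⟩⟩
      · rw [hR, ← hcoef I]
        exact h4
      · rw [← hcoef l]
        exact h3 l hl
    · rintro ⟨x, hx, hγ⟩
      rw [hR] at hx
      obtain ⟨h0, h1, h2⟩ := (hT _ _).1 hγ
      have h3 : ∀ l < i, (arc γ 0).coeff l = 0 := fun l hl => by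
        have := hcoef ⟨l, lt_trans hl hid⟩
        rw [h1 ⟨l, lt_trans hl hid⟩ hl] at this
        exact this
      obtain ⟨h4, h5⟩ := c1_conv (A := A) h3
      refine ⟨h0, h4, ?_⟩
      rw [h5]
      have := hcoef I
      rw [h2] at this
      rw [← hx, ← this]
  rw [hE, cls_biUnion R (fun x _ => c1_constr_coord _ _), map_sum]
  · rw [Finset.sum_congr rfl fun x _ => c1_chi_coord hχ.line _ _]
    rw [Finset.sum_const, hcard]
    simp
  · intro x _ x' _ hxx'
    rw [Set.disjoint_left]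
    intro γ h1 h2
    exact hxx' (((hT _ _).1 h1).2.2.symm.trans ((hT _ _).1 h2).2.2)

theorem chi_mono {χ : K0 →+* ℤ} (hχ : IsEulerCharF χ) {A B d : ℕ} (hA : 0 < A) (hd : 0 < d)
    {c : ℂ} (hc : c ≠ 0) :
    χ (cls (WW (fun _ : Fin 1 => X 0 ^ A * X 1 ^ B) d (Qe (fun _ => c) d))) =
      if B = 0 ∧ A ∣ d then (A : ℤ) else 0 := by
  rcases Nat.eq_zero_or_pos B with hB | hB
  · subst hB
    by_cases hdv : A ∣ d
    · obtain ⟨i, rfl⟩ := hdv
      rw [if_pos ⟨rfl, dvd_mul_right A i⟩]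
      exact c1_zero_dvd hχ hA (Nat.pos_of_mul_pos_left hd) hc
    · rw [if_neg (fun h => hdv h.2)]
      have e : WW (fun _ : Fin 1 => X 0 ^ A * X 1 ^ 0) d (Qe (fun _ => c) d) = ∅ := by
        rw [Set.eq_empty_iff_forall_notMem]
        intro γ hγ
        rw [c1_zero_mem] at hγ
        obtain ⟨-, h1, h2⟩ := hγ
        obtain ⟨i, hi, -⟩ := c1_dvd hc hA h1 h2
        exact hdv ⟨i, hi⟩
      rw [e, cls_empty, map_zero]
  · rw [if_neg (fun h => hB.ne' h.1)]
    exact c1_pos hχ hA hB hc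

theorem chi_triv {χ : K0 →+* ℤ} (hχ : IsEulerCharF χ) {r A B d : ℕ} (hA : 0 < A) (hd : 0 < d)
    {F J : Fin r → P2} (hF : ∀ j, F j = X 0 ^ A * X 1 ^ B * J j) (h : ∃ j, eval 0 (J j) ≠ 0)
    {η : Fin r → ℂ} (hη : η ≠ 0) :
    χ (cls (WW F d (Qe η d))) = leafC F A B η d Str.triv := by
  classical
  have hleaf : leafC F A B η d Str.triv =
      if B = 0 ∧ A ∣ d ∧ ∃ J : Fin r → P2, (∀ j, F j = X 0 ^ A * J j) ∧
        Pr (fun j => eval 0 (J j)) η then (A : ℤ) else 0 := rfl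
  rw [hleaf]
  have hiff : B = 0 → ((∃ J' : Fin r → P2, (∀ j, F j = X 0 ^ A * J' j) ∧
      Pr (fun j => eval 0 (J' j)) η) ↔ Pr (fun j => eval 0 (J j)) η) := by
    intro hB
    subst hB
    constructor
    · rintro ⟨J', hJ', hP⟩
      have hJJ : ∀ j, J' j = J j := by
        intro j
        have h1 : (X 0 : P2) ^ A * J' j = X 0 ^ A * J j := by
          rw [← hJ' j, hF j, pow_zero, mul_one]
        exact mul_left_cancel₀ (pow_ne_zero _ (X_ne_zero 0)) h1
      simp only [hJJ] at hP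
      exact hP
    · intro hP
      exact ⟨J, fun j => by rw [hF j, pow_zero, mul_one], hP⟩
  obtain ⟨h1, h2⟩ := ww_unit_e (d := d) hF h hη
  by_cases hP : Pr (fun j => eval 0 (J j)) η
  · obtain ⟨c, hc, he⟩ := h1 hP
    rw [he, chi_mono hχ hA hd hc]
    by_cases hB : B = 0
    · by_cases hdv : A ∣ d
      · rw [if_pos ⟨hB, hdv⟩, if_pos ⟨hB, hdv, (hiff hB).2 hP⟩]
      · rw [if_neg (fun h => hdv h.2), if_neg (fun h => hdv h.2.1)]
    · rw [if_neg (fun h => hB h.1), if_neg (fun h => hB h.1)]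
  · rw [h2 hP, cls_empty, map_zero, if_neg]
    rintro ⟨hB, -, h3⟩
    exact hP ((hiff hB).1 h3)

theorem chi_strict {χ : K0 →+* ℤ} (hχ : IsEulerCharF χ) {r A M d : ℕ} (hA : 0 < A) (hM : 0 < M)
    (hd : 0 < d) {F g : Fin r → P2} {v : P2} (hF : ∀ j, F j = X 0 ^ A * v ^ M * g j)
    (hv : eval 0 v = 0) (hv' : eval 0 (pderiv 1 v) ≠ 0) (h : ∃ j, eval 0 (g j) ≠ 0)
    {η : Fin r → ℂ} (hη : η ≠ 0) : χ (cls (WW F d (Qe η d))) = 0 := by
  obtain ⟨h1, h2⟩ := ww_unit_e (d := d) hF h hη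
  by_cases hP : Pr (fun j => eval 0 (g j)) η
  · obtain ⟨c, hc, he⟩ := h1 hP
    rw [he, cls_etale' hv hv' (constr_Qe _ d), chi_mono hχ hA hd hc, if_neg]
    rintro ⟨h3, -⟩
    exact hM.ne' h3
  · rw [h2 hP, cls_empty, map_zero]

end TV
end MotMono
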