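import Pool.Agent.Lib.MP_4e5fcd_ag.TV.W1

/-!
# TV-W2: the numerical conditions hold for a resolution tree

Induction on `Rz`. `triv`: `True`; `strict`: `0 < M`, `B = 0`. `node`: the sub-conditions are the
induction hypotheses. Let `P_j (w) = (J_j)_μ (1, w)`, `N = A + B + μ > 0`. By `ch_ord` and `m_eq`,
`m1 s0` is the order of the tuple `P` at `0`, `m1 (fr e)` is its order at `ws e`, `m1 si` is
`μ - (max degree of the P_j)`. Take `j` with `P_j` of maximal degree `μ - m1 si`: the sum of the
orders at `0` and at the `ws e` is at most `natDegree P_j`. If the label is `inl η` then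
`P_j = η_j c`, all roots of `c` are `0` or some `ws e` (`hnz`), and equality holds.
-/

open MvPolynomial

namespace MotMono
namespace TV

/-- `f (1, y)` for the component `f` of degree `μ` of `J` -/
private noncomputable def PP (μ : ℕ) (f : P2) : Polynomial ℂ :=
  aeval ![1, Polynomial.X] (homogeneousComponent μ f)

private noncomputable def QQ (μ : ℕ) (f : P2) : Polynomial ℂ :=
  aeval ![Polynomial.X, 1] (homogeneousComponent μ f)

private theorem w2_eval (f : P2) (g : Fin 2 → Polynomial ℂ) (y : ℂ) :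
    (aeval g f : Polynomial ℂ).eval y = eval (fun i => (g i).eval y) f := by
  have h6 : (Polynomial.evalRingHom y).comp
      (aeval g : P2 →ₐ[ℂ] Polynomial ℂ).toRingHom = (eval fun i => (g i).eval y : P2 →+* ℂ) := by
    apply MvPolynomial.ringHom_ext
    · intro r
      simp
    · intro c
      simp
  exact congrFun (congrArg DFunLike.coe h6) f

private theorem w2_evP (μ : ℕ) (f : P2) (y : ℂ) :
    (PP μ f).eval y = eval ![1, y] (homogeneousComponent μ f) := by
  rw [PP, w2_eval]
  congr 2
  funext i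
  fin_cases i <;> simp

private theorem w2_evQ (μ : ℕ) (f : P2) (y : ℂ) :
    (QQ μ f).eval y = eval ![y, 1] (homogeneousComponent μ f) := by
  rw [QQ, w2_eval]
  congr 2
  funext i
  fin_cases i <;> simp

private theorem w2_evrx (f : P2) (y : ℂ) : (rx f).eval y = eval ![0, y] f := by
  rw [rx, w2_eval]
  congr 2
  funext i
  fin_cases i <;> simp

private theorem w2_rx_ch (w : ℂ) (f K : P2) (μ : ℕ) (hf : OrdP f μ)
    (h : ch w f = MvPolynomial.X 0 ^ μ * K) :
    rx K = (PP μ f).comp (Polynomial.X + Polynomial.C w) := by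
  obtain ⟨g, hg, hg'⟩ := ch_ord w f μ hf
  have e : K = g := mul_left_cancel₀ (pow_ne_zero μ (X_ne_zero (R := ℂ) (0 : Fin 2)))
    (h.symm.trans hg)
  subst e
  apply Polynomial.funext
  intro y
  rw [w2_evrx, hg', Polynomial.eval_comp, w2_evP]
  simp

private theorem w2_rx_sw (f K : P2) (μ : ℕ) (hf : OrdP f μ)
    (h : ch 0 (sw f) = MvPolynomial.X 0 ^ μ * K) : rx K = QQ μ f := by
  rw [w2_rx_ch 0 (sw f) K μ ((ordP_sw _ _).2 hf) h]
  apply Polynomial.funext
  intro y
  rw [Polynomial.eval_comp, w2_evP, hc_sw, w2_evQ]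
  have h6 : ∀ (g : P2) (p : Fin 2 → ℂ), eval p (sw g) = eval ![p 1, p 0] g := by
    intro g p
    have h7 : (eval p : P2 →+* ℂ).comp (aeval sv : P2 →ₐ[ℂ] P2).toRingHom =
        (eval ![p 1, p 0] : P2 →+* ℂ) := by
      apply MvPolynomial.ringHom_ext
      · intro r
        simp
      · intro c
        fin_cases c <;> simp [sv]
    exact congrFun (congrArg DFunLike.coe h7) g
  rw [h6]
  simp

private theorem w2_sum (f : P2) (g : Fin 2 → Polynomial ℂ) (l : ℕ) :
    (aeval g f : Polynomial ℂ).coeff l =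
      ∑ m ∈ f.support, (Polynomial.C (coeff m f) * (g 0 ^ m 0 * g 1 ^ m 1)).coeff l := by
  rw [aeval_def, eval₂_eq', Polynomial.finsetSum_coeff]
  refine Finset.sum_congr rfl fun m _ => ?_
  rw [Fin.prod_univ_two]
  rfl

private theorem w2_hom (μ : ℕ) (f : P2) (m : Fin 2 →₀ ℕ)
    (hm : m ∈ (homogeneousComponent μ f).support) : m 0 + m 1 = μ := by
  have h1 := homogeneousComponent_isHomogeneous μ f
  have h2 := h1 (mem_support_iff.1 hm)
  rw [Finsupp.weight_apply, Finsupp.sum_fintype _ _ (by simp)] at h2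
  simpa [Fin.sum_univ_two] using h2

private theorem w2_refl (μ : ℕ) (f : P2) (l : ℕ) (hl : l ≤ μ) :
    (PP μ f).coeff (μ - l) = (QQ μ f).coeff l := by
  rw [PP, QQ, w2_sum, w2_sum]
  refine Finset.sum_congr rfl fun m hm => ?_
  have h1 := w2_hom μ f m hm
  simp only [Matrix.cons_val_zero, Matrix.cons_val_one, one_pow, one_mul, mul_one,
    Polynomial.coeff_C_mul, Polynomial.coeff_X_pow]
  have h2 : (μ - l = m 1) ↔ (l = m 0) := by omega
  simp only [h2]

private theorem w2_degP (μ : ℕ) (f : P2) (l : ℕ) (hl : μ < l) : (PP μ f).coeff l = 0 := by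
  rw [PP, w2_sum]
  refine Finset.sum_eq_zero fun m hm => ?_
  have h1 := w2_hom μ f m hm
  simp only [Matrix.cons_val_zero, Matrix.cons_val_one, one_pow, one_mul,
    Polynomial.coeff_C_mul, Polynomial.coeff_X_pow]
  rw [if_neg (by omega), mul_zero]

private theorem w2_degQ (μ : ℕ) (f : P2) (l : ℕ) (hl : μ < l) : (QQ μ f).coeff l = 0 := by
  rw [QQ, w2_sum]
  refine Finset.sum_eq_zero fun m hm => ?_
  have h1 := w2_hom μ f m hm
  simp only [Matrix.cons_val_zero, Matrix.cons_val_one, one_pow, mul_one,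
    Polynomial.coeff_C_mul, Polynomial.coeff_X_pow]
  rw [if_neg (by omega), mul_zero]

/-- the order of the tuple of polynomials at `w` is `k` -/
private def OrdW {r : ℕ} (P : Fin r → Polynomial ℂ) (w : ℂ) (k : ℕ) : Prop :=
  (∀ j, (Polynomial.X - Polynomial.C w) ^ k ∣ P j) ∧
    ∃ j, ¬ (Polynomial.X - Polynomial.C w) ^ (k + 1) ∣ P j

private theorem w2_dvd (p : Polynomial ℂ) (w : ℂ) (k : ℕ) :
    (Polynomial.X - Polynomial.C w) ^ k ∣ p ↔
      Polynomial.X ^ k ∣ p.comp (Polynomial.X + Polynomial.C w) := by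
  constructor
  · rintro ⟨q, rfl⟩
    refine ⟨q.comp (Polynomial.X + Polynomial.C w), ?_⟩
    rw [Polynomial.mul_comp, Polynomial.pow_comp]
    simp
  · rintro ⟨q, hq⟩
    refine ⟨q.comp (Polynomial.X - Polynomial.C w), ?_⟩
    have h1 := congrArg (fun f => Polynomial.comp f (Polynomial.X - Polynomial.C w)) hq
    simp only [Polynomial.comp_assoc, Polynomial.mul_comp, Polynomial.pow_comp,
      Polynomial.add_comp, Polynomial.X_comp, Polynomial.C_comp, sub_add_cancel,
      Polynomial.comp_X] at h1
    exact h1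

private theorem w2_unit (p : Polynomial ℂ) (w : ℂ) (B k : ℕ) (hw : w ≠ 0 ∨ B = 0) :
    Polynomial.X ^ k ∣ (Polynomial.X + Polynomial.C w) ^ B * p ↔ Polynomial.X ^ k ∣ p := by
  constructor
  · intro h
    refine IsCoprime.dvd_of_dvd_mul_left ?_ h
    rcases hw with hw | hw
    · apply IsCoprime.pow
      refine ⟨-Polynomial.C w⁻¹, Polynomial.C w⁻¹, ?_⟩
      have h1 : Polynomial.C w⁻¹ * Polynomial.C w = 1 := by
        rw [← Polynomial.C_mul, inv_mul_cancel₀ hw, Polynomial.C_1]
      linear_combination h1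
    · rw [hw, pow_zero]
      exact isCoprime_one_right
  · intro h
    exact h.mul_left _

private theorem w2_ordW {r : ℕ} (P : Fin r → Polynomial ℂ) (w : ℂ) (B k : ℕ)
    (hw : w ≠ 0 ∨ B = 0)
    (h : OrdL (fun j => (Polynomial.X + Polynomial.C w) ^ B *
      (P j).comp (Polynomial.X + Polynomial.C w)) k) : OrdW P w k := by
  obtain ⟨h1, j, h2⟩ := h
  refine ⟨fun j => ?_, j, ?_⟩
  · rw [w2_dvd, ← w2_unit _ w B k hw, Polynomial.X_pow_dvd_iff]
    exact h1 j
  · rw [w2_dvd, ← w2_unit _ w B (k + 1) hw, Polynomial.X_pow_dvd_iff]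
    intro h3
    exact h2 (h3 k (Nat.lt_succ_self k))

private theorem w2_ch_F (w : ℂ) (J J' : P2) (A B μ : ℕ)
    (h : ch w J = MvPolynomial.X 0 ^ μ * J') :
    ch w (MvPolynomial.X 0 ^ A * MvPolynomial.X 1 ^ B * J) =
      MvPolynomial.X 0 ^ (A + B + μ) * ((MvPolynomial.X 1 + C w) ^ B * J') := by
  have h0 : ∀ f g : P2, ch w (f * g) = ch w f * ch w g := fun f g => by simp [ch]
  rw [h0, h, h0]
  have h1 : ch w ((MvPolynomial.X 0 : P2) ^ A) = MvPolynomial.X 0 ^ A := by
    simp [ch, cv]
  have h2 : ch w ((MvPolynomial.X 1 : P2) ^ B) =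
      (MvPolynomial.X 0 * (MvPolynomial.X 1 + C w)) ^ B := by
    simp [ch, cv]
  rw [h1, h2, mul_pow]
  ring

theorem wf_of_rz {r : ℕ} {F : Fin r → P2} {A B : ℕ} {X : Str r} (h : Rz F A B X) :
    X.WF A B := by
  induction h with
  | triv F J0 A B hA hF h => exact trivial
  | strict F g v A M hA hM hF hv hv' h => exact ⟨hM, rfl⟩
  | node F J A B μ hμ hF hJ hJ' n ws hinj hw0 hz hnz lab s0 si fr hlab h0 hi hf ih0 ihi ihf =>
    have hN : 0 < A + B + μ := by omega
    have hch : ∀ w j, ∃ K, ch w (J j) = MvPolynomial.X 0 ^ μ * K := fun w j => by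
      obtain ⟨K, hK, -⟩ := ch_ord w (J j) μ (hJ j)
      exact ⟨K, hK⟩
    choose K hK using hch
    -- orders
    have o0 : OrdW (fun j => PP μ (J j)) 0 s0.m1 := by
      refine w2_ordW _ 0 0 _ (Or.inr rfl) ?_
      have h3 := (m_eq h0 (K 0) fun j => by
        rw [hF, w2_ch_F 0 _ _ _ _ _ (hK 0 j)]
        simp
        ring).1 hN
      convert h3 using 2 with j
      rw [w2_rx_ch 0 (J j) (K 0 j) μ (hJ j) (hK 0 j), pow_zero, one_mul]
    have of : ∀ e, OrdW (fun j => PP μ (J j)) (ws e) (fr e).m1 := by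
      intro e
      refine w2_ordW _ (ws e) B _ (Or.inl (hw0 e)) ?_
      have h3 := (m_eq (hf e) (fun j => (MvPolynomial.X 1 + C (ws e)) ^ B * K (ws e) j) fun j => by
        rw [hF, w2_ch_F (ws e) _ _ _ _ _ (hK (ws e) j)]
        ring).1 hN
      convert h3 using 2 with j
      rw [← w2_rx_ch (ws e) (J j) (K (ws e) j) μ (hJ j) (hK (ws e) j)]
      simp [rx]
    have hsw : ∀ j, ∃ K, ch 0 (sw (J j)) = MvPolynomial.X 0 ^ μ * K := fun j => by
      obtain ⟨K, hK, -⟩ := ch_ord 0 (sw (J j)) μ ((ordP_sw _ _).2 (hJ j))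
      exact ⟨K, hK⟩
    choose K' hK' using hsw
    have oi : OrdL (fun j => QQ μ (J j)) si.m1 := by
      have h2 : ∀ j, sw (F j) = MvPolynomial.X 0 ^ B * MvPolynomial.X 1 ^ A * sw (J j) := by
        intro j
        rw [hF]
        simp only [sw, map_mul, map_pow, aeval_X, sv, Matrix.cons_val_zero, Matrix.cons_val_one]
        ring
      have h3 := (m_eq hi K' fun j => by
        rw [h2, w2_ch_F 0 _ _ _ _ _ (hK' j), show B + A + μ = A + B + μ by ring]
        simp
        ring).1 hN
      convert h3 using 2 with j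
      rw [w2_rx_sw (J j) (K' j) μ (hJ j) (hK' j)]
    -- degrees
    obtain ⟨hq1, j1, hq2⟩ := oi
    have hsi : si.m1 ≤ μ := by
      by_contra hcon
      exact hq2 (w2_degQ μ _ _ (not_le.1 hcon))
    have hPj : (PP μ (J j1)).coeff (μ - si.m1) ≠ 0 := by
      rw [w2_refl μ _ _ hsi]
      exact hq2
    have hP0 : PP μ (J j1) ≠ 0 := by
      intro h
      rw [h, Polynomial.coeff_zero] at hPj
      exact hPj rfl
    have hdeg : ∀ j, (PP μ (J j)).natDegree ≤ μ - si.m1 := by
      intro j
      rw [Polynomial.natDegree_le_iff_coeff_eq_zero]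
      intro l hl
      rcases le_or_gt l μ with h1 | h1
      · have h2 := w2_refl μ (J j) (μ - l) (Nat.sub_le _ _)
        rw [show μ - (μ - l) = l by omega] at h2
        rw [h2]
        exact hq1 j _ (by omega)
      · exact w2_degP μ _ _ h1
    have hdeg1 : (PP μ (J j1)).natDegree = μ - si.m1 :=
      le_antisymm (hdeg j1) (Polynomial.le_natDegree_of_ne_zero hPj)
    -- the common divisor
    set D : Polynomial ℂ := (Polynomial.X - Polynomial.C 0) ^ s0.m1 *
      ∏ e, (Polynomial.X - Polynomial.C (ws e)) ^ (fr e).m1 with hD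
    have hDm1 : (∏ e, (Polynomial.X - Polynomial.C (ws e)) ^ (fr e).m1).Monic :=
      Polynomial.monic_prod_of_monic _ _ fun e _ => (Polynomial.monic_X_sub_C _).pow _
    have hDm : D.Monic := ((Polynomial.monic_X_sub_C _).pow _).mul hDm1
    have hDd : D.natDegree = s0.m1 + ∑ e, (fr e).m1 := by
      rw [hD, ((Polynomial.monic_X_sub_C _).pow _).natDegree_mul hDm1,
        Polynomial.natDegree_prod_of_monic _ _
          (fun e _ => (Polynomial.monic_X_sub_C _).pow _), Polynomial.natDegree_pow,
        Polynomial.natDegree_X_sub_C, mul_one]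
      congr 1
      refine Finset.sum_congr rfl fun e _ => ?_
      rw [Polynomial.natDegree_pow, Polynomial.natDegree_X_sub_C, mul_one]
    have hcop : ∀ a b : ℂ, a ≠ b → IsCoprime (Polynomial.X - Polynomial.C a : Polynomial ℂ)
        (Polynomial.X - Polynomial.C b) := fun a b hab =>
      Polynomial.isCoprime_X_sub_C_of_isUnit_sub (sub_ne_zero.2 hab).isUnit
    have hDdvd : ∀ j, D ∣ PP μ (J j) := by
      intro j
      refine IsCoprime.mul_dvd ?_ (o0.1 j) ?_
      · refine IsCoprime.prod_right fun e _ => ?_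
        exact (hcop 0 (ws e) (hw0 e).symm).pow
      · refine Finset.prod_dvd_of_coprime ?_ fun e _ => (of e).1 j
        intro e _ e' _ hee'
        exact (hcop _ _ fun h => hee' (hinj h)).pow
    have hle : s0.m1 + si.m1 + ∑ e, (fr e).m1 ≤ μ := by
      have h1 := Polynomial.natDegree_le_of_dvd (hDdvd j1) hP0
      rw [hDd, hdeg1] at h1
      omega
    refine ⟨hμ, hle, ?_, ?_, ih0, ihi, ihf⟩
    · intro hl
      cases lab with
      | inr f => simp at hl
      | inl η =>
        obtain ⟨hη, c, hc⟩ := hlab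
        have hPc : ∀ j, PP μ (J j) = c * Polynomial.C (η j) := by
          intro j
          apply Polynomial.funext
          intro y
          rw [w2_evP, Polynomial.eval_mul, Polynomial.eval_C]
          exact congrFun (hc y) j
        have hηj : η j1 ≠ 0 := by
          intro h
          rw [hPc, h, Polynomial.C_0, mul_zero] at hP0
          exact hP0 rfl
        have hDc : D ∣ c := by
          have h1 := hDdvd j1
          rw [hPc] at h1
          exact ((Polynomial.isUnit_C.2 (Ne.isUnit hηj)).dvd_mul_right).1 h1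
        have hcd : c.natDegree = μ - si.m1 := by
          rw [← hdeg1, hPc, Polynomial.natDegree_mul_C hηj]
        have hc0 : c ≠ 0 := by
          intro h
          rw [hPc, h, zero_mul] at hP0
          exact hP0 rfl
        obtain ⟨R, hR⟩ := hDc
        have hR0 : R ≠ 0 := by
          intro h
          rw [h, mul_zero] at hR
          exact hc0 hR
        have hRd : R.natDegree = 0 := by
          by_contra hcon
          have hdR : R.degree ≠ 0 := by
            intro h
            exact hcon (Polynomial.natDegree_eq_of_degree_eq_some h)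
          obtain ⟨w, hw⟩ := IsAlgClosed.exists_root R hdR
          obtain ⟨R', hR'⟩ := Polynomial.dvd_iff_isRoot.2 hw
          by_cases hw00 : w = 0
          · subst hw00
            obtain ⟨j, hj⟩ := o0.2
            apply hj
            show _ ∣ PP μ (J j)
            rw [hPc, hR, hD, hR', pow_succ]
            exact ⟨(∏ e, (Polynomial.X - Polynomial.C (ws e)) ^ (fr e).m1) * R' *
              Polynomial.C (η j), by ring⟩
          · by_cases hwe : ∀ e, ws e ≠ w
            · apply hnz w hw00 hwe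
              rw [hc, hR, Polynomial.eval_mul, show R.eval w = 0 from hw, mul_zero, zero_smul]
            · push Not at hwe
              obtain ⟨e, he⟩ := hwe
              subst he
              obtain ⟨j, hj⟩ := (of e).2
              apply hj
              show _ ∣ PP μ (J j)
              rw [hPc, hR, hD, hR', pow_succ, ← Finset.mul_prod_erase _ _ (Finset.mem_univ e)]
              exact ⟨(Polynomial.X - Polynomial.C 0) ^ s0.m1 *
                (∏ e ∈ Finset.univ.erase e, (Polynomial.X - Polynomial.C (ws e)) ^ (fr e).m1) *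
                R' * Polynomial.C (η j), by ring⟩
        have h1 : c.natDegree = D.natDegree := by
          rw [hR, Polynomial.natDegree_mul hDm.ne_zero hR0, hRd, add_zero]
        rw [hcd, hDd] at h1
        omega
    · intro e
      by_contra hcon
      have h1 : (fr e).m1 = 0 := by omega
      obtain ⟨j, hj⟩ := (of e).2
      rw [h1, zero_add, pow_one, Polynomial.dvd_iff_isRoot, Polynomial.IsRoot.def, w2_evP] at hj
      exact hj (congrFun (hz e) j)

end TV
end MotMono
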