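import Pool.Agent.Lib.MP_4e5fcd_ag.TV.B3
import Pool.Agent.Lib.MP_4e5fcd_ag.TV.C1
import Pool.Agent.Lib.MP_4e5fcd_ag.TV.C2
import Pool.Agent.Lib.MP_4e5fcd_ag.TV.W2
import Pool.Agent.Lib.MP_4e5fcd_ag.TV.A6

/-!
# TV-C3: the contact formula

Induction on `Rz`. `triv`: `chi_triv`, `nds = 0`. `strict`: `chi_strict`, `leafC = 0`, `nds = 0`. `node`: `mw_node` with
`φ = χ`, `u = 1` (`hχ.line`, `mw_one`), `Q = Qe η d` (`0 ∉ Q` because `η ≠ 0`), `wa = wb = 0`:
`χ [WW F d Q] = ∑_{1 ≤ i ≤ d} χ [WW F d Q ∩ NS d i ws] + ∑ χ [WW (charts) d Q]`, and by `chi_ns_e` the first sum is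
`N χ (Dir)` if `N ∣ d` (`i = d / N`), `0` otherwise. Induction hypotheses for the charts (their `nds` with
`A + B + μ`, `a + b` etc.). The leaf terms of the charts: `fr e` is not `triv` (`0 < m1 (fr e)`, `wf_of_rz`).
`s0`: `leafC (ch 0 F) N B η d s0` is non-zero only if `s0 = triv`, `B = 0` (i.e. `dv s0 B = 0`); then
`ch 0 (F_j) = x ^ N J'_j` with `J'_j (0) = ld μ J ![1, 0] j` (`ch_ord`; `J'` is unique), and it is
`N [N ∣ d] [ld ![1, 0] ~ η]`; and `J' (0) ≠ 0` by the `triv` case of `Rz`. `si`: the same with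
`ch 0 (sw F_j) = x ^ N J''_j`, `J''_j (0) = ld μ J ![0, 1] j` (`hc_sw`). So the sum of the three terms is
`N [N ∣ d] cE` by `chi_dir` with `d0 = s0.dv B`, `di = si.dv A`.
-/

open MvPolynomial

namespace MotMono
namespace TV

open CN

private theorem dv_le {r : ℕ} (s : Str r) (B : ℕ) : s.dv B ≤ 1 := by
  cases s with
  | triv => simp only [Str.dv]; split_ifs <;> omega
  | strict M => exact le_rfl
  | node μ lab s0 si n fr => exact le_rfl

private theorem dv_eq_zero {r : ℕ} {s : Str r} {B : ℕ} (h : s.dv B = 0) :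
    s = Str.triv ∧ B = 0 := by
  cases s with
  | triv =>
    simp only [Str.dv] at h
    refine ⟨rfl, ?_⟩
    by_contra hB
    rw [if_neg hB] at h
    omega
  | strict M => exact absurd h (by simp [Str.dv])
  | node μ lab s0 si n fr => exact absurd h (by simp [Str.dv])

/-- the value at the origin of the chart of a state -/
private theorem chart_val {r : ℕ} {F J : Fin r → P2} {A B μ : ℕ} (hB : B = 0)
    (hF : ∀ j, F j = X 0 ^ A * X 1 ^ B * J j) (hJ : ∀ j, OrdP (J j) μ) (J' : Fin r → P2)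
    (hJ' : ∀ j, ch 0 (F j) = X 0 ^ (A + B + μ) * J' j) :
    (fun j => eval 0 (J' j)) = ld μ J ![1, 0] := by
  funext j
  obtain ⟨h1, h2⟩ := hc_F (hF j) (hJ j)
  obtain ⟨g, hg, hg'⟩ := ch_ord 0 (F j) (A + B + μ) h1
  have h3 : g = J' j := by
    have h4 := hg.symm.trans (hJ' j)
    exact mul_left_cancel₀ (pow_ne_zero _ (X_ne_zero (R := ℂ) (0 : Fin 2))) h4
  have h5 := hg' 0
  have h6 : (![0, 0] : Fin 2 → ℂ) = 0 := by
    funext i
    fin_cases i <;> rfl
  rw [h6, h2, h3, zero_add] at h5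
  rw [h5]
  subst hB
  simp [ld]

private theorem chart_exists {r : ℕ} {F J : Fin r → P2} {A B μ : ℕ}
    (hF : ∀ j, F j = X 0 ^ A * X 1 ^ B * J j) (hJ : ∀ j, OrdP (J j) μ) :
    ∃ J' : Fin r → P2, ∀ j, ch 0 (F j) = X 0 ^ (A + B + μ) * J' j := by
  have h : ∀ j, ∃ g : P2, ch 0 (F j) = X 0 ^ (A + B + μ) * g := by
    intro j
    obtain ⟨g, hg, -⟩ := ch_ord 0 (F j) (A + B + μ) (hc_F (hF j) (hJ j)).1
    exact ⟨g, hg⟩
  choose J' hJ' using h
  exact ⟨J', hJ'⟩

open Classical in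
private theorem leaf_chart {r : ℕ} {F J : Fin r → P2} {A B μ : ℕ}
    (hF : ∀ j, F j = X 0 ^ A * X 1 ^ B * J j) (hJ : ∀ j, OrdP (J j) μ) (s : Str r)
    (η : Fin r → ℂ) (d : ℕ) :
    leafC (fun j => ch 0 (F j)) (A + B + μ) B η d s =
      if A + B + μ ∣ d then ((A + B + μ : ℕ) : ℤ) *
        (if s.dv B = 0 ∧ Pr (ld μ J ![1, 0]) η then 1 else 0) else 0 := by
  cases s with
  | triv =>
    by_cases hB : B = 0
    · have hdv : (Str.triv : Str r).dv B = 0 := by simp [Str.dv, hB]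
      obtain ⟨J', hJ'⟩ := chart_exists hF hJ
      have h1 : (∃ J' : Fin r → P2, (∀ j, ch 0 (F j) = X 0 ^ (A + B + μ) * J' j) ∧
          Pr (fun j => eval 0 (J' j)) η) ↔ Pr (ld μ J ![1, 0]) η := by
        constructor
        · rintro ⟨J'', h2, h3⟩
          rw [chart_val hB hF hJ J'' h2] at h3
          exact h3
        · intro h3
          refine ⟨J', hJ', ?_⟩
          rw [chart_val hB hF hJ J' hJ']
          exact h3
      unfold leafC
      by_cases hd : A + B + μ ∣ d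
      · rw [if_pos hd]
        by_cases h4 : Pr (ld μ J ![1, 0]) η
        · rw [if_pos ⟨hB, hd, h1.mpr h4⟩, if_pos ⟨hdv, h4⟩, mul_one]
        · rw [if_neg (fun h => h4 (h1.mp h.2.2)), if_neg (fun h => h4 h.2), mul_zero]
      · rw [if_neg hd, if_neg (fun h => hd h.2.1)]
    · have hdv : (Str.triv : Str r).dv B ≠ 0 := by simp [Str.dv, hB]
      simp [leafC, hB, hdv]
  | strict M =>
    have hdv : (Str.strict M : Str r).dv B ≠ 0 := by simp [Str.dv]
    simp [leafC, hdv]
  | node μ' lab s0 si n fr =>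
    have hdv : (Str.node μ' lab s0 si n fr : Str r).dv B ≠ 0 := by simp [Str.dv]
    simp [leafC, hdv]

private theorem ld_sw {r : ℕ} (μ : ℕ) (J : Fin r → P2) (x y : ℂ) :
    ld μ (fun j => sw (J j)) ![x, y] = ld μ J ![y, x] := by
  funext j
  show eval ![x, y] (homogeneousComponent μ (sw (J j))) =
    eval ![y, x] (homogeneousComponent μ (J j))
  rw [hc_sw]
  unfold sw
  rw [← MvPolynomial.coe_aeval_eq_eval, ← MvPolynomial.coe_aeval_eq_eval]
  show (aeval ![x, y]) ((aeval sv) _) = (aeval ![y, x]) _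
  rw [← AlgHom.comp_apply, comp_aeval]
  congr 2
  funext i
  fin_cases i <;> simp [sv]

private theorem ordP_mono {f : P2} {m n : ℕ} (h : OrdP f n) (hmn : m ≤ n) : OrdP f m :=
  fun k hk => h k (lt_of_lt_of_le hk hmn)

private theorem sw_F {r : ℕ} {F J : Fin r → P2} {A B : ℕ}
    (hF : ∀ j, F j = X 0 ^ A * X 1 ^ B * J j) :
    ∀ j, sw (F j) = X 0 ^ B * X 1 ^ A * sw (J j) := by
  intro j
  rw [hF j]
  simp only [sw, map_mul, map_pow, aeval_X]
  have h0 : sv 0 = X 1 := rfl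
  have h1 : sv 1 = X 0 := rfl
  rw [h0, h1]
  ring

/-- the value at the origin of the chart of a trivial direction is not zero -/
private theorem ld_ne_of_triv {r : ℕ} {F J : Fin r → P2} {A B μ : ℕ} {s : Str r}
    (hF : ∀ j, F j = X 0 ^ A * X 1 ^ B * J j) (hJ : ∀ j, OrdP (J j) μ)
    (h : Rz (fun j => ch 0 (F j)) (A + B + μ) B s) (hs : s.dv B = 0) :
    ld μ J ![1, 0] ≠ 0 := by
  obtain ⟨rfl, hB⟩ := dv_eq_zero hs
  cases h with
  | triv _ J' _ _ hA hF' hne =>
    obtain ⟨j, hj⟩ := hne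
    have h1 : ∀ j, ch 0 (F j) = X 0 ^ (A + B + μ) * J' j := by
      intro j
      have h2 : ch 0 (F j) = X 0 ^ (A + B + μ) * X 1 ^ B * J' j := hF' j
      rw [h2, hB, pow_zero, mul_one]
    have h3 := chart_val hB hF hJ J' h1
    intro h4
    rw [h4] at h3
    exact hj (congrFun h3 j)

private theorem sum_Icc_dvd (N d : ℕ) (hN : 0 < N) (hd : 0 < d) (c : ℤ) :
    ∑ i ∈ Finset.Icc 1 d, (if N * i = d then c else 0) = if N ∣ d then c else 0 := by
  by_cases h : N ∣ d
  · obtain ⟨k, rfl⟩ := h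
    have hk : 0 < k := Nat.pos_of_mul_pos_left hd
    rw [if_pos (dvd_mul_right N k), Finset.sum_eq_single k]
    · rw [if_pos rfl]
    · intro i _ hik
      rw [if_neg]
      intro h1
      exact hik (Nat.eq_of_mul_eq_mul_left hN h1)
    · intro h1
      exfalso
      apply h1
      rw [Finset.mem_Icc]
      exact ⟨hk, Nat.le_mul_of_pos_left k hN⟩
  · rw [if_neg h]
    refine Finset.sum_eq_zero ?_
    intro i _
    rw [if_neg]
    intro h1
    exact h ⟨i, h1.symm⟩

theorem contact_eq {χ : K0 →+* ℤ} (hχ : IsEulerCharF χ) {r : ℕ} {F : Fin r → P2} {A B : ℕ}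
    {X : Str r} (h : Rz F A B X) (a b : ℕ) {η : Fin r → ℂ} (hη : η ≠ 0) {d : ℕ} (hd : 0 < d) :
    χ (cls (WW F d (Qe η d))) = leafC F A B η d X +
      ((X.nds A a B b).map fun e => if e.N ∣ d then (e.N : ℤ) * cE e η else 0).sum := by
  classical
  induction h generalizing a b with
  | triv F J A B hA hF h =>
    rw [chi_triv hχ hA hd hF h hη]
    simp [Str.nds]
  | strict F g v A M hA hM hF hv hv' h =>
    rw [chi_strict hχ hA hM hd hF hv hv' h hη]
    simp [Str.nds, leafC]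
  | node F J A B μ hμ hF hJ hJ' n ws hinj hw0 hz hnz lab s0 si fr hlab h0 hi hfr ih0 ihi ihf =>
    have hN : 0 < A + B + μ := by omega
    have hF0 : ∀ j, eval 0 (F j) = 0 := by
      intro j
      rw [← ordP_one]
      exact ordP_mono (hc_F (hF j) (hJ j)).1 (by omega)
    have hQ : Constr (Qe η d) := constr_Qe η d
    have hQ0 : (0 : Fin r × Fin (d + 1) → ℂ) ∉ Qe η d := by
      intro h1
      apply hη
      funext j
      exact ((h1 j).2).symm
    have hwf := wf_of_rz (Rz.node F J A B μ hμ hF hJ hJ' n ws hinj hw0 hz hnz lab s0 si fr hlab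
      h0 hi hfr)
    have hnode := mw_node χ 1 (by rw [hχ.line]; rfl) F hQ hQ0 hF0 0 0 (Or.inl rfl) (Or.inl rfl)
      ws hinj hw0
    rw [mw_one χ d _ _ (constr_WW _ d hQ), mw_one χ d _ _ (constr_WW _ d hQ),
      mw_one χ d _ _ (constr_WW _ d hQ)] at hnode
    have h1 : ∀ e, mw χ 1 d (0 + 0 + 1) 0 (WW (fun j => ch (ws e) (F j)) d (Qe η d)) =
        χ (cls (WW (fun j => ch (ws e) (F j)) d (Qe η d))) := fun e =>
      mw_one χ d _ _ (constr_WW _ d hQ)
    simp only [h1] at hnode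
    rw [hnode]
    have h2 : ∑ i ∈ Finset.Icc 1 d, χ (cls (WW F d (Qe η d) ∩ NS d i ws)) *
        (((1 : ℤˣ) ^ (-(((0 : ℕ) + (0 : ℕ)) * i : ℤ)) : ℤˣ) : ℤ) =
        if A + B + μ ∣ d then ((A + B + μ : ℕ) : ℤ) * χ (cls (Dir μ J ws η)) else 0 := by
      rw [← sum_Icc_dvd (A + B + μ) d hN hd]
      refine Finset.sum_congr rfl ?_
      intro i hi'
      rw [Finset.mem_Icc] at hi'
      rw [one_zpow, Units.val_one, mul_one]
      exact chi_ns_e hχ hi'.1 hi'.2 hμ hF hJ ws hinj hw0 hnz hη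
    rw [h2, ih0 (a + b) b, ihi (a + b) a, leaf_chart hF hJ s0 η d]
    have h3 : leafC (fun j => ch 0 (sw (F j))) (A + B + μ) A η d si =
        if A + B + μ ∣ d then ((A + B + μ : ℕ) : ℤ) *
          (if si.dv A = 0 ∧ Pr (ld μ J ![0, 1]) η then 1 else 0) else 0 := by
      have h4 := leaf_chart (F := fun j => sw (F j)) (J := fun j => sw (J j)) (A := B) (B := A)
        (μ := μ) (sw_F hF) (fun j => (ordP_sw (J j) μ).mpr (hJ j)) si η d
      rw [ld_sw, add_comm B A] at h4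
      exact h4
    rw [h3]
    have h5 : ∑ e, χ (cls (WW (fun j => ch (ws e) (F j)) d (Qe η d))) =
        (((∑ i, (fr i).nds (A + B + μ) (a + b) 0 1) : Multiset (Nd r)).map
          fun e => if e.N ∣ d then (e.N : ℤ) * cE e η else 0).sum := by
      rw [← Multiset.coe_mapAddMonoidHom, map_sum, ← Multiset.coe_sumAddMonoidHom, map_sum]
      refine Finset.sum_congr rfl ?_
      intro e _
      rw [ihf e (a + b) 1]
      have h6 : leafC (fun j => ch (ws e) (F j)) (A + B + μ) 0 η d (fr e) = 0 := by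
        have h7 := hwf.2.2.2.1 e
        rcases hs : fr e with _ | M | ⟨μ', lab', s0', si', n', fr'⟩
        · rw [hs] at h7
          exact absurd h7 (by simp [Str.m1])
        · rfl
        · rfl
      rw [h6, zero_add]
      rfl
    rw [h5]
    have h8 : leafC F A B η d (Str.node μ lab s0 si n fr) = 0 := rfl
    rw [h8, Str.nds]
    rw [Multiset.map_add, Multiset.map_add, Multiset.map_add, Multiset.sum_add, Multiset.sum_add,
      Multiset.sum_add, Multiset.map_singleton, Multiset.sum_singleton]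
    have hdi : si.dv A = 0 → ld μ J ![0, 1] ≠ 0 := by
      intro hs
      have h9 := ld_ne_of_triv (F := fun j => sw (F j)) (J := fun j => sw (J j)) (A := B) (B := A)
        (μ := μ) (s := si) (sw_F hF) (fun j => (ordP_sw (J j) μ).mpr (hJ j))
        (by rw [add_comm B A]; exact hi) hs
      rwa [ld_sw] at h9
    have h10 := chi_dir hχ ws hinj hw0 hnz (dv_le s0 B) (dv_le si A)
      (fun hs => ld_ne_of_triv hF hJ h0 hs) hdi lab hlab hη (A + B + μ) (a + b)
    show _ = 0 + ((if A + B + μ ∣ d then ((A + B + μ : ℕ) : ℤ) *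
      cE ⟨A + B + μ, a + b, n + s0.dv B + si.dv A, lab⟩ η else 0) + _ + _ + _)
    rw [← h10]
    split_ifs <;> ring

end TV
end MotMono
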