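import Pool.Agent.Lib.MP_4e5fcd_ag.TV.D6

/-!
# TV-D7: the conclusion for the whole tree

* `ok_root`: by `dd_eq` the sum is `TT + ee`, and `ee = 0` because `gd s₀ 0` is false (if `X` is a
  node; if it is not, `ee = 0` too). So `TT = 0` and `ok_of_TT` applies (`Iv 0 1 _ 0 1`: first
  alternative; `iss s₀ (0, 1)` is false).
* `exists_kind`: a node contains a curve with label `inr` or a strict transform: induction on `X`:
  for `X` with `0 < m1 X` or `X` a node. If the label of the node is `inl`, the sum of the `m1` of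
  the subtrees is `μ > 0`, so some subtree `s` has `0 < m1 s`: it is not `triv`; if it is
  `strict M` then `M ∈ strs`; if it is a node use the induction hypothesis.
-/

namespace MotMono
namespace TV

variable {r : ℕ}

open Classical in
theorem ok_root {s₀ : ℚ} (X : Str r) (hX : X.WF 0 0) (hG : NG s₀ X 0 0)
    (hs : ((X.nds 0 1 0 1).map fun e => if gd s₀ e.N then 2 - (e.val : ℤ) else 0).sum = 0) :
    OK s₀ X 0 1 0 1 := by
  have hdd := dd_eq s₀ X 0 1 0 1 hX hG
  have h0 : ¬ gd s₀ 0 := fun h => absurd h.1 (lt_irrefl _)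
  have hee : ee s₀ X 0 1 0 1 = 0 := by
    cases X with
    | triv => simp [ee]
    | strict M => simp [ee]
    | node μ lab s0 si n fr => simp [ee, h0]
  have hneg : ((X.nds 0 1 0 1).map fun e => if gd s₀ e.N then (e.val : ℤ) - 2 else 0).sum =
      -((X.nds 0 1 0 1).map fun e => if gd s₀ e.N then 2 - (e.val : ℤ) else 0).sum := by
    rw [← Multiset.sum_map_neg]
    congr 1
    apply Multiset.map_congr rfl
    intro e _
    split_ifs <;> ring
  have hT : TT s₀ X 0 1 0 1 = 0 := by
    rw [hneg, hs, hee] at hdd
    linarith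
  have hi : ¬ iss s₀ (0, 1) := fun h => absurd h.1 (lt_irrefl _)
  exact ok_of_TT X 0 1 0 1 hX hG (Or.inl ⟨rfl, rfl⟩) (Or.inl ⟨rfl, rfl⟩) hT
    (fun h => absurd h hi) (fun h => absurd h hi)

theorem exists_kind (X : Str r) (A a B b : ℕ) (hX : X.WF A B) (h0 : X ≠ Str.triv) :
    (∃ e ∈ X.nds A a B b, e.lab.isRight = true) ∨ ∃ M, M ∈ X.strs := by
  induction X generalizing A a B b with
  | triv => exact absurd rfl h0
  | strict M => exact Or.inr ⟨M, by simp [Str.strs]⟩
  | node μ lab s0 si n fr ih0 ihi ihf =>
    obtain ⟨hμ, hle, heq, hpos, hw0, hwi, hwf⟩ := hX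
    cases lab with
    | inr f =>
      refine Or.inl ⟨⟨A + B + μ, a + b, n + s0.dv B + si.dv A, Sum.inr f⟩, ?_, rfl⟩
      simp [Str.nds]
    | inl η =>
      have hsum := heq rfl
      by_cases hn : ∃ i : Fin n, True
      · obtain ⟨i, -⟩ := hn
        have hne : fr i ≠ Str.triv := by
          intro h
          have := hpos i
          rw [h] at this
          simp [Str.m1] at this
        rcases ihf i (A + B + μ) (a + b) 0 1 (hwf i) hne with ⟨e, he, hr⟩ | ⟨M, hM⟩
        · refine Or.inl ⟨e, ?_, hr⟩
          simp only [Str.nds, Multiset.mem_add]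
          exact Or.inr (Multiset.mem_sum.mpr ⟨i, Finset.mem_univ i, he⟩)
        · refine Or.inr ⟨M, ?_⟩
          simp only [Str.strs, Multiset.mem_add]
          exact Or.inr (Multiset.mem_sum.mpr ⟨i, Finset.mem_univ i, hM⟩)
      · by_cases h00 : s0 = Str.triv
        · by_cases hii : si = Str.triv
          · exfalso
            rw [h00, hii] at hsum
            have : ∑ i, (fr i).m1 = 0 := by
              apply Finset.sum_eq_zero
              intro i _
              exact absurd ⟨i, trivial⟩ hn
            rw [this] at hsum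
            simp [Str.m1] at hsum
            omega
          · rcases ihi (A + B + μ) (a + b) A a hwi hii with ⟨e, he, hr⟩ | ⟨M, hM⟩
            · refine Or.inl ⟨e, ?_, hr⟩
              simp only [Str.nds, Multiset.mem_add]
              exact Or.inl (Or.inr he)
            · refine Or.inr ⟨M, ?_⟩
              simp only [Str.strs, Multiset.mem_add]
              exact Or.inl (Or.inr hM)
        · rcases ih0 (A + B + μ) (a + b) B b hw0 h00 with ⟨e, he, hr⟩ | ⟨M, hM⟩
          · refine Or.inl ⟨e, ?_, hr⟩
            simp only [Str.nds, Multiset.mem_add]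
            exact Or.inl (Or.inl (Or.inr he))
          · refine Or.inr ⟨M, ?_⟩
            simp only [Str.strs, Multiset.mem_add]
            exact Or.inl (Or.inl hM)

/-- the conditions `NG` in terms of the list of curves and of strict transforms -/
theorem NG_of_nds {s₀ : ℚ} (X : Str r) (A a B b : ℕ)
    (h1 : ∀ e ∈ X.nds A a B b, gd s₀ e.N → e.lab.isLeft = true)
    (h2 : ∀ M ∈ X.strs, ¬ gd s₀ M) : NG s₀ X A B := by
  induction X generalizing A a B b with
  | triv => simp [NG]
  | strict M => exact h2 M (by simp [Str.strs])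
  | node μ lab s0 si n fr ih0 ihi ihf =>
    refine ⟨?_, ?_, ?_, ?_⟩
    · intro hg
      exact h1 ⟨A + B + μ, a + b, n + s0.dv B + si.dv A, lab⟩ (by simp [Str.nds]) hg
    · refine ih0 (A + B + μ) (a + b) B b (fun e he => h1 e ?_) (fun M hM => h2 M ?_)
      · simp only [Str.nds, Multiset.mem_add]
        exact Or.inl (Or.inl (Or.inr he))
      · simp only [Str.strs, Multiset.mem_add]
        exact Or.inl (Or.inl hM)
    · refine ihi (A + B + μ) (a + b) A a (fun e he => h1 e ?_) (fun M hM => h2 M ?_)
      · simp only [Str.nds, Multiset.mem_add]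
        exact Or.inl (Or.inr he)
      · simp only [Str.strs, Multiset.mem_add]
        exact Or.inl (Or.inr hM)
    · intro i
      refine ihf i (A + B + μ) (a + b) 0 1 (fun e he => h1 e ?_) (fun M hM => h2 M ?_)
      · simp only [Str.nds, Multiset.mem_add]
        exact Or.inr (Multiset.mem_sum.mpr ⟨i, Finset.mem_univ i, he⟩)
      · simp only [Str.strs, Multiset.mem_add]
        exact Or.inr (Multiset.mem_sum.mpr ⟨i, Finset.mem_univ i, hM⟩)

end TV
end MotMono
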