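import Pool.Agent.Lib.MP_4e5fcd_ag.TV.C6
import Pool.Agent.Lib.MP_4e5fcd_ag.TV.D7

/-!
# TV-C7: if `λ` is not visible at the origin

Let `S = nds X 0 1 0 1`, `good e` iff `lam ^ e.N = 1`.
* `all_left`: suppose `e ∈ S` is good with label `inr f`. Let `Z` be the finite set of the `ζ` with
  `inl ζ` a label of `S` (they are `≠ 0` by `rd_left`). `rd_right` gives a realised `η ≠ 0` with `f η ≥ 1`, not
  `~` to any `ζ ∈ Z`. Then all terms `cE e' η` are `≥ 0` (`inl ζ`: `Pr ζ η` is false, `0`; `inr`: natural numbers) and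
  `cE e η ≥ 1`: the sum of `vis_of_sum` is `≥ 1`: visible at `0`, contradiction.
* `sum_zero`: all good `e` have labels `inl ζ_e`. `Pr` is an equivalence relation on non-zero vectors. For each
  good `e₀`: `η = c ζ_(e₀)` realised (`rd_left`), so by `vis_of_sum` the sum over the good `e` with
  `Pr ζ_e η`, i.e. `ζ_e ~ ζ_(e₀)`, of `2 - val e` is `0`. Summing over the classes: `0`.
  (E.g. strong induction on the cardinality of the multiset of good elements: take out one class; or
  `Finset.sum_fiberwise`/`Multiset` version with a choice of representatives.)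
-/

open MvPolynomial

namespace MotMono
namespace TV

open CN

private theorem Pr_refl {r : ℕ} (u : Fin r → ℂ) : Pr u u := ⟨1, one_ne_zero, (one_smul _ _).symm⟩

private theorem Pr_symm {r : ℕ} {u v : Fin r → ℂ} (h : Pr u v) : Pr v u := by
  obtain ⟨c, hc, rfl⟩ := h
  exact ⟨c⁻¹, inv_ne_zero hc, by rw [smul_smul, inv_mul_cancel₀ hc, one_smul]⟩

private theorem Pr_trans {r : ℕ} {u v w : Fin r → ℂ} (h : Pr u v) (h' : Pr v w) : Pr u w := by
  obtain ⟨c, hc, rfl⟩ := h
  obtain ⟨d, hd, rfl⟩ := h'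
  exact ⟨c * d, mul_ne_zero hc hd, by rw [smul_smul]⟩

private def prS (r : ℕ) : Setoid (Fin r → ℂ) where
  r := Pr
  iseqv := ⟨Pr_refl, Pr_symm, Pr_trans⟩

/-- the direction of a node -/
private noncomputable def dirOf {r : ℕ} (e : Nd r) : Fin r → ℂ :=
  match e.lab with
  | Sum.inl ζ => ζ
  | Sum.inr _ => 0

private theorem dirOf_inl {r : ℕ} {e : Nd r} {ζ : Fin r → ℂ} (h : e.lab = Sum.inl ζ) :
    dirOf e = ζ := by
  unfold dirOf
  rw [h]

private theorem cE_inl {r : ℕ} {e : Nd r} {ζ η : Fin r → ℂ} (h : e.lab = Sum.inl ζ) :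
    (Pr ζ η → cE e η = 2 - (e.val : ℤ)) ∧ (¬ Pr ζ η → cE e η = 0) := by
  unfold cE
  rw [h]
  constructor
  · intro h1
    simp only [if_pos h1]
  · intro h1
    simp only [if_neg h1]

private theorem cE_inr {r : ℕ} {e : Nd r} {f : (Fin r → ℂ) → ℕ} {η : Fin r → ℂ}
    (h : e.lab = Sum.inr f) : cE e η = f η := by
  unfold cE
  rw [h]

theorem all_left {χ : K0 →+* ℤ} (hχ : IsEulerCharF χ) {r : ℕ} {F : Fin r → P2} {X : Str r}
    (h : Rz F 0 0 X) (hX : X ≠ Str.triv) (lam : ℂ)
    (hv : ¬ CN.Vis χ (Ideal.span (Set.range F)) 0 lam) :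
    ∀ e ∈ X.nds 0 1 0 1, lam ^ e.N = 1 → e.lab.isLeft = true := by
  classical
  intro e he hlam
  by_contra hcon
  obtain ⟨f, hf⟩ : ∃ f, e.lab = Sum.inr f := by
    rcases hl : e.lab with ζ | f
    · rw [hl] at hcon
      exact absurd rfl hcon
    · exact ⟨f, rfl⟩
  obtain ⟨η, hη, hr, hfη, hZ⟩ := rd_right h 1 1 e he f hf
    (((X.nds 0 1 0 1).map dirOf).toFinset.filter (· ≠ 0))
    (fun ζ hζ => (Finset.mem_filter.mp hζ).2)
  apply hv
  refine vis_of_sum hχ h hX hη hr lam ?_
  have hnn : ∀ e' ∈ X.nds 0 1 0 1, (0 : ℤ) ≤ if lam ^ e'.N = 1 then cE e' η else 0 := by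
    intro e' he'
    split_ifs with h1
    · rcases hl : e'.lab with ζ | g
      · obtain ⟨hζ0, -⟩ := rd_left h 1 1 e' he' ζ hl
        have hm : ζ ∈ ((X.nds 0 1 0 1).map dirOf).toFinset.filter (· ≠ 0) := by
          rw [Finset.mem_filter]
          refine ⟨?_, hζ0⟩
          rw [Multiset.mem_toFinset, Multiset.mem_map]
          exact ⟨e', he', dirOf_inl hl⟩
        rw [(cE_inl hl).2 (hZ ζ hm)]
      · rw [cE_inr hl]
        positivity
    · exact le_refl _
  have h2 : (1 : ℤ) ≤ ((X.nds 0 1 0 1).map fun e' => if lam ^ e'.N = 1 then cE e' η else 0).sum := by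
    refine le_trans ?_ (Multiset.single_le_sum (s := (X.nds 0 1 0 1).map
      fun e' => if lam ^ e'.N = 1 then cE e' η else 0) ?_ (cE e η) ?_)
    · rw [cE_inr hf]
      exact_mod_cast hfη
    · intro x hx
      obtain ⟨e', he', rfl⟩ := Multiset.mem_map.mp hx
      exact hnn e' he'
    · rw [Multiset.mem_map]
      exact ⟨e, he, if_pos hlam⟩
  omega

open Classical in
theorem sum_zero {χ : K0 →+* ℤ} (hχ : IsEulerCharF χ) {r : ℕ} {F : Fin r → P2} {X : Str r}
    (h : Rz F 0 0 X) (hX : X ≠ Str.triv) (lam : ℂ)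
    (hv : ¬ CN.Vis χ (Ideal.span (Set.range F)) 0 lam) :
    ((X.nds 0 1 0 1).map fun e => if lam ^ e.N = 1 then 2 - (e.val : ℤ) else 0).sum = 0 := by
  have hL := all_left hχ h hX lam hv
  set S := X.nds 0 1 0 1 with hS
  let κ : Nd r → Quotient (prS r) := fun e => Quotient.mk (prS r) (dirOf e)
  let Q : Finset (Quotient (prS r)) := (S.map κ).toFinset
  have h1 : (S.map fun e => if lam ^ e.N = 1 then 2 - (e.val : ℤ) else 0).sum =
      (S.map fun e => ∑ q ∈ Q, if κ e = q then (if lam ^ e.N = 1 then 2 - (e.val : ℤ) else 0)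
        else 0).sum := by
    congr 1
    refine Multiset.map_congr rfl ?_
    intro e he
    rw [Finset.sum_ite_eq]
    have hm : κ e ∈ Q := by
      rw [Multiset.mem_toFinset]
      exact Multiset.mem_map_of_mem κ he
    exact (if_pos hm).symm
  rw [h1]
  have h2 : (S.map fun e => ∑ q ∈ Q, if κ e = q then (if lam ^ e.N = 1 then 2 - (e.val : ℤ) else 0)
        else 0).sum = ∑ q ∈ Q, (S.map fun e => if κ e = q then
          (if lam ^ e.N = 1 then 2 - (e.val : ℤ) else 0) else 0).sum := by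
    have := Multiset.sum_map_sum_map S Q.val (f := fun e q => if κ e = q then
          (if lam ^ e.N = 1 then 2 - (e.val : ℤ) else 0) else 0)
    exact this
  rw [h2]
  refine Finset.sum_eq_zero ?_
  intro q _
  by_cases hq : ∃ e ∈ S, lam ^ e.N = 1 ∧ κ e = q
  · obtain ⟨e₀, he₀, hl₀, hk₀⟩ := hq
    obtain ⟨ζ₀, hζ₀⟩ : ∃ ζ, e₀.lab = Sum.inl ζ := by
      rcases hl : e₀.lab with ζ | f
      · exact ⟨ζ, rfl⟩
      · have := hL e₀ he₀ hl₀
        rw [hl] at this
        simp at this
    obtain ⟨hζ0, c, hc, hr⟩ := rd_left h 1 1 e₀ he₀ ζ₀ hζ₀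
    have hη : c • ζ₀ ≠ 0 := smul_ne_zero hc hζ0
    have h3 : (S.map fun e => if lam ^ e.N = 1 then cE e (c • ζ₀) else 0).sum = 0 := by
      by_contra hcon
      exact hv (vis_of_sum hχ h hX hη hr lam hcon)
    refine Eq.trans ?_ h3
    congr 1
    refine Multiset.map_congr rfl ?_
    intro e he
    by_cases hle : lam ^ e.N = 1
    · rw [if_pos hle, if_pos hle]
      obtain ⟨ζ, hζ⟩ : ∃ ζ, e.lab = Sum.inl ζ := by
        rcases hl : e.lab with ζ | f
        · exact ⟨ζ, rfl⟩
        · have := hL e he hle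
          rw [hl] at this
          simp at this
      have h4 : κ e = q ↔ Pr ζ (c • ζ₀) := by
        rw [← hk₀]
        have h5 : κ e = κ e₀ ↔ Pr (dirOf e) (dirOf e₀) := by
          exact Quotient.eq (r := prS r)
        rw [h5, dirOf_inl hζ, dirOf_inl hζ₀]
        constructor
        · intro h6
          exact Pr_trans h6 ⟨c⁻¹, inv_ne_zero hc, by rw [smul_smul, inv_mul_cancel₀ hc, one_smul]⟩
        · intro h6
          exact Pr_trans h6 ⟨c, hc, rfl⟩
      by_cases h7 : κ e = q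
      · rw [if_pos h7, (cE_inl hζ).1 (h4.mp h7)]
      · rw [if_neg h7, (cE_inl hζ).2 (fun h8 => h7 (h4.mpr h8))]
    · rw [if_neg hle, if_neg hle]
      simp
  · have h5 : (S.map fun e => if κ e = q then
          (if lam ^ e.N = 1 then 2 - (e.val : ℤ) else 0) else 0).sum =
          (S.map fun _ => (0 : ℤ)).sum := by
      congr 1
      refine Multiset.map_congr rfl ?_
      intro e he
      by_cases h7 : κ e = q
      · rw [if_pos h7, if_neg]
        intro h8
        exact hq ⟨e, he, h8, h7⟩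
      · rw [if_neg h7]
    rw [h5]
    simp

end TV
end MotMono
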