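import Pool.Agent.Lib.MP_4e5fcd_ag.TV.Str

/-!
# TV-D1: the numerical data of the neighbours

Proof: induction on `X` (generalising `A a B b`).
`j2`: `triv`, `strict`: `k = 0`, `m2 = 0`. `node μ _ s0 ..`: by induction
`j2 s0 N ν B b = (N + k B + m2 s0, ν + k b)` with `N = A + B + μ`, `ν = a + b`, and
`m2 X = μ + m2 s0`: so `k + 1` works.
`j1`: `triv`: `k = 0`. `strict M`: `B = 0` (by `WF`), `b = 1`, `m1 = M`, `k = 0`. `node`: from
`j2_eq` applied to `si` (its second line is `(A, a)`).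
-/

namespace MotMono
namespace TV

variable {r : ℕ}

theorem j2_eq (X : Str r) (A a B b : ℕ) :
    ∃ k : ℕ, X.j2 A a B b = (A + k * B + X.m2, a + k * b) := by
  induction X generalizing A a B b with
  | triv => exact ⟨0, by simp [Str.j2, Str.m2]⟩
  | strict M => exact ⟨0, by simp [Str.j2, Str.m2]⟩
  | node μ lab s0 si n fr ih0 ihi ihf =>
    obtain ⟨k, hk⟩ := ih0 (A + B + μ) (a + b) B b
    refine ⟨k + 1, ?_⟩
    simp only [Str.j2, Str.m2, hk]
    ext
    · show A + B + μ + k * B + s0.m2 = A + (k + 1) * B + (μ + s0.m2)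
      ring
    · show a + b + k * b = a + (k + 1) * b
      ring

theorem j1_eq (X : Str r) (A a B b : ℕ) (hX : X.WF A B) (hb : B = 0 → b = 1) :
    ∃ k : ℕ, X.j1 A a B b = (B + k * A + X.m1, b + k * a) := by
  cases X with
  | triv => exact ⟨0, by simp [Str.j1, Str.m1]⟩
  | strict M =>
    simp only [Str.WF] at hX
    exact ⟨0, by simp [Str.j1, Str.m1, hX.2, hb hX.2]⟩
  | node μ lab s0 si n fr =>
    obtain ⟨k, hk⟩ := j2_eq si (A + B + μ) (a + b) A a
    refine ⟨k + 1, ?_⟩
    simp only [Str.j1, Str.m1, hk]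
    ext
    · show A + B + μ + k * A + si.m2 = B + (k + 1) * A + (μ + si.m2)
      ring
    · show a + b + k * a = b + (k + 1) * a
      ring

end TV
end MotMono
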