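import Pool.Agent.Lib.MP_4e5fcd_ag.TV.Str

/-!
# TV-D2: the invariants `Iv` are inherited by the subtrees

`N = A + B + μ`, `ν = a + b`, `m1 X = μ + m2 si`, `m2 X = μ + m2 s0`, all `m1` of the subtrees are
`≤ μ` (from `WF`: their sum is `≤ μ`).
`Iv X = (A = 0 ∧ a = 1) ∨ (0 < A ∧ 1 ≤ a ∧ a m ≤ 2 A ∧ (a - 1)(B + m) < (b + 1) A)`.
* new curve: `ν m1(sub) ≤ 2 N`: `m := m1 (sub) ≤ μ`. Both lines curves: `a μ ≤ a m1(X) ≤ 2A`,
  `b μ ≤ 2 B`. One curve, say `A = 0, a = 1`: `(1 + b) μ ≤ μ + 2 B ≤ 2 N`. No curve: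
  `2 μ ≤ 2 N`.
* new curve in the chart `s0` (other line `(B, b)`): `(ν - 1)(B + m) < (b + 1) N`; as `m ≤ μ` it is
  enough that `(a - 2)(B + μ) < (b + 1) A`; if `A > 0` this follows from the invariant
  `(a - 1)(B + m1 X) < (b + 1) A` of the first line and `μ ≤ m1 X`; if `A = 0`, `a = 1` the left
  side is negative. The chart `si` is symmetric (`A, a` and `B, b` exchanged, `Iv B b (m2 X) A a`).
* new curve in a chart `fr i` (other line `(0, 1)`): `(ν - 1) m < 2 N`, from `(a + b) μ ≤ 2 (A + B)`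
  if both lines are curves, and directly in the other cases
  (`A = 0`: `b m ≤ b μ ≤ 2 B < 2 N` or (`B = 0`) `m ≤ μ < 2 N`).
* old line `(B, b)` in `s0`: if it is a curve: `b m2(s0) ≤ b m2(X) ≤ 2 B`, and
  `(b - 1)(N + m2 s0) = (b - 1)(A + m2 X) + (b - 1) B < (a + 1) B + (b - 1) B = (a + b) B`.
  Similarly `(A, a)` in `si`. The last line `(0, 1)` of `fr i` satisfies the first alternative.
-/

namespace MotMono
namespace TV

variable {r : ℕ}

private theorem iv_new (A a B b μ M1 M2 m : ℤ) (hA : 0 ≤ A) (ha : 0 ≤ a) (hB : 0 ≤ B) (hb : 0 ≤ b)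
    (h1 : (A = 0 ∧ a = 1) ∨ (0 < A ∧ 1 ≤ a ∧ a * M1 ≤ 2 * A ∧ (a - 1) * (B + M1) < (b + 1) * A))
    (h2 : (B = 0 ∧ b = 1) ∨ (0 < B ∧ 1 ≤ b ∧ b * M2 ≤ 2 * B ∧ (b - 1) * (A + M2) < (a + 1) * B))
    (hμ : 0 < μ) (hm0 : 0 ≤ m) (hm : m ≤ μ) (hM1 : μ ≤ M1) (hM2 : μ ≤ M2) :
    0 < A + B + μ ∧ 1 ≤ a + b ∧ (a + b) * m ≤ 2 * (A + B + μ) ∧
      (a + b - 1) * (B + m) < (b + 1) * (A + B + μ) ∧ (a + b - 1) * (0 + m) < (1 + 1) * (A + B + μ) := by
  rcases h1 with ⟨h1, h1'⟩ | ⟨h1, h1', h1'', h1'''⟩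
  · subst h1 h1'
    rcases h2 with ⟨h2, h2'⟩ | ⟨h2, h2', h2'', h2'''⟩
    · subst h2 h2'
      refine ⟨by linarith, by linarith, by linarith, by linarith, by linarith⟩
    · have e1 : b * μ ≤ b * M2 := by nlinarith
      have e2 : b * m ≤ b * μ := by nlinarith
      refine ⟨by linarith, by linarith, by nlinarith, by nlinarith, by nlinarith⟩
  · have d1 : a * μ ≤ a * M1 := by nlinarith
    have d2 : a * m ≤ a * μ := by nlinarith
    rcases h2 with ⟨h2, h2'⟩ | ⟨h2, h2', h2'', h2'''⟩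
    · subst h2 h2'
      refine ⟨by linarith, by linarith, by nlinarith, by nlinarith, by nlinarith⟩
    · have e1 : b * μ ≤ b * M2 := by nlinarith
      have e2 : b * m ≤ b * μ := by nlinarith
      have e3 : (a - 1) * (B + μ) ≤ (a - 1) * (B + M1) := by
        apply mul_le_mul_of_nonneg_left <;> linarith
      have e4 : (a + b - 1) * (B + m) ≤ (a + b - 1) * (B + μ) := by
        apply mul_le_mul_of_nonneg_left <;> linarith
      refine ⟨by linarith, by linarith, by nlinarith, by nlinarith, by nlinarith⟩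

private theorem iv_old (A a B b μ q : ℤ) (hA : 0 ≤ A) (ha : 0 ≤ a) (hμ : 0 < μ) (hq : 0 ≤ q)
    (h2 : (B = 0 ∧ b = 1) ∨ (0 < B ∧ 1 ≤ b ∧ b * (μ + q) ≤ 2 * B ∧
      (b - 1) * (A + (μ + q)) < (a + 1) * B)) :
    (B = 0 ∧ b = 1) ∨ (0 < B ∧ 1 ≤ b ∧ b * q ≤ 2 * B ∧
      (b - 1) * (A + B + μ + q) < (a + b + 1) * B) := by
  rcases h2 with h2 | ⟨h2, h2', h2'', h2'''⟩
  · exact Or.inl h2
  · refine Or.inr ⟨h2, h2', by nlinarith, by nlinarith⟩

private theorem iv_cast (A a m B b : ℕ) : Iv A a m B b ↔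
    (((A : ℤ) = 0 ∧ (a : ℤ) = 1) ∨ (0 < (A : ℤ) ∧ 1 ≤ (a : ℤ) ∧ (a : ℤ) * m ≤ 2 * A ∧
      ((a : ℤ) - 1) * (B + m) < ((b : ℤ) + 1) * A)) := by
  unfold Iv
  refine or_congr (and_congr (by norm_cast) (by norm_cast)) (and_congr (by norm_cast)
    (and_congr (by norm_cast) (and_congr (by norm_cast) Iff.rfl)))

theorem iv_sub {μ n : ℕ} {lab : Lab r} {s0 si : Str r} {fr : Fin n → Str r} {A a B b : ℕ}
    (hX : (Str.node μ lab s0 si n fr).WF A B)
    (h1 : Iv A a (Str.node μ lab s0 si n fr).m1 B b)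
    (h2 : Iv B b (Str.node μ lab s0 si n fr).m2 A a) :
    Iv (A + B + μ) (a + b) s0.m1 B b ∧ Iv B b s0.m2 (A + B + μ) (a + b) ∧
      Iv (A + B + μ) (a + b) si.m1 A a ∧ Iv A a si.m2 (A + B + μ) (a + b) ∧
      ∀ i, Iv (A + B + μ) (a + b) (fr i).m1 0 1 ∧ Iv 0 1 (fr i).m2 (A + B + μ) (a + b) := by
  simp only [Str.WF] at hX
  obtain ⟨hμ, hsum, -⟩ := hX
  simp only [Str.m1, Str.m2] at h1 h2
  rw [iv_cast] at h1 h2
  push_cast at h1 h2
  have hfi : ∀ i, (fr i).m1 ≤ μ := by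
    intro i
    have := Finset.single_le_sum (f := fun i => (fr i).m1) (fun i _ => Nat.zero_le _)
      (Finset.mem_univ i)
    omega
  have hs0 : s0.m1 ≤ μ := by omega
  have hsi : si.m1 ≤ μ := by omega
  have hμ' : (0 : ℤ) < μ := by exact_mod_cast hμ
  have N1 : ∀ m : ℕ, m ≤ μ → _ := fun m hm => iv_new A a B b μ (μ + si.m2) (μ + s0.m2) m
    (by positivity) (by positivity) (by positivity) (by positivity) h1 h2 hμ' (by positivity)
    (by exact_mod_cast hm) (by linarith [Int.natCast_nonneg si.m2]) (by linarith [Int.natCast_nonneg s0.m2])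
  have N2 : ∀ m : ℕ, m ≤ μ → _ := fun m hm => iv_new B b A a μ (μ + s0.m2) (μ + si.m2) m
    (by positivity) (by positivity) (by positivity) (by positivity) h2 h1 hμ' (by positivity)
    (by exact_mod_cast hm) (by linarith [Int.natCast_nonneg s0.m2]) (by linarith [Int.natCast_nonneg si.m2])
  refine ⟨?_, ?_, ?_, ?_, fun i => ⟨?_, Or.inl ⟨rfl, rfl⟩⟩⟩
  · rw [iv_cast]
    push_cast
    obtain ⟨e1, e2, e3, e4, e5⟩ := N1 s0.m1 hs0
    exact Or.inr ⟨e1, e2, e3, e4⟩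
  · rw [iv_cast]
    push_cast
    exact iv_old A a B b μ s0.m2 (by positivity) (by positivity) hμ' (by positivity) h2
  · rw [iv_cast]
    push_cast
    obtain ⟨e1, e2, e3, e4, e5⟩ := N2 si.m1 hsi
    refine Or.inr ⟨by linarith, by linarith, ?_, ?_⟩
    · have : ((a : ℤ) + b) * si.m1 = (b + a) * si.m1 := by ring
      rw [this]
      linarith
    · have : ((a : ℤ) + b - 1) * (A + si.m1) = (b + a - 1) * (A + si.m1) := by ring
      rw [this]
      have h5 : ((a : ℤ) + 1) * (A + B + μ) = (a + 1) * (B + A + μ) := by ring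
      rw [h5]
      exact e4
  · rw [iv_cast]
    push_cast
    have := iv_old B b A a μ si.m2 (by positivity) (by positivity) hμ' (by positivity) h1
    rcases this with h | ⟨e1, e2, e3, e4⟩
    · exact Or.inl h
    · refine Or.inr ⟨e1, e2, e3, ?_⟩
      have h5 : ((a : ℤ) - 1) * (A + B + μ + si.m2) = (a - 1) * (B + A + μ + si.m2) := by ring
      have h6 : ((a : ℤ) + b + 1) * A = (b + a + 1) * A := by ring
      rw [h5, h6]
      exact e4
  · rw [iv_cast]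
    push_cast
    obtain ⟨e1, e2, e3, e4, e5⟩ := N1 (fr i).m1 (hfi i)
    exact Or.inr ⟨e1, e2, e3, e5⟩

end TV
end MotMono
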