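import Pool.Agent.Lib.MP_4e5fcd_ag.TV.D1
import Pool.Agent.Lib.MP_4e5fcd_ag.TV.D2

/-!
# TV-D3: the numbers `α` of the neighbours of a curve which gives the candidate pole

Let `E = (N, ν) = (A + B + μ, a + b)` with `ν + s₀ N = 0` (`iss`), and `al s₀ c = c.2 + s₀ c.1`.
For a direction `s` with second line `(C, c)` (`s0`: `(B, b)`, `si`: `(A, a)`, `fr i`: `(0, 1)`)
D1 gives `j1 s = (C + k N + m1 s, c + k ν)`, so `al (j1 s) = c + s₀ (C + m1 s)`, `s₀ = -ν/N < 0`.
* `al ≤ 1`, and `al < 1` if the direction is real (`dv s C = 1`): `fr i`: `al = 1 + s₀ m1 < 1`.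
  `s0`, `B = 0` (`b = 1`): `al = 1 + s₀ m1 (s0)`, and real means that `s0` is not `triv`, so
  `m1 s0 > 0` (`strict M`: `M > 0`; `node μ`: `m1 ≥ μ > 0`; from `WF`). `s0`, `B > 0`:
  `al < 1` means `(b - 1) N < ν (B + m1 s0)`, which follows from `(b - 1)(A + μ) < (a + 1) B`
  (`Iv B b (m2 X) A a`, `μ ≤ m2 X`): `(b-1)(A+B+μ) < (a+1) B + (b-1) B = ν B`. `si`: symmetric.
  Not real (`triv`, `C = 0`): `j1 = (0, c)`, `c = 1`: `al = 1`.
* the sum over the `n + 2` directions of `al` is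
  `n + ν + s₀ (A + B + ∑ m1)`, and `A + B + ∑ m1 ≤ N` with equality if `lab.isLeft`: so the sum is
  `≥ n`, and `= n` if `lab.isLeft`.
* hence `al ≥ -1` for every direction (the other `n + 1` are `≤ 1`), and `al = -1` implies that
  no other direction is real, so `n + dv s0 B + dv si A ≤ 1`.
* `no_iss_of_val_one`: if exactly one direction is real, its `al` is `n - (n + 1) = -1 ≠ 0`
  (`lab.isLeft`), and the non-real ones have `j1 = (0, 1)`, not `iss`.
* `iss_of_gd`: if `val ≥ 2` and `j1 s` is good then `al (j1 s)` is an integer (`s₀ * (j1 s).1` is)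
  in `(-1, 1)` (good implies `(j1 s).1 > 0`; if the direction is not real `(j1 s).1 = 0`), so `0`.
* `val_pos`: if no direction is real all `al = 1` and the sum is `n + 2 ≠ n`.
* `val_le_of_db`: (used in D6) if `val ≥ 1`: the sum of the `al` of the real directions is
  `val - 2`.
The theorem collects what is used: for `lab.isLeft` and `iss`:
-/

namespace MotMono
namespace TV

variable {r : ℕ}

/-- `ν + s₀ N` -/
def al (s₀ : ℚ) (c : ℕ × ℕ) : ℚ := (c.2 : ℚ) + s₀ * c.1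

private theorem sum_le_n {n : ℕ} (y : Fin n → ℚ) (hy : ∀ i, y i < 1) : ∑ i, y i ≤ n := by
  calc ∑ i, y i ≤ ∑ _i : Fin n, (1 : ℚ) := Finset.sum_le_sum (fun i _ => (hy i).le)
    _ = n := by simp

private theorem sum_lt_n {n : ℕ} (y : Fin n → ℚ) (hy : ∀ i, y i < 1) (hn : 0 < n) :
    ∑ i, y i < n := by
  have hne : (Finset.univ : Finset (Fin n)).Nonempty := ⟨⟨0, hn⟩, Finset.mem_univ _⟩
  calc ∑ i, y i < ∑ _i : Fin n, (1 : ℚ) := Finset.sum_lt_sum_of_nonempty hne (fun i _ => hy i)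
    _ = n := by simp

private theorem sum_le_erase {n : ℕ} (y : Fin n → ℚ) (hy : ∀ i, y i < 1) (i : Fin n) :
    ∑ j, y j ≤ y i + ((n : ℚ) - 1) := by
  classical
  rw [← Finset.add_sum_erase Finset.univ y (Finset.mem_univ i)]
  have h1 : ∑ j ∈ Finset.univ.erase i, y j ≤ ∑ _j ∈ Finset.univ.erase i, (1 : ℚ) :=
    Finset.sum_le_sum (fun j _ => (hy j).le)
  have hn : 0 < n := Fin.pos i
  have h2 : ∑ _j ∈ Finset.univ.erase i, (1 : ℚ) = (n : ℚ) - 1 := by
    rw [Finset.sum_const, Finset.card_erase_of_mem (Finset.mem_univ i), Finset.card_univ,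
      Fintype.card_fin, nsmul_eq_mul, mul_one, Nat.cast_sub hn, Nat.cast_one]
  linarith

private theorem sum_lt_erase {n : ℕ} (y : Fin n → ℚ) (hy : ∀ i, y i < 1) (i : Fin n)
    (hn2 : 2 ≤ n) : ∑ j, y j < y i + ((n : ℚ) - 1) := by
  classical
  rw [← Finset.add_sum_erase Finset.univ y (Finset.mem_univ i)]
  have hn : 0 < n := Fin.pos i
  have hc : (Finset.univ.erase i).card = n - 1 := by
    rw [Finset.card_erase_of_mem (Finset.mem_univ i), Finset.card_univ, Fintype.card_fin]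
  have hne : (Finset.univ.erase i).Nonempty := by
    rw [← Finset.card_pos, hc]
    omega
  have h1 : ∑ j ∈ Finset.univ.erase i, y j < ∑ _j ∈ Finset.univ.erase i, (1 : ℚ) :=
    Finset.sum_lt_sum_of_nonempty hne (fun j _ => hy j)
  have h2 : ∑ _j ∈ Finset.univ.erase i, (1 : ℚ) = (n : ℚ) - 1 := by
    rw [Finset.sum_const, hc, nsmul_eq_mul, mul_one, Nat.cast_sub hn, Nat.cast_one]
  linarith

private theorem num_all {n : ℕ} (d0 d1 : ℕ) (x0 x1 : ℚ) (y : Fin n → ℚ)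
    (hsum : x0 + x1 + ∑ i, y i = n)
    (h0 : (d0 = 0 ∧ x0 = 1) ∨ (d0 = 1 ∧ x0 < 1))
    (h1 : (d1 = 0 ∧ x1 = 1) ∨ (d1 = 1 ∧ x1 < 1)) (hy : ∀ i, y i < 1) :
    1 ≤ n + d0 + d1 ∧
    (n + d0 + d1 = 1 → x0 ≠ 0 ∧ x1 ≠ 0 ∧ ∀ i, y i ≠ 0) ∧
    (2 ≤ n + d0 + d1 → (d0 = 1 → -1 < x0) ∧ (d1 = 1 → -1 < x1) ∧ ∀ i, -1 < y i) := by
  refine ⟨?_, ?_, ?_⟩
  · rcases Nat.eq_zero_or_pos n with hn | hn
    · subst hn
      simp only [Finset.univ_eq_empty, Finset.sum_empty, add_zero, Nat.cast_zero] at hsum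
      rcases h0 with ⟨h0, h0'⟩ | ⟨h0, h0'⟩
      · rcases h1 with ⟨h1, h1'⟩ | ⟨h1, h1'⟩
        · rw [h0', h1'] at hsum
          norm_num at hsum
        · omega
      · omega
    · omega
  · intro hv
    rcases h0 with ⟨h0, h0'⟩ | ⟨h0, h0'⟩
    · rcases h1 with ⟨h1, h1'⟩ | ⟨h1, h1'⟩
      · have hn : n = 1 := by omega
        subst hn
        refine ⟨by rw [h0']; norm_num, by rw [h1']; norm_num, fun i => ?_⟩
        have hi : i = 0 := Subsingleton.elim _ _
        subst hi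
        simp only [Finset.univ_unique, Finset.sum_singleton, Nat.cast_one] at hsum
        intro hc
        have hd : (default : Fin 1) = 0 := Subsingleton.elim _ _
        rw [hd, hc, h0', h1'] at hsum
        norm_num at hsum
      · have hn : n = 0 := by omega
        subst hn
        simp only [Finset.univ_eq_empty, Finset.sum_empty, add_zero, Nat.cast_zero] at hsum
        refine ⟨by rw [h0']; norm_num, ?_, fun i => i.elim0⟩
        intro hc
        rw [h0', hc] at hsum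
        norm_num at hsum
    · rcases h1 with ⟨h1, h1'⟩ | ⟨h1, h1'⟩
      · have hn : n = 0 := by omega
        subst hn
        simp only [Finset.univ_eq_empty, Finset.sum_empty, add_zero, Nat.cast_zero] at hsum
        refine ⟨?_, by rw [h1']; norm_num, fun i => i.elim0⟩
        intro hc
        rw [h1', hc] at hsum
        norm_num at hsum
      · omega
  · intro hv
    have hs := sum_le_n y hy
    refine ⟨fun hd => ?_, fun hd => ?_, fun i => ?_⟩
    · rcases h0 with ⟨h0, h0'⟩ | ⟨h0, h0'⟩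
      · omega
      · rcases h1 with ⟨h1, h1'⟩ | ⟨h1, h1'⟩
        · have hn : 0 < n := by omega
          have := sum_lt_n y hy hn
          linarith
        · linarith
    · rcases h1 with ⟨h1, h1'⟩ | ⟨h1, h1'⟩
      · omega
      · rcases h0 with ⟨h0, h0'⟩ | ⟨h0, h0'⟩
        · have hn : 0 < n := by omega
          have := sum_lt_n y hy hn
          linarith
        · linarith
    · have he := sum_le_erase y hy i
      rcases h0 with ⟨h0, h0'⟩ | ⟨h0, h0'⟩
      · rcases h1 with ⟨h1, h1'⟩ | ⟨h1, h1'⟩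
        · have hn : 2 ≤ n := by omega
          have := sum_lt_erase y hy i hn
          linarith
        · linarith
      · rcases h1 with ⟨h1, h1'⟩ | ⟨h1, h1'⟩
        · linarith
        · linarith

private theorem al_dir (s₀ : ℚ) (s : Str r) (N ν C c : ℕ) (hW : s.WF N C)
    (hC : C = 0 → c = 1) (hi : iss s₀ (N, ν)) :
    al s₀ (s.j1 N ν C c) = (c : ℚ) + s₀ * ((C : ℚ) + s.m1) := by
  obtain ⟨k, hk⟩ := j1_eq s N ν C c hW hC
  have h2 : (ν : ℚ) + s₀ * N = 0 := hi.2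
  rw [hk]
  simp only [al]
  push_cast
  linear_combination (k : ℚ) * h2

private theorem m1_pos_of_dv {s : Str r} {N : ℕ} (hW : s.WF N 0) (hd : s.dv 0 = 1) :
    0 < s.m1 := by
  cases s with
  | triv => simp [Str.dv] at hd
  | strict M => exact hW.1
  | node μ lab s0 si n fr =>
    have : 0 < μ := hW.1
    simp only [Str.m1]
    omega

private theorem dv_cases (s : Str r) (C : ℕ) : s.dv C = 0 ∨ s.dv C = 1 := by
  cases s with
  | triv => by_cases h : C = 0 <;> simp [Str.dv, h]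
  | strict M => right; rfl
  | node μ lab s0 si n fr => right; rfl

private theorem dv_zero_j1 {s : Str r} {C : ℕ} (hd : s.dv C = 0) (N ν c : ℕ) :
    C = 0 ∧ s.j1 N ν C c = (0, c) := by
  cases s with
  | triv =>
    by_cases h : C = 0
    · subst h
      exact ⟨rfl, rfl⟩
    · simp [Str.dv, h] at hd
  | strict M => simp [Str.dv] at hd
  | node μ lab s0 si n fr => simp [Str.dv] at hd

private theorem al_lt_one (s₀ : ℚ) (s : Str r) (N ν C c : ℕ) (hW : s.WF N C)
    (hC : C = 0 → c = 1) (hi : iss s₀ (N, ν)) (hν : 0 < ν)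
    (hineq : 0 < C → ((c : ℤ) - 1) * N < ν * C) (hd : s.dv C = 1) :
    al s₀ (s.j1 N ν C c) < 1 := by
  rw [al_dir s₀ s N ν C c hW hC hi]
  have h2 : (ν : ℚ) + s₀ * N = 0 := hi.2
  have hN : (0 : ℚ) < N := by exact_mod_cast hi.1
  have hνq : (0 : ℚ) < ν := by exact_mod_cast hν
  have key : ((c : ℚ) - 1) * N < ν * ((C : ℚ) + s.m1) := by
    rcases Nat.eq_zero_or_pos C with h | h
    · subst h
      have hc := hC rfl
      have hm : 0 < s.m1 := m1_pos_of_dv hW hd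
      have hmq : (0 : ℚ) < s.m1 := by exact_mod_cast hm
      rw [hc]
      have : (0 : ℚ) < ν * s.m1 := mul_pos hνq hmq
      push_cast
      linarith
    · have h3 : ((c : ℚ) - 1) * N < ν * C := by exact_mod_cast hineq h
      have h4 : (0 : ℚ) ≤ ν * (s.m1 : ℚ) := by positivity
      linarith
  -- multiply the goal by `N`
  have h5 : s₀ = -(ν : ℚ) / N := by
    field_simp
    linarith
  by_contra hcon
  push Not at hcon
  have h6 : (1 : ℚ) * N ≤ ((c : ℚ) + s₀ * ((C : ℚ) + s.m1)) * N :=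
    mul_le_mul_of_nonneg_right hcon hN.le
  have h7 : ((c : ℚ) + s₀ * ((C : ℚ) + s.m1)) * N =
      (c : ℚ) * N + (s₀ * N) * ((C : ℚ) + s.m1) := by ring
  have h8 : s₀ * N = -(ν : ℚ) := by linarith
  rw [h7, h8] at h6
  linarith

private theorem al_dir_cases (s₀ : ℚ) (s : Str r) (N ν C c : ℕ) (hW : s.WF N C)
    (hC : C = 0 → c = 1) (hi : iss s₀ (N, ν)) (hν : 0 < ν)
    (hineq : 0 < C → ((c : ℤ) - 1) * N < ν * C) :
    (s.dv C = 0 ∧ al s₀ (s.j1 N ν C c) = 1) ∨ (s.dv C = 1 ∧ al s₀ (s.j1 N ν C c) < 1) := by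
  rcases dv_cases s C with h | h
  · left
    obtain ⟨h1, h2⟩ := dv_zero_j1 h N ν c
    refine ⟨h, ?_⟩
    rw [h2, hC h1]
    simp [al]
  · exact Or.inr ⟨h, al_lt_one s₀ s N ν C c hW hC hi hν hineq h⟩

private theorem data {μ n : ℕ} {lab : Lab r} {s0 si : Str r} {fr : Fin n → Str r}
    {A a B b : ℕ} (s₀ : ℚ) (hX : (Str.node μ lab s0 si n fr).WF A B)
    (h1 : Iv A a (Str.node μ lab s0 si n fr).m1 B b)
    (h2 : Iv B b (Str.node μ lab s0 si n fr).m2 A a)
    (hi : iss s₀ (A + B + μ, a + b)) :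
    ((s0.dv B = 0 ∧ al s₀ (s0.j1 (A + B + μ) (a + b) B b) = 1) ∨
      (s0.dv B = 1 ∧ al s₀ (s0.j1 (A + B + μ) (a + b) B b) < 1)) ∧
    ((si.dv A = 0 ∧ al s₀ (si.j1 (A + B + μ) (a + b) A a) = 1) ∨
      (si.dv A = 1 ∧ al s₀ (si.j1 (A + B + μ) (a + b) A a) < 1)) ∧
    (∀ i, al s₀ ((fr i).j1 (A + B + μ) (a + b) 0 1) < 1) := by
  obtain ⟨hμ, hle, heq, hfr, hW0, hWi, hWf⟩ := hX
  have ha : A = 0 → a = 1 := by
    intro h
    rcases h1 with h1 | h1
    · exact h1.2
    · omega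
  have hb : B = 0 → b = 1 := by
    intro h
    rcases h2 with h2 | h2
    · exact h2.2
    · omega
  have ha1 : 1 ≤ a := by
    rcases h1 with h1 | h1
    · omega
    · exact h1.2.1
  have hb1 : 1 ≤ b := by
    rcases h2 with h2 | h2
    · omega
    · exact h2.2.1
  have hν : 0 < a + b := by omega
  refine ⟨?_, ?_, ?_⟩
  · apply al_dir_cases s₀ s0 _ _ B b hW0 hb hi hν
    intro hB
    rcases h2 with h2 | h2
    · omega
    · have h3 := h2.2.2.2
      simp only [Str.m2] at h3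
      push_cast at h3 ⊢
      have hb1z : (0 : ℤ) ≤ (b : ℤ) - 1 := by
        have : (1 : ℤ) ≤ b := by exact_mod_cast hb1
        linarith
      have h4 : (0 : ℤ) ≤ ((b : ℤ) - 1) * (s0.m2 : ℤ) := by positivity
      nlinarith
  · apply al_dir_cases s₀ si _ _ A a hWi ha hi hν
    intro hA
    rcases h1 with h1 | h1
    · omega
    · have h3 := h1.2.2.2
      simp only [Str.m1] at h3
      push_cast at h3 ⊢
      have ha1z : (0 : ℤ) ≤ (a : ℤ) - 1 := by
        have : (1 : ℤ) ≤ a := by exact_mod_cast ha1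
        linarith
      have h4 : (0 : ℤ) ≤ ((a : ℤ) - 1) * (si.m2 : ℤ) := by positivity
      nlinarith
  · intro i
    have hd : (fr i).dv 0 = 1 := by
      rcases dv_cases (fr i) 0 with h | h
      · exfalso
        have hm := hfr i
        cases hc : fr i with
        | triv => rw [hc] at hm; simp [Str.m1] at hm
        | strict M => rw [hc] at h; simp [Str.dv] at h
        | node μ' lab' s0' si' n' fr' => rw [hc] at h; simp [Str.dv] at h
      · exact h
    exact al_lt_one s₀ (fr i) _ _ 0 1 (hWf i) (fun _ => rfl) hi hν (fun h => by omega) hd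

private theorem iss_of_int {s₀ : ℚ} {c : ℕ × ℕ} (hg : gd s₀ c.1) (h1 : al s₀ c < 1)
    (h2 : -1 < al s₀ c) : iss s₀ c := by
  obtain ⟨hp, z, hz⟩ := hg
  refine ⟨hp, ?_⟩
  simp only [al] at h1 h2
  rw [hz] at h1 h2 ⊢
  have h3 : ((c.2 : ℤ) + z) < 1 := by exact_mod_cast h1
  have h4 : -1 < ((c.2 : ℤ) + z) := by exact_mod_cast h2
  have h5 : ((c.2 : ℤ) + z) = 0 := by omega
  exact_mod_cast h5

private theorem not_iss_of_al {s₀ : ℚ} {c : ℕ × ℕ} (h : al s₀ c ≠ 0) : ¬ iss s₀ c :=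
  fun hi => h hi.2

/-- the sum of the numbers `α` -/
theorem al_sum {μ n : ℕ} {lab : Lab r} {s0 si : Str r} {fr : Fin n → Str r} {A a B b : ℕ}
    (s₀ : ℚ) (hX : (Str.node μ lab s0 si n fr).WF A B)
    (h1 : Iv A a (Str.node μ lab s0 si n fr).m1 B b)
    (h2 : Iv B b (Str.node μ lab s0 si n fr).m2 A a) (hl : lab.isLeft = true)
    (hi : iss s₀ (A + B + μ, a + b)) :
    al s₀ (s0.j1 (A + B + μ) (a + b) B b) + al s₀ (si.j1 (A + B + μ) (a + b) A a) +
      ∑ i, al s₀ ((fr i).j1 (A + B + μ) (a + b) 0 1) = n := by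
  obtain ⟨hμ, hle, heq, hfr, hW0, hWi, hWf⟩ := hX
  have ha : A = 0 → a = 1 := by
    intro h
    rcases h1 with h1 | h1
    · exact h1.2
    · omega
  have hb : B = 0 → b = 1 := by
    intro h
    rcases h2 with h2 | h2
    · exact h2.2
    · omega
  have hm := heq hl
  have hmq : (s0.m1 : ℚ) + si.m1 + ∑ i, ((fr i).m1 : ℚ) = μ := by exact_mod_cast hm
  rw [al_dir s₀ s0 _ _ B b hW0 hb hi, al_dir s₀ si _ _ A a hWi ha hi,
    Finset.sum_congr rfl (fun i _ => al_dir s₀ (fr i) _ _ 0 1 (hWf i) (fun _ => rfl) hi)]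
  have h3 : ((a + b : ℕ) : ℚ) + s₀ * ((A + B + μ : ℕ) : ℚ) = 0 := hi.2
  rw [Finset.sum_add_distrib, ← Finset.mul_sum]
  push_cast at h3 ⊢
  simp only [Finset.sum_const, Finset.card_univ, Fintype.card_fin, nsmul_eq_mul, mul_one,
    zero_add]
  linear_combination h3 + s₀ * hmq

/-- a curve has a neighbour -/
theorem val_pos {μ n : ℕ} {lab : Lab r} {s0 si : Str r} {fr : Fin n → Str r} {A a B b : ℕ}
    (s₀ : ℚ) (hX : (Str.node μ lab s0 si n fr).WF A B)
    (h1 : Iv A a (Str.node μ lab s0 si n fr).m1 B b)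
    (h2 : Iv B b (Str.node μ lab s0 si n fr).m2 A a) (hl : lab.isLeft = true)
    (hi : iss s₀ (A + B + μ, a + b)) : 1 ≤ n + s0.dv B + si.dv A := by
  obtain ⟨d0, d1, d2⟩ := data s₀ hX h1 h2 hi
  exact (num_all _ _ _ _ _ (al_sum s₀ hX h1 h2 hl hi) d0 d1 d2).1

/-- if there is only one neighbour it does not give the same candidate pole -/
theorem no_iss_of_val_one {μ n : ℕ} {lab : Lab r} {s0 si : Str r} {fr : Fin n → Str r}
    {A a B b : ℕ} (s₀ : ℚ) (hX : (Str.node μ lab s0 si n fr).WF A B)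
    (h1 : Iv A a (Str.node μ lab s0 si n fr).m1 B b)
    (h2 : Iv B b (Str.node μ lab s0 si n fr).m2 A a) (hl : lab.isLeft = true)
    (hi : iss s₀ (A + B + μ, a + b)) (hv : n + s0.dv B + si.dv A = 1) :
    ¬ iss s₀ (s0.j1 (A + B + μ) (a + b) B b) ∧ ¬ iss s₀ (si.j1 (A + B + μ) (a + b) A a) ∧
      ∀ i, ¬ iss s₀ ((fr i).j1 (A + B + μ) (a + b) 0 1) := by
  obtain ⟨d0, d1, d2⟩ := data s₀ hX h1 h2 hi
  obtain ⟨e0, e1, e2⟩ := (num_all _ _ _ _ _ (al_sum s₀ hX h1 h2 hl hi) d0 d1 d2).2.1 hv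
  exact ⟨not_iss_of_al e0, not_iss_of_al e1, fun i => not_iss_of_al (e2 i)⟩

/-- if there are at least two neighbours the good ones give the same candidate pole -/
theorem iss_of_gd {μ n : ℕ} {lab : Lab r} {s0 si : Str r} {fr : Fin n → Str r}
    {A a B b : ℕ} (s₀ : ℚ) (hX : (Str.node μ lab s0 si n fr).WF A B)
    (h1 : Iv A a (Str.node μ lab s0 si n fr).m1 B b)
    (h2 : Iv B b (Str.node μ lab s0 si n fr).m2 A a) (hl : lab.isLeft = true)
    (hi : iss s₀ (A + B + μ, a + b)) (hv : 2 ≤ n + s0.dv B + si.dv A) :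
    (gd s₀ (s0.j1 (A + B + μ) (a + b) B b).1 → iss s₀ (s0.j1 (A + B + μ) (a + b) B b)) ∧
      (gd s₀ (si.j1 (A + B + μ) (a + b) A a).1 → iss s₀ (si.j1 (A + B + μ) (a + b) A a)) ∧
      ∀ i, gd s₀ ((fr i).j1 (A + B + μ) (a + b) 0 1).1 →
        iss s₀ ((fr i).j1 (A + B + μ) (a + b) 0 1) := by
  obtain ⟨d0, d1, d2⟩ := data s₀ hX h1 h2 hi
  obtain ⟨e0, e1, e2⟩ := (num_all _ _ _ _ _ (al_sum s₀ hX h1 h2 hl hi) d0 d1 d2).2.2 hv
  refine ⟨fun hg => ?_, fun hg => ?_, fun i hg => iss_of_int hg (d2 i) (e2 i)⟩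
  · rcases d0 with ⟨h0, _⟩ | ⟨h0, h0'⟩
    · rw [(dv_zero_j1 h0 (A + B + μ) (a + b) b).2] at hg
      exact absurd hg.1 (lt_irrefl 0)
    · exact iss_of_int hg h0' (e0 h0)
  · rcases d1 with ⟨h0, _⟩ | ⟨h0, h0'⟩
    · rw [(dv_zero_j1 h0 (A + B + μ) (a + b) a).2] at hg
      exact absurd hg.1 (lt_irrefl 0)
    · exact iss_of_int hg h0' (e1 h0)

end TV
end MotMono
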