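import Pool.Agent.Lib.MP_4e5fcd_ag.TV.Str

/-!
# TV-D4: counting edges

`TT s₀ X` sums `own = 2 (good neighbours through non-trivial trees) + (bad neighbours) - 2` over
the good curves. Proof of `dd_eq` by induction on `X` (generalising `A a B b`):
* `triv`: `0 = 0`. `strict M`: `j1 = (M, 1)` is not good by `NG`, `B = 0` by `WF`.
* `node`: for a subtree `s` with second line `(C, c)`:
  `dv s C = db s C nb + dg s nb + [s = triv and C good]`, `nb = (j1 s N ν C c).1` (`gd s₀ C`
  includes `C > 0`; if `s = triv`, `nb = C`; a good `nb` of a `strict M` does not matter here: it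
  is counted in `dg`). So, with `val = n + dv s0 B + dv si A` (`dv (fr i) 0 = 1`: `fr i` is not
  `triv` because `0 < m1 (fr i)`),
  `val - 2 = own - (sum of the dg) + [s0 = triv, B good] + [si = triv, A good]`.
  Induction hypothesis for `s`:
  `D s = TT s + [s not triv] ([N good, j1 s good] + [C good, j2 s good])`
  and `[s not triv] [N good, j1 s good] = [N good] dg s nb`. The terms `dg` cancel; for
  `s0 = triv`: `j2 s0 = (N, ν)`, so in all cases what remains is `[B good, j2 s0 good]` and
  `[A good, j2 si good]` (for `fr i`: `C = 0` is not good), and `j2 X = j2 s0`, `j1 X = j2 si`.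
-/

namespace MotMono
namespace TV

variable {r : ℕ}

open Classical in
/-- contribution of the two lines -/
noncomputable def ee (s₀ : ℚ) : Str r → ℕ → ℕ → ℕ → ℕ → ℤ
  | .triv, _, _, _, _ => 0
  | .strict _, _, _, _, _ => 0
  | .node μ lab s0 si n fr, A, a, B, b =>
      (if gd s₀ A ∧ gd s₀ ((Str.node μ lab s0 si n fr).j1 A a B b).1 then 1 else 0) +
      (if gd s₀ B ∧ gd s₀ ((Str.node μ lab s0 si n fr).j2 A a B b).1 then 1 else 0)

private theorem not_gd_zero (s₀ : ℚ) : ¬ gd s₀ 0 := fun h => lt_irrefl _ h.1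

open Classical in
/-- the contribution of one direction -/
private theorem dir_eq (s₀ : ℚ) (s : Str r) (N ν C c : ℕ) (hW : s.WF N C) (hG : NG s₀ s N C) :
    (if gd s₀ N then ((s.dv C : ℕ) : ℤ) else 0) + ee s₀ s N ν C c =
      (if gd s₀ N then 2 * dg s₀ s (s.j1 N ν C c).1 + db s₀ s C (s.j1 N ν C c).1 else 0) +
        (if gd s₀ C ∧ gd s₀ (s.j2 N ν C c).1 then 1 else 0) := by
  cases s with
  | triv =>
    simp only [ee, dg, db, Str.dv, Str.j1, Str.j2, mul_zero, zero_add, add_zero]
    by_cases hC : C = 0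
    · subst hC
      simp [not_gd_zero]
    · by_cases h1 : gd s₀ N <;> by_cases h2 : gd s₀ C <;> simp [h1, h2, hC]
  | strict M =>
    simp only [Str.WF] at hW
    simp only [NG] at hG
    obtain ⟨-, rfl⟩ := hW
    simp [ee, dg, db, Str.dv, Str.j1, Str.j2, hG, not_gd_zero]
  | node μ lab s0 si n fr =>
    simp only [ee, dg, db, Str.dv]
    by_cases h1 : gd s₀ N <;>
      by_cases h2 : gd s₀ ((Str.node μ lab s0 si n fr).j1 N ν C c).1 <;> simp [h1, h2] <;> ring

open Classical in
theorem dd_eq (s₀ : ℚ) (X : Str r) (A a B b : ℕ) (hX : X.WF A B) (hG : NG s₀ X A B) :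
    ((X.nds A a B b).map fun e => if gd s₀ e.N then (e.val : ℤ) - 2 else 0).sum =
      TT s₀ X A a B b + ee s₀ X A a B b := by
  induction X generalizing A a B b with
  | triv => simp [Str.nds, TT, ee]
  | strict M => simp [Str.nds, TT, ee]
  | node μ lab s0 si n fr ih0 ihi ihf =>
    have hX' := hX
    have hG' := hG
    simp only [Str.WF] at hX'
    simp only [NG] at hG'
    obtain ⟨hμ, -, -, hpos, hW0, hWi, hWf⟩ := hX'
    obtain ⟨-, hG0, hGi, hGf⟩ := hG'
    have e0 := ih0 (A + B + μ) (a + b) B b hW0 hG0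
    have ei := ihi (A + B + μ) (a + b) A a hWi hGi
    have ef := fun i => ihf i (A + B + μ) (a + b) 0 1 (hWf i) (hGf i)
    have d0 := dir_eq s₀ s0 (A + B + μ) (a + b) B b hW0 hG0
    have di := dir_eq s₀ si (A + B + μ) (a + b) A a hWi hGi
    have df := fun i => dir_eq s₀ (fr i) (A + B + μ) (a + b) 0 1 (hWf i) (hGf i)
    have hdv : ∀ i, (fr i).dv 0 = 1 := by
      intro i
      have h := hpos i
      cases hfi : fr i with
      | triv => rw [hfi] at h; simp [Str.m1] at h
      | strict M => rfl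
      | node _ _ _ _ _ _ => rfl
    have hfz : ∀ i, (if gd s₀ 0 ∧ gd s₀ ((fr i).j2 (A + B + μ) (a + b) 0 1).1 then (1 : ℤ) else 0) = 0 :=
      fun i => if_neg fun h => not_gd_zero s₀ h.1
    have hS : ((∑ i, (fr i).nds (A + B + μ) (a + b) 0 1).map
        fun e => if gd s₀ e.N then (e.val : ℤ) - 2 else 0).sum =
        ∑ i, (TT s₀ (fr i) (A + B + μ) (a + b) 0 1 + ee s₀ (fr i) (A + B + μ) (a + b) 0 1) := by
      have h1 : ∀ t : Multiset (Nd r), (t.map fun e => if gd s₀ e.N then (e.val : ℤ) - 2 else 0).sum =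
          (AddMonoidHom.comp (Multiset.sumAddMonoidHom (M := ℤ)) (Multiset.mapAddMonoidHom
            (fun e : Nd r => if gd s₀ e.N then (e.val : ℤ) - 2 else 0))) t := fun t => rfl
      rw [h1, map_sum]
      refine Finset.sum_congr rfl fun i _ => ?_
      rw [← h1]
      exact ef i
    have hSd : ∑ i, ee s₀ (fr i) (A + B + μ) (a + b) 0 1 =
        if gd s₀ (A + B + μ) then ∑ i, (2 * dg s₀ (fr i) ((fr i).j1 (A + B + μ) (a + b) 0 1).1 +
          db s₀ (fr i) 0 ((fr i).j1 (A + B + μ) (a + b) 0 1).1) - n else 0 := by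
      have h2 : ∀ i, ee s₀ (fr i) (A + B + μ) (a + b) 0 1 =
          (if gd s₀ (A + B + μ) then (2 * dg s₀ (fr i) ((fr i).j1 (A + B + μ) (a + b) 0 1).1 +
          db s₀ (fr i) 0 ((fr i).j1 (A + B + μ) (a + b) 0 1).1) - 1 else 0) := by
        intro i
        have h3 := df i
        rw [hfz i, hdv i, add_zero] at h3
        split_ifs at h3 ⊢ with h4
        · push_cast at h3
          linarith
        · linarith
      rw [Finset.sum_congr rfl fun i _ => h2 i]
      split_ifs
      · rw [Finset.sum_sub_distrib]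
        simp
      · simp
    simp only [Str.nds, Multiset.map_add, Multiset.sum_add, Multiset.map_singleton,
      Multiset.sum_singleton]
    rw [e0, ei, hS, Finset.sum_add_distrib, hSd]
    have hee : ee s₀ (Str.node μ lab s0 si n fr) A a B b =
        (if gd s₀ A ∧ gd s₀ (si.j2 (A + B + μ) (a + b) A a).1 then 1 else 0) +
        (if gd s₀ B ∧ gd s₀ (s0.j2 (A + B + μ) (a + b) B b).1 then 1 else 0) := rfl
    have hTT : TT s₀ (Str.node μ lab s0 si n fr) A a B b =
      (if gd s₀ (A + B + μ) then own s₀ s0 si fr (A + B + μ) (a + b) A a B b else 0) +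
        TT s₀ s0 (A + B + μ) (a + b) B b + TT s₀ si (A + B + μ) (a + b) A a +
        ∑ i, TT s₀ (fr i) (A + B + μ) (a + b) 0 1 := rfl
    rw [hee, hTT]
    by_cases hg : gd s₀ (A + B + μ)
    · simp only [if_pos hg] at d0 di ⊢
      unfold own
      rw [Finset.sum_add_distrib, ← Finset.mul_sum]
      push_cast
      linarith
    · simp only [if_neg hg] at d0 di ⊢
      linarith

end TV
end MotMono
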