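import Pool.Agent.Lib.MP_4e5fcd_ag.TV.D1
import Pool.Agent.Lib.MP_4e5fcd_ag.TV.D4

/-!
# TV-D5: the terms of `TT` are not negative

Let `X` be a node, `N = A + B + μ` good, so `lab.isLeft` (`NG`) and `∑ m1 = μ` (`WF`).
* By D1 the sum over all directions of `(j1 s).1 = C + k_s N + m1 s` is
  `B + A + μ + N ∑ k_s = N (1 + ∑ k_s)`. So the sum of the numbers `s₀ (j1 s).1` is an integer, and
  it is impossible that exactly one of them is not an integer. A direction with
  `s₀ (j1 s).1` not an integer is real (otherwise `(j1 s).1 = 0`) and bad, `db = 1`; conversely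
  `db = 1` means real and not good, i.e. (as `(j1 s).1 > 0` for real directions: `C > 0`, or
  `m1 s > 0`) `s₀ (j1 s).1` is not an integer. Hence the sum `∑ db ≠ 1`.
* If `∑ db = 0` and `∑ dg = 0`: then all directions are `triv` (a non-trivial tree is real, with
  neighbour good (`dg = 1`) or bad (`db = 1`)), so all `m1` are `0` and `μ = 0`, contradiction.
* `own = 2 ∑ dg + ∑ db - 2`, with `∑ dg, ∑ db ≥ 0`: so `own ≥ 0`, and `own = 0` only if
  `(∑ dg, ∑ db) = (0, 2)` or `(1, 0)`.
`TT_nonneg`, `TT_zero`: induction (the hypotheses pass to the subtrees; a new curve has `N > 0`).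
-/

namespace MotMono
namespace TV

variable {r : ℕ}

private theorem dg_nn (s₀ : ℚ) (s : Str r) (N : ℕ) : 0 ≤ dg s₀ s N := by
  cases s <;> simp only [dg] <;> (try split_ifs) <;> norm_num

private theorem dv_01 (s : Str r) (C : ℕ) : s.dv C = 0 ∨ s.dv C = 1 := by
  cases s <;> simp only [Str.dv] <;> (try split_ifs) <;> simp

private theorem db_01 (s₀ : ℚ) (s : Str r) (C N : ℕ) : db s₀ s C N = 0 ∨ db s₀ s C N = 1 := by
  unfold db
  rcases dv_01 s C with h | h <;> rw [h] <;> split_ifs <;> simp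

private theorem triv_of (s₀ : ℚ) (s : Str r) (C N : ℕ) (h1 : dg s₀ s N = 0) (h2 : db s₀ s C N = 0) :
    s = .triv := by
  cases s with
  | triv => rfl
  | strict M =>
    exfalso
    simp only [dg, db, Str.dv] at h1 h2
    by_cases h3 : gd s₀ N
    · rw [if_pos h3] at h1
      exact one_ne_zero h1
    · rw [if_neg h3] at h2
      norm_num at h2
  | node μ lab s0 si n fr =>
    exfalso
    simp only [dg, db, Str.dv] at h1 h2
    by_cases h3 : gd s₀ N
    · rw [if_pos h3] at h1
      exact one_ne_zero h1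
    · rw [if_neg h3] at h2
      norm_num at h2

/-- the additive group of the integers in `ℚ` -/
private def HZ : AddSubgroup ℚ := (Int.castAddHom ℚ).range

private theorem mem_HZ {x : ℚ} : x ∈ HZ ↔ ∃ z : ℤ, x = z := by
  unfold HZ
  rw [AddMonoidHom.mem_range]
  constructor
  · rintro ⟨z, hz⟩
    exact ⟨z, hz.symm⟩
  · rintro ⟨z, hz⟩
    exact ⟨z, hz.symm⟩

private theorem int_of_db (s₀ : ℚ) (s : Str r) (N ν C c : ℕ)
    (h : db s₀ s C (s.j1 N ν C c).1 = 0) : s₀ * ((s.j1 N ν C c).1 : ℚ) ∈ HZ := by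
  rw [mem_HZ]
  by_cases hg : gd s₀ (s.j1 N ν C c).1
  · exact hg.2
  · unfold db at h
    rw [if_neg hg, mul_one] at h
    have h0 : s.dv C = 0 := by exact_mod_cast h
    cases s with
    | triv =>
      simp only [Str.dv] at h0
      split_ifs at h0 with h3
      subst h3
      exact ⟨0, by simp [Str.j1]⟩
    | strict M => simp [Str.dv] at h0
    | node _ _ _ _ _ _ => simp [Str.dv] at h0

private theorem pos_of_dv (s : Str r) (N ν C c : ℕ) (hW : s.WF N C) (hc : C = 0 → c = 1)
    (h : s.dv C ≠ 0) : 0 < (s.j1 N ν C c).1 := by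
  obtain ⟨k, hk⟩ := j1_eq s N ν C c hW hc
  rw [hk]
  show 0 < C + k * N + s.m1
  by_cases hC : C = 0
  · have hm : 0 < s.m1 := by
      cases s with
      | triv => exact absurd (by simp [Str.dv, hC]) h
      | strict M =>
        simp only [Str.WF] at hW
        exact hW.1
      | node μ lab s0 si n fr =>
        simp only [Str.WF] at hW
        simp only [Str.m1]
        omega
    omega
  · have : 0 < C := Nat.pos_of_ne_zero hC
    omega

private theorem not_int_of_db (s₀ : ℚ) (s : Str r) (N ν C c : ℕ) (hW : s.WF N C)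
    (hc : C = 0 → c = 1) (h : db s₀ s C (s.j1 N ν C c).1 ≠ 0) :
    s₀ * ((s.j1 N ν C c).1 : ℚ) ∉ HZ := by
  intro hz
  rw [mem_HZ] at hz
  apply h
  unfold db
  by_cases hd : s.dv C = 0
  · rw [hd]
    simp
  · rw [if_pos ⟨pos_of_dv s N ν C c hW hc hd, hz⟩, mul_zero]

theorem own_nonneg {s₀ : ℚ} {μ n : ℕ} {lab : Lab r} {s0 si : Str r} {fr : Fin n → Str r}
    {A a B b : ℕ} (hX : (Str.node μ lab s0 si n fr).WF A B)
    (hG : NG s₀ (Str.node μ lab s0 si n fr) A B) (ha : A = 0 → a = 1) (hb : B = 0 → b = 1)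
    (hN : gd s₀ (A + B + μ)) :
    0 ≤ own s₀ s0 si fr (A + B + μ) (a + b) A a B b ∧
    (own s₀ s0 si fr (A + B + μ) (a + b) A a B b = 0 →
      (dg s₀ s0 (s0.j1 (A + B + μ) (a + b) B b).1 + dg s₀ si (si.j1 (A + B + μ) (a + b) A a).1 +
          ∑ i, dg s₀ (fr i) ((fr i).j1 (A + B + μ) (a + b) 0 1).1 = 0 ∧
        db s₀ s0 B (s0.j1 (A + B + μ) (a + b) B b).1 +
          db s₀ si A (si.j1 (A + B + μ) (a + b) A a).1 +
          ∑ i, db s₀ (fr i) 0 ((fr i).j1 (A + B + μ) (a + b) 0 1).1 = 2) ∨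
      (dg s₀ s0 (s0.j1 (A + B + μ) (a + b) B b).1 + dg s₀ si (si.j1 (A + B + μ) (a + b) A a).1 +
          ∑ i, dg s₀ (fr i) ((fr i).j1 (A + B + μ) (a + b) 0 1).1 = 1 ∧
        db s₀ s0 B (s0.j1 (A + B + μ) (a + b) B b).1 +
          db s₀ si A (si.j1 (A + B + μ) (a + b) A a).1 +
          ∑ i, db s₀ (fr i) 0 ((fr i).j1 (A + B + μ) (a + b) 0 1).1 = 0)) := by
  simp only [Str.WF] at hX
  simp only [NG] at hG
  obtain ⟨hμ, -, hl, hpos, hW0, hWi, hWf⟩ := hX
  obtain ⟨hL, -, -, -⟩ := hG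
  have hsum := hl (hL hN)
  set N : ℕ := A + B + μ with hNdef
  -- notation
  set g0 := dg s₀ s0 (s0.j1 N (a + b) B b).1 with hg0
  set gi := dg s₀ si (si.j1 N (a + b) A a).1 with hgi
  set gf : Fin n → ℤ := fun i => dg s₀ (fr i) ((fr i).j1 N (a + b) 0 1).1 with hgf
  set d0 := db s₀ s0 B (s0.j1 N (a + b) B b).1 with hd0
  set di := db s₀ si A (si.j1 N (a + b) A a).1 with hdi
  set df : Fin n → ℤ := fun i => db s₀ (fr i) 0 ((fr i).j1 N (a + b) 0 1).1 with hdf
  have hown : own s₀ s0 si fr N (a + b) A a B b =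
      2 * (g0 + gi + ∑ i, gf i) + (d0 + di + ∑ i, df i) - 2 := rfl
  have p0 : 0 ≤ g0 := dg_nn _ _ _
  have pi : 0 ≤ gi := dg_nn _ _ _
  have pf : ∀ i, 0 ≤ gf i := fun i => dg_nn _ _ _
  have q0 : d0 = 0 ∨ d0 = 1 := db_01 _ _ _ _
  have qi : di = 0 ∨ di = 1 := db_01 _ _ _ _
  have qf : ∀ i, df i = 0 ∨ df i = 1 := fun i => db_01 _ _ _ _
  have qf' : ∀ i, 0 ≤ df i := fun i => by rcases qf i with h | h <;> omega
  have pS : 0 ≤ ∑ i, gf i := Finset.sum_nonneg fun i _ => pf i
  have qS : 0 ≤ ∑ i, df i := Finset.sum_nonneg fun i _ => qf' i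
  -- not both zero
  have hc : ¬ (g0 + gi + ∑ i, gf i = 0 ∧ d0 + di + ∑ i, df i = 0) := by
    rintro ⟨e1, e2⟩
    have a0 : g0 = 0 := by omega
    have ai : gi = 0 := by omega
    have aS : ∑ i, gf i = 0 := by omega
    have b0 : d0 = 0 := by rcases q0 with h | h <;> rcases qi with h' | h' <;> omega
    have bi : di = 0 := by rcases q0 with h | h <;> rcases qi with h' | h' <;> omega
    have bS : ∑ i, df i = 0 := by rcases q0 with h | h <;> rcases qi with h' | h' <;> omega
    have af := (Finset.sum_eq_zero_iff_of_nonneg fun i _ => pf i).1 aS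
    have bf := (Finset.sum_eq_zero_iff_of_nonneg fun i _ => qf' i).1 bS
    have t0 : s0 = .triv := triv_of s₀ s0 B _ a0 b0
    have ti : si = .triv := triv_of s₀ si A _ ai bi
    have tf : ∀ i, (fr i).m1 = 0 := fun i => by
      have := triv_of s₀ (fr i) 0 _ (af i (Finset.mem_univ i)) (bf i (Finset.mem_univ i))
      rw [this]
      rfl
    rw [t0, ti, Finset.sum_eq_zero fun i _ => tf i] at hsum
    simp only [Str.m1] at hsum
    omega
  -- the sum of the `db` is not 1
  have hb1 : d0 + di + ∑ i, df i ≠ 1 := by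
    intro h1
    obtain ⟨k0, hk0⟩ := j1_eq s0 N (a + b) B b hW0 hb
    obtain ⟨ki, hki⟩ := j1_eq si N (a + b) A a hWi ha
    have hkf : ∀ i, ∃ k : ℕ, ((fr i).j1 N (a + b) 0 1).1 = 0 + k * N + (fr i).m1 := fun i => by
      obtain ⟨k, hk⟩ := j1_eq (fr i) N (a + b) 0 1 (hWf i) (fun _ => rfl)
      exact ⟨k, by rw [hk]⟩
    choose kf hkf using hkf
    have hk0' : (s0.j1 N (a + b) B b).1 = B + k0 * N + s0.m1 := by rw [hk0]
    have hki' : (si.j1 N (a + b) A a).1 = A + ki * N + si.m1 := by rw [hki]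
    set x0 : ℚ := s₀ * ((s0.j1 N (a + b) B b).1 : ℚ) with hx0
    set xi : ℚ := s₀ * ((si.j1 N (a + b) A a).1 : ℚ) with hxi
    set xf : Fin n → ℚ := fun i => s₀ * (((fr i).j1 N (a + b) 0 1).1 : ℚ) with hxf
    have htot : x0 + xi + ∑ i, xf i ∈ HZ := by
      obtain ⟨-, z, hz⟩ := hN
      rw [mem_HZ]
      refine ⟨z * (1 + k0 + ki + ∑ i, (kf i : ℤ)), ?_⟩
      have e1 : x0 + xi + ∑ i, xf i = s₀ * (((s0.j1 N (a + b) B b).1 + (si.j1 N (a + b) A a).1 +
          ∑ i, ((fr i).j1 N (a + b) 0 1).1 : ℕ) : ℚ) := by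
        simp only [hx0, hxi, hxf]
        rw [← Finset.mul_sum]
        push_cast
        ring
      have e2 : (s0.j1 N (a + b) B b).1 + (si.j1 N (a + b) A a).1 +
          ∑ i, ((fr i).j1 N (a + b) 0 1).1 = N * (1 + k0 + ki + ∑ i, kf i) := by
        rw [hk0', hki', Finset.sum_congr rfl fun i _ => hkf i, Finset.sum_add_distrib,
          Finset.sum_add_distrib, ← Finset.sum_mul]
        have e3 : N = A + B + (s0.m1 + si.m1 + ∑ i, (fr i).m1) := by rw [hsum]
        have e4 : B + k0 * N + s0.m1 + (A + ki * N + si.m1) +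
            (∑ _i : Fin n, 0 + (∑ i, kf i) * N + ∑ i, (fr i).m1) =
            (A + B + (s0.m1 + si.m1 + ∑ i, (fr i).m1)) + (k0 + ki + ∑ i, kf i) * N := by
          simp only [Finset.sum_const_zero]
          ring
        rw [e4, ← e3]
        ring
      rw [e1, e2]
      push_cast
      rw [← mul_assoc, hz]
    have i0 : d0 = 0 → x0 ∈ HZ := fun h => int_of_db s₀ s0 N (a + b) B b h
    have ii : di = 0 → xi ∈ HZ := fun h => int_of_db s₀ si N (a + b) A a h
    have jf : ∀ i, df i = 0 → xf i ∈ HZ := fun i h => int_of_db s₀ (fr i) N (a + b) 0 1 h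
    have n0 : d0 = 1 → x0 ∉ HZ := fun h =>
      not_int_of_db s₀ s0 N (a + b) B b hW0 hb (by rw [← hd0, h]; norm_num)
    have ni : di = 1 → xi ∉ HZ := fun h =>
      not_int_of_db s₀ si N (a + b) A a hWi ha (by rw [← hdi, h]; norm_num)
    have nf : ∀ i, df i = 1 → xf i ∉ HZ := fun i h =>
      not_int_of_db s₀ (fr i) N (a + b) 0 1 (hWf i) (fun _ => rfl) (by
        have : db s₀ (fr i) 0 ((fr i).j1 N (a + b) 0 1).1 = 1 := h
        rw [this]; norm_num)
    rcases q0 with h0 | h0
    · rcases qi with h' | h'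
      · -- one of the free directions
        have hS1 : ∑ i, df i = 1 := by omega
        have hex : ∃ i, df i ≠ 0 := by
          by_contra hcon
          push Not at hcon
          rw [Finset.sum_eq_zero fun i _ => hcon i] at hS1
          omega
        obtain ⟨i, hi⟩ := hex
        have hi1 : df i = 1 := by rcases qf i with h | h; exact absurd h hi; exact h
        have hse := Finset.add_sum_erase Finset.univ df (Finset.mem_univ i)
        have hz : ∑ j ∈ Finset.univ.erase i, df j = 0 := by omega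
        have hz' := (Finset.sum_eq_zero_iff_of_nonneg fun j _ => qf' j).1 hz
        have hxe := Finset.add_sum_erase Finset.univ xf (Finset.mem_univ i)
        have hrest : ∑ j ∈ Finset.univ.erase i, xf j ∈ HZ :=
          AddSubgroup.sum_mem _ fun j hj => jf j (hz' j hj)
        refine nf i hi1 ?_
        have e5 : xf i = (x0 + xi + ∑ i, xf i) - x0 - xi - ∑ j ∈ Finset.univ.erase i, xf j := by
          rw [← hxe]; ring
        rw [e5]
        exact AddSubgroup.sub_mem _ (AddSubgroup.sub_mem _ (AddSubgroup.sub_mem _ htot (i0 h0))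
          (ii h')) hrest
      · have hz : ∑ j, df j = 0 := by omega
        have hz' := (Finset.sum_eq_zero_iff_of_nonneg fun j _ => qf' j).1 hz
        have hrest : ∑ j, xf j ∈ HZ := AddSubgroup.sum_mem _ fun j hj => jf j (hz' j hj)
        refine ni h' ?_
        have e5 : xi = (x0 + xi + ∑ i, xf i) - x0 - ∑ j, xf j := by ring
        rw [e5]
        exact AddSubgroup.sub_mem _ (AddSubgroup.sub_mem _ htot (i0 h0)) hrest
    · have h' : di = 0 := by rcases qi with h | h; exact h; omega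
      have hz : ∑ j, df j = 0 := by omega
      have hz' := (Finset.sum_eq_zero_iff_of_nonneg fun j _ => qf' j).1 hz
      have hrest : ∑ j, xf j ∈ HZ := AddSubgroup.sum_mem _ fun j hj => jf j (hz' j hj)
      refine n0 h0 ?_
      have e5 : x0 = (x0 + xi + ∑ i, xf i) - xi - ∑ j, xf j := by ring
      rw [e5]
      exact AddSubgroup.sub_mem _ (AddSubgroup.sub_mem _ htot (ii h')) hrest
  have hq0 : 0 ≤ d0 := by rcases q0 with h | h <;> omega
  have hqi : 0 ≤ di := by rcases qi with h | h <;> omega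
  rw [hown]
  have eg : Finset.univ.sum gf = ∑ i, gf i := rfl
  have ed : Finset.univ.sum df = ∑ i, df i := rfl
  rw [eg, ed]
  refine ⟨?_, fun h => ?_⟩
  · by_contra hneg
    push Not at hneg
    by_cases hgz : g0 + gi + ∑ i, gf i = 0
    · have : d0 + di + ∑ i, df i ≠ 0 := fun h => hc ⟨hgz, h⟩
      omega
    · omega
  · by_cases hgz : g0 + gi + ∑ i, gf i = 0
    · left
      exact ⟨hgz, by omega⟩
    · right
      constructor <;> omega

theorem TT_nonneg {s₀ : ℚ} (X : Str r) (A a B b : ℕ) (hX : X.WF A B) (hG : NG s₀ X A B)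
    (ha : A = 0 → a = 1) (hb : B = 0 → b = 1) : 0 ≤ TT s₀ X A a B b := by
  induction X generalizing A a B b with
  | triv => simp [TT]
  | strict M => simp [TT]
  | node μ lab s0 si n fr ih0 ihi ihf =>
    have hX' := hX
    have hG' := hG
    simp only [Str.WF] at hX'
    simp only [NG] at hG'
    obtain ⟨hμ, -, -, -, hW0, hWi, hWf⟩ := hX'
    obtain ⟨-, hG0, hGi, hGf⟩ := hG'
    have hN : A + B + μ = 0 → a + b = 1 := fun h => by omega
    simp only [TT]
    refine add_nonneg (add_nonneg (add_nonneg ?_ (ih0 _ _ _ _ hW0 hG0 hN hb))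
      (ihi _ _ _ _ hWi hGi hN ha)) (Finset.sum_nonneg fun i _ => ihf i _ _ _ _ (hWf i) (hGf i) hN
        (fun _ => rfl))
    split_ifs with h
    · exact (own_nonneg hX hG ha hb h).1
    · exact le_rfl

end TV
end MotMono
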