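import Pool.Agent.Lib.MP_4e5fcd_ag.TV.D3
import Pool.Agent.Lib.MP_4e5fcd_ag.TV.D5

/-!
# TV-D6: if `TT = 0` the curves which give the candidate pole have at most two neighbours, and none
of them gives the same candidate pole

Proof: induction on `X`, generalising everything. `triv`, `strict`: `True`. `node`: the terms of
`TT` are `≥ 0` (`own_nonneg`, `TT_nonneg`), so all are `0`. Let `E = (N, ν)` be `iss`
(`N = A + B + μ`). Then `N` is good (`s₀ N = - ν`), so `lab.isLeft` by `NG` and `own = 0`.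
* `val = 1`: `no_iss_of_val_one`. (`val ≥ 1` is `val_pos`.)
* `val ≥ 2`. If `s0 = triv` then `B` is not good: otherwise `j1 s0 = (B, b)` is `iss` by
  `iss_of_gd`, and `j2 X = j2 s0 = (N, ν)` is `iss`, contradicting `Hb`. Similarly if
  `si = triv` then `A` is not good (`j1 X = j2 si = (N, ν)`, `Ha`). Hence for every direction
  `dv = dg + db` and `val = ∑ dg + ∑ db`. By `own_nonneg` `(∑ dg, ∑ db)` is `(0, 2)` or `(1, 0)`;
  the second contradicts `val ≥ 2`; in the first case `val = 2`, all `dg` vanish, so no neighbour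
  is good (for `triv` directions: just shown), and `iss` implies good.
So the condition at `E` holds. The subtrees: `Iv` by `iv_sub`, `Ha` by the condition at `E`, `Hb` for
`s0` is `Hb` (`j2 X = j2 s0`), for `si` it is `Ha` (`j1 X = j2 si`), for `fr i` there is nothing to
show (`¬ iss s₀ (0, 1)`).
-/

namespace MotMono
namespace TV

variable {r : ℕ}

theorem gd_of_iss {s₀ : ℚ} {c : ℕ × ℕ} (h : iss s₀ c) : gd s₀ c.1 := by
  refine ⟨h.1, -(c.2 : ℤ), ?_⟩
  push_cast
  linarith [h.2]

private theorem dg_nn (s₀ : ℚ) (s : Str r) (N : ℕ) : 0 ≤ dg s₀ s N := by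
  classical
  cases s with
  | triv => simp [dg]
  | strict M => simp only [dg]; split_ifs <;> norm_num
  | node μ lab s0 si n fr => simp only [dg]; split_ifs <;> norm_num

private theorem dv_eq (s₀ : ℚ) (s : Str r) (C nb : ℕ)
    (h : s = Str.triv → C ≠ 0 → ¬ gd s₀ nb) :
    ((s.dv C : ℕ) : ℤ) = dg s₀ s nb + db s₀ s C nb := by
  classical
  cases s with
  | triv =>
    by_cases hC : C = 0
    · simp [Str.dv, dg, db, hC]
    · simp [Str.dv, dg, db, hC, h rfl hC]
  | strict M => by_cases hg : gd s₀ nb <;> simp [Str.dv, dg, db, hg]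
  | node μ lab s0 si n fr => by_cases hg : gd s₀ nb <;> simp [Str.dv, dg, db, hg]

private theorem not_gd_of_dg (s₀ : ℚ) (s : Str r) (nb : ℕ) (hs : s ≠ Str.triv)
    (h : dg s₀ s nb = 0) : ¬ gd s₀ nb := by
  classical
  intro hg
  cases s with
  | triv => exact hs rfl
  | strict M => simp [dg, hg] at h
  | node μ lab s0 si n fr => simp [dg, hg] at h

theorem ok_of_TT {s₀ : ℚ} (X : Str r) (A a B b : ℕ) (hX : X.WF A B) (hG : NG s₀ X A B)
    (h1 : Iv A a X.m1 B b) (h2 : Iv B b X.m2 A a) (hT : TT s₀ X A a B b = 0)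
    (Ha : iss s₀ (A, a) → ¬ iss s₀ (X.j1 A a B b))
    (Hb : iss s₀ (B, b) → ¬ iss s₀ (X.j2 A a B b)) : OK s₀ X A a B b := by
  classical
  induction X generalizing A a B b with
  | triv => simp [OK]
  | strict M => simp [OK]
  | node μ lab s0 si n fr ih0 ihi ihf =>
    have hXX := hX
    have hGG := hG
    obtain ⟨hμ, hle, heq, hpos, hw0, hwi, hwf⟩ := hX
    obtain ⟨hGl, hG0, hGi, hGf⟩ := hG
    have ha1 : A = 0 → a = 1 := by
      intro h; rcases h1 with h1 | h1
      · exact h1.2
      · omega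
    have hb1 : B = 0 → b = 1 := by
      intro h; rcases h2 with h2 | h2
      · exact h2.2
      · omega
    have hNpos : A + B + μ ≠ 0 := by omega
    -- all terms vanish
    have t0 := TT_nonneg (s₀ := s₀) s0 (A + B + μ) (a + b) B b hw0 hG0 (fun h => absurd h hNpos) hb1
    have ti := TT_nonneg (s₀ := s₀) si (A + B + μ) (a + b) A a hwi hGi (fun h => absurd h hNpos) ha1
    have tf : ∀ i, 0 ≤ TT s₀ (fr i) (A + B + μ) (a + b) 0 1 := fun i =>
      TT_nonneg (s₀ := s₀) (fr i) (A + B + μ) (a + b) 0 1 (hwf i) (hGf i)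
        (fun h => absurd h hNpos) (fun _ => rfl)
    have tfs : 0 ≤ ∑ i, TT s₀ (fr i) (A + B + μ) (a + b) 0 1 :=
      Finset.sum_nonneg fun i _ => tf i
    have tow : 0 ≤ (if gd s₀ (A + B + μ) then own s₀ s0 si fr (A + B + μ) (a + b) A a B b
        else 0) := by
      split_ifs with hN
      · exact (own_nonneg hXX hGG ha1 hb1 hN).1
      · exact le_rfl
    have hT' : (if gd s₀ (A + B + μ) then own s₀ s0 si fr (A + B + μ) (a + b) A a B b else 0) +
        TT s₀ s0 (A + B + μ) (a + b) B b + TT s₀ si (A + B + μ) (a + b) A a +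
        ∑ i, TT s₀ (fr i) (A + B + μ) (a + b) 0 1 = 0 := hT
    have e0 : TT s₀ s0 (A + B + μ) (a + b) B b = 0 := by linarith
    have ei : TT s₀ si (A + B + μ) (a + b) A a = 0 := by linarith
    have efs : ∑ i, TT s₀ (fr i) (A + B + μ) (a + b) 0 1 = 0 := by linarith
    have ef : ∀ i, TT s₀ (fr i) (A + B + μ) (a + b) 0 1 = 0 := fun i =>
      (Finset.sum_eq_zero_iff_of_nonneg (fun i _ => tf i)).mp efs i (Finset.mem_univ i)
    have eo : gd s₀ (A + B + μ) → own s₀ s0 si fr (A + B + μ) (a + b) A a B b = 0 := by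
      intro hN
      have : (if gd s₀ (A + B + μ) then own s₀ s0 si fr (A + B + μ) (a + b) A a B b else 0) = 0 := by
        linarith
      rwa [if_pos hN] at this
    have hfrt : ∀ i, fr i ≠ Str.triv := by
      intro i h
      have := hpos i
      rw [h] at this
      simp [Str.m1] at this
    -- the condition at E
    have hE : iss s₀ (A + B + μ, a + b) → n + s0.dv B + si.dv A ≤ 2 ∧
        ¬ iss s₀ (s0.j1 (A + B + μ) (a + b) B b) ∧ ¬ iss s₀ (si.j1 (A + B + μ) (a + b) A a) ∧
        ∀ i, ¬ iss s₀ ((fr i).j1 (A + B + μ) (a + b) 0 1) := by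
      intro hi
      have hN : gd s₀ (A + B + μ) := gd_of_iss hi
      have hl := hGl hN
      have hv1 := val_pos s₀ hXX h1 h2 hl hi
      rcases Nat.lt_or_ge (n + s0.dv B + si.dv A) 2 with hv | hv
      · have hv' : n + s0.dv B + si.dv A = 1 := by omega
        exact ⟨by omega, no_iss_of_val_one s₀ hXX h1 h2 hl hi hv'⟩
      · obtain ⟨g0, gi, gf⟩ := iss_of_gd s₀ hXX h1 h2 hl hi hv
        have hB : s0 = Str.triv → ¬ gd s₀ (s0.j1 (A + B + μ) (a + b) B b).1 := by
          intro hs hg
          have h3 := g0 hg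
          subst hs
          exact Hb h3 hi
        have hA : si = Str.triv → ¬ gd s₀ (si.j1 (A + B + μ) (a + b) A a).1 := by
          intro hs hg
          have h3 := gi hg
          subst hs
          exact Ha h3 hi
        have d0 := dv_eq s₀ s0 B (s0.j1 (A + B + μ) (a + b) B b).1 (fun h _ => hB h)
        have di := dv_eq s₀ si A (si.j1 (A + B + μ) (a + b) A a).1 (fun h _ => hA h)
        have df : ∀ i, (1 : ℤ) = dg s₀ (fr i) ((fr i).j1 (A + B + μ) (a + b) 0 1).1 +
            db s₀ (fr i) 0 ((fr i).j1 (A + B + μ) (a + b) 0 1).1 := by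
          intro i
          rw [← dv_eq s₀ (fr i) 0 _ (fun h => absurd h (hfrt i))]
          have := hfrt i
          cases hfi : fr i with
          | triv => exact absurd hfi this
          | strict M => simp [Str.dv]
          | node μ lab s0 si n fr => simp [Str.dv]
        have dsum : (n : ℤ) = ∑ i, dg s₀ (fr i) ((fr i).j1 (A + B + μ) (a + b) 0 1).1 +
            ∑ i, db s₀ (fr i) 0 ((fr i).j1 (A + B + μ) (a + b) 0 1).1 := by
          rw [← Finset.sum_add_distrib, ← Finset.sum_congr rfl (fun i _ => df i)]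
          simp
        have hvZ : (2 : ℤ) ≤ (n : ℤ) + (s0.dv B : ℤ) + (si.dv A : ℤ) := by exact_mod_cast hv
        rcases (own_nonneg hXX hGG ha1 hb1 hN).2 (eo hN) with ⟨hd, hb⟩ | ⟨hd, hb⟩
        · have n0 := dg_nn s₀ s0 (s0.j1 (A + B + μ) (a + b) B b).1
          have ni := dg_nn s₀ si (si.j1 (A + B + μ) (a + b) A a).1
          have nf : ∀ i, 0 ≤ dg s₀ (fr i) ((fr i).j1 (A + B + μ) (a + b) 0 1).1 :=
            fun i => dg_nn s₀ _ _
          have nfs : 0 ≤ ∑ i, dg s₀ (fr i) ((fr i).j1 (A + B + μ) (a + b) 0 1).1 :=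
            Finset.sum_nonneg fun i _ => nf i
          have z0 : dg s₀ s0 (s0.j1 (A + B + μ) (a + b) B b).1 = 0 := by linarith
          have zi : dg s₀ si (si.j1 (A + B + μ) (a + b) A a).1 = 0 := by linarith
          have zfs : ∑ i, dg s₀ (fr i) ((fr i).j1 (A + B + μ) (a + b) 0 1).1 = 0 := by linarith
          have zf : ∀ i, dg s₀ (fr i) ((fr i).j1 (A + B + μ) (a + b) 0 1).1 = 0 := fun i =>
            (Finset.sum_eq_zero_iff_of_nonneg (fun i _ => nf i)).mp zfs i (Finset.mem_univ i)
          refine ⟨?_, ?_, ?_, ?_⟩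
          · have : (n : ℤ) + (s0.dv B : ℤ) + (si.dv A : ℤ) ≤ 2 := by linarith
            exact_mod_cast this
          · intro h
            by_cases hs : s0 = Str.triv
            · exact hB hs (gd_of_iss h)
            · exact not_gd_of_dg s₀ s0 _ hs z0 (gd_of_iss h)
          · intro h
            by_cases hs : si = Str.triv
            · exact hA hs (gd_of_iss h)
            · exact not_gd_of_dg s₀ si _ hs zi (gd_of_iss h)
          · intro i h
            exact not_gd_of_dg s₀ (fr i) _ (hfrt i) (zf i) (gd_of_iss h)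
        · exfalso
          linarith
    obtain ⟨i1, i2, i3, i4, i5⟩ := iv_sub hXX h1 h2
    refine ⟨hE, ?_, ?_, ?_⟩
    · exact ih0 _ _ _ _ hw0 hG0 i1 i2 e0 (fun hi => (hE hi).2.1) Hb
    · exact ihi _ _ _ _ hwi hGi i3 i4 ei (fun hi => (hE hi).2.2.1) Ha
    · intro i
      refine ihf i _ _ _ _ (hwf i) (hGf i) (i5 i).1 (i5 i).2 (ef i) (fun hi => (hE hi).2.2.2 i) ?_
      intro h
      exact absurd h.1 (by simp)

end TV
end MotMono
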