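import Pool.Agent.Lib.MP_4e5fcd_ag.TV.Pol

/-!
# TV-E2: zeros near a zero

Let `δ = ε / 2` and suppose that there is no zero `q ≠ 0` with `|q| < ε`. For `x ≠ 0`, `|x| < ε` the
polynomial `P = p (x, ·)`, of degree `≤ D` (`D` independent of `x`), has no zero in `|y| ≤ δ`, so
`P = c ∏ (y - r_i)`, `|r_i| > δ`, and `|P (δ)| ≤ ∏ (2 |r_i|) |c| ≤ 2 ^ D |P (0)|`. For `x → 0` this gives
`|p (0, δ)| ≤ 2 ^ D |p (0, 0)| = 0`, a contradiction.
-/

open MvPolynomial

namespace MotMono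
namespace TV

private theorem prod_bound (δ : ℝ) (hδ : 0 < δ) (s : Multiset ℂ) (hs : ∀ r ∈ s, δ ≤ ‖r‖) :
    ‖(s.map fun r => (δ : ℂ) - r).prod‖ ≤ 2 ^ (Multiset.card s) * ‖(s.map fun r => (0 : ℂ) - r).prod‖ := by
  induction s using Multiset.induction_on with
  | empty => simp
  | cons a s ih =>
      have h1 := hs a (Multiset.mem_cons_self a s)
      have h2 := ih fun r hr => hs r (Multiset.mem_cons_of_mem hr)
      rw [Multiset.map_cons, Multiset.prod_cons, Multiset.map_cons, Multiset.prod_cons, norm_mul,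
        norm_mul, Multiset.card_cons, pow_succ]
      have h3 : ‖(δ : ℂ) - a‖ ≤ 2 * ‖(0 : ℂ) - a‖ := by
        calc ‖(δ : ℂ) - a‖ ≤ ‖(δ : ℂ)‖ + ‖a‖ := norm_sub_le _ _
          _ = δ + ‖a‖ := by rw [Complex.norm_real, Real.norm_eq_abs, abs_of_pos hδ]
          _ ≤ 2 * ‖(0 : ℂ) - a‖ := by rw [zero_sub, norm_neg]; linarith
      calc _ ≤ (2 * ‖(0 : ℂ) - a‖) * (2 ^ (Multiset.card s) *
            ‖(s.map fun r => (0 : ℂ) - r).prod‖) :=
            mul_le_mul h3 h2 (norm_nonneg _) (by positivity)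
        _ = _ := by ring

private theorem eval_bound (P : Polynomial ℂ) (δ : ℝ) (hδ : 0 < δ) (hP : ∀ r, ‖r‖ < δ → P.eval r ≠ 0)
    (D : ℕ) (hD : P.natDegree ≤ D) : ‖P.eval (δ : ℂ)‖ ≤ 2 ^ D * ‖P.eval 0‖ := by
  have hs := IsAlgClosed.splits P
  have h1 := hs.eval_eq_prod_roots (δ : ℂ)
  have h2 := hs.eval_eq_prod_roots 0
  have h3 := prod_bound δ hδ P.roots fun r hr => by
    by_contra hcon
    exact hP r (not_le.mp hcon) (Polynomial.isRoot_of_mem_roots hr)
  rw [h1, h2, norm_mul, norm_mul]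
  have h4 : (2 : ℝ) ^ (Multiset.card P.roots) ≤ 2 ^ D :=
    pow_le_pow_right₀ (by norm_num) ((Polynomial.card_roots' P).trans hD)
  calc _ ≤ ‖P.leadingCoeff‖ * (2 ^ (Multiset.card P.roots) *
        ‖(P.roots.map fun r => (0 : ℂ) - r).prod‖) := mul_le_mul_of_nonneg_left h3 (norm_nonneg _)
    _ ≤ ‖P.leadingCoeff‖ * (2 ^ D * ‖(P.roots.map fun r => (0 : ℂ) - r).prod‖) := by gcongr
    _ = _ := by ring

private noncomputable def sl (x : ℂ) (p : P2) : Polynomial ℂ :=
  aeval (![Polynomial.C x, Polynomial.X] : Fin 2 → Polynomial ℂ) p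

private theorem sl_eval (x y : ℂ) (p : P2) : (sl x p).eval y = eval ![x, y] p := by
  unfold sl
  induction p using MvPolynomial.induction_on with
  | C a => simp
  | add p q hp hq => rw [map_add, Polynomial.eval_add, map_add, hp, hq]
  | mul_X p i hp =>
      rw [map_mul, Polynomial.eval_mul, map_mul, hp, aeval_X, eval_X]
      congr 1
      fin_cases i <;> simp

private theorem sl_deg (p : P2) : ∃ D : ℕ, ∀ x : ℂ, (sl x p).natDegree ≤ D := by
  unfold sl
  induction p using MvPolynomial.induction_on with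
  | C a => exact ⟨0, fun x => by simp⟩
  | add p q hp hq =>
      obtain ⟨a, ha⟩ := hp
      obtain ⟨b, hb⟩ := hq
      refine ⟨max a b, fun x => ?_⟩
      rw [map_add]
      exact (Polynomial.natDegree_add_le _ _).trans (max_le_max (ha x) (hb x))
  | mul_X p i hp =>
      obtain ⟨a, ha⟩ := hp
      refine ⟨a + 1, fun x => ?_⟩
      rw [map_mul, aeval_X]
      refine Polynomial.natDegree_mul_le.trans (Nat.add_le_add (ha x) ?_)
      fin_cases i <;> simp

theorem exists_zero_near (p : P2) (hp : eval 0 p = 0) (ε : ℝ) (hε : 0 < ε) :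
    ∃ q : Fin 2 → ℂ, q ≠ 0 ∧ ‖q‖ < ε ∧ eval q p = 0 := by
  by_contra hcon
  push Not at hcon
  obtain ⟨D, hD⟩ := sl_deg p
  have hδ : 0 < ε / 2 := by positivity
  have hnorm : ∀ x y : ℂ, ‖x‖ < ε → ‖y‖ < ε → ‖(![x, y] : Fin 2 → ℂ)‖ < ε := by
    intro x y hx hy
    rw [pi_norm_lt_iff hε]
    intro i
    fin_cases i
    · exact hx
    · exact hy
  have hδn : ‖((ε / 2 : ℝ) : ℂ)‖ < ε := by
    rw [Complex.norm_real, Real.norm_eq_abs, abs_of_pos hδ]
    linarith
  -- for `x ≠ 0` small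
  have hx : ∀ x : ℂ, x ≠ 0 → ‖x‖ < ε →
      ‖eval ![x, ((ε / 2 : ℝ) : ℂ)] p‖ ≤ 2 ^ D * ‖eval ![x, 0] p‖ := by
    intro x hx0 hxε
    have := eval_bound (sl x p) (ε / 2) hδ (fun r hr => ?_) D (hD x)
    · rwa [sl_eval, sl_eval] at this
    · rw [sl_eval]
      refine hcon _ ?_ (hnorm x r hxε (by linarith))
      intro h0
      exact hx0 (by simpa using congrFun h0 0)
  -- the limit
  have hcont : ∀ y : ℂ, Filter.Tendsto (fun x : ℂ => ‖eval ![x, y] p‖) (nhdsWithin 0 {0}ᶜ)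
      (nhds ‖eval ![0, y] p‖) := by
    intro y
    have h1 : Continuous fun x : ℂ => eval (![x, y] : Fin 2 → ℂ) p := by
      have h2 : Continuous fun q : Fin 2 → ℂ => eval q p := MvPolynomial.continuous_eval p
      refine h2.comp ?_
      refine continuous_pi fun i => ?_
      fin_cases i
      · exact continuous_id
      · exact continuous_const
    exact (h1.norm.tendsto 0).mono_left nhdsWithin_le_nhds
  have hle : ‖eval ![0, ((ε / 2 : ℝ) : ℂ)] p‖ ≤ 2 ^ D * ‖eval ![0, 0] p‖ := by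
    refine le_of_tendsto_of_tendsto (hcont _) ((hcont 0).const_mul (2 ^ D)) ?_
    have h1 : ∀ᶠ x : ℂ in nhdsWithin 0 {0}ᶜ, ‖x‖ < ε := by
      have : Metric.ball (0 : ℂ) ε ∈ nhds (0 : ℂ) := Metric.ball_mem_nhds 0 hε
      filter_upwards [mem_nhdsWithin_of_mem_nhds this] with x hx
      simpa using hx
    filter_upwards [h1, self_mem_nhdsWithin] with x h2 h3
    exact hx x h3 h2
  have h00 : (![0, 0] : Fin 2 → ℂ) = 0 := by
    ext i; fin_cases i <;> rfl
  rw [h00, hp, norm_zero, mul_zero] at hle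
  refine hcon ![0, ((ε / 2 : ℝ) : ℂ)] ?_ (hnorm _ _ (by simpa using hε) hδn)
    (norm_le_zero_iff.mp hle)
  intro h0
  have := congrFun h0 1
  simp at this
  exact hε.ne' this

end TV
end MotMono
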