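import Pool.Agent.Lib.MP_4e5fcd_ag.TV.Base
import Pool.Agent.Lib.MP_4e5fcd_ag.CN.L5
import Pool.Agent.Lib.MP_4e5fcd_ag.CN.G3

/-!
# TV-E3: the curve points

* `locPull_curve`: `T = ∏ p_l = p_i Q`; `T (q) = 0`, so an element of `tj T` not vanishing at `q` gives that
  `∇ T (q) = Q (q) ∇ p_i (q) ≠ 0`. So `Q (q) ≠ 0` (`p_l (q) ≠ 0` for `l ≠ i`) and `∂_c p_i (q) ≠ 0` for
  some `c`. `LocPull`: `u = ![p_i, X 1]` (`c = 0`) or `![p_i, X 0]` (`c = 1`), Jacobian `± ∂_c p_i`, `e = fun _ => 0`,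
  `h = ∏_{l ≠ i} p_l ^ m_l * J_j`, `J_j (q) ≠ 0`: `h (q) ≠ 0`. Every `g` in the span of `X 0 ^ m_i` is
  `a X 0 ^ m_i`, `h a(p_i) p_i ^ m_i = a(p_i) F_j ∈ span F`; every `f ∈ span F` is a multiple of
  `p_i ^ m_i`.
* `exists_locus`: `Fin2 (span J)`: `f (x), g (y) ∈ span J`, `f = x ^ a f₁`, `g = y ^ b g₁`,
  `f₁ (0), g₁ (0) ≠ 0`. If all `J_j (q) = 0`, `q = (x, y) ≠ 0`: `x ≠ 0` gives `f₁ (x) = 0`; `y ≠ 0` gives `g₁ (y) = 0`. Same for
  `tj (∏ p_i)`. `H` is the product of `f₁ (x)`, `g₁ (y)` (for both ideals) and of the `p_i` with `p_i (0) ≠ 0`.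
* `good_pow`: `good_lin` (CN/L5) with `P = {X 0 ^ m}` (`X 0 ^ m = 1 * ∏_{j < m} X 0`).
* `near_pow`: `near_of_visDeg` with `VisDeg.here`: `F = {X 0 ^ m}`, `e = m`, `y = 1`: `fib F e y = {x ^ m = 1}`, `m` points,
  `χ = m ≠ 0`.
-/

open MvPolynomial

namespace MotMono
namespace TV

open CN

/-- the ideal `(x ^ m)` in one variable -/
noncomputable def Xm (m : ℕ) : Ideal (MvPolynomial (Fin 1) ℂ) := Ideal.span {X 0 ^ m}

private theorem E3_tj {h f : P2} {q : Fin 2 → ℂ} (hf : f ∈ tj h) (hf0 : eval q f ≠ 0)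
    (hh : eval q h = 0) : eval q (pderiv 0 h) ≠ 0 ∨ eval q (pderiv 1 h) ≠ 0 := by
  by_contra hcon
  push Not at hcon
  refine hf0 ?_
  have h1 : tj h ≤ RingHom.ker (eval q) := by
    unfold tj
    rw [Ideal.span_le]
    intro g hg
    simp only [Set.mem_insert_iff, Set.mem_singleton_iff] at hg
    rcases hg with rfl | rfl | rfl
    · exact hh
    · exact hcon.1
    · exact hcon.2
  exact h1 hf

/-- the pull-back, for a choice of the second coordinate -/
private theorem E3_pull {r s : ℕ} {F : Fin r → P2} {p : Fin s → P2} {m : Fin s → ℕ}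
    {J : Fin r → P2} (h : CD F p m J) (q : Fin 2 → ℂ) (i : Fin s) (hi : eval q (p i) = 0)
    (hJ : ∃ j, eval q (J j) ≠ 0) (hQ : ∀ l, l ≠ i → eval q (p l) ≠ 0) (v : P2)
    (hv : eval q (jacDet ![p i, v]) ≠ 0) :
    LocPull (Ideal.span (Set.range F)) q (Xm (m i)) := by
  classical
  obtain ⟨j, hj⟩ := hJ
  have hfac : ∏ l, p l ^ m l = p i ^ m i * ∏ l ∈ Finset.univ.erase i, p l ^ m l :=
    (Finset.mul_prod_erase Finset.univ (fun l => p l ^ m l) (Finset.mem_univ i)).symm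
  have hae : ∀ a : MvPolynomial (Fin 1) ℂ,
      aeval (fun k : Fin 1 => (![p i, v] : Fin 2 → P2) ((fun _ : Fin 1 => (0 : Fin 2)) k))
        (a * X 0 ^ m i) = aeval (fun _ : Fin 1 => p i) a * p i ^ m i := by
    intro a
    rw [map_mul, map_pow, aeval_X]
    rfl
  refine ⟨![p i, v], fun _ => 0, (∏ l ∈ Finset.univ.erase i, p l ^ m l) * J j,
    fun a b _ => Subsingleton.elim a b, ?_, hv, fun _ => hi, ?_, ?_⟩
  · rw [map_mul, map_prod]
    refine mul_ne_zero (Finset.prod_ne_zero_iff.2 fun l hl => ?_) hj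
    rw [map_pow]
    exact pow_ne_zero _ (hQ l (Finset.ne_of_mem_erase hl))
  · intro g hg
    unfold Xm at hg
    obtain ⟨a, rfl⟩ := Ideal.mem_span_singleton'.1 hg
    rw [hae]
    have e : (∏ l ∈ Finset.univ.erase i, p l ^ m l) * J j *
        (aeval (fun _ : Fin 1 => p i) a * p i ^ m i) =
        aeval (fun _ : Fin 1 => p i) a * F j := by
      rw [h.eq j, hfac]
      ring
    rw [e]
    exact Ideal.mul_mem_left _ _ (Ideal.subset_span ⟨j, rfl⟩)
  · intro f hf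
    refine Ideal.mul_mem_left _ _ ?_
    refine (Ideal.span_le.2 ?_ : Ideal.span (Set.range F) ≤ _) hf
    rintro _ ⟨j', rfl⟩
    rw [SetLike.mem_coe, h.eq j', hfac]
    have e : p i ^ m i * (∏ l ∈ Finset.univ.erase i, p l ^ m l) * J j' =
        ((∏ l ∈ Finset.univ.erase i, p l ^ m l) * J j') * p i ^ m i := by ring
    rw [e]
    refine Ideal.mul_mem_left _ _ (Ideal.subset_span ⟨1 * X 0 ^ m i, ?_, ?_⟩)
    · unfold Xm
      exact Ideal.mul_mem_left _ _ (Ideal.mem_span_singleton_self _)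
    · rw [hae, map_one, one_mul]

theorem locPull_curve {r s : ℕ} {F : Fin r → P2} {p : Fin s → P2} {m : Fin s → ℕ}
    {J : Fin r → P2} (h : CD F p m J) (q : Fin 2 → ℂ) (i : Fin s) (hi : eval q (p i) = 0)
    (hJ : ∃ j, eval q (J j) ≠ 0) (ht : ∃ f ∈ tj (∏ l, p l), eval q f ≠ 0) :
    LocPull (Ideal.span (Set.range F)) q (Xm (m i)) := by
  classical
  obtain ⟨f, hf, hf0⟩ := ht
  have hfac : ∏ l, p l = p i * ∏ l ∈ Finset.univ.erase i, p l :=
    (Finset.mul_prod_erase Finset.univ p (Finset.mem_univ i)).symm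
  have h0 : eval q (∏ l, p l) = 0 := by rw [hfac, map_mul, hi, zero_mul]
  have hd : ∀ c : Fin 2, eval q (pderiv c (∏ l, p l)) =
      eval q (pderiv c (p i)) * ∏ l ∈ Finset.univ.erase i, eval q (p l) := by
    intro c
    rw [hfac, Derivation.leibniz, map_add, smul_eq_mul, smul_eq_mul, map_mul, map_mul, hi,
      zero_mul, zero_add, map_prod, mul_comm]
  have hQ : (∏ l ∈ Finset.univ.erase i, eval q (p l)) ≠ 0 →
      ∀ l, l ≠ i → eval q (p l) ≠ 0 := fun hne l hl =>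
    Finset.prod_ne_zero_iff.1 hne l (Finset.mem_erase.2 ⟨hl, Finset.mem_univ l⟩)
  rcases E3_tj hf hf0 h0 with h1 | h1
  · rw [hd] at h1
    refine E3_pull h q i hi hJ (hQ (right_ne_zero_of_mul h1)) (X 1) ?_
    have e : jacDet (![p i, X 1] : Fin 2 → P2) = pderiv 0 (p i) := by
      unfold jacDet
      rw [Matrix.det_fin_two]
      simp [Matrix.of_apply, pderiv_X]
    rw [e]
    exact left_ne_zero_of_mul h1
  · rw [hd] at h1
    refine E3_pull h q i hi hJ (hQ (right_ne_zero_of_mul h1)) (X 0) ?_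
    have e : jacDet (![p i, X 0] : Fin 2 → P2) = -pderiv 1 (p i) := by
      unfold jacDet
      rw [Matrix.det_fin_two]
      simp [Matrix.of_apply, pderiv_X]
    rw [e, map_neg, neg_ne_zero]
    exact left_ne_zero_of_mul h1

private theorem E3_factor {f : Polynomial ℂ} (hf : f ≠ 0) :
    ∃ (a : ℕ) (g : Polynomial ℂ), g.eval 0 ≠ 0 ∧ f = Polynomial.X ^ a * g := by
  obtain ⟨g, hg, hg'⟩ := Polynomial.exists_eq_pow_rootMultiplicity_mul_and_not_dvd f hf 0
  refine ⟨f.rootMultiplicity 0, g, ?_, ?_⟩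
  · rwa [Polynomial.dvd_iff_isRoot, Polynomial.IsRoot.def] at hg'
  · rwa [Polynomial.C_0, sub_zero] at hg

private theorem E3_eval (f : Polynomial ℂ) (c : Fin 2) (q : Fin 2 → ℂ) :
    eval q (Polynomial.aeval (X c : P2) f) = f.eval (q c) := by
  rw [← MvPolynomial.coe_aeval_eq_eval, RingHom.coe_coe, ← Polynomial.aeval_algHom_apply,
    aeval_X]
  rfl

private theorem E3_fin2 {I : Ideal P2} (h : Fin2 I) : ∃ H : P2, eval 0 H ≠ 0 ∧
    ∀ q : Fin 2 → ℂ, eval q H ≠ 0 → q ≠ 0 → ∃ f ∈ I, eval q f ≠ 0 := by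
  obtain ⟨⟨f, hf, hfI⟩, g, hg, hgI⟩ := h
  obtain ⟨a, f1, hf1, ef⟩ := E3_factor hf
  obtain ⟨b, g1, hg1, eg⟩ := E3_factor hg
  refine ⟨Polynomial.aeval (X 0 : P2) f1 * Polynomial.aeval (X 1 : P2) g1, ?_, ?_⟩
  · rw [map_mul, E3_eval, E3_eval]
    exact mul_ne_zero hf1 hg1
  · intro q hq hq0
    rw [map_mul, E3_eval, E3_eval] at hq
    by_cases h0 : q 0 = 0
    · have h1 : q 1 ≠ 0 := by
        intro h1
        apply hq0
        funext i
        fin_cases i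
        · exact h0
        · exact h1
      refine ⟨_, hgI, ?_⟩
      rw [E3_eval, eg, Polynomial.eval_mul, Polynomial.eval_pow, Polynomial.eval_X]
      exact mul_ne_zero (pow_ne_zero _ h1) (right_ne_zero_of_mul hq)
    · refine ⟨_, hfI, ?_⟩
      rw [E3_eval, ef, Polynomial.eval_mul, Polynomial.eval_pow, Polynomial.eval_X]
      exact mul_ne_zero (pow_ne_zero _ h0) (left_ne_zero_of_mul hq)

theorem exists_locus {r s : ℕ} {F : Fin r → P2} {p : Fin s → P2} {m : Fin s → ℕ}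
    {J : Fin r → P2} (h : CD F p m J) :
    ∃ H : P2, eval 0 H ≠ 0 ∧ ∀ q : Fin 2 → ℂ, eval q H ≠ 0 → q ≠ 0 →
      (∃ j, eval q (J j) ≠ 0) ∧ (∃ f ∈ tj (∏ l, p l), eval q f ≠ 0) ∧
        ∀ i, eval 0 (p i) ≠ 0 → eval q (p i) ≠ 0 := by
  classical
  obtain ⟨H1, h1, h1'⟩ := E3_fin2 h.finJ
  obtain ⟨H2, h2, h2'⟩ := E3_fin2 h.finT
  refine ⟨H1 * H2 * ∏ i, if eval 0 (p i) ≠ 0 then p i else 1, ?_, ?_⟩
  · rw [map_mul, map_mul, map_prod]
    refine mul_ne_zero (mul_ne_zero h1 h2) (Finset.prod_ne_zero_iff.2 fun i _ => ?_)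
    split_ifs with h3
    · exact h3
    · rw [map_one]
      exact one_ne_zero
  · intro q hq hq0
    rw [map_mul, map_mul, map_prod] at hq
    refine ⟨?_, h2' q (right_ne_zero_of_mul (left_ne_zero_of_mul hq)) hq0, fun i hi => ?_⟩
    · by_contra hcon
      push Not at hcon
      obtain ⟨f, hf, hf0⟩ := h1' q (left_ne_zero_of_mul (left_ne_zero_of_mul hq)) hq0
      refine hf0 ?_
      have h3 : Ideal.span (Set.range J) ≤ RingHom.ker (eval q) := by
        rw [Ideal.span_le]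
        rintro _ ⟨j, rfl⟩
        exact hcon j
      exact h3 hf
    · have h3 := Finset.prod_ne_zero_iff.1 (right_ne_zero_of_mul hq) i (Finset.mem_univ i)
      rwa [if_pos hi] at h3

theorem good_pow {χ : K0 →+* ℤ} (hχ : IsEulerCharF χ) {m : ℕ} (hm : 0 < m) :
    CN.Good χ (Xm m) 0 := by
  unfold Xm
  refine good_lin hχ {X 0 ^ m} ?_ ⟨_, rfl, pow_ne_zero _ (X_ne_zero 0)⟩ ?_
  · rintro _ rfl
    refine ⟨1, m, fun _ _ => 1, ?_, ?_⟩
    · rw [map_one]
      exact one_ne_zero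
    · simp
  · rintro _ rfl
    rw [map_pow, eval_X, Pi.zero_apply, zero_pow hm.ne']

theorem near_pow {χ : K0 →+* ℤ} (hχ : IsEulerCharF χ) {m : ℕ} (hm : 0 < m) {lam : ℂ}
    (hl : lam ^ m = 1) : CN.Near χ (Xm m) 0 lam := by
  classical
  have htd : (X 0 ^ m : MvPolynomial (Fin 1) ℂ).totalDegree = m := totalDegree_X_pow 0 m
  refine near_of_visDeg hχ (Xm m) m ?_ lam hl
  unfold Xm
  refine VisDeg.here {X 0 ^ m} m ?_ (fun _ => 1) ⟨_, rfl, htd, one_ne_zero⟩ ?_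
  · rintro _ rfl
    refine ⟨pow_ne_zero _ (X_ne_zero 0), by rw [htd]; exact hm, ?_⟩
    rw [htd]
    exact isHomogeneous_X_pow 0 m
  · have hS : fib {(X 0 ^ m : MvPolynomial (Fin 1) ℂ)} m (fun _ => 1) =
        (((Polynomial.nthRootsFinset m (1 : ℂ)).image fun z => (fun _ => z : Fin 1 → ℂ) :
          Finset (Fin 1 → ℂ)) : Set (Fin 1 → ℂ)) := by
      ext x
      rw [Finset.mem_coe, Finset.mem_image]
      constructor
      · intro hx
        have h1 := (hx _ rfl).2 htd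
        rw [map_pow, eval_X] at h1
        refine ⟨x 0, (Polynomial.mem_nthRootsFinset hm 1).2 h1, ?_⟩
        funext i
        rw [Subsingleton.elim i 0]
      · rintro ⟨z, hz, rfl⟩
        rintro _ rfl
        refine ⟨fun h => absurd h (by rw [htd]; exact lt_irrefl m), fun _ => ?_⟩
        rw [map_pow, eval_X]
        exact (Polynomial.mem_nthRootsFinset hm 1).1 hz
    rw [hS, LF.chi_finset]
    have hne : (Polynomial.nthRootsFinset m (1 : ℂ)).Nonempty :=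
      ⟨1, (Polynomial.mem_nthRootsFinset hm 1).2 (one_pow m)⟩
    exact_mod_cast (Finset.card_pos.2 (hne.image _)).ne'

end TV
end MotMono
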