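import Pool.Agent.Lib.MP_4e5fcd_ag.TV.E1
import Pool.Agent.Lib.MP_4e5fcd_ag.TV.E2
import Pool.Agent.Lib.MP_4e5fcd_ag.TV.E3
import Pool.Agent.Lib.MP_4e5fcd_ag.CN.V1
import Pool.Agent.Lib.MP_4e5fcd_ag.CN.V4
import Pool.Agent.Lib.MP_4e5fcd_ag.CN.G1

/-!
# TV-E4: eigenvalues at the curve points are visible near the origin

* `near_of_points`: `Near` at points arbitrarily near `0` gives `Near` at `0` (triangle inequality).
* `near_curve`: `H` of `exists_locus`, `H ≠ 0` near `0` (continuity); `q ≠ 0`, `p_i (q) = 0` arbitrarily near `0`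
  (`exists_zero_near`); `locPull_curve`, `near_of_locPull` (CN/V4): `Near` at `q`.
* `near_of_near`: choose `q'` near `q` with `Vis χ I q' lam`, `H (q') ≠ 0`, `q' ≠ 0`. `cone_of_vis` (CN/V1): all `F_j (q') = 0`, so
  some `p_i (q') = 0` (`J_j (q') ≠ 0` for some `j`), and `p_i (0) = 0` (property of `H`). `locPull_curve`,
  `vis_of_locPull`: `Vis χ (Xm (m i)) 0 lam`, so `Near χ (Xm (m i)) 0 lam` and `near_curve` applies.
* `good_curve`: `locPull_curve`, `good_pow`, `good_of_locPull` (CN/G1), where some `p_i (q) = 0` because all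
  `F_j (q) = 0`.
-/

open MvPolynomial

namespace MotMono
namespace TV

open CN

private theorem e4_nbhd (H : P2) (q : Fin 2 → ℂ) (hq : eval q H ≠ 0) :
    ∃ δ : ℝ, 0 < δ ∧ ∀ q' : Fin 2 → ℂ, ‖q' - q‖ < δ → eval q' H ≠ 0 := by
  have h1 : IsOpen {z : Fin 2 → ℂ | eval z H ≠ 0} :=
    isOpen_ne_fun (MvPolynomial.continuous_eval H) continuous_const
  obtain ⟨δ, hδ, h2⟩ := Metric.isOpen_iff.1 h1 q hq
  refine ⟨δ, hδ, fun q' hq' => h2 ?_⟩
  rw [Metric.mem_ball, dist_eq_norm]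
  exact hq'

private theorem e4_zero {r s : ℕ} {F : Fin r → P2}
    {p : Fin s → P2} {m : Fin s → ℕ} {J : Fin r → P2} (h : CD F p m J) {q : Fin 2 → ℂ}
    (hF : ∀ j, eval q (F j) = 0) (hJ : ∃ j, eval q (J j) ≠ 0) : ∃ i, eval q (p i) = 0 := by
  obtain ⟨j, hj⟩ := hJ
  have h1 := hF j
  rw [h.eq j, map_mul, map_prod] at h1
  rcases mul_eq_zero.1 h1 with h2 | h2
  · obtain ⟨i, -, h3⟩ := Finset.prod_eq_zero_iff.1 h2
    rw [map_pow] at h3
    exact ⟨i, pow_eq_zero_iff (h.pos i).ne' |>.1 h3⟩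
  · exact absurd h2 hj

theorem near_curve {χ : K0 →+* ℤ} (hχ : IsEulerCharF χ) {r s : ℕ} {F : Fin r → P2}
    {p : Fin s → P2} {m : Fin s → ℕ} {J : Fin r → P2} (h : CD F p m J) (i : Fin s)
    (hi : eval 0 (p i) = 0) {lam : ℂ} (hn : CN.Near χ (Xm (m i)) 0 lam) :
    CN.Near χ (Ideal.span (Set.range F)) 0 lam := by
  intro ε hε
  obtain ⟨H, hH0, hH⟩ := exists_locus h
  obtain ⟨δ, hδ, hHδ⟩ := e4_nbhd H 0 hH0
  obtain ⟨q, hq0, hqε, hqp⟩ := exists_zero_near (p i) hi (min δ (ε / 2))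
    (lt_min hδ (half_pos hε))
  have h1 : eval q H ≠ 0 := by
    refine hHδ q ?_
    rw [sub_zero]
    exact lt_of_lt_of_le hqε (min_le_left _ _)
  obtain ⟨hJ, ht, -⟩ := hH q h1 hq0
  obtain ⟨p', hp', hv⟩ := near_of_locPull hχ _ q _ (locPull_curve h q i hqp hJ ht) lam hn (ε / 2)
    (half_pos hε)
  refine ⟨p', ?_, hv⟩
  have h2 : ‖q‖ < ε / 2 := lt_of_lt_of_le hqε (min_le_right _ _)
  calc ‖p' - 0‖ = ‖(p' - q) + q‖ := by rw [sub_zero, sub_add_cancel]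
    _ ≤ ‖p' - q‖ + ‖q‖ := norm_add_le _ _
    _ < ε / 2 + ε / 2 := add_lt_add hp' h2
    _ = ε := add_halves ε

theorem near_of_near {χ : K0 →+* ℤ} (hχ : IsEulerCharF χ) {r s : ℕ} {F : Fin r → P2}
    {p : Fin s → P2} {m : Fin s → ℕ} {J : Fin r → P2} (h : CD F p m J) {H : P2}
    (hH : ∀ q : Fin 2 → ℂ, eval q H ≠ 0 → q ≠ 0 →
      (∃ j, eval q (J j) ≠ 0) ∧ (∃ f ∈ tj (∏ l, p l), eval q f ≠ 0) ∧
        ∀ i, eval 0 (p i) ≠ 0 → eval q (p i) ≠ 0) (q : Fin 2 → ℂ) (hq : eval q H ≠ 0)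
    (hq0 : q ≠ 0) {lam : ℂ} (hn : CN.Near χ (Ideal.span (Set.range F)) q lam) :
    CN.Near χ (Ideal.span (Set.range F)) 0 lam := by
  obtain ⟨δ, hδ, hHδ⟩ := e4_nbhd H q hq
  have hqn : 0 < ‖q‖ := norm_pos_iff.2 hq0
  obtain ⟨q', hq', hv⟩ := hn (min δ ‖q‖) (lt_min hδ hqn)
  have h1 : eval q' H ≠ 0 := hHδ q' (lt_of_lt_of_le hq' (min_le_left _ _))
  have h2 : q' ≠ 0 := by
    rintro rfl
    have h3 := lt_of_lt_of_le hq' (min_le_right _ _)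
    rw [zero_sub, norm_neg] at h3
    exact lt_irrefl _ h3
  obtain ⟨hJ, ht, hp⟩ := hH q' h1 h2
  have h3 := (cone_of_vis hv).1
  obtain ⟨i, hi⟩ := e4_zero h (fun j => h3 (F j) (Ideal.subset_span ⟨j, rfl⟩)) hJ
  have hi0 : eval 0 (p i) = 0 := by
    by_contra hcon
    exact hp i hcon hi
  have h4 := vis_of_locPull hχ (locPull_curve h q' i hi hJ ht) hv
  refine near_curve hχ h i hi0 fun ε hε => ⟨0, ?_, h4⟩
  rw [sub_zero, norm_zero]
  exact hε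

theorem good_curve {χ : K0 →+* ℤ} (hχ : IsEulerCharF χ) {r s : ℕ} {F : Fin r → P2}
    {p : Fin s → P2} {m : Fin s → ℕ} {J : Fin r → P2} (h : CD F p m J) (q : Fin 2 → ℂ)
    (hF : ∀ j, eval q (F j) = 0)
    (hJ : ∃ j, eval q (J j) ≠ 0) (ht : ∃ f ∈ tj (∏ l, p l), eval q f ≠ 0) :
    CN.Good χ (Ideal.span (Set.range F)) q := by
  obtain ⟨i, hi⟩ := e4_zero h hF hJ
  exact good_of_locPull hχ _ q _ (locPull_curve h q i hi hJ ht) (good_pow hχ (h.pos i))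

end TV
end MotMono
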