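import Pool.Agent.Lib.MP_4e5fcd_ag.TV.Base
import Pool.Agent.Lib.MP_4e5fcd_ag.CN.P4

/-!
# TV-P1: the power series `gg`

* `gg_mul`: coefficient of `T ^ k`: `gg N ν = ∑_{i ≥ 1} (L - 1) L ^ (- ν i) T ^ (N i)`; multiplying
  with `1 - L ^ (-ν) T ^ N` leaves the term `i = 1`.
* `gg_mem`: `N = 0`: `gg = 1`. `N > 0`: `mem_polar_of_mul` (CN/P4) with `a = ν`, `b = N`:
  `- ν / N = s₀` would mean `ν + s₀ N = 0`, i.e. `iss`; `gg * (1 - ..) = C (L - 1) * C .. * X ^ N`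
  is in the ring by `C_mem_polar`, `X_pow_mem_polar`.
* `one_sub_qq_mul`: `(1 - q) * (1 + q + ... + q ^ (κ - 1)) = 1 - q ^ κ`.
-/

namespace MotMono
namespace TV

open CN

theorem gg_mul (N ν : ℕ) (hN : 0 < N) :
    gg N ν * (1 - qq N ν) = PowerSeries.C (((Lu : MCˣ) : MC) - 1) * qq N ν := by
  classical
  ext k
  have h1 : gg N ν * (1 - qq N ν) = gg N ν -
      PowerSeries.C ((Lu ^ (-(ν : ℤ)) : MCˣ) : MC) * (gg N ν * PowerSeries.X ^ N) := by
    unfold qq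
    ring
  have h2 : PowerSeries.C (((Lu : MCˣ) : MC) - 1) * qq N ν =
      PowerSeries.C ((((Lu : MCˣ) : MC) - 1) * ((Lu ^ (-(ν : ℤ)) : MCˣ) : MC)) *
        PowerSeries.X ^ N := by
    unfold qq
    rw [map_mul]
    ring
  rw [h1, h2, map_sub, PowerSeries.coeff_C_mul, PowerSeries.coeff_C_mul,
    PowerSeries.coeff_mul_X_pow', PowerSeries.coeff_X_pow]
  have hg : ∀ j, PowerSeries.coeff j (gg N ν) = if 0 < j ∧ N ∣ j then (((Lu : MCˣ) : MC) - 1) *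
      ((Lu ^ (-(ν * (j / N : ℕ) : ℤ)) : MCˣ) : MC) else 0 := by
    intro j
    unfold gg
    rw [if_neg hN.ne', PowerSeries.coeff_mk]
  rw [hg k]
  rcases lt_trichotomy k N with hk | hk | hk
  · rw [if_neg (by omega : ¬ N ≤ k), if_neg hk.ne, mul_zero, mul_zero, sub_zero, if_neg]
    rintro ⟨h3, h4⟩
    exact absurd (Nat.le_of_dvd h3 h4) (by omega)
  · subst hk
    rw [if_pos ⟨hN, dvd_refl k⟩, if_pos le_rfl, if_pos rfl, mul_one, Nat.sub_self, hg 0,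
      if_neg (by simp), mul_zero, sub_zero, Nat.div_self hN, Nat.cast_one, mul_one]
  · rw [if_pos hk.le, if_neg hk.ne', mul_zero, hg (k - N)]
    by_cases hd : N ∣ k
    · have hd' : N ∣ k - N := Nat.dvd_sub hd (dvd_refl N)
      rw [if_pos ⟨by omega, hd⟩, if_pos ⟨by omega, hd'⟩]
      have h3 : k / N = (k - N) / N + 1 := by
        rw [Nat.div_eq_sub_div hN hk.le]
      have h4 : (Lu ^ (-(ν * (k / N : ℕ) : ℤ)) : MCˣ) =
          Lu ^ (-(ν : ℤ)) * Lu ^ (-(ν * ((k - N) / N : ℕ) : ℤ)) := by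
        rw [← zpow_add]
        congr 1
        rw [h3]
        push_cast
        ring
      rw [h4, Units.val_mul]
      ring
    · have hd' : ¬ N ∣ k - N := fun h => hd (by
        have h5 := Nat.dvd_add h (dvd_refl N)
        rwa [Nat.sub_add_cancel hk.le] at h5)
      rw [if_neg fun h => hd h.2, if_neg fun h => hd' h.2, mul_zero, sub_zero]

private theorem p1_of_mul {s₀ : ℚ} (N ν : ℕ) (hN : 0 < N) (h : ¬ iss s₀ (N, ν))
    (Z : PowerSeries MC) (hZ : Z * (1 - qq N ν) ∈ polarRing s₀) : Z ∈ polarRing s₀ := by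
  refine mem_polar_of_mul s₀ (ν : ℤ) N hN ?_ Z hZ
  intro h1
  apply h
  refine ⟨hN, ?_⟩
  have hN' : (N : ℚ) ≠ 0 := by exact_mod_cast hN.ne'
  show (ν : ℚ) + s₀ * N = 0
  rw [← h1]
  push_cast
  field_simp
  ring

theorem gg_zero (ν : ℕ) : gg 0 ν = 1 := by
  unfold gg
  rw [if_pos rfl]

theorem qq_mem (s₀ : ℚ) (N ν : ℕ) : qq N ν ∈ polarRing s₀ :=
  Subring.mul_mem _ (C_mem_polar s₀ _) (X_pow_mem_polar s₀ _)

theorem gg_mem {s₀ : ℚ} (N ν : ℕ) (h : ¬ iss s₀ (N, ν)) : gg N ν ∈ polarRing s₀ := by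
  rcases Nat.eq_zero_or_pos N with h0 | h0
  · subst h0
    rw [gg_zero]
    exact Subring.one_mem _
  · refine p1_of_mul N ν h0 h _ ?_
    rw [gg_mul N ν h0]
    exact Subring.mul_mem _ (C_mem_polar s₀ _) (qq_mem s₀ N ν)

theorem qq_mul (N ν N' ν' : ℕ) : qq N ν * qq N' ν' = qq (N + N') (ν + ν') := by
  unfold qq
  have h : (Lu ^ (-((ν + ν' : ℕ) : ℤ)) : MCˣ) = Lu ^ (-(ν : ℤ)) * Lu ^ (-(ν' : ℤ)) := by
    rw [← zpow_add]
    congr 1
    push_cast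
    ring
  rw [h, Units.val_mul, map_mul, pow_add]
  ring

theorem qq_pow (N ν κ : ℕ) : qq N ν ^ κ = qq (κ * N) (κ * ν) := by
  induction κ with
  | zero =>
    rw [pow_zero, Nat.zero_mul, Nat.zero_mul]
    unfold qq
    simp
  | succ κ ih =>
    rw [pow_succ, ih, qq_mul]
    congr 1
    · ring
    · ring

private theorem p1_geom (q : PowerSeries MC) (κ : ℕ) :
    (1 - q) * ∑ i ∈ Finset.range κ, q ^ i = 1 - q ^ κ := mul_neg_geom_sum q κ

private theorem p1_geom_mem (s₀ : ℚ) (N ν κ : ℕ) :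
    ∑ i ∈ Finset.range κ, qq N ν ^ i ∈ polarRing s₀ :=
  Subring.sum_mem _ fun _ _ => Subring.pow_mem _ (qq_mem s₀ N ν) _

/-- one neighbour: `g (E) (L + g (v))`, `v = (κ N, κ ν - 1)` -/
theorem one_mem {s₀ : ℚ} (N ν κ N' ν' : ℕ) (hN : 0 < N) (hκ : 0 < κ) (hN' : N' = κ * N)
    (hν' : ν' + 1 = κ * ν) (h : ¬ iss s₀ (N', ν')) :
    gg N ν * (PowerSeries.C (((Lu : MCˣ) : MC)) + gg N' ν') ∈ polarRing s₀ := by
  have hN'0 : 0 < N' := by
    rw [hN']
    positivity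
  refine p1_of_mul N' ν' hN'0 h _ ?_
  have h1 := gg_mul N ν hN
  have h2 := gg_mul N' ν' hN'0
  have h3 : qq N' ν' = PowerSeries.C ((Lu : MCˣ) : MC) * qq N ν ^ κ := by
    rw [qq_pow, ← hN', ← hν']
    unfold qq
    rw [← mul_assoc, ← map_mul, ← Units.val_mul]
    congr 3
    rw [← zpow_one_add]
    congr 1
    push_cast
    ring
  have h4 := p1_geom (qq N ν) κ
  have h5 : gg N ν * (PowerSeries.C (((Lu : MCˣ) : MC)) + gg N' ν') * (1 - qq N' ν') =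
      PowerSeries.C ((Lu : MCˣ) : MC) * (PowerSeries.C (((Lu : MCˣ) : MC) - 1) * qq N ν *
        ∑ i ∈ Finset.range κ, qq N ν ^ i) := by
    have h6 : PowerSeries.C (((Lu : MCˣ) : MC) - 1) = PowerSeries.C ((Lu : MCˣ) : MC) - 1 := by
      rw [map_sub, map_one]
    calc gg N ν * (PowerSeries.C (((Lu : MCˣ) : MC)) + gg N' ν') * (1 - qq N' ν')
        = gg N ν * (PowerSeries.C (((Lu : MCˣ) : MC)) * (1 - qq N' ν') +
          gg N' ν' * (1 - qq N' ν')) := by ring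
      _ = gg N ν * (PowerSeries.C (((Lu : MCˣ) : MC)) * (1 - qq N ν ^ κ)) := by
          rw [h2, h6, h3]
          ring
      _ = PowerSeries.C (((Lu : MCˣ) : MC)) * ((gg N ν * (1 - qq N ν)) *
          ∑ i ∈ Finset.range κ, qq N ν ^ i) := by
          rw [← h4]
          ring
      _ = _ := by rw [h1]
  rw [h5]
  exact Subring.mul_mem _ (C_mem_polar s₀ _) (Subring.mul_mem _
    (Subring.mul_mem _ (C_mem_polar s₀ _) (qq_mem s₀ N ν)) (p1_geom_mem s₀ N ν κ))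

/-- two neighbours: `g (E) (L - 1 + g (v) + g (w))`, `v + w = κ (N, ν)` -/
theorem two_mem {s₀ : ℚ} (N ν κ N' ν' N'' ν'' : ℕ) (hN : 0 < N) (hκ : 0 < κ)
    (hN' : 0 < N') (hN'' : 0 < N'')
    (hs : N' + N'' = κ * N) (hν : ν' + ν'' = κ * ν) (h : ¬ iss s₀ (N', ν'))
    (h' : ¬ iss s₀ (N'', ν'')) :
    gg N ν * (PowerSeries.C (((Lu : MCˣ) : MC) - 1) + gg N' ν' + gg N'' ν'') ∈ polarRing s₀ := by
  refine p1_of_mul N' ν' hN' h _ (p1_of_mul N'' ν'' hN'' h' _ ?_)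
  have h1 := gg_mul N ν hN
  have h2 := gg_mul N' ν' hN'
  have h3 := gg_mul N'' ν'' hN''
  have h4 := p1_geom (qq N ν) κ
  have h5 : qq N' ν' * qq N'' ν'' = qq N ν ^ κ := by
    rw [qq_mul, qq_pow, hs, hν]
  set c := PowerSeries.C (((Lu : MCˣ) : MC) - 1) with hc
  have h6 : gg N ν * (c + gg N' ν' + gg N'' ν'') * (1 - qq N' ν') * (1 - qq N'' ν'') =
      c * (c * qq N ν * ∑ i ∈ Finset.range κ, qq N ν ^ i) := by
    calc gg N ν * (c + gg N' ν' + gg N'' ν'') * (1 - qq N' ν') * (1 - qq N'' ν'')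
        = gg N ν * (c * (1 - qq N' ν') * (1 - qq N'' ν'') +
          (gg N' ν' * (1 - qq N' ν')) * (1 - qq N'' ν'') +
          (gg N'' ν'' * (1 - qq N'' ν'')) * (1 - qq N' ν')) := by ring
      _ = gg N ν * (c * (1 - qq N' ν' * qq N'' ν'')) := by
          rw [h2, h3]
          ring
      _ = c * ((gg N ν * (1 - qq N ν)) * ∑ i ∈ Finset.range κ, qq N ν ^ i) := by
          rw [h5, ← h4]
          ring
      _ = _ := by rw [h1]
  rw [h6]
  exact Subring.mul_mem _ (C_mem_polar s₀ _) (Subring.mul_mem _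
    (Subring.mul_mem _ (C_mem_polar s₀ _) (qq_mem s₀ N ν)) (p1_geom_mem s₀ N ν κ))

end TV
end MotMono
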