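import Pool.Agent.Lib.MP_4e5fcd_ag.TV.D1
import Pool.Agent.Lib.MP_4e5fcd_ag.TV.P1

/-!
# TV-P2: the terms of the zeta function which contain a curve giving the candidate pole

`N = A + B + μ`, `ν = a + b`, `lab.isLeft`, so `∑ m1 = μ`. By D1 `j1 s = (C + k_s N + m1 s,
c + k_s ν)` for the direction `s` with second line `(C, c)`. So
`∑ (j1 s).1 = B + A + ∑ m1 + N ∑ k_s = N (1 + ∑ k_s)`,
`∑ (j1 s).2 = b + a + n + ν ∑ k_s = ν (1 + ∑ k_s) + n`.
A direction which is not real (`dv = 0`: `triv`, `C = 0`, `c = 1`) has `j1 = (0, 1)` and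
`gg 0 1 = 1`. There are `n + 2` directions, `val = n + dv s0 B + dv si A` of them are real (the
`fr i` are all real: `m1 (fr i) > 0`), `val ≤ 2`. `val = 0` is impossible (`∑ (j1 s).1 ≥ N > 0`).
`val = 1`: the bracket is `L - 1 - n + (n + 1) + g(v) = L + g(v)` with `v = (κ N, κ ν - 1)`,
`κ = 1 + ∑ k_s`: `one_mem`. `val = 2`: the bracket is `L - 1 + g(v) + g(w)`, `v + w = (κ N, κ ν)`:
`two_mem` (real directions have `(j1 s).1 > 0`: `C > 0` or `m1 s > 0`).
Cases: `n = 0`: `(dv s0 B, dv si A) = (1,0), (0,1), (1,1)`; `n = 1`: `(0,0), (1,0), (0,1)`;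
`n = 2`: `(0,0)`.
-/

namespace MotMono
namespace TV

variable {r : ℕ}

private theorem p2_zero (s : Str r) (N ν B b : ℕ) (h : s.dv B = 0) :
    B = 0 ∧ s.j1 N ν B b = (0, b) := by
  cases s with
  | triv =>
    have h0 : (if B = 0 then 0 else 1) = 0 := h
    split_ifs at h0 with h1
    subst h1
    exact ⟨rfl, rfl⟩
  | strict M => exact absurd h one_ne_zero
  | node μ lab s0 si n fr => exact absurd h one_ne_zero

private theorem p2_pos (s : Str r) (N ν B b : ℕ) (hW : s.WF N B) (h : s.dv B ≠ 0) :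
    0 < (s.j1 N ν B b).1 := by
  cases s with
  | triv =>
    have h0 : (if B = 0 then 0 else 1) ≠ 0 := h
    split_ifs at h0 with h1
    · exact absurd rfl h0
    · exact Nat.pos_of_ne_zero h1
  | strict M => exact hW.1
  | node μ lab s0 si n fr =>
    have h1 : (Str.node μ lab s0 si n fr).j1 N ν B b = si.j2 (N + B + μ) (ν + b) N ν := rfl
    obtain ⟨k, hk⟩ := j2_eq si (N + B + μ) (ν + b) N ν
    rw [h1, hk]
    have h2 := hW.1
    show 0 < N + B + μ + k * N + si.m2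
    omega

private theorem p2_le (s : Str r) (B : ℕ) : s.dv B ≤ 1 := by
  cases s with
  | triv =>
    show (if B = 0 then 0 else 1) ≤ 1
    split_ifs <;> omega
  | strict M => exact le_rfl
  | node μ lab s0 si n fr => exact le_rfl

private theorem p2_C (n : ℕ) : PowerSeries.C (((Lu : MCˣ) : MC) - 1 - n) =
    PowerSeries.C ((Lu : MCˣ) : MC) - 1 - (n : PowerSeries MC) := by
  rw [map_sub, map_sub, map_one, map_natCast]

private theorem p2_fin {s₀ : ℚ} {N ν κ : ℕ} (hN : 0 < N) (hκ : 0 < κ) {x y : ℕ × ℕ}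
    {n : ℕ} {z : Fin n → ℕ × ℕ} {d e : ℕ} (hd : d ≤ 1) (he : e ≤ 1) (hv : n + d + e ≤ 2)
    (hx0 : d = 0 → x = (0, 1)) (hx1 : d ≠ 0 → 0 < x.1) (hy0 : e = 0 → y = (0, 1))
    (hy1 : e ≠ 0 → 0 < y.1) (hz : ∀ i, 0 < (z i).1)
    (hs : x.1 + y.1 + ∑ i, (z i).1 = κ * N) (hs' : x.2 + y.2 + ∑ i, (z i).2 = κ * ν + n)
    (hx : ¬ iss s₀ x) (hy : ¬ iss s₀ y) (hzi : ∀ i, ¬ iss s₀ (z i)) :
    gg N ν * (PowerSeries.C (((Lu : MCˣ) : MC) - 1 - n) + gg x.1 x.2 + gg y.1 y.2 +
      ∑ i, gg (z i).1 (z i).2) ∈ polarRing s₀ := by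
  have hκN : 0 < κ * N := Nat.mul_pos hκ hN
  have hC : PowerSeries.C (((Lu : MCˣ) : MC) - 1) = PowerSeries.C ((Lu : MCˣ) : MC) - 1 := by
    rw [map_sub, map_one]
  rw [p2_C]
  obtain rfl | rfl | rfl : n = 0 ∨ n = 1 ∨ n = 2 := by omega
  · rw [Finset.univ_eq_empty, Finset.sum_empty, add_zero] at hs
    rw [Finset.univ_eq_empty, Finset.sum_empty, add_zero] at hs'
    rw [Finset.univ_eq_empty, Finset.sum_empty, add_zero]
    by_cases hd0 : d = 0
    · have hx2 := hx0 hd0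
      subst hx2
      by_cases he0 : e = 0
      · have hy2 := hy0 he0
        subst hy2
        simp only at hs
        omega
      · simp only at hs hs'
        have h := one_mem (s₀ := s₀) N ν κ y.1 y.2 hN hκ (by omega) (by omega) hy
        have e1 : PowerSeries.C ((Lu : MCˣ) : MC) - 1 - ((0 : ℕ) : PowerSeries MC) +
            gg (0, 1).1 (0, 1).2 + gg y.1 y.2 = PowerSeries.C ((Lu : MCˣ) : MC) + gg y.1 y.2 := by
          rw [gg_zero]
          push_cast
          ring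
        rwa [e1]
    · by_cases he0 : e = 0
      · have hy2 := hy0 he0
        subst hy2
        simp only at hs hs'
        have h := one_mem (s₀ := s₀) N ν κ x.1 x.2 hN hκ (by omega) (by omega) hx
        have e1 : PowerSeries.C ((Lu : MCˣ) : MC) - 1 - ((0 : ℕ) : PowerSeries MC) +
            gg x.1 x.2 + gg (0, 1).1 (0, 1).2 = PowerSeries.C ((Lu : MCˣ) : MC) + gg x.1 x.2 := by
          rw [gg_zero]
          push_cast
          ring
        rwa [e1]
      · have h := two_mem (s₀ := s₀) N ν κ x.1 x.2 y.1 y.2 hN hκ (hx1 hd0) (hy1 he0) hs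
          (by omega) hx hy
        have e1 : PowerSeries.C ((Lu : MCˣ) : MC) - 1 - ((0 : ℕ) : PowerSeries MC) +
            gg x.1 x.2 + gg y.1 y.2 = PowerSeries.C (((Lu : MCˣ) : MC) - 1) + gg x.1 x.2 +
              gg y.1 y.2 := by
          rw [hC]
          push_cast
          ring
        rwa [e1]
  · rw [Fin.sum_univ_one] at hs
    rw [Fin.sum_univ_one] at hs'
    rw [Fin.sum_univ_one]
    by_cases hd0 : d = 0
    · have hx2 := hx0 hd0
      subst hx2
      by_cases he0 : e = 0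
      · have hy2 := hy0 he0
        subst hy2
        simp only at hs hs'
        have h := one_mem (s₀ := s₀) N ν κ (z 0).1 (z 0).2 hN hκ (by omega) (by omega) (hzi 0)
        have e1 : PowerSeries.C ((Lu : MCˣ) : MC) - 1 - ((1 : ℕ) : PowerSeries MC) +
            gg (0, 1).1 (0, 1).2 + gg (0, 1).1 (0, 1).2 + gg (z 0).1 (z 0).2 =
            PowerSeries.C ((Lu : MCˣ) : MC) + gg (z 0).1 (z 0).2 := by
          rw [gg_zero]
          push_cast
          ring
        rwa [e1]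
      · simp only at hs hs'
        have h := two_mem (s₀ := s₀) N ν κ y.1 y.2 (z 0).1 (z 0).2 hN hκ (hy1 he0) (hz 0)
          (by omega) (by omega) hy (hzi 0)
        have e1 : PowerSeries.C ((Lu : MCˣ) : MC) - 1 - ((1 : ℕ) : PowerSeries MC) +
            gg (0, 1).1 (0, 1).2 + gg y.1 y.2 + gg (z 0).1 (z 0).2 =
            PowerSeries.C (((Lu : MCˣ) : MC) - 1) + gg y.1 y.2 + gg (z 0).1 (z 0).2 := by
          rw [gg_zero, hC]
          push_cast
          ring
        rwa [e1]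
    · have he0 : e = 0 := by omega
      have hy2 := hy0 he0
      subst hy2
      simp only at hs hs'
      have h := two_mem (s₀ := s₀) N ν κ x.1 x.2 (z 0).1 (z 0).2 hN hκ (hx1 hd0) (hz 0)
        (by omega) (by omega) hx (hzi 0)
      have e1 : PowerSeries.C ((Lu : MCˣ) : MC) - 1 - ((1 : ℕ) : PowerSeries MC) +
          gg x.1 x.2 + gg (0, 1).1 (0, 1).2 + gg (z 0).1 (z 0).2 =
          PowerSeries.C (((Lu : MCˣ) : MC) - 1) + gg x.1 x.2 + gg (z 0).1 (z 0).2 := by
        rw [gg_zero, hC]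
        push_cast
        ring
      rwa [e1]
  · rw [Fin.sum_univ_two] at hs
    rw [Fin.sum_univ_two] at hs'
    rw [Fin.sum_univ_two]
    have hx2 := hx0 (by omega)
    subst hx2
    have hy2 := hy0 (by omega)
    subst hy2
    simp only at hs hs'
    have h := two_mem (s₀ := s₀) N ν κ (z 0).1 (z 0).2 (z 1).1 (z 1).2 hN hκ (hz 0) (hz 1)
      (by omega) (by omega) (hzi 0) (hzi 1)
    have e1 : PowerSeries.C ((Lu : MCˣ) : MC) - 1 - ((2 : ℕ) : PowerSeries MC) +
        gg (0, 1).1 (0, 1).2 + gg (0, 1).1 (0, 1).2 +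
        (gg (z 0).1 (z 0).2 + gg (z 1).1 (z 1).2) =
        PowerSeries.C (((Lu : MCˣ) : MC) - 1) + gg (z 0).1 (z 0).2 + gg (z 1).1 (z 1).2 := by
      rw [gg_zero, hC]
      push_cast
      ring
    rwa [e1]

theorem bracket_mem {s₀ : ℚ} {μ n : ℕ} {lab : Lab r} {s0 si : Str r} {fr : Fin n → Str r}
    {A a B b : ℕ} (hX : (Str.node μ lab s0 si n fr).WF A B) (ha : A = 0 → a = 1)
    (hb : B = 0 → b = 1) (hl : lab.isLeft = true) (hv : n + s0.dv B + si.dv A ≤ 2)
    (h0 : ¬ iss s₀ (s0.j1 (A + B + μ) (a + b) B b))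
    (hi : ¬ iss s₀ (si.j1 (A + B + μ) (a + b) A a))
    (hf : ∀ i, ¬ iss s₀ ((fr i).j1 (A + B + μ) (a + b) 0 1)) :
    gg (A + B + μ) (a + b) * (PowerSeries.C (((Lu : MCˣ) : MC) - 1 - n) +
      gg (s0.j1 (A + B + μ) (a + b) B b).1 (s0.j1 (A + B + μ) (a + b) B b).2 +
      gg (si.j1 (A + B + μ) (a + b) A a).1 (si.j1 (A + B + μ) (a + b) A a).2 +
      ∑ i, gg ((fr i).j1 (A + B + μ) (a + b) 0 1).1 ((fr i).j1 (A + B + μ) (a + b) 0 1).2) ∈
        polarRing s₀ := by
  obtain ⟨hμ, _, hsum, hfr, hW0, hWi, hWf⟩ := hX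
  have hsum := hsum hl
  obtain ⟨k0, hk0⟩ := j1_eq s0 (A + B + μ) (a + b) B b hW0 hb
  obtain ⟨ki, hki⟩ := j1_eq si (A + B + μ) (a + b) A a hWi ha
  have hkf : ∀ i, ∃ k : ℕ, (fr i).j1 (A + B + μ) (a + b) 0 1 =
      (0 + k * (A + B + μ) + (fr i).m1, 1 + k * (a + b)) := fun i =>
    j1_eq (fr i) (A + B + μ) (a + b) 0 1 (hWf i) fun _ => rfl
  choose kf hkf using hkf
  refine p2_fin (κ := 1 + k0 + ki + ∑ i, kf i) (z := fun i => (fr i).j1 (A + B + μ) (a + b) 0 1)
    (by omega) (by omega) (p2_le s0 B) (p2_le si A) hv ?_ (p2_pos s0 _ _ B b hW0) ?_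
    (p2_pos si _ _ A a hWi) ?_ ?_ ?_ h0 hi hf
  · intro h
    obtain ⟨h1, h2⟩ := p2_zero s0 (A + B + μ) (a + b) B b h
    rw [h2, hb h1]
  · intro h
    obtain ⟨h1, h2⟩ := p2_zero si (A + B + μ) (a + b) A a h
    rw [h2, ha h1]
  · intro i
    simp only [hkf]
    have := hfr i
    omega
  · simp only [hk0, hki, hkf]
    rw [Finset.sum_add_distrib]
    simp only [zero_add]
    rw [← Finset.sum_mul]
    have h1 : ∑ i, (fr i).m1 = μ - s0.m1 - si.m1 := by omega
    have h2 : s0.m1 + si.m1 ≤ μ := by omega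
    rw [h1]
    have h3 : (1 + k0 + ki + ∑ i, kf i) * (A + B + μ) = (A + B + μ) + k0 * (A + B + μ) +
      ki * (A + B + μ) + (∑ i, kf i) * (A + B + μ) := by ring
    rw [h3]
    omega
  · simp only [hk0, hki, hkf]
    rw [Finset.sum_add_distrib, ← Finset.sum_mul]
    simp only [Finset.sum_const, Finset.card_univ, Fintype.card_fin, smul_eq_mul, mul_one]
    ring

end TV
end MotMono
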