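import Pool.Agent.Lib.MP_4e5fcd_ag.TV.D7
import Pool.Agent.Lib.MP_4e5fcd_ag.TV.P2

/-!
# TV-P3: the zeta function of a tree lies in `polarRing s₀`

Structural induction, with `R(X) = Zs X - [(A,a) iss] g(A,a) g(j1 X) - [(B,b) iss] g(B,b) g(j2 X)`.
* `triv`: `Zs = g(A,a) g(B,b)`, `j1 = (B,b)`, `j2 = (A,a)`: if one of the lines is `iss` then
  (`Ha`, `Hb`) the other is not, and `R = 0`; if none is `iss` both factors are in the ring.
* `strict M`: `B = 0`, so `(B,b)` is not `iss`; `Zs = g(A,a) g(M,1)`, `j1 = (M,1)`; `(M,1)` is not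
  `iss` because `M` is not good (`NG`). `(A,a)` iss: `R = 0`; else both factors are in the ring.
* `node`: `j1 X = j2 si`, `j2 X = j2 s0`; the subtree `s` with second line `(C,c)`:
  `Zs s = R(s) + [(N,ν) iss] g(N,ν) g(j1 s) + [(C,c) iss] g(C,c) g(j2 s)`. So
  `R(X) = C (L - 1 - n) g(N,ν) + ∑ R(s) + [(N,ν) iss] g(N,ν) ∑ g(j1 s)` (`(0,1)` is not `iss`).
  If `(N,ν)` is not `iss` then `g(N,ν)` is in the ring; if it is: `bracket_mem` (`lab.isLeft` by `NG`).
-/

namespace MotMono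
namespace TV

variable {r : ℕ}

open Classical in
theorem Zs_sub_mem {s₀ : ℚ} (X : Str r) (A a B b : ℕ) (hX : X.WF A B) (hG : NG s₀ X A B)
    (ha : A = 0 → a = 1) (hb : B = 0 → b = 1) (hO : OK s₀ X A a B b)
    (Ha : iss s₀ (A, a) → ¬ iss s₀ (X.j1 A a B b))
    (Hb : iss s₀ (B, b) → ¬ iss s₀ (X.j2 A a B b)) :
    Zs X A a B b - (if iss s₀ (A, a) then gg A a * gg (X.j1 A a B b).1 (X.j1 A a B b).2 else 0) -
      (if iss s₀ (B, b) then gg B b * gg (X.j2 A a B b).1 (X.j2 A a B b).2 else 0) ∈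
        polarRing s₀ := by
  induction X generalizing A a B b with
  | triv =>
    simp only [Zs, Str.j1, Str.j2] at Ha Hb ⊢
    by_cases h1 : iss s₀ (A, a)
    · have h2 := Ha h1
      rw [if_pos h1, if_neg h2, sub_self, sub_zero]
      exact (polarRing s₀).zero_mem
    · rw [if_neg h1, sub_zero]
      by_cases h2 : iss s₀ (B, b)
      · rw [if_pos h2, mul_comm (gg B b), sub_self]
        exact (polarRing s₀).zero_mem
      · rw [if_neg h2, sub_zero]
        exact (polarRing s₀).mul_mem (gg_mem A a h1) (gg_mem B b h2)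
  | strict M =>
    simp only [Zs, Str.j1, Str.j2] at Ha Hb ⊢
    have hB : B = 0 := hX.2
    have h2 : ¬ iss s₀ (B, b) := fun h => by
      have := h.1
      simp only [hB, lt_irrefl] at this
    rw [if_neg h2, sub_zero]
    by_cases h1 : iss s₀ (A, a)
    · rw [if_pos h1, sub_self]
      exact (polarRing s₀).zero_mem
    · rw [if_neg h1, sub_zero]
      have h3 : ¬ iss s₀ (M, 1) := fun h => hG (gd_of_iss h)
      exact (polarRing s₀).mul_mem (gg_mem A a h1) (gg_mem M 1 h3)
  | node μ lab s0 si n fr ih0 ihi ihf =>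
    obtain ⟨hμ, hm, hml, hmf, hW0, hWi, hWf⟩ := id hX
    obtain ⟨hGl, hG0, hGi, hGf⟩ := hG
    obtain ⟨hOE, hO0, hOi, hOf⟩ := hO
    simp only [Zs, Str.j1, Str.j2] at Ha Hb ⊢
    have hN : A + B + μ ≠ 0 := by omega
    have hν : A + B + μ = 0 → a + b = 1 := fun h => absurd h hN
    have h01 : ¬ iss s₀ ((0, 1) : ℕ × ℕ) := fun h => absurd h.1 (lt_irrefl 0)
    have e0 := ih0 (A + B + μ) (a + b) B b hW0 hG0 hν hb hO0 (fun h => (hOE h).2.1) Hb
    have ei := ihi (A + B + μ) (a + b) A a hWi hGi hν ha hOi (fun h => (hOE h).2.2.1) Ha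
    have ef : ∀ i, Zs (fr i) (A + B + μ) (a + b) 0 1 -
        (if iss s₀ (A + B + μ, a + b) then gg (A + B + μ) (a + b) *
          gg ((fr i).j1 (A + B + μ) (a + b) 0 1).1 ((fr i).j1 (A + B + μ) (a + b) 0 1).2 else 0) ∈
          polarRing s₀ := by
      intro i
      have h := ihf i (A + B + μ) (a + b) 0 1 (hWf i) (hGf i) hν (fun _ => rfl) (hOf i)
        (fun h => (hOE h).2.2.2 i) (fun h => absurd h h01)
      rw [if_neg h01, sub_zero] at h
      exact h
    have esum := (polarRing s₀).sum_mem fun i (_ : i ∈ (Finset.univ : Finset (Fin n))) => ef i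
    have hC : PowerSeries.C (((Lu : MCˣ) : MC) - 1 - n) ∈ polarRing s₀ := CN.C_mem_polar s₀ _
    by_cases hE : iss s₀ (A + B + μ, a + b)
    · simp only [if_pos hE] at e0 ei esum
      have hl : lab.isLeft = true := hGl (gd_of_iss hE)
      have hbr := bracket_mem hX ha hb hl (hOE hE).1 (hOE hE).2.1 (hOE hE).2.2.1 (hOE hE).2.2.2
      have htot := (polarRing s₀).add_mem ((polarRing s₀).add_mem ((polarRing s₀).add_mem
        e0 ei) esum) hbr
      convert htot using 1
      rw [Finset.sum_sub_distrib, mul_add, Finset.mul_sum]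
      ring
    · simp only [if_neg hE, sub_zero] at e0 ei esum
      have hg := (polarRing s₀).mul_mem hC (gg_mem (A + B + μ) (a + b) hE)
      have htot := (polarRing s₀).add_mem ((polarRing s₀).add_mem ((polarRing s₀).add_mem
        e0 ei) esum) hg
      convert htot using 1
      ring

open Classical in
theorem Zs_mem {s₀ : ℚ} (X : Str r) (hX : X.WF 0 0) (hG : NG s₀ X 0 0)
    (hs : ((X.nds 0 1 0 1).map fun e => if gd s₀ e.N then 2 - (e.val : ℤ) else 0).sum = 0) :
    Zs X 0 1 0 1 ∈ polarRing s₀ := by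
  have h := Zs_sub_mem X 0 1 0 1 hX hG (fun _ => rfl) (fun _ => rfl) (ok_root X hX hG hs)
    (fun h => absurd h.1 (lt_irrefl 0)) (fun h => absurd h.1 (lt_irrefl 0))
  have h0 : ¬ iss s₀ ((0, 1) : ℕ × ℕ) := fun h => absurd h.1 (lt_irrefl 0)
  rw [if_neg h0, if_neg h0, sub_zero, sub_zero] at h
  exact h

end TV
end MotMono
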