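import Pool.Agent.Lib.MP_4e5fcd_ag.TV.E4
import Pool.Agent.Lib.MP_4e5fcd_ag.TV.C7
import Pool.Agent.Lib.MP_4e5fcd_ag.TV.P3
import Pool.Agent.Lib.MP_4e5fcd_ag.TV.B7
import Pool.Agent.Lib.MP_4e5fcd_ag.CN.P3

/-!
# TV-E5: zeta functions of families

`expo_pow`: `expo s₀ ^ N = exp (2 π i s₀ N) = 1` iff `s₀ N` is an integer (`Complex.exp_eq_one_iff`).
`zmot_mem`: `all_left`, `sum_zero` (not `Near` implies not `Vis` at `0`), `NG_of_nds` (`strs`: hypothesis `hM`),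
`wf_of_rz`, `Zs_mem`, `Zmot_of_rz`, `C_mem_polar`.
`reg_two`: let `I = span F`, `s₀` with `¬ Near χ I 0 (expo s₀)`, `Γ` over `{H ≠ 0}`. Split
`Γ = Γ₀ ∪ Γ₁` (base point `0` / not `0`, constructible; `Zf_union`). `Γ₀`: `Zf_zero` and `zmot_mem`. `Γ₁`: let `S'` be the set of
all polynomials `h` such that `Zf I Γ' ∈ polarRing s₀` for all constructible `Γ'` over `{h ≠ 0}`. Every `q ≠ 0` with
`H (q) ≠ 0` has an `h ∈ S'` with `h (q) ≠ 0`: if some `F_j (q) ≠ 0` take `h = F_j` (`Zf_off`, `C_mem_polar`); otherwise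
`good_curve` gives `h` with `Reg χ I q h`, and `¬ Near χ I q (expo s₀)` by `near_of_near`. The ideal generated by `S'` is
generated by a finite subset `S` (Noetherian), so for each such `q` some `h ∈ S` has `h (q) ≠ 0`: `cover_polar` (CN/P4).
Compare CN/G2.
-/

open MvPolynomial

namespace MotMono
namespace TV

open CN

/-- finitely many elements of `T` have the same zeros as `T` -/
private theorem e5_cover {N : ℕ} (T : Set (MvPolynomial (Fin N) ℂ)) :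
    ∃ S : Finset (MvPolynomial (Fin N) ℂ), (∀ h ∈ S, h ∈ T) ∧
      ∀ x : Fin N → ℂ, (∃ h ∈ T, eval x h ≠ 0) → ∃ h ∈ S, eval x h ≠ 0 := by
  classical
  obtain ⟨P', hP', hspan⟩ := (Submodule.fg_span_iff_fg_span_finset_subset T).1
    (IsNoetherian.noetherian (Submodule.span (MvPolynomial (Fin N) ℂ) T))
  refine ⟨P', fun h hh' => hP' hh', fun x hx => ?_⟩
  obtain ⟨g, hg, hgx⟩ := hx
  by_contra hcon
  push Not at hcon
  have h2 : Ideal.span (P' : Set (MvPolynomial (Fin N) ℂ)) ≤ RingHom.ker (eval x) := by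
    rw [Ideal.span_le]
    exact fun g hg => hcon g hg
  have h3 : g ∈ Ideal.span (P' : Set (MvPolynomial (Fin N) ℂ)) := by
    have h4 : g ∈ Ideal.span T := Ideal.subset_span hg
    have h5 : Ideal.span T = Ideal.span (P' : Set (MvPolynomial (Fin N) ℂ)) := hspan
    rwa [h5] at h4
  exact hgx (h2 h3)

private theorem e5_constr_zero {N : ℕ} {σ : Type} :
    Constr {z : σ ⊕ Fin N → ℂ | ∀ i, z (Sum.inr i) = 0} := by
  have h := (constr_singleton (0 : Fin N → ℂ)).comp (Sum.inr : Fin N → σ ⊕ Fin N)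
  have e : {x : σ ⊕ Fin N → ℂ | (fun j => x (Sum.inr j)) ∈ ({0} : Set (Fin N → ℂ))} =
      {z : σ ⊕ Fin N → ℂ | ∀ i, z (Sum.inr i) = 0} := by
    ext z
    rw [Set.mem_ofPred_eq, Set.mem_singleton_iff, Set.mem_ofPred_eq, funext_iff]
    rfl
  rwa [e] at h

theorem expo_pow (s₀ : ℚ) (N : ℕ) : expo s₀ ^ N = 1 ↔ ∃ z : ℤ, s₀ * N = z := by
  have e1 : expo s₀ ^ N = Complex.exp ((N : ℂ) * (2 * Real.pi * Complex.I * s₀)) := by
    rw [expo, ← Complex.exp_nat_mul]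
  have hpi : (2 * Real.pi * Complex.I : ℂ) ≠ 0 := Complex.two_pi_I_ne_zero
  rw [e1, Complex.exp_eq_one_iff]
  constructor
  · rintro ⟨z, hz⟩
    refine ⟨z, ?_⟩
    have h1 : ((s₀ : ℂ) * N) * (2 * Real.pi * Complex.I) = (z : ℂ) * (2 * Real.pi * Complex.I) := by
      rw [← hz]
      ring
    have h2 := mul_right_cancel₀ hpi h1
    exact_mod_cast h2
  · rintro ⟨z, hz⟩
    refine ⟨z, ?_⟩
    have h2 : (s₀ : ℂ) * N = (z : ℂ) := by exact_mod_cast hz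
    rw [← h2]
    ring

theorem zmot_mem {χ : K0 →+* ℤ} (hχ : IsEulerCharF χ) {r : ℕ} {F : Fin r → P2} {X : Str r}
    (h : Rz F 0 0 X) (hX : X ≠ Str.triv) {s₀ : ℚ}
    (hn : ¬ CN.Near χ (Ideal.span (Set.range F)) 0 (expo s₀))
    (hM : ∀ M ∈ X.strs, ¬ gd s₀ M) : Zmot (Ideal.span (Set.range F)) ∈ polarRing s₀ := by
  have hv : ¬ CN.Vis χ (Ideal.span (Set.range F)) 0 (expo s₀) := fun hv =>
    hn fun ε hε => ⟨0, by simpa using hε, hv⟩
  have hl := all_left hχ h hX (expo s₀) hv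
  have hs := sum_zero hχ h hX (expo s₀) hv
  have hW := wf_of_rz h
  have hG : NG s₀ X 0 0 :=
    NG_of_nds X 0 1 0 1 (fun e he hg => hl e he ((expo_pow s₀ e.N).2 hg.2)) hM
  rw [Zmot_of_rz h]
  refine Subring.mul_mem _ (C_mem_polar s₀ _) (Zs_mem X hW hG ?_)
  refine Eq.trans ?_ hs
  congr 1
  refine Multiset.map_congr rfl fun e he => ?_
  have hp := nds_pos X 0 1 0 1 hW e he
  by_cases hg : gd s₀ e.N
  · rw [if_pos hg, if_pos ((expo_pow s₀ e.N).2 hg.2)]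
  · rw [if_neg hg, if_neg fun hc => hg ⟨hp, (expo_pow s₀ e.N).1 hc⟩]

theorem reg_two {χ : K0 →+* ℤ} (hχ : IsEulerCharF χ) {r s : ℕ} {F : Fin r → P2}
    {p : Fin s → P2} {m : Fin s → ℕ} {J : Fin r → P2} (h : CD F p m J) {H : P2}
    (hH : ∀ q : Fin 2 → ℂ, eval q H ≠ 0 → q ≠ 0 →
      (∃ j, eval q (J j) ≠ 0) ∧ (∃ f ∈ tj (∏ l, p l), eval q f ≠ 0) ∧
        ∀ i, eval 0 (p i) ≠ 0 → eval q (p i) ≠ 0)
    (hz : ∀ s₀ : ℚ, ¬ CN.Near χ (Ideal.span (Set.range F)) 0 (expo s₀) →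
      Zmot (Ideal.span (Set.range F)) ∈ polarRing s₀) :
    CN.Reg χ (Ideal.span (Set.range F)) 0 H := by
  classical
  intro s₀ hs σ _ Γ hΓ hne
  have hA := e5_constr_zero (N := 2) (σ := σ)
  have e : Γ = (Γ ∩ {z | ∀ i, z (Sum.inr i) = 0}) ∪ (Γ \ {z | ∀ i, z (Sum.inr i) = 0}) :=
    (Set.inter_union_sdiff _ _).symm
  rw [e, Zf_union _ (hΓ.inter hA) (hΓ.diff hA) (Set.disjoint_sdiff_inter.symm)]
  refine Subring.add_mem _ ?_ ?_
  · rw [Zf_zero _ (hΓ.inter hA) fun z hz => hz.2]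
    exact Subring.mul_mem _ (C_mem_polar s₀ _) (hz s₀ hs)
  · obtain ⟨S, hS1, hS2⟩ := e5_cover {g : P2 | ∀ Γ' : Set (σ ⊕ Fin 2 → ℂ), Constr Γ' →
      (∀ z ∈ Γ', eval (fun i => z (Sum.inr i)) g ≠ 0) →
        Zf (Ideal.span (Set.range F)) Γ' ∈ polarRing s₀}
    refine cover_polar _ s₀ S (fun g hg => hS1 g hg) _ (hΓ.diff hA) ?_
    rintro z ⟨hz1, hz2⟩
    rw [Set.mem_ofPred_eq] at hz2
    push Not at hz2
    obtain ⟨i, hi⟩ := hz2
    have hq := hne z hz1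
    refine hS2 _ ?_
    set q : Fin 2 → ℂ := fun i => z (Sum.inr i) with hqdef
    have hq0 : q ≠ 0 := fun h0 => hi (congrFun h0 i)
    by_cases hF : ∀ j, eval q (F j) = 0
    · obtain ⟨hJ, ht, -⟩ := hH q hq hq0
      obtain ⟨⟨g, hg, hr⟩, -⟩ := good_curve hχ h q hF hJ ht
      refine ⟨g, ?_, hg⟩
      intro Γ' hΓ' hne'
      exact hr s₀ (fun hn => hs (near_of_near hχ h hH q hq hq0 hn)) σ Γ' hΓ' hne'
    · push Not at hF
      obtain ⟨j, hj⟩ := hF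
      refine ⟨F j, ?_, hj⟩
      intro Γ' hΓ' hne'
      have hoff : ∀ z ∈ Γ', ∃ f ∈ Ideal.span (Set.range F),
          eval (fun i => z (Sum.inr i)) f ≠ 0 :=
        fun z hz => ⟨F j, Ideal.subset_span ⟨j, rfl⟩, hne' z hz⟩
      rw [Zf_off _ hΓ' hoff]
      exact C_mem_polar s₀ _

end TV
end MotMono
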