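import Pool.Agent.Lib.MP_4e5fcd_ag.TV.Base
import Pool.Agent.Lib.MP_4e5fcd_ag.TV.A6

/-!
# TV-W1: the numbers `m1`, `m2` of a resolution tree are orders on the lines

`rx f = f (0, y)`, `ry f = f (x, 0)`, `OrdL q k`: the tuple `q` of polynomials in one variable has
order exactly `k` at `0`.
-/

open MvPolynomial

namespace MotMono
namespace TV

/-- `f (0, y)` -/
noncomputable def rx (f : P2) : Polynomial ℂ := aeval ![0, Polynomial.X] f

/-- `f (x, 0)` -/
noncomputable def ry (f : P2) : Polynomial ℂ := aeval ![Polynomial.X, 0] f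

/-- the tuple has order exactly `k` at `0` -/
def OrdL {r : ℕ} (q : Fin r → Polynomial ℂ) (k : ℕ) : Prop :=
  (∀ j, ∀ l < k, (q j).coeff l = 0) ∧ ∃ j, (q j).coeff k ≠ 0

private theorem w1_shift {r : ℕ} {q q' : Fin r → Polynomial ℂ} {k m : ℕ}
    (h : ∀ j, q j = Polynomial.X ^ k * q' j) (h' : OrdL q' m) : OrdL q (k + m) := by
  obtain ⟨h1, j, h2⟩ := h'
  refine ⟨fun j l hl => ?_, j, ?_⟩
  · rw [h, Polynomial.coeff_X_pow_mul']
    split_ifs with h3
    · exact h1 j _ (by omega)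
    · rfl
  · rw [h, Polynomial.coeff_X_pow_mul', if_pos (by omega), Nat.add_sub_cancel_left]
    exact h2

private theorem w1_rx0 (f : P2) : (rx f).coeff 0 = eval 0 f := by
  rw [Polynomial.coeff_zero_eq_eval_zero]
  have h6 : (Polynomial.evalRingHom (0 : ℂ)).comp
      (aeval ![0, Polynomial.X] : P2 →ₐ[ℂ] Polynomial ℂ).toRingHom = (eval 0 : P2 →+* ℂ) := by
    apply MvPolynomial.ringHom_ext
    · intro r
      simp
    · intro c
      fin_cases c <;> simp
  exact congrFun (congrArg DFunLike.coe h6) f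

private theorem w1_ry0 (f : P2) : (ry f).coeff 0 = eval 0 f := by
  rw [Polynomial.coeff_zero_eq_eval_zero]
  have h6 : (Polynomial.evalRingHom (0 : ℂ)).comp
      (aeval ![Polynomial.X, 0] : P2 →ₐ[ℂ] Polynomial ℂ).toRingHom = (eval 0 : P2 →+* ℂ) := by
    apply MvPolynomial.ringHom_ext
    · intro r
      simp
    · intro c
      fin_cases c <;> simp
  exact congrFun (congrArg DFunLike.coe h6) f

private theorem w1_der (f : P2) : Polynomial.derivative (rx f) = rx (pderiv 1 f) := by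
  unfold rx
  induction f using MvPolynomial.induction_on with
  | C a => simp
  | add p q hp hq => simp [hp, hq]
  | mul_X p i hp =>
    rw [map_mul, Polynomial.derivative_mul, hp, (pderiv (1 : Fin 2)).leibniz]
    fin_cases i
    · simp
    · simp
      ring

private theorem w1_rx1 (f : P2) : (rx f).coeff 1 = eval 0 (pderiv 1 f) := by
  rw [← w1_rx0, ← w1_der, Polynomial.coeff_derivative]
  simp

private theorem w1_ry_ch (f : P2) : ry (ch 0 f) = ry f := by
  unfold ry ch
  have h6 : (aeval ![Polynomial.X, 0] : P2 →ₐ[ℂ] Polynomial ℂ).comp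
      (aeval (cv 0) : P2 →ₐ[ℂ] P2) = (aeval ![Polynomial.X, 0] : P2 →ₐ[ℂ] Polynomial ℂ) := by
    apply MvPolynomial.algHom_ext
    intro c
    fin_cases c <;> simp [cv]
  exact congrFun (congrArg DFunLike.coe h6) f

private theorem w1_ry_sw (f : P2) : ry (sw f) = rx f := by
  unfold ry rx sw
  have h6 : (aeval ![Polynomial.X, 0] : P2 →ₐ[ℂ] Polynomial ℂ).comp
      (aeval sv : P2 →ₐ[ℂ] P2) = (aeval ![0, Polynomial.X] : P2 →ₐ[ℂ] Polynomial ℂ) := by
    apply MvPolynomial.algHom_ext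
    intro c
    fin_cases c <;> simp [sv]
  exact congrFun (congrArg DFunLike.coe h6) f

private theorem w1_ryX (f : P2) (μ : ℕ) : ry (MvPolynomial.X 0 ^ μ * f) =
    Polynomial.X ^ μ * ry f := by
  simp [ry]

private theorem w1_ch_mul (f g : P2) : ch 0 (f * g) = ch 0 f * ch 0 g := by
  simp [ch]

private theorem w1_ch_F (J J' : P2) (A B μ : ℕ) (h : ch 0 J = MvPolynomial.X 0 ^ μ * J') :
    ch 0 (MvPolynomial.X 0 ^ A * MvPolynomial.X 1 ^ B * J) =
      MvPolynomial.X 0 ^ (A + B + μ) * MvPolynomial.X 1 ^ B * J' := by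
  rw [w1_ch_mul, h, w1_ch_mul]
  have h1 : ch 0 ((MvPolynomial.X 0 : P2) ^ A) = MvPolynomial.X 0 ^ A := by
    simp [ch, cv]
  have h2 : ch 0 ((MvPolynomial.X 1 : P2) ^ B) =
      (MvPolynomial.X 0 * MvPolynomial.X 1) ^ B := by
    simp [ch, cv]
  rw [h1, h2]
  ring

private theorem w1_cancel {r : ℕ} {F J J' : Fin r → P2} {A B : ℕ}
    (h : ∀ j, F j = MvPolynomial.X 0 ^ A * MvPolynomial.X 1 ^ B * J j)
    (h' : ∀ j, F j = MvPolynomial.X 0 ^ A * MvPolynomial.X 1 ^ B * J' j) : J = J' := by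
  funext j
  have h1 : (MvPolynomial.X 0 ^ A * MvPolynomial.X 1 ^ B : P2) ≠ 0 :=
    mul_ne_zero (pow_ne_zero _ (X_ne_zero 0)) (pow_ne_zero _ (X_ne_zero 1))
  exact mul_left_cancel₀ h1 ((h j).symm.trans (h' j))

theorem m_eq {r : ℕ} {F : Fin r → P2} {A B : ℕ} {X : Str r} (h : Rz F A B X)
    (J : Fin r → P2) (hJ : ∀ j, F j = MvPolynomial.X 0 ^ A * MvPolynomial.X 1 ^ B * J j) :
    (0 < A → OrdL (fun j => rx (J j)) X.m1) ∧ (0 < B → OrdL (fun j => ry (J j)) X.m2) := by
  induction h generalizing J with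
  | triv F J0 A B hA hF h =>
    have e := w1_cancel hJ hF
    subst e
    obtain ⟨j, hj⟩ := h
    refine ⟨fun _ => ⟨fun j l hl => absurd hl (Nat.not_lt_zero l), j, ?_⟩,
      fun _ => ⟨fun j l hl => absurd hl (Nat.not_lt_zero l), j, ?_⟩⟩
    · rw [show (Str.triv : Str r).m1 = 0 from rfl, w1_rx0]
      exact hj
    · rw [show (Str.triv : Str r).m2 = 0 from rfl, w1_ry0]
      exact hj
  | strict F g v A M hA hM hF hv hv' h =>
    refine ⟨fun _ => ?_, fun h0 => absurd h0 (lt_irrefl 0)⟩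
    have e : J = fun j => v ^ M * g j := by
      refine w1_cancel hJ (B := 0) fun j => ?_
      rw [hF, pow_zero, mul_one, mul_assoc]
    subst e
    have h1 : Polynomial.X ∣ rx v := by
      rw [Polynomial.X_dvd_iff, w1_rx0, hv]
    obtain ⟨e, he⟩ := h1
    have he0 : e.coeff 0 ≠ 0 := by
      intro h0
      apply hv'
      rw [← w1_rx1, he, Polynomial.coeff_X_mul, h0]
    have h2 : ∀ j, rx (v ^ M * g j) = Polynomial.X ^ M * (e ^ M * rx (g j)) := by
      intro j
      have h3 : rx (v ^ M * g j) = rx v ^ M * rx (g j) := by simp [rx]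
      rw [h3, he]
      ring
    have h4 : OrdL (fun j => e ^ M * rx (g j)) 0 := by
      obtain ⟨j, hj⟩ := h
      refine ⟨fun j l hl => absurd hl (Nat.not_lt_zero l), j, ?_⟩
      rw [Polynomial.mul_coeff_zero, w1_rx0]
      refine mul_ne_zero ?_ hj
      rw [Polynomial.coeff_zero_eq_eval_zero, Polynomial.eval_pow,
        ← Polynomial.coeff_zero_eq_eval_zero]
      exact pow_ne_zero _ he0
    exact w1_shift h2 h4
  | node F J0 A B μ hμ hF hJ0 hJ' n ws hinj hw0 hz hnz lab s0 si fr hlab h0 hi hf ih0 ihi ihf =>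
    have e := w1_cancel hJ hF
    subst e
    constructor
    · intro hA
      have h1 : ∀ j, ∃ K, ch 0 (sw (J j)) = MvPolynomial.X 0 ^ μ * K := fun j => by
        obtain ⟨K, hK, -⟩ := ch_ord 0 (sw (J j)) μ ((ordP_sw _ _).2 (hJ0 j))
        exact ⟨K, hK⟩
      choose K hK using h1
      have h2 : ∀ j, sw (F j) = MvPolynomial.X 0 ^ B * MvPolynomial.X 1 ^ A * sw (J j) := by
        intro j
        rw [hF]
        simp only [sw, map_mul, map_pow, aeval_X, sv, Matrix.cons_val_zero, Matrix.cons_val_one]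
        ring
      have h3 := (ihi K fun j => by
        show ch 0 (sw (F j)) = _
        rw [h2, w1_ch_F _ _ _ _ _ (hK j), show B + A + μ = A + B + μ by ring]).2 hA
      have h4 : ∀ j, rx (J j) = Polynomial.X ^ μ * ry (K j) := by
        intro j
        rw [← w1_ry_sw, ← w1_ry_ch, hK, w1_ryX]
      exact w1_shift h4 h3
    · intro hB
      have h1 : ∀ j, ∃ K, ch 0 (J j) = MvPolynomial.X 0 ^ μ * K := fun j => by
        obtain ⟨K, hK, -⟩ := ch_ord 0 (J j) μ (hJ0 j)
        exact ⟨K, hK⟩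
      choose K hK using h1
      have h3 := (ih0 K fun j => by
        show ch 0 (F j) = _
        rw [hF, w1_ch_F _ _ _ _ _ (hK j)]).2 hB
      have h4 : ∀ j, ry (J j) = Polynomial.X ^ μ * ry (K j) := by
        intro j
        rw [← w1_ry_ch, hK, w1_ryX]
      exact w1_shift h4 h3

end TV
end MotMono
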